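import Pool.Agent.Lib.MP_16fe43_al.TreeR4

/-!
# Groups with finite free resolutions
-/

set_option autoImplicit false

universe u v w

namespace Pool.Agent.Lib.MP_16fe43_al

open MulAction (stabilizer)

private theorem vm_equiv {R : Type u} {S : Type v} [Ring R] [Ring S] (e : R ≃+* S) {I J : Type*}
    [Fintype I] (v : I → S) (A : Matrix I J R) :
    Matrix.vecMul v (A.map e) = fun j => e (Matrix.vecMul (fun i => e.symm (v i)) A j) := by
  funext j
  have h := RingHom.map_vecMul (e : R →+* S) A (fun i => e.symm (v i)) j
  have h' : ((e : R →+* S) : R → S) ∘ (fun i => e.symm (v i)) = v := by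
    funext i
    exact e.apply_symm_apply (v i)
  rw [h'] at h
  exact h.symm

private theorem vm_equiv_zero {R : Type u} {S : Type v} [Ring R] [Ring S] (e : R ≃+* S)
    {I J : Type*} [Fintype I] (v : I → S) (A : Matrix I J R) :
    Matrix.vecMul v (A.map e) = 0 ↔ Matrix.vecMul (fun i => e.symm (v i)) A = 0 := by
  rw [vm_equiv]
  constructor
  · intro h
    funext j
    have h1 := congrFun h j
    exact (map_eq_zero_iff e e.injective).1 h1
  · intro h
    funext j
    rw [h]
    exact map_zero e

private theorem hasRes_equiv {R : Type u} {S : Type v} [Ring R] [Ring S] (e : R ≃+* S) (k : ℕ) :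
    ∀ (m n : ℕ) (A : Matrix (Fin m) (Fin n) R), HasRes R k m n A → HasRes S k m n (A.map e) := by
  induction k with
  | zero =>
    intro m n A h v hv
    have h1 := h _ ((vm_equiv_zero e v A).1 hv)
    funext i
    exact (map_eq_zero_iff e.symm e.symm.injective).1 (congrFun h1 i)
  | succ k ih =>
    rintro m n A ⟨a, B, hB, hres⟩
    refine ⟨a, B.map e, ?_, ih a m B hres⟩
    intro v
    rw [vm_equiv_zero e v A, hB]
    constructor
    · rintro ⟨t, ht⟩
      refine ⟨fun i => e (t i), ?_⟩
      rw [vm_equiv]
      funext j
      have h1 : (fun i => e.symm (e (t i))) = t := by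
        funext i
        exact e.symm_apply_apply (t i)
      rw [h1, ← ht]
      exact (e.apply_symm_apply (v j)).symm
    · rintro ⟨t, ht⟩
      refine ⟨fun i => e.symm (t i), ?_⟩
      rw [ht, vm_equiv]
      funext j
      exact e.symm_apply_apply _

theorem FFR.of_equiv {R : Type u} {S : Type v} [Ring R] [Ring S] (e : R ≃+* S) (h : FFR R) :
    FFR S := by
  intro m n A
  obtain ⟨k, hk⟩ := h m n (A.map e.symm)
  refine ⟨k, ?_⟩
  have h1 := hasRes_equiv e k m n _ hk
  have h2 : (A.map e.symm).map e = A := by
    refine Matrix.ext fun i j => ?_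
    exact e.apply_symm_apply (A i j)
  rwa [h2] at h1

/-- A group `D` is called coherent regular here if, for every subgroup `D'` of `D`, every finitely
presented `ℤ[D']`-module has a finite resolution by finitely generated free modules. -/
def RegGrp (D : Type u) [Group D] : Prop :=
  ∀ D' : Subgroup D, FFR (MonoidAlgebra ℤ D')

theorem RegGrp.ffr {D : Type u} [Group D] (h : RegGrp D) : FFR (MonoidAlgebra ℤ D) :=
  FFR.of_equiv (MonoidAlgebra.mapDomainRingEquiv ℤ (Subgroup.topEquiv (G := D))) (h ⊤)

theorem RegGrp.of_injective {D : Type u} {E : Type v} [Group D] [Group E] (f : D →* E)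
    (hf : Function.Injective f) (h : RegGrp E) : RegGrp D := by
  intro D'
  exact FFR.of_equiv (MonoidAlgebra.mapDomainRingEquiv ℤ
    (D'.equivMapOfInjective f hf).symm) (h (D'.map f))

theorem rgOK_reg {G : Type u} [Group G] : RgOK (fun L : Subgroup G => RegGrp L) where
  conj g H h := by
    have e : H ≃* H.map (MulAut.conj g).toMonoidHom :=
      H.equivMapOfInjective _ (MulAut.conj g).injective
    exact h.of_injective e.symm.toMonoidHom e.symm.injective
  mono H K hKH h := h.of_injective (Subgroup.inclusion hKH) (Subgroup.inclusion_injective hKH)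

theorem baseOK_reg {G : Type u} [Group G] (W : AddSubgroup (K1 (MonoidAlgebra ℤ G))) :
    BaseOK.{u, w} (fun L : Subgroup G => RegGrp L) W := by
  intro X _ r hr hU I _ _ x hx N hN hnil
  rw [base_zero hr hU x (fun i => (hx i).ffr) N hN hnil]
  exact W.zero_mem

end Pool.Agent.Lib.MP_16fe43_al
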