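import Pool.Agent.Lib.MP_16fe43_al.TreeF1
import Pool.Agent.Lib.MP_16fe43_al.TreeR5

/-!
# The final theorems
-/

set_option autoImplicit false

universe u v w

namespace Pool.Agent.Lib.MP_16fe43_al

open MulAction (stabilizer)

/-- `D` is stably regular if all the groups `D × ℤ^k` are regular: for every subgroup `D'` of
`D × ℤ^k`, every finitely presented `ℤ[D']`-module has a finite resolution by finitely generated
free modules. -/
def StReg (D : Type u) [Group D] : Prop :=
  ∀ k : ℕ, RegGrp (D × (Fin k → Multiplicative ℤ))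

theorem StReg.of_injective {D : Type u} {E : Type v} [Group D] [Group E] (f : D →* E)
    (hf : Function.Injective f) (h : StReg E) : StReg D := fun k =>
  RegGrp.of_injective (f.prodMap (MonoidHom.id (Fin k → Multiplicative ℤ)))
    (Prod.map_injective.2 ⟨hf, Function.injective_id⟩) (h k)

section

variable {G : Type u} [Group G] {V : Type w} [MulAction G V] {T : SimpleGraph V}

/-- the class group is generated by the images of the vertex groups and of the axis groups -/
theorem tree_gen (hT : TAct G T) (hdrop : BddDrops G T (fun D => RegGrp D))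
    (hE : ∀ a b : V, T.Adj a b →
      Subsingleton (BHS16.K0Red (stabilizer G a ⊓ stabilizer G b : Subgroup G))) :
    BHS16.trivialUnits G ⊔
      (⨆ v : V, (BHS16.K1.map (BHS16.grMap (stabilizer G v).subtype)).range) ⊔
      (⨆ g : {g : G // (∀ v : V, g • v ≠ v) ∧ ¬ RegGrp (axisStab T g)},
        (BHS16.K1.map (BHS16.grMap (axisGroup T g.1).subtype)).range) = ⊤ := by
  rw [eq_top_iff]
  set W' := BHS16.trivialUnits G ⊔
      (⨆ v : V, (BHS16.K1.map (BHS16.grMap (stabilizer G v).subtype)).range) ⊔
      (⨆ g : {g : G // (∀ v : V, g • v ≠ v) ∧ ¬ RegGrp (axisStab T g)},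
        (BHS16.K1.map (BHS16.grMap (axisGroup T g.1).subtype)).range) with hW'
  let W : AddSubgroup (K1 (MonoidAlgebra ℤ G)) := W'.comap (toB (MonoidAlgebra ℤ G))
  have hIm : ∀ L : Subgroup G, (BHS16.K1.map (BHS16.grMap L.subtype)).range ≤ W' → ImOK W L := by
    intro L hL z
    show toB _ (K1.map (MonoidAlgebra.mapDomainRingHom ℤ L.subtype) z) ∈ W'
    rw [toB_map]
    exact hL ⟨toB _ z, rfl⟩
  have key : ∀ z : K1 (MonoidAlgebra ℤ G), z ∈ W := by
    intro z
    refine tree_K1 hT rgOK_reg (fun y hy => ?_) (fun v => ?_) (fun a b hab => ?_)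
      (baseOK_reg W) ?_ (fun d hd => deep_of_bdd hT rgOK_reg hdrop d hd) z
    · exact AddSubgroup.mem_sup_left (AddSubgroup.mem_sup_left hy)
    · refine hIm _ (le_trans ?_ le_sup_left)
      exact le_trans (le_iSup (fun v : V =>
        (BHS16.K1.map (BHS16.grMap (stabilizer G v).subtype)).range) v) le_sup_right
    · have h1 : stabilizer G ((a, b) : V × V) = stabilizer G a ⊓ stabilizer G b := by
        ext g
        constructor
        · intro h
          have h1 : g • ((a, b) : V × V) = (a, b) := h
          exact ⟨congrArg Prod.fst h1, congrArg Prod.snd h1⟩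
        · intro h
          exact Prod.ext h.1 h.2
      rw [h1]
      exact hE a b hab
    · refine linkOK_of_axis hT (fun g hg hR => hIm _ (le_trans ?_ le_sup_right))
      exact le_iSup (fun g : {g : G // (∀ v : V, g • v ≠ v) ∧ ¬ RegGrp (axisStab T g)} =>
        (BHS16.K1.map (BHS16.grMap (axisGroup T g.1).subtype)).range) ⟨g, hg, hR⟩
  intro x _
  obtain ⟨z, rfl⟩ := toB_surjective x
  exact key z

/-- vanishing of the low K-theory is inherited -/
theorem tree_stV (hT : TAct G T) (hdrop : BddDrops G T (fun D => StReg D))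
    (hV : ∀ v : V, StV (stabilizer G v))
    (hE : ∀ a b : V, T.Adj a b → ∀ k : ℕ, Subsingleton (BHS16.K0Red
      ((stabilizer G a ⊓ stabilizer G b : Subgroup G) × (Fin k → Multiplicative ℤ))))
    (hL : ∀ g : G, (∀ v : V, g • v ≠ v) → ¬ StReg (axisStab T g) → StV (axisGroup T g)) :
    StV G := by
  rw [stV_iff]
  intro k
  refine wh_prod_rel (Rg := fun D => StReg D) (Rg' := fun L => RegGrp L) hT rgOK_reg ?_
    (baseOK_reg _) hdrop (fun v => (hV v k).1) (fun a b hab => hE a b hab k)
    (fun g hg hR => (hL g hg hR k).1)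
  intro L hL
  exact RegGrp.of_injective (E := L × (Fin k → Multiplicative ℤ))
    (prodTopEquiv L).toMonoidHom (MulEquiv.injective _) (hL k)

end

end Pool.Agent.Lib.MP_16fe43_al
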