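import Pool.Agent.Lib.MP_16fe43_al.NegK

set_option autoImplicit false
set_option linter.unusedSectionVars false

/-!
# Countably many test groups
-/

namespace Pool.Agent.Lib.BHS16

universe u v w

noncomputable section

open Classical in
/-- The intersection of all normal subgroups of the free group which contain the finite set `S`
and have a torsion-free quotient. -/
def relSub {r : ℕ} (S : Finset (FreeGroup (Fin r))) : Subgroup (FreeGroup (Fin r)) :=
  sInf {N | N.Normal ∧ (S : Set (FreeGroup (Fin r))) ⊆ N ∧ ∀ x : FreeGroup (Fin r), ∀ n : ℕ,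
    0 < n → x ^ n ∈ N → x ∈ N}

instance {r : ℕ} (S : Finset (FreeGroup (Fin r))) : (relSub S).Normal := by
  constructor
  intro x hx g
  unfold relSub at hx ⊢
  rw [Subgroup.mem_sInf] at hx ⊢
  intro N hN
  exact hN.1.conj_mem x (hx N hN) g

theorem subset_relSub {r : ℕ} (S : Finset (FreeGroup (Fin r))) {x : FreeGroup (Fin r)}
    (hx : x ∈ S) : x ∈ relSub S := by
  unfold relSub
  rw [Subgroup.mem_sInf]
  intro N hN
  exact hN.2.1 hx

theorem relSub_root {r : ℕ} (S : Finset (FreeGroup (Fin r))) {x : FreeGroup (Fin r)} {n : ℕ}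
    (hn : 0 < n) (hx : x ^ n ∈ relSub S) : x ∈ relSub S := by
  unfold relSub at hx ⊢
  rw [Subgroup.mem_sInf] at hx ⊢
  intro N hN
  exact hN.2.2 x n hn (hx N hN)

/-- The index set of the test groups. -/
abbrev TestIdx : Type := Σ r : ℕ, Finset (FreeGroup (Fin r))

/-- The test group with generators `x₁, …, x_r` and relators `S`: the largest torsion-free
quotient of the finitely presented group `⟨x₁, …, x_r | S⟩`. -/
abbrev TestGrp (j : TestIdx) : Type := FreeGroup (Fin j.1) ⧸ relSub j.2

theorem testGrp_torsionFree (j : TestIdx) : TorsionFree (TestGrp j) := by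
  intro g hg
  obtain ⟨x, rfl⟩ := QuotientGroup.mk_surjective g
  rw [isOfFinOrder_iff_pow_eq_one] at hg
  obtain ⟨n, hn, h⟩ := hg
  rw [← QuotientGroup.mk_pow, QuotientGroup.eq_one_iff] at h
  exact (QuotientGroup.eq_one_iff x).mpr (relSub_root j.2 hn h)

/-- The ring homomorphism of group rings induced by a group homomorphism. -/
abbrev grMap {G : Type u} {H : Type v} [Group G] [Group H] (f : G →* H) :
    IntGroupRing G →+* IntGroupRing H :=
  MonoidAlgebra.mapDomainRingHom ℤ f

theorem grMap_eq_zero {F : Type u} {H : Type v} {G : Type w} [Group F] [Group H] [Group G]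
    (q : F →* H) (θ : H →* G) (x : IntGroupRing F)
    (hinj : ∀ f ∈ x.coeff.support, ∀ f' ∈ x.coeff.support, θ (q f) = θ (q f') → q f = q f')
    (hx : grMap (θ.comp q) x = 0) : grMap q x = 0 := by
  classical
  have h1 : Finsupp.mapDomain θ (Finsupp.mapDomain q x.coeff) = 0 := by
    rw [← Finsupp.mapDomain_comp]
    have := congrArg MonoidAlgebra.coeff hx
    exact this
  have h2 : Finsupp.mapDomain q x.coeff = 0 := by
    have hI : Set.InjOn θ (q '' (x.coeff.support : Set F)) := by
      rintro _ ⟨f, hf, rfl⟩ _ ⟨f', hf', rfl⟩ h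
      exact hinj f hf f' hf' h
    apply Finsupp.mapDomain_injOn _ hI
    · intro h hh
      have := Finsupp.mapDomain_support hh
      rw [Finset.mem_image] at this
      exact this
    · intro h hh
      simp at hh
    · rw [h1, Finsupp.mapDomain_zero]
  apply MonoidAlgebra.coeff_injective
  exact h2

theorem exists_test {G : Type u} [Group G] (hG : TorsionFree G) {n : ℕ}
    (A : GL (Fin n) (IntGroupRing G)) :
    ∃ (j : TestIdx) (θ : TestGrp j →* G) (A' : GL (Fin n) (IntGroupRing (TestGrp j))),
      glMap (grMap θ) A' = A := by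
  classical
  -- the group elements involved
  let T : Finset G := Finset.univ.biUnion fun p : Fin n × Fin n =>
    ((A : Matrix (Fin n) (Fin n) (IntGroupRing G)) p.1 p.2).coeff.support ∪
    (((A⁻¹ : GL (Fin n) (IntGroupRing G)) : Matrix (Fin n) (Fin n) (IntGroupRing G))
      p.1 p.2).coeff.support
  let r := Fintype.card T
  let en : T ≃ Fin r := Fintype.equivFin T
  let π : FreeGroup (Fin r) →* G := FreeGroup.lift fun i => (en.symm i : G)
  let s : G → FreeGroup (Fin r) := fun g => if h : g ∈ T then FreeGroup.of (en ⟨g, h⟩) else 1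
  have hs : ∀ g ∈ T, π (s g) = g := by
    intro g hg
    simp only [s, dif_pos hg, π, FreeGroup.lift_apply_of, Equiv.symm_apply_apply]
  -- lifts of matrices
  let lft : Matrix (Fin n) (Fin n) (IntGroupRing G) →
      Matrix (Fin n) (Fin n) (IntGroupRing (FreeGroup (Fin r))) := fun X =>
    Matrix.of fun i j => MonoidAlgebra.mapDomain s (X i j)
  have hlft : ∀ X : Matrix (Fin n) (Fin n) (IntGroupRing G),
      (∀ i j, (X i j).coeff.support ⊆ T) → (grMap π).mapMatrix (lft X) = X := by
    intro X hX
    apply Matrix.ext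
    intro i j
    change MonoidAlgebra.mapDomain π (MonoidAlgebra.mapDomain s (X i j)) = X i j
    apply MonoidAlgebra.coeff_injective
    rw [MonoidAlgebra.coeff_mapDomain, MonoidAlgebra.coeff_mapDomain, ← Finsupp.mapDomain_comp]
    conv_rhs => rw [← Finsupp.mapDomain_id (v := (X i j).coeff)]
    apply Finsupp.mapDomain_congr
    intro g hg
    exact hs g (hX i j hg)
  set Am := (A : Matrix (Fin n) (Fin n) (IntGroupRing G)) with hAm
  set Bm := ((A⁻¹ : GL (Fin n) (IntGroupRing G)) : Matrix (Fin n) (Fin n) (IntGroupRing G))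
    with hBm
  have hA : (grMap π).mapMatrix (lft Am) = Am := by
    apply hlft
    intro i j g hg
    exact Finset.mem_biUnion.mpr ⟨(i, j), Finset.mem_univ _, Finset.mem_union_left _ hg⟩
  have hB : (grMap π).mapMatrix (lft Bm) = Bm := by
    apply hlft
    intro i j g hg
    exact Finset.mem_biUnion.mpr ⟨(i, j), Finset.mem_univ _, Finset.mem_union_right _ hg⟩
  -- the relators
  let X1 := lft Am * lft Bm - 1
  let X2 := lft Bm * lft Am - 1
  let Φ : Finset (FreeGroup (Fin r)) := Finset.univ.biUnion fun p : Fin n × Fin n =>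
    (X1 p.1 p.2).coeff.support ∪ (X2 p.1 p.2).coeff.support
  let S : Finset (FreeGroup (Fin r)) := ((Φ ×ˢ Φ).image fun p => p.1⁻¹ * p.2).filter
    fun f => π f = 1
  have hSker : relSub S ≤ π.ker := by
    apply sInf_le
    refine ⟨inferInstance, ?_, ?_⟩
    · intro f hf
      have := (Finset.mem_filter.mp (Finset.mem_coe.mp hf)).2
      exact this
    · intro x k hk hx
      rw [MonoidHom.mem_ker, map_pow] at hx
      rw [MonoidHom.mem_ker]
      exact hG _ (isOfFinOrder_iff_pow_eq_one.mpr ⟨k, hk, hx⟩)
  let j : TestIdx := ⟨r, S⟩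
  let q : FreeGroup (Fin r) →* TestGrp j := QuotientGroup.mk' (relSub S)
  let θ : TestGrp j →* G := QuotientGroup.lift (relSub S) π (fun x hx => hSker hx)
  have hθq : θ.comp q = π := by
    ext x; rfl
  have hvan : ∀ x : IntGroupRing (FreeGroup (Fin r)), x.coeff.support ⊆ Φ →
      grMap π x = 0 → grMap q x = 0 := by
    intro x hx h0
    apply grMap_eq_zero q θ
    · intro f hf f' hf' h
      have h1 : π (f⁻¹ * f') = 1 := by
        rw [map_mul, map_inv]
        have : π f = π f' := h
        rw [this, inv_mul_cancel]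
      have h2 : f⁻¹ * f' ∈ S := Finset.mem_filter.mpr ⟨Finset.mem_image.mpr
        ⟨(f, f'), Finset.mem_product.mpr ⟨hx hf, hx hf'⟩, rfl⟩, h1⟩
      exact QuotientGroup.eq.mpr (subset_relSub S h2)
    · rw [hθq]; exact h0
  have hq1 : (grMap q).mapMatrix (lft Am) * (grMap q).mapMatrix (lft Bm) = 1 := by
    rw [← map_mul, ← sub_eq_zero]
    have : (grMap q).mapMatrix (lft Am * lft Bm) - 1 = (grMap q).mapMatrix X1 := by
      simp only [X1]; rw [map_sub, map_one]
    rw [this]
    apply Matrix.ext
    intro i k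
    rw [RingHom.mapMatrix_apply, Matrix.map_apply, Matrix.zero_apply]
    apply hvan
    · intro g hg
      exact Finset.mem_biUnion.mpr ⟨(i, k), Finset.mem_univ _, Finset.mem_union_left _ hg⟩
    · have h0 : (grMap π).mapMatrix X1 = 0 := by
        simp only [X1]
        rw [map_sub, map_mul, map_one, hA, hB, hAm, hBm, Units.mul_inv, sub_self]
      exact congrFun (congrFun h0 i) k
  have hq2 : (grMap q).mapMatrix (lft Bm) * (grMap q).mapMatrix (lft Am) = 1 := by
    rw [← map_mul, ← sub_eq_zero]
    have : (grMap q).mapMatrix (lft Bm * lft Am) - 1 = (grMap q).mapMatrix X2 := by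
      simp only [X2]; rw [map_sub, map_one]
    rw [this]
    apply Matrix.ext
    intro i k
    rw [RingHom.mapMatrix_apply, Matrix.map_apply, Matrix.zero_apply]
    apply hvan
    · intro g hg
      exact Finset.mem_biUnion.mpr ⟨(i, k), Finset.mem_univ _, Finset.mem_union_right _ hg⟩
    · have h0 : (grMap π).mapMatrix X2 = 0 := by
        simp only [X2]
        rw [map_sub, map_mul, map_one, hA, hB, hAm, hBm, Units.inv_mul, sub_self]
      exact congrFun (congrFun h0 i) k
  refine ⟨j, θ, ⟨(grMap q).mapMatrix (lft Am), (grMap q).mapMatrix (lft Bm), hq1, hq2⟩, ?_⟩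
  apply Units.ext
  rw [glMap_coe]
  change (grMap θ).mapMatrix ((grMap q).mapMatrix (lft Am)) = Am
  have h3 : (grMap θ).comp (grMap q) = grMap π := by
    rw [← hθq]; exact (MonoidAlgebra.mapDomainRingHom_comp θ q).symm
  have h4 : (grMap θ).mapMatrix ((grMap q).mapMatrix (lft Am)) =
      ((grMap θ).comp (grMap q)).mapMatrix (lft Am) := rfl
  rw [h4, h3, hA]

/-! ### Functoriality of the trivial units -/

theorem trivialUnits_map {G : Type u} {H : Type v} [Group G] [Group H] (f : G →* H)
    {x : K1 (IntGroupRing G)} (hx : x ∈ trivialUnits G) :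
    K1.map (grMap f) x ∈ trivialUnits H := by
  have : trivialUnits G ≤ (trivialUnits H).comap (K1.map (grMap f)) := by
    unfold trivialUnits
    rw [AddSubgroup.closure_le]
    rintro _ ⟨g, ε, A, hA, rfl⟩
    rw [SetLike.mem_coe, AddSubgroup.mem_comap, K1.map_mk]
    apply AddSubgroup.subset_closure
    refine ⟨f g, ε, glMap (grMap f) A, ?_, rfl⟩
    rw [glMap_coe, hA]
    apply Matrix.ext
    intro i j
    exact MonoidAlgebra.mapDomain_single
  exact this hx

theorem wh_subsingleton_iff (G : Type u) [Group G] :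
    Subsingleton (Wh G) ↔ ∀ x : K1 (IntGroupRing G), x ∈ trivialUnits G := by
  constructor
  · intro h x
    exact (QuotientAddGroup.eq_zero_iff x).mp (h.elim (QuotientAddGroup.mk x) 0)
  · intro h
    refine ⟨fun a b => ?_⟩
    obtain ⟨x, rfl⟩ := QuotientAddGroup.mk_surjective a
    obtain ⟨y, rfl⟩ := QuotientAddGroup.mk_surjective b
    exact QuotientAddGroup.eq.mpr (h _)

theorem K1.map_grMap_comp {F : Type u} {H : Type v} {G : Type w} [Group F] [Group H] [Group G]
    (θ : H →* G) (q : F →* H) (x : K1 (IntGroupRing F)) :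
    K1.map (grMap θ) (K1.map (grMap q) x) = K1.map (grMap (θ.comp q)) x := by
  rw [← K1.map_comp]
  congr 1
  exact congrArg K1.map (MonoidAlgebra.mapDomainRingHom_comp θ q).symm

theorem wh_retract {G : Type u} {H : Type v} [Group G] [Group H] (i : G →* H) (p : H →* G)
    (hpi : p.comp i = MonoidHom.id G) (h : Subsingleton (Wh H)) : Subsingleton (Wh G) := by
  rw [wh_subsingleton_iff] at h ⊢
  intro x
  have h1 := trivialUnits_map p (h (K1.map (grMap i) x))
  rw [K1.map_grMap_comp, hpi] at h1
  have h2 : grMap (MonoidHom.id G) = RingHom.id (IntGroupRing G) :=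
    MonoidAlgebra.mapDomainRingHom_id
  rwa [h2, K1.map_id] at h1

/-- If all test groups have trivial Whitehead group, so does every torsion-free group. -/
theorem wh_of_test (h : ∀ j : TestIdx, Subsingleton (Wh (TestGrp j))) (G : Type u) [Group G]
    (hG : TorsionFree G) : Subsingleton (Wh G) := by
  rw [wh_subsingleton_iff]
  intro x
  induction x using K1.induction with
  | h0 => exact AddSubgroup.zero_mem _
  | h1 n A =>
    obtain ⟨j, θ, A', rfl⟩ := exists_test hG A
    rw [← K1.map_mk]
    exact trivialUnits_map θ ((wh_subsingleton_iff _).mp (h j) _)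
  | hneg x hx => exact AddSubgroup.neg_mem _ hx
  | hadd x y hx hy => exact AddSubgroup.add_mem _ hx hy

instance (r : ℕ) : Countable (FreeGroup (Fin r)) :=
  inferInstanceAs (Countable (Quot _))

instance (j : TestIdx) : Countable (TestGrp j) :=
  inferInstanceAs (Countable (Quotient _))

theorem TorsionFree.of_injective {G : Type u} {H : Type v} [Group G] [Group H] (f : G →* H)
    (hf : Function.Injective f) (hH : TorsionFree H) : TorsionFree G := by
  intro g hg
  apply hf
  rw [map_one]
  exact hH _ (MonoidHom.isOfFinOrder f hg)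

theorem TorsionFree.pi {ι : Type u} {H : ι → Type v} [∀ i, Group (H i)]
    (h : ∀ i, TorsionFree (H i)) : TorsionFree (∀ i, H i) := by
  intro g hg
  funext i
  exact h i (g i) (MonoidHom.isOfFinOrder (Pi.evalMonoidHom H i) hg)

end

end Pool.Agent.Lib.BHS16
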