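import Pool.Agent.Lib.MP_16fe43_al.Statement

set_option autoImplicit false

/-!
# Classes in `K₀` of idempotent matrices indexed by arbitrary finite types
-/

namespace Pool.Agent.Lib.BHS16

universe u

section

variable {R : Type u} [Ring R]

/-- The class in `K₀(R)` of an idempotent matrix indexed by a finite type. -/
noncomputable def K0.cls {ι : Type*} [Fintype ι] [DecidableEq ι] (e : Matrix ι ι R)
    (he : e * e = e) : K0 R :=
  K0.mk (e.submatrix (Fintype.equivFin ι).symm (Fintype.equivFin ι).symm) (by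
    rw [Matrix.submatrix_mul_equiv, he])

theorem K0.cls_congr_iso {ι κ : Type*} [Fintype ι] [DecidableEq ι] [Fintype κ] [DecidableEq κ]
    (e : Matrix ι ι R) (he : e * e = e) (f : Matrix κ κ R) (hf : f * f = f)
    (a : Matrix ι κ R) (b : Matrix κ ι R) (hab : a * b = e) (hba : b * a = f) :
    K0.cls e he = K0.cls f hf := by
  apply K0.mk_iso _ _ _ _
    (a.submatrix (Fintype.equivFin ι).symm (Fintype.equivFin κ).symm)
    (b.submatrix (Fintype.equivFin κ).symm (Fintype.equivFin ι).symm)
  · rw [Matrix.submatrix_mul_equiv, hab]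
  · rw [Matrix.submatrix_mul_equiv, hba]

theorem K0.cls_fin {n : ℕ} (e : Matrix (Fin n) (Fin n) R) (he : e * e = e) :
    K0.cls e he = K0.mk e he := by
  apply K0.mk_iso _ _ _ _ (e.submatrix (Fintype.equivFin (Fin n)).symm id)
    (e.submatrix id (Fintype.equivFin (Fin n)).symm)
  · rw [Matrix.submatrix_mul _ _ _ id _ Function.bijective_id |>.symm, he]
  · rw [Matrix.submatrix_mul_equiv, he, Matrix.submatrix_id_id]

theorem K0.cls_congr {ι : Type*} [Fintype ι] [DecidableEq ι] {e f : Matrix ι ι R}
    (h : e = f) (he : e * e = e) (hf : f * f = f) : K0.cls e he = K0.cls f hf := by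
  subst h; rfl

theorem K0.cls_fromBlocks {ι κ : Type*} [Fintype ι] [DecidableEq ι] [Fintype κ] [DecidableEq κ]
    (e : Matrix ι ι R) (he : e * e = e) (f : Matrix κ κ R) (hf : f * f = f)
    (h : Matrix.fromBlocks e 0 0 f * Matrix.fromBlocks e 0 0 f = Matrix.fromBlocks e 0 0 f) :
    K0.cls (Matrix.fromBlocks e 0 0 f) h = K0.cls e he + K0.cls f hf := by
  set e' := e.submatrix (Fintype.equivFin ι).symm (Fintype.equivFin ι).symm with he'
  set f' := f.submatrix (Fintype.equivFin κ).symm (Fintype.equivFin κ).symm with hf'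
  have hee : e' * e' = e' := by rw [he', Matrix.submatrix_mul_equiv, he]
  have hff : f' * f' = f' := by rw [hf', Matrix.submatrix_mul_equiv, hf]
  have hg : blockSum e' f' * blockSum e' f' = blockSum e' f' := by
    unfold blockSum
    rw [Matrix.submatrix_mul_equiv, Matrix.fromBlocks_multiply]
    simp [hee, hff]
  have h1 : K0.mk (blockSum e' f') hg = K0.cls e he + K0.cls f hf :=
    K0.mk_sum _ _ _ _ _ _ rfl
  rw [← h1, ← K0.cls_fin]
  -- an isomorphism given by a bijection of the index types
  let σ : ι ⊕ κ ≃ Fin (Fintype.card ι + Fintype.card κ) :=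
    (Equiv.sumCongr (Fintype.equivFin ι) (Fintype.equivFin κ)).trans finSumFinEquiv
  have hσ : blockSum e' f' = (Matrix.fromBlocks e 0 0 f).submatrix σ.symm σ.symm := by
    ext i j
    simp only [blockSum, Matrix.submatrix_apply, σ, Equiv.symm_trans_apply]
    rcases finSumFinEquiv.symm i with i | i <;> rcases finSumFinEquiv.symm j with j | j <;>
      simp [he', hf']
  apply K0.cls_congr_iso _ _ _ _ ((Matrix.fromBlocks e 0 0 f).submatrix id σ.symm)
    ((Matrix.fromBlocks e 0 0 f).submatrix σ.symm id)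
  · rw [Matrix.submatrix_mul_equiv, h, Matrix.submatrix_id_id]
  · rw [hσ, Matrix.submatrix_mul _ _ _ id _ Function.bijective_id |>.symm, h]

theorem K0.cls_add {ι : Type*} [Fintype ι] [DecidableEq ι] (e f : Matrix ι ι R)
    (he : e * e = e) (hf : f * f = f) (hef : e * f = 0) (hfe : f * e = 0)
    (h : (e + f) * (e + f) = e + f) :
    K0.cls (e + f) h = K0.cls e he + K0.cls f hf := by
  have hb : Matrix.fromBlocks e 0 0 f * Matrix.fromBlocks e 0 0 f = Matrix.fromBlocks e 0 0 f := by
    rw [Matrix.fromBlocks_multiply]; simp [he, hf]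
  rw [← K0.cls_fromBlocks e he f hf hb]
  apply K0.cls_congr_iso _ _ _ _ (Matrix.fromCols e f) (Matrix.fromRows e f)
  · rw [Matrix.fromCols_mul_fromRows, he, hf]
  · rw [Matrix.fromRows_mul_fromCols, he, hf, hef, hfe]

end

end Pool.Agent.Lib.BHS16
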