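import Pool.Agent.Lib.MP_16fe43_al.LaurentRep

set_option autoImplicit false
set_option linter.unusedSectionVars false

/-!
# `Wh(G × ℤ) = 0` implies `K̃₀(ℤG) = 0`
-/

namespace Pool.Agent.Lib.BHS16

universe u v

noncomputable section

theorem K0.map_cls {R S : Type*} [Ring R] [Ring S] (f : R →+* S) {ι : Type*} [Fintype ι]
    [DecidableEq ι] (e : Matrix ι ι R) (he : e * e = e) :
    K0.map f (K0.cls e he) = K0.cls (f.mapMatrix e) (by rw [← map_mul, he]) := by
  unfold K0.cls
  rw [K0.map_mk]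
  rfl

section

variable {R : Type u} [Ring R] {ι : Type*} [Fintype ι] [DecidableEq ι]

/-- Classes of coordinate projections come from `K₀(ℤ)`. -/
theorem kap_Q_mem (D : ℕ) (c : ℤ)
    (h : (Q R ι c - Q R ι (-(D : ℤ))) * (Q R ι c - Q R ι (-(D : ℤ))) =
      Q R ι c - Q R ι (-(D : ℤ)))
    (hD : FinW D (Q R ι c - Q R ι (-(D : ℤ)))) :
    kap D (Q R ι c - Q R ι (-(D : ℤ))) h hD ∈ (K0.map (Int.castRingHom R)).range := by
  let M : Matrix (ι × win D) (ι × win D) ℤ :=
    Matrix.diagonal fun p => if (p.2 : ℤ) < c then 1 else 0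
  have hM : M * M = M := by
    rw [Matrix.diagonal_mul_diagonal]
    congr 1
    funext p
    split_ifs <;> simp
  refine ⟨K0.cls M hM, ?_⟩
  rw [K0.map_cls]
  unfold kap
  apply K0.cls_congr
  ext p q
  rw [RingHom.mapMatrix_apply, Matrix.map_apply]
  unfold flat
  rw [Matrix.sub_apply, ent_sub, ent_Q, ent_Q]
  simp only [M, Matrix.diagonal_apply]
  have hq : ¬ ((q.2 : ℤ) < -(D : ℤ)) := by
    have := q.2.2
    rw [mem_win] at this
    omega
  have h2 : ¬ (p.1 = q.1 ∧ (p.2 : ℤ) = q.2 ∧ (q.2 : ℤ) < -(D : ℤ)) := fun hh => hq hh.2.2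
  rw [if_neg h2, sub_zero]
  by_cases hpq : p = q
  · subst hpq
    by_cases hc : (p.2 : ℤ) < c <;> simp [hc]
  · rw [if_neg hpq, if_neg]
    · simp
    · rintro ⟨h3, h4, _⟩
      exact hpq (Prod.ext h3 (Subtype.ext h4))

theorem dd_Q_mem (D : ℕ) (c : ℤ) (h : Near D (Q R ι c)) :
    dd D (Q R ι c) h ∈ (K0.map (Int.castRingHom R)).range := by
  unfold dd
  exact AddSubgroup.sub_mem _ (kap_Q_mem D c _ _) (kap_Q_mem D 0 _ _)

/-- An abstract computation with commuting idempotents. -/
theorem alpha_conj {N : Type*} [Ring N] (E T T' P P1 : N) (hE : E * E = E) (hET : E * T = T * E)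
    (hET' : E * T' = T' * E) (hEP : E * P = P * E) (hT : T * P * T' = P1) :
    (1 - E + E * T) * P * (1 - E + E * T') = P + E * (P1 - P) := by
  have h1 : (1 - E) * P * (1 - E) = (1 - E) * P := by
    rw [mul_assoc, mul_sub P, mul_one, ← hEP]
    have : (1 - E) * (P - E * P) = (1 - E) * P - ((1 - E) * E) * P := by noncomm_ring
    rw [this, sub_mul 1 E E, one_mul, hE, sub_self, zero_mul, sub_zero]
  have h2 : (1 - E) * P * (E * T') = 0 := by
    have : (1 - E) * P * (E * T') = (1 - E) * (P * E) * T' := by noncomm_ring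
    rw [this, ← hEP, ← mul_assoc (1 - E), sub_mul 1 E E, one_mul, hE, sub_self, zero_mul, zero_mul]
  have h3 : E * T * P * (1 - E) = 0 := by
    have : E * T * P * (1 - E) = E * T * P - E * T * (P * E) := by noncomm_ring
    rw [this, ← hEP, mul_assoc E T (E * P), ← mul_assoc T E P, ← hET, mul_assoc E T P,
      ← mul_assoc E E, hE, sub_self]
  have h4 : E * T * P * (E * T') = E * P1 := by
    have : E * T * P * (E * T') = E * T * (P * E) * T' := by noncomm_ring
    rw [this, ← hEP, ← hT]
    have : E * T * (E * P) * T' = E * (T * E) * P * T' := by noncomm_ring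
    rw [this, ← hET, ← mul_assoc, hE]
    noncomm_ring
  calc (1 - E + E * T) * P * (1 - E + E * T')
      = (1 - E) * P * (1 - E) + (1 - E) * P * (E * T') + E * T * P * (1 - E) +
        E * T * P * (E * T') := by noncomm_ring
    _ = (1 - E) * P + E * P1 := by rw [h1, h2, h3, h4]; abel
    _ = P + E * (P1 - P) := by noncomm_ring

end

section main

variable (G : Type u) [Group G]

/-- The generator `t` of the second factor of `G × ℤ`. -/
def tEl (k : ℤ) : IntGroupRing (G × Multiplicative ℤ) :=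
  MonoidAlgebra.single (1, Multiplicative.ofAdd k) 1

theorem tEl_mul (k l : ℤ) : tEl G k * tEl G l = tEl G (k + l) := by
  unfold tEl
  rw [MonoidAlgebra.single_mul_single, mul_one, Prod.mk_mul_mk, one_mul, ← ofAdd_add]

theorem tEl_zero : tEl G 0 = 1 := rfl

theorem tEl_comm (k : ℤ) (x : IntGroupRing G) : inclG G x * tEl G k = tEl G k * inclG G x := by
  induction x using MonoidAlgebra.induction_linear with
  | zero => rw [map_zero, zero_mul, mul_zero]
  | add x y hx hy => rw [map_add, add_mul, mul_add, hx, hy]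
  | single g n =>
    have : inclG G (MonoidAlgebra.single g n) = MonoidAlgebra.single (g, 1) n :=
      MonoidAlgebra.mapDomain_single
    unfold tEl
    rw [this, MonoidAlgebra.single_mul_single, MonoidAlgebra.single_mul_single, mul_one, one_mul]
    congr 1
    ext <;> simp

variable {n : ℕ}

/-- The matrix `1 - e + e t^k`. -/
def alphaMat (e : Matrix (Fin n) (Fin n) (IntGroupRing G)) (k : ℤ) :
    Matrix (Fin n) (Fin n) (IntGroupRing (G × Multiplicative ℤ)) :=
  1 - (inclG G).mapMatrix e + (inclG G).mapMatrix e * Matrix.diagonal fun _ => tEl G k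

theorem comm_diag (e : Matrix (Fin n) (Fin n) (IntGroupRing G)) (k : ℤ) :
    (inclG G).mapMatrix e * (Matrix.diagonal fun _ => tEl G k) =
      (Matrix.diagonal fun _ => tEl G k) * (inclG G).mapMatrix e := by
  ext i j : 1
  rw [Matrix.mul_diagonal, Matrix.diagonal_mul]
  exact tEl_comm G k _

theorem alphaMat_mul (e : Matrix (Fin n) (Fin n) (IntGroupRing G)) (he : e * e = e) (k l : ℤ)
    (h : k + l = 0) : alphaMat G e k * alphaMat G e l = 1 := by
  unfold alphaMat
  have hE : (inclG G).mapMatrix e * (inclG G).mapMatrix e = (inclG G).mapMatrix e := by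
    rw [← map_mul, he]
  set E := (inclG G).mapMatrix e with hEdef
  set T : Matrix (Fin n) (Fin n) (IntGroupRing (G × Multiplicative ℤ)) :=
    Matrix.diagonal fun _ => tEl G k with hT
  set T' : Matrix (Fin n) (Fin n) (IntGroupRing (G × Multiplicative ℤ)) :=
    Matrix.diagonal fun _ => tEl G l with hT'
  have h1 : T * T' = 1 := by
    rw [hT, hT', Matrix.diagonal_mul_diagonal]
    simp only [tEl_mul, h, tEl_zero, Matrix.diagonal_one]
  have hc : E * T = T * E := comm_diag G e k
  have hc' : E * T' = T' * E := comm_diag G e l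
  have key := alpha_conj E T T' 1 1 hE hc hc' (by rw [mul_one, one_mul]) (by rw [mul_one, h1])
  rw [mul_one, sub_self, mul_zero, add_zero] at key
  exact key

/-- The invertible matrix `1 - e + e t`. -/
def alphaGL (e : Matrix (Fin n) (Fin n) (IntGroupRing G)) (he : e * e = e) :
    GL (Fin n) (IntGroupRing (G × Multiplicative ℤ)) :=
  ⟨alphaMat G e 1, alphaMat G e (-1), alphaMat_mul G e he _ _ (by norm_num),
    alphaMat_mul G e he _ _ (by norm_num)⟩

/-- The matrix of operators given by left multiplication by `e`. -/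
def leftMat (e : Matrix (Fin n) (Fin n) (IntGroupRing G)) :
    Matrix (Fin n) (Fin n) (Op (IntGroupRing G)) :=
  (leftHom (IntGroupRing G)).mapMatrix e

theorem rep_map_incl (e : Matrix (Fin n) (Fin n) (IntGroupRing G)) :
    (repGZ G).mapMatrix ((inclG G).mapMatrix e) = leftMat G e := by
  ext i j : 1
  exact repGZ_incl G (e i j)

theorem rep_tEl (k : ℤ) : repGZ G (tEl G k) = monoOp 1 k := repGZ_single G _ 1

theorem rep_alpha (e : Matrix (Fin n) (Fin n) (IntGroupRing G)) (k : ℤ) :
    (repGZ G).mapMatrix (alphaMat G e k) =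
      1 - leftMat G e + leftMat G e * Matrix.diagonal fun _ => monoOp 1 k := by
  unfold alphaMat
  rw [map_add, map_sub, map_mul, map_one, rep_map_incl]
  congr 2
  ext i j : 1
  rw [RingHom.mapMatrix_apply, Matrix.map_apply, Matrix.diagonal_apply, Matrix.diagonal_apply]
  split_ifs
  · exact rep_tEl G k
  · exact map_zero (repGZ G)

theorem ent_leftMat (e : Matrix (Fin n) (Fin n) (IntGroupRing G)) (i j : Fin n) (a b : ℤ) :
    ent (leftMat G e i j) a b = if a = b then e i j else 0 := ent_leftOp _ _ _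

theorem leftMat_comm_Q (e : Matrix (Fin n) (Fin n) (IntGroupRing G)) (c : ℤ) :
    leftMat G e * Q _ (Fin n) c = Q _ (Fin n) c * leftMat G e := by
  apply mat_ext
  intro i j a b
  rw [ent_mul_Q, ent_Q_mul, ent_leftMat]
  by_cases h : a = b
  · subst h; rfl
  · simp [h]

theorem leftMat_comm_mono (e : Matrix (Fin n) (Fin n) (IntGroupRing G)) (k : ℤ) :
    leftMat G e * (Matrix.diagonal fun _ => monoOp 1 k) =
      (Matrix.diagonal fun _ => monoOp 1 k) * leftMat G e := by
  rw [← rep_map_incl]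
  have : (Matrix.diagonal fun _ : Fin n => (monoOp 1 k : Op (IntGroupRing G))) =
      (repGZ G).mapMatrix (Matrix.diagonal fun _ => tEl G k) := by
    ext i j : 1
    rw [RingHom.mapMatrix_apply, Matrix.map_apply, Matrix.diagonal_apply, Matrix.diagonal_apply]
    split_ifs
    · exact (rep_tEl G k).symm
    · exact (map_zero (repGZ G)).symm
  rw [this, ← map_mul, ← map_mul, comm_diag]

theorem mono_Q_mono {R : Type u} [Ring R] {ι : Type*} [Fintype ι] [DecidableEq ι] (k c : ℤ) :
    (Matrix.diagonal fun _ => monoOp (1 : R) k) * Q R ι c *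
      (Matrix.diagonal fun _ => monoOp (1 : R) (-k)) = Q R ι (c + k) := by
  unfold Q
  rw [Matrix.diagonal_mul_diagonal, Matrix.diagonal_mul_diagonal]
  congr 1
  funext _
  apply op_ext
  intro a b
  rw [ent_mul_monoOp, mul_proj_apply, ent_monoOp, ent_proj]
  by_cases h : b < c + k
  · rw [if_pos (by omega)]
    by_cases h2 : a = b
    · rw [if_pos (by omega), if_pos ⟨h2, h⟩, mul_one]
    · rw [if_neg (by omega), if_neg (by tauto), mul_one]
  · rw [if_neg (by omega), if_neg (by tauto), zero_mul]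

theorem conjQ_alpha (e : Matrix (Fin n) (Fin n) (IntGroupRing G)) (he : e * e = e) :
    conjQ (repGZ G) (alphaGL G e he) =
      Q _ (Fin n) 0 + leftMat G e * (Q _ (Fin n) 1 - Q _ (Fin n) 0) := by
  unfold conjQ
  have e1 : (repGZ G).mapMatrix (alphaGL G e he : Matrix (Fin n) (Fin n) _) =
      1 - leftMat G e + leftMat G e * Matrix.diagonal fun _ => monoOp 1 1 := rep_alpha G e 1
  have e2 : (repGZ G).mapMatrix (((alphaGL G e he)⁻¹ : GL (Fin n) _) :
      Matrix (Fin n) (Fin n) _) =
      1 - leftMat G e + leftMat G e * Matrix.diagonal fun _ => monoOp 1 (-1) :=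
    rep_alpha G e (-1)
  rw [e1, e2]
  apply alpha_conj
  · unfold leftMat; rw [← map_mul, he]
  · exact leftMat_comm_mono G e 1
  · exact leftMat_comm_mono G e (-1)
  · exact leftMat_comm_Q G e 0
  · rw [mono_Q_mono]; rfl

theorem bdHom_alpha (e : Matrix (Fin n) (Fin n) (IntGroupRing G)) (he : e * e = e) :
    bdHom (repGZ_banded G) (K1.mk (alphaGL G e he)) = K0.mk e he := by
  have hE : leftMat G e * leftMat G e = leftMat G e := by
    unfold leftMat; rw [← map_mul, he]
  -- the finite idempotent `e` at the coordinate `0`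
  set q0 := leftMat G e * (Q (IntGroupRing G) (Fin n) 1 - Q _ (Fin n) 0) with hq0
  have hent : ∀ i j a b, ent (q0 i j) a b = if a = 0 ∧ b = 0 then e i j else 0 := by
    intro i j a b
    rw [hq0, mul_sub, Matrix.sub_apply, ent_sub, ent_mul_Q, ent_mul_Q, ent_leftMat]
    by_cases h : a = 0 ∧ b = 0
    · rw [if_pos h, h.1, h.2]; simp
    · rw [if_neg h]
      by_cases h1 : b < 0
      · rw [if_pos (by omega), if_pos h1, sub_self]
      · by_cases h2 : b < 1
        · rw [if_pos h2, if_neg h1, if_neg (by omega), sub_zero]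
        · rw [if_neg h2, if_neg h1, sub_zero]
  have hq0W : FinW 1 q0 := by
    intro i j a b h
    rw [hent] at h
    have : a = 0 ∧ b = 0 := by
      by_contra hh; exact h (if_neg hh)
    rw [mem_win, mem_win]
    omega
  have hQ10 : (Q (IntGroupRing G) (Fin n) 1 - Q _ (Fin n) 0) *
      (Q (IntGroupRing G) (Fin n) 1 - Q _ (Fin n) 0) = Q _ (Fin n) 1 - Q _ (Fin n) 0 :=
    idem_sub (Q_idem _) (Q_idem _) (Q_mul_Q_of_ge (by norm_num)) (Q_mul_Q_of_le (by norm_num))
  have hcomm : leftMat G e * (Q (IntGroupRing G) (Fin n) 1 - Q _ (Fin n) 0) =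
      (Q (IntGroupRing G) (Fin n) 1 - Q _ (Fin n) 0) * leftMat G e := by
    rw [mul_sub, sub_mul, leftMat_comm_Q, leftMat_comm_Q]
  have hq0i : q0 * q0 = q0 := by
    rw [hq0]
    calc leftMat G e * (Q _ (Fin n) 1 - Q _ (Fin n) 0) *
        (leftMat G e * (Q _ (Fin n) 1 - Q _ (Fin n) 0))
        = leftMat G e * ((Q _ (Fin n) 1 - Q _ (Fin n) 0) * leftMat G e) *
          (Q _ (Fin n) 1 - Q _ (Fin n) 0) := by simp only [mul_assoc]
      _ = (leftMat G e * leftMat G e) * ((Q _ (Fin n) 1 - Q _ (Fin n) 0) *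
          (Q _ (Fin n) 1 - Q _ (Fin n) 0)) := by rw [← hcomm]; simp only [mul_assoc]
      _ = _ := by rw [hE, hQ10]
  have hq0Q : ∀ c : ℤ, c ≤ 0 → q0 * Q _ (Fin n) c = 0 := by
    intro c hc
    rw [hq0, mul_assoc, sub_mul, Q_mul_Q_of_ge (by omega), Q_mul_Q_of_ge hc, sub_self, mul_zero]
  have hQq0 : ∀ c : ℤ, c ≤ 0 → Q _ (Fin n) c * q0 = 0 := by
    intro c hc
    rw [hq0, hcomm, ← mul_assoc, mul_sub, Q_mul_Q_of_le (by omega), Q_mul_Q_of_le hc, sub_self,
      zero_mul]
  have hN : Near 1 (Q _ (Fin n) 0 + q0) := by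
    constructor
    · rw [add_mul, mul_add, mul_add, Q_idem, hq0i, hq0Q 0 le_rfl, hQq0 0 le_rfl, add_zero,
        zero_add]
    · rw [add_sub_cancel_left]; exact hq0W
  rw [bdHom_mk, bd_eq (repGZ_banded G) _ (D := 1) (by rw [conjQ_alpha]; exact hN),
    dd_congr (conjQ_alpha G e he) _ hN]
  unfold dd
  have hadd : kap 1 (Q _ (Fin n) 0 + q0 - Q _ (Fin n) (-((1 : ℕ) : ℤ))) hN.idem_sub
      hN.finW_sub = kap 1 q0 hq0i hq0W + kap 1 (Q _ (Fin n) 0 - Q _ (Fin n) (-((1 : ℕ) : ℤ)))
        (near_Q 1).idem_sub (near_Q 1).finW_sub := by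
    apply kap_split
    · rw [mul_sub, hq0Q 0 le_rfl, hq0Q _ (by norm_num), sub_self]
    · rw [sub_mul, hQq0 0 le_rfl, hQq0 _ (by norm_num), sub_self]
    · abel
  rw [hadd, add_sub_cancel_right, ← K0.cls_fin]
  unfold kap
  have h0 : (0 : ℤ) ∈ win 1 := by rw [mem_win]; norm_num
  let z : win 1 := ⟨0, h0⟩
  have hz : ∀ c : win 1, (c : ℤ) = 0 ↔ c = z := fun c =>
    ⟨fun h => Subtype.ext h, fun h => by rw [h]⟩
  apply K0.cls_congr_iso _ _ _ _
    (Matrix.of fun (p : Fin n × win 1) (j : Fin n) => if p.2 = z then e p.1 j else 0)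
    (Matrix.of fun (j : Fin n) (p : Fin n × win 1) => if p.2 = z then e j p.1 else 0)
  · apply Matrix.ext
    intro p p'
    rw [Matrix.mul_apply]
    simp only [Matrix.of_apply]
    unfold flat
    rw [hent]
    by_cases h1 : p.2 = z
    · by_cases h2 : p'.2 = z
      · rw [if_pos ⟨(hz _).mpr h1, (hz _).mpr h2⟩]
        simp only [h1, h2, if_true]
        rw [← Matrix.mul_apply, he]
      · rw [if_neg (fun hh => h2 ((hz _).mp hh.2))]
        simp [h2]
    · rw [if_neg (fun hh => h1 ((hz _).mp hh.1))]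
      simp [h1]
  · apply Matrix.ext
    intro j j'
    rw [Matrix.mul_apply, Fintype.sum_prod_type]
    simp only [Matrix.of_apply]
    have : ∀ i : Fin n, ∑ c : win 1, ((if c = z then e j i else 0) *
        (if c = z then e i j' else 0)) = e j i * e i j' := by
      intro i
      rw [Finset.sum_eq_single z]
      · simp
      · intro c _ hc; simp [hc]
      · intro h; exact absurd (Finset.mem_univ z) h
    simp only [this]
    rw [← Matrix.mul_apply, he]

theorem conjQ_trivial (g : G × Multiplicative ℤ) (ε : ℤˣ)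
    (A : GL (Fin 1) (IntGroupRing (G × Multiplicative ℤ)))
    (hA : (A : Matrix (Fin 1) (Fin 1) (IntGroupRing (G × Multiplicative ℤ))) =
      Matrix.of (fun _ _ => MonoidAlgebra.single g (ε : ℤ))) :
    conjQ (repGZ G) A = Q _ (Fin 1) (Multiplicative.toAdd g.2) := by
  unfold conjQ
  have h1 : (repGZ G).mapMatrix (A : Matrix (Fin 1) (Fin 1) _) * Q _ (Fin 1) 0 =
      Q _ (Fin 1) (Multiplicative.toAdd g.2) * (repGZ G).mapMatrix (A : Matrix (Fin 1) (Fin 1) _) := by
    apply mat_ext
    intro i j a b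
    rw [ent_mul_Q, ent_Q_mul, hA]
    rw [RingHom.mapMatrix_apply, Matrix.map_apply, Matrix.of_apply, repGZ_single, ent_monoOp]
    by_cases h : a = b + Multiplicative.toAdd g.2
    · by_cases hb : b < 0
      · rw [if_pos hb, if_pos h, if_pos (by omega)]
      · rw [if_neg hb, if_neg (by omega)]
    · simp [h]
  rw [h1, mul_assoc, rho_mul_inv, mul_one]

theorem bdHom_trivial (x : K1 (IntGroupRing (G × Multiplicative ℤ)))
    (hx : x ∈ trivialUnits (G × Multiplicative ℤ)) :
    bdHom (repGZ_banded G) x ∈ (K0.map (Int.castRingHom (IntGroupRing G))).range := by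
  have : trivialUnits (G × Multiplicative ℤ) ≤
      (K0.map (Int.castRingHom (IntGroupRing G))).range.comap (bdHom (repGZ_banded G)) := by
    unfold trivialUnits
    rw [AddSubgroup.closure_le]
    rintro _ ⟨g, ε, A, hA, rfl⟩
    rw [SetLike.mem_coe, AddSubgroup.mem_comap, bdHom_mk]
    obtain ⟨D, hD⟩ := exists_near (repGZ_banded G) A
    rw [bd_eq _ A hD]
    have h := conjQ_trivial G g ε A hA
    have hD' : Near D (Q (IntGroupRing G) (Fin 1) (Multiplicative.toAdd g.2)) := by
      rw [← h]; exact hD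
    rw [dd_congr h hD hD']
    exact dd_Q_mem D _ hD'
  exact this hx

/-- If `Wh(G × ℤ) = 0` then `K̃₀(ℤG) = 0`. -/
theorem subsingleton_K0Red (h : Subsingleton (Wh (G × Multiplicative ℤ))) :
    Subsingleton (K0Red G) := by
  have key : ∀ x : K0 (IntGroupRing G), x ∈ (K0.map (Int.castRingHom (IntGroupRing G))).range := by
    intro x
    induction x using K0.induction with
    | h0 => exact AddSubgroup.zero_mem _
    | h1 n e he =>
      rw [← bdHom_alpha G e he]
      apply bdHom_trivial
      exact (QuotientAddGroup.eq_zero_iff _).mp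
        (h.elim (QuotientAddGroup.mk (K1.mk (alphaGL G e he))) 0)
    | hneg x hx => exact AddSubgroup.neg_mem _ hx
    | hadd x y hx hy => exact AddSubgroup.add_mem _ hx hy
  refine ⟨fun a b => ?_⟩
  obtain ⟨x, rfl⟩ := QuotientAddGroup.mk_surjective a
  obtain ⟨y, rfl⟩ := QuotientAddGroup.mk_surjective b
  exact ((QuotientAddGroup.eq_zero_iff x).mpr (key x)).trans
    ((QuotientAddGroup.eq_zero_iff y).mpr (key y)).symm

end main

end

end Pool.Agent.Lib.BHS16
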