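import Pool.Agent.Lib.MP_16fe43_al.WhWreath
import Pool.Agent.Lib.MP_16fe43_al.KZeroWh

/-!
# `K̃₀(ℤG) = 0` means that idempotent matrices are stably free
-/

set_option autoImplicit false

universe u v w

namespace Pool.Agent.Lib.MP_16fe43_al

open Matrix (fromBlocks)

section V

variable (R : Type u) [Ring R]

/-- equivalence of idempotent matrices -/
def vSetoid : Setoid (BHS16.Idem R) where
  r a b := MvN a.2.1 b.2.1
  iseqv := ⟨fun a => MvN.refl a.2.2, fun h => h.symm,
    fun {a _ c} h h' => MvN.trans a.2.2 c.2.2 h h'⟩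

/-- the monoid of equivalence classes of idempotent matrices -/
def VM : Type u := Quotient (vSetoid R)

variable {R}

/-- the class of an idempotent -/
def vmk (a : BHS16.Idem R) : VM R := Quotient.mk (vSetoid R) a

theorem vmk_eq {a b : BHS16.Idem R} : vmk a = vmk b ↔ MvN a.2.1 b.2.1 :=
  ⟨fun h => Quotient.exact (s := vSetoid R) h, fun h => Quotient.sound (s := vSetoid R) h⟩

theorem reindex_idem {ι : Type v} {κ : Type w} [Fintype ι] [DecidableEq ι] [Fintype κ]
    [DecidableEq κ] (q : ι ≃ κ) {e : Matrix ι ι R} (he : e * e = e) :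
    Matrix.reindex q q e * Matrix.reindex q q e = Matrix.reindex q q e := by
  have := Matrix.submatrix_mul_equiv e e q.symm q.symm q.symm
  rw [Matrix.reindex_apply, this, he]

/-- the class of an idempotent matrix -/
noncomputable def vcl {ι : Type v} [Fintype ι] [DecidableEq ι] (e : Matrix ι ι R)
    (he : e * e = e) : VM R :=
  vmk ⟨Fintype.card ι, ⟨Matrix.reindex (Fintype.equivFin ι) (Fintype.equivFin ι) e,
    reindex_idem _ he⟩⟩

theorem vcl_eq_iff {ι : Type v} {κ : Type w} [Fintype ι] [DecidableEq ι] [Fintype κ]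
    [DecidableEq κ] {e : Matrix ι ι R} {he : e * e = e} {f : Matrix κ κ R} {hf : f * f = f} :
    vcl e he = vcl f hf ↔ MvN e f := by
  unfold vcl
  rw [vmk_eq]
  show MvN (Matrix.reindex (Fintype.equivFin ι) (Fintype.equivFin ι) e)
    (Matrix.reindex (Fintype.equivFin κ) (Fintype.equivFin κ) f) ↔ MvN e f
  have h1 := MvN.reindex (Fintype.equivFin ι) he
  have h2 := MvN.reindex (Fintype.equivFin κ) hf
  have he' := reindex_idem (Fintype.equivFin ι) he
  have hf' := reindex_idem (Fintype.equivFin κ) hf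
  constructor
  · intro h
    exact MvN.trans he hf h1 (MvN.trans he' hf h h2.symm)
  · intro h
    exact MvN.trans he' hf' h1.symm (MvN.trans he hf' h h2)

theorem vcl_surj (x : VM R) : ∃ (n : ℕ) (e : Matrix (Fin n) (Fin n) R) (he : e * e = e),
    x = vcl e he := by
  obtain ⟨⟨n, e, he⟩, rfl⟩ := Quotient.exists_rep x
  refine ⟨n, e, he, ?_⟩
  unfold vcl
  exact vmk_eq.2 (MvN.reindex (Fintype.equivFin (Fin n)) he)

theorem blocks_idem {ι : Type v} {κ : Type w} [Fintype ι] [DecidableEq ι] [Fintype κ]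
    [DecidableEq κ] {e : Matrix ι ι R} (he : e * e = e) {f : Matrix κ κ R} (hf : f * f = f) :
    fromBlocks e 0 0 f * fromBlocks e 0 0 f = fromBlocks e 0 0 f := by
  simp [Matrix.fromBlocks_multiply, he, hf]

/-- addition of classes -/
noncomputable def vadd : VM R → VM R → VM R :=
  Quotient.lift₂ (fun a b => vcl (fromBlocks a.2.1 0 0 b.2.1) (blocks_idem a.2.2 b.2.2))
    (fun _ _ _ _ h h' => vcl_eq_iff.2 (MvN.dsum h h'))

theorem vadd_vcl {ι : Type v} {κ : Type w} [Fintype ι] [DecidableEq ι] [Fintype κ]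
    [DecidableEq κ] {e : Matrix ι ι R} (he : e * e = e) {f : Matrix κ κ R} (hf : f * f = f) :
    vadd (vcl e he) (vcl f hf) = vcl (fromBlocks e 0 0 f) (blocks_idem he hf) := by
  show vcl (fromBlocks (Matrix.reindex (Fintype.equivFin ι) (Fintype.equivFin ι) e) 0 0
    (Matrix.reindex (Fintype.equivFin κ) (Fintype.equivFin κ) f))
    (blocks_idem (reindex_idem _ he) (reindex_idem _ hf)) = _
  refine vcl_eq_iff.2 ?_
  exact MvN.dsum (MvN.reindex (Fintype.equivFin ι) he).symm
    (MvN.reindex (Fintype.equivFin κ) hf).symm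

noncomputable instance instZeroVM : Zero (VM R) := ⟨vcl (1 : Matrix (Fin 0) (Fin 0) R) (one_mul _)⟩

noncomputable instance instAddVM : Add (VM R) := ⟨vadd⟩

noncomputable instance : AddCommMonoid (VM R) where
  add_assoc a b c := by
    obtain ⟨n, e, he, rfl⟩ := vcl_surj a
    obtain ⟨m, f, hf, rfl⟩ := vcl_surj b
    obtain ⟨l, g, hg, rfl⟩ := vcl_surj c
    show vadd (vadd _ _) _ = vadd _ (vadd _ _)
    rw [vadd_vcl, vadd_vcl, vadd_vcl, vadd_vcl]
    exact vcl_eq_iff.2 (MvN.assoc he hf hg)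
  zero_add a := by
    obtain ⟨n, e, he, rfl⟩ := vcl_surj a
    show vadd (vcl (1 : Matrix (Fin 0) (Fin 0) R) (one_mul _)) (vcl e he) = _
    rw [vadd_vcl]
    refine vcl_eq_iff.2 ?_
    have : (1 : Matrix (Fin 0) (Fin 0) R) = 0 := Subsingleton.elim _ _
    rw [this]
    exact MvN.zero_left he
  add_zero a := by
    obtain ⟨n, e, he, rfl⟩ := vcl_surj a
    show vadd (vcl e he) (vcl (1 : Matrix (Fin 0) (Fin 0) R) (one_mul _)) = _
    rw [vadd_vcl]
    refine vcl_eq_iff.2 ?_
    have : (1 : Matrix (Fin 0) (Fin 0) R) = 0 := Subsingleton.elim _ _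
    rw [this]
    exact MvN.zero_right he
  add_comm a b := by
    obtain ⟨n, e, he, rfl⟩ := vcl_surj a
    obtain ⟨m, f, hf, rfl⟩ := vcl_surj b
    show vadd _ _ = vadd _ _
    rw [vadd_vcl, vadd_vcl]
    exact vcl_eq_iff.2 (MvN.swap he hf)
  nsmul := nsmulRec

theorem vcl_add {ι : Type v} {κ : Type w} [Fintype ι] [DecidableEq ι] [Fintype κ]
    [DecidableEq κ] {e : Matrix ι ι R} (he : e * e = e) {f : Matrix κ κ R} (hf : f * f = f) :
    vcl e he + vcl f hf = vcl (fromBlocks e 0 0 f) (blocks_idem he hf) := vadd_vcl he hf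

/-- the class of the identity matrix -/
noncomputable def vone (R : Type u) [Ring R] (a : ℕ) : VM R :=
  vcl (1 : Matrix (Fin a) (Fin a) R) (one_mul _)

theorem vone_add (a b : ℕ) : vone R (a + b) = vone R a + vone R b := by
  unfold vone
  rw [vcl_add]
  refine vcl_eq_iff.2 ?_
  rw [Matrix.fromBlocks_one]
  exact MvN.one_equiv finSumFinEquiv.symm

/-- the comparison homomorphism to the Grothendieck group -/
noncomputable def toGr : BHS16.K0 R →+ Algebra.GrothendieckAddGroup (VM R) :=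
  QuotientAddGroup.lift _ (FreeAbelianGroup.lift fun a : BHS16.Idem R =>
    Algebra.GrothendieckAddGroup.of (vcl a.2.1 a.2.2)) (by
    rw [AddSubgroup.closure_le]
    rintro _ (⟨n, m, e, f, g, h⟩ | ⟨n, m, e, f, a, b, hab, hba⟩)
    · rw [SetLike.mem_coe, AddMonoidHom.mem_ker]
      simp only [map_sub, FreeAbelianGroup.lift_apply_of]
      rw [sub_sub, sub_eq_zero, ← map_add, vcl_add]
      congr 1
      refine vcl_eq_iff.2 ?_
      rw [h]
      have := MvN.reindex (R := R) (finSumFinEquiv (m := n) (n := m))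
        (e := fromBlocks e.1 0 0 f.1) (blocks_idem e.2 f.2)
      exact this.symm
    · rw [SetLike.mem_coe, AddMonoidHom.mem_ker]
      simp only [map_sub, FreeAbelianGroup.lift_apply_of]
      rw [sub_eq_zero]
      congr 1
      exact vcl_eq_iff.2 ⟨a, b, hab, hba⟩)

theorem toGr_mk {n : ℕ} (e : Matrix (Fin n) (Fin n) R) (he : e * e = e) :
    toGr (BHS16.K0.mk e he) = Algebra.GrothendieckAddGroup.of (vcl e he) := by
  show (FreeAbelianGroup.lift fun a : BHS16.Idem R =>
    Algebra.GrothendieckAddGroup.of (vcl a.2.1 a.2.2)) (FreeAbelianGroup.of _) = _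
  rw [FreeAbelianGroup.lift_apply_of]

theorem of_eq_iff {M : Type u} [AddCommMonoid M] {a b : M} :
    (Algebra.GrothendieckAddGroup.of a = Algebra.GrothendieckAddGroup.of b) ↔
      ∃ c, c + a = c + b := by
  have h := (AddLocalization.addMonoidOf (⊤ : AddSubmonoid M)).eq_iff_exists (x := a) (y := b)
  constructor
  · intro h1
    obtain ⟨c, hc⟩ := h.1 h1
    exact ⟨c, hc⟩
  · rintro ⟨c, hc⟩
    exact h.2 ⟨⟨c, trivial⟩, hc⟩

end V

section Z

/-- elements of `K₀` that come from `ℤ` -/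
theorem toGr_int {R : Type u} [Ring R] (y : BHS16.K0 ℤ) :
    ∃ a b : ℕ, toGr (BHS16.K0.map (Int.castRingHom R) y) + Algebra.GrothendieckAddGroup.of
      (vone R b) = Algebra.GrothendieckAddGroup.of (vone R a) := by
  induction y using BHS16.K0.induction with
  | h0 => exact ⟨0, 0, by rw [map_zero, map_zero, zero_add]⟩
  | h1 n e he =>
    obtain ⟨a, ha⟩ := MvN.int he
    refine ⟨a, 0, ?_⟩
    rw [BHS16.K0.map_mk, toGr_mk]
    have h1 : vcl ((Int.castRingHom R).mapMatrix e) (by rw [← map_mul, he]) = vone R a := by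
      unfold vone
      refine vcl_eq_iff.2 ?_
      have h2 := MvN.map (Int.castRingHom R) ha
      rwa [Tw.map_one_matrix] at h2
    have h0 : vone R 0 = 0 := rfl
    rw [h1, h0, map_zero, add_zero]
  | hneg x hx =>
    obtain ⟨a, b, h⟩ := hx
    refine ⟨b, a, ?_⟩
    rw [map_neg, map_neg, ← h]
    abel
  | hadd x y hx hy =>
    obtain ⟨a, b, h⟩ := hx
    obtain ⟨a', b', h'⟩ := hy
    refine ⟨a + a', b + b', ?_⟩
    rw [map_add, map_add, vone_add, vone_add, map_add, map_add, ← h, ← h']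
    abel

theorem stFree_of_K0Red {G : Type u} [Group G] (h : Subsingleton (BHS16.K0Red G)) :
    StFree (MonoidAlgebra ℤ G) := by
  intro ι _ _ e he
  obtain ⟨n, e', he', hee⟩ := vcl_surj (vcl e he)
  have h1 : BHS16.K0.mk e' he' ∈ (BHS16.K0.map (Int.castRingHom (MonoidAlgebra ℤ G))).range :=
    (QuotientAddGroup.eq_zero_iff _).1 (h.elim (QuotientAddGroup.mk (BHS16.K0.mk e' he')) 0)
  obtain ⟨y, hy⟩ := h1
  obtain ⟨a, b, hab⟩ := toGr_int (R := MonoidAlgebra ℤ G) y
  rw [hy, toGr_mk, ← hee, ← map_add] at hab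
  obtain ⟨c, hc⟩ := of_eq_iff.1 hab
  obtain ⟨m, f, hf, rfl⟩ := vcl_surj c
  -- add the complement of `f`
  have hf1 : (1 - f) * (1 - f) = 1 - f := by
    rw [mul_sub, mul_one, sub_mul, one_mul, hf, sub_self, sub_zero]
  have hs : vcl f hf + vcl (1 - f) hf1 = vone _ m := by
    rw [vcl_add]
    exact vcl_eq_iff.2 (MvN.split hf).symm
  have h2 : vcl e he + vone _ (b + m) = vone _ (a + m) := by
    rw [vone_add, vone_add, ← hs]
    calc vcl e he + (vone _ b + (vcl f hf + vcl (1 - f) hf1))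
        = (vcl f hf + (vcl e he + vone _ b)) + vcl (1 - f) hf1 := by abel
      _ = (vcl f hf + vone _ a) + vcl (1 - f) hf1 := by rw [hc]
      _ = _ := by abel
  refine ⟨b + m, a + m, ?_⟩
  unfold vone at h2
  rw [vcl_add] at h2
  exact vcl_eq_iff.1 h2

end Z

end Pool.Agent.Lib.MP_16fe43_al
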