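import Pool.Agent.Lib.MP_16fe43_al.KZeroWh

set_option autoImplicit false
set_option linter.unusedSectionVars false

/-!
# All three vanishing statements follow from the vanishing of Whitehead groups
-/

namespace Pool.Agent.Lib.BHS16

universe u v

open CategoryTheory

noncomputable section

theorem TorsionFree.prod {G : Type u} [Group G] (h : TorsionFree G) :
    TorsionFree (G × Multiplicative ℤ) := by
  rintro ⟨g, k⟩ hg
  rw [isOfFinOrder_iff_pow_eq_one] at hg
  obtain ⟨n, hn, hpow⟩ := hg
  have h1 : g ^ n = 1 := congrArg Prod.fst hpow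
  have h2 : k ^ n = 1 := congrArg Prod.snd hpow
  have h3 : g = 1 := h g (isOfFinOrder_iff_pow_eq_one.mpr ⟨n, hn, h1⟩)
  have h4 : k = 1 := by
    have h5 : (n : ℤ) * Multiplicative.toAdd k = 0 := by
      have := congrArg Multiplicative.toAdd h2
      rw [toAdd_pow, toAdd_one, nsmul_eq_mul] at this
      exact this
    rcases mul_eq_zero.mp h5 with h6 | h6
    · omega
    · exact Multiplicative.toAdd.injective h6
  rw [h3, h4]; rfl

/-- `ℤ[G × ℤ] ≅ (ℤG)[t, t⁻¹]`. -/
def laurentEquiv (G : Type u) [Group G] :
    IntGroupRing (G × Multiplicative ℤ) ≃+* LaurentPolynomial (IntGroupRing G) :=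
  ((MonoidAlgebra.mapDomainRingEquiv ℤ (MulEquiv.prodComm (M := G) (N := Multiplicative ℤ))).trans
    (MonoidAlgebra.curryRingEquiv (R := ℤ) (M := Multiplicative ℤ) (N := G))).trans
    (AddMonoidAlgebra.toMultiplicative (IntGroupRing G) ℤ).symm

theorem K0.map_surjective_of_equiv {R S : Type*} [Ring R] [Ring S] (f : R ≃+* S) :
    Function.Surjective (K0.map (f : R →+* S)) := by
  intro y
  refine ⟨K0.map (f.symm : S →+* R) y, ?_⟩
  rw [← K0.map_comp]
  have : (f : R →+* S).comp (f.symm : S →+* R) = RingHom.id S := by
    ext x; simp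
  rw [this, K0.map_id]

theorem negK_vanishing (H : ∀ (G : Type u) [Group G], TorsionFree G → Subsingleton (K0Red G))
    (n : ℕ) : ∀ (G : Type u) [Group G], TorsionFree G →
      Subsingleton ((KNeg (n + 1)).obj (RingCat.of (IntGroupRing G))) := by
  induction n with
  | zero =>
    intro G _ hG
    have key : ∀ y : K0 (LaurentPolynomial (IntGroupRing G)),
        y ∈ contractionSubgroup K0Functor (RingCat.of (IntGroupRing G)) := by
      intro y
      obtain ⟨z, rfl⟩ := K0.map_surjective_of_equiv (laurentEquiv G) y
      have hz : z ∈ (K0.map (Int.castRingHom (IntGroupRing (G × Multiplicative ℤ)))).range :=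
        (QuotientAddGroup.eq_zero_iff z).mp ((H _ hG.prod).elim (QuotientAddGroup.mk z) 0)
      obtain ⟨w, rfl⟩ := hz
      rw [← K0.map_comp]
      have e : (laurentEquiv G : IntGroupRing (G × Multiplicative ℤ) →+*
          LaurentPolynomial (IntGroupRing G)).comp
          (Int.castRingHom (IntGroupRing (G × Multiplicative ℤ))) =
          (posIncl (IntGroupRing G)).comp
            (Int.castRingHom (Polynomial (IntGroupRing G))) := RingHom.ext_int _ _
      rw [e, K0.map_comp]
      exact AddSubgroup.mem_sup_left ⟨_, rfl⟩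
    constructor
    intro a b
    obtain ⟨x, rfl⟩ := QuotientAddGroup.mk_surjective a
    obtain ⟨y, rfl⟩ := QuotientAddGroup.mk_surjective b
    exact QuotientAddGroup.eq.mpr (key _)
  | succ n ih =>
    intro G _ hG
    have h1 := ih (G × Multiplicative ℤ) hG.prod
    have h2 : Subsingleton ((KNeg (n + 1)).obj
        (RingCat.of (LaurentPolynomial (IntGroupRing G)))) := by
      have e : RingCat.of (LaurentPolynomial (IntGroupRing G)) ≅
          RingCat.of (IntGroupRing (G × Multiplicative ℤ)) :=
        (laurentEquiv G).symm.toRingCatIso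
      have e' := (KNeg (n + 1)).mapIso e
      exact (e'.addCommGroupIsoToAddEquiv).toEquiv.subsingleton
    constructor
    intro a b
    obtain ⟨x, rfl⟩ := QuotientAddGroup.mk_surjective a
    obtain ⟨y, rfl⟩ := QuotientAddGroup.mk_surjective b
    rw [h2.elim x y]

/-- If all Whitehead groups of torsion-free groups vanish, then all three vanishing statements
hold for all torsion-free groups. -/
theorem lowK_of_wh (H : ∀ (G : Type u) [Group G], TorsionFree G → Subsingleton (Wh G)) :
    ∀ (G : Type u) [Group G], TorsionFree G → LowKVanishing G := by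
  have h0 : ∀ (G : Type u) [Group G], TorsionFree G → Subsingleton (K0Red G) :=
    fun G _ hG => subsingleton_K0Red G (H _ hG.prod)
  intro G _ hG
  exact ⟨H G hG, h0 G hG, fun n => negK_vanishing h0 n G hG⟩

end

end Pool.Agent.Lib.BHS16
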