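import Pool.Agent.Lib.MP_16fe43_al.WhRel
import Pool.Agent.Lib.MP_16fe43_al.NegK

/-!
# Closure of the class of groups with vanishing low K-theory under wreath products
-/

set_option autoImplicit false

universe u v w

namespace Pool.Agent.Lib.MP_16fe43_al

open CategoryTheory

/-- `G` is a retract of `G'` -/
def Ret (G : Type u) (G' : Type v) [Group G] [Group G'] : Prop :=
  ∃ (i : G →* G') (p : G' →* G), p.comp i = MonoidHom.id G

section ret

variable {G : Type u} {G' : Type v} {G'' : Type w} [Group G] [Group G'] [Group G'']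

theorem Ret.trans (h : Ret G G') (h' : Ret G' G'') : Ret G G'' := by
  obtain ⟨i, p, hp⟩ := h
  obtain ⟨j, q, hq⟩ := h'
  refine ⟨j.comp i, p.comp q, ?_⟩
  rw [MonoidHom.comp_assoc, ← MonoidHom.comp_assoc i j q, hq, MonoidHom.id_comp, hp]

theorem Ret.refl : Ret G G := ⟨MonoidHom.id G, MonoidHom.id G, rfl⟩

theorem Ret.of_equiv (e : G ≃* G') : Ret G G' :=
  ⟨e.toMonoidHom, e.symm.toMonoidHom, by ext x; simp⟩

theorem Ret.prod {L : Type*} {L' : Type*} [Group L] [Group L'] (h : Ret G G') (h' : Ret L L') :
    Ret (G × L) (G' × L') := by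
  obtain ⟨i, p, hp⟩ := h
  obtain ⟨j, q, hq⟩ := h'
  refine ⟨i.prodMap j, p.prodMap q, ?_⟩
  ext1 x
  exact Prod.ext (DFunLike.congr_fun hp x.1) (DFunLike.congr_fun hq x.2)

theorem Ret.left {L : Type*} [Group L] : Ret G (G × L) :=
  ⟨MonoidHom.inl G L, MonoidHom.fst G L, rfl⟩

theorem Ret.right {L : Type*} [Group L] : Ret G (L × G) :=
  ⟨MonoidHom.inr L G, MonoidHom.snd L G, rfl⟩

theorem Ret.wh (h : Ret G G') (h' : Subsingleton (BHS16.Wh G')) : Subsingleton (BHS16.Wh G) := by
  obtain ⟨i, p, hp⟩ := h
  exact BHS16.wh_retract i p hp h'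

theorem ret_free {m n : ℕ} (h : m ≤ n) : Ret (FreeGroup (Fin m)) (FreeGroup (Fin n)) := by
  refine ⟨FreeGroup.map (Fin.castLE h), FreeGroup.lift fun i =>
    if hi : i.1 < m then FreeGroup.of ⟨i.1, hi⟩ else 1, ?_⟩
  ext1 i
  rw [MonoidHom.comp_apply, FreeGroup.map.of, FreeGroup.lift_apply_of,
    dif_pos (show (Fin.castLE h i).1 < m from i.2)]
  rfl

theorem ret_int {n : ℕ} (h : 0 < n) : Ret (Multiplicative ℤ) (FreeGroup (Fin n)) := by
  refine ⟨zpowersHom (FreeGroup (Fin n)) (FreeGroup.of (⟨0, h⟩ : Fin n)),
    FreeGroup.lift fun _ => Multiplicative.ofAdd 1, ?_⟩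
  apply MonoidHom.ext_mint
  rw [MonoidHom.comp_apply, zpowersHom_apply]
  simp

theorem ret_cons (b n n' m : ℕ) (h : n ≤ n') (h' : m ≤ n') :
    Ret ((Fin b → FreeGroup (Fin n)) × FreeGroup (Fin m)) (Fin (b + 1) → FreeGroup (Fin n')) := by
  obtain ⟨i, p, hp⟩ := ret_free h
  obtain ⟨j, q, hq⟩ := ret_free h'
  refine ⟨
    { toFun := fun x => Fin.cons (j x.2) (fun a => i (x.1 a))
      map_one' := by
        funext a
        refine Fin.cases ?_ (fun a => ?_) a
        · show j 1 = 1
          rw [map_one]
        · show i 1 = 1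
          rw [map_one]
      map_mul' := fun x y => by
        funext a
        refine Fin.cases ?_ (fun a => ?_) a
        · show j (x.2 * y.2) = j x.2 * j y.2
          rw [map_mul]
        · show i (x.1 a * y.1 a) = i (x.1 a) * i (y.1 a)
          rw [map_mul] },
    { toFun := fun z => (fun a => p (z a.succ), q (z 0))
      map_one' := by
        refine Prod.ext ?_ ?_
        · funext a
          show p 1 = 1
          rw [map_one]
        · show q 1 = 1
          rw [map_one]
      map_mul' := fun x y => by
        refine Prod.ext ?_ ?_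
        · funext a
          show p (x a.succ * y a.succ) = p (x a.succ) * p (y a.succ)
          rw [map_mul]
        · show q (x 0 * y 0) = q (x 0) * q (y 0)
          rw [map_mul] }, ?_⟩
  ext1 x
  refine Prod.ext ?_ ?_
  · funext a
    exact DFunLike.congr_fun hp (x.1 a)
  · exact DFunLike.congr_fun hq x.2

end ret

/-- The group `(F_n)^b`, `F_n` the free group of rank `n`. -/
abbrev FreePow (b n : ℕ) : Type := Fin b → FreeGroup (Fin n)

/-- `Wh(G × (F_n)^b) = 0` for all `b`, `n` -/
def WhAll (G : Type u) [Group G] : Prop := ∀ b n : ℕ, Subsingleton (BHS16.Wh (G × FreePow b n))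

section whall

variable {G : Type u} [Group G]

theorem WhAll.ret {G' : Type v} [Group G'] (h : Ret G G') (h' : WhAll G') : WhAll G :=
  fun b n => (h.prod (Ret.refl (G := FreePow b n))).wh (h' b n)

theorem WhAll.prodFree (h : WhAll G) (b n : ℕ) : WhAll (G × FreePow b n) := by
  intro b' n'
  -- `(G × P) × P' ≤ G × (F_N)^(b + b')`
  have key : ∀ b' : ℕ, ∀ b n n' : ℕ,
      Ret ((G × FreePow b n) × FreePow b' n') (G × FreePow (b + b') (max n n')) := by
    intro b'
    induction b' with
    | zero =>
      intro b n n'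
      have h1 : Ret ((G × FreePow b n) × FreePow 0 n') (G × FreePow b n) := by
        refine ⟨MonoidHom.fst _ _, MonoidHom.inl _ _, ?_⟩
        ext1 x
        exact Prod.ext rfl (Subsingleton.elim _ _)
      refine h1.trans (Ret.refl.prod ?_)
      obtain ⟨i, p, hp⟩ := ret_free (le_max_left n n')
      refine ⟨MonoidHom.pi fun a => i.comp (Pi.evalMonoidHom _ a),
        MonoidHom.pi fun a => p.comp (Pi.evalMonoidHom _ a), ?_⟩
      ext1 x
      funext a
      exact DFunLike.congr_fun hp (x a)
    | succ b' ih =>
      intro b n n'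
      -- split off one factor
      have h1 : Ret (FreePow (b' + 1) n') (FreeGroup (Fin n') × FreePow b' n') := by
        refine ⟨
          { toFun := fun z => (z 0, fun a => z a.succ)
            map_one' := rfl
            map_mul' := fun _ _ => rfl },
          { toFun := fun x => Fin.cons x.1 x.2
            map_one' := by
              funext a
              refine Fin.cases rfl (fun a => rfl) a
            map_mul' := fun x y => by
              funext a
              refine Fin.cases rfl (fun a => rfl) a }, ?_⟩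
        ext1 z
        funext a
        refine Fin.cases rfl (fun a => rfl) a
      have h2 : Ret ((G × FreePow b n) × FreePow (b' + 1) n')
          ((G × FreePow b n) × (FreeGroup (Fin n') × FreePow b' n')) := Ret.refl.prod h1
      have h3 : Ret ((G × FreePow b n) × (FreeGroup (Fin n') × FreePow b' n'))
          ((G × (FreePow b n × FreeGroup (Fin n'))) × FreePow b' n') :=
        Ret.of_equiv ((MulEquiv.prodAssoc (M := G × FreePow b n) (N := FreeGroup (Fin n'))
          (P := FreePow b' n')).symm.trans
          ((MulEquiv.prodAssoc (M := G) (N := FreePow b n) (P := FreeGroup (Fin n'))).prodCongr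
            (MulEquiv.refl _)))
      have h4 : Ret ((G × (FreePow b n × FreeGroup (Fin n'))) × FreePow b' n')
          ((G × FreePow (b + 1) (max n n')) × FreePow b' n') :=
        (Ret.refl.prod (ret_cons b n (max n n') n' (le_max_left _ _) (le_max_right _ _))).prod
          Ret.refl
      have h5 := ih (b + 1) (max n n') n'
      have h6 : max (max n n') n' = max n n' := by simp
      rw [h6] at h5
      have h7 : b + 1 + b' = b + (b' + 1) := by ring
      rw [h7] at h5
      exact ((h2.trans h3).trans h4).trans h5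
  exact (key b' b n n').wh (h _ _)

theorem WhAll.wh (h : WhAll G) : Subsingleton (BHS16.Wh G) :=
  (Ret.left (L := FreePow 0 0)).wh (h 0 0)

theorem WhAll.free_left (h : WhAll G) (m : ℕ) : Subsingleton (BHS16.Wh (FreeGroup (Fin m) × G)) := by
  have h1 : Ret (FreeGroup (Fin m) × G) (G × FreePow 1 m) := by
    refine (Ret.of_equiv (MulEquiv.prodComm (M := FreeGroup (Fin m)) (N := G))).trans
      (Ret.refl.prod ?_)
    refine ⟨
      { toFun := fun x => fun _ => x
        map_one' := rfl
        map_mul' := fun _ _ => rfl }, Pi.evalMonoidHom _ 0, rfl⟩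
  exact h1.wh (h 1 m)

theorem WhAll.int (h : WhAll G) : WhAll (G × Multiplicative ℤ) := by
  have h1 : Ret (G × Multiplicative ℤ) (G × FreePow 1 1) := by
    refine Ret.refl.prod ((ret_int (n := 1) zero_lt_one).trans ?_)
    refine ⟨
      { toFun := fun x => fun _ => x
        map_one' := rfl
        map_mul' := fun _ _ => rfl }, Pi.evalMonoidHom _ 0, rfl⟩
  exact WhAll.ret h1 (h.prodFree 1 1)

end whall

theorem whAll_wreath {H K : Type u} [Group H] [Group K] :
    WhAll (WrP H × K) ↔ ∀ m : ℕ, WhAll ((Fin m → H) × K) := by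
  constructor
  · intro h m b n
    -- `((Fin m → H) × K) × P` is a retract of `(Fin (2m+1) → H) × (K × P)`
    have h1 : Subsingleton (BHS16.Wh (Wr H × (K × FreePow b n))) := by
      have : Ret (Wr H × (K × FreePow b n)) ((WrP H × K) × FreePow b n) :=
        (Ret.of_equiv (MulEquiv.prodAssoc (M := Wr H) (N := K) (P := FreePow b n)).symm).trans
          (((Ret.of_equiv (wrEquiv H).symm).prod Ret.refl).prod Ret.refl)
      exact this.wh (h b n)
    have h2 := base_of_whk h1 m
    have hm : m ≤ 2 * m + 1 := by omega
    have h3 : Ret (Fin m → H) (Fin (2 * m + 1) → H) := by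
      classical
      refine ⟨
        { toFun := fun f j => if hj : j.1 < m then f ⟨j.1, hj⟩ else 1
          map_one' := by funext j; simp
          map_mul' := fun f g => by
            funext j
            show (if hj : j.1 < m then f ⟨j.1, hj⟩ * g ⟨j.1, hj⟩ else 1) =
              (if hj : j.1 < m then f ⟨j.1, hj⟩ else 1) *
              (if hj : j.1 < m then g ⟨j.1, hj⟩ else 1)
            split_ifs <;> simp },
        { toFun := fun f j => f (Fin.castLE hm j)
          map_one' := rfl
          map_mul' := fun _ _ => rfl }, ?_⟩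
      ext1 f
      funext j
      show (if hj : (Fin.castLE hm j).1 < m then f ⟨(Fin.castLE hm j).1, hj⟩ else 1) = f j
      rw [dif_pos (show (Fin.castLE hm j).1 < m from j.2)]
      rfl
    have h4 : Ret (((Fin m → H) × K) × FreePow b n)
        ((Fin (2 * m + 1) → H) × (K × FreePow b n)) :=
      (Ret.of_equiv (MulEquiv.prodAssoc (M := Fin m → H) (N := K) (P := FreePow b n))).trans
        (h3.prod Ret.refl)
    exact h4.wh h2
  · intro h b n
    have hK : WhAll K := WhAll.ret Ret.right (h 0)
    have hKP : WhAll (K × FreePow b n) := hK.prodFree b n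
    have h1 : Subsingleton (BHS16.Wh (Wr H × (K × FreePow b n))) := by
      refine whk_of_base ?_ ?_ ?_
      · exact hKP.int.wh
      · exact fun m => hKP.free_left m
      · intro m
        have : Ret ((Fin m → H) × (K × FreePow b n)) (((Fin m → H) × K) × FreePow b n) :=
          Ret.of_equiv (MulEquiv.prodAssoc (M := Fin m → H) (N := K) (P := FreePow b n)).symm
        exact this.wh (h m b n)
    have h2 : Ret ((WrP H × K) × FreePow b n) (Wr H × (K × FreePow b n)) :=
      (Ret.of_equiv (MulEquiv.prodAssoc (M := WrP H) (N := K) (P := FreePow b n))).trans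
        ((Ret.of_equiv (wrEquiv H)).prod Ret.refl)
    exact h2.wh h1

/-! ### The other K-groups -/

theorem negK_class (C : ∀ (G : Type u) [Group G], Prop)
    (hC : ∀ (G : Type u) [Group G], C G → C (G × Multiplicative ℤ))
    (H : ∀ (G : Type u) [Group G], C G → Subsingleton (BHS16.K0Red G))
    (n : ℕ) : ∀ (G : Type u) [Group G], C G →
      Subsingleton ((BHS16.KNeg (n + 1)).obj (RingCat.of (BHS16.IntGroupRing G))) := by
  induction n with
  | zero =>
    intro G _ hG
    have key : ∀ y : BHS16.K0 (LaurentPolynomial (BHS16.IntGroupRing G)),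
        y ∈ BHS16.contractionSubgroup BHS16.K0Functor (RingCat.of (BHS16.IntGroupRing G)) := by
      intro y
      obtain ⟨z, rfl⟩ := BHS16.K0.map_surjective_of_equiv (BHS16.laurentEquiv G) y
      have hz : z ∈ (BHS16.K0.map (Int.castRingHom
          (BHS16.IntGroupRing (G × Multiplicative ℤ)))).range :=
        (QuotientAddGroup.eq_zero_iff z).mp ((H _ (hC _ hG)).elim (QuotientAddGroup.mk z) 0)
      obtain ⟨w, rfl⟩ := hz
      rw [← BHS16.K0.map_comp]
      have e : (BHS16.laurentEquiv G : BHS16.IntGroupRing (G × Multiplicative ℤ) →+*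
          LaurentPolynomial (BHS16.IntGroupRing G)).comp
          (Int.castRingHom (BHS16.IntGroupRing (G × Multiplicative ℤ))) =
          (BHS16.posIncl (BHS16.IntGroupRing G)).comp
            (Int.castRingHom (Polynomial (BHS16.IntGroupRing G))) := RingHom.ext_int _ _
      rw [e, BHS16.K0.map_comp]
      exact AddSubgroup.mem_sup_left ⟨_, rfl⟩
    constructor
    intro a b
    obtain ⟨x, rfl⟩ := QuotientAddGroup.mk_surjective a
    obtain ⟨y, rfl⟩ := QuotientAddGroup.mk_surjective b
    exact QuotientAddGroup.eq.mpr (key _)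
  | succ n ih =>
    intro G _ hG
    have h1 := ih (G × Multiplicative ℤ) (hC _ hG)
    have h2 : Subsingleton ((BHS16.KNeg (n + 1)).obj
        (RingCat.of (LaurentPolynomial (BHS16.IntGroupRing G)))) := by
      have e : RingCat.of (LaurentPolynomial (BHS16.IntGroupRing G)) ≅
          RingCat.of (BHS16.IntGroupRing (G × Multiplicative ℤ)) :=
        (BHS16.laurentEquiv G).symm.toRingCatIso
      have e' := (BHS16.KNeg (n + 1)).mapIso e
      exact (e'.addCommGroupIsoToAddEquiv).toEquiv.subsingleton
    constructor
    intro a b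
    obtain ⟨x, rfl⟩ := QuotientAddGroup.mk_surjective a
    obtain ⟨y, rfl⟩ := QuotientAddGroup.mk_surjective b
    rw [h2.elim x y]

theorem WhAll.k0Red {G : Type u} [Group G] (h : WhAll G) : Subsingleton (BHS16.K0Red G) :=
  BHS16.subsingleton_K0Red G h.int.wh

theorem WhAll.lowK {G : Type u} [Group G] (h : WhAll G) : BHS16.LowKVanishing G :=
  ⟨h.wh, h.k0Red, fun n => negK_class (fun G _ => WhAll G) (fun _ _ h => h.int)
    (fun _ _ h => h.k0Red) n G h⟩

/-- `G` has stably vanishing low K-theory: `Wh`, `K̃₀` and all `K_n`, `n ≤ -1`, vanish for all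
the groups `G × (F_n)^b`, `F_n` the free group of rank `n`. -/
def StablyVanishing (G : Type u) [Group G] : Prop :=
  ∀ b n : ℕ, BHS16.LowKVanishing (G × FreePow b n)

theorem stablyVanishing_iff {G : Type u} [Group G] : StablyVanishing G ↔ WhAll G := by
  constructor
  · intro h b n
    exact (h b n).1
  · intro h b n
    exact (h.prodFree b n).lowK

theorem stablyVanishing_wreath {H K : Type u} [Group H] [Group K] :
    StablyVanishing (WrP H × K) ↔ ∀ m : ℕ, StablyVanishing ((Fin m → H) × K) := by
  simp only [stablyVanishing_iff]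
  exact whAll_wreath

end Pool.Agent.Lib.MP_16fe43_al
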