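import Pool.Agent.Lib.MP_16fe43_al.TreeG2

/-!
# Axes
-/

set_option autoImplicit false

universe u v w

namespace Pool.Agent.Lib.MP_16fe43_al

open MulAction (stabilizer)

variable {V : Type v} {T : SimpleGraph V} {G : Type u} [Group G] [MulAction G V]

/-- iterating a forward move -/
private theorem wk_pow (hT : TAct G T) {g : G} {m : ℕ} {d : V × V} (h : Wk (Bk T) m d (g • d))
    (k : ℕ) : Wk (Bk T) (k * m) d (g ^ k • d) := by
  induction k with
  | zero =>
    rw [Nat.zero_mul, pow_zero, one_smul]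
    rfl
  | succ k ih =>
    have h1 : Wk (Bk T) m (g ^ k • d) (g ^ k • g • d) := Wk.smul (rInv_bk hT) _ h
    rw [Nat.succ_mul, pow_succ, mul_smul]
    exact ih.trans h1

/-- a dart which is moved forward by `g` lies on the axis of `g` -/
theorem mem_axis_of_wk (hT : TAct G T) {g : G} {m : ℕ} {d : V × V} (hd : T.Adj d.1 d.2)
    (_ : 0 < m) (h : Wk (Bk T) m d (g • d)) : d.1 ∈ axis T g ∧ d.2 ∈ axis T g := by
  have h2 : Wk (Bk T) (m + m) d (g • g • d) := h.trans (Wk.smul (rInv_bk hT) g h)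
  have e1 := wk_bk_dist hT.tree hd h
  have e2 := wk_bk_dist hT.tree hd h2
  constructor
  · have a1 : T.dist d.1 (g • d.1) = m := e1.2.1
    have a2 : T.dist d.1 (g • g • d.1) = m + m := e2.2.1
    change T.dist d.1 (g • g • d.1) = 2 * T.dist d.1 (g • d.1)
    rw [a1, a2]
    ring
  · have a1 : T.dist d.2 (g • d.2) = m := e1.2.2.2.1
    have a2 : T.dist d.2 (g • g • d.2) = m + m := e2.2.2.2.1
    change T.dist d.2 (g • g • d.2) = 2 * T.dist d.2 (g • d.2)
    rw [a1, a2]
    ring

/-- an element which moves a dart forward has no fixed vertex -/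
theorem no_fix_of_wk (hT : TAct G T) {g : G} {m : ℕ} {d : V × V} (hd : T.Adj d.1 d.2)
    (hm : 0 < m) (h : Wk (Bk T) m d (g • d)) (v : V) : g • v ≠ v := by
  intro hv
  have hk : ∀ k : ℕ, g ^ k • v = v := by
    intro k
    induction k with
    | zero => rw [pow_zero, one_smul]
    | succ k ih => rw [pow_succ, mul_smul, hv, ih]
  obtain ⟨n, hn⟩ : ∃ n : ℕ, n = 2 * T.dist d.1 v + 1 := ⟨_, rfl⟩
  have e1 : T.dist d.1 (g ^ n • d.1) = n * m :=
    (wk_bk_dist hT.tree hd (wk_pow hT h n)).2.1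
  have e2 : T.dist d.1 (g ^ n • d.1) ≤ T.dist d.1 v + T.dist v (g ^ n • d.1) :=
    hT.tree.connected.dist_triangle
  have e3 : T.dist v (g ^ n • d.1) = T.dist v d.1 := by
    have e5 := dist_smul hT (g ^ n) v d.1
    rwa [hk n] at e5
  rw [e1, e3, SimpleGraph.dist_comm (u := v)] at e2
  have e4 : n * 1 ≤ n * m := Nat.mul_le_mul_left _ hm
  omega

/-- the powers of `g` normalize `D` -/
private theorem nrm_pow {g : G} {D : Subgroup G} (hg : Nrm g D) (k : ℕ) {a : G} (ha : a ∈ D) :
    g ^ k * a * (g ^ k)⁻¹ ∈ D ∧ (g ^ k)⁻¹ * a * g ^ k ∈ D := by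
  induction k with
  | zero => simpa using ha
  | succ k ih =>
    constructor
    · have h1 := (hg _).1 ih.1
      have e : g * (g ^ k * a * (g ^ k)⁻¹) * g⁻¹ = g ^ (k + 1) * a * (g ^ (k + 1))⁻¹ := by
        rw [pow_succ']
        group
      rwa [e] at h1
    · refine (hg _).2 ?_
      have e : g * ((g ^ (k + 1))⁻¹ * a * g ^ (k + 1)) * g⁻¹ = (g ^ k)⁻¹ * a * g ^ k := by
        rw [pow_succ]
        group
      rw [e]
      exact ih.2

/-- the translates of a point of the axis are on a line -/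
private theorem line_dist (hT : TAct G T) {g : G} {z : V} (hz : z ∈ axis T g) (hgz : g • z ≠ z)
    (n : ℕ) : T.dist z (g ^ n • z) = n * T.dist z (g • z) ∧
      T.dist z (g ^ (n + 1) • z) = (n + 1) * T.dist z (g • z) := by
  have hz' : T.dist z (g • g • z) = 2 * T.dist z (g • z) := hz
  induction n with
  | zero =>
    constructor
    · rw [pow_zero, one_smul, Nat.zero_mul, SimpleGraph.dist_self]
    · rw [zero_add, pow_one, one_mul]
  | succ n ih =>
    refine ⟨ih.2, ?_⟩
    have e1 : T.dist (g ^ n • z) (g ^ (n + 1) • z) = T.dist z (g • z) := by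
      rw [pow_succ, mul_smul]
      exact dist_smul hT _ _ _
    have e2 : T.dist (g ^ (n + 1) • z) (g ^ (n + 1 + 1) • z) = T.dist z (g • z) := by
      rw [pow_succ g (n + 1), mul_smul (g ^ (n + 1))]
      exact dist_smul hT _ _ _
    have e3 : T.dist (g ^ n • z) (g ^ (n + 1 + 1) • z) = 2 * T.dist z (g • z) := by
      rw [← hz']
      have : g ^ (n + 1 + 1) • z = g ^ n • g • g • z := by
        rw [pow_succ, pow_succ, mul_smul, mul_smul]
      rw [this]
      exact dist_smul hT _ _ _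
    have hbc : g ^ n • z ≠ g ^ (n + 1) • z := by
      intro h
      rw [pow_succ, mul_smul] at h
      exact hgz ((smul_left_cancel _ h).symm)
    have h4 := between_glue hT.tree (a := z) (b := g ^ n • z) (c := g ^ (n + 1) • z)
      (e := g ^ (n + 1 + 1) • z) hbc (by rw [ih.1, ih.2, e1]; ring) (by rw [e1, e2, e3]; ring)
    rw [h4, ih.1, e1, e2]
    ring

/-- a group fixing a dart moved forward by `g`, and normalized by `g`, fixes the axis -/
theorem le_axisStab (hT : TAct G T) {g : G} {m : ℕ} {d : V × V} (hd : T.Adj d.1 d.2)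
    (hm : 0 < m) (h : Wk (Bk T) m d (g • d)) {D : Subgroup G} (hD : D ≤ stabilizer G d)
    (hg : Nrm g D) : D ≤ axisStab T g := by
  intro a ha z hz
  have hgz := no_fix_of_wk hT hd hm h z
  have hl : 0 < T.dist z (g • z) := by
    rw [Nat.pos_iff_ne_zero]
    intro h0
    rw [hT.tree.connected.dist_eq_zero_iff] at h0
    exact hgz h0.symm
  have hDfix : ∀ b ∈ D, b • d.1 = d.1 := by
    intro b hb
    have h1 : b • d = d := hD hb
    exact congrArg Prod.fst h1
  obtain ⟨n, hn⟩ : ∃ n : ℕ, n = T.dist z d.1 + 1 := ⟨_, rfl⟩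
  have hbig : T.dist z d.1 < n * T.dist z (g • z) := by
    have : n * 1 ≤ n * T.dist z (g • z) := Nat.mul_le_mul_left _ hl
    omega
  have hline := fun k => (line_dist hT hz hgz k).1
  -- the distances
  have d1 : T.dist ((g ^ n)⁻¹ • z) (g ^ n • z) = (n + n) * T.dist z (g • z) := by
    rw [← hline (n + n), ← dist_smul hT (g ^ n), smul_inv_smul, pow_add, mul_smul]
  have d2 : T.dist ((g ^ n)⁻¹ • z) z = n * T.dist z (g • z) := by
    rw [← hline n, ← dist_smul hT (g ^ n), smul_inv_smul]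
  have d3 : T.dist z (g ^ n • z) = n * T.dist z (g • z) := hline n
  have d4 : T.dist ((g ^ n)⁻¹ • z) ((g ^ n)⁻¹ • d.1) = T.dist z d.1 := dist_smul hT _ _ _
  have d5 : T.dist (g ^ n • z) (g ^ n • d.1) = T.dist z d.1 := dist_smul hT _ _ _
  -- `z` is between `g ^ (-n) d.1` and `g ^ n d.1`
  have h1 := between_or hT.tree (p := (g ^ n)⁻¹ • z) (q := g ^ n • z) (z := z)
    (by rw [d1, d2, d3]; ring) ((g ^ n)⁻¹ • d.1)
  rcases h1 with h1 | h1
  · exfalso
    rw [d4, d2] at h1
    omega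
  · have h2 := between_or hT.tree (p := g ^ n • z) (q := (g ^ n)⁻¹ • d.1) (z := z)
      (by
        rw [SimpleGraph.dist_comm (u := g ^ n • z) (v := (g ^ n)⁻¹ • d.1), h1,
          SimpleGraph.dist_comm (u := g ^ n • z) (v := z),
          SimpleGraph.dist_comm (u := z) (v := (g ^ n)⁻¹ • d.1)]
        ring) (g ^ n • d.1)
    rcases h2 with h2 | h2
    · exfalso
      rw [d5, SimpleGraph.dist_comm (u := g ^ n • z) (v := z), d3] at h2
      omega
    · refine fix_between hT ?_ ?_ h2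
      · have h3 := hDfix _ (nrm_pow hg n ha).2
        calc a • g ^ n • d.1 = g ^ n • ((g ^ n)⁻¹ * a * g ^ n) • d.1 := by
              rw [← mul_smul, ← mul_smul]
              congr 1
              group
          _ = g ^ n • d.1 := by rw [h3]
      · have h3 := hDfix _ (nrm_pow hg n ha).1
        calc a • (g ^ n)⁻¹ • d.1 = (g ^ n)⁻¹ • (g ^ n * a * (g ^ n)⁻¹) • d.1 := by
              rw [← mul_smul, ← mul_smul]
              congr 1
              group
          _ = (g ^ n)⁻¹ • d.1 := by rw [h3]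

theorem linkOK_of_axis (hT : TAct G T) {Rg : Subgroup G → Prop}
    {W : AddSubgroup (K1 (MonoidAlgebra ℤ G))}
    (h : ∀ g : G, (∀ v : V, g • v ≠ v) → ¬ Rg (axisStab T g) → ImOK W (axisGroup T g)) :
    LinkOK Rg (Bk T) W := by
  intro x y g _ hx hy hN hR
  obtain ⟨m, hm, hwx⟩ := hx
  obtain ⟨m', hm', hwy⟩ := hy
  have hadj : ∀ (m : ℕ) (x : V × V), 0 < m → Wk (Bk T) m x (g • x) → T.Adj x.1 x.2 := by
    intro m x hm hw
    obtain ⟨m, rfl⟩ : ∃ k, m = k + 1 := ⟨m - 1, by omega⟩
    obtain ⟨z, hz, _⟩ := hw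
    exact hz.1
  have hax := hadj m x hm hwx
  have hay := hadj m' y hm' hwy
  have e : stabilizer G x ⊓ stabilizer G y = axisStab T g := by
    apply le_antisymm
    · exact le_axisStab hT hax hm hwx inf_le_left hN
    · intro a ha
      have ha' : ∀ z ∈ axis T g, a • z = z := ha
      obtain ⟨h1, h2⟩ := mem_axis_of_wk hT hax hm hwx
      obtain ⟨h3, h4⟩ := mem_axis_of_wk hT hay hm' hwy
      refine ⟨?_, ?_⟩
      · exact Prod.ext (ha' _ h1) (ha' _ h2)
      · exact Prod.ext (ha' _ h3) (ha' _ h4)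
  rw [e] at hR ⊢
  exact h g (no_fix_of_wk hT hax hm hwx) hR

end Pool.Agent.Lib.MP_16fe43_al
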