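import Pool.Agent.Lib.MP_16fe43_al.K1

/-!
# Unitriangular matrices
-/

set_option autoImplicit false

universe u v w

namespace Pool.Agent.Lib.MP_16fe43_al

private theorem k0_aux {R : Type u} [Ring R] (n : ℕ) : ∀ (I : Type v) [Fintype I] [DecidableEq I]
    (ρ : I → ℕ) (S : Matrix I I R), Fintype.card I = n → (∀ i j, S i j ≠ 0 → ρ i < ρ j) →
    IsUnit (1 - S) ∧ cm (1 - S) = 0 := by
  induction n using Nat.strong_induction_on with
  | _ n ih =>
    intro I _ _ ρ S hc hS
    rcases isEmpty_or_nonempty I with hI | hI
    · have h1 : 1 - S = 1 := by ext i; exact hI.elim i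
      rw [h1]
      exact ⟨isUnit_one, cm_one⟩
    · obtain ⟨i0, h0⟩ := Finite.exists_max ρ
      let p : I → Prop := fun i => i ≠ i0
      let e : {i // p i} ⊕ {i // ¬ p i} ≃ I := Equiv.sumCompl p
      let S' : Matrix {i // p i} {i // p i} R := fun i j => S i j
      let X : Matrix {i // p i} {i // ¬ p i} R := fun i j => - S i j
      have hlt : Fintype.card {i // p i} < n := by
        rw [← hc]
        exact Fintype.card_subtype_lt (p := p) (x := i0) (fun h => h rfl)
      obtain ⟨h1, h2⟩ := ih _ hlt {i // p i} (fun i => ρ i) S' rfl (fun i j h => hS i j h)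
      have e1 : 1 - S = Matrix.reindex e e (Matrix.fromBlocks (1 - S') X 0 1) := by
        ext i j
        rw [Matrix.reindex_apply, Matrix.submatrix_apply]
        obtain ⟨i, rfl⟩ := e.surjective i
        obtain ⟨j, rfl⟩ := e.surjective j
        rw [Equiv.symm_apply_apply, Equiv.symm_apply_apply, Matrix.sub_apply]
        rcases i with i | i <;> rcases j with j | j
        · change (1 : Matrix I I R) (i : I) (j : I) - S i j =
            (1 : Matrix {i // p i} {i // p i} R) i j - S i j
          congr 1
          by_cases h : i = j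
          · subst h; simp
          · rw [Matrix.one_apply_ne h, Matrix.one_apply_ne (fun h' => h (Subtype.ext h'))]
        · change (1 : Matrix I I R) (i : I) (j : I) - S i j = - S i j
          have h : (i : I) ≠ j := fun h => j.2 (h ▸ i.2)
          rw [Matrix.one_apply_ne h, zero_sub]
        · change (1 : Matrix I I R) (i : I) (j : I) - S i j = 0
          have hi : (i : I) = i0 := not_not.1 i.2
          have h : (i : I) ≠ j := fun h => j.2 (h ▸ hi)
          have h3 : S i j = 0 := by
            by_contra h4
            have h5 := hS _ _ h4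
            rw [hi] at h5
            exact absurd (h0 j) (not_le.2 h5)
          rw [Matrix.one_apply_ne h, h3, sub_zero]
        · change (1 : Matrix I I R) (i : I) (j : I) - S i j =
            (1 : Matrix {i // ¬ p i} {i // ¬ p i} R) i j
          have hi : (i : I) = i0 := not_not.1 i.2
          have hj : (j : I) = i0 := not_not.1 j.2
          have hij : i = j := Subtype.ext (hi.trans hj.symm)
          subst hij
          have h3 : S i i = 0 := by
            by_contra h4
            exact lt_irrefl _ (hS _ _ h4)
          rw [h3, Matrix.one_apply_eq, Matrix.one_apply_eq, sub_zero]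
      have h3 : IsUnit (Matrix.fromBlocks (1 - S') X 0 (1 : Matrix {i // ¬ p i} {i // ¬ p i} R)) :=
        isUnit_fromBlocks_upper X h1 isUnit_one
      rw [e1]
      refine ⟨isUnit_reindex e h3, ?_⟩
      rw [cm_reindex e h3, cm_fromBlocks_upper X h1 isUnit_one, h2, cm_one, add_zero]

theorem cm_unitri {R : Type u} [Ring R] {I : Type v} [Fintype I] [DecidableEq I] (ρ : I → ℕ)
    (S : Matrix I I R) (hS : ∀ i j, S i j ≠ 0 → ρ i < ρ j) :
    IsUnit (1 - S) ∧ cm (1 - S) = 0 :=
  k0_aux _ I ρ S rfl hS

end Pool.Agent.Lib.MP_16fe43_al
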