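import Pool.Agent.Lib.MP_16fe43_al.TreeG1
import Pool.Agent.Lib.MP_16fe43_al.TreeK0

/-!
# Linearization
-/

set_option autoImplicit false

universe u v w

namespace Pool.Agent.Lib.MP_16fe43_al

open MulAction (stabilizer)
open Matrix (fromBlocks)

variable {V : Type w} {T : SimpleGraph V} {G : Type u} [Group G] [MulAction G V]

/-- the long terms of a matrix -/
private def LTm {n : ℕ} (M : Matrix (Fin n) (Fin n) (MonoidAlgebra ℤ G)) (v0 : V) : Type u :=
  {x : Fin n × Fin n × G // (M x.1 x.2.1).coeff x.2.2 ≠ 0 ∧ x.2.2 • v0 ≠ v0}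

private theorem ltm_finite {n : ℕ} (M : Matrix (Fin n) (Fin n) (MonoidAlgebra ℤ G)) (v0 : V) :
    Finite (LTm M v0) := by
  let f : LTm M v0 → (Σ pq : Fin n × Fin n, {h : G // h ∈ (M pq.1 pq.2).coeff.support}) :=
    fun x => ⟨(x.1.1, x.1.2.1), ⟨x.1.2.2, Finsupp.mem_support_iff.mpr x.2.1⟩⟩
  apply Finite.of_injective f
  rintro ⟨⟨p, q, h⟩, hx⟩ ⟨⟨p', q', h'⟩, hx'⟩ hf
  have h1 := congrArg Sigma.fst hf
  obtain ⟨rfl, rfl⟩ := Prod.mk.inj h1
  have h2 := eq_of_heq (Sigma.mk.inj_iff.mp hf).2
  have h3 : h = h' := congrArg Subtype.val h2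
  subst h3
  rfl

private theorem getVert_adj {a b : V} (p : T.Walk a b) {t : ℕ} (ht : t < p.length) :
    T.Adj (p.getVert t) (p.getVert (t + 1)) := p.adj_getVert_succ ht

theorem linearize (hT : TAct G T) {n : ℕ} (M : Matrix (Fin n) (Fin n) (MonoidAlgebra ℤ G))
    (hM : IsUnit M) (v0 v1 : V) (h01 : T.Adj v0 v1) :
    ∃ (I : Type u) (_ : Fintype I) (_ : DecidableEq I) (F : Matrix I I (MonoidAlgebra ℤ G))
      (e : I → V × V) (v : I → V), IsUnit F ∧ (∀ i, T.Adj (e i).1 (e i).2) ∧
      Moves (Inc T) e v F ∧ cm F = cm M := by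
  classical
  have hfin := ltm_finite M v0
  let := Fintype.ofFinite (LTm M v0)
  have hw : ∀ J : LTm M v0, ∃ p : T.Walk v0 (J.1.2.2 • v0), 0 < p.length := by
    intro J
    obtain ⟨p⟩ := hT.tree.connected.preconnected v0 (J.1.2.2 • v0)
    refine ⟨p, Nat.pos_of_ne_zero fun h => J.2.2 ?_⟩
    exact (SimpleGraph.Walk.eq_of_length_eq_zero h).symm
  choose W hWpos using hw
  let K : Type u := (J : LTm M v0) × Fin (W J).length
  let E : Matrix (Fin n) K (MonoidAlgebra ℤ G) := fun p a =>
    if a.1.1.1 = p then MonoidAlgebra.single 1 ((M a.1.1.1 a.1.1.2.1).coeff a.1.1.2.2) else 0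
  let Z : Matrix K (Fin n) (MonoidAlgebra ℤ G) := fun a q =>
    if a.2.val + 1 = (W a.1).length ∧ a.1.1.2.1 = q then MonoidAlgebra.single a.1.1.2.2 1 else 0
  let S : Matrix K K (MonoidAlgebra ℤ G) := fun a b =>
    if a.1 = b.1 ∧ a.2.val + 1 = b.2.val then 1 else 0
  have hS : ∀ a b, S a b ≠ 0 → a.1 = b.1 ∧ a.2.val + 1 = b.2.val := by
    intro a b h
    by_contra h2
    exact h (if_neg h2)
  obtain ⟨hU, hcU⟩ := cm_unitri (fun a : K => a.2.val) S
    (fun a b h => by have := (hS a b h).2; omega)
  let e : Fin n ⊕ K → V × V := Sum.elim (fun _ => (v0, v1))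
    (fun a => ((W a.1).getVert a.2.val, (W a.1).getVert (a.2.val + 1)))
  let v : Fin n ⊕ K → V := Sum.elim (fun _ => v0) (fun a => (W a.1).getVert a.2.val)
  have hup : IsUnit (fromBlocks (1 : Matrix (Fin n) (Fin n) (MonoidAlgebra ℤ G)) E 0
      (1 : Matrix K K (MonoidAlgebra ℤ G))) := isUnit_fromBlocks_upper E isUnit_one isUnit_one
  have hlo : IsUnit (fromBlocks M 0 (-Z) (1 - S)) := isUnit_fromBlocks_lower (-Z) hM hU
  have hF : fromBlocks (1 : Matrix (Fin n) (Fin n) (MonoidAlgebra ℤ G)) E 0 1 *
      fromBlocks M 0 (-Z) (1 - S) = fromBlocks (M - E * Z) (E * (1 - S)) (-Z) (1 - S) := by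
    rw [Matrix.fromBlocks_multiply]
    congr 1
    · rw [Matrix.one_mul, Matrix.mul_neg, sub_eq_add_neg]
    · rw [Matrix.mul_zero, zero_add]
    · rw [Matrix.zero_mul, zero_add, Matrix.one_mul]
    · rw [Matrix.mul_zero, zero_add, Matrix.one_mul]
  -- the corner
  have hEZ : ∀ (p q : Fin n) (g : G), g • v0 ≠ v0 →
      ((E * Z) p q).coeff g = (M p q).coeff g := by
    intro p q g hg
    rw [Matrix.mul_apply, MonoidAlgebra.coeff_sum, Finsupp.finsetSum_apply]
    have hterm : ∀ a : K, (E p a * Z a q).coeff g =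
        if a.1.1 = (p, q, g) ∧ a.2.val + 1 = (W a.1).length then (M p q).coeff g else 0 := by
      intro a
      by_cases h1 : a.1.1.1 = p
      · by_cases h2 : a.2.val + 1 = (W a.1).length ∧ a.1.1.2.1 = q
        · have hE : E p a = MonoidAlgebra.single 1 ((M a.1.1.1 a.1.1.2.1).coeff a.1.1.2.2) :=
            if_pos h1
          have hZ : Z a q = MonoidAlgebra.single a.1.1.2.2 1 := if_pos h2
          rw [hE, hZ, MonoidAlgebra.single_mul_single, one_mul, mul_one,
            MonoidAlgebra.coeff_single, Finsupp.single_apply]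
          by_cases h3 : a.1.1.2.2 = g
          · rw [if_pos h3, if_pos ⟨Prod.ext h1 (Prod.ext h2.2 h3), h2.1⟩, h1, h2.2, h3]
          · rw [if_neg h3, if_neg]
            rintro ⟨h4, -⟩
            exact h3 (by rw [h4])
        · have hZ : Z a q = 0 := if_neg h2
          rw [hZ, mul_zero, if_neg]
          · rfl
          · rintro ⟨h4, h5⟩
            exact h2 ⟨h5, by rw [h4]⟩
      · have hE : E p a = 0 := if_neg h1
        rw [hE, zero_mul, if_neg]
        · rfl
        · rintro ⟨h4, -⟩
          exact h1 (by rw [h4])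
    rw [Finset.sum_congr rfl fun a _ => hterm a]
    by_cases hc : (M p q).coeff g = 0
    · rw [hc]
      simp
    · let J : LTm M v0 := ⟨(p, q, g), hc, hg⟩
      have hpos := hWpos J
      let a0 : K := ⟨J, ⟨(W J).length - 1, by omega⟩⟩
      rw [Finset.sum_eq_single a0]
      · rw [if_pos]
        refine ⟨rfl, ?_⟩
        show (W J).length - 1 + 1 = (W J).length
        omega
      · rintro ⟨J', t⟩ _ hne
        rw [if_neg]
        rintro ⟨h4, h5⟩
        apply hne
        have h6 : J' = J := Subtype.ext h4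
        subst h6
        have h7 : t.val + 1 = (W J).length := h5
        have h8 : t = ⟨(W J).length - 1, by omega⟩ := Fin.ext (by
          show t.val = (W J).length - 1
          omega)
        rw [h8]
      · intro h
        exact absurd (Finset.mem_univ a0) h
  have hES : ∀ (p : Fin n) (b : K), (E * (1 - S) : Matrix (Fin n) K (MonoidAlgebra ℤ G)) p b = if b.2.val = 0 then E p b else 0 := by
    intro p b
    rw [Matrix.mul_sub, Matrix.mul_one, Matrix.sub_apply, Matrix.mul_apply]
    by_cases hb : b.2.val = 0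
    · rw [if_pos hb, Finset.sum_eq_zero, sub_zero]
      intro a _
      have : S a b = 0 := if_neg (by rintro ⟨-, h⟩; omega)
      rw [this, mul_zero]
    · rw [if_neg hb]
      obtain ⟨J, t⟩ := b
      have ht : t.val ≠ 0 := hb
      let a0 : K := ⟨J, ⟨t.val - 1, by have := t.2; omega⟩⟩
      rw [Finset.sum_eq_single a0]
      · have h1 : S a0 ⟨J, t⟩ = 1 := if_pos ⟨rfl, by
          show t.val - 1 + 1 = t.val
          omega⟩
        rw [h1, mul_one]
        exact sub_self _
      · rintro ⟨J', t'⟩ _ hne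
        have : S ⟨J', t'⟩ ⟨J, t⟩ = 0 := if_neg (by
          rintro ⟨h4, h5⟩
          apply hne
          have h6 : J' = J := h4
          subst h6
          have h7 : t'.val + 1 = t.val := h5
          have h8 : t' = ⟨t.val - 1, by have := t.2; omega⟩ := Fin.ext (by
            show t'.val = t.val - 1
            omega)
          rw [h8])
        rw [this, mul_zero]
      · intro h
        exact absurd (Finset.mem_univ a0) h
  refine ⟨Fin n ⊕ K, inferInstance, inferInstance,
    fromBlocks (M - E * Z) (E * (1 - S)) (-Z) (1 - S), e, v, ?_, ?_, ?_, ?_⟩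
  · rw [← hF]
    exact hup.mul hlo
  · rintro (p | a)
    · exact h01
    · exact getVert_adj _ a.2.2
  · rintro (p | a) (q | b) g hg
    · refine ⟨h01, Or.inl ?_⟩
      show g • v0 = v0
      by_contra h
      apply hg
      show ((M - E * Z) p q).coeff g = 0
      rw [Matrix.sub_apply, MonoidAlgebra.coeff_sub, Finsupp.sub_apply, hEZ p q g h, sub_self]
    · have h1 : ((E * (1 - S) : Matrix (Fin n) K (MonoidAlgebra ℤ G)) p b).coeff g ≠ 0 := hg
      rw [hES] at h1
      by_cases hb : b.2.val = 0
      · rw [if_pos hb] at h1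
        refine ⟨h01, Or.inl ?_⟩
        show g • (W b.1).getVert b.2.val = v0
        rw [hb, SimpleGraph.Walk.getVert_zero]
        have h2 : g = 1 := by
          by_contra h3
          apply h1
          show (if b.1.1.1 = p then
            MonoidAlgebra.single 1 ((M b.1.1.1 b.1.1.2.1).coeff b.1.1.2.2) else 0).coeff g = 0
          split_ifs
          · rw [MonoidAlgebra.coeff_single, Finsupp.single_apply, if_neg (Ne.symm h3)]
          · rfl
        rw [h2, one_smul]
      · rw [if_neg hb] at h1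
        exact absurd rfl h1
    · refine ⟨getVert_adj _ a.2.2, Or.inr ?_⟩
      have h1 : ((-Z) a q).coeff g ≠ 0 := hg
      rw [Matrix.neg_apply, MonoidAlgebra.coeff_neg, Finsupp.neg_apply, neg_ne_zero] at h1
      have h2 : a.2.val + 1 = (W a.1).length ∧ a.1.1.2.1 = q := by
        by_contra h3
        apply h1
        have : Z a q = 0 := if_neg h3
        rw [this]
        rfl
      have h3 : Z a q = MonoidAlgebra.single a.1.1.2.2 1 := if_pos h2
      rw [h3, MonoidAlgebra.coeff_single, Finsupp.single_apply] at h1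
      have h4 : a.1.1.2.2 = g := by
        by_contra h5
        exact h1 (if_neg h5)
      show g • v0 = (W a.1).getVert (a.2.val + 1)
      rw [h2.1, SimpleGraph.Walk.getVert_length, h4]
    · refine ⟨getVert_adj _ a.2.2, ?_⟩
      have h1 : ((1 - S) a b).coeff g ≠ 0 := hg
      show g • (W b.1).getVert b.2.val = (W a.1).getVert a.2.val ∨
        g • (W b.1).getVert b.2.val = (W a.1).getVert (a.2.val + 1)
      by_cases hab : a = b
      · subst hab
        left
        have h2 : S a a = 0 := if_neg (by rintro ⟨-, h⟩; omega)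
        rw [Matrix.sub_apply, h2, sub_zero] at h1
        obtain ⟨-, rfl⟩ := one_coeff a a g h1
        rw [one_smul]
      · right
        rw [Matrix.sub_apply, Matrix.one_apply_ne hab, zero_sub, MonoidAlgebra.coeff_neg,
          Finsupp.neg_apply, neg_ne_zero] at h1
        have h2 : a.1 = b.1 ∧ a.2.val + 1 = b.2.val := hS a b (fun h => h1 (by rw [h]; rfl))
        have h3 : S a b = 1 := if_pos h2
        rw [h3, MonoidAlgebra.one_def, MonoidAlgebra.coeff_single, Finsupp.single_apply] at h1
        have h4 : 1 = g := by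
          by_contra h5
          exact h1 (if_neg h5)
        rw [← h4, one_smul, h2.2, h2.1]
  · rw [← hF, cm_mul hup hlo, cm_fromBlocks_upper E isUnit_one isUnit_one,
      cm_fromBlocks_lower (-Z) hM hU, hcU, cm_one, cm_one, add_zero, zero_add, add_zero]

end Pool.Agent.Lib.MP_16fe43_al
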