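import Pool.Agent.Lib.MP_16fe43_al.Inj3
import Pool.Agent.Lib.MP_16fe43_al.TestGroups

/-!
# The Whitehead group of `H ≀ ℤ`
-/

set_option autoImplicit false

universe u v w

namespace Pool.Agent.Lib.MP_16fe43_al

open MonoidAlgebra Filter
open Matrix (fromBlocks)

/-! ### Comparison of the two models of `K₁` -/

section compare

variable (R : Type u) [Ring R]

/-- comparison of the models of `K₁` -/
noncomputable def toB : K1 R →+ BHS16.K1 R :=
  K1.liftc (fun _ A => BHS16.K1.mk A) (fun _ A B => BHS16.K1.mk_mul A B)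
    (fun _ _ A => BHS16.K1.mk_stab A _ rfl)

/-- comparison of the models of `K₁` -/
noncomputable def ofB : BHS16.K1 R →+ K1 R :=
  BHS16.K1.lift (fun _ A => K1.gen A) (fun _ A B => K1.gen_mul A B)
    (fun n m A C h => by
      have : C = rix finSumFinEquiv (dsum A (1 : (Matrix (Fin m) (Fin m) R)ˣ)) := Units.ext h
      rw [this, K1.gen_stab])

variable {R}

theorem toB_gen {n : ℕ} (A : (Matrix (Fin n) (Fin n) R)ˣ) : toB R (K1.gen A) = BHS16.K1.mk A :=
  K1.liftc_gen _ _ _ A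

theorem ofB_mk {n : ℕ} (A : (Matrix (Fin n) (Fin n) R)ˣ) : ofB R (BHS16.K1.mk A) = K1.gen A :=
  BHS16.K1.lift_mk _ _ _ A

theorem ofB_toB (x : K1 R) : ofB R (toB R x) = x := by
  obtain ⟨n, A, rfl⟩ := K1.exists_gen x
  rw [toB_gen, ofB_mk]

theorem toB_ofB (x : BHS16.K1 R) : toB R (ofB R x) = x := by
  induction x using BHS16.K1.induction with
  | h0 => rw [map_zero, map_zero]
  | h1 n A => rw [ofB_mk, toB_gen]
  | hneg x hx => rw [map_neg, map_neg, hx]
  | hadd x y hx hy => rw [map_add, map_add, hx, hy]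

theorem toB_map {S : Type v} [Ring S] (f : R →+* S) (x : K1 R) :
    toB S (K1.map f x) = BHS16.K1.map f (toB R x) := by
  obtain ⟨n, A, rfl⟩ := K1.exists_gen x
  rw [K1.map_gen, toB_gen, toB_gen, BHS16.K1.map_mk]
  rfl

theorem toB_surjective : Function.Surjective (toB R) := fun x => ⟨ofB R x, toB_ofB x⟩

end compare

/-! ### Trivial units -/

section trivial

variable (G : Type u) [Group G]

/-- the subgroup of `K₁(ℤG)` of the classes of trivial units, in the present model -/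
noncomputable def TU : AddSubgroup (K1 (MonoidAlgebra ℤ G)) :=
  (BHS16.trivialUnits G).comap (toB (MonoidAlgebra ℤ G))

variable {G}

/-- the unit `± g` -/
noncomputable def trU (g : G) (ε : ℤˣ) : (MonoidAlgebra ℤ G)ˣ where
  val := single g (ε : ℤ)
  inv := single g⁻¹ ((ε⁻¹ : ℤˣ) : ℤ)
  val_inv := by rw [single_mul_single]; simp [one_def]
  inv_val := by rw [single_mul_single]; simp [one_def]

theorem trU_mul (g g' : G) (ε ε' : ℤˣ) : trU g ε * trU g' ε' = trU (g * g') (ε * ε') := by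
  apply Units.ext
  show single g (ε : ℤ) * single g' (ε' : ℤ) = single (g * g') ((ε * ε' : ℤˣ) : ℤ)
  rw [single_mul_single]
  simp

/-- the class of `± g` -/
noncomputable def trC (g : G) (ε : ℤˣ) : K1 (MonoidAlgebra ℤ G) :=
  K1.gen (scU (Fin 1) (trU g ε))

theorem scU_mul_scU {S : Type v} [Ring S] {ι : Type w} [Fintype ι] [DecidableEq ι] (a b : Sˣ) :
    scU ι a * scU ι b = scU ι (a * b) := by
  apply Units.ext
  rw [Units.val_mul, scU_val, scU_val, scU_val, Matrix.diagonal_mul_diagonal]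
  rfl

theorem trC_mul (g g' : G) (ε ε' : ℤˣ) : trC (g * g') (ε * ε') = trC g ε + trC g' ε' := by
  unfold trC
  rw [← K1.gen_mul, scU_mul_scU, trU_mul]

theorem trC_one : trC (1 : G) 1 = 0 := by
  have h := trC_mul (1 : G) 1 1 1
  rw [mul_one, mul_one] at h
  exact (add_eq_left.1 h.symm)

theorem trC_inv (g : G) (ε : ℤˣ) : trC g⁻¹ ε⁻¹ = - trC g ε := by
  have h := trC_mul g g⁻¹ ε ε⁻¹
  rw [mul_inv_cancel, mul_inv_cancel, trC_one] at h
  exact (neg_eq_of_add_eq_zero_right h.symm).symm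

theorem trC_map {G' : Type v} [Group G'] (f : G →* G') (g : G) (ε : ℤˣ) :
    K1.map (mapDomainRingHom ℤ f) (trC g ε) = trC (f g) ε := by
  unfold trC
  rw [K1.map_gen]
  congr 1
  apply Units.ext
  show (scU (Fin 1) (trU g ε)).val.map (mapDomainRingHom ℤ f) = (scU (Fin 1) (trU (f g) ε)).val
  rw [scU_val, scU_val, Matrix.diagonal_map (map_zero _)]
  congr 1
  funext i
  show mapDomainRingHom ℤ f (single g (ε : ℤ)) = single (f g) (ε : ℤ)
  simp

theorem trC_mem (g : G) (ε : ℤˣ) : trC g ε ∈ TU G := by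
  show toB _ (trC g ε) ∈ BHS16.trivialUnits G
  unfold trC
  rw [toB_gen]
  apply AddSubgroup.subset_closure
  refine ⟨g, ε, _, ?_, rfl⟩
  rw [scU_val]
  ext1 i j
  rw [Subsingleton.elim i j, Matrix.diagonal_apply_eq]
  rfl

theorem mem_TU {x : K1 (MonoidAlgebra ℤ G)} : x ∈ TU G ↔ ∃ g ε, x = trC g ε := by
  constructor
  · intro hx
    have hx' : toB _ x ∈ BHS16.trivialUnits G := hx
    have key : ∀ y ∈ BHS16.trivialUnits G, ∃ g ε, ofB _ y = trC g ε := by
      intro y hy
      unfold BHS16.trivialUnits at hy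
      induction hy using AddSubgroup.closure_induction with
      | mem y hy =>
        obtain ⟨g, ε, A, hA, rfl⟩ := hy
        refine ⟨g, ε, ?_⟩
        rw [ofB_mk]
        unfold trC
        congr 1
        apply Units.ext
        have h2 : A.val = Matrix.of (fun _ _ => MonoidAlgebra.single g (ε : ℤ)) := hA
        rw [h2, scU_val]
        ext1 i j
        rw [Subsingleton.elim i j, Matrix.diagonal_apply_eq]
        rfl
      | zero => exact ⟨1, 1, by rw [map_zero, trC_one]⟩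
      | add y z _ _ hy hz =>
        obtain ⟨g, ε, h1⟩ := hy
        obtain ⟨g', ε', h2⟩ := hz
        exact ⟨g * g', ε * ε', by rw [map_add, h1, h2, trC_mul]⟩
      | neg y _ hy =>
        obtain ⟨g, ε, h1⟩ := hy
        exact ⟨g⁻¹, ε⁻¹, by rw [map_neg, h1, trC_inv]⟩
    obtain ⟨g, ε, h⟩ := key _ hx'
    exact ⟨g, ε, by rw [← h, ofB_toB]⟩
  · rintro ⟨g, ε, rfl⟩
    exact trC_mem g ε

theorem TU_map {G' : Type v} [Group G'] (f : G →* G') {x : K1 (MonoidAlgebra ℤ G)}
    (hx : x ∈ TU G) : K1.map (mapDomainRingHom ℤ f) x ∈ TU G' := by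
  obtain ⟨g, ε, rfl⟩ := mem_TU.1 hx
  rw [trC_map]
  exact trC_mem _ _

end trivial

/-! ### The stable letter -/

variable {H : Type u} [Group H]

theorem tcl_eq : (TW ℤ H).tcl = trC (SemidirectProduct.inr (Multiplicative.ofAdd 1) : Wr H) 1 := by
  unfold Tw.tcl
  rw [cm_val, cl_gen]
  unfold trC
  congr 1

theorem trC_left (f : FS H) (ε : ℤˣ) : K1.map (TW ℤ H).j (trC f ε) =
    trC (SemidirectProduct.inl f : Wr H) ε :=
  trC_map (SemidirectProduct.inl : FS H →* Wr H) f ε

theorem trC_inr (m : ℤ) : trC (SemidirectProduct.inr (Multiplicative.ofAdd m) : Wr H) 1 =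
    m • (TW ℤ H).tcl := by
  have h1 : ∀ m n : ℤ, trC (SemidirectProduct.inr (Multiplicative.ofAdd (m + n)) : Wr H) 1 =
      trC (SemidirectProduct.inr (Multiplicative.ofAdd m) : Wr H) 1 +
      trC (SemidirectProduct.inr (Multiplicative.ofAdd n) : Wr H) 1 := by
    intro m n
    rw [← trC_mul, mul_one, ← map_mul]
    rfl
  let F : ℤ →+ K1 (MonoidAlgebra ℤ (Wr H)) :=
    { toFun := fun m => trC (SemidirectProduct.inr (Multiplicative.ofAdd m) : Wr H) 1
      map_zero' := trC_one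
      map_add' := h1 }
  have h2 : F m = m • F 1 := by
    rw [← map_zsmul]
    congr 1
    simp
  rw [tcl_eq]
  exact h2

theorem trC_eq (g : Wr H) (ε : ℤˣ) : trC g ε = K1.map (TW ℤ H).j (trC g.left ε) +
    (Multiplicative.toAdd g.right) • (TW ℤ H).tcl := by
  rw [trC_left, ← trC_inr, ← trC_mul, mul_one]
  congr 1
  exact (SemidirectProduct.inl_left_mul_inr_right g).symm

/-- The generation theorem modulo trivial units. -/
theorem surj_TU (x : K1 (MonoidAlgebra ℤ (Wr H))) :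
    ∃ y : K1 (MonoidAlgebra ℤ (FS H)), x - K1.map (TW ℤ H).j y ∈ TU (Wr H) := by
  have hx := gen_wr stFree_int nilZero_int x
  unfold Tw.W at hx
  rw [AddSubgroup.mem_sup] at hx
  obtain ⟨_, ⟨y, rfl⟩, z, hz, rfl⟩ := hx
  refine ⟨y, ?_⟩
  rw [add_sub_cancel_left]
  obtain ⟨m, rfl⟩ := AddSubgroup.mem_zmultiples_iff.1 hz
  rw [← trC_inr]
  exact trC_mem _ _

/-- if the image of `x` is trivial modulo trivial units, then the `DD`-conditions hold for
`x - z`, `z` trivial -/
theorem DD_of_TU {x : K1 (MonoidAlgebra ℤ (FS H))} (hx : K1.map (TW ℤ H).j x ∈ TU (Wr H)) :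
    ∃ z ∈ TU (FS H), ∀ (a : ℕ) (s s' : Set ℤ)
      (hs : s ⊆ Set.Icc (-(a : ℤ)) a) (hs' : s' ⊆ Set.Icc (-(a : ℤ)) a),
        DD ℤ hs (K1.map (TW ℤ H).j (x - z)) = DD ℤ hs' (K1.map (TW ℤ H).j (x - z)) := by
  obtain ⟨g, ε, hg⟩ := mem_TU.1 hx
  refine ⟨trC g.left ε, trC_mem _ _, fun a s s' hs hs' => ?_⟩
  rw [map_sub, hg, trC_eq, add_sub_cancel_left, map_zsmul, map_zsmul, DD_t ℤ hs hs']

theorem cst_mem {x : K1 (MonoidAlgebra ℤ (FS H))} (hx : K1.map (TW ℤ H).j x ∈ TU (Wr H)) :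
    cst x ∈ TU (FS H) := by
  have h1 := TU_map (1 : Wr H →* FS H) hx
  have h2 : K1.map (mapDomainRingHom ℤ (1 : Wr H →* FS H)) (K1.map (TW ℤ H).j x) = cst x := by
    show K1.map (mapDomainRingHom ℤ (1 : Wr H →* FS H)) (K1.map (mapDomainRingHom ℤ
      (SemidirectProduct.inl : FS H →* Wr H)) x) = _
    rw [← K1.map_comp, ← mapDomainRingHom_comp]
    rfl
  rwa [h2] at h1

/-- The kernel of `Wh(⊕ H) → Wh(H ≀ ℤ)`. -/
theorem ker_TU {x : K1 (MonoidAlgebra ℤ (FS H))} (hx : K1.map (TW ℤ H).j x ∈ TU (Wr H)) :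
    x ∈ Rg ℤ H ⊔ TU (FS H) := by
  obtain ⟨z, hz, hDD⟩ := DD_of_TU hx
  have h1 := ker_main (x - z) hDD
  have h2 : cst (x - z) ∈ TU (FS H) := by
    have : cst (x - z) = cst x - cst z := map_sub _ _ _
    rw [this]
    exact (TU (FS H)).sub_mem (cst_mem hx) (TU_map _ hz)
  have h3 : x = (x - z - cst (x - z)) + (cst (x - z) + z) := by abel
  rw [h3]
  exact AddSubgroup.add_mem_sup h1 ((TU (FS H)).add_mem h2 hz)

/-- shift invariance of the induced map -/
theorem map_shR (x : K1 (MonoidAlgebra ℤ (FS H))) :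
    K1.map (TW ℤ H).j (K1.map (shR ℤ H) x) = K1.map (TW ℤ H).j x := by
  obtain ⟨n, A, rfl⟩ := K1.exists_gen x
  rw [← cl_gen, ← cm_val, K1.map_cm _ A.isUnit, K1.map_cm _ A.isUnit,
    K1.map_cm _ (isUnit_map _ A.isUnit)]
  have h1 := (TW ℤ H).t_mul_map A.val
  have h2 : (A.val.map (shR ℤ H)).map (TW ℤ H).j =
      ((((TW ℤ H).mat (Fin n)).t : (Matrix (Fin n) (Fin n) (MonoidAlgebra ℤ (Wr H)))ˣ)).val *
        A.val.map (TW ℤ H).j *
      ((((TW ℤ H).mat (Fin n)).t⁻¹ : (Matrix (Fin n) (Fin n) (MonoidAlgebra ℤ (Wr H)))ˣ)).val := by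
    rw [h1, mul_assoc, Units.mul_inv, mul_one]
    rfl
  rw [h2, cm_conj (Units.mul_inv _) (Units.inv_mul _) (isUnit_map _ A.isUnit)]

/-- If `Wh(H ≀ ℤ) = 0` then `Wh(⊕ H) = 0`. -/
theorem base_of_wr (h : ∀ x : K1 (MonoidAlgebra ℤ (Wr H)), x ∈ TU (Wr H))
    (x : K1 (MonoidAlgebra ℤ (FS H))) : x ∈ TU (FS H) := by
  have h1 := sub_cst_mem (TU (FS H)) (fun ρ y hy => TU_map ρ hy)
    (fun y => DD_of_TU (h _)) x
  have h2 := (TU (FS H)).add_mem h1 (cst_mem (h (K1.map (TW ℤ H).j x)))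
  rwa [sub_add_cancel] at h2

/-! ### Windows and finite powers -/

/-- the inclusion of a finite power as a window -/
noncomputable def embW (H : Type u) [Group H] (w : ℕ) : (Fin (2 * w + 1) → H) →* FS H := by
  classical
  exact
  { toFun := fun h => ⟨fun i => if hi : (i + w).toNat < 2 * w + 1 ∧ 0 ≤ i + w then
        h ⟨(i + w).toNat, hi.1⟩ else 1, by
      refine (Set.finite_Icc (-(w : ℤ)) w).subset ?_
      intro i hi
      by_contra h2
      apply hi
      show (if hi : (i + w).toNat < 2 * w + 1 ∧ 0 ≤ i + w then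
        h ⟨(i + w).toNat, hi.1⟩ else 1) = 1
      rw [dif_neg]
      rintro ⟨h3, h4⟩
      apply h2
      rw [Set.mem_Icc]
      omega⟩
    map_one' := by
      apply Subtype.ext
      funext i
      show (if hi : (i + w).toNat < 2 * w + 1 ∧ 0 ≤ i + w then (1 : H) else 1) = 1
      split_ifs <;> rfl
    map_mul' := fun f g => by
      apply Subtype.ext
      funext i
      show (if hi : (i + w).toNat < 2 * w + 1 ∧ 0 ≤ i + w then
        f ⟨(i + w).toNat, hi.1⟩ * g ⟨(i + w).toNat, hi.1⟩ else 1) =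
        (if hi : (i + w).toNat < 2 * w + 1 ∧ 0 ≤ i + w then
        f ⟨(i + w).toNat, hi.1⟩ else 1) * (if hi : (i + w).toNat < 2 * w + 1 ∧ 0 ≤ i + w then
        g ⟨(i + w).toNat, hi.1⟩ else 1)
      split_ifs <;> simp }

/-- the restriction to a window -/
def resW (H : Type u) [Group H] (w : ℕ) : FS H →* (Fin (2 * w + 1) → H) where
  toFun f := fun i => f.1 ((i.1 : ℤ) - w)
  map_one' := rfl
  map_mul' _ _ := rfl

theorem embW_resW (w : ℕ) : (embW H w).comp (resW H w) = tr (Set.Icc (-(w : ℤ)) w) := by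
  classical
  ext1 f
  apply Subtype.ext
  funext i
  show (if hi : (i + w).toNat < 2 * w + 1 ∧ 0 ≤ i + w then
        f.1 (((i + w).toNat : ℤ) - w) else 1) = _
  by_cases h : i ∈ Set.Icc (-(w : ℤ)) w
  · rw [tr_mem h]
    rw [Set.mem_Icc] at h
    rw [dif_pos (by omega)]
    exact congrArg f.1 (by omega)
  · rw [tr_not_mem h]
    rw [Set.mem_Icc] at h
    rw [dif_neg (by omega)]

theorem resW_embW (w : ℕ) : (resW H w).comp (embW H w) = MonoidHom.id _ := by
  classical
  ext1 f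
  funext i
  show (if hi : (((i.1 : ℤ) - w) + w).toNat < 2 * w + 1 ∧ 0 ≤ ((i.1 : ℤ) - w) + w then
        f ⟨((((i.1 : ℤ) - w) + w)).toNat, hi.1⟩ else 1) = f i
  have hi := i.2
  rw [dif_pos (by omega)]
  congr 1
  apply Fin.ext
  show ((((i.1 : ℤ) - w) + w)).toNat = i.1
  omega

/-! ### The Whitehead groups -/

open BHS16 in
/-- The homomorphism of Whitehead groups induced by a group homomorphism. -/
noncomputable def whMap {G : Type u} {G' : Type v} [Group G] [Group G'] (f : G →* G') :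
    BHS16.Wh G →+ BHS16.Wh G' :=
  QuotientAddGroup.map (BHS16.trivialUnits G) (BHS16.trivialUnits G')
    (BHS16.K1.map (mapDomainRingHom ℤ f)) (fun _ hx => BHS16.trivialUnits_map f hx)

/-- The class in the Whitehead group -/
noncomputable def whC {G : Type u} [Group G] : K1 (MonoidAlgebra ℤ G) →+ BHS16.Wh G :=
  (QuotientAddGroup.mk' (BHS16.trivialUnits G)).comp (toB (MonoidAlgebra ℤ G))

theorem whC_surjective {G : Type u} [Group G] : Function.Surjective (whC (G := G)) :=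
  (QuotientAddGroup.mk'_surjective _).comp toB_surjective

theorem whC_eq_zero {G : Type u} [Group G] {x : K1 (MonoidAlgebra ℤ G)} :
    whC x = 0 ↔ x ∈ TU G := QuotientAddGroup.eq_zero_iff _

theorem whMap_whC {G : Type u} {G' : Type v} [Group G] [Group G'] (f : G →* G')
    (x : K1 (MonoidAlgebra ℤ G)) : whMap f (whC x) = whC (K1.map (mapDomainRingHom ℤ f) x) := by
  show QuotientAddGroup.mk' _ (BHS16.K1.map (mapDomainRingHom ℤ f) (toB _ x)) =
    QuotientAddGroup.mk' _ (toB _ (K1.map (mapDomainRingHom ℤ f) x))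
  rw [toB_map]

theorem wh_subsingleton {G : Type u} [Group G] :
    Subsingleton (BHS16.Wh G) ↔ ∀ x : K1 (MonoidAlgebra ℤ G), x ∈ TU G := by
  constructor
  · intro h x
    exact whC_eq_zero.1 (h.elim _ _)
  · intro h
    refine ⟨fun a b => ?_⟩
    obtain ⟨x, rfl⟩ := whC_surjective a
    obtain ⟨y, rfl⟩ := whC_surjective b
    rw [whC_eq_zero.2 (h x), whC_eq_zero.2 (h y)]

/-- the subgroup of elements `σ x - x` of `Wh(⊕_ℤ H)` -/
noncomputable def coinv (H : Type u) [Group H] : AddSubgroup (BHS16.Wh (FS H)) :=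
  (whMap ((shift H : FS H ≃* FS H) : FS H →* FS H) - AddMonoidHom.id _).range

theorem wh_surj : Function.Surjective (whMap (SemidirectProduct.inl : FS H →* Wr H)) := by
  intro z
  obtain ⟨x, rfl⟩ := whC_surjective z
  obtain ⟨y, hy⟩ := surj_TU x
  refine ⟨whC y, ?_⟩
  rw [whMap_whC]
  have h := whC_eq_zero.2 hy
  rw [map_sub, sub_eq_zero] at h
  exact h.symm

theorem wh_ker : (whMap (SemidirectProduct.inl : FS H →* Wr H)).ker = coinv H := by
  ext z
  constructor
  · intro hz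
    obtain ⟨x, rfl⟩ := whC_surjective z
    rw [AddMonoidHom.mem_ker, whMap_whC, whC_eq_zero] at hz
    have h1 := ker_TU hz
    rw [AddSubgroup.mem_sup] at h1
    obtain ⟨_, ⟨y, rfl⟩, t, ht, rfl⟩ := h1
    refine ⟨whC y, ?_⟩
    rw [map_add, whC_eq_zero.2 ht, add_zero]
    show whMap _ (whC y) - whC y = whC (K1.map (shR ℤ H) y - y)
    rw [whMap_whC, map_sub]
    rfl
  · rintro ⟨z, rfl⟩
    obtain ⟨x, rfl⟩ := whC_surjective z
    rw [AddMonoidHom.mem_ker]
    show whMap _ (whMap _ (whC x) - whC x) = 0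
    rw [whMap_whC, map_sub, whMap_whC, whMap_whC, sub_eq_zero]
    congr 1
    exact map_shR x

/-- `Wh(H ≀ ℤ)` is the group of coinvariants of `Wh(⊕_ℤ H)` under the shift. -/
theorem wh_iso : ∃ e : (BHS16.Wh (FS H) ⧸ coinv H) ≃+ BHS16.Wh (Wr H),
    ∀ x, e (QuotientAddGroup.mk x) = whMap (SemidirectProduct.inl : FS H →* Wr H) x := by
  refine ⟨(QuotientAddGroup.quotientAddEquivOfEq wh_ker.symm).trans
    (QuotientAddGroup.quotientKerEquivOfSurjective _ wh_surj), fun x => rfl⟩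

theorem wh_fs_iff : Subsingleton (BHS16.Wh (FS H)) ↔
    ∀ m : ℕ, Subsingleton (BHS16.Wh (Fin m → H)) := by
  constructor
  · intro h m
    have h1 : Subsingleton (BHS16.Wh (Fin (2 * m + 1) → H)) :=
      BHS16.wh_retract (embW H m) (resW H m) (resW_embW m) h
    have hm : m ≤ 2 * m + 1 := by omega
    classical
    let i : (Fin m → H) →* (Fin (2 * m + 1) → H) :=
      { toFun := fun f j => if hj : j.1 < m then f ⟨j.1, hj⟩ else 1
        map_one' := by funext j; simp
        map_mul' := fun f g => by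
          funext j
          show (if hj : j.1 < m then f ⟨j.1, hj⟩ * g ⟨j.1, hj⟩ else 1) =
            (if hj : j.1 < m then f ⟨j.1, hj⟩ else 1) * (if hj : j.1 < m then g ⟨j.1, hj⟩ else 1)
          split_ifs <;> simp }
    let p : (Fin (2 * m + 1) → H) →* (Fin m → H) :=
      { toFun := fun f j => f (Fin.castLE hm j)
        map_one' := rfl
        map_mul' := fun _ _ => rfl }
    refine BHS16.wh_retract i p ?_ h1
    ext1 f
    funext j
    show (if hj : (Fin.castLE hm j).1 < m then f ⟨(Fin.castLE hm j).1, hj⟩ else 1) = f j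
    rw [dif_pos (show (Fin.castLE hm j).1 < m from j.2)]
    rfl
  · intro h
    rw [wh_subsingleton]
    intro x
    obtain ⟨w, hw⟩ := exists_win x
    have h1 := wh_subsingleton.1 (h (2 * w + 1)) (K1.map (mapDomainRingHom ℤ (resW H w)) x)
    have h2 := TU_map (embW H w) h1
    rw [← K1.map_comp, ← mapDomainRingHom_comp, embW_resW] at h2
    unfold Win at hw
    rwa [hw] at h2

theorem wh_wr_iff : Subsingleton (BHS16.Wh (Wr H)) ↔
    ∀ m : ℕ, Subsingleton (BHS16.Wh (Fin m → H)) := by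
  rw [← wh_fs_iff]
  constructor
  · intro h
    rw [wh_subsingleton] at h ⊢
    exact base_of_wr h
  · intro h
    exact wh_surj.subsingleton

end Pool.Agent.Lib.MP_16fe43_al
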