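import Pool.Agent.Lib.MP_16fe43_al.TreeK1
import Pool.Agent.Lib.MP_16fe43_al.WhWreath

/-!
# Matrices which are located at equality
-/

set_option autoImplicit false

universe u v w

namespace Pool.Agent.Lib.MP_16fe43_al

open MulAction (stabilizer)

variable {G : Type u} [Group G] {I : Type v} [Fintype I] [DecidableEq I]

private theorem k3_cm_dg_single (a : I) (g : G) :
    cm (dg (Pi.mulSingle a g : I → G)) = trC g 1 := by
  let X : Matrix I (Fin 1) (MonoidAlgebra ℤ G) :=
    fun i _ => if i = a then (1 - MonoidAlgebra.single g 1 : MonoidAlgebra ℤ G) else 0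
  let Y : Matrix (Fin 1) I (MonoidAlgebra ℤ G) := fun _ j => if j = a then 1 else 0
  have h1 : dg (Pi.mulSingle a g : I → G) = 1 - X * Y := by
    ext1 i j
    rw [Matrix.sub_apply, Matrix.mul_apply, Fin.sum_univ_one]
    show dg (Pi.mulSingle a g : I → G) i j = (1 : Matrix I I (MonoidAlgebra ℤ G)) i j -
      (if i = a then (1 - MonoidAlgebra.single g 1 : MonoidAlgebra ℤ G) else 0) *
        (if j = a then 1 else 0)
    unfold dg
    by_cases hij : i = j
    · subst hij
      rw [Matrix.diagonal_apply_eq, Matrix.one_apply_eq]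
      by_cases hi : i = a
      · subst hi
        rw [if_pos rfl, if_pos rfl, Pi.mulSingle_eq_same, mul_one, sub_sub_cancel]
      · rw [if_neg hi, if_neg hi, Pi.mulSingle_eq_of_ne hi, mul_zero, sub_zero,
          MonoidAlgebra.one_def]
    · rw [Matrix.diagonal_apply_ne _ hij, Matrix.one_apply_ne hij]
      by_cases hi : i = a
      · have hj : j ≠ a := fun h => hij (hi.trans h.symm)
        rw [if_neg hj, mul_zero, sub_zero]
      · rw [if_neg hi, zero_mul, sub_zero]
  have h2 : 1 - Y * X = (scU (Fin 1) (trU g 1)).val := by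
    rw [scU_val]
    ext1 i j
    rw [Subsingleton.elim j i, Matrix.diagonal_apply_eq, Matrix.sub_apply, Matrix.one_apply_eq,
      Matrix.mul_apply]
    show 1 - ∑ k : I, (if k = a then (1 : MonoidAlgebra ℤ G) else 0) *
      (if k = a then (1 - MonoidAlgebra.single g 1 : MonoidAlgebra ℤ G) else 0) =
      MonoidAlgebra.single g ((1 : ℤˣ) : ℤ)
    simp
  rw [h1, cm_one_sub_mul_comm, h2, cm_val, cl_gen]
  rfl

private theorem k3_dg_split (g : I → G) (a : I) :
    dg g = dg (Pi.mulSingle a (g a) : I → G) * dg (Function.update g a 1) := by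
  rw [dg_mul_dg]
  congr 1
  funext i
  by_cases hi : i = a
  · subst hi
    rw [Pi.mulSingle_eq_same, Function.update_self, mul_one]
  · rw [Pi.mulSingle_eq_of_ne hi, Function.update_of_ne hi, one_mul]

private theorem k3_cm_dg_split (g : I → G) (a : I) :
    cm (dg g) = trC (g a) 1 + cm (dg (Function.update g a 1)) := by
  have h1 := cm_mul (isUnit_dg (Pi.mulSingle a (g a) : I → G)) (isUnit_dg (Function.update g a 1))
  rw [k3_cm_dg_single, ← k3_dg_split g a] at h1
  exact h1

theorem cm_dg_mem {W : AddSubgroup (K1 (MonoidAlgebra ℤ G))} (hW : TU G ≤ W) (g : I → G) :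
    cm (dg g) ∈ W := by
  have key : ∀ (s : Finset I) (g : I → G), (∀ i ∉ s, g i = 1) → cm (dg g) ∈ W := by
    intro s
    induction s using Finset.induction_on with
    | empty =>
      intro g hg
      have h1 : g = fun _ => 1 := funext fun i => hg i (Finset.notMem_empty i)
      have h2 : cm (dg g) = 0 := by
        rw [h1, dg_one]
        exact cm_one
      rw [h2]
      exact zero_mem W
    | insert a s ha ih =>
      intro g hg
      rw [k3_cm_dg_split g a]
      refine add_mem (hW (trC_mem _ _)) (ih _ fun i hi => ?_)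
      by_cases hia : i = a
      · subst hia
        exact Function.update_self _ _ _
      · rw [Function.update_of_ne hia]
        exact hg i (fun h => (Finset.mem_insert.1 h).elim hia hi)
  exact key Finset.univ g (fun i hi => absurd (Finset.mem_univ i) hi)

private theorem k3_isUnit_perm (σ : Equiv.Perm I) :
    IsUnit ((1 : Matrix I I (MonoidAlgebra ℤ G)).submatrix σ id) :=
  ⟨⟨(1 : Matrix I I (MonoidAlgebra ℤ G)).submatrix σ id,
    (1 : Matrix I I (MonoidAlgebra ℤ G)).submatrix id σ,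
    (Matrix.submatrix_mul_equiv (1 : Matrix I I (MonoidAlgebra ℤ G)) 1 σ (Equiv.refl _) σ).trans
      (by simp),
    (Matrix.submatrix_mul_equiv (1 : Matrix I I (MonoidAlgebra ℤ G)) 1 id σ id).trans
      (by simp)⟩, rfl⟩

private theorem k3_perm_mul (σ τ : Equiv.Perm I) :
    (1 : Matrix I I (MonoidAlgebra ℤ G)).submatrix (σ * τ : Equiv.Perm I) id =
      (1 : Matrix I I (MonoidAlgebra ℤ G)).submatrix τ id *
      (1 : Matrix I I (MonoidAlgebra ℤ G)).submatrix σ id := by
  ext1 i j
  rw [Matrix.mul_apply, Finset.sum_eq_single (τ i)]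
  · show (1 : Matrix I I (MonoidAlgebra ℤ G)) (σ (τ i)) j =
      (1 : Matrix I I (MonoidAlgebra ℤ G)) (τ i) (τ i) *
        (1 : Matrix I I (MonoidAlgebra ℤ G)) (σ (τ i)) j
    rw [Matrix.one_apply_eq, one_mul]
  · intro k _ hk
    show (1 : Matrix I I (MonoidAlgebra ℤ G)) (τ i) k * _ = 0
    rw [Matrix.one_apply_ne (Ne.symm hk), zero_mul]
  · intro h
    exact absurd (Finset.mem_univ _) h

private theorem k3_cm_swap {x y : I} (hxy : x ≠ y) :
    cm ((1 : Matrix I I (MonoidAlgebra ℤ G)).submatrix (Equiv.swap x y) id) =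
      trC (1 : G) (-1) := by
  let f : I → MonoidAlgebra ℤ G := fun i => if i = x then 1 else if i = y then -1 else 0
  let X : Matrix I (Fin 1) (MonoidAlgebra ℤ G) := fun i _ => f i
  let Y : Matrix (Fin 1) I (MonoidAlgebra ℤ G) := fun _ j => f j
  have fx : f x = 1 := if_pos rfl
  have fy : f y = -1 := by
    show (if y = x then (1 : MonoidAlgebra ℤ G) else if y = y then -1 else 0) = -1
    rw [if_neg (Ne.symm hxy), if_pos rfl]
  have fz : ∀ z, z ≠ x → z ≠ y → f z = 0 := by
    intro z h1 h2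
    show (if z = x then (1 : MonoidAlgebra ℤ G) else if z = y then -1 else 0) = 0
    rw [if_neg h1, if_neg h2]
  have h1 : (1 : Matrix I I (MonoidAlgebra ℤ G)).submatrix (Equiv.swap x y) id = 1 - X * Y := by
    ext1 i j
    rw [Matrix.sub_apply, Matrix.mul_apply, Fin.sum_univ_one]
    show (1 : Matrix I I (MonoidAlgebra ℤ G)) (Equiv.swap x y i) j =
      (1 : Matrix I I (MonoidAlgebra ℤ G)) i j - f i * f j
    by_cases hi : i = x
    · subst hi
      rw [Equiv.swap_apply_left, fx, one_mul]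
      by_cases hj : j = i
      · subst hj
        rw [fx, Matrix.one_apply_eq, Matrix.one_apply_ne (Ne.symm hxy), sub_self]
      · by_cases hj2 : j = y
        · subst hj2
          rw [fy, Matrix.one_apply_eq, Matrix.one_apply_ne hxy, zero_sub, neg_neg]
        · rw [fz j hj hj2, Matrix.one_apply_ne (Ne.symm hj), Matrix.one_apply_ne (Ne.symm hj2),
            sub_self]
    · by_cases hi2 : i = y
      · subst hi2
        rw [Equiv.swap_apply_right, fy]
        by_cases hj : j = x
        · subst hj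
          rw [fx, Matrix.one_apply_eq, Matrix.one_apply_ne hi, mul_one, zero_sub, neg_neg]
        · by_cases hj2 : j = i
          · subst hj2
            rw [fy, Matrix.one_apply_eq, Matrix.one_apply_ne hxy, neg_mul_neg, one_mul, sub_self]
          · rw [fz j hj hj2, Matrix.one_apply_ne (Ne.symm hj), Matrix.one_apply_ne (Ne.symm hj2),
              mul_zero, sub_self]
      · rw [Equiv.swap_apply_of_ne_of_ne hi hi2, fz i hi hi2, zero_mul, sub_zero]
  have h2 : 1 - Y * X = (scU (Fin 1) (trU (1 : G) (-1))).val := by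
    rw [scU_val]
    ext1 i j
    rw [Subsingleton.elim j i, Matrix.diagonal_apply_eq, Matrix.sub_apply, Matrix.one_apply_eq,
      Matrix.mul_apply]
    show 1 - ∑ k : I, f k * f k = MonoidAlgebra.single (1 : G) ((-1 : ℤˣ) : ℤ)
    have h3 : ∑ k : I, f k * f k = 2 := by
      rw [← Finset.sum_subset (Finset.subset_univ {x, y})]
      · rw [Finset.sum_pair hxy, fx, fy]
        norm_num
      · intro z _ hz
        rw [Finset.mem_insert, Finset.mem_singleton, not_or] at hz
        rw [fz z hz.1 hz.2, zero_mul]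
    rw [h3, Units.val_neg, Units.val_one, MonoidAlgebra.single_neg, ← MonoidAlgebra.one_def]
    norm_num
  rw [h1, cm_one_sub_mul_comm, h2, cm_val, cl_gen]
  rfl

private theorem k3_perm_one :
    cm ((1 : Matrix I I (MonoidAlgebra ℤ G)).submatrix (1 : Equiv.Perm I) id) = 0 := by
  have h : (1 : Matrix I I (MonoidAlgebra ℤ G)).submatrix (1 : Equiv.Perm I) id = 1 := by
    ext1 i j
    rfl
  rw [h]
  exact cm_one

private theorem k3_perm_swap_mul {x y : I} (hxy : x ≠ y) (σ : Equiv.Perm I) :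
    cm ((1 : Matrix I I (MonoidAlgebra ℤ G)).submatrix (Equiv.swap x y * σ : Equiv.Perm I) id) =
      cm ((1 : Matrix I I (MonoidAlgebra ℤ G)).submatrix σ id) + trC (1 : G) (-1) := by
  have h1 := cm_mul (k3_isUnit_perm (G := G) σ) (k3_isUnit_perm (G := G) (Equiv.swap x y))
  rw [← k3_perm_mul, k3_cm_swap hxy] at h1
  exact h1

/-- a permutation matrix -/
theorem perm_mem {W : AddSubgroup (K1 (MonoidAlgebra ℤ G))} (hW : TU G ≤ W)
    (σ : Equiv.Perm I) :
    IsUnit ((1 : Matrix I I (MonoidAlgebra ℤ G)).submatrix σ id) ∧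
      cm ((1 : Matrix I I (MonoidAlgebra ℤ G)).submatrix σ id) ∈ W := by
  refine ⟨k3_isUnit_perm σ, ?_⟩
  induction σ using Equiv.Perm.swap_induction_on with
  | one =>
    exact (k3_perm_one (G := G) (I := I)).symm ▸ zero_mem W
  | swap_mul σ x y hxy ih =>
    exact (k3_perm_swap_mul (G := G) hxy σ).symm ▸ add_mem ih (hW (trC_mem _ _))

/-- by the determinant of the augmentation: a matching of the rows with the columns -/
theorem exists_matching {X : Type w} [MulAction G X] (x v : I → X)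
    (Φ : Matrix I I (MonoidAlgebra ℤ G)) (hΦ : IsUnit Φ)
    (hloc : Moves (fun a b => b = a) x v Φ) :
    ∃ (σ : Equiv.Perm I) (g : I → G), ∀ i, x (σ i) = g i • v i := by
  let ε : MonoidAlgebra ℤ G →+* ℤ := (MonoidAlgebra.lift ℤ ℤ G (1 : G →* ℤ)).toRingHom
  have h1 : IsUnit (Φ.map ε) := isUnit_map ε hΦ
  have h2 : (Φ.map ε).det ≠ 0 := ((Matrix.isUnit_iff_isUnit_det _).1 h1).ne_zero
  rw [Matrix.det_apply] at h2
  obtain ⟨σ, _, hσ⟩ := Finset.exists_ne_zero_of_sum_ne_zero h2
  have h3 : ∀ i, ∃ g : G, (Φ (σ i) i).coeff g ≠ 0 := by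
    intro i
    by_contra hcon
    push Not at hcon
    apply hσ
    have h4 : Φ (σ i) i = 0 := by
      ext g
      rw [hcon g]
      rfl
    have h5 : ∏ i, (Φ.map ε) (σ i) i = 0 := by
      refine Finset.prod_eq_zero (Finset.mem_univ i) ?_
      rw [Matrix.map_apply, h4, map_zero]
    rw [h5, smul_zero]
  choose g hg using h3
  exact ⟨σ, g, fun i => (hloc _ _ _ (hg i)).symm⟩

omit [Fintype I] [DecidableEq I] in
private theorem k3_exists_rep {X : Type w} [MulAction G X] (v : I → X) :
    ∃ (x' : I → X) (g : I → G), (∀ (i j : I) (h : G), h • x' j = x' i → x' i = x' j) ∧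
      ∀ i, v i = g i • x' i := by
  let q : X → MulAction.orbitRel.Quotient G X := fun a => Quotient.mk'' a
  have h1 : ∀ a : X, ∃ g : G, a = g • (q a).out := by
    intro a
    have h2 : (q a).out ∈ MulAction.orbit G a := by
      have h3 : q ((q a).out) = q a := Quotient.out_eq' (q a)
      exact MulAction.orbitRel.Quotient.mem_orbit.2 h3 |> fun h => by
        simpa [q, MulAction.orbitRel.Quotient.orbit_mk] using h
    obtain ⟨g, hg⟩ := h2
    refine ⟨g⁻¹, ?_⟩
    have hg' : g • a = (q a).out := hg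
    rw [← hg', inv_smul_smul]
  choose g hg using fun i => h1 (v i)
  refine ⟨fun i => (q (v i)).out, g, ?_, hg⟩
  intro i j h hh
  have h3 : q ((q (v i)).out) = q (v i) := Quotient.out_eq' (q (v i))
  have h4 : q ((q (v j)).out) = q (v j) := Quotient.out_eq' (q (v j))
  have h5 : q (h • (q (v j)).out) = q ((q (v j)).out) :=
    Quotient.sound' ⟨h, rfl⟩
  have h6 : q (v i) = q (v j) := by
    have hh' : h • (q (v j)).out = (q (v i)).out := hh
    rw [← h3, ← hh', h5, h4]
  show (q (v i)).out = (q (v j)).out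
  rw [h6]

theorem vertex_mem {X : Type w} [MulAction G X] (x v : I → X)
    (Φ : Matrix I I (MonoidAlgebra ℤ G)) (hΦ : IsUnit Φ)
    (hloc : Moves (fun a b => b = a) x v Φ) {W : AddSubgroup (K1 (MonoidAlgebra ℤ G))}
    (hTU : TU G ≤ W) (hst : ∀ a : X, ImOK W (stabilizer G a)) : cm Φ ∈ W := by
  obtain ⟨σ, g, hσ⟩ := exists_matching x v Φ hΦ hloc
  obtain ⟨x', k, hrep, hk⟩ := k3_exists_rep (G := G) v
  obtain ⟨P, hPdef⟩ : ∃ P : Matrix I I (MonoidAlgebra ℤ G),
      P = (1 : Matrix I I (MonoidAlgebra ℤ G)).submatrix σ id := ⟨_, rfl⟩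
  have hP : IsUnit P := hPdef ▸ (perm_mem (G := G) hTU σ).1
  have hPW : cm P ∈ W := hPdef ▸ (perm_mem (G := G) hTU σ).2
  have hrow : ∀ i j, (P * Φ) i j = Φ (σ i) j := by
    intro i j
    rw [hPdef, Matrix.mul_apply, Finset.sum_eq_single (σ i)]
    · show (1 : Matrix I I (MonoidAlgebra ℤ G)) (σ i) (σ i) * Φ (σ i) j = _
      rw [Matrix.one_apply_eq, one_mul]
    · intro t _ ht
      show (1 : Matrix I I (MonoidAlgebra ℤ G)) (σ i) t * _ = 0
      rw [Matrix.one_apply_ne (Ne.symm ht), zero_mul]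
    · intro h
      exact absurd (Finset.mem_univ _) h
  have hPΦ : IsUnit (P * Φ) := hP.mul hΦ
  have hd : IsUnit (dg (fun i => (g i)⁻¹)) := isUnit_dg (fun i => (g i)⁻¹)
  have hd1 : IsUnit (dg (fun i => (k i)⁻¹)) := isUnit_dg (fun i => (k i)⁻¹)
  have hd2 : IsUnit (dg k) := isUnit_dg k
  have hU : IsUnit (dg (fun i => (g i)⁻¹) * (P * Φ)) := hd.mul hPΦ
  have h1 : cm (dg (fun i => (g i)⁻¹) * (P * Φ)) = cm (dg (fun i => (g i)⁻¹)) + (cm P + cm Φ) :=
    (cm_mul hd hPΦ).trans (congrArg (cm (dg (fun i => (g i)⁻¹)) + ·) (cm_mul hP hΦ))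
  have h2 : cm (dg (fun i => (k i)⁻¹) * (dg (fun i => (g i)⁻¹) * (P * Φ)) * dg k) =
      cm (dg (fun i => (g i)⁻¹) * (P * Φ)) :=
    cm_conj (dg_inv_mul k) (dg_mul_inv k) hU
  have hU2 : IsUnit (dg (fun i => (k i)⁻¹) * (dg (fun i => (g i)⁻¹) * (P * Φ)) * dg k) :=
    (hd1.mul hU).mul hd2
  have hB : Blk x' (fun a => stabilizer G a)
      (dg (fun i => (k i)⁻¹) * (dg (fun i => (g i)⁻¹) * (P * Φ)) * dg k) := by
    intro i j h hh
    rw [mul_dg_coeff, dg_mul_coeff, dg_mul_coeff, hrow] at hh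
    have h3 := hloc _ _ _ hh
    rw [hσ i, hk i, hk j, inv_inv, inv_inv] at h3
    have h4 : h • x' j = x' i := by
      have h5 : (g i * (k i * (h * (k j)⁻¹))) • k j • x' j = g i • k i • h • x' j := by
        rw [← mul_smul, ← mul_smul, ← mul_smul]
        congr 1
        group
      rw [h5] at h3
      exact MulAction.injective _ (MulAction.injective _ h3)
    have h6 := hrep i j h h4
    refine ⟨h6, ?_⟩
    rw [MulAction.mem_stabilizer_iff]
    rw [← h6] at h4
    exact h4
  have h3 := block_mem x' (fun a => stabilizer G a) _ hU2 hB W (fun i => hst _)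
  rw [h2, h1] at h3
  have h4 : cm Φ = (cm (dg (fun i => (g i)⁻¹)) + (cm P + cm Φ)) - cm (dg (fun i => (g i)⁻¹)) -
      cm P := by abel
  rw [h4]
  exact sub_mem (sub_mem h3 (cm_dg_mem hTU _)) hPW

end Pool.Agent.Lib.MP_16fe43_al
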