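import Pool.Agent.Lib.MP_16fe43_al.TreeG1
import Pool.Agent.Lib.MP_16fe43_al.TreeK3

/-!
# Normalization of the row locations
-/

set_option autoImplicit false

universe u v w

namespace Pool.Agent.Lib.MP_16fe43_al

open MulAction (stabilizer)

variable {V : Type w} {T : SimpleGraph V} {G : Type u} [Group G] [MulAction G V]
  {I : Type u} [Fintype I] [DecidableEq I]

/-- the equivalence relation of the group and the flip -/
private def k5_setoid (G : Type u) [Group G] (V : Type w) [MulAction G V] : Setoid (V × V) where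
  r d d' := ∃ g : G, g • d = d' ∨ (g • d).swap = d'
  iseqv := by
    refine ⟨fun d => ⟨1, Or.inl (one_smul G d)⟩, ?_, ?_⟩
    · rintro d d' ⟨g, h | h⟩
      · exact ⟨g⁻¹, Or.inl (by rw [← h, inv_smul_smul])⟩
      · refine ⟨g⁻¹, Or.inr ?_⟩
        rw [← h]
        obtain ⟨a, b⟩ := d
        show (g⁻¹ • g • a, g⁻¹ • g • b) = (a, b)
        rw [inv_smul_smul, inv_smul_smul]
    · rintro d d' d'' ⟨g, h⟩ ⟨g', h'⟩
      refine ⟨g' * g, ?_⟩
      obtain ⟨a, b⟩ := d
      have e1 : (g' * g) • (a, b) = (g' • g • a, g' • g • b) := by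
        show ((g' * g) • a, (g' * g) • b) = _
        rw [mul_smul, mul_smul]
      rw [e1]
      rcases h with h | h <;> rcases h' with h' | h'
      · left; rw [← h', ← h]; rfl
      · right; rw [← h', ← h]; rfl
      · right; rw [← h', ← h]; rfl
      · left; rw [← h', ← h]; rfl

omit [Fintype I] [DecidableEq I] in
/-- representatives of the edges up to the group and the flip -/
theorem exists_edgeRep (hT : TAct G T) (e : I → V × V) (he : ∀ i, T.Adj (e i).1 (e i).2) :
    ∃ (e' : I → V × V) (g : I → G), (∀ i, T.Adj (e' i).1 (e' i).2) ∧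
      (∀ i, e i = g i • e' i ∨ e i = (g i • e' i).swap) ∧
      (∀ (i j : I) (h : G), h • e' j = e' i → e' i = e' j) ∧
      ∀ (i j : I) (h : G), h • e' j ≠ (e' i).swap := by
  let q : V × V → Quotient (k5_setoid G V) := fun d => Quotient.mk (k5_setoid G V) d
  have hout : ∀ d, q (q d).out = q d := fun d => Quotient.out_eq (q d)
  have h1 : ∀ d : V × V, ∃ g : G, d = g • (q d).out ∨ d = (g • (q d).out).swap := by
    intro d
    obtain ⟨g, hg⟩ := Quotient.exact (hout d)
    exact ⟨g, hg.imp Eq.symm Eq.symm⟩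
  choose g hg using fun i => h1 (e i)
  have hrep : ∀ (i j : I) (h : G), (h • (q (e j)).out = (q (e i)).out ∨
      (h • (q (e j)).out).swap = (q (e i)).out) → (q (e i)).out = (q (e j)).out := by
    intro i j h hh
    have h2 : q (q (e j)).out = q (q (e i)).out := Quotient.sound ⟨h, hh⟩
    rw [hout, hout] at h2
    rw [h2]
  have hadj : ∀ i, T.Adj ((q (e i)).out).1 ((q (e i)).out).2 := by
    intro i
    have h3 : ∀ x y : V, T.Adj (g i • x) (g i • y) → T.Adj x y := by
      intro x y hxy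
      have h4 := hT.adj (g i)⁻¹ _ _ hxy
      rwa [inv_smul_smul, inv_smul_smul] at h4
    have h2 := he i
    rcases hg i with h4 | h4
    · rw [h4] at h2
      exact h3 _ _ h2
    · rw [h4] at h2
      exact (h3 _ _ h2).symm
  refine ⟨fun i => (q (e i)).out, g, hadj, hg, fun i j h hh => hrep i j h (Or.inl hh), ?_⟩
  · intro i j h hh
    have h2 : (q (e i)).out = (q (e j)).out := by
      refine hrep i j h (Or.inr ?_)
      have hh' : h • (q (e j)).out = ((q (e i)).out).swap := hh
      rw [hh', Prod.swap_swap]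
    have hh' : h • (q (e j)).out = ((q (e i)).out).swap := hh
    have h4 := hadj j
    rw [h2] at hh'
    have h5 : h • ((q (e j)).out).1 = ((q (e j)).out).2 := congrArg Prod.fst hh'
    have h6 : h • ((q (e j)).out).2 = ((q (e j)).out).1 := congrArg Prod.snd hh'
    exact hT.noinv h _ _ h4 ⟨h5, h6⟩

theorem normalize (hT : TAct G T) {W : AddSubgroup (K1 (MonoidAlgebra ℤ G))} (hTU : TU G ≤ W)
    (F : Matrix I I (MonoidAlgebra ℤ G)) (hF : IsUnit F) (e : I → V × V) (v : I → V)
    (he : ∀ i, T.Adj (e i).1 (e i).2) (hinc : Moves (Inc T) e v F) :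
    ∃ (F' H' : Matrix I I (MonoidAlgebra ℤ G)) (e' : I → V × V), EdgeForm T F' H' e' v ∧
      (cm F' ∈ W ↔ cm F ∈ W) := by
  obtain ⟨e', g, hadj, hg, hrep, hflip⟩ := exists_edgeRep hT e he
  obtain ⟨u, rfl⟩ := hF
  refine ⟨dg (fun i => (g i)⁻¹) * u.val, u.inv * dg g, e', ⟨hadj, ?_, ?_, ?_, hrep, hflip⟩, ?_⟩
  · rw [mul_assoc, ← mul_assoc u.val, u.val_inv, one_mul, dg_inv_mul]
  · rw [mul_assoc, ← mul_assoc (dg g), dg_mul_inv, one_mul, u.inv_val]
  · intro i j h hh
    rw [dg_mul_coeff, inv_inv] at hh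
    obtain ⟨-, h2⟩ := hinc _ _ _ hh
    refine ⟨hadj i, ?_⟩
    rw [mul_smul] at h2
    have h3 : (e i).1 = g i • (e' i).1 ∧ (e i).2 = g i • (e' i).2 ∨
        (e i).1 = g i • (e' i).2 ∧ (e i).2 = g i • (e' i).1 := by
      rcases hg i with h4 | h4
      · left; rw [h4]; exact ⟨rfl, rfl⟩
      · right; rw [h4]; exact ⟨rfl, rfl⟩
    rcases h3 with ⟨h3, h4⟩ | ⟨h3, h4⟩ <;> rw [h3, h4] at h2
    · exact h2.imp (fun h => MulAction.injective _ h) (fun h => MulAction.injective _ h)
    · exact (h2.imp (fun h => MulAction.injective _ h) (fun h => MulAction.injective _ h)).symm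
  · have hd : IsUnit (dg (fun i => (g i)⁻¹)) := isUnit_dg (fun i => (g i)⁻¹)
    rw [cm_mul hd u.isUnit]
    constructor
    · intro h
      have h2 := sub_mem h (cm_dg_mem hTU (fun i => (g i)⁻¹))
      rwa [add_sub_cancel_left] at h2
    · intro h
      exact add_mem (cm_dg_mem hTU _) h

end Pool.Agent.Lib.MP_16fe43_al
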