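import Pool.Agent.Lib.MP_16fe43_al.TreeG1

/-!
# The idempotent of an edge
-/

set_option autoImplicit false

universe u v w

namespace Pool.Agent.Lib.MP_16fe43_al

open MulAction (stabilizer)

variable {V : Type w} {T : SimpleGraph V} {G : Type u} [Group G] [MulAction G V]
  {I : Type u} [Fintype I] [DecidableEq I]

/-- the part of the rows at the first end -/
noncomputable def Fa (F : Matrix I I (MonoidAlgebra ℤ G)) (e : I → V × V) (v : I → V) :
    Matrix I I (MonoidAlgebra ℤ G) := res (fun d u => u = d.1) e v F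

/-- the part of the rows at the second end -/
noncomputable def Fb (F : Matrix I I (MonoidAlgebra ℤ G)) (e : I → V × V) (v : I → V) :
    Matrix I I (MonoidAlgebra ℤ G) := res (fun d u => u = d.2) e v F

/-- the idempotent -/
noncomputable def Pe (F H : Matrix I I (MonoidAlgebra ℤ G)) (e : I → V × V) (v : I → V) :
    Matrix I I (MonoidAlgebra ℤ G) := res (fun d d' => d' = d) e e (Fb F e v * H)

/-- the part on the side of the first end -/
noncomputable def KA (T : SimpleGraph V) (F H : Matrix I I (MonoidAlgebra ℤ G)) (e : I → V × V)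
    (v : I → V) : Matrix I I (MonoidAlgebra ℤ G) := res (TS T) e e (Fb F e v * H)

/-- the part on the side of the second end -/
noncomputable def KB (T : SimpleGraph V) (F H : Matrix I I (MonoidAlgebra ℤ G)) (e : I → V × V)
    (v : I → V) : Matrix I I (MonoidAlgebra ℤ G) := res (HS T) e e (Fb F e v * H)

variable {F H : Matrix I I (MonoidAlgebra ℤ G)} {e : I → V × V} {v : I → V}

theorem Fa_add_Fb (hT : TAct G T) (h : EdgeForm T F H e v) : Fa F e v + Fb F e v = F := by
  refine matrix_ext fun i j g => ?_
  rw [Matrix.add_apply, MonoidAlgebra.coeff_add, Finsupp.add_apply]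
  unfold Fa Fb
  by_cases h0 : (F i j).coeff g = 0
  · classical
    rw [res_coeff, res_coeff, h0, ite_self, ite_self, add_zero]
  · obtain ⟨h1, h2 | h2⟩ := h.inc i j g h0
    · have h3 : ¬ (g • v j = (e i).2) := by
        rw [h2]
        exact h1.ne
      rw [res_coeff_pos F (c := fun (d : V × V) u => u = d.1) h2,
        res_coeff_neg F (c := fun (d : V × V) u => u = d.2) h3, add_zero]
    · have h3 : ¬ (g • v j = (e i).1) := by
        rw [h2]
        exact h1.ne.symm
      rw [res_coeff_neg F (c := fun (d : V × V) u => u = d.1) h3,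
        res_coeff_pos F (c := fun (d : V × V) u => u = d.2) h2, zero_add]

private theorem k6_hs_self (hT : TAct G T) (d : V × V) : ¬ HS T d d := by
  intro h
  have h1 := (hs_iff_swap hT.tree d d).1 h
  have h2 : TS T d.swap d.swap := ts_swap_left.2 h1
  exact ts_self _ h2

private theorem k6_ts_hs {d d' : V × V} (h : TS T d d') : ¬ HS T d d' := fun h' => h'.2.2.1 h.2.2.1

theorem Fb_mul_H (hT : TAct G T) (h : EdgeForm T F H e v) :
    Fb F e v * H = KA T F H e v + Pe F H e v + KB T F H e v := by
  refine matrix_ext fun i j g => ?_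
  rw [Matrix.add_apply, MonoidAlgebra.coeff_add, Finsupp.add_apply, Matrix.add_apply,
    MonoidAlgebra.coeff_add, Finsupp.add_apply]
  unfold KA Pe KB
  have hadj : T.Adj (g • e j).1 (g • e j).2 := hT.adj g _ _ (h.adj j)
  rcases ts_or hT.tree (h.adj i) hadj with h1 | h1 | h1 | h1
  · have h2 : ¬ (g • e j = e i) := fun h2 => ts_self (T := T) (e i) (by rw [h2] at h1; exact h1)
    rw [res_coeff_pos _ (c := TS T) h1, res_coeff_neg _ (c := fun d d' => d' = d) h2,
      res_coeff_neg _ (c := HS T) (k6_ts_hs h1), add_zero, add_zero]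
  · have h2 : ¬ (g • e j = e i) := fun h2 => k6_hs_self hT (e i) (by rw [h2] at h1; exact h1)
    have h3 : ¬ TS T (e i) (g • e j) := fun h3 => k6_ts_hs h3 h1
    rw [res_coeff_neg _ (c := TS T) h3, res_coeff_neg _ (c := fun d d' => d' = d) h2,
      res_coeff_pos _ (c := HS T) h1, add_zero, zero_add]
  · have h2 : ¬ HS T (e i) (g • e j) := by
      rw [h1]
      exact k6_hs_self hT _
    have h3 : ¬ TS T (e i) (g • e j) := by
      rw [h1]
      exact ts_self _
    rw [res_coeff_neg _ (c := TS T) h3, res_coeff_pos _ (c := fun d d' => d' = d) h1,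
      res_coeff_neg _ (c := HS T) h2, add_zero, zero_add]
  · exact absurd h1 (h.noflip i j g)

private theorem k6_sd_fst {d : V × V} (hd : T.Adj d.1 d.2) : Sd T d d.1 := by
  have h1 : T.dist d.1 d.2 = 1 := SimpleGraph.dist_eq_one_iff_adj.2 hd
  show T.dist d.1 d.1 < T.dist d.1 d.2
  rw [h1, SimpleGraph.dist_self]
  exact Nat.one_pos

private theorem k6_sd_snd {d : V × V} : ¬ Sd T d d.2 := by
  intro h
  have h2 : T.dist d.2 d.1 < T.dist d.2 d.2 := h
  rw [SimpleGraph.dist_self] at h2
  exact Nat.not_lt_zero _ h2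

private theorem k6_moves_Fb : Moves (fun (d : V × V) (u : V) => u = d.2) e v (Fb F e v) :=
  moves_res _ _ _ _

private theorem k6_moves_Fa (h : EdgeForm T F H e v) :
    Moves (fun (d : V × V) (u : V) => T.Adj d.1 d.2 ∧ u = d.1) e v (Fa F e v) := by
  intro i j g hg
  exact ⟨h.adj i, moves_res (fun (d : V × V) (u : V) => u = d.1) e v F i j g hg⟩

theorem Pe_mul_Fa (hT : TAct G T) (h : EdgeForm T F H e v) :
    Pe F H e v * Fa F e v = - (KA T F H e v * F) := by
  have h1 : Fb F e v = KA T F H e v * F + Pe F H e v * Fa F e v + Pe F H e v * Fb F e v +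
      KB T F H e v * F := by
    have h2 : Fb F e v = (Fb F e v * H) * F := by rw [mul_assoc, h.HF, mul_one]
    have h3 : Pe F H e v * F = Pe F H e v * Fa F e v + Pe F H e v * Fb F e v := by
      rw [← mul_add, Fa_add_Fb hT h]
    conv_lhs => rw [h2, Fb_mul_H hT h]
    rw [add_mul, add_mul, h3]
    abel
  have e1 : res (Sd T) e v (Fb F e v) = 0 := by
    refine Moves.res_eq_zero k6_moves_Fb ?_
    rintro d u rfl
    exact k6_sd_snd
  have e2 : res (Sd T) e v (KA T F H e v * F) = KA T F H e v * F := by
    have hm : Moves (Sd T) e v (KA T F H e v * F) := by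
      refine Moves.mul (moves_res (TS T) e e _) (rInv_inc hT) h.inc ?_
      rintro a b t ⟨-, -, h3, h4⟩ ⟨-, rfl | rfl⟩
      · exact h3
      · exact h4
    exact hm.res_eq_self
  have e3 : res (Sd T) e v (Pe F H e v * Fa F e v) = Pe F H e v * Fa F e v := by
    have hinv : RInv G (fun (d : V × V) (u : V) => T.Adj d.1 d.2 ∧ u = d.1) := by
      rintro g d u ⟨h3, h4⟩
      exact ⟨hT.adj g _ _ h3, by rw [h4]; rfl⟩
    have hm : Moves (Sd T) e v (Pe F H e v * Fa F e v) := by
      refine Moves.mul (moves_res (fun d d' => d' = d) e e _) hinv (k6_moves_Fa h) ?_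
      rintro a b t rfl ⟨h3, rfl⟩
      exact k6_sd_fst h3
    exact hm.res_eq_self
  have e4 : res (Sd T) e v (Pe F H e v * Fb F e v) = 0 := by
    have hinv : RInv G (fun (d : V × V) (u : V) => u = d.2) := by
      rintro g d u h4
      show g • u = g • d.2
      rw [h4]
    have hm : Moves (fun (d : V × V) (u : V) => u = d.2) e v (Pe F H e v * Fb F e v) := by
      refine Moves.mul (moves_res (fun d d' => d' = d) e e _) hinv k6_moves_Fb ?_
      rintro a b t rfl h3
      exact h3
    refine Moves.res_eq_zero hm ?_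
    rintro d u rfl
    exact k6_sd_snd
  have e5 : res (Sd T) e v (KB T F H e v * F) = 0 := by
    have hm : Moves (fun (d : V × V) (u : V) => ¬ Sd T d u) e v (KB T F H e v * F) := by
      refine Moves.mul (moves_res (HS T) e e _) (rInv_inc hT) h.inc ?_
      rintro a b t ⟨-, -, h3, h4⟩ ⟨-, rfl | rfl⟩
      · exact h3
      · exact h4
    exact Moves.res_eq_zero hm (fun _ _ h => h)
  have h2 := congrArg (res (Sd T) e v) h1
  rw [res_add, res_add, res_add, e1, e2, e3, e4, e5, add_zero, add_zero] at h2
  exact eq_neg_of_add_eq_zero_right h2.symm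

theorem Pe_mul_Pe (hT : TAct G T) (h : EdgeForm T F H e v) :
    Pe F H e v * Pe F H e v = Pe F H e v := by
  have h1 : Pe F H e v * (Fb F e v * H) = Pe F H e v + KA T F H e v := by
    have h2 : Fb F e v = F - Fa F e v := by
      rw [eq_sub_iff_add_eq, add_comm, Fa_add_Fb hT h]
    rw [h2, sub_mul, mul_sub, h.FH, mul_one, ← mul_assoc, Pe_mul_Fa hT h, neg_mul, mul_assoc,
      h.FH, mul_one, sub_neg_eq_add]
  have htriv : RInv G (fun _ _ : V × V => True) := fun _ _ _ _ => trivial
  have heq : RInv G (fun d d' : V × V => d' = d) := by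
    rintro g d d' h3
    show g • d' = g • d
    rw [h3]
  have h2 : Pe F H e v * res (fun d d' => d' = d) e e (Fb F e v * H) =
      res (fun d d' => d' = d) e e (Pe F H e v * (Fb F e v * H)) := by
    refine mul_res_of (moves_res (fun d d' => d' = d) e e _) htriv heq
      (d := fun _ _ => True) (fun _ _ _ _ => trivial) ?_
    rintro a b t rfl -
    exact Iff.rfl
  have h3 : res (fun d d' => d' = d) e e (Pe F H e v) = Pe F H e v :=
    Moves.res_eq_self (moves_res (fun d d' => d' = d) e e _)
  have h4 : res (fun d d' => d' = d) e e (KA T F H e v) = 0 := by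
    refine Moves.res_eq_zero (moves_res (TS T) e e _) ?_
    rintro a b h5 rfl
    exact ts_self _ h5
  have h5 : Pe F H e v * Pe F H e v =
      res (fun d d' => d' = d) e e (Pe F H e v * (Fb F e v * H)) := h2
  rw [h5, h1, res_add, h3, h4, add_zero]

/-- the idempotent is block diagonal over the edge stabilizers -/
theorem Pe_blk (h : EdgeForm T F H e v) :
    ∀ (i j : I) (g : G), (Pe F H e v i j).coeff g ≠ 0 →
      e i = e j ∧ g ∈ stabilizer G (e i) := by
  intro i j g hg
  have h1 : g • e j = e i := moves_res (fun d d' => d' = d) e e (Fb F e v * H) i j g hg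
  have h2 := h.rep i j g h1
  refine ⟨h2, ?_⟩
  rw [MulAction.mem_stabilizer_iff, h2, h1, h2]

end Pool.Agent.Lib.MP_16fe43_al
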