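import Pool.Agent.Lib.MP_16fe43_al.TreeK2
import Pool.Agent.Lib.MP_16fe43_al.TreeK6

/-!
# Splitting of the edges
-/

set_option autoImplicit false

universe u v w

namespace Pool.Agent.Lib.MP_16fe43_al

open MulAction (stabilizer)
open Matrix (fromBlocks)

variable {V : Type w} {T : SimpleGraph V} {G : Type u} [Group G] [MulAction G V]
  {I : Type u} [Fintype I] [DecidableEq I]

private theorem k7_res_congr {X X' Y J K : Type*} [MulAction G X] [MulAction G X'] [MulAction G Y]
    {c : X → Y → Prop} {c' : X' → Y → Prop} {x : J → X} {x' : J → X'} {y : K → Y}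
    (M : Matrix J K (MonoidAlgebra ℤ G)) {i : J} (hi : ∀ u, c (x i) u ↔ c' (x' i) u) (j : K) :
    res c x y M i j = res c' x' y M i j := by
  classical
  ext g
  rw [res_coeff, res_coeff]
  by_cases h1 : c (x i) (g • y j)
  · rw [if_pos h1, if_pos ((hi _).1 h1)]
  · rw [if_neg h1, if_neg (fun h2 => h1 ((hi _).2 h2))]

/-- if the idempotent is diagonal, then every row can be oriented -/
theorem splitForm_of_diag (hT : TAct G T) {F H : Matrix I I (MonoidAlgebra ℤ G)}
    {e : I → V × V} {v : I → V} (h : EdgeForm T F H e v) (D : I → Bool)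
    (hD : Pe F H e v = Matrix.diagonal fun k => if D k then 1 else 0) :
    SplitForm T F H (fun i => if D i then e i else (e i).swap) v := by
  have hFH : ∀ M : Matrix I I (MonoidAlgebra ℤ G), M * F * H = M := fun M => by
    rw [mul_assoc, h.FH, mul_one]
  have hPF := Pe_mul_Fa hT h
  rw [hD] at hPF
  -- rows with D
  have hrow1 : ∀ i, D i = true → ∀ j, (Fa F e v * H) i j = - KA T F H e v i j := by
    intro i hi j
    have h1 : ∀ k, Fa F e v i k = - (KA T F H e v * F) i k := by
      intro k
      have h2 := congrFun (congrFun hPF i) k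
      rw [Matrix.diagonal_mul, if_pos hi, one_mul] at h2
      exact h2
    have h3 : (Fa F e v * H) i j = - ((KA T F H e v * F) * H) i j := by
      rw [Matrix.mul_apply, Matrix.mul_apply, ← Finset.sum_neg_distrib]
      refine Finset.sum_congr rfl fun k _ => ?_
      rw [h1 k, neg_mul]
    rw [h3, hFH]
  have hrow2 : ∀ i, D i = false → ∀ j, (Fb F e v * H) i j = KB T F H e v i j := by
    intro i hi j
    have h1 : ∀ k, (KA T F H e v * F) i k = 0 := by
      intro k
      have h2 := congrFun (congrFun hPF i) k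
      rw [Matrix.diagonal_mul, hi, if_neg Bool.false_ne_true, zero_mul, Matrix.neg_apply] at h2
      exact neg_eq_zero.1 h2.symm
    have h3 : KA T F H e v i j = 0 := by
      conv_lhs => rw [← hFH (KA T F H e v)]
      rw [Matrix.mul_apply]
      exact Finset.sum_eq_zero fun k _ => by rw [h1 k, zero_mul]
    have h4 : Pe F H e v i j = 0 := by
      rw [hD, Matrix.diagonal_apply]
      split_ifs with h5 h6
      · rw [hi] at h6
        exact absurd h6 Bool.false_ne_true
      · rfl
      · rfl
    rw [Fb_mul_H hT h, Matrix.add_apply, Matrix.add_apply, h3, h4, add_zero, zero_add]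
  -- the swapped darts
  have hswap : ∀ (g : G) (j : I) (d : V × V),
      TS T d (g • (if D j then e j else (e j).swap)) ↔ TS T d (g • e j) := by
    intro g j d
    split_ifs
    · exact Iff.rfl
    · exact ts_swap_left (d' := g • e j)
  refine ⟨fun i => ?_, h.FH, h.HF, ?_, ?_⟩
  · show T.Adj (if D i then e i else (e i).swap).1 (if D i then e i else (e i).swap).2
    split_ifs
    · exact h.adj i
    · exact (h.adj i).symm
  · intro i j g hg
    obtain ⟨h1, h2⟩ := h.inc i j g hg
    show Inc T (if D i then e i else (e i).swap) (g • v j)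
    split_ifs
    · exact ⟨h1, h2⟩
    · exact ⟨h1.symm, h2.symm⟩
  · intro i j g hg
    show TS T (if D i then e i else (e i).swap) (g • (if D j then e j else (e j).swap))
    rw [hswap]
    by_cases hi : D i = true
    · rw [if_pos hi]
      have h1 : (res (fun (d : V × V) (u : V) => u = d.1) (fun i => if D i then e i else (e i).swap)
          v F * H) i j = (Fa F e v * H) i j := by
        rw [Matrix.mul_apply, Matrix.mul_apply]
        refine Finset.sum_congr rfl fun k _ => ?_
        congr 1
        refine k7_res_congr F (fun u => ?_) k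
        show u = (if D i then e i else (e i).swap).1 ↔ u = (e i).1
        rw [if_pos hi]
      rw [h1, hrow1 i hi j, MonoidAlgebra.coeff_neg, Finsupp.neg_apply, neg_ne_zero] at hg
      exact moves_res (TS T) e e _ i j g hg
    · rw [if_neg hi]
      have h1 : (res (fun (d : V × V) (u : V) => u = d.1) (fun i => if D i then e i else (e i).swap)
          v F * H) i j = (Fb F e v * H) i j := by
        rw [Matrix.mul_apply, Matrix.mul_apply]
        refine Finset.sum_congr rfl fun k _ => ?_
        congr 1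
        refine k7_res_congr F (fun u => ?_) k
        show u = (if D i then e i else (e i).swap).1 ↔ u = (e i).2
        rw [if_neg hi]
        rfl
      rw [h1, hrow2 i (by simpa using hi) j] at hg
      exact (hs_iff_swap hT.tree _ _).1 (moves_res (HS T) e e _ i j g hg)

private theorem k7_inv_eq : RInv G (fun d d' : V × V => d' = d) := by
  rintro g d d' h3
  show g • d' = g • d
  rw [h3]

private theorem k7_blk_moves {J : Type*} {f : J → V × V} {B : Matrix J J (MonoidAlgebra ℤ G)}
    (hB : Blk f (fun d => stabilizer G d) B) : Moves (fun d d' => d' = d) f f B := by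
  intro i j g hg
  obtain ⟨h1, h2⟩ := hB i j g hg
  show g • f j = f i
  rw [← h1]
  exact h2

/-- change of basis in the edges, after stabilization -/
theorem edgeForm_change (hT : TAct G T) {F H : Matrix I I (MonoidAlgebra ℤ G)}
    {e : I → V × V} {v : I → V} (h : EdgeForm T F H e v) {S : Type} [Fintype S]
    [DecidableEq S] (φ : S → I) (ε : S → Bool)
    (B C : Matrix (I ⊕ S) (I ⊕ S) (MonoidAlgebra ℤ G)) (hBC : B * C = 1) (hCB : C * B = 1)
    (hB : Blk (Sum.elim e (e ∘ φ)) (fun d => stabilizer G d) B)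
    (hC : Blk (Sum.elim e (e ∘ φ)) (fun d => stabilizer G d) C) :
    EdgeForm T (B * fromBlocks F 0 0 1) (fromBlocks H 0 0 1 * C) (Sum.elim e (e ∘ φ))
      (Sum.elim v (fun s => if ε s then (e (φ s)).2 else (e (φ s)).1)) ∧
    Pe (B * fromBlocks F 0 0 1) (fromBlocks H 0 0 1 * C) (Sum.elim e (e ∘ φ))
      (Sum.elim v (fun s => if ε s then (e (φ s)).2 else (e (φ s)).1)) =
      B * fromBlocks (Pe F H e v) 0 0 (Matrix.diagonal fun s => if ε s then 1 else 0) * C := by
  have hFH1 : fromBlocks F 0 0 1 * fromBlocks H 0 0 1 =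
      (1 : Matrix (I ⊕ S) (I ⊕ S) (MonoidAlgebra ℤ G)) := by
    rw [Matrix.fromBlocks_multiply, h.FH]
    simp
  have hHF1 : fromBlocks H 0 0 1 * fromBlocks F 0 0 1 =
      (1 : Matrix (I ⊕ S) (I ⊕ S) (MonoidAlgebra ℤ G)) := by
    rw [Matrix.fromBlocks_multiply, h.HF]
    simp
  have hψ : ∀ k : I ⊕ S, Sum.elim e (e ∘ φ) k = e (Sum.elim id φ k) := by
    rintro (k | k) <;> rfl
  have hadj : ∀ k : I ⊕ S, T.Adj (Sum.elim e (e ∘ φ) k).1 (Sum.elim e (e ∘ φ) k).2 := by
    intro k
    rw [hψ]
    exact h.adj _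
  have hF1 : Moves (Inc T) (Sum.elim e (e ∘ φ))
      (Sum.elim v (fun s => if ε s then (e (φ s)).2 else (e (φ s)).1))
      (fromBlocks F 0 0 1 : Matrix (I ⊕ S) (I ⊕ S) (MonoidAlgebra ℤ G)) := by
    rintro (i | i) (j | j) g hg
    · exact h.inc i j g hg
    · rw [Matrix.fromBlocks_apply₁₂] at hg
      exact absurd rfl hg
    · rw [Matrix.fromBlocks_apply₂₁] at hg
      exact absurd rfl hg
    · rw [Matrix.fromBlocks_apply₂₂] at hg
      obtain ⟨rfl, rfl⟩ := one_coeff i j g hg
      rw [one_smul]
      refine ⟨h.adj _, ?_⟩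
      show (if ε i then (e (φ i)).2 else (e (φ i)).1) = (e (φ i)).1 ∨
        (if ε i then (e (φ i)).2 else (e (φ i)).1) = (e (φ i)).2
      split_ifs
      · exact Or.inr rfl
      · exact Or.inl rfl
  have hEF : EdgeForm T (B * fromBlocks F 0 0 1) (fromBlocks H 0 0 1 * C) (Sum.elim e (e ∘ φ))
      (Sum.elim v (fun s => if ε s then (e (φ s)).2 else (e (φ s)).1)) := by
    refine ⟨hadj, ?_, ?_, ?_, ?_, ?_⟩
    · rw [mul_assoc, ← mul_assoc (fromBlocks F 0 0 1), hFH1, one_mul, hBC]
    · rw [mul_assoc, ← mul_assoc C, hCB, one_mul, hHF1]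
    · refine Moves.mul (k7_blk_moves hB) (rInv_inc hT) hF1 ?_
      rintro a b t rfl h2
      exact h2
    · intro i j g hg
      rw [hψ, hψ] at hg ⊢
      exact h.rep _ _ g hg
    · intro i j g
      rw [hψ, hψ]
      exact h.noflip _ _ g
  refine ⟨hEF, ?_⟩
  have hinv2 : RInv G (fun (d : V × V) (u : V) => u = d.2) := by
    rintro g d u h4
    show g • u = g • d.2
    rw [h4]
  have htriv : RInv G (fun _ _ : V × V => True) := fun _ _ _ _ => trivial
  -- the second ends
  have h1 : res (fun (d : V × V) (u : V) => u = d.2) (Sum.elim e (e ∘ φ))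
      (Sum.elim v (fun s => if ε s then (e (φ s)).2 else (e (φ s)).1))
      (fromBlocks F 0 0 1 : Matrix (I ⊕ S) (I ⊕ S) (MonoidAlgebra ℤ G)) =
      fromBlocks (Fb F e v) 0 0 (Matrix.diagonal fun s => if ε s then 1 else 0) := by
    classical
    refine matrix_ext ?_
    rintro (i | i) (j | j) g
    · rfl
    · rw [res_coeff, Matrix.fromBlocks_apply₁₂, Matrix.fromBlocks_apply₁₂, Matrix.zero_apply,
        MonoidAlgebra.coeff_zero, Finsupp.zero_apply, ite_self]
    · rw [res_coeff, Matrix.fromBlocks_apply₂₁, Matrix.fromBlocks_apply₂₁, Matrix.zero_apply,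
        MonoidAlgebra.coeff_zero, Finsupp.zero_apply, ite_self]
    · rw [res_coeff, Matrix.fromBlocks_apply₂₂, Matrix.fromBlocks_apply₂₂]
      by_cases hij : i = j
      · subst hij
        rw [Matrix.one_apply_eq, Matrix.diagonal_apply_eq]
        by_cases hg : g = 1
        · subst hg
          rw [one_smul]
          by_cases hε : ε i = true
          · rw [if_pos hε, if_pos]
            show (if ε i then (e (φ i)).2 else (e (φ i)).1) = (e (φ i)).2
            rw [if_pos hε]
          · rw [if_neg hε, if_neg]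
            · rfl
            · show ¬ (if ε i then (e (φ i)).2 else (e (φ i)).1) = (e (φ i)).2
              rw [if_neg hε]
              exact (h.adj (φ i)).ne
        · have h0 : (1 : MonoidAlgebra ℤ G).coeff g = 0 := by
            rw [MonoidAlgebra.one_def, MonoidAlgebra.coeff_single]
            exact Finsupp.single_eq_of_ne hg
          rw [h0, ite_self]
          split_ifs
          · exact h0.symm
          · rfl
      · rw [Matrix.one_apply_ne hij, Matrix.diagonal_apply_ne _ hij, MonoidAlgebra.coeff_zero,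
          Finsupp.zero_apply, ite_self]
  have h2 : Fb (B * fromBlocks F 0 0 1) (Sum.elim e (e ∘ φ))
      (Sum.elim v (fun s => if ε s then (e (φ s)).2 else (e (φ s)).1)) =
      B * fromBlocks (Fb F e v) 0 0 (Matrix.diagonal fun s => if ε s then 1 else 0) := by
    rw [← h1]
    symm
    refine mul_res_of (k7_blk_moves hB) (rInv_inc hT) hinv2 hF1 ?_
    rintro a b t rfl -
    exact Iff.rfl
  have h3 : fromBlocks (Fb F e v) 0 0 (Matrix.diagonal fun s => if ε s then 1 else 0) *
      fromBlocks H 0 0 1 =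
      (fromBlocks (Fb F e v * H) 0 0 (Matrix.diagonal fun s => if ε s then 1 else 0) :
        Matrix (I ⊕ S) (I ⊕ S) (MonoidAlgebra ℤ G)) := by
    rw [Matrix.fromBlocks_multiply]
    simp
  have h4 : res (fun d d' : V × V => d' = d) (Sum.elim e (e ∘ φ)) (Sum.elim e (e ∘ φ))
      (fromBlocks (Fb F e v * H) 0 0 (Matrix.diagonal fun s => if ε s then 1 else 0) :
        Matrix (I ⊕ S) (I ⊕ S) (MonoidAlgebra ℤ G)) =
      fromBlocks (Pe F H e v) 0 0 (Matrix.diagonal fun s => if ε s then 1 else 0) := by
    classical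
    refine matrix_ext ?_
    rintro (i | i) (j | j) g
    · rfl
    · rw [res_coeff, Matrix.fromBlocks_apply₁₂, Matrix.fromBlocks_apply₁₂, Matrix.zero_apply,
        MonoidAlgebra.coeff_zero, Finsupp.zero_apply, ite_self]
    · rw [res_coeff, Matrix.fromBlocks_apply₂₁, Matrix.fromBlocks_apply₂₁, Matrix.zero_apply,
        MonoidAlgebra.coeff_zero, Finsupp.zero_apply, ite_self]
    · rw [res_coeff, Matrix.fromBlocks_apply₂₂, Matrix.fromBlocks_apply₂₂]
      by_cases hij : i = j
      · subst hij
        rw [Matrix.diagonal_apply_eq]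
        by_cases hg : g = 1
        · subst hg
          rw [one_smul, if_pos rfl]
        · have h0 : (1 : MonoidAlgebra ℤ G).coeff g = 0 := by
            rw [MonoidAlgebra.one_def, MonoidAlgebra.coeff_single]
            exact Finsupp.single_eq_of_ne hg
          have h0' : (if ε i then (1 : MonoidAlgebra ℤ G) else 0).coeff g = 0 := by
            split_ifs
            · exact h0
            · rfl
          rw [h0', ite_self]
      · rw [Matrix.diagonal_apply_ne _ hij, MonoidAlgebra.coeff_zero, Finsupp.zero_apply,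
          ite_self]
  unfold Pe
  rw [h2, mul_assoc B, ← mul_assoc (fromBlocks (Fb F e v) 0 0 _) (fromBlocks H 0 0 1) C, h3]
  have h5 : fromBlocks (Fb F e v * H) 0 0 (Matrix.diagonal fun s => if ε s then 1 else 0) * C =
      (fromBlocks (Fb F e v * H) 0 0 (Matrix.diagonal fun s => if ε s then 1 else 0) * C :
        Matrix (I ⊕ S) (I ⊕ S) (MonoidAlgebra ℤ G)) := rfl
  have h6 : res (fun d d' : V × V => d' = d) (Sum.elim e (e ∘ φ)) (Sum.elim e (e ∘ φ))
      (fromBlocks (Fb F e v * H) 0 0 (Matrix.diagonal fun s => if ε s then 1 else 0) * C) =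
      res (fun d d' : V × V => d' = d) (Sum.elim e (e ∘ φ)) (Sum.elim e (e ∘ φ))
      (fromBlocks (Fb F e v * H) 0 0 (Matrix.diagonal fun s => if ε s then 1 else 0)) * C := by
    symm
    refine res_mul_of (c := fun _ _ => True) (fun _ _ _ _ => trivial) k7_inv_eq
      (k7_blk_moves hC) ?_
    rintro a b t - rfl
    exact Iff.rfl
  have h7 : res (fun d d' : V × V => d' = d) (Sum.elim e (e ∘ φ)) (Sum.elim e (e ∘ φ))
      (B * (fromBlocks (Fb F e v * H) 0 0 (Matrix.diagonal fun s => if ε s then 1 else 0) * C)) =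
      B * res (fun d d' : V × V => d' = d) (Sum.elim e (e ∘ φ)) (Sum.elim e (e ∘ φ))
      (fromBlocks (Fb F e v * H) 0 0 (Matrix.diagonal fun s => if ε s then 1 else 0) * C) := by
    symm
    refine mul_res_of (k7_blk_moves hB) htriv k7_inv_eq (d := fun _ _ => True)
      (fun _ _ _ _ => trivial) ?_
    rintro a b t rfl -
    exact Iff.rfl
  rw [h7, h6, h4, mul_assoc]
  rfl

theorem split_form (hT : TAct G T) {W : AddSubgroup (K1 (MonoidAlgebra ℤ G))}
    (hE : ∀ a b : V, T.Adj a b → Subsingleton (BHS16.K0Red (stabilizer G ((a, b) : V × V))))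
    (hE' : ∀ a b : V, T.Adj a b → ImOK W (stabilizer G ((a, b) : V × V)))
    {F H : Matrix I I (MonoidAlgebra ℤ G)} {e : I → V × V} {v : I → V}
    (h : EdgeForm T F H e v) :
    ∃ (I' : Type u) (_ : Fintype I') (_ : DecidableEq I')
      (F' H' : Matrix I' I' (MonoidAlgebra ℤ G)) (d : I' → V × V) (v' : I' → V),
      SplitForm T F' H' d v' ∧ (cm F' ∈ W ↔ cm F ∈ W) := by
  obtain ⟨S, _, _, φ, ε, D, B, C, hBC, hCB, hB, hC, hdiag⟩ :=
    diag_idem (G := G) e (fun d => stabilizer G d) (fun i => hE _ _ (h.adj i)) (Pe F H e v)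
      (Pe_mul_Pe hT h) (Pe_blk h)
  obtain ⟨h1, h2⟩ := edgeForm_change hT h φ ε B C hBC hCB hB hC
  have h3 := splitForm_of_diag hT h1 D (h2.trans hdiag)
  refine ⟨I ⊕ S, inferInstance, inferInstance, _, _, _, _, h3, ?_⟩
  have hBu : IsUnit B := ⟨⟨B, C, hBC, hCB⟩, rfl⟩
  have hFu : IsUnit F := ⟨⟨F, H, h.FH, h.HF⟩, rfl⟩
  have hcmB : cm B ∈ W := by
    refine block_mem (Sum.elim e (e ∘ φ)) (fun d => stabilizer G d) B hBu hB W ?_
    rintro (i | i)
    · exact hE' _ _ (h.adj i)
    · exact hE' _ _ (h.adj (φ i))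
  have hFu1 : IsUnit (fromBlocks F 0 0 1 : Matrix (I ⊕ S) (I ⊕ S) (MonoidAlgebra ℤ G)) :=
    isUnit_fromBlocks_upper 0 hFu isUnit_one
  rw [cm_mul hBu hFu1, cm_fromBlocks_diag hFu isUnit_one, cm_one, add_zero]
  exact W.add_mem_cancel_left hcmB

end Pool.Agent.Lib.MP_16fe43_al
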