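import Pool.Agent.Lib.MP_16fe43_al.TreeK8

/-!
# Nilpotency and factorization
-/

set_option autoImplicit false

universe u v w

namespace Pool.Agent.Lib.MP_16fe43_al

open MulAction (stabilizer)

variable {V : Type w} {T : SimpleGraph V} {G : Type u} [Group G] [MulAction G V]
  {I : Type u} [Fintype I] [DecidableEq I]

variable {F H : Matrix I I (MonoidAlgebra ℤ G)} {d : I → V × V} {v : I → V}

/-- the level of a dart -/
private noncomputable def k9lev (T : SimpleGraph V) (d d' : V × V) : ℕ :=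
  T.dist d.1 d'.1 + T.dist d.1 d'.2

private theorem k9_lev_bk {a b : V × V} (h : Bk T a b) : k9lev T a b = 1 := by
  obtain ⟨-, h2, h3, -⟩ := h
  unfold k9lev
  rw [h3, SimpleGraph.dist_self, add_zero, ← h3]
  exact SimpleGraph.dist_eq_one_iff_adj.2 h2.symm

private theorem k9_inv (hT : TAct G T) (n : ℕ) :
    RInv G (fun d d' : V × V => k9lev T d d' = n) := by
  intro g x y h
  show T.dist (g • x.1) (g • y.1) + T.dist (g • x.1) (g • y.2) = n
  rw [dist_smul hT, dist_smul hT]
  exact h

/-- the levels of the tail vectors -/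
private theorem k9_level (hT : TAct G T) (h : SplitForm T F H d v) (n : ℕ) :
    res (fun d d' => k9lev T d d' = 2 * n + 1) d d (Kt F H d v) =
      (-1) ^ n * (Ta F H d v) ^ (n + 1) := by
  induction n with
  | zero =>
    rw [pow_zero, one_mul, zero_add, pow_one]
    refine matrix_ext fun i j g => ?_
    unfold Ta
    by_cases h0 : (Kt F H d v i j).coeff g = 0
    · classical
      rw [res_coeff, res_coeff, h0, ite_self, ite_self]
    · have hts : TS T (d i) (g • d j) := h.tail i j g h0
      obtain ⟨h1, h2, -, -⟩ := hts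
      by_cases h3 : (g • d j).1 = (d i).1 ∨ (g • d j).2 = (d i).1
      · have h4 : k9lev T (d i) (g • d j) = 2 * 0 + 1 := by
          unfold k9lev
          rcases h3 with h3 | h3
          · rw [h3, SimpleGraph.dist_self, ← h3, SimpleGraph.dist_eq_one_iff_adj.2 h2]
          · rw [h3, SimpleGraph.dist_self, ← h3, SimpleGraph.dist_eq_one_iff_adj.2 h2.symm]
        rw [res_coeff_pos _ (c := fun d d' => k9lev T d d' = 2 * 0 + 1) h4,
          res_coeff_pos _ (c := fun d d' : V × V => d'.1 = d.1 ∨ d'.2 = d.1) h3]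
      · have h4 : ¬ k9lev T (d i) (g • d j) = 2 * 0 + 1 := by
          intro h4
          have h5 : T.dist (d i).1 (g • d j).1 ≠ 0 := by
            intro h5
            rw [hT.tree.connected.dist_eq_zero_iff] at h5
            exact h3 (Or.inl h5.symm)
          have h6 : T.dist (d i).1 (g • d j).2 ≠ 0 := by
            intro h6
            rw [hT.tree.connected.dist_eq_zero_iff] at h6
            exact h3 (Or.inr h6.symm)
          unfold k9lev at h4
          omega
        rw [res_coeff_neg _ (c := fun d d' => k9lev T d d' = 2 * 0 + 1) h4,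
          res_coeff_neg _ (c := fun d d' : V × V => d'.1 = d.1 ∨ d'.2 = d.1) h3]
  | succ n ih =>
    have h1 := kt_eq hT h
    have h2 : res (fun d d' => k9lev T d d' = 2 * (n + 1) + 1) d d (Ta F H d v) = 0 := by
      refine Moves.res_eq_zero (ta_moves hT h) ?_
      intro a b hab h3
      rw [k9_lev_bk hab] at h3
      omega
    have h3 : Ta F H d v * res (fun d d' => k9lev T d d' = 2 * n + 1) d d (Kt F H d v) =
        res (fun d d' => k9lev T d d' = 2 * (n + 1) + 1) d d (Ta F H d v * Kt F H d v) := by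
      refine mul_res_of (ta_moves hT h) (rInv_ts hT) (k9_inv hT _) h.tail ?_
      intro a b t hab hbt
      have h4 := (bk_ts hT.tree hab hbt).2.2.2
      unfold k9lev
      omega
    conv_lhs => rw [h1]
    rw [res_sub, h2, ← h3, ih, zero_sub, pow_succ (-1) n, pow_succ' (Ta F H d v) (n + 1)]
    have h5 : Commute (Ta F H d v) ((-1 : Matrix I I (MonoidAlgebra ℤ G)) ^ n) :=
      (Commute.neg_one_right _).pow_right n
    rw [← mul_assoc, h5.eq]
    noncomm_ring

/-- the first step is nilpotent -/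
theorem ta_nil (hT : TAct G T) (h : SplitForm T F H d v) : ∃ M, (Ta F H d v) ^ M = 0 := by
  classical
  let B : ℕ := ∑ i, ∑ j, ∑ g ∈ (Kt F H d v i j).coeff.support, k9lev T (d i) (g • d j)
  have hB : ∀ i j g, (Kt F H d v i j).coeff g ≠ 0 → k9lev T (d i) (g • d j) ≤ B := by
    intro i j g hg
    have h1 : k9lev T (d i) (g • d j) ≤
        ∑ g ∈ (Kt F H d v i j).coeff.support, k9lev T (d i) (g • d j) :=
      Finset.single_le_sum (f := fun g => k9lev T (d i) (g • d j)) (fun _ _ => Nat.zero_le _)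
        (Finsupp.mem_support_iff.2 hg)
    have h2 : ∑ g ∈ (Kt F H d v i j).coeff.support, k9lev T (d i) (g • d j) ≤
        ∑ j, ∑ g ∈ (Kt F H d v i j).coeff.support, k9lev T (d i) (g • d j) :=
      Finset.single_le_sum
        (f := fun j => ∑ g ∈ (Kt F H d v i j).coeff.support, k9lev T (d i) (g • d j))
        (fun _ _ => Nat.zero_le _) (Finset.mem_univ j)
    have h3 : ∑ j, ∑ g ∈ (Kt F H d v i j).coeff.support, k9lev T (d i) (g • d j) ≤ B :=
      Finset.single_le_sum
        (f := fun i => ∑ j, ∑ g ∈ (Kt F H d v i j).coeff.support, k9lev T (d i) (g • d j))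
        (fun _ _ => Nat.zero_le _) (Finset.mem_univ i)
    exact h1.trans (h2.trans h3)
  have h0 : res (fun d d' => k9lev T d d' = 2 * B + 1) d d (Kt F H d v) = 0 := by
    refine matrix_ext fun i j g => ?_
    by_cases h1 : (Kt F H d v i j).coeff g = 0
    · rw [res_coeff, h1, ite_self]
      rfl
    · have h2 := hB i j g h1
      have h3 : ¬ k9lev T (d i) (g • d j) = 2 * B + 1 := by omega
      rw [res_coeff_neg _ (c := fun d d' => k9lev T d d' = 2 * B + 1) h3]
      rfl
  rw [k9_level hT h] at h0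
  refine ⟨B + 1, ?_⟩
  have h1 : ((-1 : Matrix I I (MonoidAlgebra ℤ G)) ^ B) * ((-1) ^ B * Ta F H d v ^ (B + 1)) = 0 := by
    rw [h0, mul_zero]
  have h2 : ((-1 : Matrix I I (MonoidAlgebra ℤ G)) ^ B) * (-1) ^ B = 1 := by
    rw [← pow_add, Even.neg_one_pow ⟨B, rfl⟩]
  rw [← mul_assoc, h2, one_mul] at h1
  exact h1

theorem factor (hT : TAct G T) (h : SplitForm T F H d v) :
    ∃ N Φ : Matrix I I (MonoidAlgebra ℤ G), F = (1 - N) * Φ ∧ Moves (Bk T) d d N ∧
      (∃ M, N ^ M = 0) ∧ Moves (fun a b => b = a) (fun i => (d i).2) v Φ ∧ IsUnit (1 - N) ∧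
      IsUnit Φ := by
  obtain ⟨M, hM⟩ := ta_nil hT h
  have hKF : Kt F H d v * F = res (fun (d : V × V) u => u = d.1) d v F := by
    unfold Kt
    rw [mul_assoc, h.HF, mul_one]
  have hnil : (-(Ta F H d v)) ^ M = 0 := by
    rw [neg_pow, hM, mul_zero]
  have hunit : IsUnit (1 - -(Ta F H d v)) := IsNilpotent.isUnit_one_sub ⟨M, hnil⟩
  have hF : F = (1 - -(Ta F H d v)) * (F - res (fun (d : V × V) u => u = d.1) d v F) := by
    have h1 : res (fun (d : V × V) u => u = d.1) d v F = Ta F H d v * F -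
        Ta F H d v * res (fun (d : V × V) u => u = d.1) d v F := by
      conv_lhs => rw [← hKF, kt_eq hT h]
      rw [sub_mul, mul_assoc, hKF]
    rw [sub_neg_eq_add, add_mul, one_mul, mul_sub, ← h1, sub_add_cancel]
  refine ⟨-(Ta F H d v), F - res (fun (d : V × V) u => u = d.1) d v F, hF, (ta_moves hT h).neg,
    ⟨M, hnil⟩, ?_, hunit, ?_⟩
  · intro i j g hg
    rw [Matrix.sub_apply, MonoidAlgebra.coeff_sub, Finsupp.sub_apply] at hg
    by_cases h1 : g • v j = (d i).1
    · rw [res_coeff_pos F (c := fun (d : V × V) u => u = d.1) h1, sub_self] at hg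
      exact absurd rfl hg
    · rw [res_coeff_neg F (c := fun (d : V × V) u => u = d.1) h1, sub_zero] at hg
      exact (h.inc i j g hg).2.resolve_left h1
  · obtain ⟨u, hu⟩ := hunit
    have h1 : F - res (fun (d : V × V) u => u = d.1) d v F =
        ((u⁻¹ : (Matrix I I (MonoidAlgebra ℤ G))ˣ) : Matrix I I (MonoidAlgebra ℤ G)) * F := by
      have h2 : ((u⁻¹ : (Matrix I I (MonoidAlgebra ℤ G))ˣ) : Matrix I I (MonoidAlgebra ℤ G)) * F =
          ((u⁻¹ : (Matrix I I (MonoidAlgebra ℤ G))ˣ) : Matrix I I (MonoidAlgebra ℤ G)) *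
          (u * (F - res (fun (d : V × V) u => u = d.1) d v F)) := by
        rw [hu, ← hF]
      rw [h2, ← mul_assoc, Units.inv_mul, one_mul]
    rw [h1]
    exact u⁻¹.isUnit.mul ⟨⟨F, H, h.FH, h.HF⟩, rfl⟩

end Pool.Agent.Lib.MP_16fe43_al
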