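import Pool.Agent.Lib.MP_16fe43_al.K1

/-!
# Elimination of letters
-/

set_option autoImplicit false

universe u v w

namespace Pool.Agent.Lib.MP_16fe43_al

section n4
variable {R : Type u} [Ring R] {I : Type v} [Fintype I] [DecidableEq I]

private abbrev N4L (R : Type u) (I : Type v) := List (Matrix I I R × ℕ)

private theorem n4_expand {L : N4L R I} (l : N4L R I)
    (h : ∀ p ∈ l, ∃ u : N4L R I, (∀ x ∈ u, x ∈ L) ∧ (u.map Prod.fst).prod = p.1 ∧
      (u.map Prod.snd).sum = p.2) :
    ∃ u : N4L R I, (∀ x ∈ u, x ∈ L) ∧ (u.map Prod.fst).prod = (l.map Prod.fst).prod ∧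
      (u.map Prod.snd).sum = (l.map Prod.snd).sum := by
  induction l with
  | nil => exact ⟨[], by simp, rfl, rfl⟩
  | cons p l ih =>
    obtain ⟨u, h1, h2, h3⟩ := ih fun q hq => h q (List.mem_cons_of_mem _ hq)
    obtain ⟨u', h1', h2', h3'⟩ := h p List.mem_cons_self
    refine ⟨u' ++ u, ?_, ?_, ?_⟩
    · intro x hx
      rcases List.mem_append.1 hx with hx | hx
      · exact h1' x hx
      · exact h1 x hx
    · rw [List.map_append, List.prod_append, h2, h2', List.map_cons, List.prod_cons]
    · rw [List.map_append, List.sum_append, h3, h3', List.map_cons, List.sum_cons]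

private theorem n4_sum (A : Matrix I I R) (m : ℕ) (L : N4L R I) (N : ℕ) :
    (((List.range N).flatMap fun t => L.map fun q => (A ^ (t + 1) * q.1, (t + 1) * m + q.2)).map
      Prod.fst).sum = (∑ t ∈ Finset.range N, A ^ (t + 1)) * (L.map Prod.fst).sum := by
  induction N with
  | zero => simp
  | succ N ih =>
    rw [List.range_succ, List.flatMap_append, List.map_append, List.sum_append, ih,
      Finset.sum_range_succ, add_mul]
    congr 1
    rw [List.flatMap_cons, List.flatMap_nil, List.append_nil, List.map_map]
    rw [← List.sum_map_mul_left]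
    rfl

private theorem n4_main (S : Matrix I I R → Prop) (hmul : ∀ A B, S A → S B → S (A * B))
    (W : AddSubgroup (K1 R)) (hS : ∀ C, S C → (∃ M, C ^ M = 0) → cm (1 - C) ∈ W) (M : ℕ)
    (d : ℕ) : ∀ (m c : ℕ) (L : N4L R I), 1 ≤ m → M ≤ m + d →
      L.countP (fun p => decide (p.2 = m)) = c →
      (∀ p ∈ L, S p.1 ∧ m ≤ p.2) →
      (∀ l : N4L R I, (∀ p ∈ l, p ∈ L) → M ≤ (l.map Prod.snd).sum → (l.map Prod.fst).prod = 0) →
      IsUnit (1 - (L.map Prod.fst).sum) → cm (1 - (L.map Prod.fst).sum) ∈ W := by
  induction d with
  | zero =>
    intro m c L hm hM _ hL hw _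
    have h1 : (L.map Prod.fst).sum = 0 := by
      apply List.sum_eq_zero
      intro A hA
      obtain ⟨p, hp, rfl⟩ := List.mem_map.1 hA
      have := hw [p] (by simpa using hp) (by
        have := (hL p hp).2
        simp only [List.map_cons, List.map_nil, List.sum_cons, List.sum_nil]
        omega)
      simpa using this
    rw [h1, sub_zero, cm_one]
    exact W.zero_mem
  | succ d ihd =>
    intro m c
    induction c with
    | zero =>
      intro L hm hM hc hL hw hu
      refine ihd (m + 1) _ L (by omega) (by omega) rfl ?_ hw hu
      intro p hp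
      refine ⟨(hL p hp).1, ?_⟩
      have h1 := (hL p hp).2
      have h2 : ¬ decide (p.2 = m) = true := List.countP_eq_zero.1 hc p hp
      have h3 : p.2 ≠ m := by simpa using h2
      omega
    | succ c ihc =>
      intro L hm hM hc hL hw hu
      have hpos : 0 < L.countP (fun p => decide (p.2 = m)) := by omega
      obtain ⟨a, ha, ham⟩ := List.countP_pos_iff.1 hpos
      have ham : a.2 = m := by simpa using ham
      obtain ⟨s, t, rfl⟩ := List.append_of_mem ha
      obtain ⟨A, w⟩ := a
      simp only at ham
      subst ham
      set L' : N4L R I := s ++ t with hL'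
      have hsub : ∀ q ∈ L', q ∈ s ++ (A, w) :: t := by
        intro q hq
        rcases List.mem_append.1 hq with hq | hq
        · exact List.mem_append_left _ hq
        · exact List.mem_append_right _ (List.mem_cons_of_mem _ hq)
      set E : N4L R I := (List.range M).flatMap
        fun t => L'.map fun q => (A ^ (t + 1) * q.1, (t + 1) * w + q.2) with hE
      have hSA : S A := (hL _ ha).1
      have hApow : ∀ k : ℕ, S (A ^ (k + 1)) := by
        intro k
        induction k with
        | zero => simpa using hSA
        | succ k ih => rw [pow_succ]; exact hmul _ _ ih hSA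
      have hA0 : ∀ k, M ≤ k → A ^ k = 0 := by
        intro k hk
        have := hw (List.replicate k (A, w)) (by
          intro p hp
          rw [List.eq_of_mem_replicate hp]
          exact ha) (by
          rw [List.map_replicate, List.sum_replicate, smul_eq_mul]
          exact hk.trans (Nat.le_mul_of_pos_right _ hm))
        rwa [List.map_replicate, List.prod_replicate] at this
      have hsum : ((s ++ (A, w) :: t).map Prod.fst).sum = A + (L'.map Prod.fst).sum := by
        rw [hL']
        simp only [List.map_append, List.map_cons, List.sum_append, List.sum_cons]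
        abel
      set T := (L'.map Prod.fst).sum with hT
      have hEsum : ((L' ++ E).map Prod.fst).sum = (∑ k ∈ Finset.range (M + 1), A ^ k) * T := by
        rw [List.map_append, List.sum_append, hE, n4_sum, Finset.sum_range_succ', pow_zero, add_mul,
          one_mul, add_comm]
      have hfac : 1 - (A + T) = (1 - A) * (1 - (∑ k ∈ Finset.range (M + 1), A ^ k) * T) := by
        rw [mul_sub, mul_one, ← mul_assoc, mul_neg_geom_sum, hA0 (M + 1) (by omega), sub_zero,
          one_mul]
        abel
      have huA : IsUnit (1 - A) := by
        have h1 : (1 - A) * (∑ k ∈ Finset.range (M + 1), A ^ k) = 1 := by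
          rw [mul_neg_geom_sum, hA0 (M + 1) (by omega), sub_zero]
        have h2 : (∑ k ∈ Finset.range (M + 1), A ^ k) * (1 - A) = 1 := by
          rw [geom_sum_mul_neg, hA0 (M + 1) (by omega), sub_zero]
        exact ⟨⟨1 - A, _, h1, h2⟩, rfl⟩
      rw [hsum] at hu ⊢
      rw [hfac] at hu ⊢
      have hu2 : IsUnit (1 - (∑ k ∈ Finset.range (M + 1), A ^ k) * T) := by
        obtain ⟨x, hx⟩ := hu
        obtain ⟨y, hy⟩ := huA
        refine ⟨y⁻¹ * x, ?_⟩
        rw [Units.val_mul, hx, ← hy, ← mul_assoc, Units.inv_mul, one_mul]
      rw [cm_mul huA hu2]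
      refine W.add_mem (hS A hSA ⟨M, hA0 M le_rfl⟩) ?_
      rw [← hEsum] at hu2 ⊢
      refine ihc (L' ++ E) hm hM ?_ ?_ ?_ hu2
      · rw [List.countP_append]
        have h1 : E.countP (fun p => decide (p.2 = w)) = 0 := by
          rw [List.countP_eq_zero]
          intro p hp
          rw [hE, List.mem_flatMap] at hp
          obtain ⟨k, _, hp⟩ := hp
          obtain ⟨q, hq, rfl⟩ := List.mem_map.1 hp
          have h2 := (hL q (hsub q hq)).2
          have h3 : (k + 1) * w + q.2 ≠ w := by nlinarith
          simpa using h3
        have h2 : (s ++ (A, w) :: t).countP (fun p => decide (p.2 = w)) =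
            L'.countP (fun p => decide (p.2 = w)) + 1 := by
          rw [hL', List.countP_append, List.countP_append, List.countP_cons]
          simp
          omega
        omega
      · intro p hp
        rcases List.mem_append.1 hp with hp | hp
        · exact hL p (hsub p hp)
        · rw [hE, List.mem_flatMap] at hp
          obtain ⟨k, _, hp⟩ := hp
          obtain ⟨q, hq, rfl⟩ := List.mem_map.1 hp
          have h2 := hL q (hsub q hq)
          exact ⟨hmul _ _ (hApow k) h2.1, le_trans h2.2 (Nat.le_add_left _ _)⟩
      · intro l hl hlM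
        obtain ⟨u, h1, h2, h3⟩ := n4_expand (L := s ++ (A, w) :: t) l (by
          intro p hp
          rcases List.mem_append.1 (hl p hp) with hp | hp
          · exact ⟨[p], by simpa using hsub p hp, by simp, by simp⟩
          · rw [hE, List.mem_flatMap] at hp
            obtain ⟨k, _, hp⟩ := hp
            obtain ⟨q, hq, rfl⟩ := List.mem_map.1 hp
            refine ⟨List.replicate (k + 1) (A, w) ++ [q], ?_, ?_, ?_⟩
            · intro x hx
              rcases List.mem_append.1 hx with hx | hx
              · rw [List.eq_of_mem_replicate hx]; exact ha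
              · rw [List.mem_singleton.1 hx]; exact hsub q hq
            · rw [List.map_append, List.prod_append, List.map_replicate, List.prod_replicate]
              simp
            · rw [List.map_append, List.sum_append, List.map_replicate, List.sum_replicate]
              simp)
        rw [← h2]
        exact hw u h1 (by rw [h3]; exact hlM)

end n4

/-- Elimination of letters: if all words of length at least `M` in the letters of `L` vanish, then
the class of `1 - ∑ L` is a sum of classes of `1 - w`, `w` words in the letters. -/
theorem lazard {R : Type u} [Ring R] {I : Type v} [Fintype I] [DecidableEq I]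
    (S : Matrix I I R → Prop) (hmul : ∀ A B, S A → S B → S (A * B))
    (W : AddSubgroup (K1 R)) (hS : ∀ C, S C → (∃ M, C ^ M = 0) → cm (1 - C) ∈ W)
    (M : ℕ) (L : List (Matrix I I R)) (hL : ∀ A ∈ L, S A)
    (hw : ∀ l : List (Matrix I I R), (∀ A ∈ l, A ∈ L) → M ≤ l.length → l.prod = 0) :
    cm (1 - L.sum) ∈ W := by
  by_cases hu : IsUnit (1 - L.sum)
  · have h1 : ((L.map fun A => (A, 1)).map (Prod.fst : Matrix I I R × ℕ → Matrix I I R)) = L := by
      rw [List.map_map]
      exact List.map_id L
    have h2 := n4_main S hmul W hS M M 1 _ (L.map fun A => (A, 1)) le_rfl (by omega) rfl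
      (by
        intro p hp
        obtain ⟨A, hA, rfl⟩ := List.mem_map.1 hp
        exact ⟨hL A hA, le_rfl⟩)
      (by
        intro l hl hM
        have h3 : (l.map Prod.snd).sum = l.length := by
          have : l.map Prod.snd = List.replicate l.length 1 := by
            rw [List.eq_replicate_iff]
            refine ⟨by simp, ?_⟩
            intro b hb
            obtain ⟨p, hp, rfl⟩ := List.mem_map.1 hb
            obtain ⟨A, _, rfl⟩ := List.mem_map.1 (hl p hp)
            rfl
          rw [this, List.sum_replicate]
          simp
        refine hw _ ?_ (by rw [List.length_map]; omega)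
        intro A hA
        obtain ⟨p, hp, rfl⟩ := List.mem_map.1 hA
        obtain ⟨B, hB, rfl⟩ := List.mem_map.1 (hl p hp)
        exact hB)
    rw [h1] at h2
    exact h2 hu
  · unfold cm
    rw [dif_neg hu]
    exact W.zero_mem

end Pool.Agent.Lib.MP_16fe43_al
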