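import Pool.Agent.Lib.MP_16fe43_al.TreeDefs

/-!
# Block diagonal matrices with blocks over the group rings of subgroups
-/

set_option autoImplicit false

universe u v w

namespace Pool.Agent.Lib.MP_16fe43_al

open MulAction (stabilizer)
open Matrix (fromBlocks)

variable {G : Type u} [Group G]

/-- block diagonal: the block of `a` has its entries in `ℤ[L a]` -/
def Blk {I A : Type*} (f : I → A) (L : A → Subgroup G)
    (B : Matrix I I (MonoidAlgebra ℤ G)) : Prop :=
  ∀ (i j : I) (h : G), (B i j).coeff h ≠ 0 → f i = f j ∧ h ∈ L (f i)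

theorem Blk.mul {I A : Type*} [Fintype I] {f : I → A} {L : A → Subgroup G}
    {B C : Matrix I I (MonoidAlgebra ℤ G)} (hB : Blk f L B) (hC : Blk f L C) :
    Blk f L (B * C) := by
  intro i k h hh
  obtain ⟨j, a, b, rfl, ha, hb⟩ := exists_of_mul_coeff_ne hh
  obtain ⟨h1, h2⟩ := hB i j a ha
  obtain ⟨h3, h4⟩ := hC j k b hb
  rw [← h1] at h4
  exact ⟨h1.trans h3, (L (f i)).mul_mem h2 h4⟩

private theorem blk_loc {A : Type*} (L : A → Subgroup G) (a b : A) (h : G) :
    ((⟨a, ((1 : G) : G ⧸ L a)⟩ : (a : A) × (G ⧸ L a)) = h • ⟨b, ((1 : G) : G ⧸ L b)⟩) ↔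
      a = b ∧ h ∈ L a := by
  have h0 : h • (⟨b, ((1 : G) : G ⧸ L b)⟩ : (a : A) × (G ⧸ L a)) = ⟨b, ((h : G) : G ⧸ L b)⟩ := by
    show (⟨b, h • ((1 : G) : G ⧸ L b)⟩ : (a : A) × (G ⧸ L a)) = _
    rw [MulAction.Quotient.smul_coe, smul_eq_mul, mul_one]
  rw [h0]
  constructor
  · intro h1
    obtain ⟨h2, h3⟩ := Sigma.mk.inj_iff.mp h1
    subst h2
    refine ⟨rfl, ?_⟩
    have h4 := eq_of_heq h3
    rw [QuotientGroup.eq, inv_one, one_mul] at h4
    exact h4
  · rintro ⟨rfl, h1⟩
    congr 1
    rw [QuotientGroup.eq, inv_one, one_mul]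
    exact h1

private theorem blk_iff {I A : Type*} (f : I → A) (L : A → Subgroup G)
    (B : Matrix I I (MonoidAlgebra ℤ G)) :
    Blk f L B ↔ Moves (fun a b : (a : A) × (G ⧸ L a) => a = b)
      (fun i => (⟨f i, ((1 : G) : G ⧸ L (f i))⟩ : (a : A) × (G ⧸ L a)))
      (fun i => (⟨f i, ((1 : G) : G ⧸ L (f i))⟩ : (a : A) × (G ⧸ L a))) B := by
  constructor
  · intro h i j g hg
    exact (blk_loc L (f i) (f j) g).mpr (h i j g hg)
  · intro h i j g hg
    exact (blk_loc L (f i) (f j) g).mp (h i j g hg)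

/-- the inverse of a block diagonal matrix is block diagonal -/
theorem Blk.inv {I A : Type*} [Fintype I] [DecidableEq I] {f : I → A} {L : A → Subgroup G}
    {B C : Matrix I I (MonoidAlgebra ℤ G)} (hB : Blk f L B) (hBC : B * C = 1) (hCB : C * B = 1) :
    Blk f L C := by
  rw [blk_iff] at hB ⊢
  set x : I → (a : A) × (G ⧸ L a) := fun i => ⟨f i, ((1 : G) : G ⧸ L (f i))⟩ with hx
  have hinv : RInv G (fun a b : (a : A) × (G ⧸ L a) => a = b) := fun g a b h => congrArg _ h
  have h1 : B * res (fun a b => a = b) x x C = res (fun a b => a = b) x x (B * C) :=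
    mul_res_of (d := fun _ _ => True) hB (fun _ _ _ _ => trivial) hinv (fun _ _ _ _ => trivial)
      (fun a b t h _ => by
        have h' : a = b := h
        rw [h'])
  rw [hBC, Moves.res_eq_self (moves_one x fun a => rfl)] at h1
  have h2 : res (fun a b => a = b) x x C = C := by
    calc res (fun a b => a = b) x x C = (C * B) * res (fun a b => a = b) x x C := by
          rw [hCB, Matrix.one_mul]
      _ = C := by rw [Matrix.mul_assoc, h1, Matrix.mul_one]
  rw [← h2]
  exact moves_res _ _ _ _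

/-- a matrix with entries in `ℤ[L]` comes from `ℤ[L]` -/
theorem exists_lift {I J : Type*} (L : Subgroup G) (B : Matrix I J (MonoidAlgebra ℤ G))
    (hB : ∀ i j h, (B i j).coeff h ≠ 0 → h ∈ L) :
    ∃ B0 : Matrix I J (MonoidAlgebra ℤ L),
      B0.map (MonoidAlgebra.mapDomainRingHom ℤ L.subtype) = B := by
  refine ⟨fun i j => MonoidAlgebra.ofCoeff ((B i j).coeff.comapDomain L.subtype
    L.subtype_injective.injOn), ?_⟩
  ext i j : 2
  rw [Matrix.map_apply, MonoidAlgebra.mapDomainRingHom_apply]
  rw [MonoidAlgebra.coeff_mapDomain, MonoidAlgebra.coeff_ofCoeff]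
  apply Finsupp.mapDomain_comapDomain
  · exact L.subtype_injective
  · intro h hh
    rw [Finset.mem_coe, Finsupp.mem_support_iff] at hh
    exact ⟨⟨h, hB i j h hh⟩, rfl⟩

theorem map_sub_injective (L : Subgroup G) :
    Function.Injective (MonoidAlgebra.mapDomainRingHom ℤ L.subtype :
      MonoidAlgebra ℤ L →+* MonoidAlgebra ℤ G) :=
  MonoidAlgebra.mapDomain_injective L.subtype_injective

private theorem block_aux {A : Type*} (L : A → Subgroup G)
    (W : AddSubgroup (K1 (MonoidAlgebra ℤ G))) (n : ℕ) :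
    ∀ (I : Type v) [Fintype I] [DecidableEq I] (f : I → A)
      (B C : Matrix I I (MonoidAlgebra ℤ G)), Fintype.card I ≤ n → B * C = 1 → C * B = 1 →
      Blk f L B → (∀ i, ImOK W (L (f i))) → cm B ∈ W := by
  classical
  induction n with
  | zero =>
    intro I _ _ f B C hn _ _ _ _
    have : IsEmpty I := Fintype.card_eq_zero_iff.mp (Nat.le_zero.mp hn)
    have h1 : B = 1 := Subsingleton.elim _ _
    rw [h1, cm_one]
    exact W.zero_mem
  | succ n ih =>
    intro I _ _ f B C hn hBC hCB hloc hW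
    rcases isEmpty_or_nonempty I with hI | ⟨⟨i0⟩⟩
    · have h1 : B = 1 := Subsingleton.elim _ _
      rw [h1, cm_one]
      exact W.zero_mem
    have hlocC := hloc.inv hBC hCB
    set p : I → Prop := fun i => f i = f i0 with hp
    set e : I ≃ {i // p i} ⊕ {i // ¬ p i} := (Equiv.sumCompl p).symm with he
    have hzero : ∀ (D : Matrix I I (MonoidAlgebra ℤ G)), Blk f L D → ∀ i j, f i ≠ f j →
        D i j = 0 := by
      intro D hD i j hij
      apply MonoidAlgebra.coeff_injective
      ext h
      by_contra h2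
      exact hij (hD i j h (by simpa using h2)).1
    have hform : ∀ (D : Matrix I I (MonoidAlgebra ℤ G)), Blk f L D →
        Matrix.reindex e e D = fromBlocks (D.submatrix (fun i : {i // p i} => i.1) (fun i => i.1)) 0
          0 (D.submatrix (fun i : {i // ¬ p i} => i.1) (fun i => i.1)) := by
      intro D hD
      ext i j : 2
      rcases i with i | i <;> rcases j with j | j
      · rfl
      · exact congrArg MonoidAlgebra.coeff
          (hzero D hD i.1 j.1 (fun h => j.2 (h.symm.trans i.2)))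
      · exact congrArg MonoidAlgebra.coeff
          (hzero D hD i.1 j.1 (fun h => i.2 (h.trans j.2)))
      · rfl
    have hB1 := hform B hloc
    have hC1 := hform C hlocC
    have hmul : ∀ (D E : Matrix I I (MonoidAlgebra ℤ G)), D * E = 1 →
        Matrix.reindex e e D * Matrix.reindex e e E = 1 := by
      intro D E h
      rw [Matrix.reindex_apply, Matrix.reindex_apply, Matrix.submatrix_mul_equiv, h,
        Matrix.submatrix_one_equiv]
    have h1 := hmul B C hBC
    have h2 := hmul C B hCB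
    rw [hB1, hC1, Matrix.fromBlocks_multiply] at h1
    rw [hB1, hC1, Matrix.fromBlocks_multiply] at h2
    simp only [Matrix.mul_zero, Matrix.zero_mul, add_zero, zero_add] at h1 h2
    rw [← Matrix.fromBlocks_one] at h1 h2
    obtain ⟨h11, -, -, h14⟩ := Matrix.fromBlocks_inj.mp h1
    obtain ⟨h21, -, -, h24⟩ := Matrix.fromBlocks_inj.mp h2
    set B1 := B.submatrix (fun i : {i // p i} => i.1) (fun i : {i // p i} => i.1) with hB1'
    set C1 := C.submatrix (fun i : {i // p i} => i.1) (fun i : {i // p i} => i.1) with hC1'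
    set B2 := B.submatrix (fun i : {i // ¬ p i} => i.1) (fun i : {i // ¬ p i} => i.1) with hB2'
    set C2 := C.submatrix (fun i : {i // ¬ p i} => i.1) (fun i : {i // ¬ p i} => i.1) with hC2'
    have hu : IsUnit B := ⟨⟨B, C, hBC, hCB⟩, rfl⟩
    have hu1 : IsUnit B1 := ⟨⟨B1, C1, h11, h21⟩, rfl⟩
    have hu2 : IsUnit B2 := ⟨⟨B2, C2, h14, h24⟩, rfl⟩
    rw [← cm_reindex e hu, hB1, cm_fromBlocks_diag hu1 hu2]
    refine W.add_mem ?_ ?_
    · obtain ⟨B0, hB0⟩ := exists_lift (L (f i0)) B1 (by
        intro i j h hh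
        have := (hloc i.1 j.1 h hh).2
        rwa [show f i.1 = f i0 from i.2] at this)
      obtain ⟨C0, hC0⟩ := exists_lift (L (f i0)) C1 (by
        intro i j h hh
        have := (hlocC i.1 j.1 h hh).2
        rwa [show f i.1 = f i0 from i.2] at this)
      have hinj := map_sub_injective (L (f i0))
      have hmap : ∀ D E : Matrix {i // p i} {i // p i} (MonoidAlgebra ℤ (L (f i0))),
          D.map (MonoidAlgebra.mapDomainRingHom ℤ (L (f i0)).subtype) *
            E.map (MonoidAlgebra.mapDomainRingHom ℤ (L (f i0)).subtype) = 1 → D * E = 1 := by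
        intro D E h
        rw [← Matrix.map_mul] at h
        have h3 : (D * E).map (MonoidAlgebra.mapDomainRingHom ℤ (L (f i0)).subtype) =
            (1 : Matrix {i // p i} {i // p i} (MonoidAlgebra ℤ (L (f i0)))).map
              (MonoidAlgebra.mapDomainRingHom ℤ (L (f i0)).subtype) := by
          rw [h, Matrix.map_one _ (map_zero _) (map_one _)]
        exact Matrix.map_injective hinj h3
      have hu0 : IsUnit B0 := ⟨⟨B0, C0, hmap B0 C0 (by rw [hB0, hC0]; exact h11),
        hmap C0 B0 (by rw [hB0, hC0]; exact h21)⟩, rfl⟩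
      have h5 := hW i0 (cm B0)
      rw [K1.map_cm _ hu0, hB0] at h5
      exact h5
    · refine ih {i // ¬ p i} (fun i => f i.1) B2 C2 ?_ h14 h24 (fun i j h hh => hloc i.1 j.1 h hh)
        (fun i => hW i.1)
      have h6 : Fintype.card {i // ¬ p i} < Fintype.card I :=
        Fintype.card_subtype_lt (p := fun i => ¬ p i) (x := i0) (by simp [hp])
      omega

/-- the class of a block diagonal matrix comes from the blocks -/
theorem block_mem {I A : Type*} [Fintype I] [DecidableEq I] (f : I → A) (L : A → Subgroup G)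
    (B : Matrix I I (MonoidAlgebra ℤ G)) (hB : IsUnit B) (hloc : Blk f L B)
    (W : AddSubgroup (K1 (MonoidAlgebra ℤ G))) (hW : ∀ i, ImOK W (L (f i))) : cm B ∈ W := by
  obtain ⟨u, rfl⟩ := hB
  exact block_aux L W (Fintype.card I) I f u.val u.inv le_rfl u.val_inv u.inv_val hloc hW

theorem ImOK.mono {W : AddSubgroup (K1 (MonoidAlgebra ℤ G))} {L L' : Subgroup G} (h : L ≤ L')
    (hL' : ImOK W L') : ImOK W L := by
  intro z
  obtain ⟨n, A, rfl⟩ := K1.exists_gen z
  have h1 := hL' (K1.map (MonoidAlgebra.mapDomainRingHom ℤ (Subgroup.inclusion h)) (K1.gen A))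
  rw [K1.map_gen, K1.map_gen] at h1
  rw [K1.map_gen]
  have h2 : mapU (MonoidAlgebra.mapDomainRingHom ℤ L.subtype) A =
      mapU (MonoidAlgebra.mapDomainRingHom ℤ L'.subtype)
        (mapU (MonoidAlgebra.mapDomainRingHom ℤ (Subgroup.inclusion h)) A) := by
    apply Units.ext
    show A.val.map (MonoidAlgebra.mapDomainRingHom ℤ L.subtype) =
      (A.val.map (MonoidAlgebra.mapDomainRingHom ℤ (Subgroup.inclusion h))).map
        (MonoidAlgebra.mapDomainRingHom ℤ L'.subtype)
    rw [Matrix.map_map]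
    congr 1
    funext a
    rw [Function.comp_apply, ← RingHom.comp_apply, ← MonoidAlgebra.mapDomainRingHom_comp]
    rfl
  rw [h2]
  exact h1

end Pool.Agent.Lib.MP_16fe43_al
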