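import Pool.Agent.Lib.MP_16fe43_al.TreeN1
import Pool.Agent.Lib.MP_16fe43_al.TreeK1

/-!
# Letters
-/

set_option autoImplicit false

universe u v w

namespace Pool.Agent.Lib.MP_16fe43_al

open MulAction (stabilizer)

variable {G : Type u} [Group G] {X : Type w} [MulAction G X] {Rg : Subgroup G → Prop}
  {r : X → X → Prop}

theorem inLetter_mul (hRg : RgOK Rg) (hr : RInv G r) {I : Type u} [Fintype I] [DecidableEq I]
    {x : I → X} {C C' : Matrix I I (MonoidAlgebra ℤ G)} (h : InLetter Rg r x C)
    (h' : InLetter Rg r x C') : InLetter Rg r x (C * C') := by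
  classical
  rcases h with h | ⟨s, z, m, hm, hwk, hC⟩
  · left; rw [h, zero_mul]
  rcases h' with h' | ⟨s', z', m', hm', hwk', hC'⟩
  · left; rw [h', mul_zero]
  by_cases h0 : C * C' = 0
  · left; exact h0
  right
  obtain ⟨i, k, g, hg⟩ : ∃ (i k : I) (g : G), ((C * C') i k).coeff g ≠ 0 := by
    by_contra hcon
    push Not at hcon
    apply h0
    refine matrix_ext fun i j g => ?_
    rw [hcon i j g]
    simp
  obtain ⟨j, a, b, hab, ha, hb⟩ := exists_of_mul_coeff_ne hg
  obtain ⟨h1, h2⟩ := hC i j a ha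
  obtain ⟨h3, h4⟩ := hC' j k b hb
  have hz : z = a • s' := by rw [← h2, h3]
  refine ⟨s, a • z', m + m', by omega, ?_, ?_⟩
  · refine hwk.trans ?_
    rw [hz]
    exact Wk.smul (rInv_pu hRg hr) a hwk'
  · intro i' k' g' hg'
    obtain ⟨j', a', b', hab', ha', hb'⟩ := exists_of_mul_coeff_ne hg'
    obtain ⟨h1', h2'⟩ := hC i' j' a' ha'
    obtain ⟨h3', h4'⟩ := hC' j' k' b' hb'
    refine ⟨h1', ?_⟩
    rw [← hab', mul_smul, h4']
    have h5 : a' • s' = a • s' := by rw [← hz, ← h2', h3']
    have h6 : a⁻¹ * a' ∈ stabilizer G s' := by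
      rw [MulAction.mem_stabilizer_iff, mul_smul, h5, inv_smul_smul]
    rw [stab_wk_pu hwk', MulAction.mem_stabilizer_iff, mul_smul, inv_smul_eq_iff] at h6
    exact h6

theorem inLetter_cm (hRg : RgOK Rg) (hr : RInv G r) {I : Type u} [Fintype I] [DecidableEq I]
    {x : I → X} (hx : RepLoc G x) {W : AddSubgroup (K1 (MonoidAlgebra ℤ G))}
    (hL : LinkOK Rg r W) {C : Matrix I I (MonoidAlgebra ℤ G)} (h : InLetter Rg r x C)
    (hnil : ∃ M, C ^ M = 0) : cm (1 - C) ∈ W := by
  classical
  have hunit : IsUnit (1 - C) := by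
    obtain ⟨M, hM⟩ := hnil
    exact IsNilpotent.isUnit_one_sub ⟨M, hM⟩
  rcases h with h | ⟨s, z, m, hm, hwk, hC⟩
  · rw [h, sub_zero, cm_one]
    exact W.zero_mem
  by_cases hz : ∃ g : G, z = g • s
  · obtain ⟨g, hg⟩ := hz
    have hstab : stabilizer G s = stabilizer G z := stab_wk_pu hwk
    have hnrm : Nrm g (stabilizer G s) := by
      intro a
      have h1 : stabilizer G s = (stabilizer G s).map (MulAut.conj g).toMonoidHom := by
        conv_lhs => rw [hstab, hg, stab_smul]
      constructor
      · intro ha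
        rw [h1]
        exact ⟨a, ha, rfl⟩
      · intro ha
        rw [h1] at ha
        obtain ⟨b, hb, hb2⟩ := ha
        have hb3 : g * b * g⁻¹ = g * a * g⁻¹ := hb2
        have : b = a := by
          have := mul_right_cancel hb3
          exact mul_left_cancel this
        rw [← this]
        exact hb
    have hnr : ¬ Rg (stabilizer G s) := by
      obtain ⟨m', rfl⟩ : ∃ m', m = m' + 1 := ⟨m - 1, by omega⟩
      obtain ⟨t, h1, _⟩ := hwk
      exact h1.2.2
    have hwr : Wk r m s (g • s) := by
      rw [← hg]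
      exact hwk.mono fun _ _ h => h.1
    have hOK := hL s s g ⟨0, rfl⟩ ⟨m, hm, hwr⟩ ⟨m, hm, hwr⟩ (by rw [inf_idem]; exact hnrm)
      (by rw [inf_idem]; exact hnr)
    rw [inf_idem] at hOK
    refine block_mem (fun _ : I => ())
      (fun _ => Subgroup.closure (((stabilizer G s : Subgroup G) : Set G) ∪ {g})) (1 - C) hunit ?_ W
      (fun _ => hOK)
    intro i j a ha
    refine ⟨rfl, ?_⟩
    rw [Matrix.sub_apply, MonoidAlgebra.coeff_sub, Finsupp.sub_apply] at ha
    by_cases h1 : (C i j).coeff a = 0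
    · rw [h1, sub_zero] at ha
      rw [(one_coeff i j a ha).2]
      exact Subgroup.one_mem _
    · obtain ⟨h2, h3⟩ := hC i j a h1
      have h4 : x i = x j := by
        refine hx i j (g⁻¹ * a) ?_
        rw [mul_smul, h3, hg, inv_smul_smul, h2]
      have h5 : a • s = g • s := by rw [← hg, ← h3, ← h4, h2]
      have h6 : g⁻¹ * a ∈ stabilizer G s := by
        rw [MulAction.mem_stabilizer_iff, mul_smul, h5, inv_smul_smul]
      have h7 : a = g * (g⁻¹ * a) := by group
      rw [h7]
      exact Subgroup.mul_mem _ (Subgroup.subset_closure (Or.inr rfl))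
        (Subgroup.subset_closure (Or.inl h6))
  · set P : Matrix I I (MonoidAlgebra ℤ G) :=
      Matrix.diagonal (fun i => if x i = s then (1 : MonoidAlgebra ℤ G) else 0) with hP
    have hPC : P * C = C := by
      refine matrix_ext fun i j a => ?_
      rw [hP, Matrix.diagonal_mul]
      split_ifs with h1
      · rw [one_mul]
      · rw [zero_mul]
        by_contra h2
        have h3 : (C i j).coeff a ≠ 0 := fun h4 => h2 (by rw [h4]; simp)
        exact h1 (hC i j a h3).1
    have hCP : C * P = 0 := by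
      refine matrix_ext fun i j a => ?_
      rw [hP, Matrix.mul_diagonal]
      split_ifs with h1
      · rw [mul_one]
        by_contra h2
        have h3 : (C i j).coeff a ≠ 0 := fun h4 => h2 (by rw [h4]; simp)
        have h4 := (hC i j a h3).2
        exact hz ⟨a, by rw [← h4, h1]⟩
      · rw [mul_zero]
        simp
    have h1 : cm (1 - P * C) = cm (1 - C * P) := cm_one_sub_mul_comm P C
    rw [hPC, hCP, sub_zero, cm_one] at h1
    rw [h1]
    exact W.zero_mem

end Pool.Agent.Lib.MP_16fe43_al
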