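import Pool.Agent.Lib.MP_16fe43_al.TreeN2
import Pool.Agent.Lib.MP_16fe43_al.TreeN4
import Pool.Agent.Lib.MP_16fe43_al.TreeN5

/-!
# The pure part
-/

set_option autoImplicit false

universe u v w

namespace Pool.Agent.Lib.MP_16fe43_al

open MulAction (stabilizer)

variable {G : Type u} [Group G] {X : Type w} [MulAction G X] {Rg : Subgroup G → Prop}
  {r : X → X → Prop}

/-- normalization of the locations -/
theorem exists_repLoc {I : Type u} [Fintype I] [DecidableEq I] (x : I → X) :
    ∃ (x' : I → X) (g : I → G), RepLoc G x' ∧ ∀ i, x i = g i • x' i := by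
  classical
  set q : X → Quotient (MulAction.orbitRel G X) := Quotient.mk (MulAction.orbitRel G X) with hq
  have h1 : ∀ a : X, ∃ g : G, a = g • (q a).out := by
    intro a
    have h2 : q (q a).out = q a := Quotient.out_eq _
    have h3 : (MulAction.orbitRel G X) a (q a).out := Quotient.exact h2.symm
    rw [MulAction.orbitRel_apply, MulAction.mem_orbit_iff] at h3
    obtain ⟨g, hg⟩ := h3
    exact ⟨g, hg.symm⟩
  choose g hg using h1
  refine ⟨fun i => (q (x i)).out, fun i => g (x i), ?_, fun i => hg (x i)⟩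
  intro i j h hh
  have h2 : q (q (x i)).out = q (x i) := Quotient.out_eq _
  have h3 : q (q (x j)).out = q (x j) := Quotient.out_eq _
  have h4 : q (q (x i)).out = q (q (x j)).out := by
    refine Quotient.sound ?_
    show (MulAction.orbitRel G X) _ _
    rw [MulAction.orbitRel_apply, MulAction.mem_orbit_iff]
    exact ⟨h, hh⟩
  rw [h2, h3] at h4
  show (q (x i)).out = (q (x j)).out
  rw [h4]

/-- the orbit of an arrow -/
private def orbC (G : Type u) [Group G] {X : Type w} [MulAction G X] (l : X × X) :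
    X → X → Prop := fun a b => ∃ g : G, g • l.1 = a ∧ g • l.2 = b

private theorem rInv_orbC (l : X × X) : RInv G (orbC G l) := by
  rintro h a b ⟨g, h1, h2⟩
  exact ⟨h * g, by rw [mul_smul, h1], by rw [mul_smul, h2]⟩

private theorem exists_list {A B : Type*} (f : A → B) (S : A → Prop) (l : List B)
    (h : ∀ b ∈ l, ∃ a, S a ∧ f a = b) : ∃ cs : List A, cs.map f = l ∧ ∀ a ∈ cs, S a := by
  induction l with
  | nil => exact ⟨[], rfl, by simp⟩
  | cons b l ih =>
    obtain ⟨cs, h1, h2⟩ := ih (fun c hc => h c (List.mem_cons_of_mem _ hc))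
    obtain ⟨a, h3, h4⟩ := h b List.mem_cons_self
    refine ⟨a :: cs, by rw [List.map_cons, h1, h4], ?_⟩
    intro c hc
    rcases List.mem_cons.1 hc with rfl | hc
    · exact h3
    · exact h2 c hc

/-- the pure part for normalized locations -/
theorem pure_rep (hRg : RgOK Rg) (hr : RInv G r) (hU : UWP r)
    {W : AddSubgroup (K1 (MonoidAlgebra ℤ G))} (hL : LinkOK Rg r W) {I : Type u} [Fintype I]
    [DecidableEq I] (x : I → X) (hx : RepLoc G x) (N : Matrix I I (MonoidAlgebra ℤ G))
    (hN : Moves (Pu Rg r) x x N) (hnil : ∃ M, N ^ M = 0) : cm (1 - N) ∈ W := by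
  classical
  obtain ⟨M, hM⟩ := hnil
  -- the arrows
  set Arr : Finset (X × X) := Finset.univ.biUnion (fun p : I × I =>
    (N p.1 p.2).coeff.support.image (fun h => (x p.1, h • x p.2))) with hArr
  have hmem : ∀ l : X × X, l ∈ Arr ↔ ∃ (i j : I) (h : G), (N i j).coeff h ≠ 0 ∧
      l = (x i, h • x j) := by
    intro l
    rw [hArr, Finset.mem_biUnion]
    constructor
    · rintro ⟨p, _, hp⟩
      obtain ⟨h, h1, h2⟩ := Finset.mem_image.1 hp
      exact ⟨p.1, p.2, h, Finsupp.mem_support_iff.1 h1, h2.symm⟩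
    · rintro ⟨i, j, h, h1, h2⟩
      exact ⟨(i, j), Finset.mem_univ _, Finset.mem_image.2
        ⟨h, Finsupp.mem_support_iff.2 h1, h2.symm⟩⟩
  -- an arrow of `N` in the orbit of a letter is the letter
  have huniq : ∀ l ∈ Arr, ∀ (i j : I) (h : G), orbC G l (x i) (h • x j) →
      l = (x i, h • x j) := by
    rintro l hl i j h ⟨g, hg1, hg2⟩
    obtain ⟨i', j', h', h1, h2⟩ := (hmem l).1 hl
    rw [h2] at hg1 hg2 ⊢
    simp only at hg1 hg2
    have h3 : x i = x i' := hx i i' g hg1
    have h4 := (hN i' j' h' h1).2.1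
    have h5 : g ∈ stabilizer G (x i') := by
      rw [MulAction.mem_stabilizer_iff, hg1, h3]
    rw [h4, MulAction.mem_stabilizer_iff, hg2] at h5
    rw [h3, ← h5]
  have hsum : ∑ l ∈ Arr, res (orbC G l) x x N = N := by
    refine matrix_ext fun i j h => ?_
    have h1 : ((∑ l ∈ Arr, res (orbC G l) x x N) i j).coeff h =
        ∑ l ∈ Arr, (res (orbC G l) x x N i j).coeff h := by
      rw [Matrix.sum_apply, MonoidAlgebra.coeff_sum, Finsupp.finsetSum_apply]
    rw [h1]
    by_cases h2 : (N i j).coeff h = 0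
    · rw [h2]
      refine Finset.sum_eq_zero fun l _ => ?_
      rw [res_coeff, h2, ite_self]
    · have h3 : (x i, h • x j) ∈ Arr := (hmem _).2 ⟨i, j, h, h2, rfl⟩
      rw [Finset.sum_eq_single_of_mem _ h3]
      · exact res_coeff_pos N ⟨1, one_smul G _, one_smul G _⟩
      · intro l hl hne
        refine res_coeff_neg N fun hc => hne ?_
        exact huniq l hl i j h hc
  have key := lazard (InLetter Rg r x) (fun A B hA hB => inLetter_mul hRg hr hA hB) W
    (fun C hC hn => inLetter_cm hRg hr hx hL hC hn) M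
    (Arr.toList.map (fun l => res (orbC G l) x x N)) ?_ ?_
  · have h6 : (Arr.toList.map (fun l => res (orbC G l) x x N)).sum = N := by
      rw [Finset.sum_map_toList, hsum]
    rwa [h6] at key
  · intro A hA
    obtain ⟨l, hl, rfl⟩ := List.mem_map.1 hA
    rw [Finset.mem_toList] at hl
    right
    obtain ⟨i', j', h', h1, h2⟩ := (hmem l).1 hl
    refine ⟨l.1, l.2, 1, one_pos, ?_, ?_⟩
    · rw [Wk.one_iff, h2]
      exact hN i' j' h' h1
    · intro i j h hh
      have h3 : orbC G l (x i) (h • x j) := moves_res _ _ _ _ i j h hh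
      rw [huniq l hl i j h h3]
      exact ⟨rfl, rfl⟩
  · intro l hl hlen
    obtain ⟨cs, h1, h2⟩ := exists_list (fun c : X → X → Prop => res c x x N)
      (fun c => RInv G c) l (fun A hA => by
        obtain ⟨l', _, h4⟩ := List.mem_map.1 (hl A hA)
        exact ⟨orbC G l', rInv_orbC l', h4⟩)
    rw [← h1] at hlen ⊢
    rw [List.length_map] at hlen
    exact prod_res_eq_zero (rInv_pu hRg hr) (hU.mono fun _ _ h => h.1) x N hN hM cs h2 hlen

theorem pure_mem (hRg : RgOK Rg) (hr : RInv G r) (hU : UWP r)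
    {W : AddSubgroup (K1 (MonoidAlgebra ℤ G))} (hL : LinkOK Rg r W) {I : Type u} [Fintype I]
    [DecidableEq I] (x : I → X) (N : Matrix I I (MonoidAlgebra ℤ G))
    (hN : Moves (Pu Rg r) x x N) (hnil : ∃ M, N ^ M = 0) : cm (1 - N) ∈ W := by
  classical
  obtain ⟨M, hM⟩ := hnil
  obtain ⟨x', g, hx', hg⟩ := exists_repLoc (G := G) x
  have hPQ := dg_inv_mul g
  have hQP := dg_mul_inv g
  set P := dg (fun i => (g i)⁻¹) with hP
  set Q := dg g with hQ
  have hconj : 1 - P * N * Q = P * (1 - N) * Q := by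
    rw [mul_sub, sub_mul, mul_one, hPQ]
  have hunit : IsUnit (1 - N) := IsNilpotent.isUnit_one_sub ⟨M, hM⟩
  have hcm : cm (1 - N) = cm (1 - P * N * Q) := by
    rw [hconj, cm_conj hPQ hQP hunit]
  have hpow : ∀ k : ℕ, (P * N * Q) ^ k = P * N ^ k * Q := by
    intro k
    induction k with
    | zero => rw [pow_zero, pow_zero, mul_one, hPQ]
    | succ k ih =>
      rw [pow_succ, ih, pow_succ]
      calc P * N ^ k * Q * (P * N * Q) = P * N ^ k * (Q * P) * (N * Q) := by noncomm_ring
        _ = P * (N ^ k * N) * Q := by rw [hQP]; noncomm_ring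
  rw [hcm]
  refine pure_rep hRg hr hU hL x' hx' (P * N * Q) ?_ ⟨M, ?_⟩
  · intro i j h hh
    rw [hQ, mul_dg_coeff, hP, dg_mul_coeff, inv_inv] at hh
    have h1 := hN i j _ hh
    rw [hg i, hg j, ← mul_smul] at h1
    have h2 : g i * (h * (g j)⁻¹) * g j = g i * h := by group
    rw [h2, mul_smul] at h1
    exact ((rInv_pu hRg hr).iff (g i) _ _).1 h1
  · rw [hpow, hM, mul_zero, zero_mul]

end Pool.Agent.Lib.MP_16fe43_al
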