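import Pool.Agent.Lib.MP_16fe43_al.TreeN3
import Pool.Agent.Lib.MP_16fe43_al.TreeN6

/-!
# The nilpotent part
-/

set_option autoImplicit false

universe u v w

namespace Pool.Agent.Lib.MP_16fe43_al

open MulAction (stabilizer)

variable {G : Type u} [Group G]

theorem nil_main {Rg : Subgroup G → Prop} (hRg : RgOK Rg)
    {W : AddSubgroup (K1 (MonoidAlgebra ℤ G))} (hbase : BaseOK.{u, w} Rg W) (n : ℕ) :
    ∀ (X : Type w) [MulAction G X] (r : X → X → Prop), RInv G r → UWP r → LinkOK Rg r W →
      ∀ (I : Type u) [Fintype I] [DecidableEq I] (x : I → X),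
        (∀ i, ¬ Deep Rg r n (x i) (x i)) → ∀ N : Matrix I I (MonoidAlgebra ℤ G),
          Moves r x x N → (∃ M, N ^ M = 0) → cm (1 - N) ∈ W := by
  induction n with
  | zero =>
    intro X _ r hr hU _ I _ _ x hx N hN hnil
    refine hbase X r hr hU I x (fun i => ?_) N hN hnil
    have h1 := hx i
    unfold Deep at h1
    rw [not_not, inf_idem] at h1
    exact h1
  | succ n ih =>
    intro X _ r hr hU hL I _ _ x hx N hN hnil
    obtain ⟨h0, K, _, _, y, N', hy, hN', hnil', hcm⟩ := split_nil (Rg := Rg) hRg hr hU x N hN hnil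
    rw [hcm]
    refine W.add_mem ?_ ?_
    · exact pure_mem hRg hr hU hL x _ (moves_res _ _ _ _) h0
    · refine ih (X × X) (nextR Rg r) (rInv_nextR hRg hr) (uwp_next hU) (linkOK_next hU hr hL) K y
        (fun k hk => ?_) N' hN' hnil'
      obtain ⟨h1, ⟨i, h2⟩, j, g, h3⟩ := hy k
      rcases deep_next hRg hU hr h1 hk with h4 | h4
      · rw [h2] at h4
        exact hx i h4
      · rw [h3] at h4
        have h5 := deep_smul hRg hr g⁻¹ h4
        rw [inv_smul_smul] at h5
        exact hx j h5

end Pool.Agent.Lib.MP_16fe43_al
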