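import Pool.Agent.Lib.MP_16fe43_al.TreeG2
import Pool.Agent.Lib.MP_16fe43_al.TreeN7
import Pool.Agent.Lib.MP_16fe43_al.TreeK4
import Pool.Agent.Lib.MP_16fe43_al.TreeK5
import Pool.Agent.Lib.MP_16fe43_al.TreeK7
import Pool.Agent.Lib.MP_16fe43_al.TreeK9

/-!
# The class group of a group acting on a tree
-/

set_option autoImplicit false

universe u v w

namespace Pool.Agent.Lib.MP_16fe43_al

open MulAction (stabilizer)

variable {V : Type w} {T : SimpleGraph V} {G : Type u} [Group G] [MulAction G V]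

theorem imOK_edge {W : AddSubgroup (K1 (MonoidAlgebra ℤ G))}
    (hV : ∀ v : V, ImOK W (stabilizer G v)) (a b : V) :
    ImOK W (stabilizer G ((a, b) : V × V)) := by
  refine ImOK.mono ?_ (hV a)
  intro g hg
  have h1 : g • (a, b) = (a, b) := hg
  exact congrArg Prod.fst h1

/-- a uniform bound for finitely many locations -/
theorem exists_bound {Rg : Subgroup G → Prop} (hRg : RgOK Rg) {X : Type w} [MulAction G X]
    {r : X → X → Prop} (hU : UWP r) (hr : RInv G r) {I : Type u} [Fintype I] (x : I → X)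
    (h : ∀ i, ∃ n : ℕ, ¬ Deep Rg r n (x i) (x i)) :
    ∃ n : ℕ, ∀ i, ¬ Deep Rg r n (x i) (x i) := by
  choose n hn using h
  refine ⟨Finset.univ.sup n, fun i hi => hn i ?_⟩
  exact deep_mono hRg hU hr (Finset.le_sup (Finset.mem_univ i)) hi

theorem tree_K1 (hT : TAct G T) {Rg : Subgroup G → Prop} (hRg : RgOK Rg)
    {W : AddSubgroup (K1 (MonoidAlgebra ℤ G))} (hTU : TU G ≤ W)
    (hV : ∀ v : V, ImOK W (stabilizer G v))
    (hE : ∀ a b : V, T.Adj a b → Subsingleton (BHS16.K0Red (stabilizer G ((a, b) : V × V))))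
    (hbase : BaseOK.{u, w} Rg W) (hlink : LinkOK Rg (Bk T) W)
    (hdeep : ∀ d : V × V, T.Adj d.1 d.2 → ∃ n : ℕ, ¬ Deep Rg (Bk T) n d d)
    (z : K1 (MonoidAlgebra ℤ G)) : z ∈ W := by
  obtain ⟨n, A, rfl⟩ := K1.exists_gen z
  obtain ⟨v0⟩ := hT.tree.connected.nonempty
  by_cases hadj : ∃ v1, T.Adj v0 v1
  · obtain ⟨v1, h01⟩ := hadj
    rw [← cl_gen, ← cm_val]
    obtain ⟨I, _, _, F, e, v, hF, he, hinc, hcm⟩ := linearize hT A.val A.isUnit v0 v1 h01
    rw [← hcm]
    obtain ⟨F', H', e', hEF, hiff⟩ := normalize hT hTU F hF e v he hinc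
    rw [← hiff]
    obtain ⟨I', _, _, F'', H'', d, v', hS, hiff'⟩ := split_form hT hE
      (fun a b _ => imOK_edge hV a b) hEF
    rw [← hiff']
    obtain ⟨N, Φ, hfac, hN, hnil, hΦ, hu1, hu2⟩ := factor hT hS
    rw [hfac, cm_mul hu1 hu2]
    refine W.add_mem ?_ ?_
    · obtain ⟨m, hm⟩ := exists_bound hRg (uwp_bk hT.tree) (rInv_bk hT) d
        (fun i => hdeep (d i) (hS.adj i))
      exact nil_main hRg hbase m (V × V) (Bk T) (rInv_bk hT) (uwp_bk hT.tree) hlink I' d hm N hN
        hnil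
    · exact vertex_mem _ v' Φ hu2 hΦ hTU hV
  · -- the tree is a point
    have hpt : ∀ v : V, v = v0 := by
      intro v
      by_contra hne
      obtain ⟨b, hb, _⟩ := descent_exists hT.tree (u := v) (a := v0) hne
      exact hadj ⟨b, hb⟩
    have htop : ∀ g : G, g ∈ stabilizer G v0 := fun g => hpt _
    let φ : G →* stabilizer G v0 :=
      { toFun := fun g => ⟨g, htop g⟩
        map_one' := rfl
        map_mul' := fun _ _ => rfl }
    have h1 : (MonoidAlgebra.mapDomainRingHom ℤ (stabilizer G v0).subtype).comp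
        (MonoidAlgebra.mapDomainRingHom ℤ φ) = RingHom.id (MonoidAlgebra ℤ G) := by
      rw [← MonoidAlgebra.mapDomainRingHom_comp]
      have : (stabilizer G v0).subtype.comp φ = MonoidHom.id G := rfl
      rw [this, MonoidAlgebra.mapDomainRingHom_id]
    have h2 := hV v0 (K1.map (MonoidAlgebra.mapDomainRingHom ℤ φ) (K1.gen A))
    rw [← K1.map_comp, h1, K1.map_id] at h2
    exact h2

end Pool.Agent.Lib.MP_16fe43_al
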