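import Pool.Agent.Lib.MP_16fe43_al.TreeG3
import Pool.Agent.Lib.MP_16fe43_al.TreeG4
import Pool.Agent.Lib.MP_16fe43_al.TreeK10
import Pool.Agent.Lib.MP_16fe43_al.Closure

/-!
# Products with a group acting trivially on the tree
-/

set_option autoImplicit false

universe u v w

namespace Pool.Agent.Lib.MP_16fe43_al

open MulAction (stabilizer)

/-- the action of `G × A` through `G` -/
@[reducible] def prodAct (G : Type u) (A : Type v) (V : Type w) [Group G] [Group A]
    [MulAction G V] : MulAction (G × A) V := MulAction.compHom V (MonoidHom.fst G A)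

section gen

variable {G : Type u} [Group G]

theorem mem_TU_of_wh {L : Type u} [Group L] (h : Subsingleton (BHS16.Wh L))
    (z : K1 (MonoidAlgebra ℤ L)) : z ∈ TU L := by
  have h1 := (BHS16.wh_subsingleton_iff L).1 h
  exact h1 (toB _ z)

theorem imOK_of_wh {W : AddSubgroup (K1 (MonoidAlgebra ℤ G))} (hW : TU G ≤ W) {L : Subgroup G}
    (h : Subsingleton (BHS16.Wh L)) : ImOK W L := fun z =>
  hW (TU_map L.subtype (mem_TU_of_wh h z))

theorem k0red_equiv {H : Type v} [Group H] (e : G ≃* H) (h : Subsingleton (BHS16.K0Red G)) :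
    Subsingleton (BHS16.K0Red H) := by
  constructor
  intro a b
  obtain ⟨x, rfl⟩ := QuotientAddGroup.mk_surjective a
  obtain ⟨y, rfl⟩ := QuotientAddGroup.mk_surjective b
  refine QuotientAddGroup.eq.mpr ?_
  generalize -x + y = z
  let E : BHS16.IntGroupRing G ≃+* BHS16.IntGroupRing H := MonoidAlgebra.mapDomainRingEquiv ℤ e
  obtain ⟨t, rfl⟩ := BHS16.K0.map_surjective_of_equiv E z
  have hz : t ∈ (BHS16.K0.map (Int.castRingHom (BHS16.IntGroupRing G))).range :=
    (QuotientAddGroup.eq_zero_iff t).mp (h.elim (QuotientAddGroup.mk t) 0)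
  obtain ⟨s, rfl⟩ := hz
  rw [← BHS16.K0.map_comp]
  have e : (E : BHS16.IntGroupRing G →+* BHS16.IntGroupRing H).comp
      (Int.castRingHom (BHS16.IntGroupRing G)) = Int.castRingHom (BHS16.IntGroupRing H) :=
    RingHom.ext_int _ _
  rw [e]
  exact ⟨s, rfl⟩

end gen

section prod

variable {G : Type u} [Group G] {A : Type v} [Group A] {V : Type w} [MulAction G V]
  {T : SimpleGraph V}

attribute [local instance] prodAct

theorem prodAct_smul (g : G × A) (v : V) : g • v = g.1 • v := rfl

theorem tAct_prod (hT : TAct G T) : TAct (G × A) T :=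
  ⟨hT.tree, fun g u v h => hT.adj g.1 u v h, fun g u v h => hT.noinv g.1 u v h⟩

theorem stab_prodAct (v : V) : stabilizer (G × A) v = (stabilizer G v).prod ⊤ := by
  ext g
  rw [Subgroup.mem_prod]
  exact ⟨fun h => ⟨h, Subgroup.mem_top _⟩, fun h => h.1⟩

theorem stab_inf_prodAct (v v' : V) : stabilizer (G × A) v ⊓ stabilizer (G × A) v' =
    (stabilizer G v ⊓ stabilizer G v').prod ⊤ := by
  ext g
  rw [Subgroup.mem_prod]
  exact ⟨fun h => ⟨⟨h.1, h.2⟩, Subgroup.mem_top _⟩, fun h => ⟨h.1.1, h.1.2⟩⟩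

theorem stab_pair_prodAct (v v' : V) : stabilizer (G × A) ((v, v') : V × V) =
    (stabilizer G v ⊓ stabilizer G v').prod ⊤ := by
  ext g
  rw [Subgroup.mem_prod]
  constructor
  · intro h
    have h1 : g • ((v, v') : V × V) = (v, v') := h
    exact ⟨⟨congrArg Prod.fst h1, congrArg Prod.snd h1⟩, Subgroup.mem_top _⟩
  · intro h
    exact Prod.ext h.1.1 h.1.2

theorem axis_prodAct (w : G) (a : A) : axis T ((w, a) : G × A) = axis T w := rfl

theorem axisStab_prodAct (w : G) (a : A) :
    axisStab T ((w, a) : G × A) = (axisStab T w).prod ⊤ := by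
  ext g
  rw [Subgroup.mem_prod]
  exact ⟨fun h => ⟨h, Subgroup.mem_top _⟩, fun h => h.1⟩

theorem axisGroup_prodAct (w : G) (a : A) :
    axisGroup T ((w, a) : G × A) = (axisGroup T w).prod ⊤ := by
  apply le_antisymm
  · unfold axisGroup
    rw [Subgroup.closure_le]
    rintro g (hg | hg)
    · have h1 : g ∈ axisStab T ((w, a) : G × A) := hg
      rw [axisStab_prodAct, Subgroup.mem_prod] at h1
      exact Subgroup.mem_prod.2 ⟨Subgroup.subset_closure (Or.inl h1.1), Subgroup.mem_top _⟩
    · have h1 : g = (w, a) := hg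
      rw [h1]
      exact Subgroup.mem_prod.2 ⟨Subgroup.subset_closure (Or.inr rfl), Subgroup.mem_top _⟩
  · have hA : ∀ b : A, ((1, b) : G × A) ∈ axisGroup T ((w, a) : G × A) := by
      intro b
      refine Subgroup.subset_closure (Or.inl ?_)
      show ((1, b) : G × A) ∈ axisStab T ((w, a) : G × A)
      rw [axisStab_prodAct]
      exact Subgroup.mem_prod.2 ⟨Subgroup.one_mem _, Subgroup.mem_top _⟩
    have hG : ∀ g ∈ axisGroup T w, ((g, 1) : G × A) ∈ axisGroup T ((w, a) : G × A) := by
      intro g hg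
      have h1 : axisGroup T w ≤ (axisGroup T ((w, a) : G × A)).comap (MonoidHom.inl G A) := by
        unfold axisGroup
        rw [Subgroup.closure_le]
        rintro x (hx | hx)
        · refine Subgroup.subset_closure (Or.inl ?_)
          show ((x, 1) : G × A) ∈ axisStab T ((w, a) : G × A)
          rw [axisStab_prodAct]
          exact Subgroup.mem_prod.2 ⟨hx, Subgroup.mem_top _⟩
        · have h2 : x = w := hx
          rw [h2]
          show ((w, 1) : G × A) ∈ axisGroup T ((w, a) : G × A)
          have h3 : ((w, 1) : G × A) = (w, a) * (1, a⁻¹) := by simp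
          rw [h3]
          exact Subgroup.mul_mem _ (Subgroup.subset_closure (Or.inr rfl)) (hA _)
      exact h1 hg
    rintro ⟨g, b⟩ hg
    rw [Subgroup.mem_prod] at hg
    have h3 : ((g, b) : G × A) = (g, 1) * (1, b) := by simp
    rw [h3]
    exact Subgroup.mul_mem _ (hG g hg.1) (hA b)

/-- `L.prod ⊤ ≃* L × A` -/
noncomputable def prodTopEquiv (L : Subgroup G) : (L.prod (⊤ : Subgroup A)) ≃* L × A :=
  (Subgroup.prodEquiv L ⊤).trans ((MulEquiv.refl L).prodCongr Subgroup.topEquiv)

theorem wh_prodTop {L : Subgroup G} (h : Subsingleton (BHS16.Wh (L × A))) :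
    Subsingleton (BHS16.Wh (L.prod (⊤ : Subgroup A))) :=
  (Ret.of_equiv (prodTopEquiv L)).wh h

theorem k0red_prodTop {L : Subgroup G} (h : Subsingleton (BHS16.K0Red (L × A))) :
    Subsingleton (BHS16.K0Red (L.prod (⊤ : Subgroup A))) :=
  k0red_equiv (prodTopEquiv L).symm h

theorem bddDrops_prod {Rg : Subgroup G → Prop} {Rg' : Subgroup (G × A) → Prop}
    (hR : ∀ L : Subgroup G, Rg L → Rg' (L.prod ⊤)) (h : BddDrops G T Rg) :
    BddDrops (G × A) T Rg' := by
  intro u v huv
  obtain ⟨n, hn⟩ := h u v huv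
  refine ⟨n, fun a b hab ha hb hk => ?_⟩
  obtain ⟨k, hk1, hk2⟩ := hn a b hab ha hb (fun k hk3 hk4 => by
    apply hk k hk3
    rw [stab_inf_prodAct]
    exact hR _ hk4)
  refine ⟨k, hk1, ?_⟩
  rw [stab_inf_prodAct, stab_inf_prodAct, hk2]

/-- the Whitehead group of `G × A`, relative to a family `Rg'` of subgroups of `G × A` -/
theorem wh_prod_rel (hT : TAct G T) {Rg : Subgroup G → Prop} {Rg' : Subgroup (G × A) → Prop}
    (hRg : RgOK Rg') (hR : ∀ L : Subgroup G, Rg L → Rg' (L.prod ⊤))
    (hbase : BaseOK.{max u v, w} Rg' (TU (G × A))) (hdrop : BddDrops G T Rg)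
    (hV : ∀ v : V, Subsingleton (BHS16.Wh (stabilizer G v × A)))
    (hE : ∀ a b : V, T.Adj a b →
      Subsingleton (BHS16.K0Red ((stabilizer G a ⊓ stabilizer G b : Subgroup G) × A)))
    (hL : ∀ g : G, (∀ v : V, g • v ≠ v) → ¬ Rg (axisStab T g) →
      Subsingleton (BHS16.Wh (axisGroup T g × A))) :
    Subsingleton (BHS16.Wh (G × A)) := by
  rw [BHS16.wh_subsingleton_iff]
  have hT' : TAct (G × A) T := tAct_prod hT
  have key : ∀ z : K1 (MonoidAlgebra ℤ (G × A)), z ∈ TU (G × A) := by
    intro z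
    refine tree_K1 hT' hRg le_rfl ?_ ?_ hbase ?_ ?_ z
    · intro v
      rw [stab_prodAct]
      exact imOK_of_wh le_rfl (wh_prodTop (hV v))
    · intro a b hab
      rw [stab_pair_prodAct]
      exact k0red_prodTop (hE a b hab)
    · refine linkOK_of_axis hT' ?_
      rintro ⟨g, a⟩ hg hRg'
      rw [axisGroup_prodAct]
      refine imOK_of_wh le_rfl (wh_prodTop (hL g hg (fun h => hRg' ?_)))
      rw [axisStab_prodAct]
      exact hR _ h
    · intro d hd
      exact deep_of_bdd hT' hRg (bddDrops_prod hR hdrop) d hd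
  intro x
  obtain ⟨z, rfl⟩ := toB_surjective x
  exact key z

end prod

/-! ### The case of the empty family -/

theorem rgOK_false {G : Type u} [Group G] : RgOK (fun _ : Subgroup G => False) :=
  ⟨fun _ _ h => h, fun _ _ _ h => h⟩

theorem baseOK_false {G : Type u} [Group G] (W : AddSubgroup (K1 (MonoidAlgebra ℤ G))) :
    BaseOK.{u, w} (fun _ : Subgroup G => False) W := by
  intro X _ r _ _ I _ _ x hx N _ _
  have hI : IsEmpty I := ⟨fun i => hx i⟩
  have h1 : (1 - N : Matrix I I (MonoidAlgebra ℤ G)) = 1 := Subsingleton.elim _ _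
  rw [h1, cm_one]
  exact W.zero_mem

/-! ### The low K-groups -/

/-- the low K-groups of `G × ℤ^k` vanish for all `k` -/
def StV (G : Type u) [Group G] : Prop :=
  ∀ k : ℕ, BHS16.LowKVanishing (G × (Fin k → Multiplicative ℤ))

/-- the Whitehead groups of `G × ℤ^k` vanish for all `k` -/
def WhZ (G : Type u) [Group G] : Prop :=
  ∀ k : ℕ, Subsingleton (BHS16.Wh (G × (Fin k → Multiplicative ℤ)))

theorem ret_int_cons {G : Type u} [Group G] (k : ℕ) :
    Ret ((G × Multiplicative ℤ) × (Fin k → Multiplicative ℤ))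
      (G × (Fin (k + 1) → Multiplicative ℤ)) := by
  refine ⟨
    { toFun := fun x => (x.1.1, Fin.cons x.1.2 x.2)
      map_one' := by
        refine Prod.ext rfl ?_
        funext a
        refine Fin.cases rfl (fun a => rfl) a
      map_mul' := fun x y => by
        refine Prod.ext rfl ?_
        funext a
        refine Fin.cases rfl (fun a => rfl) a },
    { toFun := fun z => ((z.1, z.2 0), fun a => z.2 a.succ)
      map_one' := rfl
      map_mul' := fun _ _ => rfl }, ?_⟩
  ext1 x
  rfl

theorem WhZ.int {G : Type u} [Group G] (h : WhZ G) : WhZ (G × Multiplicative ℤ) :=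
  fun k => (ret_int_cons k).wh (h (k + 1))

theorem WhZ.wh {G : Type u} [Group G] (h : WhZ G) : Subsingleton (BHS16.Wh G) :=
  (Ret.left (L := Fin 0 → Multiplicative ℤ)).wh (h 0)

theorem WhZ.k0Red {G : Type u} [Group G] (h : WhZ G) : Subsingleton (BHS16.K0Red G) :=
  BHS16.subsingleton_K0Red G h.int.wh

theorem WhZ.lowK {G : Type u} [Group G] (h : WhZ G) : BHS16.LowKVanishing G :=
  ⟨h.wh, h.k0Red, fun n => negK_class (fun G _ => WhZ G) (fun _ _ h => h.int)
    (fun _ _ h => h.k0Red) n G h⟩

theorem ret_pow_add {G : Type u} [Group G] (k : ℕ) : ∀ l : ℕ,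
    Ret ((G × (Fin k → Multiplicative ℤ)) × (Fin l → Multiplicative ℤ))
      (G × (Fin (k + l) → Multiplicative ℤ)) := by
  intro l
  refine ⟨
    { toFun := fun x => (x.1.1, Fin.append x.1.2 x.2)
      map_one' := by
        refine Prod.ext rfl ?_
        funext a
        refine Fin.addCases (fun i => ?_) (fun i => ?_) a
        · show Fin.append _ _ (Fin.castAdd l i) = 1
          rw [Fin.append_left]
          rfl
        · show Fin.append _ _ (Fin.natAdd k i) = 1
          rw [Fin.append_right]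
          rfl
      map_mul' := fun x y => by
        refine Prod.ext rfl ?_
        funext a
        show Fin.append (x.1.2 * y.1.2) (x.2 * y.2) a = Fin.append x.1.2 x.2 a *
          Fin.append y.1.2 y.2 a
        refine Fin.addCases (fun i => ?_) (fun i => ?_) a
        · rw [Fin.append_left, Fin.append_left, Fin.append_left]
          rfl
        · rw [Fin.append_right, Fin.append_right, Fin.append_right]
          rfl },
    { toFun := fun z => ((z.1, fun i => z.2 (Fin.castAdd l i)), fun i => z.2 (Fin.natAdd k i))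
      map_one' := rfl
      map_mul' := fun _ _ => rfl }, ?_⟩
  ext1 x
  refine Prod.ext (Prod.ext rfl ?_) ?_
  · funext i
    exact Fin.append_left _ _ i
  · funext i
    exact Fin.append_right _ _ i

theorem WhZ.pow {G : Type u} [Group G] (h : WhZ G) (k : ℕ) :
    WhZ (G × (Fin k → Multiplicative ℤ)) := fun l => (ret_pow_add k l).wh (h (k + l))

theorem stV_iff {G : Type u} [Group G] : StV G ↔ WhZ G :=
  ⟨fun h k => (h k).1, fun h k => (h.pow k).lowK⟩

end Pool.Agent.Lib.MP_16fe43_al
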