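import Pool.Agent.Lib.MP_16fe43_al.Defs

set_option autoImplicit false

/-!
# Negative K-groups, Whitehead groups, reduced projective class groups
-/

namespace Pool.Agent.Lib.BHS16

universe u v

open CategoryTheory

noncomputable section

/-- The inclusion `R[t] → R[t, t⁻¹]`. -/
def posIncl (R : Type u) [Ring R] : Polynomial R →+* LaurentPolynomial R :=
  Polynomial.toLaurent

/-- The ring homomorphism `R[t] → R[t, t⁻¹]` over `R` with `t ↦ t⁻¹`, which identifies `R[t]`
with `R[t⁻¹]`. -/
def negIncl (R : Type u) [Ring R] : Polynomial R →+* LaurentPolynomial R :=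
  (AddMonoidAlgebra.mapDomainRingHom R (negAddMonoidHom : ℤ →+ ℤ)).comp Polynomial.toLaurent

/-- The ring homomorphism `R[t, t⁻¹] → S[t, t⁻¹]` induced by `R → S`. -/
def laurentMap {R S : Type u} [Ring R] [Ring S] (f : R →+* S) :
    LaurentPolynomial R →+* LaurentPolynomial S :=
  AddMonoidAlgebra.mapRingHom ℤ f

theorem laurentMap_posIncl {R S : Type u} [Ring R] [Ring S] (f : R →+* S) :
    (laurentMap f).comp (posIncl R) = (posIncl S).comp (Polynomial.mapRingHom f) := by
  apply Polynomial.ringHom_ext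
  · intro r
    simp only [laurentMap, posIncl, RingHom.comp_apply, Polynomial.coe_mapRingHom,
      Polynomial.map_C, Polynomial.toLaurent_C]
    exact AddMonoidAlgebra.mapRingHom_single f 0 r
  · simp only [laurentMap, posIncl, RingHom.comp_apply, Polynomial.coe_mapRingHom,
      Polynomial.map_X, Polynomial.toLaurent_X]
    exact (AddMonoidAlgebra.mapRingHom_single f 1 1).trans (by rw [map_one]; rfl)

theorem laurentMap_neg {R S : Type u} [Ring R] [Ring S] (f : R →+* S) :
    (laurentMap f).comp (AddMonoidAlgebra.mapDomainRingHom R (negAddMonoidHom : ℤ →+ ℤ)) =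
      (AddMonoidAlgebra.mapDomainRingHom S (negAddMonoidHom : ℤ →+ ℤ)).comp (laurentMap f) := by
  have h : (((laurentMap f).comp (AddMonoidAlgebra.mapDomainRingHom R
      (negAddMonoidHom : ℤ →+ ℤ)) : LaurentPolynomial R →+* LaurentPolynomial S) :
        LaurentPolynomial R →+ LaurentPolynomial S) =
      (((AddMonoidAlgebra.mapDomainRingHom S (negAddMonoidHom : ℤ →+ ℤ)).comp (laurentMap f) :
        LaurentPolynomial R →+* LaurentPolynomial S) :
        LaurentPolynomial R →+ LaurentPolynomial S) := by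
    apply AddMonoidAlgebra.addMonoidHom_ext
    intro m r
    change AddMonoidAlgebra.mapRingHom ℤ f
        (AddMonoidAlgebra.mapDomain _ (AddMonoidAlgebra.single m r)) =
      AddMonoidAlgebra.mapDomain _ (AddMonoidAlgebra.mapRingHom ℤ f
        (AddMonoidAlgebra.single m r))
    rw [AddMonoidAlgebra.mapDomain_single, AddMonoidAlgebra.mapRingHom_single,
      AddMonoidAlgebra.mapRingHom_single, AddMonoidAlgebra.mapDomain_single]
  exact RingHom.ext fun x => DFunLike.congr_fun h x

theorem laurentMap_negIncl {R S : Type u} [Ring R] [Ring S] (f : R →+* S) :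
    (laurentMap f).comp (negIncl R) = (negIncl S).comp (Polynomial.mapRingHom f) := by
  unfold negIncl
  have h := laurentMap_posIncl f
  unfold posIncl at h
  rw [← RingHom.comp_assoc, laurentMap_neg, RingHom.comp_assoc, RingHom.comp_assoc, ← h]

/-- The functor `K₀` from rings to abelian groups. -/
def K0Functor : RingCat.{u} ⥤ AddCommGrpCat.{u} where
  obj R := AddCommGrpCat.of (K0 R)
  map f := AddCommGrpCat.ofHom (K0.map f.hom)
  map_id R := by ext x; exact K0.map_id x
  map_comp f g := by ext x; exact K0.map_comp g.hom f.hom x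

/-- The subgroup `F(R[t]) + F(R[t⁻¹])` of `F(R[t, t⁻¹])` (images under the inclusions), for a
functor `F` from rings to abelian groups. -/
def contractionSubgroup (F : RingCat.{u} ⥤ AddCommGrpCat.{u}) (R : RingCat.{u}) :
    AddSubgroup (F.obj (RingCat.of (LaurentPolynomial R))) :=
  (F.map (RingCat.ofHom (posIncl R))).hom.range ⊔ (F.map (RingCat.ofHom (negIncl R))).hom.range

theorem contractionSubgroup_map (F : RingCat.{u} ⥤ AddCommGrpCat.{u}) {R S : RingCat.{u}}
    (f : R ⟶ S) : contractionSubgroup F R ≤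
      (contractionSubgroup F S).comap (F.map (RingCat.ofHom (laurentMap f.hom))).hom := by
  unfold contractionSubgroup
  rw [sup_le_iff]
  constructor
  · rintro _ ⟨x, rfl⟩
    rw [AddSubgroup.mem_comap]
    apply AddSubgroup.mem_sup_left
    refine ⟨(F.map (RingCat.ofHom (Polynomial.mapRingHom f.hom))).hom x, ?_⟩
    rw [← AddCommGrpCat.comp_apply, ← AddCommGrpCat.comp_apply, ← F.map_comp, ← F.map_comp,
      ← RingCat.ofHom_comp, ← RingCat.ofHom_comp, laurentMap_posIncl]
  · rintro _ ⟨x, rfl⟩
    rw [AddSubgroup.mem_comap]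
    apply AddSubgroup.mem_sup_right
    refine ⟨(F.map (RingCat.ofHom (Polynomial.mapRingHom f.hom))).hom x, ?_⟩
    rw [← AddCommGrpCat.comp_apply, ← AddCommGrpCat.comp_apply, ← F.map_comp, ← F.map_comp,
      ← RingCat.ofHom_comp, ← RingCat.ofHom_comp, laurentMap_negIncl]

/-- Bass's contraction `LF` of a functor `F` from rings to abelian groups: `(LF)(R)` is the
cokernel of `F(R[t]) ⊕ F(R[t⁻¹]) → F(R[t, t⁻¹])`. -/
def contraction (F : RingCat.{u} ⥤ AddCommGrpCat.{u}) :
    RingCat.{u} ⥤ AddCommGrpCat.{u} where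
  obj R := AddCommGrpCat.of
    (F.obj (RingCat.of (LaurentPolynomial R)) ⧸ contractionSubgroup F R)
  map {R S} f := AddCommGrpCat.ofHom (QuotientAddGroup.map _ _
    (F.map (RingCat.ofHom (laurentMap f.hom))).hom (contractionSubgroup_map F f))
  map_id R := by
    have h : RingCat.ofHom (laurentMap (𝟙 R : R ⟶ R).hom) = 𝟙 _ := by
      apply RingCat.hom_ext
      exact AddMonoidAlgebra.mapRingHom_id
    ext x
    simp only [h, F.map_id]
    rfl
  map_comp {R S T} f g := by
    have h : RingCat.ofHom (laurentMap (f ≫ g).hom) =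
        RingCat.ofHom (laurentMap f.hom) ≫ RingCat.ofHom (laurentMap g.hom) := by
      apply RingCat.hom_ext
      exact AddMonoidAlgebra.mapRingHom_comp g.hom f.hom
    ext x
    simp only [h, F.map_comp]
    rfl

/-- The functors `K₋ₙ`: `KNeg 0 = K₀`, and `KNeg (n + 1)(R) = K₋₍ₙ₊₁₎(R)` is the cokernel of
`K₋ₙ(R[t]) ⊕ K₋ₙ(R[t⁻¹]) → K₋ₙ(R[t, t⁻¹])`. -/
def KNeg : ℕ → (RingCat.{u} ⥤ AddCommGrpCat.{u})
  | 0 => K0Functor
  | n + 1 => contraction (KNeg n)

/-- A group is torsion-free if only its identity has finite order. -/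
def TorsionFree (G : Type u) [Group G] : Prop := ∀ g : G, IsOfFinOrder g → g = 1

/-- The integral group ring `ℤG`. -/
abbrev IntGroupRing (G : Type u) [Group G] : Type u := MonoidAlgebra ℤ G

/-- The subgroup of `K₁(ℤG)` generated by the classes of the units `± g`, `g ∈ G`. -/
def trivialUnits (G : Type u) [Group G] : AddSubgroup (K1 (IntGroupRing G)) :=
  AddSubgroup.closure {x | ∃ (g : G) (ε : ℤˣ) (A : GL (Fin 1) (IntGroupRing G)),
    (A : Matrix (Fin 1) (Fin 1) (IntGroupRing G)) =
      Matrix.of (fun _ _ => MonoidAlgebra.single g (ε : ℤ)) ∧ x = K1.mk A}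

/-- The Whitehead group `Wh(G) = K₁(ℤG) / {± g}`. -/
def Wh (G : Type u) [Group G] : Type u := K1 (IntGroupRing G) ⧸ trivialUnits G

instance (G : Type u) [Group G] : AddCommGroup (Wh G) :=
  QuotientAddGroup.Quotient.addCommGroup (trivialUnits G)

/-- The reduced projective class group: the cokernel of `K₀(ℤ) → K₀(ℤG)`. -/
def K0Red (G : Type u) [Group G] : Type u :=
  K0 (IntGroupRing G) ⧸ (K0.map (Int.castRingHom (IntGroupRing G))).range

instance (G : Type u) [Group G] : AddCommGroup (K0Red G) :=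
  QuotientAddGroup.Quotient.addCommGroup (K0.map (Int.castRingHom (IntGroupRing G))).range

/-- The three vanishing statements for the group `G`: `Wh(G) = 0`, `K̃₀(ℤG) = 0` and
`K₋ₙ(ℤG) = 0` for all `n ≥ 1`. -/
def LowKVanishing (G : Type u) [Group G] : Prop :=
  Subsingleton (Wh G) ∧ Subsingleton (K0Red G) ∧
    ∀ n : ℕ, Subsingleton ((KNeg (n + 1)).obj (RingCat.of (IntGroupRing G)))

end

end Pool.Agent.Lib.BHS16
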