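import Pool.Agent.Lib.MP_16fe43_al.TreeF2

/-!
# The case of regular stabilizers of long segments
-/

set_option autoImplicit false

universe u v w

namespace Pool.Agent.Lib.MP_16fe43_al

open MulAction (stabilizer)

variable {G : Type u} [Group G] {V : Type w} [MulAction G V] {T : SimpleGraph V}

/-- an element without fixed vertex has an axis -/
theorem exists_mem_axis (hT : TAct G T) {g : G} (hg : ∀ v : V, g • v ≠ v) :
    ∃ v : V, v ∈ axis T g := by
  classical
  obtain ⟨v0⟩ := hT.tree.connected.nonempty
  -- a vertex with minimal displacement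
  obtain ⟨v, hv⟩ : ∃ v : V, ∀ v' : V, T.dist v (g • v) ≤ T.dist v' (g • v') := by
    have hne : (Set.range fun v : V => T.dist v (g • v)).Nonempty := ⟨_, v0, rfl⟩
    obtain ⟨v, hv⟩ := Nat.sInf_mem hne
    refine ⟨v, fun v' => ?_⟩
    have h1 : sInf (Set.range fun v : V => T.dist v (g • v)) ≤ T.dist v' (g • v') :=
      Nat.sInf_le ⟨v', rfl⟩
    exact le_trans (le_of_eq hv) h1
  refine ⟨v, ?_⟩
  show T.dist v (g • g • v) = 2 * T.dist v (g • v)
  -- the neighbour of `g v` towards `v`
  obtain ⟨b, hb, hb2⟩ := descent_exists hT.tree (u := v) (a := g • v) (fun h => hg v h.symm)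
  by_contra hne
  -- the neighbour of `g v` towards `g² v` is the same
  have hgg : T.dist (g • v) (g • g • v) = T.dist v (g • v) := dist_smul hT g v (g • v)
  obtain ⟨c, hc, hc2⟩ := descent_exists hT.tree (u := g • v) (a := v) (hg v)
  -- `g c` is the neighbour of `g v` towards `g² v`
  have hgc : T.Adj (g • v) (g • c) := hT.adj g v c hc
  have hgc2 : T.dist (g • g • v) (g • v) = T.dist (g • g • v) (g • c) + 1 := by
    have h1 : T.dist (g • g • v) (g • v) = T.dist (g • v) v := dist_smul hT g (g • v) v
    have h2 : T.dist (g • g • v) (g • c) = T.dist (g • v) c := dist_smul hT g (g • v) c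
    rw [h1, h2, hc2]
  have hbc : b = g • c := by
    by_contra hbc
    -- then the walk `v, ..., b, g v, g c, ..., g² v` is a geodesic
    apply hne
    have h1 : Bk T (b, g • v) (b, g • v) ∨ True := Or.inr trivial
    have hd : T.Adj (g • v) (g • c) := hgc
    -- side of `(g v, g c)` containing `g² v` : `dist (g² v) (g c) < dist (g² v) (g v)`
    have hs : Sd T (g • c, g • v) (g • g • v) := by
      show T.dist (g • g • v) (g • c) < T.dist (g • g • v) (g • v)
      omega
    have hbk : Bk T (g • v, b) (g • c, g • v) := ⟨hb, hgc.symm, rfl, fun h => hbc h.symm⟩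
    obtain ⟨h2, -, -⟩ := bk_sd hT.tree hbk hs
    have h3 : T.dist (g • g • v) (g • v) < T.dist (g • g • v) b := h2
    have h4 : T.dist b (g • g • v) = T.dist b (g • v) + T.dist (g • v) (g • g • v) := by
      have h5 : T.dist b (g • v) = 1 := by rw [SimpleGraph.dist_comm]; exact SimpleGraph.dist_eq_one_iff_adj.2 hb
      have h6 := dist_adj hT.tree (g • g • v) hb
      rw [T.dist_comm (u := b) (v := g • g • v), h5, T.dist_comm (u := g • v) (v := g • g • v)]
      omega
    have h7 : T.dist v (g • v) = T.dist v b + T.dist b (g • v) := by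
      have h5 : T.dist b (g • v) = 1 := by rw [SimpleGraph.dist_comm]; exact SimpleGraph.dist_eq_one_iff_adj.2 hb
      rw [h5, hb2]
    have h8 := between_glue hT.tree (a := v) (b := b) (c := g • v) (e := g • g • v)
      (fun h => T.loopless.irrefl _ (h ▸ hb)) h7 h4
    rw [h8, hgg, two_mul, h7]
  -- now `c` has smaller displacement, or `g` inverts an edge
  have h1 := hv c
  rw [← hbc] at h1
  have h2 : T.dist v (g • v) = T.dist c (g • v) + 1 := by
    rw [T.dist_comm (u := v) (v := g • v), hc2, T.dist_comm (u := g • v) (v := c)]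
  by_cases h3 : c = g • v
  · -- `g` inverts the edge `v, g v`
    refine hT.noinv g v c hc ⟨h3.symm, ?_⟩
    -- `b = v`
    have h4 : T.dist v (g • v) = 1 := by
      rw [← h3]; exact SimpleGraph.dist_eq_one_iff_adj.2 hc
    rw [h4] at hb2
    have h5 : T.dist v b = 0 := by omega
    rw [← hbc]
    exact ((hT.tree.connected.dist_eq_zero_iff).1 h5).symm
  · have h4 : T.dist c (g • v) ≠ 0 := fun h => h3 ((hT.tree.connected.dist_eq_zero_iff).1 h)
    -- `b` lies between `c` and `g v`
    obtain ⟨b', hb', hb2'⟩ := descent_exists hT.tree (u := c) (a := g • v) h3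
    have h5 : T.dist v b' + 1 = T.dist v (g • v) := by
      have h6 : T.dist v b' ≤ T.dist v c + T.dist c b' := hT.tree.connected.dist_triangle
      have h7 : T.dist v c = 1 := SimpleGraph.dist_eq_one_iff_adj.2 hc
      have h8 := dist_adj hT.tree v hb'
      omega
    have h6 : b' = b := descent_unique hT.tree hb' hb (by omega) hb2
    rw [h6] at hb2'
    omega

theorem smul_mem_axis (hT : TAct G T) {g : G} {v : V} (hv : v ∈ axis T g) : g • v ∈ axis T g := by
  show T.dist (g • v) (g • g • g • v) = 2 * T.dist (g • v) (g • g • v)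
  rw [dist_smul hT, dist_smul hT]
  exact hv

/-- points of a segment -/
theorem exists_between (hT : T.IsTree) (a b : V) (n : ℕ) (hn : n ≤ T.dist a b) :
    ∃ c, T.dist a c = n ∧ T.dist a b = T.dist a c + T.dist c b := by
  induction n with
  | zero => exact ⟨a, by simp, by simp⟩
  | succ n ih =>
    obtain ⟨c, hc, hcb⟩ := ih (by omega)
    have hne : b ≠ c := by
      rintro rfl
      rw [SimpleGraph.dist_self] at hcb
      omega
    obtain ⟨c', hc', hc2⟩ := descent_exists hT (u := b) (a := c) hne
    have h1 : T.dist c c' = 1 := SimpleGraph.dist_eq_one_iff_adj.2 hc'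
    have h2 : T.dist a c' ≤ T.dist a c + T.dist c c' := hT.connected.dist_triangle
    have h3 : T.dist a b ≤ T.dist a c' + T.dist c' b := hT.connected.dist_triangle
    rw [T.dist_comm (u := b) (v := c), T.dist_comm (u := b) (v := c')] at hc2
    exact ⟨c', by omega, by omega⟩

theorem stReg_of_long (hT : TAct G T) {n : ℕ}
    (hn : ∀ a b : V, T.dist a b = n → StReg (stabilizer G a ⊓ stabilizer G b : Subgroup G))
    {D : Subgroup G} {a b : V} (hD : D ≤ stabilizer G a ⊓ stabilizer G b)
    (hab : n ≤ T.dist a b) : StReg D := by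
  obtain ⟨c, hc, hcb⟩ := exists_between hT.tree a b n hab
  have h1 : D ≤ stabilizer G a ⊓ stabilizer G c :=
    le_inf (hD.trans inf_le_left) (hD.trans (stab_between hT hcb))
  exact StReg.of_injective (Subgroup.inclusion h1) (Subgroup.inclusion_injective h1) (hn a c hc)

/-- the translates of a point of the axis are on a line -/
theorem line_dist_axis (hT : TAct G T) {g : G} {z : V} (hz : z ∈ axis T g) (hgz : g • z ≠ z)
    (n : ℕ) : T.dist z (g ^ n • z) = n * T.dist z (g • z) ∧
      T.dist z (g ^ (n + 1) • z) = (n + 1) * T.dist z (g • z) := by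
  have hz' : T.dist z (g • g • z) = 2 * T.dist z (g • z) := hz
  induction n with
  | zero =>
    constructor
    · rw [pow_zero, one_smul, Nat.zero_mul, SimpleGraph.dist_self]
    · rw [zero_add, pow_one, one_mul]
  | succ n ih =>
    refine ⟨ih.2, ?_⟩
    have e1 : T.dist (g ^ n • z) (g ^ (n + 1) • z) = T.dist z (g • z) := by
      rw [pow_succ, mul_smul]
      exact dist_smul hT _ _ _
    have e2 : T.dist (g ^ (n + 1) • z) (g ^ (n + 1 + 1) • z) = T.dist z (g • z) := by
      rw [pow_succ g (n + 1), mul_smul (g ^ (n + 1))]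
      exact dist_smul hT _ _ _
    have e3 : T.dist (g ^ n • z) (g ^ (n + 1 + 1) • z) = 2 * T.dist z (g • z) := by
      rw [← hz']
      have : g ^ (n + 1 + 1) • z = g ^ n • g • g • z := by
        rw [pow_succ, pow_succ, mul_smul, mul_smul]
      rw [this]
      exact dist_smul hT _ _ _
    have hbc : g ^ n • z ≠ g ^ (n + 1) • z := by
      intro h
      rw [pow_succ, mul_smul] at h
      exact hgz ((smul_left_cancel _ h).symm)
    have h4 := between_glue hT.tree (a := z) (b := g ^ n • z) (c := g ^ (n + 1) • z)
      (e := g ^ (n + 1 + 1) • z) hbc (by rw [ih.1, ih.2, e1]; ring) (by rw [e1, e2, e3]; ring)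
    rw [h4, ih.1, e1, e2]
    ring

theorem dist_pow_axis (hT : TAct G T) {g : G} {v : V} (hv : v ∈ axis T g) (hg : g • v ≠ v)
    (k : ℕ) : T.dist v (g ^ (k + 1) • v) = (k + 1) * T.dist v (g • v) :=
  (line_dist_axis hT hv hg k).2

/-- If the stabilizers of the segments of length `n` are stably regular, then no condition on the
elements of `G` is needed. -/
theorem tree_long (hT : TAct G T) {n : ℕ}
    (hn : ∀ a b : V, T.dist a b = n → StReg (stabilizer G a ⊓ stabilizer G b : Subgroup G))
    (hV : ∀ v : V, StV (stabilizer G v))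
    (hE : ∀ a b : V, T.Adj a b → ∀ k : ℕ, Subsingleton (BHS16.K0Red
      ((stabilizer G a ⊓ stabilizer G b : Subgroup G) × (Fin k → Multiplicative ℤ)))) :
    StV G := by
  refine tree_stV hT ?_ hV hE ?_
  · intro u v huv
    refine ⟨n, fun a b hab ha hb hk => ?_⟩
    by_contra hcon
    push Not at hcon
    have key : ∀ k ≤ n, k + 1 ≤ T.dist (a k) (b k) := by
      intro k hk
      induction k with
      | zero =>
        rw [ha, hb]
        exact le_of_eq (SimpleGraph.dist_eq_one_iff_adj.2 huv).symm
      | succ k ih =>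
        have h1 := ih (by omega)
        have h2 := hab k
        have h3 := hcon k (by omega)
        by_contra h4
        have h5 : T.dist (a (k + 1)) (a k) = 0 := by omega
        have h6 : T.dist (b k) (b (k + 1)) = 0 := by omega
        have h7 := (hT.tree.connected.dist_eq_zero_iff).1 h5
        have h8 := (hT.tree.connected.dist_eq_zero_iff).1 h6
        rw [h7, ← h8] at h3
        exact h3 rfl
    exact hk n le_rfl (stReg_of_long hT hn le_rfl (by have := key n le_rfl; omega))
  · intro g hg hR
    exfalso
    obtain ⟨v, hv⟩ := exists_mem_axis hT hg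
    apply hR
    have hpos : T.dist v (g • v) ≠ 0 := fun h =>
      hg v ((hT.tree.connected.dist_eq_zero_iff).1 h).symm
    refine stReg_of_long (n := n) (a := v) (b := g ^ (n + 1) • v) hT hn ?_ ?_
    · intro x hx
      have hpow : ∀ k : ℕ, g ^ k • v ∈ axis T g := by
        intro k
        induction k with
        | zero => simpa using hv
        | succ k ih =>
          rw [pow_succ', mul_smul]
          exact smul_mem_axis hT ih
      exact ⟨hx v hv, hx _ (hpow (n + 1))⟩
    · rw [dist_pow_axis hT hv (hg v) n]
      calc n ≤ (n + 1) * 1 := by omega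
        _ ≤ (n + 1) * T.dist v (g • v) := Nat.mul_le_mul_left _ (Nat.pos_of_ne_zero hpos)

end Pool.Agent.Lib.MP_16fe43_al
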