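import Pool.Agent.Lib.MP_16fe43_al.TreeDefs

/-!
# Geometry of trees, part 1
-/

set_option autoImplicit false

universe u v w

namespace Pool.Agent.Lib.MP_16fe43_al

open MulAction (stabilizer)

variable {V : Type v} {T : SimpleGraph V}

/-- distances to the ends of an edge differ by one -/
theorem dist_adj (hT : T.IsTree) (u : V) {a b : V} (h : T.Adj a b) :
    T.dist u a = T.dist u b + 1 ∨ T.dist u b = T.dist u a + 1 :=
  hT.dist_eq_dist_add_one_of_adj u h

/-- the neighbour on the way to `u` is unique -/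
theorem descent_unique (hT : T.IsTree) {u a b b' : V} (h : T.Adj a b) (h' : T.Adj a b')
    (hb : T.dist u a = T.dist u b + 1) (hb' : T.dist u a = T.dist u b' + 1) : b = b' := by
  obtain ⟨p, hp⟩ := hT.connected.exists_walk_length_eq_dist b u
  obtain ⟨p', hp'⟩ := hT.connected.exists_walk_length_eq_dist b' u
  have h1 : (SimpleGraph.Walk.cons h p).IsPath := by
    apply SimpleGraph.Walk.isPath_of_length_eq_dist
    rw [SimpleGraph.Walk.length_cons, hp, T.dist_comm (u := b), T.dist_comm (u := a), hb]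
  have h2 : (SimpleGraph.Walk.cons h' p').IsPath := by
    apply SimpleGraph.Walk.isPath_of_length_eq_dist
    rw [SimpleGraph.Walk.length_cons, hp', T.dist_comm (u := b'), T.dist_comm (u := a), hb']
  have h3 : SimpleGraph.Walk.cons h p = SimpleGraph.Walk.cons h' p' :=
    (hT.existsUnique_path a u).unique h1 h2
  have h4 := congrArg (fun q : T.Walk a u => q.snd) h3
  simpa using h4

/-- there is a neighbour on the way to `u` -/
theorem descent_exists (hT : T.IsTree) {u a : V} (h : u ≠ a) :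
    ∃ b, T.Adj a b ∧ T.dist u a = T.dist u b + 1 := by
  obtain ⟨p, hp⟩ := hT.connected.exists_walk_length_eq_dist a u
  cases p with
  | nil => exact absurd rfl h
  | @cons _ b _ hab q =>
    refine ⟨b, hab, ?_⟩
    have h1 : T.dist b u ≤ q.length := SimpleGraph.dist_le q
    rw [SimpleGraph.Walk.length_cons] at hp
    rcases dist_adj hT u hab with h2 | h2
    · exact h2
    · rw [T.dist_comm (u := u) (v := b), T.dist_comm (u := u) (v := a)] at h2
      omega

theorem sd_iff (hT : T.IsTree) {d : V × V} (hd : T.Adj d.1 d.2) (u : V) :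
    Sd T d u ↔ T.dist u d.2 = T.dist u d.1 + 1 := by
  rcases dist_adj hT u hd with h | h <;> unfold Sd <;> omega

theorem not_sd_iff (hT : T.IsTree) {d : V × V} (hd : T.Adj d.1 d.2) (u : V) :
    ¬ Sd T d u ↔ T.dist u d.1 = T.dist u d.2 + 1 := by
  rcases dist_adj hT u hd with h | h <;> unfold Sd <;> omega

theorem sd_swap (hT : T.IsTree) {d : V × V} (hd : T.Adj d.1 d.2) (u : V) :
    Sd T d.swap u ↔ ¬ Sd T d u := by
  rw [not_sd_iff hT hd, sd_iff hT (d := d.swap) hd.symm, Prod.fst_swap, Prod.snd_swap]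

/-- an edge with ends on both sides of `d` is `d` -/
theorem eq_of_sd_not_sd (hT : T.IsTree) {d : V × V} (hd : T.Adj d.1 d.2) {a b : V}
    (h : T.Adj a b) (ha : Sd T d a) (hb : ¬ Sd T d b) : a = d.1 ∧ b = d.2 := by
  rw [sd_iff hT hd] at ha
  rw [not_sd_iff hT hd] at hb
  have h1 := dist_adj hT d.1 h
  have h2 := dist_adj hT d.2 h
  have c1 : T.dist d.1 a = T.dist a d.1 := T.dist_comm
  have c2 : T.dist d.1 b = T.dist b d.1 := T.dist_comm
  have c3 : T.dist d.2 a = T.dist a d.2 := T.dist_comm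
  have c4 : T.dist d.2 b = T.dist b d.2 := T.dist_comm
  have hb2 : T.dist b d.2 = T.dist a d.1 := by omega
  by_cases hn : d.1 = a
  · refine ⟨hn.symm, ?_⟩
    have h3 : T.dist b d.2 = 0 := by
      rw [hb2, ← hn, SimpleGraph.dist_self]
    exact (hT.connected.dist_eq_zero_iff).mp h3
  · exfalso
    obtain ⟨a', ha', h3⟩ := descent_exists hT hn
    have h4 := dist_adj hT d.2 ha'
    have h5 := dist_adj hT a' hd
    have c5 : T.dist d.1 a' = T.dist a' d.1 := T.dist_comm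
    have c6 : T.dist d.2 a' = T.dist a' d.2 := T.dist_comm
    have h6 : a' = b := by
      apply descent_unique hT (u := d.2) ha' h
      · omega
      · omega
    subst h6
    omega

/-- an edge is on one of the sides of `d`, or it is `d` -/
theorem ts_or (hT : T.IsTree) {d d' : V × V} (hd : T.Adj d.1 d.2) (hd' : T.Adj d'.1 d'.2) :
    TS T d d' ∨ HS T d d' ∨ d' = d ∨ d' = d.swap := by
  by_cases h1 : Sd T d d'.1
  · by_cases h2 : Sd T d d'.2
    · exact Or.inl ⟨hd, hd', h1, h2⟩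
    · obtain ⟨h3, h4⟩ := eq_of_sd_not_sd hT hd hd' h1 h2
      exact Or.inr (Or.inr (Or.inl (Prod.ext h3 h4)))
  · by_cases h2 : Sd T d d'.2
    · obtain ⟨h3, h4⟩ := eq_of_sd_not_sd hT hd hd'.symm h2 h1
      exact Or.inr (Or.inr (Or.inr (Prod.ext h4 h3)))
    · exact Or.inr (Or.inl ⟨hd, hd', h1, h2⟩)

theorem hs_iff_swap (hT : T.IsTree) (d d' : V × V) : HS T d d' ↔ TS T d.swap d' := by
  constructor
  · rintro ⟨h1, h2, h3, h4⟩
    exact ⟨h1.symm, h2, (sd_swap hT h1 _).2 h3, (sd_swap hT h1 _).2 h4⟩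
  · rintro ⟨h1, h2, h3, h4⟩
    have h1' : T.Adj d.1 d.2 := h1.symm
    exact ⟨h1', h2, (sd_swap hT h1' _).1 h3, (sd_swap hT h1' _).1 h4⟩

theorem ts_self (d : V × V) : ¬ TS T d d := by
  rintro ⟨_, _, _, h⟩
  unfold Sd at h
  rw [SimpleGraph.dist_self] at h
  exact Nat.not_lt_zero _ h

theorem ts_self_swap (d : V × V) : ¬ TS T d d.swap := by
  rintro ⟨_, _, h, _⟩
  unfold Sd at h
  rw [Prod.fst_swap, SimpleGraph.dist_self] at h
  exact Nat.not_lt_zero _ h

theorem ts_swap_left {d d' : V × V} : TS T d d'.swap ↔ TS T d d' := by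
  constructor
  · rintro ⟨h1, h2, h3, h4⟩
    exact ⟨h1, h2.symm, h4, h3⟩
  · rintro ⟨h1, h2, h3, h4⟩
    exact ⟨h1, h2.symm, h4, h3⟩

/-- vertices beyond a backward step -/
theorem bk_sd (hT : T.IsTree) {d d1 : V × V} (h : Bk T d d1) {u : V} (hu : Sd T d1 u) :
    Sd T d u ∧ u ≠ d.1 ∧ T.dist d.1 u = T.dist d1.1 u + 1 := by
  obtain ⟨h1, h2, h3, h4⟩ := h
  rw [sd_iff hT h2, h3] at hu
  have c1 : T.dist d.1 u = T.dist u d.1 := T.dist_comm
  have c2 : T.dist d1.1 u = T.dist u d1.1 := T.dist_comm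
  refine ⟨?_, ?_, by omega⟩
  · by_contra hc
    rw [not_sd_iff hT h1] at hc
    apply h4
    exact descent_unique hT (u := u) (a := d.1) (h3 ▸ h2.symm) h1 hu hc
  · rintro rfl
    rw [SimpleGraph.dist_self] at hu
    omega

theorem bk_ts (hT : T.IsTree) {d d1 d' : V × V} (h : Bk T d d1) (h' : TS T d1 d') :
    TS T d d' ∧ d'.1 ≠ d.1 ∧ d'.2 ≠ d.1 ∧
      T.dist d.1 d'.1 + T.dist d.1 d'.2 = T.dist d1.1 d'.1 + T.dist d1.1 d'.2 + 2 := by
  obtain ⟨_, h2, h3, h4⟩ := h'
  obtain ⟨a1, a2, a3⟩ := bk_sd hT h h3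
  obtain ⟨b1, b2, b3⟩ := bk_sd hT h h4
  exact ⟨⟨h.1, h2, a1, b1⟩, a2, b2, by omega⟩

/-- an edge on the side of the first end of `d` which contains this end -/
theorem ts_adj (hT : T.IsTree) {d d' : V × V} (h : TS T d d') (h1 : d'.1 = d.1 ∨ d'.2 = d.1) :
    (∃ w, d' = (w, d.1) ∧ Bk T d d') ∨ (∃ w, d' = (d.1, w) ∧ Bk T d (w, d.1)) := by
  obtain ⟨k1, k2, k3, k4⟩ := h
  rcases h1 with h1 | h1
  · right
    refine ⟨d'.2, Prod.ext h1 rfl, k1, ?_, rfl, ?_⟩
    · show T.Adj d'.2 d.1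
      rw [← h1]
      exact k2.symm
    · show d'.2 ≠ d.2
      intro h5
      rw [h5] at k4
      unfold Sd at k4
      rw [SimpleGraph.dist_self] at k4
      exact Nat.not_lt_zero _ k4
  · left
    refine ⟨d'.1, Prod.ext rfl h1, k1, k2, h1, ?_⟩
    intro h5
    rw [h5] at k3
    unfold Sd at k3
    rw [SimpleGraph.dist_self] at k3
    exact Nat.not_lt_zero _ k3

/-- an edge on the side of the first end of `d` which does not contain this end -/
theorem ts_far (hT : T.IsTree) {d d' : V × V} (h : TS T d d') (h1 : d'.1 ≠ d.1)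
    (h2 : d'.2 ≠ d.1) : ∃ d1, Bk T d d1 ∧ TS T d1 d' := by
  obtain ⟨k1, k2, k3, k4⟩ := h
  obtain ⟨w, hw, hw'⟩ := descent_exists hT (u := d'.1) (a := d.1) h1
  have hadj : T.Adj (w, d.1).1 (w, d.1).2 := hw.symm
  have hs : Sd T (w, d.1) d'.1 := by
    rw [sd_iff hT hadj]
    exact hw'
  have hwp : w ≠ d.2 := by
    rintro rfl
    rw [sd_iff hT k1] at k3
    omega
  refine ⟨(w, d.1), ⟨k1, hadj, rfl, hwp⟩, hadj, k2, hs, ?_⟩
  by_contra hc
  exact h2 (eq_of_sd_not_sd hT hadj k2 hs hc).2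

/-- different branches are disjoint -/
theorem bk_unique (hT : T.IsTree) {d d1 d2 : V × V} (h1 : Bk T d d1) (h2 : Bk T d d2) {u : V}
    (hu1 : Sd T d1 u) (hu2 : Sd T d2 u) : d1 = d2 := by
  obtain ⟨_, a2, a3, _⟩ := h1
  obtain ⟨_, b2, b3, _⟩ := h2
  rw [sd_iff hT a2, a3] at hu1
  rw [sd_iff hT b2, b3] at hu2
  have h3 : d1.1 = d2.1 :=
    descent_unique hT (u := u) (a := d.1) (a3 ▸ a2.symm) (b3 ▸ b2.symm) hu1 hu2
  exact Prod.ext h3 (a3.trans b3.symm)

section act

variable {G : Type u} [Group G] [MulAction G V]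

theorem dist_smul_le (hT : TAct G T) (g : G) (a b : V) :
    T.dist (g • a) (g • b) ≤ T.dist a b := by
  obtain ⟨p, hp⟩ := hT.tree.connected.exists_walk_length_eq_dist a b
  let f : T →g T := ⟨fun x => g • x, fun {x y} h => hT.adj g x y h⟩
  have h1 : T.dist (f a) (f b) ≤ (p.map f).length := SimpleGraph.dist_le _
  rw [SimpleGraph.Walk.length_map, hp] at h1
  exact h1

theorem dist_smul (hT : TAct G T) (g : G) (a b : V) : T.dist (g • a) (g • b) = T.dist a b := by
  apply le_antisymm (dist_smul_le hT g a b)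
  have h := dist_smul_le hT g⁻¹ (g • a) (g • b)
  rwa [inv_smul_smul, inv_smul_smul] at h

theorem adj_smul (hT : TAct G T) (g : G) (a b : V) : T.Adj (g • a) (g • b) ↔ T.Adj a b := by
  refine ⟨fun h => ?_, hT.adj g a b⟩
  have h1 := hT.adj g⁻¹ _ _ h
  rwa [inv_smul_smul, inv_smul_smul] at h1

theorem sd_smul (hT : TAct G T) (g : G) (d : V × V) (u : V) :
    Sd T (g • d) (g • u) ↔ Sd T d u := by
  unfold Sd
  rw [Prod.smul_fst, Prod.smul_snd, dist_smul hT, dist_smul hT]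

theorem rInv_sd (hT : TAct G T) : RInv G (Sd T) :=
  fun g d u h => (sd_smul hT g d u).2 h

theorem rInv_not_sd (hT : TAct G T) : RInv G (fun (d : V × V) (u : V) => ¬ Sd T d u) :=
  fun g d u h h' => h ((sd_smul hT g d u).1 h')

theorem rInv_ts (hT : TAct G T) : RInv G (TS T) := by
  rintro g d d' ⟨h1, h2, h3, h4⟩
  refine ⟨?_, ?_, ?_, ?_⟩
  · rw [Prod.smul_fst, Prod.smul_snd]
    exact hT.adj g _ _ h1
  · rw [Prod.smul_fst, Prod.smul_snd]
    exact hT.adj g _ _ h2
  · rw [Prod.smul_fst]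
    exact (sd_smul hT g d _).2 h3
  · rw [Prod.smul_snd]
    exact (sd_smul hT g d _).2 h4

theorem rInv_hs (hT : TAct G T) : RInv G (HS T) := by
  rintro g d d' ⟨h1, h2, h3, h4⟩
  refine ⟨?_, ?_, ?_, ?_⟩
  · rw [Prod.smul_fst, Prod.smul_snd]
    exact hT.adj g _ _ h1
  · rw [Prod.smul_fst, Prod.smul_snd]
    exact hT.adj g _ _ h2
  · rw [Prod.smul_fst, sd_smul hT g d]
    exact h3
  · rw [Prod.smul_snd, sd_smul hT g d]
    exact h4

theorem rInv_inc (hT : TAct G T) : RInv G (Inc T) := by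
  rintro g d u ⟨h1, h2⟩
  refine ⟨?_, ?_⟩
  · rw [Prod.smul_fst, Prod.smul_snd]
    exact hT.adj g _ _ h1
  · rw [Prod.smul_fst, Prod.smul_snd]
    rcases h2 with h2 | h2
    · exact Or.inl (by rw [h2])
    · exact Or.inr (by rw [h2])

theorem rInv_bk (hT : TAct G T) : RInv G (Bk T) := by
  rintro g d d' ⟨h1, h2, h3, h4⟩
  refine ⟨?_, ?_, ?_, ?_⟩
  · rw [Prod.smul_fst, Prod.smul_snd]
    exact hT.adj g _ _ h1
  · rw [Prod.smul_fst, Prod.smul_snd]
    exact hT.adj g _ _ h2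
  · rw [Prod.smul_snd, Prod.smul_fst, h3]
  · rw [Prod.smul_fst, Prod.smul_snd]
    intro h5
    exact h4 (MulAction.injective g h5)

end act

end Pool.Agent.Lib.MP_16fe43_al
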