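import Pool.Agent.Lib.MP_16fe43_al.TreeR1
import Pool.Agent.Lib.MP_16fe43_al.TreeK1

/-!
# Located resolutions
-/

set_option autoImplicit false

universe u v w

namespace Pool.Agent.Lib.MP_16fe43_al

open MulAction (stabilizer)
open Matrix (fromBlocks fromRows fromCols vecMul)

variable {G : Type u} [Group G] {X : Type w} [MulAction G X]

/-! ### `ℤ[G]` over `ℤ[L]` -/

/-- the component in the left coset `g L` -/
private noncomputable def cps (L : Subgroup G) (g : G) (a : MonoidAlgebra ℤ G) :
    MonoidAlgebra ℤ L :=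
  MonoidAlgebra.ofCoeff (a.coeff.comapDomain (fun l : L => g * (l : G))
    (fun _ _ _ _ h => Subtype.ext (mul_left_cancel h)))

private theorem cps_coeff (L : Subgroup G) (g : G) (a : MonoidAlgebra ℤ G) (l : L) :
    (cps L g a).coeff l = a.coeff (g * (l : G)) := rfl

private theorem cps_zero (L : Subgroup G) (g : G) : cps L g (0 : MonoidAlgebra ℤ G) = 0 := by
  ext l
  simp [cps_coeff]

private theorem cps_add (L : Subgroup G) (g : G) (a b : MonoidAlgebra ℤ G) :
    cps L g (a + b) = cps L g a + cps L g b := by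
  ext l
  simp [cps_coeff]

private theorem cps_sum {I : Type*} (L : Subgroup G) (g : G) (s : Finset I)
    (a : I → MonoidAlgebra ℤ G) : cps L g (∑ i ∈ s, a i) = ∑ i ∈ s, cps L g (a i) := by
  classical
  induction s using Finset.induction_on with
  | empty => simp [cps_zero]
  | insert i s hi ih => rw [Finset.sum_insert hi, Finset.sum_insert hi, cps_add, ih]

private theorem iota_coeff (L : Subgroup G) (b : MonoidAlgebra ℤ L) (x : G) (hx : x ∈ L) :
    (MonoidAlgebra.mapDomainRingHom ℤ L.subtype b).coeff x = b.coeff ⟨x, hx⟩ := by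
  rw [MonoidAlgebra.mapDomainRingHom_apply, MonoidAlgebra.coeff_mapDomain]
  exact Finsupp.mapDomain_apply L.subtype_injective b.coeff ⟨x, hx⟩

private theorem iota_coeff_notMem (L : Subgroup G) (b : MonoidAlgebra ℤ L) (x : G) (hx : x ∉ L) :
    (MonoidAlgebra.mapDomainRingHom ℤ L.subtype b).coeff x = 0 := by
  rw [MonoidAlgebra.mapDomainRingHom_apply, MonoidAlgebra.coeff_mapDomain]
  refine Finsupp.mapDomain_of_notMem_range _ _ ?_
  rintro ⟨y, rfl⟩
  exact hx y.2

private theorem cps_mul (L : Subgroup G) (g : G) (a : MonoidAlgebra ℤ G)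
    (b : MonoidAlgebra ℤ L) :
    cps L g (a * MonoidAlgebra.mapDomainRingHom ℤ L.subtype b) = cps L g a * b := by
  ext l
  rw [cps_coeff, MonoidAlgebra.coeff_mul_apply_right, MonoidAlgebra.coeff_mul_apply_right,
    MonoidAlgebra.mapDomainRingHom_apply, MonoidAlgebra.coeff_mapDomain]
  rw [Finsupp.sum_mapDomain_index (fun _ => by simp) (fun _ _ _ => by ring)]
  refine Finsupp.sum_congr fun l' _ => ?_
  rw [cps_coeff]
  congr 2
  simp [mul_assoc]

private theorem cps_vecMul (L : Subgroup G) {I J : Type*} [Fintype I] (g : G)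
    (v : I → MonoidAlgebra ℤ G) (A : Matrix I J (MonoidAlgebra ℤ L)) (j : J) :
    cps L g (vecMul v (A.map (MonoidAlgebra.mapDomainRingHom ℤ L.subtype)) j) =
      vecMul (fun i => cps L g (v i)) A j := by
  show cps L g (∑ i, v i * MonoidAlgebra.mapDomainRingHom ℤ L.subtype (A i j)) =
    ∑ i, cps L g (v i) * A i j
  rw [cps_sum]
  exact Finset.sum_congr rfl fun i _ => cps_mul L g (v i) (A i j)

private theorem eq_zero_of_cps (L : Subgroup G) {a : MonoidAlgebra ℤ G}
    (h : ∀ g, cps L g a = 0) : a = 0 := by
  ext x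
  have h1 : (cps L x a).coeff 1 = 0 := by rw [h x]; rfl
  rw [cps_coeff] at h1
  simpa using h1

private theorem vecMul_map_eq_zero_iff (L : Subgroup G) {I J : Type*} [Fintype I]
    (v : I → MonoidAlgebra ℤ G) (A : Matrix I J (MonoidAlgebra ℤ L)) :
    vecMul v (A.map (MonoidAlgebra.mapDomainRingHom ℤ L.subtype)) = 0 ↔
      ∀ g, vecMul (fun i => cps L g (v i)) A = 0 := by
  constructor
  · intro h g
    funext j
    rw [← cps_vecMul, h]
    exact cps_zero L g
  · intro h
    funext j
    refine eq_zero_of_cps L fun g => ?_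
    rw [cps_vecMul, h g]
    rfl

open Classical in
/-- the decomposition along the left cosets -/
private theorem cps_decomp (L : Subgroup G) (Q : Finset (G ⧸ L)) (a : MonoidAlgebra ℤ G)
    (hQ : ∀ x, a.coeff x ≠ 0 → (x : G ⧸ L) ∈ Q) :
    a = ∑ q ∈ Q, MonoidAlgebra.single q.out 1 *
      MonoidAlgebra.mapDomainRingHom ℤ L.subtype (cps L q.out a) := by
  ext x
  rw [MonoidAlgebra.coeff_sum, Finsupp.finsetSum_apply]
  have key : ∀ q : G ⧸ L, (MonoidAlgebra.single q.out (1 : ℤ) *
      MonoidAlgebra.mapDomainRingHom ℤ L.subtype (cps L q.out a)).coeff x =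
      if q = (x : G ⧸ L) then a.coeff x else 0 := by
    intro q
    rw [MonoidAlgebra.coeff_single_mul_apply, one_mul]
    by_cases hq : q = (x : G ⧸ L)
    · rw [if_pos hq]
      have hmem : q.out⁻¹ * x ∈ L := by
        rw [← QuotientGroup.eq, QuotientGroup.out_eq']
        exact hq
      rw [iota_coeff L _ _ hmem, cps_coeff]
      congr 1
      show q.out * (q.out⁻¹ * x) = x
      group
    · rw [if_neg hq]
      refine iota_coeff_notMem L _ _ fun hmem => hq ?_
      rw [← QuotientGroup.eq, QuotientGroup.out_eq'] at hmem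
      exact hmem
  rw [Finset.sum_congr rfl fun q _ => key q, Finset.sum_ite_eq']
  split_ifs with h
  · rfl
  · by_contra h2
    exact h (hQ x h2)

/-- exactness over `ℤ[L]` gives exactness over `ℤ[G]` -/
theorem rowExact_map (L : Subgroup G) {I J K : Type*} [Fintype I] [Fintype K]
    {B : Matrix K I (MonoidAlgebra ℤ L)} {A : Matrix I J (MonoidAlgebra ℤ L)}
    (h : RowExact B A) :
    RowExact (B.map (MonoidAlgebra.mapDomainRingHom ℤ L.subtype))
      (A.map (MonoidAlgebra.mapDomainRingHom ℤ L.subtype)) := by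
  classical
  intro v
  rw [vecMul_map_eq_zero_iff]
  constructor
  · intro hv
    have h1 : ∀ g, ∃ t : K → MonoidAlgebra ℤ L, (fun i => cps L g (v i)) = vecMul t B :=
      fun g => (h _).1 (hv g)
    choose t ht using h1
    set Q : Finset (G ⧸ L) := Finset.univ.biUnion fun i : I =>
      Finset.image (fun x : G => (QuotientGroup.mk x : G ⧸ L)) (v i).coeff.support with hQ
    refine ⟨fun k => ∑ q ∈ Q, MonoidAlgebra.single q.out 1 *
      MonoidAlgebra.mapDomainRingHom ℤ L.subtype (t q.out k), ?_⟩
    funext i
    have h2 := cps_decomp L Q (v i) (by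
      intro x hx
      rw [hQ, Finset.mem_biUnion]
      exact ⟨i, Finset.mem_univ i, Finset.mem_image.2 ⟨x, Finsupp.mem_support_iff.2 hx, rfl⟩⟩)
    rw [h2]
    show _ = ∑ k, (∑ q ∈ Q, MonoidAlgebra.single q.out 1 *
      MonoidAlgebra.mapDomainRingHom ℤ L.subtype (t q.out k)) *
        MonoidAlgebra.mapDomainRingHom ℤ L.subtype (B k i)
    simp only [Finset.sum_mul]
    rw [Finset.sum_comm]
    refine Finset.sum_congr rfl fun q _ => ?_
    have h3 : cps L q.out (v i) = ∑ k, t q.out k * B k i := congrFun (ht q.out) i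
    rw [h3, map_sum, Finset.mul_sum]
    refine Finset.sum_congr rfl fun k _ => ?_
    rw [map_mul, mul_assoc]
  · rintro ⟨t, rfl⟩ g
    refine (h _).2 ⟨fun k => cps L g (t k), ?_⟩
    funext i
    exact cps_vecMul L g t B i

theorem injective_map (L : Subgroup G) {I J : Type*} [Fintype I]
    {A : Matrix I J (MonoidAlgebra ℤ L)} (h : ∀ v : I → MonoidAlgebra ℤ L, vecMul v A = 0 → v = 0) :
    ∀ v : I → MonoidAlgebra ℤ G,
      vecMul v (A.map (MonoidAlgebra.mapDomainRingHom ℤ L.subtype)) = 0 → v = 0 := by
  intro v hv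
  rw [vecMul_map_eq_zero_iff] at hv
  funext i
  exact eq_zero_of_cps L fun g => congrFun (h _ (hv g)) i

private theorem hasRes_map {R : Type u} {S : Type v} [Ring R] [Ring S] (e : R ≃+* S) (k : ℕ) :
    ∀ (m n : ℕ) (A : Matrix (Fin m) (Fin n) R), HasRes R k m n A → HasRes S k m n (A.map e) := by
  have hvm : ∀ {a b : ℕ} (v : Fin a → S) (A : Matrix (Fin a) (Fin b) R),
      vecMul v (A.map e) = fun j => e (vecMul (fun i => e.symm (v i)) A j) := by
    intro a b v A
    funext j
    show ∑ i, v i * e (A i j) = e (∑ i, e.symm (v i) * A i j)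
    rw [map_sum]
    refine Finset.sum_congr rfl fun i _ => ?_
    rw [map_mul, e.apply_symm_apply]
  have hz : ∀ {a b : ℕ} (v : Fin a → S) (A : Matrix (Fin a) (Fin b) R),
      vecMul v (A.map e) = 0 ↔ vecMul (fun i => e.symm (v i)) A = 0 := by
    intro a b v A
    rw [hvm]
    constructor
    · intro h
      funext j
      have h1 : e (vecMul (fun i => e.symm (v i)) A j) = 0 := congrFun h j
      exact (map_eq_zero_iff e e.injective).1 h1
    · intro h
      funext j
      show e (vecMul (fun i => e.symm (v i)) A j) = 0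
      rw [h]
      exact map_zero e
  induction k with
  | zero =>
    intro m n A h v hv
    have h1 := h _ ((hz v A).1 hv)
    funext i
    have h2 : e.symm (v i) = 0 := congrFun h1 i
    exact (map_eq_zero_iff e.symm e.symm.injective).1 h2
  | succ k ih =>
    intro m n A h
    obtain ⟨a, B, hBA, hB⟩ := h
    refine ⟨a, B.map e, ?_, ih a m B hB⟩
    intro v
    rw [hz, hBA]
    constructor
    · rintro ⟨t, ht⟩
      refine ⟨fun k => e (t k), ?_⟩
      rw [hvm]
      funext i
      have h1 : e.symm (v i) = vecMul t B i := congrFun ht i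
      have h2 : (fun k => e.symm (e (t k))) = t := by funext k; exact e.symm_apply_apply _
      rw [h2, ← h1, e.apply_symm_apply]
    · rintro ⟨t, rfl⟩
      refine ⟨fun k => e.symm (t k), ?_⟩
      rw [hvm]
      funext i
      exact e.symm_apply_apply _

theorem qx_smul {g : G} {z : X} (h : QX G z) : QX G (g • z) := by
  intro m n A
  set e : MonoidAlgebra ℤ (stabilizer G z) ≃+* MonoidAlgebra ℤ (stabilizer G (g • z)) :=
    MonoidAlgebra.mapDomainRingEquiv ℤ (MulAction.stabilizerEquivStabilizer rfl) with he
  obtain ⟨k, hk⟩ := h m n (A.map e.symm)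
  refine ⟨k, ?_⟩
  have h1 := hasRes_map e k m n _ hk
  have h2 : (A.map e.symm).map e = A := by
    ext i j : 2
    exact congrArg MonoidAlgebra.coeff (e.apply_symm_apply (A i j))
  rwa [h2] at h1

/-! ### Located resolutions -/

private theorem lres_congr {k : ℕ} {I J J' : Type u} [Fintype I] [DecidableEq I] {x : I → X}
    {A : Matrix I J (MonoidAlgebra ℤ G)} {A' : Matrix I J' (MonoidAlgebra ℤ G)}
    (h : ∀ v : I → MonoidAlgebra ℤ G, vecMul v A = 0 ↔ vecMul v A' = 0)
    (h' : LRes G k I J x A) : LRes G k I J' x A' := by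
  cases k with
  | zero => exact fun v hv => h' v ((h v).2 hv)
  | succ k =>
    obtain ⟨K, _, _, z, B, hz, hB, hex, hres⟩ := h'
    exact ⟨K, _, _, z, B, hz, hB, fun v => (h v).symm.trans (hex v), hres⟩

private theorem lres_succ {k : ℕ} : ∀ {I J : Type u} [Fintype I] [DecidableEq I] {x : I → X}
    {A : Matrix I J (MonoidAlgebra ℤ G)}, LRes G k I J x A → LRes G (k + 1) I J x A := by
  induction k with
  | zero =>
    intro I J _ _ x A h
    refine ⟨PEmpty, inferInstance, inferInstance, fun k => k.elim, fun k _ => k.elim,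
      fun k => k.elim, fun k _ _ _ => k.elim, ?_, ?_⟩
    · intro v
      constructor
      · intro hv
        refine ⟨fun k => k.elim, ?_⟩
        rw [h v hv]
        funext i
        simp [vecMul, dotProduct]
      · rintro ⟨t, rfl⟩
        have h1 : vecMul t (fun (k : PEmpty) (_ : I) => (k.elim : MonoidAlgebra ℤ G)) = 0 := by
          funext i
          simp [vecMul, dotProduct]
        rw [h1]
        exact Matrix.zero_vecMul A
    · intro v _
      funext k
      exact k.elim
  | succ k ih =>
    intro I J _ _ x A h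
    obtain ⟨K, _, _, z, B, hz, hB, hex, hres⟩ := h
    exact ⟨K, _, _, z, B, hz, hB, hex, ih hres⟩

private theorem lres_mono {k k' : ℕ} (hk : k ≤ k') {I J : Type u} [Fintype I] [DecidableEq I]
    {x : I → X} {A : Matrix I J (MonoidAlgebra ℤ G)} (h : LRes G k I J x A) :
    LRes G k' I J x A := by
  induction hk with
  | refl => exact h
  | step _ ih => exact lres_succ ih

/-- a resolution over the group ring of the stabilizer gives a located resolution -/
private theorem lres_of_hasRes (s : X) (hs : QX G s) (k : ℕ) : ∀ (m n : ℕ)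
    (A0 : Matrix (Fin m) (Fin n) (MonoidAlgebra ℤ (stabilizer G s))), HasRes _ k m n A0 →
    ∀ (I J : Type u) [Fintype I] [DecidableEq I] (e : I ≃ Fin m) (g : I → G)
      (A : Matrix I J (MonoidAlgebra ℤ G)),
      (∀ v : I → MonoidAlgebra ℤ G, vecMul v A = 0 ↔
        vecMul (fun i => v (e.symm i) * MonoidAlgebra.single (g (e.symm i)) 1)
          (A0.map (MonoidAlgebra.mapDomainRingHom ℤ (stabilizer G s).subtype)) = 0) →
      LRes G k I J (fun i => g i • s) A := by
  induction k with
  | zero =>
    intro m n A0 h I J _ _ e g A hA v hv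
    have h1 := injective_map _ h _ ((hA v).1 hv)
    funext i
    have h2 := congrFun h1 (e i)
    simp only [Equiv.symm_apply_apply] at h2
    have h3 : v i = v i * MonoidAlgebra.single (g i) 1 * MonoidAlgebra.single (g i)⁻¹ 1 := by
      rw [mul_assoc, MonoidAlgebra.single_mul_single, mul_inv_cancel, mul_one,
        ← MonoidAlgebra.one_def, mul_one]
    rw [h3, h2]
    exact zero_mul _
  | succ k ih =>
    intro m n A0 h I J _ _ e g A hA
    obtain ⟨a, B0, hBA, hB⟩ := h
    set iota := MonoidAlgebra.mapDomainRingHom ℤ (stabilizer G s).subtype with hiota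
    set B : Matrix (ULift.{u} (Fin a)) I (MonoidAlgebra ℤ G) := fun k i =>
      iota (B0 k.down (e i)) * MonoidAlgebra.single (g i)⁻¹ 1 with hBdef
    have hBv : ∀ (t : ULift.{u} (Fin a) → MonoidAlgebra ℤ G) (i : I), vecMul t B i =
        vecMul (fun k => t (ULift.up k)) (B0.map iota) (e i) *
          MonoidAlgebra.single (g i)⁻¹ 1 := by
      intro t i
      show ∑ k : ULift.{u} (Fin a), t k * (iota (B0 k.down (e i)) *
        MonoidAlgebra.single (g i)⁻¹ 1) = (∑ k : Fin a, t (ULift.up k) * iota (B0 k (e i))) *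
          MonoidAlgebra.single (g i)⁻¹ 1
      rw [Finset.sum_mul, ← Equiv.ulift.symm.sum_comp]
      refine Finset.sum_congr rfl fun k _ => ?_
      rw [mul_assoc]
      rfl
    have hun : ∀ (b : MonoidAlgebra ℤ G) (i : I), b * MonoidAlgebra.single (g i) 1 *
        MonoidAlgebra.single (g i)⁻¹ 1 = b := by
      intro b i
      rw [mul_assoc, MonoidAlgebra.single_mul_single, mul_inv_cancel, mul_one,
        ← MonoidAlgebra.one_def, mul_one]
    have hun' : ∀ (b : MonoidAlgebra ℤ G) (i : I), b * MonoidAlgebra.single (g i)⁻¹ 1 *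
        MonoidAlgebra.single (g i) 1 = b := by
      intro b i
      rw [mul_assoc, MonoidAlgebra.single_mul_single, inv_mul_cancel, mul_one,
        ← MonoidAlgebra.one_def, mul_one]
    refine ⟨ULift.{u} (Fin a), inferInstance, inferInstance, fun _ => (1 : G) • s, B, ?_, ?_, ?_,
      ?_⟩
    · intro _
      rw [one_smul]
      exact hs
    · intro k i h hh
      show h • g i • s = (1 : G) • s
      rw [hBdef] at hh
      have hh2 : (iota (B0 k.down (e i)) * MonoidAlgebra.single (g i)⁻¹ (1 : ℤ)).coeff h ≠ 0 := hh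
      rw [MonoidAlgebra.coeff_mul_single_apply, mul_one, inv_inv] at hh2
      by_cases hm : h * g i ∈ stabilizer G s
      · rw [one_smul, ← mul_smul]
        exact hm
      · exact absurd (iota_coeff_notMem _ _ _ hm) hh2
    · intro v
      rw [hA, rowExact_map _ hBA]
      constructor
      · rintro ⟨t, ht⟩
        refine ⟨fun k => t k.down, ?_⟩
        funext i
        rw [hBv]
        have h1 := congrFun ht (e i)
        simp only [Equiv.symm_apply_apply] at h1
        have h2 : (fun k : Fin a => t (ULift.up.{u} k).down) = t := rfl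
        rw [h2, ← h1, hun]
      · rintro ⟨t, rfl⟩
        refine ⟨fun k => t (ULift.up k), ?_⟩
        funext j
        show vecMul t B (e.symm j) * _ = _
        rw [hBv, hun', Equiv.apply_symm_apply]
    · refine ih a m B0 hB (ULift.{u} (Fin a)) I Equiv.ulift (fun _ => 1) B ?_
      intro t
      have h1 : (fun i : Fin a => t (Equiv.ulift.symm i) *
          MonoidAlgebra.single (1 : G) (1 : ℤ)) = fun k => t (ULift.up k) := by
        funext k
        rw [← MonoidAlgebra.one_def, mul_one]
        rfl
      rw [h1]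
      constructor
      · intro h
        funext j
        have h2 := congrFun h (e.symm j)
        rw [hBv, Equiv.apply_symm_apply] at h2
        have h3 := hun' (vecMul (fun k => t (ULift.up k)) (B0.map iota) j) (e.symm j)
        rw [h2] at h3
        rw [← h3]
        exact zero_mul _
      · intro h
        funext i
        rw [hBv, h]
        exact zero_mul _

/-- direct sums of located resolutions -/
private theorem lres_sigma (T : Type u) [Fintype T] [DecidableEq T] (k : ℕ) :
    ∀ (I J : T → Type u) [∀ t, Fintype (I t)] [∀ t, DecidableEq (I t)] (x : ∀ t, I t → X)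
      (A : ∀ t, Matrix (I t) (J t) (MonoidAlgebra ℤ G)),
      (∀ t, LRes G k (I t) (J t) (x t) (A t)) →
      ∀ (I0 J0 : Type u) [Fintype I0] [DecidableEq I0] (f : I0 ≃ Σ t, I t)
        (A0 : Matrix I0 J0 (MonoidAlgebra ℤ G)),
        (∀ v : I0 → MonoidAlgebra ℤ G, vecMul v A0 = 0 ↔
          ∀ t, vecMul (fun i : I t => v (f.symm ⟨t, i⟩)) (A t) = 0) →
        LRes G k I0 J0 (fun i => x (f i).1 (f i).2) A0 := by
  induction k with
  | zero =>
    intro I J _ _ x A h I0 J0 _ _ f A0 hA v hv
    have h1 := (hA v).1 hv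
    funext i
    have h2 := congrFun (h (f i).1 _ (h1 (f i).1)) (f i).2
    simpa using h2
  | succ k ih =>
    intro I J _ _ x A h I0 J0 _ _ f A0 hA
    choose K iF iD z B hz hB hex hres using h
    set B0 : Matrix (Σ t, K t) I0 (MonoidAlgebra ℤ G) := fun p i =>
      Matrix.blockDiagonal' B p (f i) with hB0
    have hBv : ∀ (s : (Σ t, K t) → MonoidAlgebra ℤ G) (t : T) (i : I t),
        vecMul s B0 (f.symm ⟨t, i⟩) = vecMul (fun k : K t => s ⟨t, k⟩) (B t) i := by
      intro s t i
      show ∑ p : (Σ t, K t), s p * Matrix.blockDiagonal' B p (f (f.symm ⟨t, i⟩)) =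
        ∑ k : K t, s ⟨t, k⟩ * B t k i
      rw [Equiv.apply_symm_apply, Fintype.sum_sigma, Finset.sum_eq_single t]
      · refine Finset.sum_congr rfl fun k _ => ?_
        rw [Matrix.blockDiagonal'_apply_eq]
      · intro t' _ ht
        refine Finset.sum_eq_zero fun k _ => ?_
        rw [Matrix.blockDiagonal'_apply_ne _ _ _ ht, mul_zero]
      · intro ht
        exact absurd (Finset.mem_univ t) ht
    refine ⟨Σ t, K t, inferInstance, inferInstance, fun p => z p.1 p.2, B0, fun p => hz p.1 p.2,
      ?_, ?_, ?_⟩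
    · rintro ⟨t, k⟩ i h hh
      by_cases ht : t = (f i).1
      · subst ht
        have h1 : B0 ⟨(f i).1, k⟩ i = B (f i).1 k (f i).2 :=
          Matrix.blockDiagonal'_apply_eq B (f i).1 k (f i).2
        rw [h1] at hh
        exact hB (f i).1 k (f i).2 h hh
      · have h1 : B0 ⟨t, k⟩ i = 0 := Matrix.blockDiagonal'_apply_ne B k (f i).2 ht
        rw [h1] at hh
        exact absurd rfl hh
    · intro v
      rw [hA]
      constructor
      · intro h
        choose s hs using fun t => (hex t _).1 (h t)
        refine ⟨fun p => s p.1 p.2, ?_⟩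
        funext i
        have h1 := hBv (fun p => s p.1 p.2) (f i).1 (f i).2
        have h2 : f.symm ⟨(f i).1, (f i).2⟩ = i := f.symm_apply_apply i
        rw [h2] at h1
        rw [h1]
        have h3 := congrFun (hs (f i).1) (f i).2
        rw [← h3]
        show v i = v (f.symm ⟨(f i).1, (f i).2⟩)
        rw [h2]
      · rintro ⟨s, rfl⟩ t
        refine (hex t _).2 ⟨fun k => s ⟨t, k⟩, ?_⟩
        funext i
        exact hBv s t i
    · refine ih K I z B hres (Σ t, K t) I0 (Equiv.refl _) B0 ?_
      intro s
      constructor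
      · intro h t
        funext i
        have h1 := hBv s t i
        rw [h] at h1
        exact h1.symm
      · intro h
        funext i
        have h1 := hBv s (f i).1 (f i).2
        have h2 : f.symm ⟨(f i).1, (f i).2⟩ = i := f.symm_apply_apply i
        rw [h2] at h1
        rw [h1]
        exact congrFun (h (f i).1) (f i).2

/-- a located matrix has a located resolution -/
theorem exists_lres {I J : Type u} [Fintype I] [DecidableEq I] [Fintype J] (x : I → X)
    (hx : ∀ i, QX G (x i)) (y : J → X) (A : Matrix I J (MonoidAlgebra ℤ G))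
    (hA : Moves (fun a b => b = a) x y A) : ∃ k, LRes G k I J x A := by
  classical
  -- representatives of the orbits of the locations
  let st : Setoid I := ⟨fun i j => ∃ g : G, g • x j = x i, ⟨fun i => ⟨1, one_smul _ _⟩,
    fun {i j} ⟨g, hg⟩ => ⟨g⁻¹, by rw [← hg, inv_smul_smul]⟩,
    fun {i j l} ⟨g, hg⟩ ⟨g', hg'⟩ => ⟨g * g', by rw [mul_smul, hg', hg]⟩⟩⟩
  let c : I → I := fun i => (Quotient.mk st i).out
  have hc : ∀ i, ∃ g : G, g • x (c i) = x i := fun i =>
    Setoid.symm (Quotient.exact (Quotient.out_eq (Quotient.mk st i)))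
  choose g hg using hc
  -- the columns
  have hk : ∀ (t : I) (j : J), ∃ k : G, (∃ k' : G, k' • x t = y j) → k • x t = y j := by
    intro t j
    by_cases h : ∃ k' : G, k' • x t = y j
    · obtain ⟨k, hk⟩ := h
      exact ⟨k, fun _ => hk⟩
    · exact ⟨1, fun h' => absurd h' h⟩
  choose kk hkk using hk
  -- the blocks
  have hblock : ∀ t : I, ∃ k, LRes G k {i // c i = t} J (fun i => g i.1 • x t)
      (fun i j => A i.1 j) := by
    intro t
    obtain ⟨A1, hA1⟩ := exists_lift (stabilizer G (x t))
      (fun (i : {i // c i = t}) (j : J) => MonoidAlgebra.single (g i.1)⁻¹ (1 : ℤ) * A i.1 j *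
        MonoidAlgebra.single (kk t j) (1 : ℤ)) (by
        rintro ⟨i, rfl⟩ j h hh
        have hh2 : (MonoidAlgebra.single (g i)⁻¹ (1 : ℤ) * A i j *
          MonoidAlgebra.single (kk (c i) j) (1 : ℤ)).coeff h ≠ 0 := hh
        rw [MonoidAlgebra.coeff_mul_single_apply, MonoidAlgebra.coeff_single_mul_apply, mul_one,
          one_mul, inv_inv] at hh2
        have h1 : (g i * (h * (kk (c i) j)⁻¹)) • y j = x i := hA i j _ hh2
        have h2 : kk (c i) j • x (c i) = y j := hkk (c i) j
          ⟨(g i * (h * (kk (c i) j)⁻¹))⁻¹ * g i, by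
            rw [mul_smul _ (g i), hg, ← h1, inv_smul_smul]⟩
        rw [← h2, ← mul_smul] at h1
        have h3 : g i * (h * (kk (c i) j)⁻¹) * kk (c i) j = g i * h := by group
        rw [h3, ← hg i, mul_smul] at h1
        exact MulAction.injective (g i) h1)
    set e := Fintype.equivFin {i // c i = t} with he
    set e' := Fintype.equivFin J with he'
    obtain ⟨k, hk⟩ := hx t (Fintype.card {i // c i = t}) (Fintype.card J)
      (A1.submatrix e.symm e'.symm)
    refine ⟨k, lres_of_hasRes (x t) (hx t) k _ _ _ hk {i // c i = t} J e (fun i => g i.1) _ ?_⟩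
    intro v
    have key : ∀ j : J, vecMul (fun i => v (e.symm i) * MonoidAlgebra.single (g (e.symm i).1) 1)
        ((A1.submatrix e.symm e'.symm).map
          (MonoidAlgebra.mapDomainRingHom ℤ (stabilizer G (x t)).subtype)) (e' j) =
        vecMul v (fun (i : {i // c i = t}) j => A i.1 j) j *
          MonoidAlgebra.single (kk t j) (1 : ℤ) := by
      intro j
      show ∑ i, v (e.symm i) * MonoidAlgebra.single (g (e.symm i).1) 1 *
        (MonoidAlgebra.mapDomainRingHom ℤ (stabilizer G (x t)).subtype
          (A1 (e.symm i) (e'.symm (e' j)))) = (∑ i : {i // c i = t}, v i * A i.1 j) *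
            MonoidAlgebra.single (kk t j) (1 : ℤ)
      rw [Finset.sum_mul, ← e.symm.sum_comp]
      refine Finset.sum_congr rfl fun i _ => ?_
      rw [e'.symm_apply_apply]
      have h1 : MonoidAlgebra.mapDomainRingHom ℤ (stabilizer G (x t)).subtype
          (A1 (e.symm i) j) = MonoidAlgebra.single (g (e.symm i).1)⁻¹ (1 : ℤ) *
            A (e.symm i).1 j * MonoidAlgebra.single (kk t j) (1 : ℤ) :=
        congrFun (congrFun hA1 (e.symm i)) j
      rw [h1, mul_assoc (v (e.symm i)), ← mul_assoc (MonoidAlgebra.single (g (e.symm i).1) 1),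
        ← mul_assoc (MonoidAlgebra.single (g (e.symm i).1) 1), MonoidAlgebra.single_mul_single,
        mul_inv_cancel, mul_one, ← MonoidAlgebra.one_def, one_mul, ← mul_assoc]
    constructor
    · intro h
      funext j'
      have h1 := key (e'.symm j')
      rw [Equiv.apply_symm_apply, h] at h1
      rw [h1]
      exact zero_mul _
    · intro h
      funext j
      have h1 := key j
      rw [h] at h1
      have h2 : vecMul v (fun (i : {i // c i = t}) j => A i.1 j) j =
          vecMul v (fun (i : {i // c i = t}) j => A i.1 j) j *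
            MonoidAlgebra.single (kk t j) (1 : ℤ) * MonoidAlgebra.single (kk t j)⁻¹ (1 : ℤ) := by
        rw [mul_assoc, MonoidAlgebra.single_mul_single, mul_inv_cancel, mul_one,
          ← MonoidAlgebra.one_def, mul_one]
      rw [h2, ← h1]
      exact zero_mul _
  choose kb hkb using hblock
  refine ⟨Finset.univ.sup kb, ?_⟩
  have h1 := lres_sigma (X := X) I (Finset.univ.sup kb) (fun t => {i // c i = t}) (fun _ => J)
    (fun t i => g i.1 • x t) (fun t i j => A i.1 j)
    (fun t => lres_mono (Finset.le_sup (Finset.mem_univ t)) (hkb t)) I J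
    (Equiv.sigmaFiberEquiv c).symm A ?_
  · have h2 : (fun i : I => g ((Equiv.sigmaFiberEquiv c).symm i).2.1 •
        x ((Equiv.sigmaFiberEquiv c).symm i).1) = x := by
      funext i
      exact hg i
    rwa [h2] at h1
  · intro v
    have hsum : ∀ j, vecMul v A j = ∑ t, ∑ i : {i // c i = t}, v i.1 * A i.1 j := by
      intro j
      show ∑ i, v i * A i j = _
      rw [← (Equiv.sigmaFiberEquiv c).sum_comp, Fintype.sum_sigma]
      rfl
    have hcc : ∀ (i i' : I) (j : J), A i j ≠ 0 → A i' j ≠ 0 → c i = c i' := by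
      have hex : ∀ (i : I) (j : J), A i j ≠ 0 → ∃ h : G, h • y j = x i := by
        intro i j h0
        by_contra hno
        apply h0
        apply MonoidAlgebra.coeff_injective
        ext h
        by_contra h2
        exact hno ⟨h, hA i j h (by simpa using h2)⟩
      intro i i' j h1 h2
      obtain ⟨a, ha⟩ := hex i j h1
      obtain ⟨b, hb⟩ := hex i' j h2
      have h3 : Quotient.mk st i = Quotient.mk st i' :=
        Quotient.sound ⟨a * b⁻¹, by rw [mul_smul, ← hb, inv_smul_smul, ha]⟩
      show (Quotient.mk st i).out = (Quotient.mk st i').out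
      rw [h3]
    constructor
    · intro h t
      funext j
      show ∑ i : {i // c i = t}, v i.1 * A i.1 j = 0
      by_cases h0 : ∃ i0 : {i // c i = t}, A i0.1 j ≠ 0
      · obtain ⟨⟨i0, hi0⟩, h1⟩ := h0
        have h2 := hsum j
        rw [h, Finset.sum_eq_single t] at h2
        · exact h2.symm
        · intro t' _ ht'
          refine Finset.sum_eq_zero ?_
          rintro ⟨i, hi⟩ _
          by_cases h3 : A i j = 0
          · show v i * A i j = 0
            rw [h3, mul_zero]
          · exact absurd (hi.symm.trans ((hcc i i0 j h3 h1).trans hi0)) ht'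
        · intro ht
          exact absurd (Finset.mem_univ t) ht
      · push Not at h0
        refine Finset.sum_eq_zero fun i _ => ?_
        rw [h0 i, mul_zero]
    · intro h
      funext j
      rw [hsum j]
      refine Finset.sum_eq_zero fun t _ => ?_
      exact congrFun (h t) j

end Pool.Agent.Lib.MP_16fe43_al
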