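import Pool.Agent.Lib.MP_16fe43_al.TreeBase

/-!
# Definitions for groups acting on trees
-/

set_option autoImplicit false

universe u v w

namespace Pool.Agent.Lib.MP_16fe43_al

open MulAction (stabilizer)

section tree

variable {V : Type v}

/-- the hypotheses on the action of `G` on the tree `T` (no inversions) -/
structure TAct (G : Type u) [Group G] [MulAction G V] (T : SimpleGraph V) : Prop where
  tree : T.IsTree
  adj : ∀ (g : G) (u v : V), T.Adj u v → T.Adj (g • u) (g • v)
  noinv : ∀ (g : G) (u v : V), T.Adj u v → ¬ (g • u = v ∧ g • v = u)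

/-- `u` lies on the side of the first end of `d` -/
def Sd (T : SimpleGraph V) (d : V × V) (u : V) : Prop := T.dist u d.1 < T.dist u d.2

/-- `d'` lies on the side of the first end of `d` (both ends) -/
def TS (T : SimpleGraph V) (d d' : V × V) : Prop :=
  T.Adj d.1 d.2 ∧ T.Adj d'.1 d'.2 ∧ Sd T d d'.1 ∧ Sd T d d'.2

/-- `d'` lies on the side of the second end of `d` (both ends) -/
def HS (T : SimpleGraph V) (d d' : V × V) : Prop :=
  T.Adj d.1 d.2 ∧ T.Adj d'.1 d'.2 ∧ ¬ Sd T d d'.1 ∧ ¬ Sd T d d'.2

/-- incidence -/
def Inc (T : SimpleGraph V) (d : V × V) (u : V) : Prop := T.Adj d.1 d.2 ∧ (u = d.1 ∨ u = d.2)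

/-- `d'` ends where `d` starts, without backtracking -/
def Bk (T : SimpleGraph V) (d d' : V × V) : Prop :=
  T.Adj d.1 d.2 ∧ T.Adj d'.1 d'.2 ∧ d'.2 = d.1 ∧ d'.1 ≠ d.2

variable {G : Type u} [Group G] [MulAction G V] {I : Type u} [Fintype I] [DecidableEq I]

/-- rows at edges, columns at vertices, row locations normalized -/
structure EdgeForm (T : SimpleGraph V) (F H : Matrix I I (MonoidAlgebra ℤ G)) (e : I → V × V)
    (v : I → V) : Prop where
  adj : ∀ i, T.Adj (e i).1 (e i).2
  FH : F * H = 1
  HF : H * F = 1
  inc : Moves (Inc T) e v F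
  rep : ∀ (i j : I) (h : G), h • e j = e i → e i = e j
  noflip : ∀ (i j : I) (h : G), h • e j ≠ (e i).swap

/-- rows at darts, columns at vertices: the tail part of a row is the image of a vector supported
on the tail side -/
structure SplitForm (T : SimpleGraph V) (F H : Matrix I I (MonoidAlgebra ℤ G)) (d : I → V × V)
    (v : I → V) : Prop where
  adj : ∀ i, T.Adj (d i).1 (d i).2
  FH : F * H = 1
  HF : H * F = 1
  inc : Moves (Inc T) d v F
  tail : Moves (TS T) d d (res (fun d u => u = d.1) d v F * H)

/-- The segments `[a k, b k]` increase: `a (k+1), a k, b k, b (k+1)` are in this order on a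
segment of the tree `T`. -/
def IncSeg (T : SimpleGraph V) (a b : ℕ → V) : Prop :=
  ∀ k, T.dist (a (k + 1)) (b (k + 1)) =
    T.dist (a (k + 1)) (a k) + T.dist (a k) (b k) + T.dist (b k) (b (k + 1))

variable (G) in
/-- Bounded drops, outside of the family `Rg` of subgroups: for every edge `e` there is `n` such
that the pointwise stabilizers of an increasing sequence of segments, starting with `e`, cannot
drop `n` times while they stay outside of `Rg`. -/
def BddDrops (T : SimpleGraph V) (Rg : Subgroup G → Prop) : Prop :=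
  ∀ u v : V, T.Adj u v → ∃ n : ℕ, ∀ a b : ℕ → V, IncSeg T a b → a 0 = u → b 0 = v →
    (∀ k ≤ n, ¬ Rg (stabilizer G (a k) ⊓ stabilizer G (b k))) →
    ∃ k < n, stabilizer G (a k) ⊓ stabilizer G (b k) =
      stabilizer G (a (k + 1)) ⊓ stabilizer G (b (k + 1))

/-- The axis of `w`: the vertices `x` such that `x, wx, w²x` are in this order on a segment. -/
def axis (T : SimpleGraph V) (w : G) : Set V :=
  {x | T.dist x (w • w • x) = 2 * T.dist x (w • x)}

/-- The pointwise stabilizer of the axis of `w`. -/
def axisStab (T : SimpleGraph V) (w : G) : Subgroup G where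
  carrier := {g | ∀ x ∈ axis T w, g • x = x}
  mul_mem' := fun {a b} ha hb x hx => by rw [mul_smul, hb x hx, ha x hx]
  one_mem' := fun x _ => one_smul G x
  inv_mem' := fun {a} ha x hx => by rw [inv_smul_eq_iff, ha x hx]

/-- The group generated by `w` and the pointwise stabilizer of its axis. -/
def axisGroup (T : SimpleGraph V) (w : G) : Subgroup G :=
  Subgroup.closure ((axisStab T w : Set G) ∪ {w})

end tree

section nil

variable {G : Type u} [Group G]

/-- the family `Rg` of subgroups is closed under conjugation and passage to subgroups -/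
structure RgOK (Rg : Subgroup G → Prop) : Prop where
  conj : ∀ (g : G) (H : Subgroup G), Rg H → Rg (H.map (MulAut.conj g).toMonoidHom)
  mono : ∀ (H K : Subgroup G), K ≤ H → Rg H → Rg K

/-- the base case: all stabilizers are in the family `Rg` -/
def BaseOK (Rg : Subgroup G → Prop) (W : AddSubgroup (K1 (MonoidAlgebra ℤ G))) : Prop :=
  ∀ (X : Type w) [MulAction G X] (r : X → X → Prop), RInv G r → UWP r →
    ∀ (I : Type u) [Fintype I] [DecidableEq I] (x : I → X),
      (∀ i, Rg (stabilizer G (x i))) → ∀ N : Matrix I I (MonoidAlgebra ℤ G),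
        Moves r x x N → (∃ M, N ^ M = 0) → cm (1 - N) ∈ W

/-- `C` is located at one arrow `(s, z)`, which is a pure walk -/
def InLetter {X : Type w} [MulAction G X] {I : Type u} (Rg : Subgroup G → Prop)
    (r : X → X → Prop) (x : I → X) (C : Matrix I I (MonoidAlgebra ℤ G)) : Prop :=
  C = 0 ∨ ∃ (s z : X) (m : ℕ), 0 < m ∧ Wk (Pu Rg r) m s z ∧
    ∀ (i j : I) (h : G), (C i j).coeff h ≠ 0 → x i = s ∧ h • x j = z

/-- the locations are representatives of their orbits -/
def RepLoc (G : Type u) [Group G] {X : Type w} [MulAction G X] {I : Type u} (x : I → X) : Prop :=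
  ∀ (i j : I) (h : G), h • x j = x i → x i = x j

end nil

end Pool.Agent.Lib.MP_16fe43_al
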