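import Pool.Agent.Lib.MP_16fe43_al.WreathUnres

set_option autoImplicit false
set_option linter.unusedSectionVars false

/-!
# A subgroup with two generators which contains the commutator subgroup of the base
-/

universe u v w

namespace Pool.Agent.Lib.BHS16

open Pool.Agent.Lib.CutK1

noncomputable section

section Step2

variable {T : Type u} [Group T] (c : ℕ → T)

open Classical in
/-- the function with value `c n` at `2 ^ n`, and `1` elsewhere -/
def sparse (x : ℤ) : T := if h : ∃ n : ℕ, x = 2 ^ n then c (Classical.choose h) else 1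

theorem sparse_pow (n : ℕ) : sparse c (2 ^ n) = c n := by
  have h : ∃ m : ℕ, (2 : ℤ) ^ n = 2 ^ m := ⟨n, rfl⟩
  unfold sparse
  rw [dif_pos h]
  congr 1
  have h1 := Classical.choose_spec h
  have h2 : (2 : ℕ) ^ n = 2 ^ (Classical.choose h) := by exact_mod_cast h1
  exact (Nat.pow_right_injective le_rfl h2).symm

theorem sparse_of_not {x : ℤ} (h : ¬ ∃ n : ℕ, x = 2 ^ n) : sparse c x = 1 := by
  unfold sparse
  rw [dif_neg h]

/-- the base generator -/
def aG : Wr T := SemidirectProduct.inl (sparse c)

variable (T) in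
/-- the shift -/
def bG : Wr T := SemidirectProduct.inr (Multiplicative.ofAdd 1)

/-- the group with two generators -/
def U2 : Subgroup (Wr T) := Subgroup.closure {aG c, bG T}

theorem aG_mem : aG c ∈ U2 c := Subgroup.subset_closure (Set.mem_insert _ _)

theorem bG_mem : bG T ∈ U2 c := Subgroup.subset_closure (Set.mem_insert_of_mem _ rfl)

theorem inr_mem (m : ℤ) : (SemidirectProduct.inr (Multiplicative.ofAdd m) : Wr T) ∈ U2 c := by
  have h : (SemidirectProduct.inr (Multiplicative.ofAdd m) : Wr T) = (bG T) ^ m := by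
    unfold bG
    rw [← map_zpow, ← ofAdd_zsmul, smul_eq_mul, mul_one]
  rw [h]
  exact Subgroup.zpow_mem _ (bG_mem c) m

/-- translates of the base generator -/
def trG (m : ℤ) : Wr T := SemidirectProduct.inl (fun x => sparse c (x + m))

theorem trG_mem (m : ℤ) : trG c m ∈ U2 c := by
  have h : trG c m = SemidirectProduct.inr (Multiplicative.ofAdd (-m)) * aG c *
      SemidirectProduct.inr (Multiplicative.ofAdd m) := by
    apply SemidirectProduct.ext
    · funext x
      rw [Wr.mul_left_apply, Wr.mul_left_apply]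
      show sparse c (x + m) = 1 * sparse c (x - -m) * 1
      rw [one_mul, mul_one, sub_neg_eq_add]
    · show (1 : Multiplicative ℤ) = Multiplicative.ofAdd (-m) * 1 * Multiplicative.ofAdd m
      rw [mul_one, ← ofAdd_add]
      simp
  rw [h]
  exact Subgroup.mul_mem _ (Subgroup.mul_mem _ (inr_mem c _) (aG_mem c)) (inr_mem c _)

theorem pow_two_aux {p q n m : ℕ} (hmn : m < n) (h : (2 : ℤ) ^ p - 2 ^ q = 2 ^ n - 2 ^ m) :
    p = n := by
  have e1 : (2 : ℤ) ^ m < 2 ^ n := pow_lt_pow_right₀ (by norm_num) hmn
  have hqp : q < p := by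
    by_contra hh
    have : (2 : ℤ) ^ p ≤ 2 ^ q := pow_le_pow_right₀ (by norm_num) (not_lt.1 hh)
    omega
  have hn : (2 : ℤ) ^ n = 2 * 2 ^ (n - 1) := by
    rw [← pow_succ']; congr 1; omega
  have hp : (2 : ℤ) ^ p = 2 * 2 ^ (p - 1) := by
    rw [← pow_succ']; congr 1; omega
  have e2 : (2 : ℤ) ^ m ≤ 2 ^ (n - 1) := pow_le_pow_right₀ (by norm_num) (by omega)
  have e3 : (2 : ℤ) ^ q ≤ 2 ^ (p - 1) := pow_le_pow_right₀ (by norm_num) (by omega)
  have e4 : (0 : ℤ) < 2 ^ m := by positivity
  have e5 : (0 : ℤ) < 2 ^ q := by positivity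
  rcases lt_trichotomy p n with h1 | h1 | h1
  · exfalso
    have : (2 : ℤ) ^ p ≤ 2 ^ (n - 1) := pow_le_pow_right₀ (by norm_num) (by omega)
    omega
  · exact h1
  · exfalso
    have : (2 : ℤ) ^ n ≤ 2 ^ (p - 1) := pow_le_pow_right₀ (by norm_num) (by omega)
    omega

theorem pow_two_sidon {p q n m : ℕ} (hmn : m ≠ n) {x : ℤ} (hx : x ≠ 0) (h1 : x + 2 ^ n = 2 ^ p)
    (h2 : x + 2 ^ m = 2 ^ q) : False := by
  rcases lt_or_gt_of_ne hmn with h | h
  · have := pow_two_aux (p := p) (q := q) h (by omega)
    rw [this] at h1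
    exact hx (by omega)
  · have := pow_two_aux (p := q) (q := p) h (by omega)
    rw [this] at h2
    exact hx (by omega)

open scoped commutatorElement in
theorem comm_mem (n m : ℕ) : Wr.at0 T ⁅c n, c m⁆ ∈ U2 c := by
  by_cases hnm : n = m
  · subst hnm
    rw [commutatorElement_self, map_one]
    exact Subgroup.one_mem _
  · have h : Wr.at0 T ⁅c n, c m⁆ =
        SemidirectProduct.inl ⁅fun x => sparse c (x + 2 ^ n), fun x => sparse c (x + 2 ^ m)⁆ := by
      apply SemidirectProduct.ext
      · funext x
        rw [Wr.at0_left]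
        show _ = ⁅sparse c (x + 2 ^ n), sparse c (x + 2 ^ m)⁆
        by_cases hx : x = 0
        · subst hx
          rw [if_pos rfl, zero_add, zero_add, sparse_pow, sparse_pow]
        · rw [if_neg hx]
          by_cases h1 : ∃ p : ℕ, x + 2 ^ n = 2 ^ p
          · have h2 : ¬ ∃ q : ℕ, x + 2 ^ m = 2 ^ q := by
              rintro ⟨q, hq⟩
              obtain ⟨p, hp⟩ := h1
              exact pow_two_sidon (Ne.symm hnm) hx hp hq
            rw [sparse_of_not c h2, commutatorElement_one_right]
          · rw [sparse_of_not c h1, commutatorElement_one_left]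
      · rfl
    have h2 : (SemidirectProduct.inl
        ⁅fun x => sparse c (x + 2 ^ n), fun x => sparse c (x + 2 ^ m)⁆ : Wr T) =
        ⁅trG c (2 ^ n), trG c (2 ^ m)⁆ := map_commutatorElement _ _ _
    rw [h, h2, commutatorElement_def]
    exact Subgroup.mul_mem _ (Subgroup.mul_mem _ (Subgroup.mul_mem _ (trG_mem c _) (trG_mem c _))
      (Subgroup.inv_mem _ (trG_mem c _))) (Subgroup.inv_mem _ (trG_mem c _))

theorem commutator_mem (hc : Function.Surjective c) {x : T} (hx : x ∈ commutator T) :
    Wr.at0 T x ∈ U2 c := by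
  have h : commutator T ≤ (U2 c).comap (Wr.at0 T) := by
    rw [commutator_def, Subgroup.commutator_le]
    intro a _ b _
    obtain ⟨n, rfl⟩ := hc a
    obtain ⟨m, rfl⟩ := hc b
    exact comm_mem c n m
  exact h hx

/-- elements are trivial in long gaps -/
theorem U2.tail (g : Wr T) (hg : g ∈ U2 c) :
    ∃ l : ℕ, |Multiplicative.toAdd g.right| ≤ l ∧ ∀ x : ℤ,
      (∀ j : ℤ, |j| ≤ l → sparse c (x + j) = 1) → g.left x = 1 := by
  unfold U2 at hg
  induction hg using Subgroup.closure_induction with
  | mem g hg =>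
    rcases hg with rfl | hg
    · refine ⟨0, by simp [aG], fun x hx => ?_⟩
      have := hx 0 (by simp)
      rw [add_zero] at this
      exact this
    · rw [Set.mem_singleton_iff] at hg
      subst hg
      exact ⟨1, by simp [bG], fun x _ => rfl⟩
  | one => exact ⟨0, by simp, fun x _ => rfl⟩
  | mul a b _ _ ha hb =>
    obtain ⟨l, hl, h1⟩ := ha
    obtain ⟨l', hl', h1'⟩ := hb
    refine ⟨l + l', ?_, fun x hx => ?_⟩
    · rw [SemidirectProduct.mul_right, toAdd_mul]
      have := abs_add_le (Multiplicative.toAdd a.right) (Multiplicative.toAdd b.right)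
      push_cast
      omega
    · rw [Wr.mul_left_apply, h1 x (fun j hj => hx j (by push_cast; omega)),
        h1' _ (fun j hj => ?_), one_mul]
      have : x - Multiplicative.toAdd a.right + j = x + (j - Multiplicative.toAdd a.right) := by
        ring
      rw [this]
      apply hx
      rw [abs_le] at hj hl ⊢
      push_cast
      omega
  | inv a _ ha =>
    obtain ⟨l, hl, h1⟩ := ha
    refine ⟨l + l, ?_, fun x hx => ?_⟩
    · rw [SemidirectProduct.inv_right, toAdd_inv, abs_neg]
      push_cast
      omega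
    · rw [Wr.inv_left_apply, h1 _ (fun j hj => ?_), inv_one]
      have : x + Multiplicative.toAdd a.right + j = x + (j + Multiplicative.toAdd a.right) := by
        ring
      rw [this]
      apply hx
      rw [abs_le] at hj hl ⊢
      push_cast
      omega

theorem U2.cut (g : Wr T) (hg : g ∈ U2 c) (k : ℕ) : ∀ᶠ n in Filter.atTop,
    ∀ x ∈ Finset.Ico (-(2 : ℤ) ^ n) (3 * 2 ^ n), nearB (Finset.Ico (-(2 : ℤ) ^ n) (3 * 2 ^ n)) k x →
      g.left (x + Multiplicative.toAdd g.right) ∈ (⊥ : Subgroup T) := by
  obtain ⟨l, hl, h1⟩ := U2.tail c g hg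
  filter_upwards [Filter.eventually_ge_atTop (k + 2 * l + 1)] with n hn x hx hx'
  rw [Subgroup.mem_bot]
  apply h1
  intro j hj
  apply sparse_of_not
  rintro ⟨p, hp⟩
  obtain ⟨i, hi, hi'⟩ := hx'
  rw [abs_le] at hj hl hi
  rw [Finset.mem_Ico] at hx hi'
  have h2 : (n : ℤ) < 2 ^ n := by
    have : n < 2 ^ n := Nat.lt_two_pow_self
    exact_mod_cast this
  have h3 : (0 : ℤ) < 2 ^ p := by positivity
  by_cases hpos : 0 ≤ x
  · -- near the right end
    have h4 : (2 : ℤ) ^ (n + 1) < 2 ^ p := by
      rw [pow_succ]; omega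
    have h5 : (2 : ℤ) ^ p < 2 ^ (n + 2) := by
      rw [pow_succ, pow_succ]; omega
    have h6 : n + 1 < p := by
      by_contra hh
      have := pow_le_pow_right₀ (by norm_num : (1 : ℤ) ≤ 2) (not_lt.1 hh)
      omega
    have h7 : p < n + 2 := by
      by_contra hh
      have := pow_le_pow_right₀ (by norm_num : (1 : ℤ) ≤ 2) (not_lt.1 hh)
      omega
    omega
  · omega

end Step2

/-! ### The universal group with two generators -/

/-- the image of the test group `j` in a group where its elements are products of commutators -/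
theorem exists_perf (j : TestIdx) : ∃ (K : Type) (_ : Group K) (i : TestGrp j →* K),
    Countable K ∧ TorsionFree K ∧ (Subsingleton (Wh (Multiplicative ℤ)) → WhInj i) ∧
      ∀ a, i a ∈ commutator K := by
  obtain ⟨K, gK, i, cK, tK, wK, iK⟩ := exists_perfecting j.1 (TestGrp j) (testGrp_torsionFree j)
    (fun a => QuotientGroup.mk' (relSub j.2) (FreeGroup.of a))
  refine ⟨K, gK, i, cK, tK, wK, ?_⟩
  intro a
  obtain ⟨x, rfl⟩ := QuotientGroup.mk'_surjective (relSub j.2) a
  have h : (⊤ : Subgroup (FreeGroup (Fin j.1))) ≤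
      (commutator K).comap (i.comp (QuotientGroup.mk' (relSub j.2))) := by
    rw [← FreeGroup.closure_range_of, Subgroup.closure_le]
    rintro _ ⟨a, rfl⟩
    exact iK a
  exact h (Subgroup.mem_top x)

/-- the perfecting group -/
def PG (j : TestIdx) : Type := Classical.choose (exists_perf j)

instance (j : TestIdx) : Group (PG j) := Classical.choose (Classical.choose_spec (exists_perf j))

theorem exists_perf' (j : TestIdx) : ∃ (i : TestGrp j →* PG j),
    Countable (PG j) ∧ TorsionFree (PG j) ∧ (Subsingleton (Wh (Multiplicative ℤ)) → WhInj i) ∧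
      ∀ a, i a ∈ commutator (PG j) :=
  Classical.choose_spec (Classical.choose_spec (exists_perf j))

instance (j : TestIdx) : Countable (PG j) := (Classical.choose_spec (exists_perf' j)).1

/-- the map from the test group -/
def PG.map (j : TestIdx) : TestGrp j →* PG j := Classical.choose (exists_perf' j)

theorem PG.torsionFree (j : TestIdx) : TorsionFree (PG j) :=
  (Classical.choose_spec (exists_perf' j)).2.1

theorem PG.whInj (j : TestIdx) (h : Subsingleton (Wh (Multiplicative ℤ))) : WhInj (PG.map j) :=
  (Classical.choose_spec (exists_perf' j)).2.2.1 h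

theorem PG.mem_commutator (j : TestIdx) (a : TestGrp j) : PG.map j a ∈ commutator (PG j) :=
  (Classical.choose_spec (exists_perf' j)).2.2.2 a

open Classical in
/-- the restricted product of the perfecting groups -/
abbrev TG : Type := RProd PG

open Classical in
theorem TG.countable : Countable TG := RProd.countable PG

open Classical in
theorem TG.torsionFree : TorsionFree TG := RProd.torsionFree PG PG.torsionFree

theorem TG.exists_enum : ∃ c : ℕ → TG, Function.Surjective c := by
  have := TG.countable
  exact exists_surjective_nat TG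

/-- an enumeration -/
def TG.enum : ℕ → TG := Classical.choose TG.exists_enum

theorem TG.enum_surjective : Function.Surjective TG.enum := Classical.choose_spec TG.exists_enum

/-- the universal group with two generators -/
abbrev UG : Type := U2 TG.enum

theorem UG.torsionFree : TorsionFree UG :=
  (Wr.torsionFree TG.torsionFree).of_injective (U2 TG.enum).subtype Subtype.coe_injective

theorem UG.gen : ∃ a b : UG, Subgroup.closure {a, b} = ⊤ := by
  refine ⟨⟨aG TG.enum, aG_mem _⟩, ⟨bG TG, bG_mem _⟩, ?_⟩
  rw [eq_top_iff]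
  rintro ⟨x, hx⟩ -
  have h : (Subgroup.closure ({⟨aG TG.enum, aG_mem _⟩, ⟨bG TG, bG_mem _⟩} : Set UG)).map
      (U2 TG.enum).subtype = U2 TG.enum := by
    rw [MonoidHom.map_closure, Set.image_pair]
    rfl
  rw [← h] at hx
  obtain ⟨y, hy, hxy⟩ := hx
  have : y = ⟨x, hx⟩ := Subtype.ext hxy
  rw [← this]
  exact hy

/-- `ℤ` is a retract of the universal group -/
theorem UG.wh_int (h : Subsingleton (Wh UG)) : Subsingleton (Wh (Multiplicative ℤ)) := by
  refine wh_retract ((SemidirectProduct.inr : Multiplicative ℤ →* Wr TG).codRestrict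
    (U2 TG.enum) (fun m => inr_mem TG.enum m.toAdd))
    (SemidirectProduct.rightHom.comp (U2 TG.enum).subtype) ?_ h
  ext
  rfl

open Classical in
theorem UG.wh_test (h : Subsingleton (Wh UG)) (j : TestIdx) : Subsingleton (Wh (TestGrp j)) := by
  rw [wh_subsingleton_iff]
  intro x
  apply PG.whInj j (UG.wh_int h)
  let i : TestGrp j →* TG := (RProd.incl PG j).comp (PG.map j)
  have hi : ∀ a, Wr.at0 TG (i a) ∈ U2 TG.enum := by
    intro a
    apply commutator_mem _ TG.enum_surjective
    have h2 : commutator (PG j) ≤ (commutator TG).comap (RProd.incl PG j) := by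
      rw [← Subgroup.map_le_iff_le_comap, commutator_def, Subgroup.map_commutator,
        commutator_def]
      exact Subgroup.commutator_mono le_top le_top
    exact h2 (PG.mem_commutator j a)
  have hbot : Subsingleton (Wh (⊥ : Subgroup TG)) := by
    refine wh_retract (1 : (⊥ : Subgroup TG) →* UG) 1 ?_ h
    apply MonoidHom.ext
    intro y
    apply Subtype.ext
    exact (Subgroup.mem_bot.1 y.2).symm
  have h3 : K1.map (grMap i) x ∈ trivialUnits TG := by
    refine Wr.cutWh (U2 TG.enum) ⊥ hbot
      (fun n => Finset.Ico (-(2 : ℤ) ^ n) (3 * 2 ^ n)) ?_ ?_ i hi x ?_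
    · refine Filter.Eventually.of_forall fun n => ?_
      rw [Finset.mem_Ico]
      have : (0 : ℤ) < 2 ^ n := by positivity
      omega
    · intro g hg k
      exact U2.cut TG.enum g hg k
    · exact (wh_subsingleton_iff _).1 h _
  have h4 := trivialUnits_map (RProd.proj PG j) h3
  rw [K1.map_grMap_comp] at h4
  have h5 : (RProd.proj PG j).comp i = PG.map j := by
    show (RProd.proj PG j).comp ((RProd.incl PG j).comp (PG.map j)) = _
    rw [← MonoidHom.comp_assoc, RProd.proj_incl, MonoidHom.id_comp]
  rwa [h5] at h4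

end

end Pool.Agent.Lib.BHS16
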