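import Pool.Agent.Lib.MP_16fe43_al.K1

set_option autoImplicit false

/-!
# Exactness of `K₁` for a surjective ring homomorphism (half of the long exact sequence)
-/

universe u v w

open Matrix

namespace Pool.Agent.Lib.CutK1

open Pool.Agent.Lib.MP_16fe43_al

noncomputable section

variable {R : Type u} [Ring R]

/-- stabilisation `GL_i(R) → GL_j(R)`, `i ≤ j` -/
def stb {i j : ℕ} (h : i ≤ j) (A : (Matrix (Fin i) (Fin i) R)ˣ) : (Matrix (Fin j) (Fin j) R)ˣ :=
  rix (finSumFinEquiv.trans (finCongr (Nat.add_sub_cancel' h)))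
    (dsum A (1 : (Matrix (Fin (j - i)) (Fin (j - i)) R)ˣ))

theorem dsum_mul {ι : Type v} {κ : Type w} [Fintype ι] [Fintype κ] [DecidableEq ι]
    [DecidableEq κ] (A A' : (Matrix ι ι R)ˣ) (B B' : (Matrix κ κ R)ˣ) :
    dsum (A * A') (B * B') = dsum A B * dsum A' B' := by
  apply Units.ext
  simp [dsum, fromBlocks_multiply]

theorem dsum_one_one {ι : Type v} {κ : Type w} [Fintype ι] [Fintype κ] [DecidableEq ι]
    [DecidableEq κ] : dsum (1 : (Matrix ι ι R)ˣ) (1 : (Matrix κ κ R)ˣ) = 1 := by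
  apply Units.ext
  simp [dsum]

theorem stb_mul {i j : ℕ} (h : i ≤ j) (A B : (Matrix (Fin i) (Fin i) R)ˣ) :
    stb h (A * B) = stb h A * stb h B := by
  unfold stb
  rw [← map_mul, ← dsum_mul, one_mul]

/-- entries of the stabilisation -/
theorem stb_apply {i j : ℕ} (h : i ≤ j) (A : (Matrix (Fin i) (Fin i) R)ˣ) (x y : Fin j) :
    (stb h A).val x y = if hx : x.1 < i then (if hy : y.1 < i then A.val ⟨x, hx⟩ ⟨y, hy⟩ else 0)
      else (if x = y then 1 else 0) := by
  obtain ⟨x', rfl⟩ := (finSumFinEquiv.trans (finCongr (Nat.add_sub_cancel' h))).surjective x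
  obtain ⟨y', rfl⟩ := (finSumFinEquiv.trans (finCongr (Nat.add_sub_cancel' h))).surjective y
  have e : (stb h A).val ((finSumFinEquiv.trans (finCongr (Nat.add_sub_cancel' h))) x')
      ((finSumFinEquiv.trans (finCongr (Nat.add_sub_cancel' h))) y') =
      (fromBlocks A.val 0 0 1) x' y' := by
    show (Matrix.reindex _ _ _) _ _ = _
    rw [Matrix.reindex_apply, Matrix.submatrix_apply, Equiv.symm_apply_apply,
      Equiv.symm_apply_apply]
    rfl
  rw [e]
  rcases x' with x' | x' <;> rcases y' with y' | y'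
  · simp
  · simp
  · have := y'.2
    simp [Fin.ext_iff]
    omega
  · simp [Matrix.one_apply, Fin.ext_iff]

theorem stb_self {i : ℕ} (A : (Matrix (Fin i) (Fin i) R)ˣ) : stb le_rfl A = A := by
  apply Units.ext
  ext x y
  rw [stb_apply]
  simp

theorem stb_stb {i j k : ℕ} (h : i ≤ j) (h' : j ≤ k) (A : (Matrix (Fin i) (Fin i) R)ˣ) :
    stb h' (stb h A) = stb (h.trans h') A := by
  apply Units.ext
  ext x y
  rw [stb_apply, stb_apply]
  by_cases hx : x.1 < j
  · by_cases hy : y.1 < j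
    · rw [dif_pos hx, dif_pos hy, stb_apply]
      simp only [Fin.ext_iff]
    · rw [dif_pos hx, dif_neg hy]
      by_cases hx' : x.1 < i
      · rw [dif_pos hx', dif_neg (by omega)]
      · rw [dif_neg hx', if_neg (by intro h; rw [h] at hx; exact hy hx)]
  · rw [dif_neg hx, dif_neg (by omega)]

/-- stabilisation as a homomorphism -/
def stbHom {i j : ℕ} (h : i ≤ j) :
    (Matrix (Fin i) (Fin i) R)ˣ →* (Matrix (Fin j) (Fin j) R)ˣ where
  toFun := stb h
  map_one' := by
    unfold stb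
    rw [dsum_one_one, map_one]
  map_mul' := stb_mul h

variable (R) in
/-- the abelianisation of `GL_n(R)` -/
abbrev GLab (n : ℕ) : Type u := Additive (Abelianization (Matrix (Fin n) (Fin n) R)ˣ)

variable (R) in
/-- transition maps -/
def tr (i j : ℕ) (h : i ≤ j) : GLab R i →+ GLab R j :=
  MonoidHom.toAdditive (Abelianization.map (stbHom h))

theorem tr_of {i j : ℕ} (h : i ≤ j) (A : (Matrix (Fin i) (Fin i) R)ˣ) :
    tr R i j h (Additive.ofMul (Abelianization.of A)) =
      Additive.ofMul (Abelianization.of (stb h A)) := by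
  show Additive.ofMul (Abelianization.map (stbHom h) (Abelianization.of A)) = _
  rw [Abelianization.map_of]
  rfl

theorem GLab.exists_of {n : ℕ} (x : GLab R n) :
    ∃ A : (Matrix (Fin n) (Fin n) R)ˣ, x = Additive.ofMul (Abelianization.of A) := by
  obtain ⟨A, hA⟩ := QuotientGroup.mk_surjective (Additive.toMul x)
  exact ⟨A, hA.symm⟩

instance : DirectedSystem (GLab R) (fun i j h => tr R i j h) where
  map_self i x := by
    obtain ⟨A, rfl⟩ := GLab.exists_of x
    rw [tr_of, stb_self]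
  map_map k j i h h' x := by
    obtain ⟨A, rfl⟩ := GLab.exists_of x
    rw [tr_of, tr_of, tr_of, stb_stb]

variable (R) in
/-- `K₁` as a direct limit -/
abbrev K1lim : Type u := AddCommGroup.DirectLimit (GLab R) (tr R)

theorem dsum_stb {n m : ℕ} (A : (Matrix (Fin n) (Fin n) R)ˣ) :
    rix finSumFinEquiv (dsum A (1 : (Matrix (Fin m) (Fin m) R)ˣ)) =
      stb (Nat.le_add_right n m) A := by
  apply Units.ext
  ext x y
  rw [stb_apply]
  obtain ⟨x', rfl⟩ := finSumFinEquiv.surjective x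
  obtain ⟨y', rfl⟩ := finSumFinEquiv.surjective y
  have e : (rix finSumFinEquiv (dsum A (1 : (Matrix (Fin m) (Fin m) R)ˣ))).val
      (finSumFinEquiv x') (finSumFinEquiv y') = (fromBlocks A.val 0 0 1) x' y' := by
    show (Matrix.reindex _ _ _) _ _ = _
    rw [Matrix.reindex_apply, Matrix.submatrix_apply, Equiv.symm_apply_apply,
      Equiv.symm_apply_apply]
    rfl
  rw [e]
  rcases x' with x' | x' <;> rcases y' with y' | y'
  · simp
  · simp
  · have := y'.2
    simp [Fin.ext_iff]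
    omega
  · simp [Matrix.one_apply, Fin.ext_iff]

/-- comparison map -/
def toLim : K1 R →+ K1lim R :=
  QuotientAddGroup.lift _ (FreeAbelianGroup.lift (fun x : Gen R =>
    AddCommGroup.DirectLimit.of (GLab R) (tr R) x.1
      (Additive.ofMul (Abelianization.of x.2))))
    (by
      rw [AddSubgroup.closure_le]
      rintro x (⟨n, A, B, rfl⟩ | ⟨n, m, A, rfl⟩)
      · simp only [SetLike.mem_coe, AddMonoidHom.mem_ker, map_sub, map_add,
          FreeAbelianGroup.lift_apply_of, map_mul, ofMul_mul, sub_self]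
      · simp only [SetLike.mem_coe, AddMonoidHom.mem_ker, map_sub,
          FreeAbelianGroup.lift_apply_of]
        rw [dsum_stb, ← tr_of (Nat.le_add_right n m) A, AddCommGroup.DirectLimit.of_f, sub_self])

theorem toLim_gen {n : ℕ} (A : (Matrix (Fin n) (Fin n) R)ˣ) :
    toLim (K1.gen A) = AddCommGroup.DirectLimit.of (GLab R) (tr R) n
      (Additive.ofMul (Abelianization.of A)) := by
  show (FreeAbelianGroup.lift _) (FreeAbelianGroup.of _) = _
  simp

/-- if a matrix is trivial in `K₁` then it is stably a product of commutators -/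
theorem exists_commutator {n : ℕ} (A : (Matrix (Fin n) (Fin n) R)ˣ) (h : K1.gen A = 0) :
    ∃ (m : ℕ) (hm : n ≤ m), stb hm A ∈ commutator (Matrix (Fin m) (Fin m) R)ˣ := by
  have h1 : toLim (K1.gen A) = 0 := by rw [h, map_zero]
  rw [toLim_gen] at h1
  obtain ⟨m, hm, h2⟩ := AddCommGroup.DirectLimit.of.zero_exact _ _ h1
  refine ⟨m, hm, ?_⟩
  rw [tr_of] at h2
  have h3 : Abelianization.of (stb hm A) = 1 := h2
  rw [← Abelianization.ker_of]
  exact h3

theorem gen_stb {i j : ℕ} (h : i ≤ j) (A : (Matrix (Fin i) (Fin i) R)ˣ) :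
    K1.gen (stb h A) = K1.gen A := by
  rw [← cl_gen, ← cl_gen]
  unfold stb
  rw [cl_rix, cl_dsum_one]

/-! ### Lifting commutators -/

section Lift

variable {E : Type u} {S : Type w} [Ring E] [Ring S] (p : E →+* S)

theorem mapU_dsum {ι : Type v} {κ : Type v} [Fintype ι] [Fintype κ] [DecidableEq ι]
    [DecidableEq κ] (A : (Matrix ι ι E)ˣ) (B : (Matrix κ κ E)ˣ) :
    mapU p (dsum A B) = dsum (mapU p A) (mapU p B) := by
  apply Units.ext
  show (fromBlocks A.val 0 0 B.val).map p = fromBlocks (A.val.map p) 0 0 (B.val.map p)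
  rw [fromBlocks_map]
  simp

theorem mapU_rix {ι : Type v} {κ : Type v} [Fintype ι] [Fintype κ] [DecidableEq ι]
    [DecidableEq κ] (e : ι ≃ κ) (A : (Matrix ι ι E)ˣ) :
    mapU p (rix e A) = rix e (mapU p A) := by
  apply Units.ext
  rfl

theorem mapU_upU {ι : Type v} {κ : Type v} [Fintype ι] [Fintype κ] [DecidableEq ι]
    [DecidableEq κ] (X : Matrix ι κ E) : mapU p (upU X) = upU (X.map p) := by
  apply Units.ext
  show (fromBlocks 1 X 0 1).map p = fromBlocks 1 (X.map p) 0 1
  rw [fromBlocks_map]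
  simp

theorem mapU_loU {ι : Type v} {κ : Type v} [Fintype ι] [Fintype κ] [DecidableEq ι]
    [DecidableEq κ] (X : Matrix κ ι E) : mapU p (loU X) = loU (X.map p) := by
  apply Units.ext
  show (fromBlocks 1 0 X 1).map p = fromBlocks 1 0 (X.map p) 1
  rw [fromBlocks_map]
  simp

theorem mapU_stb {i j : ℕ} (h : i ≤ j) (A : (Matrix (Fin i) (Fin i) E)ˣ) :
    mapU p (stb h A) = stb h (mapU p A) := by
  unfold stb
  rw [mapU_rix, mapU_dsum, map_one]

variable {p} in
theorem exists_lift_inv (hp : Function.Surjective p) {ι : Type v} [Fintype ι] [DecidableEq ι]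
    (B : (Matrix ι ι S)ˣ) :
    ∃ W : (Matrix (ι ⊕ ι) (ι ⊕ ι) E)ˣ, cl W = 0 ∧ mapU p W = dsum B B⁻¹ := by
  obtain ⟨s, hs⟩ := hp.hasRightInverse
  have hB : (B.val.map s).map p = B.val := by
    ext i j; simp [hs _]
  have hB' : (B⁻¹.val.map s).map p = B⁻¹.val := by
    ext i j; simp [hs _]
  refine ⟨upU (B.val.map s) * loU (-(B⁻¹.val.map s)) * upU (B.val.map s) *
    (upU (-1) * loU 1 * upU (-1)), ?_, ?_⟩
  · simp only [cl_mul, cl_upU, cl_loU, add_zero]
  · have e1 : (-(B⁻¹.val.map s)).map p = -B⁻¹.val := by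
      ext i j; simp [hs _]
    have e2 : (-1 : Matrix ι ι E).map p = -1 := by
      ext i j
      by_cases hij : i = j <;> simp [hij]
    have e3 : (1 : Matrix ι ι E).map p = 1 := by simp
    simp only [map_mul, mapU_upU, mapU_loU, hB, e1, e2, e3]
    apply Units.ext
    simp only [Units.val_mul]
    show fromBlocks 1 B.val 0 1 * fromBlocks 1 0 (-B.inv) 1 * fromBlocks 1 B.val 0 1 *
      (fromBlocks 1 (-1) 0 1 * fromBlocks 1 0 1 1 * fromBlocks 1 (-1) 0 1) =
      fromBlocks B.val 0 0 B.inv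
    simp only [fromBlocks_multiply, Matrix.one_mul, Matrix.mul_one,
      Matrix.mul_zero, add_zero, zero_add, Matrix.mul_neg, Matrix.neg_mul, B.val_inv, B.inv_val]
    simp

variable {p} in
/-- the subgroup of matrices `g` such that `g ⊕ 1` lifts to a matrix with trivial class -/
def liftSub (ι : Type v) [Fintype ι] [DecidableEq ι] (p : E →+* S) :
    Subgroup (Matrix ι ι S)ˣ where
  carrier := {g | ∃ W : (Matrix (ι ⊕ ι) (ι ⊕ ι) E)ˣ, cl W = 0 ∧ mapU p W = dsum g 1}
  mul_mem' := by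
    rintro a b ⟨V, hV, hV'⟩ ⟨W, hW, hW'⟩
    refine ⟨V * W, by rw [cl_mul, hV, hW, add_zero], ?_⟩
    rw [map_mul, hV', hW', ← dsum_mul, one_mul]
  one_mem' := ⟨1, cl_one, by rw [map_one, dsum_one_one]⟩
  inv_mem' := by
    rintro a ⟨V, hV, hV'⟩
    refine ⟨V⁻¹, by rw [cl_inv, hV, neg_zero], ?_⟩
    rw [map_inv, hV']
    rw [inv_eq_iff_mul_eq_one, ← dsum_mul, mul_inv_cancel, one_mul, dsum_one_one]

variable {p} in
theorem commutator_le_liftSub (hp : Function.Surjective p) (ι : Type v) [Fintype ι]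
    [DecidableEq ι] : commutator (Matrix ι ι S)ˣ ≤ liftSub ι p := by
  rw [commutator_def, Subgroup.commutator_le]
  intro B _ C _
  obtain ⟨V, hV, hV'⟩ := exists_lift_inv hp B
  obtain ⟨W, hW, hW'⟩ := exists_lift_inv hp C
  obtain ⟨X, hX, hX'⟩ := exists_lift_inv hp (C * B)
  refine ⟨V * W * X⁻¹, by rw [cl_mul, cl_mul, cl_inv, hV, hW, hX]; simp, ?_⟩
  rw [map_mul, map_mul, map_inv, hV', hW', hX', mul_inv_eq_iff_eq_mul, ← dsum_mul, ← dsum_mul]
  congr 1
  · rw [commutatorElement_def]; group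
  · group

variable {p} in
/-- exactness: an element of `K₁(E)` that dies in `K₁(S)` is the class of a matrix which is the
identity over `S` -/
theorem K1.exact (hp : Function.Surjective p) (x : K1 E) (hx : K1.map p x = 0) :
    ∃ (n : ℕ) (Y : (Matrix (Fin n) (Fin n) E)ˣ), mapU p Y = 1 ∧ x = K1.gen Y := by
  obtain ⟨n, A, rfl⟩ := K1.exists_gen x
  rw [K1.map_gen] at hx
  obtain ⟨m, hm, h⟩ := exists_commutator _ hx
  obtain ⟨W, hW, hW'⟩ := commutator_le_liftSub hp (Fin m) h
  refine ⟨m + m, rix finSumFinEquiv (dsum (stb hm A) 1 * W⁻¹), ?_, ?_⟩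
  · rw [mapU_rix, map_mul, map_inv, hW', mapU_dsum, mapU_stb, map_one, mul_inv_cancel, map_one]
  · rw [← cl_gen (rix _ _), cl_rix, cl_mul, cl_inv, hW, cl_dsum_one, cl_gen, gen_stb]
    simp

end Lift

end

end Pool.Agent.Lib.CutK1
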