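import Pool.Agent.Lib.MP_16fe43_al.Boundary

set_option autoImplicit false
set_option linter.unusedSectionVars false

/-!
# The homomorphism `K₁(S) → K₀(R)`
-/

namespace Pool.Agent.Lib.BHS16

universe u v

noncomputable section

variable {R : Type u} [Ring R]

/-! ### Block sums -/

theorem blockSum_mul {S : Type*} [Ring S] {n m : ℕ} (A A' : Matrix (Fin n) (Fin n) S)
    (B B' : Matrix (Fin m) (Fin m) S) :
    blockSum A B * blockSum A' B' = blockSum (A * A') (B * B') := by
  unfold blockSum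
  rw [Matrix.submatrix_mul_equiv, Matrix.fromBlocks_multiply]
  simp

theorem blockSum_sub {S : Type*} [Ring S] {n m : ℕ} (A A' : Matrix (Fin n) (Fin n) S)
    (B B' : Matrix (Fin m) (Fin m) S) :
    blockSum A B - blockSum A' B' = blockSum (A - A') (B - B') := by
  unfold blockSum
  ext i j
  simp only [Matrix.sub_apply, Matrix.submatrix_apply]
  rcases finSumFinEquiv.symm i with i | i <;> rcases finSumFinEquiv.symm j with j | j <;>
    simp

theorem blockSum_add {S : Type*} [Ring S] {n m : ℕ} (A A' : Matrix (Fin n) (Fin n) S)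
    (B B' : Matrix (Fin m) (Fin m) S) :
    blockSum A B + blockSum A' B' = blockSum (A + A') (B + B') := by
  unfold blockSum
  ext i j
  simp only [Matrix.add_apply, Matrix.submatrix_apply]
  rcases finSumFinEquiv.symm i with i | i <;> rcases finSumFinEquiv.symm j with j | j <;>
    simp

theorem blockSum_zero {S : Type*} [Ring S] {n m : ℕ} :
    blockSum (0 : Matrix (Fin n) (Fin n) S) (0 : Matrix (Fin m) (Fin m) S) = 0 := by
  unfold blockSum
  rw [Matrix.fromBlocks_zero]; rfl

theorem blockSum_diagonal {S : Type*} [Ring S] {n m : ℕ} (x : S) :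
    blockSum (Matrix.diagonal fun _ : Fin n => x) (Matrix.diagonal fun _ : Fin m => x) =
      Matrix.diagonal fun _ => x := by
  unfold blockSum
  ext i j
  rw [Matrix.submatrix_apply, Matrix.diagonal_apply]
  by_cases h : i = j
  · subst h
    rw [if_pos rfl]
    rcases finSumFinEquiv.symm i with i | i <;> simp
  · rw [if_neg h]
    have h' : finSumFinEquiv.symm i ≠ finSumFinEquiv.symm j := fun hh =>
      h (finSumFinEquiv.symm.injective hh)
    revert h'
    generalize finSumFinEquiv.symm i = i'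
    generalize finSumFinEquiv.symm j = j'
    intro h'
    rcases i' with i' | i' <;> rcases j' with j' | j'
    · rw [Matrix.fromBlocks_apply₁₁, Matrix.diagonal_apply_ne]
      intro hh; exact h' (by rw [hh])
    · rfl
    · rfl
    · rw [Matrix.fromBlocks_apply₂₂, Matrix.diagonal_apply_ne]
      intro hh; exact h' (by rw [hh])

theorem blockSum_one {S : Type*} [Ring S] {n m : ℕ} :
    blockSum (1 : Matrix (Fin n) (Fin n) S) (1 : Matrix (Fin m) (Fin m) S) = 1 := by
  rw [← Matrix.diagonal_one, ← Matrix.diagonal_one, blockSum_diagonal, Matrix.diagonal_one]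

theorem blockSum_Q {n m : ℕ} (c : ℤ) :
    blockSum (Q R (Fin n) c) (Q R (Fin m) c) = Q R (Fin (n + m)) c :=
  blockSum_diagonal _

theorem FinW.blockSum {n m : ℕ} {D : ℕ} {X : Matrix (Fin n) (Fin n) (Op R)}
    {Y : Matrix (Fin m) (Fin m) (Op R)} (hX : FinW D X) (hY : FinW D Y) :
    FinW D (BHS16.blockSum X Y) := by
  intro i j a b h
  unfold BHS16.blockSum at h
  rw [Matrix.submatrix_apply] at h
  revert h
  generalize finSumFinEquiv.symm i = i'
  generalize finSumFinEquiv.symm j = j'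
  intro h
  rcases i' with i' | i' <;> rcases j' with j' | j'
  · exact hX i' j' a b h
  · simp at h
  · simp at h
  · exact hY i' j' a b h

theorem finW_zero {ι κ : Type*} (D : ℕ) : FinW D (0 : Matrix ι κ (Op R)) := by
  intro i j a b h; simp at h

theorem kap_blockSum {n m : ℕ} {D : ℕ} (e : Matrix (Fin n) (Fin n) (Op R))
    (f : Matrix (Fin m) (Fin m) (Op R)) (he : e * e = e) (hf : f * f = f) (hD : FinW D e)
    (hD' : FinW D f) (h : blockSum e f * blockSum e f = blockSum e f)
    (hD'' : FinW D (blockSum e f)) :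
    kap D (blockSum e f) h hD'' = kap D e he hD + kap D f hf hD' := by
  have h1 : blockSum e (0 : Matrix (Fin m) (Fin m) (Op R)) * blockSum e 0 = blockSum e 0 := by
    rw [blockSum_mul, he, mul_zero]
  have h2 : blockSum (0 : Matrix (Fin n) (Fin n) (Op R)) f * blockSum 0 f = blockSum 0 f := by
    rw [blockSum_mul, hf, mul_zero]
  have e1 : kap D (blockSum e 0) h1 (hD.blockSum (finW_zero D)) = kap D e he hD := by
    apply kap_iso _ _ _ _ _ _
      ((Matrix.fromRows e 0).submatrix finSumFinEquiv.symm id)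
      ((Matrix.fromCols e 0).submatrix id finSumFinEquiv.symm)
    · rw [Matrix.submatrix_mul _ _ _ id _ Function.bijective_id |>.symm]
      unfold blockSum
      congr 1
      rw [Matrix.fromRows_mul_fromCols]
      simp [he]
    · rw [Matrix.submatrix_mul_equiv, Matrix.submatrix_id_id, Matrix.fromCols_mul_fromRows]
      simp [he]
  have e2 : kap D (blockSum 0 f) h2 ((finW_zero D).blockSum hD') = kap D f hf hD' := by
    apply kap_iso _ _ _ _ _ _
      ((Matrix.fromRows 0 f).submatrix finSumFinEquiv.symm id)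
      ((Matrix.fromCols 0 f).submatrix id finSumFinEquiv.symm)
    · rw [Matrix.submatrix_mul _ _ _ id _ Function.bijective_id |>.symm]
      unfold blockSum
      congr 1
      rw [Matrix.fromRows_mul_fromCols]
      simp [hf]
    · rw [Matrix.submatrix_mul_equiv, Matrix.submatrix_id_id, Matrix.fromCols_mul_fromRows]
      simp [hf]
  rw [← e1, ← e2]
  apply kap_split
  · rw [blockSum_mul, mul_zero, zero_mul, blockSum_zero]
  · rw [blockSum_mul, mul_zero, zero_mul, blockSum_zero]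
  · rw [blockSum_add, add_zero, zero_add]

/-! ### Banded representations -/

variable {S : Type v} [Ring S]

/-- A ring homomorphism into operators whose values have finite band width. -/
def BandedRep (ρ : S →+* Op R) : Prop :=
  ∀ s, ∃ D : ℕ, ∀ a b, ent (ρ s) a b ≠ 0 → a - b ≤ D ∧ b - a ≤ D

theorem BandedRep.band {ρ : S →+* Op R} (hρ : BandedRep ρ) {n : ℕ}
    (X : Matrix (Fin n) (Fin n) S) : ∃ D : ℕ, Band D (ρ.mapMatrix X) := by
  choose d hd using hρ
  refine ⟨∑ i, ∑ j, d (X i j), ?_⟩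
  intro i j a b h
  have h1 := hd (X i j) a b h
  have h2 : d (X i j) ≤ ∑ i, ∑ j, d (X i j) :=
    (Finset.single_le_sum (f := fun j => d (X i j)) (fun _ _ => Nat.zero_le _)
      (Finset.mem_univ j)).trans
    (Finset.single_le_sum (f := fun i => ∑ j, d (X i j)) (fun _ _ => Nat.zero_le _)
      (Finset.mem_univ i))
  omega

/-- The idempotent `A Q₀ A⁻¹`. -/
def conjQ (ρ : S →+* Op R) {n : ℕ} (A : GL (Fin n) S) : Matrix (Fin n) (Fin n) (Op R) :=
  ρ.mapMatrix (A : Matrix (Fin n) (Fin n) S) * Q R (Fin n) 0 *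
    ρ.mapMatrix ((A⁻¹ : GL (Fin n) S) : Matrix (Fin n) (Fin n) S)

theorem rho_mul_inv (ρ : S →+* Op R) {n : ℕ} (A : GL (Fin n) S) :
    ρ.mapMatrix (A : Matrix (Fin n) (Fin n) S) *
      ρ.mapMatrix ((A⁻¹ : GL (Fin n) S) : Matrix (Fin n) (Fin n) S) = 1 := by
  rw [← map_mul, Units.mul_inv, map_one]

theorem rho_inv_mul (ρ : S →+* Op R) {n : ℕ} (A : GL (Fin n) S) :
    ρ.mapMatrix ((A⁻¹ : GL (Fin n) S) : Matrix (Fin n) (Fin n) S) *
      ρ.mapMatrix (A : Matrix (Fin n) (Fin n) S) = 1 := by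
  rw [← map_mul, Units.inv_mul, map_one]

theorem near_conj {ι : Type*} [Fintype ι] [DecidableEq ι] {D E : ℕ} {q A B : Matrix ι ι (Op R)}
    (hq : Near D q) (hAB : A * B = 1) (hBA : B * A = 1) (hA : Band E A) (hB : Band E B) :
    Near (E + D + E) (A * q * B) := by
  constructor
  · calc (A * q * B) * (A * q * B) = A * q * (B * A) * q * B := by simp only [mul_assoc]
      _ = A * (q * q) * B := by rw [hBA]; simp only [mul_assoc, one_mul]
      _ = A * q * B := by rw [hq.idem]
  · have : A * q * B - Q R ι 0 = A * (q - Q R ι 0) * B + (A * Q R ι 0 - Q R ι 0 * A) * B := by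
      rw [mul_sub, sub_mul, sub_mul, mul_assoc (Q R ι 0), hAB, mul_one]; abel
    rw [this]
    exact ((hA.mul_finW hq.fin).mul_band hB).add ((hA.comm_Q.mul_band hB).mono (by omega))

theorem exists_near {ρ : S →+* Op R} (hρ : BandedRep ρ) {n : ℕ} (A : GL (Fin n) S) :
    ∃ D : ℕ, Near D (conjQ ρ A) := by
  obtain ⟨E, hE⟩ := hρ.band (A : Matrix (Fin n) (Fin n) S)
  obtain ⟨E', hE'⟩ := hρ.band ((A⁻¹ : GL (Fin n) S) : Matrix (Fin n) (Fin n) S)
  exact ⟨_, near_conj (near_Q 0) (rho_mul_inv ρ A) (rho_inv_mul ρ A)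
    (hE.mono (le_max_left E E')) (hE'.mono (le_max_right E E'))⟩

/-- The boundary class of an invertible matrix. -/
def bd {ρ : S →+* Op R} (hρ : BandedRep ρ) {n : ℕ} (A : GL (Fin n) S) : K0 R :=
  dd (Classical.choose (exists_near hρ A)) (conjQ ρ A) (Classical.choose_spec (exists_near hρ A))

theorem bd_eq {ρ : S →+* Op R} (hρ : BandedRep ρ) {n : ℕ} (A : GL (Fin n) S) {D : ℕ}
    (h : Near D (conjQ ρ A)) : bd hρ A = dd D (conjQ ρ A) h := by
  unfold bd
  set E := Classical.choose (exists_near hρ A) with hE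
  have hE' : Near E (conjQ ρ A) := Classical.choose_spec (exists_near hρ A)
  rw [dd_window (le_max_left E D) _ _ (hE'.mono (le_max_left E D)),
    dd_window (le_max_right E D) _ h (hE'.mono (le_max_left E D))]

theorem dd_congr {ι : Type*} [Fintype ι] [DecidableEq ι] {D : ℕ} {q q' : Matrix ι ι (Op R)}
    (h : q = q') (hq : Near D q) (hq' : Near D q') : dd D q hq = dd D q' hq' := by
  subst h; rfl

theorem bd_mul {ρ : S →+* Op R} (hρ : BandedRep ρ) {n : ℕ} (A B : GL (Fin n) S) :
    bd hρ (A * B) = bd hρ A + bd hρ B := by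
  obtain ⟨E, hE⟩ := hρ.band (A : Matrix (Fin n) (Fin n) S)
  obtain ⟨E', hE'⟩ := hρ.band ((A⁻¹ : GL (Fin n) S) : Matrix (Fin n) (Fin n) S)
  obtain ⟨D, hD⟩ := exists_near hρ B
  have hA1 := hE.mono (le_max_left E E')
  have hA2 := hE'.mono (le_max_right E E')
  set E'' := max E E'
  have h1 : conjQ ρ (A * B) = ρ.mapMatrix (A : Matrix (Fin n) (Fin n) S) * conjQ ρ B *
      ρ.mapMatrix ((A⁻¹ : GL (Fin n) S) : Matrix (Fin n) (Fin n) S) := by
    unfold conjQ
    rw [mul_inv_rev, Units.val_mul, Units.val_mul, map_mul, map_mul]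
    simp only [mul_assoc]
  have n1 := near_conj hD (rho_mul_inv ρ A) (rho_inv_mul ρ A) hA1 hA2
  have n2 := (near_conj (near_Q 0) (rho_mul_inv ρ A) (rho_inv_mul ρ A) hA1 hA2).mono
    (show E'' + 0 + E'' ≤ E'' + D + E'' by omega)
  have key := dd_conj (conjQ ρ B) hD _ _ (rho_mul_inv ρ A) (rho_inv_mul ρ A) hA1 hA2 n1 n2
  have e2 : bd hρ A = dd (E'' + D + E'') (ρ.mapMatrix (A : Matrix (Fin n) (Fin n) S) *
      Q R (Fin n) 0 * ρ.mapMatrix ((A⁻¹ : GL (Fin n) S) : Matrix (Fin n) (Fin n) S)) n2 :=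
    bd_eq hρ A n2
  rw [bd_eq hρ B hD, ← key, e2, bd_eq hρ (A * B) (D := E'' + D + E'') (by rw [h1]; exact n1),
    dd_congr h1 _ n1]
  abel

theorem bd_stab {ρ : S →+* Op R} (hρ : BandedRep ρ) {n m : ℕ} (A : GL (Fin n) S)
    (C : GL (Fin (n + m)) S)
    (h : (C : Matrix (Fin (n + m)) (Fin (n + m)) S) =
      blockSum (A : Matrix (Fin n) (Fin n) S) (1 : Matrix (Fin m) (Fin m) S)) :
    bd hρ C = bd hρ A := by
  obtain ⟨D, hD⟩ := exists_near hρ A
  have hinv : ((C⁻¹ : GL (Fin (n + m)) S) : Matrix (Fin (n + m)) (Fin (n + m)) S) =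
      blockSum ((A⁻¹ : GL (Fin n) S) : Matrix (Fin n) (Fin n) S)
        (1 : Matrix (Fin m) (Fin m) S) := by
    have h2 : (C : Matrix (Fin (n + m)) (Fin (n + m)) S) *
        blockSum ((A⁻¹ : GL (Fin n) S) : Matrix (Fin n) (Fin n) S)
        (1 : Matrix (Fin m) (Fin m) S) = 1 := by
      rw [h, blockSum_mul, Units.mul_inv, mul_one, blockSum_one]
    calc ((C⁻¹ : GL (Fin (n + m)) S) : Matrix (Fin (n + m)) (Fin (n + m)) S)
        = ((C⁻¹ : GL (Fin (n + m)) S) : Matrix (Fin (n + m)) (Fin (n + m)) S) *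
          ((C : Matrix (Fin (n + m)) (Fin (n + m)) S) *
            blockSum ((A⁻¹ : GL (Fin n) S) : Matrix (Fin n) (Fin n) S)
            (1 : Matrix (Fin m) (Fin m) S)) := by rw [h2, mul_one]
      _ = _ := by rw [← mul_assoc, Units.inv_mul, one_mul]
  have h1 : conjQ ρ C = blockSum (conjQ ρ A) (Q R (Fin m) 0) := by
    unfold conjQ
    rw [h, hinv, blockSum_map, blockSum_map, map_one, ← blockSum_Q, blockSum_mul, blockSum_mul,
      one_mul, mul_one]
  have hN : Near D (blockSum (conjQ ρ A) (Q R (Fin m) 0)) := by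
    constructor
    · rw [blockSum_mul, hD.idem, Q_idem]
    · rw [← blockSum_Q, blockSum_sub, sub_self]
      exact hD.fin.blockSum (finW_zero D)
  rw [bd_eq hρ A hD, bd_eq hρ C (D := D) (by rw [h1]; exact hN), dd_congr h1 _ hN]
  unfold dd
  have e1 : blockSum (conjQ ρ A) (Q R (Fin m) 0) - Q R (Fin (n + m)) (-(D : ℤ)) =
      blockSum (conjQ ρ A - Q R (Fin n) (-(D : ℤ))) (Q R (Fin m) 0 - Q R (Fin m) (-(D : ℤ))) := by
    rw [← blockSum_Q, blockSum_sub]
  have e2 : Q R (Fin (n + m)) 0 - Q R (Fin (n + m)) (-(D : ℤ)) =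
      blockSum (Q R (Fin n) 0 - Q R (Fin n) (-(D : ℤ)))
        (Q R (Fin m) 0 - Q R (Fin m) (-(D : ℤ))) := by
    rw [← blockSum_Q, ← blockSum_Q, blockSum_sub]
  have i1 := hN.idem_sub
  have f1 := hN.finW_sub
  have i2 := (near_Q (R := R) (ι := Fin (n + m)) D).idem_sub
  have f2 := (near_Q (R := R) (ι := Fin (n + m)) D).finW_sub
  rw [e1] at i1 f1
  rw [e2] at i2 f2
  rw [kap_congr e1 _ _ i1 f1, kap_congr e2 _ _ i2 f2,
    kap_blockSum _ _ hD.idem_sub (near_Q D).idem_sub hD.finW_sub (near_Q D).finW_sub,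
    kap_blockSum _ _ (near_Q D).idem_sub (near_Q D).idem_sub (near_Q D).finW_sub
      (near_Q D).finW_sub]
  abel

/-- The boundary homomorphism. -/
def bdHom {ρ : S →+* Op R} (hρ : BandedRep ρ) : K1 S →+ K0 R :=
  K1.lift (fun _ A => bd hρ A) (fun _ A B => bd_mul hρ A B)
    (fun _ _ A C h => bd_stab hρ A C h)

theorem bdHom_mk {ρ : S →+* Op R} (hρ : BandedRep ρ) {n : ℕ} (A : GL (Fin n) S) :
    bdHom hρ (K1.mk A) = bd hρ A := K1.lift_mk _ _ _ A

end

end Pool.Agent.Lib.BHS16
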