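import Pool.Agent.Lib.MP_16fe43_al.Ops

set_option autoImplicit false
set_option linter.unusedSectionVars false

/-!
# The boundary map `K₁(S) → K₀(R)` for rings `S` acting by banded operators on `R^(ℤ)`
-/

namespace Pool.Agent.Lib.BHS16

universe u v

noncomputable section

variable {R : Type u} [Ring R]

section Q

variable {ι : Type*} [Fintype ι] [DecidableEq ι] {κ : Type*} [Fintype κ] [DecidableEq κ]

/-- The projection onto the coordinates `< c`, as a scalar matrix of operators. -/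
def Q (R : Type u) [Ring R] (ι : Type*) [Fintype ι] [DecidableEq ι] (c : ℤ) :
    Matrix ι ι (Op R) :=
  Matrix.diagonal fun _ => proj R (fun a => a < c)

theorem ent_Q (c : ℤ) (i j : ι) (a b : ℤ) :
    ent (Q R ι c i j) a b = if i = j ∧ a = b ∧ b < c then 1 else 0 := by
  unfold Q
  rw [Matrix.diagonal_apply]
  by_cases h : i = j
  · rw [if_pos h, ent_proj]; simp [h]
  · rw [if_neg h]; simp [h]

theorem ent_Q_mul (c : ℤ) (X : Matrix ι κ (Op R)) (i : ι) (j : κ) (a b : ℤ) :
    ent ((Q R ι c * X) i j) a b = if a < c then ent (X i j) a b else 0 := by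
  unfold Q
  rw [Matrix.diagonal_mul, proj_mul_apply]

theorem ent_mul_Q (c : ℤ) (X : Matrix κ ι (Op R)) (i : κ) (j : ι) (a b : ℤ) :
    ent ((X * Q R ι c) i j) a b = if b < c then ent (X i j) a b else 0 := by
  unfold Q
  rw [Matrix.mul_diagonal, mul_proj_apply]

theorem mat_ext {X Y : Matrix ι κ (Op R)} (h : ∀ i j a b, ent (X i j) a b = ent (Y i j) a b) :
    X = Y := by
  ext1 i j
  exact op_ext (h i j)

theorem Q_mul_Q (c d : ℤ) : Q R ι c * Q R ι d = Q R ι (min c d) := by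
  apply mat_ext
  intro i j a b
  rw [ent_Q_mul, ent_Q, ent_Q]
  by_cases h : i = j <;> by_cases h2 : a = b <;> simp [h, h2]
  by_cases h3 : b < c <;> simp [h3]

theorem Q_idem (c : ℤ) : Q R ι c * Q R ι c = Q R ι c := by
  rw [Q_mul_Q, min_self]

theorem Q_mul_Q_of_le {c d : ℤ} (h : c ≤ d) : Q R ι c * Q R ι d = Q R ι c := by
  rw [Q_mul_Q, min_eq_left h]

theorem Q_mul_Q_of_ge {c d : ℤ} (h : c ≤ d) : Q R ι d * Q R ι c = Q R ι c := by
  rw [Q_mul_Q, min_eq_right h]

theorem finW_Q_sub {c d : ℤ} {D : ℕ} (hc : -(D : ℤ) ≤ c) (hcd : c ≤ d) (hd : d ≤ D) :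
    FinW D (Q R ι d - Q R ι c) := by
  intro i j a b h
  rw [Matrix.sub_apply, ent_sub, ent_Q, ent_Q] at h
  rw [mem_win, mem_win]
  by_cases h1 : i = j ∧ a = b
  · obtain ⟨h1, h2⟩ := h1
    simp only [h1, h2, true_and] at h
    by_cases h3 : b < c
    · have : b < d := by omega
      simp [h3, this] at h
    · by_cases h4 : b < d
      · omega
      · simp [h3, h4] at h
  · exfalso
    apply h
    have e1 : ¬ (i = j ∧ a = b ∧ b < d) := fun hh => h1 ⟨hh.1, hh.2.1⟩
    have e2 : ¬ (i = j ∧ a = b ∧ b < c) := fun hh => h1 ⟨hh.1, hh.2.1⟩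
    rw [if_neg e1, if_neg e2, sub_zero]

theorem FinW.Q_mul {D : ℕ} {X : Matrix ι κ (Op R)} (hX : FinW D X) {c : ℤ} (hc : c ≤ -(D : ℤ)) :
    Q R ι c * X = 0 := by
  apply mat_ext
  intro i j a b
  rw [ent_Q_mul]
  split_ifs with h
  · by_contra h2
    have := (hX i j a b h2).1
    rw [mem_win] at this
    omega
  · rfl

theorem FinW.mul_Q {D : ℕ} {X : Matrix κ ι (Op R)} (hX : FinW D X) {c : ℤ} (hc : c ≤ -(D : ℤ)) :
    X * Q R ι c = 0 := by
  apply mat_ext
  intro i j a b
  rw [ent_mul_Q]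
  split_ifs with h
  · by_contra h2
    have := (hX i j a b h2).2
    rw [mem_win] at this
    omega
  · rfl

theorem Band.comm_Q {D : ℕ} {X : Matrix ι ι (Op R)} (hX : Band D X) :
    FinW D (X * Q R ι 0 - Q R ι 0 * X) := by
  intro i j a b h
  rw [Matrix.sub_apply, ent_sub, ent_mul_Q, ent_Q_mul] at h
  rw [mem_win, mem_win]
  have h0 : ent (X i j) a b ≠ 0 := by
    intro h0; simp [h0] at h
  have := hX i j a b h0
  by_cases ha : a < 0 <;> by_cases hb : b < 0
  · simp [ha, hb] at h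
  · omega
  · omega
  · simp [ha, hb] at h

/-- The idempotents which differ from `Q 0` by an operator supported in the window `D`. -/
structure Near (D : ℕ) (q : Matrix ι ι (Op R)) : Prop where
  idem : q * q = q
  fin : FinW D (q - Q R ι 0)

theorem Near.mono {D E : ℕ} (h : D ≤ E) {q : Matrix ι ι (Op R)} (hq : Near D q) : Near E q :=
  ⟨hq.idem, hq.fin.mono h⟩

theorem Near.mul_Q {D : ℕ} {q : Matrix ι ι (Op R)} (hq : Near D q) {c : ℤ}
    (hc : c ≤ -(D : ℤ)) : q * Q R ι c = Q R ι c := by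
  have h := hq.fin.mul_Q (ι := ι) hc
  rw [sub_mul, Q_mul_Q_of_ge (by omega)] at h
  exact sub_eq_zero.mp h

theorem Near.Q_mul {D : ℕ} {q : Matrix ι ι (Op R)} (hq : Near D q) {c : ℤ}
    (hc : c ≤ -(D : ℤ)) : Q R ι c * q = Q R ι c := by
  have h := hq.fin.Q_mul (ι := ι) hc
  rw [mul_sub, Q_mul_Q_of_le (by omega)] at h
  exact sub_eq_zero.mp h

theorem idem_sub {N : Type*} [Ring N] {q r : N} (hq : q * q = q) (hr : r * r = r)
    (h1 : q * r = r) (h2 : r * q = r) : (q - r) * (q - r) = q - r := by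
  rw [sub_mul, mul_sub, mul_sub, hq, hr, h1, h2]; simp

theorem Near.finW_sub {D : ℕ} {q : Matrix ι ι (Op R)} (hq : Near D q) :
    FinW D (q - Q R ι (-(D : ℤ))) := by
  have h1 := hq.fin.add (finW_Q_sub (R := R) (ι := ι) (c := -(D : ℤ)) (d := 0) (D := D)
    (by omega) (by omega) (by omega))
  rwa [sub_add_sub_cancel] at h1

theorem Near.idem_sub {D : ℕ} {q : Matrix ι ι (Op R)} (hq : Near D q) :
    (q - Q R ι (-(D : ℤ))) * (q - Q R ι (-(D : ℤ))) = q - Q R ι (-(D : ℤ)) :=
  BHS16.idem_sub hq.idem (Q_idem _) (hq.mul_Q le_rfl) (hq.Q_mul le_rfl)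

theorem near_Q (D : ℕ) : Near D (Q R ι 0) :=
  ⟨Q_idem _, by rw [sub_self]; intro i j a b h; simp at h⟩

/-- The relative class of an idempotent near `Q 0`. -/
def dd (D : ℕ) (q : Matrix ι ι (Op R)) (hq : Near D q) : K0 R :=
  kap D (q - Q R ι (-(D : ℤ))) hq.idem_sub hq.finW_sub -
    kap D (Q R ι 0 - Q R ι (-(D : ℤ))) (near_Q D).idem_sub (near_Q D).finW_sub

/-- Splitting off an orthogonal summand. -/
theorem kap_split {D : ℕ} (e f g : Matrix ι ι (Op R)) (he : e * e = e) (hf : f * f = f)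
    (hg : g * g = g) (hef : e * f = 0) (hfe : f * e = 0) (hD : FinW D e) (hD' : FinW D f)
    (hD'' : FinW D g) (h : g = e + f) :
    kap D g hg hD'' = kap D e he hD + kap D f hf hD' := by
  subst h
  exact kap_add e f he hf hef hfe hD hD' hg hD''

theorem orth_sub {N : Type*} [Ring N] {q r s : N} (hr : r * r = r) (hqr : q * r = r)
    (hqs : q * s = s) (hrs : r * s = s) : (q - r) * (r - s) = 0 := by
  rw [sub_mul, mul_sub, mul_sub, hqr, hr, hqs, hrs]; simp

theorem orth_sub' {N : Type*} [Ring N] {q r s : N} (hr : r * r = r) (hqr : r * q = r)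
    (hqs : s * q = s) (hrs : s * r = s) : (r - s) * (q - r) = 0 := by
  rw [sub_mul, mul_sub, mul_sub, hqr, hr, hqs, hrs]; simp

theorem dd_window {D E : ℕ} (h : D ≤ E) (q : Matrix ι ι (Op R)) (hq : Near D q)
    (hq' : Near E q) : dd D q hq = dd E q hq' := by
  have hDE : -(E : ℤ) ≤ -(D : ℤ) := by omega
  have key : ∀ (p : Matrix ι ι (Op R)) (hp : Near D p) (hp' : Near E p),
      kap E (p - Q R ι (-(E : ℤ))) hp'.idem_sub hp'.finW_sub =
      kap D (p - Q R ι (-(D : ℤ))) hp.idem_sub hp.finW_sub +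
      kap E (Q R ι (-(D : ℤ)) - Q R ι (-(E : ℤ)))
        (BHS16.idem_sub (Q_idem _) (Q_idem _) (Q_mul_Q_of_ge hDE) (Q_mul_Q_of_le hDE))
        (finW_Q_sub le_rfl hDE (by omega)) := by
    intro p hp hp'
    rw [kap_window (E := E) (p - Q R ι (-(D : ℤ))) hp.idem_sub hp.finW_sub
      (hp.finW_sub.mono h)]
    apply kap_split
    · exact orth_sub (Q_idem _) (hp.mul_Q le_rfl) (hp.mul_Q hDE) (Q_mul_Q_of_ge hDE)
    · exact orth_sub' (Q_idem _) (hp.Q_mul le_rfl) (hp.Q_mul hDE) (Q_mul_Q_of_le hDE)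
    · rw [sub_add_sub_cancel]
  unfold dd
  rw [key q hq hq', key _ (near_Q D) (near_Q E)]
  abel

/-- Change of the relative class under conjugation. -/
theorem dd_conj {D E : ℕ} (q : Matrix ι ι (Op R)) (hq : Near D q) (A B : Matrix ι ι (Op R))
    (hAB : A * B = 1) (hBA : B * A = 1) (hA : Band E A) (hB : Band E B) {F : ℕ}
    (h1 : Near F (A * q * B)) (h2 : Near F (A * Q R ι 0 * B)) :
    dd F (A * q * B) h1 - dd F (A * Q R ι 0 * B) h2 = dd D q hq := by
  -- a large window
  set r := A * Q R ι (-(D : ℤ)) * B with hr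
  have hconj : ∀ x y : Matrix ι ι (Op R), (A * x * B) * (A * y * B) = A * (x * y) * B := by
    intro x y
    calc (A * x * B) * (A * y * B) = A * x * (B * A) * y * B := by
          simp only [mul_assoc]
      _ = A * (x * y) * B := by rw [hBA]; simp only [mul_assoc, one_mul]
  have hrr : r * r = r := by rw [hr, hconj, Q_idem]
  -- window of `A x B` for `x` finite
  have hW : ∀ (x : Matrix ι ι (Op R)), FinW D x → FinW (E + D + E) (A * x * B) :=
    fun x hx => (hA.mul_finW hx).mul_band hB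
  have hcommA : FinW (E + E) (A * Q R ι 0 * B - Q R ι 0) := by
    have : A * Q R ι 0 * B - Q R ι 0 = (A * Q R ι 0 - Q R ι 0 * A) * B := by
      rw [sub_mul, mul_assoc (Q R ι 0), hAB, mul_one]
    rw [this]
    exact hA.comm_Q.mul_band hB
  have hrQ : FinW (E + D + E) (r - Q R ι 0) := by
    have : r - Q R ι 0 = (A * Q R ι 0 * B - Q R ι 0) -
        A * (Q R ι 0 - Q R ι (-(D : ℤ))) * B := by
      rw [mul_sub, sub_mul, hr]; abel
    rw [this]
    exact (hcommA.mono (by omega)).sub (hW _ (near_Q D).finW_sub)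
  have hrNear : Near (E + D + E) r := ⟨hrr, hrQ⟩
  set G := F + (E + D + E) with hG
  have hFG : F ≤ G := by omega
  have hEG : E + D + E ≤ G := by omega
  rw [dd_window hFG _ h1 (h1.mono hFG), dd_window hFG _ h2 (h2.mono hFG)]
  -- the basic computation
  have key : ∀ (p : Matrix ι ι (Op R)) (hp : Near D p) (hp' : Near G (A * p * B)),
      kap G (A * p * B - Q R ι (-(G : ℤ))) hp'.idem_sub hp'.finW_sub =
      kap D (p - Q R ι (-(D : ℤ))) hp.idem_sub hp.finW_sub +
      kap G (r - Q R ι (-(G : ℤ))) (hrNear.mono hEG).idem_sub (hrNear.mono hEG).finW_sub := by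
    intro p hp hp'
    have hpr : A * p * B * r = r := by rw [hr, hconj, hp.mul_Q le_rfl]
    have hrp : r * (A * p * B) = r := by rw [hr, hconj, hp.Q_mul le_rfl]
    have e1 : (A * p * B - r) * (A * p * B - r) = A * p * B - r :=
      BHS16.idem_sub hp'.idem hrr hpr hrp
    have e0 : A * p * B - r = A * (p - Q R ι (-(D : ℤ))) * B := by
      rw [mul_sub, sub_mul]
    have e2 : FinW G (A * p * B - r) := by
      rw [e0]; exact (hW _ hp.finW_sub).mono hEG
    have e3 : kap D (p - Q R ι (-(D : ℤ))) hp.idem_sub hp.finW_sub =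
        kap G (A * p * B - r) e1 e2 := by
      apply kap_iso _ _ _ _ _ _ ((p - Q R ι (-(D : ℤ))) * B) (A * (p - Q R ι (-(D : ℤ))))
      · calc (p - Q R ι (-(D : ℤ))) * B * (A * (p - Q R ι (-(D : ℤ))))
            = (p - Q R ι (-(D : ℤ))) * (B * A) * (p - Q R ι (-(D : ℤ))) := by
              simp only [mul_assoc]
          _ = p - Q R ι (-(D : ℤ)) := by rw [hBA, mul_one, hp.idem_sub]
      · calc A * (p - Q R ι (-(D : ℤ))) * ((p - Q R ι (-(D : ℤ))) * B)
            = A * ((p - Q R ι (-(D : ℤ))) * (p - Q R ι (-(D : ℤ)))) * B := by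
              simp only [mul_assoc]
          _ = A * p * B - r := by rw [hp.idem_sub, e0]
    rw [e3]
    apply kap_split
    · exact orth_sub hrr hpr (hp'.mul_Q le_rfl) ((hrNear.mono hEG).mul_Q le_rfl)
    · exact orth_sub' hrr hrp (hp'.Q_mul le_rfl) ((hrNear.mono hEG).Q_mul le_rfl)
    · rw [sub_add_sub_cancel]
  unfold dd
  rw [key q hq (h1.mono hFG), key _ (near_Q D) (h2.mono hFG)]
  abel

end Q

end

end Pool.Agent.Lib.BHS16
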