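import Pool.Agent.Lib.MP_16fe43_al.BdryHom

set_option autoImplicit false
set_option linter.unusedSectionVars false

/-!
# The group ring of `G × ℤ` acting on `(ℤG)^(ℤ)` and the injection of `K̃₀` into `Wh`
-/

namespace Pool.Agent.Lib.BHS16

universe u v

noncomputable section

section ops

variable {R : Type u} [Ring R]

/-- Left multiplication by `r`, as an operator. -/
def leftOp (r : R) : Op R := Op.of
  { toFun := fun v => v.mapRange (fun x => r * x) (mul_zero r)
    map_add' := fun v w => by ext a; simp [mul_add]
    map_smul' := fun s v => by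
      ext a
      simp [MulOpposite.smul_eq_mul_unop, mul_assoc] }

theorem ent_leftOp (r : R) (a b : ℤ) : ent (leftOp r) a b = if a = b then r else 0 := by
  change (Finsupp.mapRange (fun x => r * x) (mul_zero r) (Finsupp.single b (1 : R))) a = _
  rw [Finsupp.mapRange_apply, Finsupp.single_apply]
  by_cases h : b = a
  · rw [if_pos h, if_pos h.symm, mul_one]
  · rw [if_neg h, if_neg (fun hh => h hh.symm), mul_zero]

/-- The shift by `k`, as an operator. -/
def shiftOp (R : Type u) [Ring R] (k : ℤ) : Op R := Op.of
  { toFun := fun v => Finsupp.equivMapDomain (Equiv.addRight k) v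
    map_add' := fun v w => by ext a; simp
    map_smul' := fun s v => by ext a; simp }

theorem ent_shiftOp (k a b : ℤ) : ent (shiftOp R k) a b = if a = b + k then 1 else 0 := by
  change (Finsupp.equivMapDomain (Equiv.addRight k) (Finsupp.single b (1 : R))) a = _
  rw [Finsupp.equivMapDomain_apply, Finsupp.single_apply]
  simp only [Equiv.addRight_symm, Equiv.coe_addRight]
  by_cases h : b = a + -k
  · rw [if_pos h, if_pos (by omega)]
  · rw [if_neg h, if_neg (by omega)]

theorem ent_mul_leftOp (x : Op R) (r : R) (a b : ℤ) :
    ent (x * leftOp r) a b = ent x a b * r := by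
  rw [ent_mul_of_subset _ _ _ _ {b} (by
    intro c hc
    rw [ent_leftOp] at hc
    by_contra h
    rw [Finset.mem_singleton] at h
    exact hc (if_neg h)), Finset.sum_singleton, ent_leftOp, if_pos rfl]

theorem ent_mul_shiftOp (x : Op R) (k : ℤ) (a b : ℤ) :
    ent (x * shiftOp R k) a b = ent x a (b + k) := by
  rw [ent_mul_of_subset _ _ _ _ {b + k} (by
    intro c hc
    rw [ent_shiftOp] at hc
    by_contra h
    rw [Finset.mem_singleton] at h
    exact hc (if_neg h)), Finset.sum_singleton, ent_shiftOp, if_pos rfl, mul_one]

/-- Left multiplication, as a ring homomorphism. -/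
def leftHom (R : Type u) [Ring R] : R →+* Op R where
  toFun := leftOp
  map_one' := by
    apply op_ext; intro a b; rw [ent_leftOp, ent_one]
  map_mul' r s := by
    apply op_ext; intro a b
    rw [ent_mul_leftOp, ent_leftOp, ent_leftOp]
    split_ifs <;> simp
  map_zero' := by
    apply op_ext; intro a b; rw [ent_leftOp, ent_zero, ite_self]
  map_add' r s := by
    apply op_ext; intro a b
    rw [ent_add, ent_leftOp, ent_leftOp, ent_leftOp]
    split_ifs <;> simp

/-- Left multiplication by `r` followed by the shift by `k`. -/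
def monoOp (r : R) (k : ℤ) : Op R := leftOp r * shiftOp R k

theorem ent_monoOp (r : R) (k a b : ℤ) : ent (monoOp r k) a b = if a = b + k then r else 0 := by
  unfold monoOp
  rw [ent_mul_shiftOp, ent_leftOp]

theorem ent_mul_monoOp (x : Op R) (r : R) (k a b : ℤ) :
    ent (x * monoOp r k) a b = ent x a (b + k) * r := by
  rw [ent_mul_of_subset _ _ _ _ {b + k} (by
    intro c hc
    rw [ent_monoOp] at hc
    by_contra h
    rw [Finset.mem_singleton] at h
    exact hc (if_neg h)), Finset.sum_singleton, ent_monoOp, if_pos rfl]

theorem monoOp_mul (r s : R) (k l : ℤ) :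
    monoOp r k * monoOp s l = monoOp (r * s) (k + l) := by
  apply op_ext; intro a b
  rw [ent_mul_monoOp, ent_monoOp, ent_monoOp]
  by_cases h : a = b + l + k
  · rw [if_pos h, if_pos (by omega)]
  · rw [if_neg h, if_neg (by omega), zero_mul]

theorem monoOp_zero_right (r : R) : monoOp r 0 = leftOp r := by
  apply op_ext; intro a b
  rw [ent_monoOp, ent_leftOp, add_zero]

theorem monoOp_one_zero : monoOp (1 : R) 0 = 1 := by
  apply op_ext; intro a b
  rw [ent_monoOp, ent_one, add_zero]

theorem monoOp_add (r s : R) (k : ℤ) : monoOp (r + s) k = monoOp r k + monoOp s k := by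
  apply op_ext; intro a b
  rw [ent_add, ent_monoOp, ent_monoOp, ent_monoOp]
  split_ifs <;> simp

end ops

section rep

variable (G : Type u) [Group G]

/-- The inclusion `ℤG → ℤ[G × ℤ]`. -/
def inclG : IntGroupRing G →+* IntGroupRing (G × Multiplicative ℤ) :=
  MonoidAlgebra.mapDomainRingHom ℤ (MonoidHom.inl G (Multiplicative ℤ))

/-- The action of `G × ℤ` by operators on `(ℤG)^(ℤ)`. -/
def actGZ : G × Multiplicative ℤ →* Op (IntGroupRing G) where
  toFun g := monoOp (MonoidAlgebra.single g.1 1) (Multiplicative.toAdd g.2)
  map_one' := monoOp_one_zero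
  map_mul' g h := by
    rw [monoOp_mul, MonoidAlgebra.single_mul_single, mul_one]
    rfl

/-- The action of `ℤ[G × ℤ]` by operators on `(ℤG)^(ℤ)`. -/
def repGZ : IntGroupRing (G × Multiplicative ℤ) →+* Op (IntGroupRing G) :=
  (MonoidAlgebra.lift ℤ (Op (IntGroupRing G)) (G × Multiplicative ℤ) (actGZ G) :
    IntGroupRing (G × Multiplicative ℤ) →ₐ[ℤ] Op (IntGroupRing G)).toRingHom

theorem repGZ_single (g : G × Multiplicative ℤ) (n : ℤ) :
    repGZ G (MonoidAlgebra.single g n) =
      monoOp (MonoidAlgebra.single g.1 n) (Multiplicative.toAdd g.2) := by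
  change MonoidAlgebra.lift ℤ (Op (IntGroupRing G)) (G × Multiplicative ℤ) (actGZ G)
    (MonoidAlgebra.single g n) = _
  rw [MonoidAlgebra.lift_single]
  have h : (MonoidAlgebra.single g.1 n : IntGroupRing G) =
      n • MonoidAlgebra.single g.1 1 := by
    rw [MonoidAlgebra.smul_single, smul_eq_mul, mul_one]
  rw [h]
  change n • monoOp (MonoidAlgebra.single g.1 1) _ = _
  have hadd : ∀ k : ℤ, (AddMonoidHom.mk' (fun r : IntGroupRing G => monoOp r k)
      (fun r s => monoOp_add r s k)) (n • MonoidAlgebra.single g.1 1) =
      n • (AddMonoidHom.mk' (fun r : IntGroupRing G => monoOp r k)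
      (fun r s => monoOp_add r s k)) (MonoidAlgebra.single g.1 1) := fun k => map_zsmul _ _ _
  exact (hadd _).symm

theorem repGZ_banded : BandedRep (repGZ G) := by
  intro s
  induction s using MonoidAlgebra.induction_linear with
  | zero => exact ⟨0, fun a b h => by rw [map_zero, ent_zero] at h; exact absurd rfl h⟩
  | add x y hx hy =>
    obtain ⟨D, hD⟩ := hx
    obtain ⟨E, hE⟩ := hy
    refine ⟨D + E, fun a b h => ?_⟩
    rw [map_add, ent_add] at h
    by_cases h1 : ent (repGZ G x) a b = 0
    · rw [h1, zero_add] at h
      have := hE a b h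
      push_cast; omega
    · have := hD a b h1
      push_cast; omega
  | single g n =>
    refine ⟨(Multiplicative.toAdd g.2).natAbs, fun a b h => ?_⟩
    rw [repGZ_single, ent_monoOp] at h
    have : a = b + Multiplicative.toAdd g.2 := by
      by_contra hh; exact h (if_neg hh)
    omega

theorem repGZ_incl (r : IntGroupRing G) : repGZ G (inclG G r) = leftOp r := by
  induction r using MonoidAlgebra.induction_linear with
  | zero =>
    rw [map_zero, map_zero]
    exact (map_zero (leftHom (IntGroupRing G))).symm
  | add x y hx hy =>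
    rw [map_add, map_add, hx, hy]
    exact (map_add (leftHom (IntGroupRing G)) x y).symm
  | single g n =>
    have : inclG G (MonoidAlgebra.single g n) = MonoidAlgebra.single (g, 1) n :=
      MonoidAlgebra.mapDomain_single
    rw [this, repGZ_single]
    exact monoOp_zero_right _

end rep

end

end Pool.Agent.Lib.BHS16
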