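import Pool.Agent.Lib.MP_16fe43_al.K1Block
import Pool.Agent.Lib.MP_16fe43_al.LaurentRep

set_option autoImplicit false
set_option linter.unusedSectionVars false

/-!
# The truncation lemma

`S` acts by banded operators on `R^(ℤ)`, and there are finite sets `D n` of integers such that
near the boundary of `D n` the entries of the operators lie in the subring `R0`.
-/

universe u v w

open Matrix

namespace Pool.Agent.Lib.CutK1

open Pool.Agent.Lib.MP_16fe43_al
open Pool.Agent.Lib.BHS16 (Op ent BandedRep ent_mul_of_subset ent_one ent_zero ent_add ent_neg)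

noncomputable section

/-- `x` is at distance at most `k` from the complement of `D` -/
def nearB (D : Finset ℤ) (k : ℕ) (x : ℤ) : Prop := ∃ j : ℤ, |j| ≤ k ∧ x + j ∉ D

theorem nearB.mono {D : Finset ℤ} {k k' : ℕ} (h : k ≤ k') {x : ℤ} (hx : nearB D k x) :
    nearB D k' x := by
  obtain ⟨j, hj, hj'⟩ := hx
  exact ⟨j, hj.trans (by exact_mod_cast h), hj'⟩

theorem nearB.move {D : Finset ℤ} {k b : ℕ} {x y : ℤ} (hx : nearB D k x) (h : |x - y| ≤ b) :
    nearB D (k + b) y := by
  obtain ⟨j, hj, hj'⟩ := hx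
  refine ⟨(x - y) + j, ?_, ?_⟩
  · calc |(x - y) + j| ≤ |x - y| + |j| := abs_add_le _ _
      _ ≤ _ := by push_cast; omega
  · have : y + (x - y + j) = x + j := by ring
    rwa [this]

theorem not_nearB_zero {D : Finset ℤ} {x : ℤ} (hx : x ∈ D) : ¬ nearB D 0 x := by
  rintro ⟨j, hj, hj'⟩
  have : j = 0 := by
    have := abs_nonpos_iff.1 (by exact_mod_cast hj : |j| ≤ 0)
    exact this
  rw [this, add_zero] at hj'
  exact hj' hx

variable {S : Type u} {R : Type v} [Ring S] [Ring R]

theorem ent_mul_of_zero (x y : Op R) (a b : ℤ) (t : Finset ℤ)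
    (h : ∀ c, c ∉ t → ent x a c * ent y c b = 0) :
    ent (x * y) a b = ∑ c ∈ t, ent x a c * ent y c b := by
  classical
  rw [ent_mul_of_subset x y a b (t ∪ (y (Finsupp.single b 1)).support) (by
    intro c hc
    exact Finset.mem_union_right _ (Finsupp.mem_support_iff.2 hc))]
  symm
  apply Finset.sum_subset Finset.subset_union_left
  intro c _ hc
  exact h c hc

/-- data for the truncation argument -/
structure CutData (S : Type u) (R : Type v) [Ring S] [Ring R] where
  /-- the action -/
  ρ : S →+* Op R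
  /-- it is banded -/
  band : BandedRep ρ
  /-- the windows -/
  D : ℕ → Finset ℤ
  /-- the subring -/
  R0 : Subring R
  /-- entries near the boundary -/
  tail : ∀ (s : S) (k : ℕ), ∀ᶠ n in Filter.atTop, ∀ x ∈ D n, nearB (D n) k x →
    ∀ y, ent (ρ s) y x ∈ R0

variable (c : CutData S R)

/-- the condition defining the ring -/
def CutData.Cond (k : ℕ) (n : ℕ) (s : S) (a : Matrix (c.D n) (c.D n) R) : Prop :=
  (∀ y x : c.D n, ¬ (nearB (c.D n) k y ∧ nearB (c.D n) k x) → a y x = ent (c.ρ s) y x) ∧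
  (∀ y x : c.D n, nearB (c.D n) k y → nearB (c.D n) k x → a y x ∈ c.R0)

theorem CutData.Cond.mul {c : CutData S R} {k k' b b' : ℕ} {n : ℕ} {s s' : S}
    {a a' : Matrix (c.D n) (c.D n) R} (h : c.Cond k n s a) (h' : c.Cond k' n s' a')
    (hb : ∀ y x, ent (c.ρ s) y x ≠ 0 → |y - x| ≤ b)
    (hb' : ∀ y x, ent (c.ρ s') y x ≠ 0 → |y - x| ≤ b')
    (ht : ∀ x ∈ c.D n, nearB (c.D n) (k + k' + b + b' + b) x → ∀ y, ent (c.ρ s) y x ∈ c.R0)
    (ht' : ∀ x ∈ c.D n, nearB (c.D n) (k + k' + b + b') x → ∀ y, ent (c.ρ s') y x ∈ c.R0) :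
    c.Cond (k + k' + b + b') n (s * s') (a * a') := by
  constructor
  · intro y x hyx
    rw [Matrix.mul_apply, map_mul]
    by_cases hx : nearB (c.D n) (k + k' + b + b') x
    · -- `y` is deep
      have hy : ¬ nearB (c.D n) (k + k' + b + b') y := fun hy => hyx ⟨hy, hx⟩
      have hout : ∀ z : ℤ, z ∉ c.D n → ent (c.ρ s) y z * ent (c.ρ s') z x = 0 := by
        intro z hz
        by_cases h0 : ent (c.ρ s) y z = 0
        · rw [h0, zero_mul]
        · exfalso
          apply hy
          refine ⟨z - y, ?_, by rwa [add_sub_cancel]⟩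
          have := hb _ _ h0
          rw [abs_sub_comm] at this
          push_cast
          omega
      rw [ent_mul_of_zero _ _ _ _ (c.D n) hout,
        ← Finset.sum_coe_sort (c.D n) (fun z => ent (c.ρ s) y z * ent (c.ρ s') z x)]
      apply Finset.sum_congr rfl
      intro z _
      have e1 : a y z = ent (c.ρ s) y z :=
        h.1 y z (fun hh => hy (hh.1.mono (by omega)))
      rw [e1]
      by_cases h0 : ent (c.ρ s) y z = 0
      · rw [h0, zero_mul, zero_mul]
      · have hz : ¬ nearB (c.D n) k' z := by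
          intro hz
          apply hy
          refine (hz.move (b := b) ?_).mono (by omega)
          rw [abs_sub_comm]
          exact hb _ _ h0
        rw [h'.1 z x (fun hh => hz hh.1)]
    · have hout : ∀ z : ℤ, z ∉ c.D n → ent (c.ρ s) y z * ent (c.ρ s') z x = 0 := by
        intro z hz
        by_cases h0 : ent (c.ρ s') z x = 0
        · rw [h0, mul_zero]
        · exfalso
          apply hx
          refine ⟨z - x, ?_, by rwa [add_sub_cancel]⟩
          have := hb' _ _ h0
          push_cast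
          omega
      rw [ent_mul_of_zero _ _ _ _ (c.D n) hout,
        ← Finset.sum_coe_sort (c.D n) (fun z => ent (c.ρ s) y z * ent (c.ρ s') z x)]
      apply Finset.sum_congr rfl
      intro z _
      have e1 : a' z x = ent (c.ρ s') z x :=
        h'.1 z x (fun hh => hx (hh.2.mono (by omega)))
      rw [e1]
      by_cases h0 : ent (c.ρ s') z x = 0
      · rw [h0, mul_zero, mul_zero]
      · have hz : ¬ nearB (c.D n) k z := by
          intro hz
          apply hx
          refine (hz.move (b := b') (hb' _ _ h0)).mono (by omega)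
        rw [h.1 y z (fun hh => hz hh.2)]
  · intro y x hy hx
    rw [Matrix.mul_apply]
    apply Subring.sum_mem
    intro z _
    apply Subring.mul_mem
    · by_cases hh : nearB (c.D n) k y ∧ nearB (c.D n) k z
      · exact h.2 y z hh.1 hh.2
      · rw [h.1 y z hh]
        by_cases h0 : ent (c.ρ s) y z = 0
        · rw [h0]; exact Subring.zero_mem _
        · exact ht z z.2 (hy.move (hb _ _ h0)) y
    · by_cases hh : nearB (c.D n) k' z ∧ nearB (c.D n) k' x
      · exact h'.2 z x hh.1 hh.2
      · rw [h'.1 z x hh]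
        exact ht' x x.2 hx z

theorem CutData.Cond.mono {c : CutData S R} {k k' : ℕ} {n : ℕ} {s : S}
    {a : Matrix (c.D n) (c.D n) R} (h : c.Cond k n s a) (hk : k ≤ k')
    (ht : ∀ x ∈ c.D n, nearB (c.D n) k' x → ∀ y, ent (c.ρ s) y x ∈ c.R0) :
    c.Cond k' n s a := by
  constructor
  · intro y x hh
    exact h.1 y x (fun h2 => hh ⟨h2.1.mono hk, h2.2.mono hk⟩)
  · intro y x hy hx
    by_cases hh : nearB (c.D n) k y ∧ nearB (c.D n) k x
    · exact h.2 y x hh.1 hh.2
    · rw [h.1 y x hh]
      exact ht x x.2 hx y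

theorem CutData.Cond.add {c : CutData S R} {k : ℕ} {n : ℕ} {s s' : S}
    {a a' : Matrix (c.D n) (c.D n) R} (h : c.Cond k n s a) (h' : c.Cond k n s' a') :
    c.Cond k n (s + s') (a + a') := by
  constructor
  · intro y x hh
    rw [Matrix.add_apply, h.1 y x hh, h'.1 y x hh, map_add, ent_add]
  · intro y x hy hx
    rw [Matrix.add_apply]
    exact Subring.add_mem _ (h.2 y x hy hx) (h'.2 y x hy hx)

theorem CutData.Cond.neg {c : CutData S R} {k : ℕ} {n : ℕ} {s : S}
    {a : Matrix (c.D n) (c.D n) R} (h : c.Cond k n s a) :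
    c.Cond k n (-s) (-a) := by
  constructor
  · intro y x hh
    rw [Matrix.neg_apply, h.1 y x hh, map_neg, ent_neg]
  · intro y x hy hx
    rw [Matrix.neg_apply]
    exact Subring.neg_mem _ (h.2 y x hy hx)

theorem CutData.exists_band (s : S) : ∃ b : ℕ, ∀ y x, ent (c.ρ s) y x ≠ 0 → |y - x| ≤ b := by
  obtain ⟨b, hb⟩ := c.band s
  refine ⟨b, fun y x h => ?_⟩
  have := hb y x h
  rw [abs_le]
  omega

/-- the truncation of the operator of `s` -/
def CutData.tau (s : S) (n : ℕ) : Matrix (c.D n) (c.D n) R := fun y x => ent (c.ρ s) y x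

theorem CutData.cond_tau (s : S) (n : ℕ) : c.Cond 0 n s (c.tau s n) := by
  constructor
  · intro y x _; rfl
  · intro y x hy _
    exact absurd hy (not_nearB_zero y.2)

/-- the ring of pairs of an element of `S` and a family of truncations -/
def CutData.E : Subring (S × (∀ n, Matrix (c.D n) (c.D n) R)) where
  carrier := {p | ∃ k, ∀ᶠ n in Filter.atTop, c.Cond k n p.1 (p.2 n)}
  mul_mem' := by
    rintro ⟨s, a⟩ ⟨s', a'⟩ ⟨k, hk⟩ ⟨k', hk'⟩
    obtain ⟨b, hb⟩ := c.exists_band s
    obtain ⟨b', hb'⟩ := c.exists_band s'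
    refine ⟨k + k' + b + b', ?_⟩
    filter_upwards [hk, hk', c.tail s (k + k' + b + b' + b), c.tail s' (k + k' + b + b')]
      with n h1 h2 h3 h4
    exact h1.mul h2 hb hb' h3 h4
  one_mem' := by
    refine ⟨0, Filter.Eventually.of_forall fun n => ?_⟩
    have h := c.cond_tau 1 n
    have e : c.tau 1 n = 1 := by
      ext y x
      show ent (c.ρ 1) y x = _
      rw [map_one, ent_one, Matrix.one_apply]
      simp only [Subtype.coe_inj]
    rw [e] at h
    exact h
  add_mem' := by
    rintro ⟨s, a⟩ ⟨s', a'⟩ ⟨k, hk⟩ ⟨k', hk'⟩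
    refine ⟨max k k', ?_⟩
    filter_upwards [hk, hk', c.tail s (max k k'), c.tail s' (max k k')] with n h1 h2 h3 h4
    exact (h1.mono (le_max_left _ _) h3).add (h2.mono (le_max_right _ _) h4)
  zero_mem' := by
    refine ⟨0, Filter.Eventually.of_forall fun n => ?_⟩
    have h := c.cond_tau 0 n
    have e : c.tau 0 n = 0 := by
      ext y x
      show ent (c.ρ 0) y x = _
      rw [map_zero, ent_zero, Matrix.zero_apply]
    rw [e] at h
    exact h
  neg_mem' := by
    rintro ⟨s, a⟩ ⟨k, hk⟩
    exact ⟨k, hk.mono fun n h => h.neg⟩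

/-- projection to `S` -/
def CutData.pr : c.E →+* S := (RingHom.fst _ _).comp c.E.subtype

/-- evaluation at `n` -/
def CutData.ev (n : ℕ) : c.E →+* Matrix (c.D n) (c.D n) R :=
  ((Pi.evalRingHom (fun n => Matrix (c.D n) (c.D n) R) n).comp (RingHom.snd _ _)).comp c.E.subtype

theorem CutData.pr_surjective : Function.Surjective c.pr := by
  intro s
  exact ⟨⟨(s, c.tau s), ⟨0, Filter.Eventually.of_forall fun n => c.cond_tau s n⟩⟩, rfl⟩

/-- elements of a ring `Q` acting diagonally -/
structure CutData.Diag (Q : Type w) [Ring Q] where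
  /-- the map to `S` -/
  ι : Q →+* S
  /-- the diagonal entries -/
  ψ : ℤ → (Q →+* R)
  /-- compatibility -/
  comp : ∀ q y x, ent (c.ρ (ι q)) y x = if y = x then ψ x q else 0

variable {c} {Q : Type w} [Ring Q]

/-- the lift of a diagonal action -/
def CutData.Diag.lift (d : c.Diag Q) : Q →+* c.E :=
  (RingHom.prod d.ι (RingHom.pi fun n => diagHom (fun x : c.D n => d.ψ x))).codRestrict c.E
    (fun q => by
      refine ⟨0, Filter.Eventually.of_forall fun n => ?_⟩
      have h := c.cond_tau (d.ι q) n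
      have e : c.tau (d.ι q) n = diagHom (fun x : c.D n => d.ψ x) q := by
        ext y x
        rw [diagHom_apply]
        show ent (c.ρ (d.ι q)) y x = _
        rw [d.comp]
        by_cases hxy : y = x
        · subst hxy; simp
        · rw [if_neg (fun h => hxy (Subtype.ext h)), if_neg hxy]
      rw [e] at h
      exact h)

theorem CutData.Diag.pr_lift (d : c.Diag Q) : c.pr.comp d.lift = d.ι := rfl

theorem CutData.Diag.ev_lift (d : c.Diag Q) (n : ℕ) :
    (c.ev n).comp d.lift = diagHom (fun x : c.D n => d.ψ x) := rfl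

theorem K1.map_comp' {R₁ : Type u} {R₂ : Type v} {R₃ : Type w} [Ring R₁] [Ring R₂] [Ring R₃]
    (g : R₂ →+* R₃) (f : R₁ →+* R₂) (x : K1 R₁) :
    K1.map (g.comp f) x = K1.map g (K1.map f x) := by
  obtain ⟨n, A, rfl⟩ := K1.exists_gen x
  rw [K1.map_gen, K1.map_gen, K1.map_gen]
  rfl

/-- a matrix over the ring `E` which is the identity over `S` is, for large `n`, a matrix over
the subring `R0` -/
theorem CutData.kernel {m : ℕ} (Y : (Matrix (Fin m) (Fin m) c.E)ˣ) (hY : mapU c.pr Y = 1) :
    ∀ᶠ n in Filter.atTop, mor (c.D n) (K1.map (c.ev n) (K1.gen Y)) ∈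
      (K1.map c.R0.subtype).range := by
  classical
  have key : ∀ X : Matrix (Fin m) (Fin m) c.E, (∀ i j, c.pr (X i j) = (1 : Matrix _ _ S) i j) →
      ∀ᶠ n in Filter.atTop, ∀ i j, ∀ y x : c.D n, c.ev n (X i j) y x ∈ c.R0 := by
    intro X hX
    have h1 : ∀ i j, ∀ᶠ n in Filter.atTop, ∀ y x : c.D n, c.ev n (X i j) y x ∈ c.R0 := by
      intro i j
      obtain ⟨k, hk⟩ := (X i j).2
      filter_upwards [hk] with n hn y x
      by_cases hh : nearB (c.D n) k y ∧ nearB (c.D n) k x
      · exact hn.2 y x hh.1 hh.2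
      · have h2 := hn.1 y x hh
        have h3 : (X i j).1.1 = (1 : Matrix (Fin m) (Fin m) S) i j := hX i j
        have h4 : c.ev n (X i j) y x = (X i j).1.2 n y x := rfl
        rw [h4, h2, h3, Matrix.one_apply]
        split_ifs
        · rw [map_one, ent_one]
          split_ifs
          · exact Subring.one_mem _
          · exact Subring.zero_mem _
        · rw [map_zero, ent_zero]
          exact Subring.zero_mem _
    simpa only [Filter.eventually_all] using h1
  have hY1 : ∀ i j, c.pr (Y.val i j) = (1 : Matrix (Fin m) (Fin m) S) i j := by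
    intro i j
    have := congrArg (fun U : (Matrix (Fin m) (Fin m) S)ˣ => U.val i j) hY
    exact this
  have hY2 : ∀ i j, c.pr (Y.inv i j) = (1 : Matrix (Fin m) (Fin m) S) i j := by
    intro i j
    have h2 : mapU c.pr Y⁻¹ = 1 := by rw [map_inv, hY, inv_one]
    have := congrArg (fun U : (Matrix (Fin m) (Fin m) S)ˣ => U.val i j) h2
    exact this
  filter_upwards [key Y.val hY1, key Y.inv hY2] with n h1 h2
  rw [K1.map_gen, mor_gen]
  obtain ⟨B, hB⟩ := exists_mapU_of_range c.R0.subtype Subtype.coe_injective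
    (flatU (mapU (c.ev n) Y)) (fun p q => by
      rw [flatU_apply]
      exact ⟨⟨_, h1 p.1 q.1 p.2 q.2⟩, rfl⟩) (fun p q => by
      have : (flatU (mapU (c.ev n) Y)).inv p q = c.ev n (Y.inv p.1 q.1) p.2 q.2 := rfl
      rw [this]
      exact ⟨⟨_, h2 p.1 q.1 p.2 q.2⟩, rfl⟩)
  rw [← hB, ← K1.map_cl]
  exact ⟨_, rfl⟩

/-- THE TRUNCATION LEMMA -/
theorem CutData.Diag.main (d : c.Diag Q) (z : K1 Q) (hz : K1.map d.ι z = 0) :
    ∀ᶠ n in Filter.atTop, ∑ x : c.D n, K1.map (d.ψ x) z ∈ (K1.map c.R0.subtype).range := by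
  have h1 : K1.map c.pr (K1.map d.lift z) = 0 := by
    rw [← K1.map_comp', d.pr_lift, hz]
  obtain ⟨m, Y, hY, hY'⟩ := K1.exact c.pr_surjective _ h1
  filter_upwards [CutData.kernel Y hY] with n hn
  rw [← mor_diagHom, ← d.ev_lift n, K1.map_comp', hY']
  exact hn

end

end Pool.Agent.Lib.CutK1
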