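import Pool.Agent.Lib.MP_16fe43_al.Cut
import Pool.Agent.Lib.MP_16fe43_al.TestGroups

set_option autoImplicit false
set_option linter.unusedSectionVars false

/-!
# The truncation lemma for groups acting monomially
-/

universe u v w

open Matrix

namespace Pool.Agent.Lib.BHS16

open Pool.Agent.Lib.MP_16fe43_al (rix dsum mapU cl)
open Pool.Agent.Lib.CutK1

noncomputable section

/-! ### Comparison of two definitions of `K₁` -/

section Bridge

variable {R : Type u} [Ring R]

/-- comparison -/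
def toHT : K1 R →+ MP_16fe43_al.K1 R :=
  K1.lift (fun _ A => MP_16fe43_al.K1.gen A) (fun _ A B => MP_16fe43_al.K1.gen_mul A B)
    (fun n m A C h => by
      rw [← MP_16fe43_al.K1.gen_stab m A]
      congr 1
      apply Units.ext
      exact h)

theorem toHT_mk {n : ℕ} (A : GL (Fin n) R) : toHT (K1.mk A) = MP_16fe43_al.K1.gen A :=
  K1.lift_mk _ _ _ A

/-- comparison -/
def ofHT : MP_16fe43_al.K1 R →+ K1 R :=
  QuotientAddGroup.lift _ (FreeAbelianGroup.lift
    (fun x : MP_16fe43_al.Gen R => K1.mk (x.2 : GL (Fin x.1) R)))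
    (by
      rw [AddSubgroup.closure_le]
      rintro x (⟨n, A, B, rfl⟩ | ⟨n, m, A, rfl⟩)
      · simp only [SetLike.mem_coe, AddMonoidHom.mem_ker, map_sub, map_add,
          FreeAbelianGroup.lift_apply_of]
        have h := K1.mk_mul (A : GL (Fin n) R) B
        exact sub_eq_zero.2 h
      · simp only [SetLike.mem_coe, AddMonoidHom.mem_ker, map_sub,
          FreeAbelianGroup.lift_apply_of]
        exact sub_eq_zero.2 (K1.mk_stab (A : GL (Fin n) R) _ rfl))

theorem ofHT_gen {n : ℕ} (A : GL (Fin n) R) : ofHT (MP_16fe43_al.K1.gen A) = K1.mk A := by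
  show (FreeAbelianGroup.lift _) (FreeAbelianGroup.of _) = _
  simp

theorem ofHT_toHT (x : K1 R) : ofHT (toHT x) = x := by
  have : (ofHT (R := R)).comp toHT = AddMonoidHom.id _ := by
    apply K1.hom_ext
    intro n A
    rw [AddMonoidHom.comp_apply, toHT_mk, ofHT_gen]
    rfl
  exact DFunLike.congr_fun this x

theorem toHT_ofHT (x : MP_16fe43_al.K1 R) : toHT (ofHT x) = x := by
  obtain ⟨n, A, rfl⟩ := MP_16fe43_al.K1.exists_gen x
  rw [ofHT_gen, toHT_mk]

theorem toHT_map {S : Type v} [Ring S] (f : R →+* S) (x : K1 R) :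
    toHT (K1.map f x) = MP_16fe43_al.K1.map f (toHT x) := by
  have : toHT.comp (K1.map f) = (MP_16fe43_al.K1.map f).comp toHT := by
    apply K1.hom_ext
    intro n A
    rw [AddMonoidHom.comp_apply, AddMonoidHom.comp_apply, K1.map_mk, toHT_mk, toHT_mk,
      MP_16fe43_al.K1.map_gen]
    rfl
  exact DFunLike.congr_fun this x

end Bridge

/-! ### Determinants -/

section Det

theorem det_blockSum {R : Type u} [CommRing R] {n m : ℕ} (A : Matrix (Fin n) (Fin n) R) :
    (blockSum A (1 : Matrix (Fin m) (Fin m) R)).det = A.det := by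
  unfold blockSum
  rw [Matrix.det_submatrix_equiv_self, Matrix.det_fromBlocks_zero₁₂, Matrix.det_one, mul_one]

/-- the determinant on `K₁` of a commutative ring -/
def detK {R : Type u} [CommRing R] : K1 R →+ Additive Rˣ :=
  K1.lift (fun _ A => Additive.ofMul (Matrix.GeneralLinearGroup.det A))
    (fun _ A B => by rw [map_mul]; rfl)
    (fun n m A C h => by
      congr 1
      apply Units.ext
      show (C : Matrix (Fin (n + m)) (Fin (n + m)) R).det = (A : Matrix (Fin n) (Fin n) R).det
      rw [h, det_blockSum])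

theorem detK_mk {R : Type u} [CommRing R] {n : ℕ} (A : GL (Fin n) R) :
    detK (K1.mk A) = Additive.ofMul (Matrix.GeneralLinearGroup.det A) :=
  K1.lift_mk _ _ _ A

theorem detK_map {R : Type u} {S : Type v} [CommRing R] [CommRing S] (f : R →+* S) (x : K1 R) :
    detK (K1.map f x) = MonoidHom.toAdditive (Units.map f.toMonoidHom) (detK x) := by
  have : detK.comp (K1.map f) = (MonoidHom.toAdditive (Units.map f.toMonoidHom)).comp detK := by
    apply K1.hom_ext
    intro n A
    rw [AddMonoidHom.comp_apply, AddMonoidHom.comp_apply, K1.map_mk, detK_mk, detK_mk]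
    show Additive.ofMul _ = Additive.ofMul _
    congr 1
    apply Units.ext
    show (f.mapMatrix (A : Matrix (Fin n) (Fin n) R)).det = f (A : Matrix (Fin n) (Fin n) R).det
    rw [RingHom.map_det]
  exact DFunLike.congr_fun this x

end Det

/-! ### Trivial units -/

section Triv

variable {G : Type u} [Group G]

/-- the `1 × 1` matrix `± g` -/
def tu (g : G) (ε : ℤˣ) : GL (Fin 1) (IntGroupRing G) where
  val := Matrix.of (fun _ _ => MonoidAlgebra.single g (ε : ℤ))
  inv := Matrix.of (fun _ _ => MonoidAlgebra.single g⁻¹ (ε : ℤ))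
  val_inv := by
    ext i j
    rw [Matrix.mul_apply]
    fin_cases i; fin_cases j
    simp only [Finset.univ_unique, Finset.sum_singleton, Matrix.of_apply]
    rw [MonoidAlgebra.single_mul_single, mul_inv_cancel]
    rcases Int.units_eq_one_or ε with h | h <;> simp [h, MonoidAlgebra.one_def]
  inv_val := by
    ext i j
    rw [Matrix.mul_apply]
    fin_cases i; fin_cases j
    simp only [Finset.univ_unique, Finset.sum_singleton, Matrix.of_apply]
    rw [MonoidAlgebra.single_mul_single, inv_mul_cancel]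
    rcases Int.units_eq_one_or ε with h | h <;> simp [h, MonoidAlgebra.one_def]

theorem tu_coe (g : G) (ε : ℤˣ) : (tu g ε : Matrix (Fin 1) (Fin 1) (IntGroupRing G)) =
    Matrix.of (fun _ _ => MonoidAlgebra.single g (ε : ℤ)) := rfl

theorem tu_mem (g : G) (ε : ℤˣ) : K1.mk (tu g ε) ∈ trivialUnits G :=
  AddSubgroup.subset_closure ⟨g, ε, tu g ε, rfl, rfl⟩

theorem tu_mul (g h : G) (ε δ : ℤˣ) : tu (g * h) (ε * δ) = tu g ε * tu h δ := by
  apply Units.ext
  rw [Units.val_mul, tu_coe, tu_coe, tu_coe]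
  ext i j
  rw [Matrix.mul_apply]
  simp [MonoidAlgebra.single_mul_single]

theorem tu_one : tu (1 : G) 1 = 1 := by
  apply Units.ext
  rw [tu_coe]
  ext i j
  fin_cases i; fin_cases j
  simp [MonoidAlgebra.one_def]

theorem K1.mk_one {R : Type u} [Ring R] {n : ℕ} : K1.mk (1 : GL (Fin n) R) = 0 := by
  have h := K1.mk_mul (1 : GL (Fin n) R) 1
  rw [mul_one] at h
  simpa using h

theorem K1.mk_inv {R : Type u} [Ring R] {n : ℕ} (A : GL (Fin n) R) :
    K1.mk A⁻¹ = -K1.mk A := by
  have h : K1.mk A + K1.mk A⁻¹ = 0 := by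
    rw [← K1.mk_mul, mul_inv_cancel, K1.mk_one]
  exact (neg_eq_of_add_eq_zero_right h).symm

theorem tu_inv (g : G) (ε : ℤˣ) : tu g⁻¹ ε⁻¹ = (tu g ε)⁻¹ := by
  rw [eq_inv_iff_mul_eq_one, ← tu_mul, inv_mul_cancel, inv_mul_cancel, tu_one]

theorem mem_trivialUnits {x : K1 (IntGroupRing G)} (hx : x ∈ trivialUnits G) :
    ∃ (g : G) (ε : ℤˣ), x = K1.mk (tu g ε) := by
  unfold trivialUnits at hx
  induction hx using AddSubgroup.closure_induction with
  | mem x hx =>
    obtain ⟨g, ε, A, hA, rfl⟩ := hx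
    refine ⟨g, ε, ?_⟩
    congr 1
    apply Units.ext
    rw [hA, tu_coe]
  | zero =>
    exact ⟨1, 1, by rw [tu_one, K1.mk_one]⟩
  | add x y _ _ hx hy =>
    obtain ⟨g, ε, rfl⟩ := hx
    obtain ⟨h, δ, rfl⟩ := hy
    exact ⟨g * h, ε * δ, by rw [tu_mul, K1.mk_mul]⟩
  | neg x _ hx =>
    obtain ⟨g, ε, rfl⟩ := hx
    exact ⟨g⁻¹, ε⁻¹, by rw [tu_inv, K1.mk_inv]⟩

theorem map_tu {H : Type v} [Group H] (f : G →* H) (g : G) (ε : ℤˣ) :
    glMap (grMap f) (tu g ε) = tu (f g) ε := by
  apply Units.ext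
  rw [glMap_coe, tu_coe, tu_coe]
  apply Matrix.ext
  intro i j
  exact MonoidAlgebra.mapDomain_single

/-- the image of an element of `K₁(ℤG)` under the trivial homomorphism to a commutative group
has determinant `± 1` -/
theorem det_trivial_hom {T : Type v} [CommGroup T] (x : K1 (IntGroupRing G)) :
    ∃ ε : ℤˣ, ((Additive.toMul (detK (K1.map (grMap (1 : G →* T)) x)) : (IntGroupRing T)ˣ) :
      IntGroupRing T) = MonoidAlgebra.single 1 (ε : ℤ) := by
  let aug : IntGroupRing G →+* ℤ := (MonoidAlgebra.lift ℤ ℤ G (1 : G →* ℤ)).toRingHom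
  have h1 : grMap (1 : G →* T) = (Int.castRingHom (IntGroupRing T)).comp aug := by
    have : ((grMap (1 : G →* T) : IntGroupRing G →+* IntGroupRing T) :
        IntGroupRing G →+ IntGroupRing T) =
        (((Int.castRingHom (IntGroupRing T)).comp aug :
          IntGroupRing G →+* IntGroupRing T) : IntGroupRing G →+ IntGroupRing T) := by
      apply MonoidAlgebra.addMonoidHom_ext
      intro g n
      show MonoidAlgebra.mapDomain _ (MonoidAlgebra.single g n) =
        ((MonoidAlgebra.lift ℤ ℤ G (1 : G →* ℤ) (MonoidAlgebra.single g n) : ℤ) :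
          IntGroupRing T)
      rw [MonoidAlgebra.mapDomain_single, MonoidAlgebra.lift_single]
      simp only [MonoidHom.one_apply, smul_eq_mul, mul_one]
      have := MonoidAlgebra.smul_single n (1 : T) (1 : ℤ)
      rw [smul_eq_mul, mul_one] at this
      rw [← this, ← MonoidAlgebra.one_def]
      simp
    exact RingHom.ext fun y => DFunLike.congr_fun this y
  rw [h1, K1.map_comp, detK_map]
  obtain ⟨ε, hε⟩ : ∃ ε : ℤˣ, Additive.toMul (detK (K1.map aug x)) = ε := ⟨_, rfl⟩
  refine ⟨ε, ?_⟩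
  show ((Int.castRingHom (IntGroupRing T)) ((Additive.toMul (detK (K1.map aug x)) : ℤˣ) : ℤ)) = _
  rw [hε]
  have := MonoidAlgebra.smul_single (ε : ℤ) (1 : T) (1 : ℤ)
  rw [smul_eq_mul, mul_one] at this
  rw [← this, ← MonoidAlgebra.one_def]
  simp

/-- if `[± g]` equals the image of a class that is killed by a homomorphism to a commutative
group `T`, then `g` is also killed -/
theorem eq_one_of_det {C : Type u} {K₀ : Type v} {T : Type w} [Group C] [Group K₀] [CommGroup T]
    (ι : K₀ →* C) (f : C →* T) (hf : f.comp ι = 1) (x : K1 (IntGroupRing K₀)) (g : C) (ε : ℤˣ)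
    (h : K1.map (grMap ι) x = K1.mk (tu g ε)) : f g = 1 := by
  have h1 : detK (K1.map (grMap f) (K1.map (grMap ι) x)) =
      detK (K1.map (grMap f) (K1.mk (tu g ε))) := by rw [h]
  rw [K1.map_grMap_comp, hf, K1.map_mk, map_tu, detK_mk] at h1
  obtain ⟨δ, hδ⟩ := det_trivial_hom (T := T) x
  rw [h1] at hδ
  have h2 : ((Matrix.GeneralLinearGroup.det (tu (f g) ε) : (IntGroupRing T)ˣ) :
      IntGroupRing T) = MonoidAlgebra.single (f g) (ε : ℤ) := by
    show (tu (f g) ε : Matrix (Fin 1) (Fin 1) (IntGroupRing T)).det = _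
    rw [tu_coe, Matrix.det_fin_one]
    rfl
  have h3 : (MonoidAlgebra.single (f g) (ε : ℤ) : IntGroupRing T) =
      MonoidAlgebra.single 1 (δ : ℤ) := h2.symm.trans hδ
  rw [MonoidAlgebra.single_inj] at h3
  rcases h3 with h3 | h3
  · exact h3.1
  · exfalso
    have := ε.ne_zero
    exact this h3.1

end Triv

end

end Pool.Agent.Lib.BHS16
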