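import Mathlib

set_option autoImplicit false

/-!
# Low algebraic K-groups of rings and the vanishing statements for group rings

All rings are associative with unit, not necessarily commutative.
-/

namespace Pool.Agent.Lib.BHS16

universe u v

/-- The block sum `A ⊕ B` of two square matrices, of size `n + m`. -/
def blockSum {R : Type u} [Ring R] {n m : ℕ} (A : Matrix (Fin n) (Fin n) R)
    (B : Matrix (Fin m) (Fin m) R) : Matrix (Fin (n + m)) (Fin (n + m)) R :=
  (Matrix.fromBlocks A 0 0 B).submatrix finSumFinEquiv.symm finSumFinEquiv.symm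

/-- Relations of `K₁(R)`: `[A * B] = [A] + [B]` for invertible matrices of the same size, and
`[A ⊕ 1] = [A]`. -/
inductive K1Rel (R : Type u) [Ring R] :
    FreeAbelianGroup (Σ n : ℕ, GL (Fin n) R) → Prop
  | mul (n : ℕ) (A B : GL (Fin n) R) :
      K1Rel R (FreeAbelianGroup.of ⟨n, A * B⟩ - FreeAbelianGroup.of ⟨n, A⟩ -
        FreeAbelianGroup.of ⟨n, B⟩)
  | stab (n m : ℕ) (A : GL (Fin n) R) (C : GL (Fin (n + m)) R)
      (h : (C : Matrix (Fin (n + m)) (Fin (n + m)) R) =
        blockSum (A : Matrix (Fin n) (Fin n) R) (1 : Matrix (Fin m) (Fin m) R)) :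
      K1Rel R (FreeAbelianGroup.of ⟨n + m, C⟩ - FreeAbelianGroup.of ⟨n, A⟩)

/-- `K₁(R)`: the abelian group generated by the classes `[A]` of invertible matrices over `R`
(of all sizes), with relations `[A * B] = [A] + [B]` and `[A ⊕ 1] = [A]`; in other words the
direct limit of the abelianizations of the groups `GL_n(R)`, which is the abelianization of
`GL(R)`. -/
def K1 (R : Type u) [Ring R] : Type u :=
  FreeAbelianGroup (Σ n : ℕ, GL (Fin n) R) ⧸ AddSubgroup.closure {x | K1Rel R x}

instance (R : Type u) [Ring R] : AddCommGroup (K1 R) :=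
  QuotientAddGroup.Quotient.addCommGroup (AddSubgroup.closure {x | K1Rel R x})

/-- The class of an invertible matrix in `K₁(R)`. -/
def K1.mk {R : Type u} [Ring R] {n : ℕ} (A : GL (Fin n) R) : K1 R :=
  QuotientAddGroup.mk (FreeAbelianGroup.of ⟨n, A⟩)

/-- Idempotent square matrices over `R`, of all sizes. The idempotent matrix `e` of size `n`
stands for the finitely generated projective module `e Rⁿ`. -/
abbrev Idem (R : Type u) [Ring R] : Type u :=
  Σ n : ℕ, {e : Matrix (Fin n) (Fin n) R // e * e = e}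

/-- Relations of `K₀(R)`: `[e ⊕ f] = [e] + [f]`, and `[e] = [f]` if `e = a b` and `f = b a` for
some matrices `a`, `b` (which means that the projective modules given by `e` and `f` are
isomorphic). -/
inductive K0Rel (R : Type u) [Ring R] : FreeAbelianGroup (Idem R) → Prop
  | sum (n m : ℕ) (e : {e : Matrix (Fin n) (Fin n) R // e * e = e})
      (f : {e : Matrix (Fin m) (Fin m) R // e * e = e})
      (g : {e : Matrix (Fin (n + m)) (Fin (n + m)) R // e * e = e})
      (h : g.1 = blockSum e.1 f.1) :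
      K0Rel R (FreeAbelianGroup.of (⟨n + m, g⟩ : Idem R) -
        FreeAbelianGroup.of (⟨n, e⟩ : Idem R) - FreeAbelianGroup.of (⟨m, f⟩ : Idem R))
  | iso (n m : ℕ) (e : {e : Matrix (Fin n) (Fin n) R // e * e = e})
      (f : {e : Matrix (Fin m) (Fin m) R // e * e = e})
      (a : Matrix (Fin n) (Fin m) R) (b : Matrix (Fin m) (Fin n) R)
      (hab : a * b = e.1) (hba : b * a = f.1) :
      K0Rel R (FreeAbelianGroup.of (⟨n, e⟩ : Idem R) - FreeAbelianGroup.of (⟨m, f⟩ : Idem R))

/-- `K₀(R)`: the Grothendieck group of finitely generated projective `R`-modules, in terms of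
idempotent matrices. -/
def K0 (R : Type u) [Ring R] : Type u :=
  FreeAbelianGroup (Idem R) ⧸ AddSubgroup.closure {x | K0Rel R x}

instance (R : Type u) [Ring R] : AddCommGroup (K0 R) :=
  QuotientAddGroup.Quotient.addCommGroup (AddSubgroup.closure {x | K0Rel R x})

/-- The class of an idempotent matrix in `K₀(R)`. -/
def K0.mk {R : Type u} [Ring R] {n : ℕ} (e : Matrix (Fin n) (Fin n) R) (he : e * e = e) : K0 R :=
  QuotientAddGroup.mk (FreeAbelianGroup.of (⟨n, ⟨e, he⟩⟩ : Idem R))


/-! ### Functoriality -/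

theorem blockSum_map {R : Type u} {S : Type v} [Ring R] [Ring S] (f : R →+* S) {n m : ℕ}
    (A : Matrix (Fin n) (Fin n) R) (B : Matrix (Fin m) (Fin m) R) :
    f.mapMatrix (blockSum A B) = blockSum (f.mapMatrix A) (f.mapMatrix B) := by
  ext i j
  simp only [blockSum, RingHom.mapMatrix_apply, Matrix.map_apply, Matrix.submatrix_apply]
  rcases finSumFinEquiv.symm i with i | i <;> rcases finSumFinEquiv.symm j with j | j <;> simp

theorem K1.mk_mul {R : Type u} [Ring R] {n : ℕ} (A B : GL (Fin n) R) :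
    K1.mk (A * B) = K1.mk A + K1.mk B := by
  have h : FreeAbelianGroup.of ⟨n, A * B⟩ - FreeAbelianGroup.of ⟨n, A⟩ -
        FreeAbelianGroup.of ⟨n, B⟩ ∈ AddSubgroup.closure {x | K1Rel R x} :=
    AddSubgroup.subset_closure (K1Rel.mul n A B)
  have h2 := (QuotientAddGroup.eq_zero_iff _).mpr h
  rw [sub_sub] at h2
  exact sub_eq_zero.mp h2

theorem K1.mk_stab {R : Type u} [Ring R] {n m : ℕ} (A : GL (Fin n) R) (C : GL (Fin (n + m)) R)
    (h : (C : Matrix (Fin (n + m)) (Fin (n + m)) R) =
        blockSum (A : Matrix (Fin n) (Fin n) R) (1 : Matrix (Fin m) (Fin m) R)) :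
    K1.mk C = K1.mk A := by
  have h : FreeAbelianGroup.of ⟨n + m, C⟩ - FreeAbelianGroup.of ⟨n, A⟩
      ∈ AddSubgroup.closure {x | K1Rel R x} :=
    AddSubgroup.subset_closure (K1Rel.stab n m A C h)
  exact sub_eq_zero.mp ((QuotientAddGroup.eq_zero_iff _).mpr h)

theorem K1.induction {R : Type u} [Ring R] {p : K1 R → Prop}
    (h0 : p 0) (h1 : ∀ (n : ℕ) (A : GL (Fin n) R), p (K1.mk A))
    (hneg : ∀ x, p x → p (-x)) (hadd : ∀ x y, p x → p y → p (x + y)) (x : K1 R) : p x := by
  obtain ⟨y, rfl⟩ := QuotientAddGroup.mk_surjective x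
  induction y using FreeAbelianGroup.induction_on with
  | zero => exact h0
  | of x => exact h1 x.1 x.2
  | neg x hx => exact hneg _ hx
  | add x y hx hy => exact hadd _ _ hx hy

/-- Homomorphisms out of `K₁(R)`. -/
def K1.lift {R : Type u} [Ring R] {H : Type v} [AddCommGroup H]
    (c : ∀ n : ℕ, GL (Fin n) R → H) (hmul : ∀ n (A B : GL (Fin n) R), c n (A * B) = c n A + c n B)
    (hstab : ∀ n m (A : GL (Fin n) R) (C : GL (Fin (n + m)) R),
      (C : Matrix (Fin (n + m)) (Fin (n + m)) R) =
        blockSum (A : Matrix (Fin n) (Fin n) R) (1 : Matrix (Fin m) (Fin m) R) →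
      c (n + m) C = c n A) : K1 R →+ H :=
  QuotientAddGroup.lift _ (FreeAbelianGroup.lift fun x : (Σ n : ℕ, GL (Fin n) R) => c x.1 x.2)
    (by
      rw [AddSubgroup.closure_le]
      rintro _ (⟨n, A, B⟩ | ⟨n, m, A, C, h⟩)
      · simp only [SetLike.mem_coe, AddMonoidHom.mem_ker, map_sub, FreeAbelianGroup.lift_apply_of]
        rw [hmul, sub_sub, sub_self]
      · simp only [SetLike.mem_coe, AddMonoidHom.mem_ker, map_sub, FreeAbelianGroup.lift_apply_of]
        rw [hstab n m A C h, sub_self])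

@[simp] theorem K1.lift_mk {R : Type u} [Ring R] {H : Type v} [AddCommGroup H]
    (c : ∀ n : ℕ, GL (Fin n) R → H) (hmul) (hstab) {n : ℕ} (A : GL (Fin n) R) :
    K1.lift c hmul hstab (K1.mk A) = c n A := by
  unfold K1.lift K1.mk
  erw [QuotientAddGroup.lift_mk]
  simp

/-- The map induced on invertible matrices by a ring homomorphism. -/
def glMap {R : Type u} {S : Type v} [Ring R] [Ring S] (f : R →+* S) {n : ℕ} :
    GL (Fin n) R →* GL (Fin n) S :=
  Units.map (f.mapMatrix : Matrix (Fin n) (Fin n) R →+* Matrix (Fin n) (Fin n) S).toMonoidHom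

theorem glMap_coe {R : Type u} {S : Type v} [Ring R] [Ring S] (f : R →+* S) {n : ℕ}
    (A : GL (Fin n) R) : (glMap f A : Matrix (Fin n) (Fin n) S) =
      f.mapMatrix (A : Matrix (Fin n) (Fin n) R) := rfl

/-- The homomorphism of `K₁` induced by a ring homomorphism. -/
def K1.map {R : Type u} {S : Type v} [Ring R] [Ring S] (f : R →+* S) : K1 R →+ K1 S :=
  K1.lift (fun _ A => K1.mk (glMap f A)) (fun n A B => by rw [map_mul, K1.mk_mul])
    (fun n m A C h => K1.mk_stab _ _ (by
      rw [glMap_coe, glMap_coe, h, blockSum_map, map_one]))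

@[simp] theorem K1.map_mk {R : Type u} {S : Type v} [Ring R] [Ring S] (f : R →+* S) {n : ℕ}
    (A : GL (Fin n) R) : K1.map f (K1.mk A) = K1.mk (glMap f A) := by
  unfold K1.map
  rw [K1.lift_mk]

theorem K1.hom_ext {R : Type u} [Ring R] {H : Type v} [AddCommGroup H] {f g : K1 R →+ H}
    (h : ∀ (n : ℕ) (A : GL (Fin n) R), f (K1.mk A) = g (K1.mk A)) : f = g := by
  ext x
  induction x using K1.induction with
  | h0 => simp
  | h1 n A => exact h n A
  | hneg x hx => rw [map_neg, map_neg, hx]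
  | hadd x y hx hy => rw [map_add, map_add, hx, hy]

theorem K1.map_comp {R S T : Type*} [Ring R] [Ring S] [Ring T] (g : S →+* T) (f : R →+* S)
    (x : K1 R) : K1.map (g.comp f) x = K1.map g (K1.map f x) := by
  have : K1.map (g.comp f) = (K1.map g).comp (K1.map f) := by
    apply K1.hom_ext
    intro n A
    simp only [K1.map_mk, AddMonoidHom.comp_apply]
    rfl
  rw [this]; rfl

theorem K1.map_id {R : Type u} [Ring R] (x : K1 R) : K1.map (RingHom.id R) x = x := by
  have : K1.map (RingHom.id R) = AddMonoidHom.id (K1 R) := by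
    apply K1.hom_ext
    intro n A
    simp only [K1.map_mk, AddMonoidHom.id_apply]
    rfl
  rw [this]; rfl

theorem K0.mk_sum {R : Type u} [Ring R] {n m : ℕ} (e : Matrix (Fin n) (Fin n) R) (he : e * e = e)
    (f : Matrix (Fin m) (Fin m) R) (hf : f * f = f)
    (g : Matrix (Fin (n + m)) (Fin (n + m)) R) (hg : g * g = g) (h : g = blockSum e f) :
    K0.mk g hg = K0.mk e he + K0.mk f hf := by
  have h := (QuotientAddGroup.eq_zero_iff _).mpr (AddSubgroup.subset_closure
    (K0Rel.sum n m ⟨e, he⟩ ⟨f, hf⟩ ⟨g, hg⟩ h) :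
      _ ∈ AddSubgroup.closure {x | K0Rel R x})
  rw [sub_sub] at h
  exact sub_eq_zero.mp h

theorem K0.mk_iso {R : Type u} [Ring R] {n m : ℕ} (e : Matrix (Fin n) (Fin n) R) (he : e * e = e)
    (f : Matrix (Fin m) (Fin m) R) (hf : f * f = f)
    (a : Matrix (Fin n) (Fin m) R) (b : Matrix (Fin m) (Fin n) R)
    (hab : a * b = e) (hba : b * a = f) :
    K0.mk e he = K0.mk f hf := by
  have h := (QuotientAddGroup.eq_zero_iff _).mpr (AddSubgroup.subset_closure
    (K0Rel.iso n m ⟨e, he⟩ ⟨f, hf⟩ a b hab hba) :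
      _ ∈ AddSubgroup.closure {x | K0Rel R x})
  exact sub_eq_zero.mp h

theorem K0.induction {R : Type u} [Ring R] {p : K0 R → Prop}
    (h0 : p 0) (h1 : ∀ (n : ℕ) (e : Matrix (Fin n) (Fin n) R) (he : e * e = e), p (K0.mk e he))
    (hneg : ∀ x, p x → p (-x)) (hadd : ∀ x y, p x → p y → p (x + y)) (x : K0 R) : p x := by
  obtain ⟨y, rfl⟩ := QuotientAddGroup.mk_surjective x
  induction y using FreeAbelianGroup.induction_on with
  | zero => exact h0
  | of x => exact h1 x.1 x.2.1 x.2.2
  | neg x hx => exact hneg _ hx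
  | add x y hx hy => exact hadd _ _ hx hy

/-- Homomorphisms out of `K₀(R)`. -/
def K0.lift {R : Type u} [Ring R] {H : Type v} [AddCommGroup H]
    (c : ∀ (n : ℕ) (e : Matrix (Fin n) (Fin n) R), e * e = e → H)
    (hsum : ∀ (n m : ℕ) (e : Matrix (Fin n) (Fin n) R) (he : e * e = e)
      (f : Matrix (Fin m) (Fin m) R) (hf : f * f = f)
      (g : Matrix (Fin (n + m)) (Fin (n + m)) R) (hg : g * g = g),
      g = blockSum e f → c _ g hg = c _ e he + c _ f hf)
    (hiso : ∀ (n m : ℕ) (e : Matrix (Fin n) (Fin n) R) (he : e * e = e)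
      (f : Matrix (Fin m) (Fin m) R) (hf : f * f = f)
      (a : Matrix (Fin n) (Fin m) R) (b : Matrix (Fin m) (Fin n) R),
      a * b = e → b * a = f → c _ e he = c _ f hf) : K0 R →+ H :=
  QuotientAddGroup.lift _ (FreeAbelianGroup.lift fun x : Idem R => c x.1 x.2.1 x.2.2)
    (by
      rw [AddSubgroup.closure_le]
      rintro _ (⟨n, m, e, f, g, h⟩ | ⟨n, m, e, f, a, b, hab, hba⟩)
      · simp only [SetLike.mem_coe, AddMonoidHom.mem_ker, map_sub, FreeAbelianGroup.lift_apply_of]
        rw [hsum n m e.1 e.2 f.1 f.2 g.1 g.2 h, sub_sub, sub_self]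
      · simp only [SetLike.mem_coe, AddMonoidHom.mem_ker, map_sub, FreeAbelianGroup.lift_apply_of]
        rw [hiso n m e.1 e.2 f.1 f.2 a b hab hba, sub_self])

@[simp] theorem K0.lift_mk {R : Type u} [Ring R] {H : Type v} [AddCommGroup H]
    (c) (hsum) (hiso) {n : ℕ} (e : Matrix (Fin n) (Fin n) R) (he : e * e = e) :
    K0.lift (H := H) c hsum hiso (K0.mk e he) = c n e he := by
  unfold K0.lift K0.mk
  erw [QuotientAddGroup.lift_mk]
  simp

/-- The homomorphism of `K₀` induced by a ring homomorphism (base change of projective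
modules). -/
def K0.map {R : Type u} {S : Type v} [Ring R] [Ring S] (f : R →+* S) : K0 R →+ K0 S :=
  K0.lift (fun _ e he => K0.mk (f.mapMatrix e) (by rw [← map_mul, he]))
    (fun n m e he g hg k hk h => K0.mk_sum _ _ _ _ _ _ (by rw [h, blockSum_map]))
    (fun n m e he g hg a b hab hba => K0.mk_iso _ _ _ _ (a.map f) (b.map f)
      (by rw [← Matrix.map_mul, hab]; rfl) (by rw [← Matrix.map_mul, hba]; rfl))

@[simp] theorem K0.map_mk {R : Type u} {S : Type v} [Ring R] [Ring S] (f : R →+* S) {n : ℕ}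
    (e : Matrix (Fin n) (Fin n) R) (he : e * e = e) :
    K0.map f (K0.mk e he) = K0.mk (f.mapMatrix e) (by rw [← map_mul, he]) := by
  unfold K0.map
  rw [K0.lift_mk]

theorem K0.hom_ext {R : Type u} [Ring R] {H : Type v} [AddCommGroup H] {f g : K0 R →+ H}
    (h : ∀ (n : ℕ) (e : Matrix (Fin n) (Fin n) R) (he : e * e = e),
      f (K0.mk e he) = g (K0.mk e he)) : f = g := by
  ext x
  induction x using K0.induction with
  | h0 => simp
  | h1 n e he => exact h n e he
  | hneg x hx => rw [map_neg, map_neg, hx]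
  | hadd x y hx hy => rw [map_add, map_add, hx, hy]

theorem K0.map_comp {R S T : Type*} [Ring R] [Ring S] [Ring T] (g : S →+* T) (f : R →+* S)
    (x : K0 R) : K0.map (g.comp f) x = K0.map g (K0.map f x) := by
  have : K0.map (g.comp f) = (K0.map g).comp (K0.map f) := by
    apply K0.hom_ext
    intro n e he
    simp only [K0.map_mk, AddMonoidHom.comp_apply]
    rfl
  rw [this]; rfl

theorem K0.map_id {R : Type u} [Ring R] (x : K0 R) : K0.map (RingHom.id R) x = x := by
  have : K0.map (RingHom.id R) = AddMonoidHom.id (K0 R) := by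
    apply K0.hom_ext
    intro n e he
    simp only [K0.map_mk, AddMonoidHom.id_apply]
    rfl
  rw [this]; rfl

end Pool.Agent.Lib.BHS16
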