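import Pool.Agent.Lib.MP_16fe43_al.Twisted

/-!
# Linear invertible elements of a twisted Laurent ring
-/

set_option autoImplicit false

universe u v w

namespace Pool.Agent.Lib.MP_16fe43_al

namespace Tw

variable {R : Type u} {S : Type v} [Ring R] [Ring S] (T : Tw R S)

theorem j_injective : Function.Injective T.j := by
  intro a b h
  have := congrArg (T.co 0) h
  simpa [T.co_j] using this

theorem t_comm (r : R) : (T.t : S) * T.j r = T.j (T.φ r) * T.t := T.comm r

theorem tinv_comm (r : R) : ((T.t⁻¹ : Sˣ) : S) * T.j (T.φ r) = T.j r * ((T.t⁻¹ : Sˣ) : S) := by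
  calc ((T.t⁻¹ : Sˣ) : S) * T.j (T.φ r)
      = ((T.t⁻¹ : Sˣ) : S) * (T.j (T.φ r) * T.t) * ((T.t⁻¹ : Sˣ) : S) := by
        rw [mul_assoc, mul_assoc, Units.mul_inv, mul_one]
    _ = _ := by rw [← T.comm, ← mul_assoc, Units.inv_mul, one_mul]

/-- The structure theorem for linear invertible elements. -/
theorem factor (A0 A1 : R) (B B' : S) (hB : B = T.j A0 + T.j A1 * T.t) (h1 : B * B' = 1)
    (h2 : B' * B = 1) :
    ∃ (E F c0 c1 : R) (u v a b : S),
      E * E = E ∧ F * F = F ∧ A0 * c0 = E ∧ c0 * A0 = F ∧ A1 * c1 = 1 - E ∧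
      c1 * A1 = 1 - T.φ F ∧ E * A0 = A0 * F ∧ E * A1 = A1 * T.φ F ∧
      u = T.j (A0 * F) + T.j (A1 * T.φ (1 - F)) * T.t ∧ u * v = 1 ∧ v * u = 1 ∧
      v * B = (1 + a) * (1 + b) ∧ a * b = 0 ∧ b * a = 0 ∧
      (∃ ν : R, a = T.j ν * T.t) ∧ (∃ ν : R, b = T.j ν * ((T.t⁻¹ : Sˣ) : S)) ∧
      IsNilpotent a ∧ IsNilpotent b := by
  obtain ⟨Cp, hCp, hCm'⟩ := T.exists_pos B'
  obtain ⟨Cm, hCm, rfl⟩ : ∃ Cm, T.Le (-1) Cm ∧ B' = Cp + Cm := ⟨B' - Cp, hCm', by abel⟩
  clear hCm'
  have hα_ge : T.Ge 0 (T.j A0) := T.ge_j _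
  have hα_le : T.Le 0 (T.j A0) := T.le_j _
  have hβ_ge : T.Ge 1 (T.j A1 * T.t) := by simpa using (T.ge_j A1).mul T.ge_t
  have hβ_le : T.Le 1 (T.j A1 * T.t) := by simpa using (T.le_j A1).mul T.le_t
  have hB_ge : T.Ge 0 B := hB ▸ hα_ge.add (hβ_ge.mono (by norm_num))
  have hB_le : T.Le 1 B := hB ▸ (hα_le.mono (by norm_num)).add hβ_le
  -- E
  have hBCp_ge : T.Ge 0 (B * Cp) := by simpa using hB_ge.mul hCp
  have hBCm_le : T.Le 0 (B * Cm) := by simpa using hB_le.mul hCm
  have hsum1 : B * Cp + B * Cm = 1 := by rw [← mul_add, h1]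
  have hBCp_le : T.Le 0 (B * Cp) := by
    have : B * Cp = T.j 1 - B * Cm := by rw [map_one, ← hsum1]; abel
    rw [this]
    exact (T.le_j 1).sub hBCm_le
  have hE : B * Cp = T.j (T.co 0 (B * Cp)) := T.eq_j hBCp_ge hBCp_le
  -- F
  have hCpB_ge : T.Ge 0 (Cp * B) := by simpa using hCp.mul hB_ge
  have hCmB_le : T.Le 0 (Cm * B) := by simpa using hCm.mul hB_le
  have hsum2 : Cp * B + Cm * B = 1 := by rw [← add_mul, h2]
  have hCpB_le : T.Le 0 (Cp * B) := by
    have : Cp * B = T.j 1 - Cm * B := by rw [map_one, ← hsum2]; abel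
    rw [this]
    exact (T.le_j 1).sub hCmB_le
  have hF : Cp * B = T.j (T.co 0 (Cp * B)) := T.eq_j hCpB_ge hCpB_le
  set E : R := T.co 0 (B * Cp) with hEdef
  set F : R := T.co 0 (Cp * B) with hFdef
  have hBCm : B * Cm = 1 - T.j E := by rw [← hE, ← hsum1]; abel
  have hCmB : Cm * B = 1 - T.j F := by rw [← hF, ← hsum2]; abel
  -- vanishing
  have hz : Cp * (1 - T.j E) = T.j F * Cm := by rw [← hBCm, ← mul_assoc, hF]
  have hz1 : Cp * (1 - T.j E) = 0 := by
    refine eq_zero_of (T := T) (a := 0) (b := -1) (by norm_num) ?_ ?_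
    · have : T.Ge 0 (1 - T.j E) := by
        have := (T.ge_j 1).sub (T.ge_j E)
        rwa [map_one] at this
      simpa using hCp.mul this
    · rw [hz]
      simpa using (T.le_j F).mul hCm
  have hFCm : T.j F * Cm = 0 := by rw [← hz, hz1]
  have hCpE : Cp * T.j E = Cp := by
    have : Cp - Cp * T.j E = 0 := by rw [← hz1]; noncomm_ring
    exact (sub_eq_zero.1 this).symm
  have hEE : E * E = E := by
    apply T.j_injective
    rw [map_mul]
    nth_rewrite 1 [← hE]
    rw [mul_assoc, hCpE, hE]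
  have hFCp : T.j F * Cp = Cp := by rw [← hF, mul_assoc, hE, hCpE]
  have hFF : F * F = F := by
    apply T.j_injective
    rw [map_mul]
    nth_rewrite 2 [← hF]
    rw [← mul_assoc, hFCp, hF]
  have hCmE : Cm * T.j E = 0 := by
    rw [← hE, ← mul_assoc, hCmB, sub_mul, one_mul, hFCp, sub_self]
  have hEB : T.j E * B = B * T.j F := by rw [← hE, mul_assoc, hF]
  -- coefficients
  set c0 : R := T.co 0 Cp with hc0
  set cm : R := T.co (-1) Cm with hcm
  have tco : ∀ (i : ℤ) (s : S), T.co i ((T.t : S) * s) = T.φ (T.co (i - 1) s) := by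
    intro i s
    have := T.co_zpow_mul i 1 s
    simpa using this
  have cot : ∀ (i : ℤ) (s : S), T.co i (s * (T.t : S)) = T.co (i - 1) s := by
    intro i s
    have := T.co_mul_zpow i 1 s
    simpa using this
  have r1 : A0 * c0 = E := by
    have h3 := congrArg (T.co 0) hE
    rw [hB, add_mul, mul_assoc, map_add, T.co_j_mul, T.co_j_mul, tco, T.co_j, if_pos rfl,
      hCp (0 - 1) (by norm_num), map_zero, mul_zero, add_zero] at h3
    exact h3
  have r2 : c0 * A0 = F := by
    have h3 := congrArg (T.co 0) hF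
    rw [hB, mul_add, ← mul_assoc, map_add, T.co_mul_j, cot, T.co_mul_j, T.co_j, if_pos rfl,
      hCp (0 - 1) (by norm_num), zero_mul, add_zero, zpow_zero] at h3
    exact h3
  have r3 : A1 * T.φ cm = 1 - E := by
    have h3 := congrArg (T.co 0) hBCm
    rw [hB, add_mul, mul_assoc, map_add, T.co_j_mul, T.co_j_mul, tco, map_sub, T.co_one, T.co_j,
      if_pos rfl, if_pos rfl, hCm 0 (by norm_num), mul_zero, zero_add] at h3
    simpa using h3
  have r4 : T.φ cm * A1 = 1 - T.φ F := by
    have h3 := congrArg (T.co 0) hCmB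
    rw [hB, mul_add, ← mul_assoc, map_add, T.co_mul_j, cot, T.co_mul_j, map_sub, T.co_one, T.co_j,
      if_pos rfl, if_pos rfl, hCm 0 (by norm_num), zero_mul, zero_add] at h3
    have h4 := congrArg T.φ h3
    rw [map_mul, map_sub, map_one] at h4
    have h5 : T.φ ((T.φ ^ ((0 : ℤ) - 1)) A1) = A1 := by
      have : T.φ ((T.φ ^ ((0 : ℤ) - 1)) A1) = (T.φ ^ ((1 : ℤ) + (0 - 1))) A1 := by
        rw [zpow_add, zpow_one]; rfl
      rw [this]
      simp
    rw [h5] at h4
    simpa using h4
  have r5 : E * A0 = A0 * F := by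
    have h3 := congrArg (T.co 0) hEB
    rw [hB, T.co_j_mul, T.co_mul_j, map_add, cot, T.co_j, T.co_j, if_pos rfl,
      if_neg (by norm_num), add_zero] at h3
    simpa using h3
  have r6 : E * A1 = A1 * T.φ F := by
    have h3 := congrArg (T.co 1) hEB
    rw [hB, T.co_j_mul, T.co_mul_j, map_add, cot, T.co_j, T.co_j, if_neg (by norm_num),
      if_pos (by norm_num), zero_add] at h3
    simpa using h3
  have r7 : F * c0 = c0 := by
    have h3 := congrArg (T.co 0) hFCp
    rwa [T.co_j_mul] at h3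
  have r8 : c0 * E = c0 := by
    have h3 := congrArg (T.co 0) hCpE
    rw [T.co_mul_j] at h3
    simpa using h3
  have r9 : T.φ F * T.φ cm = 0 := by
    have h3 := congrArg (T.co (-1)) hFCm
    rw [T.co_j_mul, map_zero] at h3
    rw [← map_mul, h3, map_zero]
  have r10 : T.φ cm * E = 0 := by
    have h3 := congrArg (T.co (-1)) hCmE
    rw [T.co_mul_j, map_zero] at h3
    have h4 := congrArg T.φ h3
    rw [map_mul, map_zero] at h4
    have h5 : T.φ ((T.φ ^ (-1 : ℤ)) E) = E := by
      have : T.φ ((T.φ ^ (-1 : ℤ)) E) = (T.φ ^ ((1 : ℤ) + (-1))) E := by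
        rw [zpow_add, zpow_one]; rfl
      rw [this]
      simp
    rwa [h5] at h4
  set c1 : R := T.φ cm with hc1
  -- elements of `S`
  set e : S := T.j E with he
  set f : S := T.j F with hf
  set α : S := T.j A0 with hα
  set β : S := T.j A1 * T.t with hβ
  set γ : S := T.j c0 with hγ
  set δ : S := ((T.t⁻¹ : Sˣ) : S) * T.j c1 with hδ
  have tt : (T.t : S) * ((T.t⁻¹ : Sˣ) : S) = 1 := Units.mul_inv _
  have tt' : ((T.t⁻¹ : Sˣ) : S) * (T.t : S) = 1 := Units.inv_mul _
  have s1 : α * γ = e := by rw [hα, hγ, ← map_mul, r1]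
  have s2 : γ * α = f := by rw [hα, hγ, ← map_mul, r2]
  have s3 : β * δ = 1 - e := by
    rw [hβ, hδ, mul_assoc, ← mul_assoc (T.t : S), tt, one_mul, ← map_mul, r3, map_sub, map_one]
  have s4 : δ * β = 1 - f := by
    rw [hβ, hδ, mul_assoc, ← mul_assoc (T.j c1), ← map_mul, r4, map_sub, map_one, sub_mul,
      one_mul, ← T.comm, mul_sub, tt', ← mul_assoc, tt', one_mul]
  have s5 : e * α = α * f := by rw [he, hα, hf, ← map_mul, ← map_mul, r5]
  have s6 : e * β = β * f := by
    rw [he, hβ, hf, ← mul_assoc, ← map_mul, r6, mul_assoc, T.comm, ← mul_assoc, ← map_mul]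
  have s7 : f * γ = γ := by rw [hf, hγ, ← map_mul, r7]
  have s8 : γ * e = γ := by rw [he, hγ, ← map_mul, r8]
  have s9 : f * δ = 0 := by
    rw [hf, hδ, ← mul_assoc, ← T.tinv_comm, mul_assoc, ← map_mul, r9, map_zero, mul_zero]
  have s10 : δ * e = 0 := by rw [hδ, he, mul_assoc, ← map_mul, r10, map_zero, mul_zero]
  have see : e * e = e := by rw [he, ← map_mul, hEE]
  have sff : f * f = f := by rw [hf, ← map_mul, hFF]
  have hv1 : (α * f + β * (1 - f)) * (γ + δ) = 1 := by
    have : (α * f + β * (1 - f)) * (γ + δ) = α * (f * γ) + α * (f * δ) + β * (γ - f * γ) +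
        β * (δ - f * δ) := by noncomm_ring
    rw [this, s7, s9, sub_self, mul_zero, mul_zero, sub_zero, s1, s3]
    abel
  have hγβf : γ * β * f = γ * β := by rw [mul_assoc, ← s6, ← mul_assoc, s8]
  have hδαf : δ * α * f = 0 := by rw [mul_assoc, ← s5, ← mul_assoc, s10, zero_mul]
  have hv2 : (γ + δ) * (α * f + β * (1 - f)) = 1 := by
    have : (γ + δ) * (α * f + β * (1 - f)) = γ * α * f + δ * α * f + (γ * β - γ * β * f) +
        (δ * β - δ * β * f) := by noncomm_ring
    rw [this, s2, hδαf, hγβf, s4, sff, sub_mul, one_mul, sff]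
    abel
  have hvB : (γ + δ) * B = (1 + γ * β) * (1 + δ * α) := by
    have h3 : (γ + δ) * B = γ * α + γ * β + δ * α + δ * β := by rw [hB]; noncomm_ring
    have h4 : (1 + γ * β) * (1 + δ * α) = 1 + γ * β + δ * α + γ * (β * δ) * α := by noncomm_ring
    rw [h3, h4, s2, s4, s3, mul_sub, mul_one, s8, sub_self, zero_mul]
    abel
  have hab : γ * β * (δ * α) = 0 := by
    have : γ * β * (δ * α) = γ * (β * δ) * α := by noncomm_ring
    rw [this, s3, mul_sub, mul_one, s8, sub_self, zero_mul]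
  have hba : δ * α * (γ * β) = 0 := by
    have : δ * α * (γ * β) = δ * (α * γ) * β := by noncomm_ring
    rw [this, s1, s10, zero_mul]
  have hBw : ((γ + δ) * B) * ((Cp + Cm) * (α * f + β * (1 - f))) = 1 := by
    calc ((γ + δ) * B) * ((Cp + Cm) * (α * f + β * (1 - f)))
        = (γ + δ) * (B * (Cp + Cm)) * (α * f + β * (1 - f)) := by noncomm_ring
      _ = 1 := by rw [h1, mul_one, hv2]
  have hwB : ((Cp + Cm) * (α * f + β * (1 - f))) * ((γ + δ) * B) = 1 := by
    calc ((Cp + Cm) * (α * f + β * (1 - f))) * ((γ + δ) * B)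
        = (Cp + Cm) * ((α * f + β * (1 - f)) * (γ + δ)) * B := by noncomm_ring
      _ = 1 := by rw [hv1, mul_one, h2]
  have hcommab : (1 + γ * β) * (1 + δ * α) = (1 + δ * α) * (1 + γ * β) := by
    have h3 : (1 + γ * β) * (1 + δ * α) = 1 + γ * β + δ * α + γ * β * (δ * α) := by noncomm_ring
    have h4 : (1 + δ * α) * (1 + γ * β) = 1 + γ * β + δ * α + δ * α * (γ * β) := by noncomm_ring
    rw [h3, h4, hab, hba]
  refine ⟨E, F, c0, c1, α * f + β * (1 - f), γ + δ, γ * β, δ * α, hEE, hFF, r1, r2, r3, r4, r5,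
    r6, ?_, hv1, hv2, hvB, hab, hba, ⟨c0 * A1, ?_⟩, ⟨T.φ.symm (c1 * A0), ?_⟩, ?_, ?_⟩
  · have h3 : T.j (T.φ (1 - F)) * (T.t : S) = (T.t : S) * (1 - f) := by
      rw [← T.comm, map_sub, map_one]
    rw [map_mul, map_mul]
    calc α * f + β * (1 - f) = T.j A0 * T.j F + T.j A1 * ((T.t : S) * (1 - f)) := by
          rw [hβ, mul_assoc]
      _ = _ := by rw [← h3, mul_assoc]
  · rw [hγ, hβ, map_mul, mul_assoc]
  · rw [hδ, hα, mul_assoc, ← map_mul, ← T.tinv_comm]
    congr 2
    exact (T.φ.apply_symm_apply _).symm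
  · -- nilpotency of `a`
    have hd : (1 + γ * β) * ((1 - f) + Cp * (α * f)) = 1 := by
      have h3 : (1 + γ * β) * (1 - f) = 1 - f := by
        have : (1 + γ * β) * (1 - f) = (1 - f) + (γ * β - γ * β * f) := by noncomm_ring
        rw [this, hγβf, sub_self, add_zero]
      have h4 : (1 + γ * β) * f = (γ + δ) * B * f := by
        have h5 : (γ + δ) * B * f = f * f + γ * β * f + δ * α * f + δ * β * f := by
          rw [hB, ← s2]; noncomm_ring
        rw [h5, sff, hγβf, hδαf, s4, sub_mul, one_mul, sff, sub_self, add_mul, one_mul, hγβf]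
        abel
      have h6 : (1 + γ * β) * (Cp * (α * f)) = f := by
        calc (1 + γ * β) * (Cp * (α * f)) = ((1 + γ * β) * f) * (Cp * (α * f)) := by
              rw [mul_assoc (1 + γ * β) f, ← mul_assoc f, hFCp]
          _ = (γ + δ) * (B * Cp) * (α * f) := by
              rw [h4]
              calc (γ + δ) * B * f * (Cp * (α * f)) = (γ + δ) * B * ((f * Cp) * (α * f)) := by
                    noncomm_ring
                _ = _ := by rw [hFCp]; noncomm_ring
          _ = (γ + δ) * (e * α * f) := by rw [hE]; noncomm_ring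
          _ = γ * α * f + δ * e * α * f := by
              rw [s5]
              have : α * f * f = α * f := by rw [mul_assoc, sff]
              rw [this, s10, zero_mul, zero_mul, add_zero, add_mul, ← mul_assoc, ← mul_assoc, hδαf,
                add_zero]
          _ = f := by rw [s2, sff, s10, zero_mul, zero_mul, add_zero]
      rw [mul_add, h3, h6]; abel
    have hl : ((Cp + Cm) * (α * f + β * (1 - f)) * (1 + δ * α)) * (1 + γ * β) = 1 := by
      rw [mul_assoc, ← hcommab, ← hvB, hwB]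
    have heq : (1 - f) + Cp * (α * f) = (Cp + Cm) * (α * f + β * (1 - f)) * (1 + δ * α) := by
      calc (1 - f) + Cp * (α * f) = (((Cp + Cm) * (α * f + β * (1 - f)) * (1 + δ * α)) *
            (1 + γ * β)) * ((1 - f) + Cp * (α * f)) := by rw [hl, one_mul]
        _ = _ := by rw [mul_assoc, hd, mul_one]
    refine T.nilpotent_of (d := (1 - f) + Cp * (α * f)) ?_ ?_ hd (by rw [heq, hl]) ?_
    · simpa using (T.ge_j c0).mul hβ_ge
    · simpa using (T.le_j c0).mul hβ_le
    · have h3 : T.Ge 0 (1 - f) := by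
        have := (T.ge_j 1).sub (T.ge_j F)
        rwa [map_one] at this
      have h4 : T.Ge 0 (Cp * (α * f)) := by
        simpa using hCp.mul ((T.ge_j A0).mul (T.ge_j F))
      exact h3.add h4
  · -- nilpotency of `b`
    have hd : (1 + δ * α) * (f + Cm * (β * (1 - f))) = 1 := by
      have h3 : (1 + δ * α) * f = f := by rw [add_mul, one_mul, hδαf, add_zero]
      have h4 : (1 + δ * α) * (1 - f) = (γ + δ) * B * (1 - f) := by
        have h5 : (γ + δ) * B * (1 - f) = (γ * α - γ * α * f) + (γ * β - γ * β * f) +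
            (δ * α - δ * α * f) + (δ * β - δ * β * f) := by
          rw [hB]; noncomm_ring
        have h6 : (1 + δ * α) * (1 - f) = 1 - f + (δ * α - δ * α * f) := by noncomm_ring
        rw [h5, h6, s2, sff, hγβf, hδαf, s4, sub_mul, one_mul, sff]
        abel
      have hfCm : (1 - f) * Cm = Cm := by rw [sub_mul, one_mul, hFCm, sub_zero]
      have hff0 : (1 - f) * (1 - f) = 1 - f := by
        have : (1 - f) * (1 - f) = 1 - f - (f - f * f) := by noncomm_ring
        rw [this, sff, sub_self, sub_zero]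
      have h6 : (1 + δ * α) * (Cm * (β * (1 - f))) = 1 - f := by
        calc (1 + δ * α) * (Cm * (β * (1 - f)))
            = ((1 + δ * α) * (1 - f)) * (Cm * (β * (1 - f))) := by
              rw [mul_assoc (1 + δ * α) (1 - f), ← mul_assoc (1 - f) Cm, hfCm]
          _ = (γ + δ) * B * ((1 - f) * Cm) * (β * (1 - f)) := by rw [h4]; noncomm_ring
          _ = (γ + δ) * (B * Cm) * (β * (1 - f)) := by rw [hfCm]; noncomm_ring
          _ = (γ + δ) * (β * (1 - f)) - (γ + δ) * (e * β * (1 - f)) := by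
              rw [hBCm]; noncomm_ring
          _ = (γ + δ) * (β * (1 - f)) := by
              have : e * β * (1 - f) = 0 := by
                rw [s6, mul_sub, mul_one, mul_assoc β f f, sff, sub_self]
              rw [this, mul_zero, sub_zero]
          _ = (γ * β - γ * β * f) + (δ * β - δ * β * f) := by noncomm_ring
          _ = 1 - f := by rw [hγβf, s4, sub_mul, one_mul, sff]; abel
      rw [mul_add, h3, h6]; abel
    have hl : ((Cp + Cm) * (α * f + β * (1 - f)) * (1 + γ * β)) * (1 + δ * α) = 1 := by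
      rw [mul_assoc, ← hvB, hwB]
    have heq : f + Cm * (β * (1 - f)) =
        (Cp + Cm) * (α * f + β * (1 - f)) * (1 + γ * β) := by
      calc f + Cm * (β * (1 - f)) = (((Cp + Cm) * (α * f + β * (1 - f)) * (1 + γ * β)) *
            (1 + δ * α)) * (f + Cm * (β * (1 - f))) := by rw [hl, one_mul]
        _ = _ := by rw [mul_assoc, hd, mul_one]
    have hδ_le : T.Le (-1) δ := by
      have h3 : T.Le (-1) ((T.t⁻¹ : Sˣ) : S) := by simpa using T.le_zpow (-1)
      simpa using h3.mul (T.le_j c1)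
    have hδ_ge : T.Ge (-1) δ := by
      have h3 : T.Ge (-1) ((T.t⁻¹ : Sˣ) : S) := by simpa using T.ge_zpow (-1)
      simpa using h3.mul (T.ge_j c1)
    refine T.symm.nilpotent_of (d := f + Cm * (β * (1 - f))) ?_ ?_ hd (by rw [heq, hl]) ?_
    · rw [T.symm_ge]
      simpa using hδ_le.mul (T.le_j A0)
    · rw [T.symm_le]
      simpa using hδ_ge.mul (T.ge_j A0)
    · rw [T.symm_ge]
      have h5 : T.Le 0 (1 - f) := by
        have := (T.le_j 1).sub (T.le_j F)
        rwa [map_one] at this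
      have h6 : T.Le 0 (Cm * (β * (1 - f))) := by
        simpa using hCm.mul (hβ_le.mul h5)
      have h7 : T.Le 0 f := T.le_j F
      simpa using h7.add h6

end Tw

end Pool.Agent.Lib.MP_16fe43_al
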