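import Pool.Agent.Lib.MP_16fe43_al.K1

/-!
# Equivalence of idempotent matrices
-/

set_option autoImplicit false

universe u v w

namespace Pool.Agent.Lib.MP_16fe43_al

open Matrix (fromBlocks fromRows fromCols)

/-- (Murray–von Neumann) equivalence of square matrices (used for idempotents):
`e = x y`, `f = y x`. -/
def MvN {R : Type u} [Ring R] {ι : Type v} {κ : Type w} [Fintype ι] [Fintype κ]
    (e : Matrix ι ι R) (f : Matrix κ κ R) : Prop :=
  ∃ (x : Matrix ι κ R) (y : Matrix κ ι R), x * y = e ∧ y * x = f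

section

variable {R : Type u} [Ring R] {ι : Type v} {κ : Type w} {τ : Type*} {σ : Type*}
  [Fintype ι] [Fintype κ] [Fintype τ] [Fintype σ]

theorem MvN.refl {e : Matrix ι ι R} (he : e * e = e) : MvN e e := ⟨e, e, he, he⟩

theorem MvN.symm {e : Matrix ι ι R} {f : Matrix κ κ R} (h : MvN e f) : MvN f e := by
  obtain ⟨x, y, h1, h2⟩ := h
  exact ⟨y, x, h2, h1⟩

theorem MvN.trans {e : Matrix ι ι R} {f : Matrix κ κ R} {g : Matrix τ τ R} (he : e * e = e)
    (hg : g * g = g) (h : MvN e f) (h' : MvN f g) : MvN e g := by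
  obtain ⟨x, y, rfl, rfl⟩ := h
  obtain ⟨z, w, h3, rfl⟩ := h'
  refine ⟨x * z, w * y, ?_, ?_⟩
  · calc x * z * (w * y) = x * (z * w) * y := by simp only [Matrix.mul_assoc]
      _ = (x * y) * (x * y) := by rw [h3]; simp only [Matrix.mul_assoc]
      _ = x * y := he
  · calc w * y * (x * z) = w * (y * x) * z := by simp only [Matrix.mul_assoc]
      _ = (w * z) * (w * z) := by rw [← h3]; simp only [Matrix.mul_assoc]
      _ = w * z := hg

theorem MvN.dsum {e : Matrix ι ι R} {f : Matrix κ κ R} {e' : Matrix τ τ R} {f' : Matrix σ σ R}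
    (h : MvN e f) (h' : MvN e' f') : MvN (fromBlocks e 0 0 e') (fromBlocks f 0 0 f') := by
  obtain ⟨x, y, rfl, rfl⟩ := h
  obtain ⟨z, w, rfl, rfl⟩ := h'
  refine ⟨fromBlocks x 0 0 z, fromBlocks y 0 0 w, ?_, ?_⟩ <;>
  simp [Matrix.fromBlocks_multiply]

theorem MvN.reindex [DecidableEq ι] [DecidableEq κ] (q : ι ≃ κ) {e : Matrix ι ι R}
    (he : e * e = e) : MvN e (Matrix.reindex q q e) := by
  refine ⟨e.submatrix id q.symm, e.submatrix q.symm id, ?_, ?_⟩
  · have := Matrix.submatrix_mul_equiv e e id q.symm id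
    rw [this, he]
    rfl
  · have := Matrix.submatrix_mul_equiv e e q.symm (Equiv.refl ι) q.symm
    simp only [Equiv.coe_refl] at this
    rw [this, he]
    rfl

theorem MvN.swap [DecidableEq ι] [DecidableEq κ] {e : Matrix ι ι R} {f : Matrix κ κ R}
    (he : e * e = e) (hf : f * f = f) : MvN (fromBlocks e 0 0 f) (fromBlocks f 0 0 e) := by
  have h := MvN.reindex (Equiv.sumComm ι κ) (e := fromBlocks e 0 0 f)
    (by simp [Matrix.fromBlocks_multiply, he, hf])
  have h2 : Matrix.reindex (Equiv.sumComm ι κ) (Equiv.sumComm ι κ) (fromBlocks e 0 0 f) =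
      fromBlocks f 0 0 e := by
    ext i j
    rcases i with i | i <;> rcases j with j | j <;> simp
  rwa [h2] at h

theorem MvN.assoc [DecidableEq ι] [DecidableEq κ] [DecidableEq τ] {e : Matrix ι ι R}
    {f : Matrix κ κ R} {g : Matrix τ τ R}
    (he : e * e = e) (hf : f * f = f) (hg : g * g = g) :
    MvN (fromBlocks (fromBlocks e 0 0 f) 0 0 g) (fromBlocks e 0 0 (fromBlocks f 0 0 g)) := by
  have h := MvN.reindex (Equiv.sumAssoc ι κ τ) (e := fromBlocks (fromBlocks e 0 0 f) 0 0 g)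
    (by simp [Matrix.fromBlocks_multiply, he, hf, hg])
  have h2 : Matrix.reindex (Equiv.sumAssoc ι κ τ) (Equiv.sumAssoc ι κ τ)
      (fromBlocks (fromBlocks e 0 0 f) 0 0 g) =
      fromBlocks e 0 0 (fromBlocks f 0 0 g) := by
    ext i j
    rcases i with i | i | i <;> rcases j with j | j | j <;> simp
  rwa [h2] at h

/-- `1 ≃ e ⊕ (1 - e)` -/
theorem MvN.split [DecidableEq ι] {e : Matrix ι ι R} (he : e * e = e) :
    MvN (1 : Matrix ι ι R) (fromBlocks e 0 0 (1 - e)) := by
  have h1 : e * (1 - e) = 0 := by rw [mul_sub, mul_one, he, sub_self]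
  have h2 : (1 - e) * e = 0 := by rw [sub_mul, one_mul, he, sub_self]
  have h3 : (1 - e) * (1 - e) = 1 - e := by rw [mul_sub, mul_one, h2, sub_zero]
  refine ⟨fromCols e (1 - e), fromRows e (1 - e), ?_, ?_⟩
  · rw [Matrix.fromCols_mul_fromRows, he, h3]; abel
  · rw [Matrix.fromRows_mul_fromCols, he, h1, h2, h3]

theorem MvN.map {S : Type*} [Ring S] (g : R →+* S) {e : Matrix ι ι R} {f : Matrix κ κ R}
    (h : MvN e f) : MvN (e.map g) (f.map g) := by
  obtain ⟨x, y, rfl, rfl⟩ := h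
  exact ⟨x.map g, y.map g, Matrix.map_mul.symm, Matrix.map_mul.symm⟩

theorem MvN.zero_right [DecidableEq ι] {e : Matrix ι ι R} (he : e * e = e) :
    MvN (fromBlocks e 0 0 (0 : Matrix κ κ R)) e := by
  refine ⟨fromRows e 0, fromCols e 0, ?_, ?_⟩
  · rw [Matrix.fromRows_mul_fromCols]; simp [he]
  · rw [Matrix.fromCols_mul_fromRows]; simp [he]

theorem MvN.zero_left [DecidableEq ι] {e : Matrix ι ι R} (he : e * e = e) :
    MvN (fromBlocks (0 : Matrix κ κ R) 0 0 e) e := by
  refine ⟨fromRows 0 e, fromCols 0 e, ?_, ?_⟩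
  · rw [Matrix.fromRows_mul_fromCols]; simp [he]
  · rw [Matrix.fromCols_mul_fromRows]; simp [he]

end

/-- an idempotent integer matrix is equivalent to an identity matrix -/
theorem MvN.int {ι : Type v} [Fintype ι] [DecidableEq ι] {e : Matrix ι ι ℤ} (he : e * e = e) :
    ∃ a : ℕ, MvN e (1 : Matrix (Fin a) (Fin a) ℤ) := by
  let L : (ι → ℤ) →ₗ[ℤ] (ι → ℤ) := Matrix.toLin' e
  let V := LinearMap.range L
  have hfree : Module.Free ℤ V := inferInstance
  have hfin : Module.Finite ℤ V := inferInstance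
  let b := Module.finBasis ℤ V
  let pr : (ι → ℤ) →ₗ[ℤ] V := L.rangeRestrict
  let inc : V →ₗ[ℤ] (ι → ℤ) := V.subtype
  have h1 : inc ∘ₗ pr = L := by ext; rfl
  have h2 : pr ∘ₗ inc = LinearMap.id := by
    ext ⟨v, w, rfl⟩ i
    show L (L w) i = L w i
    have : L ∘ₗ L = L := by
      show Matrix.toLin' e ∘ₗ Matrix.toLin' e = Matrix.toLin' e
      rw [← Matrix.toLin'_mul, he]
    exact congrFun (congrFun (congrArg DFunLike.coe this) w) i
  refine ⟨_, LinearMap.toMatrix b (Pi.basisFun ℤ ι) inc, LinearMap.toMatrix (Pi.basisFun ℤ ι) b pr,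
    ?_, ?_⟩
  · rw [← LinearMap.toMatrix_comp, h1]
    show LinearMap.toMatrix (Pi.basisFun ℤ ι) (Pi.basisFun ℤ ι) (Matrix.toLin' e) = e
    rw [LinearMap.toMatrix_eq_toMatrix', LinearMap.toMatrix'_toLin']
  · rw [← LinearMap.toMatrix_comp, h2, LinearMap.toMatrix_id]

end Pool.Agent.Lib.MP_16fe43_al
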