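import Pool.Agent.Lib.MP_16fe43_al.TwMat
import Pool.Agent.Lib.MP_16fe43_al.MvN

/-!
# Generation of `K₁` of a twisted Laurent ring
-/

set_option autoImplicit false

universe u v w

namespace Pool.Agent.Lib.MP_16fe43_al

open Matrix (fromBlocks fromRows fromCols)

theorem isUnit_blocks {S : Type v} [Ring S] {ι κ : Type*} [Fintype ι] [Fintype κ] [DecidableEq ι]
    [DecidableEq κ] {A : Matrix ι ι S} {D : Matrix κ κ S} (h : IsUnit (fromBlocks A 0 0 D)) :
    IsUnit A ∧ IsUnit D := by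
  obtain ⟨u, hu⟩ := h
  have h1 : fromBlocks A 0 0 D * u.inv = 1 := by rw [← hu]; exact u.val_inv
  have h2 : u.inv * fromBlocks A 0 0 D = 1 := by rw [← hu]; exact u.inv_val
  rw [← Matrix.fromBlocks_toBlocks u.inv, Matrix.fromBlocks_multiply, ← Matrix.fromBlocks_one,
    Matrix.fromBlocks_inj] at h1 h2
  simp only [Matrix.zero_mul, Matrix.mul_zero, add_zero, zero_add] at h1 h2
  exact ⟨⟨⟨A, u.inv.toBlocks₁₁, h1.1, h2.1⟩, rfl⟩, ⟨⟨D, u.inv.toBlocks₂₂, h1.2.2.2, h2.2.2.2⟩, rfl⟩⟩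

namespace Tw

variable {R : Type u} {S : Type v} [Ring R] [Ring S] (T : Tw R S)

theorem isUnit_of_j {r : R} (h : IsUnit (T.j r)) : IsUnit r := by
  obtain ⟨u, hu⟩ := h
  have h1 : T.j r * u.inv = 1 := by rw [← hu]; exact u.val_inv
  have h2 : u.inv * T.j r = 1 := by rw [← hu]; exact u.inv_val
  have h3 := congrArg (T.co 0) h1
  have h4 := congrArg (T.co 0) h2
  rw [T.co_j_mul, T.co_one, if_pos rfl] at h3
  rw [T.co_mul_j, T.co_one, if_pos rfl] at h4
  exact ⟨⟨r, T.co 0 u.inv, h3, by simpa using h4⟩, rfl⟩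

/-- the class of `t` -/
noncomputable def tcl : K1 S := cm (((T.mat (Fin 1)).t : (Matrix (Fin 1) (Fin 1) S)ˣ) :
  Matrix (Fin 1) (Fin 1) S)

/-- the subgroup generated by the image of `K₁(R)` and `[t]` -/
noncomputable def W : AddSubgroup (K1 S) := (K1.map T.j).range ⊔ AddSubgroup.zmultiples T.tcl

theorem map_mem_W (x : K1 R) : K1.map T.j x ∈ T.W :=
  (le_sup_left : (K1.map T.j).range ≤ T.W) ⟨x, rfl⟩

theorem t_sum {ι κ : Type w} [Fintype ι] [Fintype κ] [DecidableEq ι] [DecidableEq κ] :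
    (((T.mat (ι ⊕ κ)).t : (Matrix (ι ⊕ κ) (ι ⊕ κ) S)ˣ) : Matrix (ι ⊕ κ) (ι ⊕ κ) S) =
    fromBlocks ((T.mat ι).t : (Matrix ι ι S)ˣ).val 0 0 ((T.mat κ).t : (Matrix κ κ S)ˣ).val := by
  rw [mat_t_val, mat_t_val, mat_t_val, Matrix.fromBlocks_diagonal]
  congr 1
  ext i
  rcases i with i | i <;> rfl

theorem cm_t_mem (ι : Type w) [Fintype ι] [DecidableEq ι] :
    cm (((T.mat ι).t : (Matrix ι ι S)ˣ) : Matrix ι ι S) ∈ T.W := by
  have h1 : ∀ n : ℕ, cm (((T.mat (Fin n)).t : (Matrix (Fin n) (Fin n) S)ˣ) :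
      Matrix (Fin n) (Fin n) S) ∈ T.W := by
    intro n
    induction n with
    | zero =>
      have : (((T.mat (Fin 0)).t : (Matrix (Fin 0) (Fin 0) S)ˣ) : Matrix (Fin 0) (Fin 0) S) = 1 :=
        Subsingleton.elim _ _
      rw [this, cm_one]
      exact T.W.zero_mem
    | succ n ih =>
      have : (((T.mat (Fin (n + 1))).t : (Matrix (Fin (n + 1)) (Fin (n + 1)) S)ˣ) :
          Matrix (Fin (n + 1)) (Fin (n + 1)) S) = Matrix.reindex finSumFinEquiv finSumFinEquiv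
          (fromBlocks ((T.mat (Fin n)).t : (Matrix (Fin n) (Fin n) S)ˣ).val 0 0
            ((T.mat (Fin 1)).t : (Matrix (Fin 1) (Fin 1) S)ˣ).val) := by
        rw [← T.t_sum, mat_t_val, mat_t_val]
        ext i j
        simp [Matrix.diagonal_apply]
      rw [this, cm_reindex, cm_fromBlocks_diag (Units.isUnit _) (Units.isUnit _)]
      · exact T.W.add_mem ih ((le_sup_right : _ ≤ T.W) (AddSubgroup.mem_zmultiples _))
      · exact isUnit_fromBlocks_upper _ (Units.isUnit _) (Units.isUnit _)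
  have h2 : (((T.mat (Fin (Fintype.card ι))).t : (Matrix _ _ S)ˣ) : Matrix _ _ S) =
      Matrix.reindex (Fintype.equivFin ι) (Fintype.equivFin ι)
        (((T.mat ι).t : (Matrix ι ι S)ˣ) : Matrix ι ι S) := by
    rw [mat_t_val, mat_t_val]
    ext i j
    simp [Matrix.diagonal_apply]
  rw [← cm_reindex (Fintype.equivFin ι) (Units.isUnit _), ← h2]
  exact h1 _

/-- commutation of `t` with rectangular matrices over `R` -/
theorem t_mul_map {ι κ : Type*} [Fintype ι] [Fintype κ] [DecidableEq ι] [DecidableEq κ]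
    (X : Matrix ι κ R) :
    (((T.mat ι).t : (Matrix ι ι S)ˣ) : Matrix ι ι S) * X.map T.j =
      (X.map T.φ).map T.j * (((T.mat κ).t : (Matrix κ κ S)ˣ) : Matrix κ κ S) := by
  rw [mat_t_val, mat_t_val]
  ext a b
  rw [Matrix.diagonal_mul, Matrix.mul_diagonal]
  exact T.comm _

theorem eq_linear {B : S} (h0 : T.Ge 0 B) (h1 : T.Le 1 B) :
    B = T.j (T.co 0 B) + T.j (T.co 1 B) * (T.t : S) := by
  refine T.ext_co fun i => ?_
  have h2 : T.co i (T.j (T.co 1 B) * (T.t : S)) = if i = 1 then T.co 1 B else 0 := by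
    have := T.co_mono (T.co 1 B) 1 i
    simpa using this
  rw [map_add, T.co_j, h2]
  split_ifs with h3 h4 h4
  · omega
  · rw [h3, add_zero]
  · rw [h4, zero_add]
  · rcases lt_or_ge i 0 with h5 | h5
    · rw [h0 i h5, add_zero]
    · rw [h1 i (by omega), add_zero]

end Tw

/-- basis change: an idempotent `F` equivalent to `1_τ` whose complement is equivalent to `1_σ` -/
theorem exists_basis {R : Type u} [Ring R] {Ω τ σ : Type*} [Fintype Ω] [Fintype τ] [Fintype σ]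
    [DecidableEq Ω] [DecidableEq τ] [DecidableEq σ] {F : Matrix Ω Ω R} (hF : F * F = F)
    (h1 : MvN F (1 : Matrix τ τ R)) (h2 : MvN (1 - F) (1 : Matrix σ σ R)) :
    ∃ (x : Matrix Ω τ R) (y : Matrix τ Ω R) (x' : Matrix Ω σ R) (y' : Matrix σ Ω R),
      x * y = F ∧ y * x = 1 ∧ x' * y' = 1 - F ∧ y' * x' = 1 ∧ F * x = x ∧ y * F = y ∧
      F * x' = 0 ∧ y' * F = 0 ∧ y * x' = 0 ∧ y' * x = 0 := by
  obtain ⟨x, y, e1, e2⟩ := h1
  obtain ⟨x', y', e3, e4⟩ := h2
  have a1 : F * x = x := by rw [← e1, Matrix.mul_assoc, e2, Matrix.mul_one]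
  have a2 : y * F = y := by rw [← e1, ← Matrix.mul_assoc, e2, Matrix.one_mul]
  have a3 : (1 - F) * x' = x' := by rw [← e3, Matrix.mul_assoc, e4, Matrix.mul_one]
  have a4 : y' * (1 - F) = y' := by rw [← e3, ← Matrix.mul_assoc, e4, Matrix.one_mul]
  have a5 : F * x' = 0 := by
    have : F * ((1 - F) * x') = 0 := by
      rw [← Matrix.mul_assoc, mul_sub, mul_one, hF, sub_self, Matrix.zero_mul]
    rwa [a3] at this
  have a6 : y' * F = 0 := by
    have : (y' * (1 - F)) * F = 0 := by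
      rw [Matrix.mul_assoc, sub_mul, one_mul, hF, sub_self, Matrix.mul_zero]
    rwa [a4] at this
  refine ⟨x, y, x', y', e1, e2, e3, e4, a1, a2, a5, a6, ?_, ?_⟩
  · rw [← a2, Matrix.mul_assoc, a5, Matrix.mul_zero]
  · rw [← a1, ← Matrix.mul_assoc, a6, Matrix.zero_mul]

end Pool.Agent.Lib.MP_16fe43_al
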