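import Pool.Agent.Lib.MP_16fe43_al.Gen

/-!
# Generation of `K₁` of a twisted Laurent ring (continued)
-/

set_option autoImplicit false

universe u v w

namespace Pool.Agent.Lib.MP_16fe43_al

open Matrix (fromBlocks fromRows fromCols)

namespace Tw

variable {R : Type u} {S : Type v} [Ring R] [Ring S] (T : Tw R S)

theorem map_one_matrix {ι : Type*} [DecidableEq ι] (g : R →+* S) :
    (1 : Matrix ι ι R).map g = 1 := by
  ext i j
  simp only [Matrix.map_apply, Matrix.one_apply]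
  split_ifs <;> simp

theorem blocks_one_sub {ι κ τ : Type*} [Fintype ι] [Fintype κ] [Fintype τ] [DecidableEq ι]
    [DecidableEq κ] [DecidableEq τ]
    (F : Matrix ι ι R) :
    (1 : Matrix ((ι ⊕ κ) ⊕ τ) ((ι ⊕ κ) ⊕ τ) R) - fromBlocks (fromBlocks F 0 0 1) 0 0 0 =
      fromBlocks (fromBlocks (1 - F) 0 0 0) 0 0 1 := by
  ext i j
  rcases i with (i | i) | i <;> rcases j with (j | j) | j <;> simp [Matrix.one_apply]

theorem cm_u_mem {ι κ : Type} [Fintype ι] [DecidableEq ι] [Fintype κ] [DecidableEq κ] {A0 A1 E F c0 c1 : Matrix ι ι R}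
    (hE : E * E = E) (hF : F * F = F) (r1 : A0 * c0 = E) (r2 : c0 * A0 = F)
    (r3 : A1 * c1 = 1 - E) (r4 : c1 * A1 = 1 - F.map T.φ) (r5 : E * A0 = A0 * F)
    (r6 : E * A1 = A1 * F.map T.φ) {a : ℕ}
    (hFa : MvN (fromBlocks F 0 0 (1 : Matrix κ κ R)) (1 : Matrix (Fin a) (Fin a) R))
    {u : Matrix ι ι S}
    (hu : u = (A0 * F).map T.j + (A1 * (1 - F).map T.φ).map T.j *
      (((T.mat ι).t : (Matrix ι ι S)ˣ) : Matrix ι ι S)) (huu : IsUnit u) : cm u ∈ T.W := by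
  classical
  let φh : R →+* R := (T.φ : R ≃+* R).toRingHom
  have hφh : ∀ {α β : Type} (M : Matrix α β R), M.map φh = M.map T.φ := fun M => rfl
  -- the stabilised matrices
  set F' : Matrix ((ι ⊕ κ) ⊕ Fin a) ((ι ⊕ κ) ⊕ Fin a) R :=
    fromBlocks (fromBlocks F 0 0 1) 0 0 0 with hF'
  set E' : Matrix ((ι ⊕ κ) ⊕ Fin a) ((ι ⊕ κ) ⊕ Fin a) R :=
    fromBlocks (fromBlocks E 0 0 1) 0 0 0 with hE'
  set A0' : Matrix ((ι ⊕ κ) ⊕ Fin a) ((ι ⊕ κ) ⊕ Fin a) R :=
    fromBlocks (fromBlocks A0 0 0 1) 0 0 0 with hA0'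
  set A1' : Matrix ((ι ⊕ κ) ⊕ Fin a) ((ι ⊕ κ) ⊕ Fin a) R :=
    fromBlocks (fromBlocks A1 0 0 0) 0 0 1 with hA1'
  have hF1 : (1 - F) * (1 - F) = 1 - F := by
    rw [mul_sub, mul_one, sub_mul, one_mul, hF, sub_self, sub_zero]
  have hE1 : (1 - E) * (1 - E) = 1 - E := by
    rw [mul_sub, mul_one, sub_mul, one_mul, hE, sub_self, sub_zero]
  have hF'F' : F' * F' = F' := by
    rw [hF']; simp [Matrix.fromBlocks_multiply, hF]
  have hE'E' : E' * E' = E' := by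
    rw [hE']; simp [Matrix.fromBlocks_multiply, hE]
  have h1F' : 1 - F' = fromBlocks (fromBlocks (1 - F) 0 0 0) 0 0 1 := blocks_one_sub F
  have h1E' : 1 - E' = fromBlocks (fromBlocks (1 - E) 0 0 0) 0 0 1 := blocks_one_sub E
  have one1 : ∀ (α : Type) [Fintype α] [DecidableEq α], (1 : Matrix α α R) * 1 = 1 :=
    fun α _ _ => Matrix.one_mul _
  have zero1 : ∀ (α : Type) [Fintype α] [DecidableEq α], (0 : Matrix α α R) * 0 = 0 :=
    fun α _ _ => Matrix.zero_mul _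
  -- equivalences
  have m1 : MvN F' (1 : Matrix (Fin a) (Fin a) R) :=
    MvN.trans hF'F' (one1 _) (MvN.zero_right (by simp [Matrix.fromBlocks_multiply, hF])) hFa
  have m2 : MvN (1 - F') (1 : Matrix (ι ⊕ κ) (ι ⊕ κ) R) := by
    rw [h1F']
    have i1 : (fromBlocks (fromBlocks (1 - F) 0 0 (0 : Matrix κ κ R)) 0 0
        (1 : Matrix (Fin a) (Fin a) R)) * (fromBlocks (fromBlocks (1 - F) 0 0 0) 0 0 1) =
        fromBlocks (fromBlocks (1 - F) 0 0 0) 0 0 1 := by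
      simp [Matrix.fromBlocks_multiply, hF1]
    refine MvN.trans i1 (one1 _) (MvN.dsum (MvN.zero_right hF1) (MvN.refl (one1 _))) ?_
    have i2 : (fromBlocks (1 - F) 0 0 (1 : Matrix (Fin a) (Fin a) R)) *
        (fromBlocks (1 - F) 0 0 1) = fromBlocks (1 - F) 0 0 1 := by
      simp [Matrix.fromBlocks_multiply, hF1]
    refine MvN.trans i2 (one1 _) (MvN.dsum (MvN.refl hF1) hFa.symm) ?_
    have i3 : (fromBlocks (1 - F) 0 0 (fromBlocks F 0 0 (1 : Matrix κ κ R))) *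
        (fromBlocks (1 - F) 0 0 (fromBlocks F 0 0 (1 : Matrix κ κ R))) =
        fromBlocks (1 - F) 0 0 (fromBlocks F 0 0 (1 : Matrix κ κ R)) := by
      simp [Matrix.fromBlocks_multiply, hF1, hF]
    refine MvN.trans i3 (one1 _) (MvN.assoc hF1 hF (one1 _)).symm ?_
    have i4 : MvN (fromBlocks (1 - F) 0 0 F) (1 : Matrix ι ι R) := by
      refine MvN.trans (by simp [Matrix.fromBlocks_multiply, hF1, hF]) (one1 _)
        (MvN.swap hF1 hF) (MvN.split hF).symm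
    have i5 := MvN.dsum i4 (MvN.refl (one1 κ))
    rw [Matrix.fromBlocks_one] at i5
    exact i5
  have m3 : MvN E' (1 : Matrix (Fin a) (Fin a) R) :=
    MvN.trans hE'E' (one1 _)
      (MvN.dsum (MvN.dsum ⟨A0, c0, r1, r2⟩ (MvN.refl (one1 κ))) (MvN.refl (zero1 _))) m1
  have m4 : MvN (1 - E') (1 : Matrix (ι ⊕ κ) (ι ⊕ κ) R) := by
    have i1 := MvN.map φh m2
    rw [map_one_matrix] at i1
    have i2 : (1 - F').map φh = fromBlocks (fromBlocks (1 - F.map T.φ) 0 0 0) 0 0 1 := by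
      rw [h1F', Matrix.fromBlocks_map, Matrix.fromBlocks_map, map_one_matrix, hφh]
      have : (1 - F).map T.φ = 1 - F.map T.φ := by
        rw [← hφh, ← hφh]
        rw [Matrix.map_sub φh (fun a b => map_sub φh a b), map_one_matrix]
      rw [this]
      simp
    rw [h1E']
    have i3 : (fromBlocks (fromBlocks (1 - E) 0 0 (0 : Matrix κ κ R)) 0 0
        (1 : Matrix (Fin a) (Fin a) R)) * (fromBlocks (fromBlocks (1 - E) 0 0 0) 0 0 1) =
        fromBlocks (fromBlocks (1 - E) 0 0 0) 0 0 1 := by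
      simp [Matrix.fromBlocks_multiply, hE1]
    refine MvN.trans i3 (one1 _)
      (MvN.dsum (MvN.dsum ⟨A1, c1, r3, r4⟩ (MvN.refl (zero1 κ))) (MvN.refl (one1 _))) ?_
    rw [← i2]
    exact i1
  obtain ⟨x, y, x', y', b1, b2, b3, b4, b5, b6, b7, b8, b9, b10⟩ := exists_basis hF'F' m1 m2
  obtain ⟨z, w, z', w', d1, d2, d3, d4, d5, d6, d7, d8, d9, d10⟩ := exists_basis hE'E' m3 m4
  -- relations between the stabilised matrices
  have s5 : E' * A0' = A0' * F' := by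
    rw [hE', hA0', hF']; simp [Matrix.fromBlocks_multiply, r5]
  have hF'φ : F'.map T.φ = fromBlocks (fromBlocks (F.map T.φ) 0 0 1) 0 0 0 := by
    rw [← hφh, hF', Matrix.fromBlocks_map, Matrix.fromBlocks_map, map_one_matrix]
    simp
    rfl
  have s6 : E' * A1' = A1' * F'.map T.φ := by
    rw [hF'φ, hE', hA1']; simp [Matrix.fromBlocks_multiply, r6]
  -- the stabilised `u`
  set tΩ := (((T.mat ((ι ⊕ κ) ⊕ Fin a)).t : (Matrix ((ι ⊕ κ) ⊕ Fin a) ((ι ⊕ κ) ⊕ Fin a) S)ˣ) :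
    Matrix ((ι ⊕ κ) ⊕ Fin a) ((ι ⊕ κ) ⊕ Fin a) S) with htΩ
  set u' : Matrix ((ι ⊕ κ) ⊕ Fin a) ((ι ⊕ κ) ⊕ Fin a) S :=
    (A0' * F').map T.j + (A1' * (1 - F').map T.φ).map T.j * tΩ with hu'
  have hu'2 : u' = fromBlocks (fromBlocks u 0 0 1) 0 0
      (((T.mat (Fin a)).t : (Matrix (Fin a) (Fin a) S)ˣ) : Matrix (Fin a) (Fin a) S) := by
    have g1 : (A0' * F').map T.j = fromBlocks (fromBlocks ((A0 * F).map T.j) 0 0 1) 0 0 0 := by
      have : A0' * F' = fromBlocks (fromBlocks (A0 * F) 0 0 1) 0 0 0 := by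
        rw [hA0', hF']; simp [Matrix.fromBlocks_multiply]
      rw [this, Matrix.fromBlocks_map, Matrix.fromBlocks_map, map_one_matrix]
      simp
    have g2 : (A1' * (1 - F').map T.φ).map T.j =
        fromBlocks (fromBlocks ((A1 * (1 - F).map T.φ).map T.j) 0 0 0) 0 0 1 := by
      have : A1' * (1 - F').map T.φ = fromBlocks (fromBlocks (A1 * (1 - F).map T.φ) 0 0 0) 0 0 1
          := by
        have h3 : (1 - F').map T.φ = fromBlocks (fromBlocks ((1 - F).map T.φ) 0 0 0) 0 0 1 := by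
          rw [← hφh, h1F', Matrix.fromBlocks_map, Matrix.fromBlocks_map, map_one_matrix]
          simp
          rfl
        rw [h3, hA1']
        simp [Matrix.fromBlocks_multiply]
      rw [this, Matrix.fromBlocks_map, Matrix.fromBlocks_map, map_one_matrix]
      simp
    rw [hu', g1, g2, htΩ, T.t_sum, T.t_sum, hu]
    simp [Matrix.fromBlocks_multiply, Matrix.fromBlocks_add]
  have hu'u : IsUnit u' := by
    rw [hu'2]
    exact isUnit_fromBlocks_upper _ (isUnit_fromBlocks_upper _ huu isUnit_one) (Units.isUnit _)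
  have hu'cm : cm u' = cm u + cm (((T.mat (Fin a)).t : (Matrix (Fin a) (Fin a) S)ˣ) :
      Matrix (Fin a) (Fin a) S) := by
    rw [hu'2, cm_fromBlocks_diag (isUnit_fromBlocks_upper _ huu isUnit_one) (Units.isUnit _),
      cm_fromBlocks_diag huu isUnit_one, cm_one, add_zero]
  -- the base change
  set P : Matrix ((ι ⊕ κ) ⊕ Fin a) (Fin a ⊕ (ι ⊕ κ)) R := fromCols x x' with hP
  set Pi : Matrix (Fin a ⊕ (ι ⊕ κ)) ((ι ⊕ κ) ⊕ Fin a) R := fromRows y y' with hPi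
  set Q : Matrix ((ι ⊕ κ) ⊕ Fin a) (Fin a ⊕ (ι ⊕ κ)) R := fromCols z z' with hQ
  set Qi : Matrix (Fin a ⊕ (ι ⊕ κ)) ((ι ⊕ κ) ⊕ Fin a) R := fromRows w w' with hQi
  have hPPi : P * Pi = 1 := by
    rw [hP, hPi, Matrix.fromCols_mul_fromRows, b1, b3]; abel
  have hPiP : Pi * P = 1 := by
    rw [hP, hPi, Matrix.fromRows_mul_fromCols, b2, b4, b9, b10, Matrix.fromBlocks_one]
  have hQQi : Q * Qi = 1 := by
    rw [hQ, hQi, Matrix.fromCols_mul_fromRows, d1, d3]; abel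
  have hQiQ : Qi * Q = 1 := by
    rw [hQ, hQi, Matrix.fromRows_mul_fromCols, d2, d4, d9, d10, Matrix.fromBlocks_one]
  set tτσ := (((T.mat (Fin a ⊕ (ι ⊕ κ))).t : (Matrix (Fin a ⊕ (ι ⊕ κ)) (Fin a ⊕ (ι ⊕ κ)) S)ˣ) :
    Matrix (Fin a ⊕ (ι ⊕ κ)) (Fin a ⊕ (ι ⊕ κ)) S) with htτσ
  set tσ := (((T.mat (ι ⊕ κ)).t : (Matrix (ι ⊕ κ) (ι ⊕ κ) S)ˣ) :
    Matrix (ι ⊕ κ) (ι ⊕ κ) S) with htσ
  have key1 : Qi.map T.j * u' * P.map T.j = (Qi * (A0' * F') * P).map T.j +
      (Qi * (A1' * (1 - F').map T.φ) * P.map T.φ).map T.j * tτσ := by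
    rw [hu', Matrix.mul_add, Matrix.add_mul]
    congr 1
    · rw [← Matrix.map_mul, ← Matrix.map_mul]
    · calc Qi.map T.j * ((A1' * (1 - F').map T.φ).map T.j * tΩ) * P.map T.j
          = Qi.map T.j * (A1' * (1 - F').map T.φ).map T.j * (tΩ * P.map T.j) := by
            simp only [Matrix.mul_assoc]
        _ = Qi.map T.j * (A1' * (1 - F').map T.φ).map T.j * ((P.map T.φ).map T.j * tτσ) := by
            rw [htΩ, T.t_mul_map]
        _ = _ := by
            rw [← Matrix.mul_assoc, ← Matrix.map_mul, ← Matrix.map_mul]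
  have key2 : Qi * (A0' * F') * P = fromBlocks (w * A0' * x) 0 0 0 := by
    rw [hQi, hP, Matrix.fromRows_mul, Matrix.fromRows_mul_fromCols]
    have w'0 : w' * (A0' * F') = 0 := by rw [← s5, ← Matrix.mul_assoc, d8, Matrix.zero_mul]
    congr 1
    · rw [Matrix.mul_assoc, Matrix.mul_assoc, b5, Matrix.mul_assoc]
    · rw [Matrix.mul_assoc, Matrix.mul_assoc, b7, Matrix.mul_zero, Matrix.mul_zero]
    · rw [w'0, Matrix.zero_mul]
    · rw [w'0, Matrix.zero_mul]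
  have key3 : Qi * (A1' * (1 - F').map T.φ) * P.map T.φ =
      fromBlocks 0 0 0 (w' * A1' * x'.map T.φ) := by
    have hPφ : P.map T.φ = fromCols (x.map T.φ) (x'.map T.φ) := by
      rw [hP]; ext i j; rcases j with j | j <;> rfl
    have e1 : (1 - F').map T.φ * x.map T.φ = 0 := by
      rw [← hφh, ← hφh, ← Matrix.map_mul, Matrix.sub_mul, Matrix.one_mul, b5, sub_self]
      simp
    have e2 : (1 - F').map T.φ * x'.map T.φ = x'.map T.φ := by
      rw [← hφh, ← hφh, ← Matrix.map_mul, Matrix.sub_mul, Matrix.one_mul, b7, sub_zero]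
    have e3 : w * (A1' * (1 - F').map T.φ) = 0 := by
      have e4 : E' * (A1' * (1 - F').map T.φ) = 0 := by
        rw [← Matrix.mul_assoc, s6, Matrix.mul_assoc, ← hφh, ← hφh, ← Matrix.map_mul,
          Matrix.mul_sub, Matrix.mul_one, hF'F', sub_self]
        simp
      rw [← d6, Matrix.mul_assoc, e4, Matrix.mul_zero]
    rw [hQi, hPφ, Matrix.fromRows_mul, Matrix.fromRows_mul_fromCols]
    congr 1
    · rw [e3, Matrix.zero_mul]
    · rw [e3, Matrix.zero_mul]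
    · rw [Matrix.mul_assoc, Matrix.mul_assoc, e1, Matrix.mul_zero, Matrix.mul_zero]
    · rw [Matrix.mul_assoc, Matrix.mul_assoc, e2, Matrix.mul_assoc]
  have key4 : Qi.map T.j * u' * P.map T.j = fromBlocks ((w * A0' * x).map T.j) 0 0
      ((w' * A1' * x'.map T.φ).map T.j * tσ) := by
    rw [key1, key2, key3, Matrix.fromBlocks_map, Matrix.fromBlocks_map, htτσ, T.t_sum]
    simp [Matrix.fromBlocks_multiply, Matrix.fromBlocks_add]
    rfl
  -- square versions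
  let q : (ι ⊕ κ) ⊕ Fin a ≃ Fin a ⊕ (ι ⊕ κ) := Equiv.sumComm _ _
  set Ph : Matrix (Fin a ⊕ (ι ⊕ κ)) (Fin a ⊕ (ι ⊕ κ)) R := P.submatrix q.symm id with hPh
  set Phi : Matrix (Fin a ⊕ (ι ⊕ κ)) (Fin a ⊕ (ι ⊕ κ)) R := Pi.submatrix id q.symm with hPhi
  set Qh : Matrix (Fin a ⊕ (ι ⊕ κ)) (Fin a ⊕ (ι ⊕ κ)) R := Q.submatrix q.symm id with hQh
  set Qhi : Matrix (Fin a ⊕ (ι ⊕ κ)) (Fin a ⊕ (ι ⊕ κ)) R := Qi.submatrix id q.symm with hQhi
  have uPh : IsUnit Ph := by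
    refine ⟨⟨Ph, Phi, ?_, ?_⟩, rfl⟩
    · have := Matrix.submatrix_mul_equiv P Pi q.symm (Equiv.refl _) q.symm
      simp only [Equiv.coe_refl] at this
      rw [hPh, hPhi, this, hPPi]
      exact Matrix.submatrix_one_equiv q.symm
    · have := Matrix.submatrix_mul_equiv Pi P id q.symm id
      rw [hPh, hPhi, this, hPiP]
      rfl
  have uQhi : IsUnit Qhi := by
    refine ⟨⟨Qhi, Qh, ?_, ?_⟩, rfl⟩
    · have := Matrix.submatrix_mul_equiv Qi Q id q.symm id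
      rw [hQh, hQhi, this, hQiQ]
      rfl
    · have := Matrix.submatrix_mul_equiv Q Qi q.symm (Equiv.refl _) q.symm
      simp only [Equiv.coe_refl] at this
      rw [hQh, hQhi, this, hQQi]
      exact Matrix.submatrix_one_equiv q.symm
  have key5 : Qhi.map T.j * Matrix.reindex q q u' * Ph.map T.j =
      fromBlocks ((w * A0' * x).map T.j) 0 0 ((w' * A1' * x'.map T.φ).map T.j * tσ) := by
    rw [← key4]
    have e1 := Matrix.submatrix_mul_equiv (Qi.map T.j) u' id q.symm q.symm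
    have e2 := Matrix.submatrix_mul_equiv (Qi.map T.j * u') (P.map T.j) id q.symm id
    have e3 : Qhi.map T.j = (Qi.map T.j).submatrix id q.symm := rfl
    have e4 : Ph.map T.j = (P.map T.j).submatrix q.symm id := rfl
    have e5 : Matrix.reindex q q u' = u'.submatrix q.symm q.symm := rfl
    rw [e3, e4, e5, e1, e2]
    rfl
  have uL : IsUnit (Qhi.map T.j * Matrix.reindex q q u' * Ph.map T.j) :=
    ((isUnit_map T.j uQhi).mul (isUnit_reindex q hu'u)).mul (isUnit_map T.j uPh)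
  obtain ⟨uA, uB⟩ := isUnit_blocks (key5 ▸ uL)
  have uA' : IsUnit (w * A0' * x) := (T.mat (Fin a)).isUnit_of_j uA
  have uB' : IsUnit ((w' * A1' * x'.map T.φ).map T.j) := by
    obtain ⟨b, hb⟩ := uB
    have : (w' * A1' * x'.map T.φ).map T.j =
        (b * ((T.mat (ι ⊕ κ)).t : (Matrix (ι ⊕ κ) (ι ⊕ κ) S)ˣ)⁻¹).val := by
      calc (w' * A1' * x'.map T.φ).map T.j = (w' * A1' * x'.map T.φ).map T.j *
            (tσ * (((T.mat (ι ⊕ κ)).t : (Matrix (ι ⊕ κ) (ι ⊕ κ) S)ˣ)⁻¹).val) := by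
            rw [htσ, Units.mul_inv, Matrix.mul_one]
        _ = _ := by rw [Units.val_mul, hb, ← Matrix.mul_assoc]
    rw [this]
    exact Units.isUnit _
  have uB'' : IsUnit (w' * A1' * x'.map T.φ) := (T.mat (ι ⊕ κ)).isUnit_of_j uB'
  have hfin := congrArg cm key5
  rw [cm_mul ((isUnit_map T.j uQhi).mul (isUnit_reindex q hu'u)) (isUnit_map T.j uPh),
    cm_mul (isUnit_map T.j uQhi) (isUnit_reindex q hu'u), cm_reindex q hu'u, hu'cm,
    cm_fromBlocks_diag uA uB, cm_mul uB' (Units.isUnit _), ← K1.map_cm T.j uQhi,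
    ← K1.map_cm T.j uPh, ← K1.map_cm T.j uA', ← K1.map_cm T.j uB''] at hfin
  have hsol : cm u = K1.map T.j (cm (w * A0' * x)) + (K1.map T.j (cm (w' * A1' * x'.map T.φ)) +
      cm tσ) - K1.map T.j (cm Qhi) - K1.map T.j (cm Ph) -
      cm (((T.mat (Fin a)).t : (Matrix (Fin a) (Fin a) S)ˣ) : Matrix (Fin a) (Fin a) S) := by
    rw [← hfin]; abel
  rw [hsol]
  exact T.W.sub_mem (T.W.sub_mem (T.W.sub_mem (T.W.add_mem (T.map_mem_W _)
    (T.W.add_mem (T.map_mem_W _) (T.cm_t_mem _))) (T.map_mem_W _)) (T.map_mem_W _))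
    (T.cm_t_mem _)

end Tw

end Pool.Agent.Lib.MP_16fe43_al
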