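import Pool.Agent.Lib.MP_16fe43_al.Gen2

/-!
# Generation of `K₁` of a twisted Laurent ring (main theorem)
-/

set_option autoImplicit false

universe u v w

namespace Pool.Agent.Lib.MP_16fe43_al

open Matrix (fromBlocks fromRows fromCols)

namespace Tw

variable {R : Type u} {S : Type v} [Ring R] [Ring S] (T : Tw R S)

/-- the `N`-th power of the automorphism as a ring homomorphism -/
def φh (N : ℕ) : R →+* R := ((T.φ ^ N : RingAut R) : R ≃+* R).toRingHom

theorem φh_zero (r : R) : T.φh 0 r = r := rfl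

theorem φh_one (r : R) : T.φh 1 r = T.φ r := by
  show (T.φ ^ 1) r = T.φ r
  rw [pow_one]

theorem φh_succ (N : ℕ) (r : R) : T.φh (N + 1) r = T.φh N (T.φ r) := by
  show (T.φ ^ (N + 1)) r = (T.φ ^ N) (T.φ r)
  rw [pow_succ]
  rfl

theorem cm_zpow_t_mem (ι : Type w) [Fintype ι] [DecidableEq ι] (k : ℤ) :
    cm ((((T.mat ι).t ^ k : (Matrix ι ι S)ˣ)) : Matrix ι ι S) ∈ T.W := by
  have h : ∀ k : ℤ, cl ((T.mat ι).t ^ k) = k • cl (T.mat ι).t := by
    intro k
    have h1 : ∀ n : ℕ, cl ((T.mat ι).t ^ n) = n • cl (T.mat ι).t := by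
      intro n
      induction n with
      | zero => simp
      | succ n ih => rw [pow_succ, cl_mul, ih, succ_nsmul]
    cases k with
    | ofNat n => simpa using h1 n
    | negSucc n =>
      rw [zpow_negSucc, cl_inv, h1, negSucc_zsmul]
  rw [cm_val, h, ← cm_val]
  exact T.W.zsmul_mem (T.cm_t_mem ι) k

theorem gen_main
    (HK : ∀ (ι : Type) [Fintype ι] [DecidableEq ι] (F : Matrix ι ι R), F * F = F →
      (∀ N : ℕ, MvN (fromBlocks (F.map (T.φh N)) 0 0 (1 : Matrix ι ι R))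
        (fromBlocks F 0 0 (1 : Matrix ι ι R))) →
      ∃ b a : ℕ, MvN (fromBlocks F 0 0 (1 : Matrix (Fin b) (Fin b) R))
        (1 : Matrix (Fin a) (Fin a) R))
    (HN : ∀ (ι : Type) [Fintype ι] [DecidableEq ι] (ν : Matrix ι ι R),
      IsNilpotent (ν.map T.j * (((T.mat ι).t : (Matrix ι ι S)ˣ) : Matrix ι ι S)) →
      cm (1 + ν.map T.j * (((T.mat ι).t : (Matrix ι ι S)ˣ) : Matrix ι ι S)) ∈ T.W)
    (HN' : ∀ (ι : Type) [Fintype ι] [DecidableEq ι] (ν : Matrix ι ι R),
      IsNilpotent (ν.map T.j * (((T.mat ι).t⁻¹ : (Matrix ι ι S)ˣ) : Matrix ι ι S)) →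
      cm (1 + ν.map T.j * (((T.mat ι).t⁻¹ : (Matrix ι ι S)ˣ) : Matrix ι ι S)) ∈ T.W)
    (x : K1 S) : x ∈ T.W := by
  -- matrices
  have key : ∀ (ι : Type) [Fintype ι] [DecidableEq ι] (B : Matrix ι ι S), IsUnit B →
      (T.mat ι).Ge 0 B → (T.mat ι).Le 1 B → cm B ∈ T.W := by
    intro ι _ _ B hB h0 h1
    have hBu := hB
    obtain ⟨b, rfl⟩ := hB
    obtain ⟨E, F, c0, c1, u, v, a, b', hEE, hFF, r1, r2, r3, r4, r5, r6, hu, huv, hvu, hvB,
      hab, hba, ⟨ν, hν⟩, ⟨ν', hν'⟩, hna, hnb⟩ := (T.mat ι).factor _ _ b.val b.inv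
        ((T.mat ι).eq_linear h0 h1) b.val_inv b.inv_val
    set A0 := (T.mat ι).co 0 b.val
    set A1 := (T.mat ι).co 1 b.val
    have uu : IsUnit u := ⟨⟨u, v, huv, hvu⟩, rfl⟩
    have uv : IsUnit v := ⟨⟨v, u, hvu, huv⟩, rfl⟩
    have ua : IsUnit (1 + a) := hna.isUnit_one_add
    have ub : IsUnit (1 + b') := hnb.isUnit_one_add
    have hcv : cm v = - cm u := by
      have := congrArg cm huv
      rw [cm_mul uu uv, cm_one] at this
      exact eq_neg_of_add_eq_zero_right this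
    have hsum := congrArg cm hvB
    rw [cm_mul uv hBu, cm_mul ua ub, hcv] at hsum
    have hsol : cm b.val = cm u + cm (1 + a) + cm (1 + b') := by
      have h3 : cm b.val = cm u + (- cm u + cm b.val) := by abel
      rw [h3, hsum]; abel
    -- shift invariance
    have hφ : ∀ M : Matrix ι ι R, (T.mat ι).φ M = M.map T.φ := fun M => rfl
    have hφ1 : ∀ M : Matrix ι ι R, M.map (T.φh 1) = M.map T.φ := fun M => by
      ext i j; simp [T.φh_one]
    have one1 : (1 : Matrix ι ι R) * 1 = 1 := Matrix.one_mul _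
    have hFm : F.map T.φ * F.map T.φ = F.map T.φ := by
      rw [← hφ1, ← Matrix.map_mul, hFF]
    have hstep : MvN (fromBlocks (F.map T.φ) 0 0 (1 : Matrix ι ι R))
        (fromBlocks F 0 0 (1 : Matrix ι ι R)) := by
      have hE1 : (1 - E) * (1 - E) = 1 - E := by
        rw [mul_sub, mul_one, sub_mul, one_mul, hEE, sub_self, sub_zero]
      have hF1 : (1 - F.map T.φ) * (1 - F.map T.φ) = 1 - F.map T.φ := by
        rw [mul_sub, mul_one, sub_mul, one_mul, hFm, sub_self, sub_zero]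
      -- `1 ≃ E ⊕ (1 - E) ≃ F ⊕ (1 - φ F)`
      have m1 : MvN (1 : Matrix ι ι R) (fromBlocks F 0 0 (1 - F.map T.φ)) := by
        refine MvN.trans one1 (by simp [Matrix.fromBlocks_multiply, hFF, hF1]) (MvN.split hEE) ?_
        exact MvN.dsum ⟨A0, c0, r1, r2⟩ ⟨A1, c1, r3, r4⟩
      -- `φF ⊕ 1 ≃ φF ⊕ (F ⊕ (1 - φF)) ≃ (φF ⊕ (1-φF)) ⊕ F ≃ 1 ⊕ F`
      have i0 : fromBlocks (F.map T.φ) 0 0 (1 : Matrix ι ι R) *
          fromBlocks (F.map T.φ) 0 0 (1 : Matrix ι ι R) =
          fromBlocks (F.map T.φ) 0 0 (1 : Matrix ι ι R) := by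
        simp [Matrix.fromBlocks_multiply, hFm]
      have i9 : fromBlocks F 0 0 (1 : Matrix ι ι R) * fromBlocks F 0 0 (1 : Matrix ι ι R) =
          fromBlocks F 0 0 (1 : Matrix ι ι R) := by
        simp [Matrix.fromBlocks_multiply, hFF]
      refine MvN.trans i0 i9 (MvN.dsum (MvN.refl hFm) m1) ?_
      refine MvN.trans (by simp [Matrix.fromBlocks_multiply, hFF, hF1, hFm]) i9
        (MvN.dsum (MvN.refl hFm) (MvN.swap hFF hF1)) ?_
      refine MvN.trans (by simp [Matrix.fromBlocks_multiply, hFF, hF1, hFm]) i9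
        (MvN.assoc hFm hF1 hFF).symm ?_
      refine MvN.trans (by simp [Matrix.fromBlocks_multiply, hFF, hF1, hFm]) i9
        (MvN.dsum (MvN.split hFm).symm (MvN.refl hFF)) ?_
      exact MvN.swap one1 hFF
    have hall : ∀ N : ℕ, MvN (fromBlocks (F.map (T.φh N)) 0 0 (1 : Matrix ι ι R))
        (fromBlocks F 0 0 (1 : Matrix ι ι R)) := by
      intro N
      induction N with
      | zero =>
        have : F.map (T.φh 0) = F := by ext i j; simp [T.φh_zero]
        rw [this]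
        exact MvN.refl (by simp [Matrix.fromBlocks_multiply, hFF])
      | succ N ih =>
        have h3 := MvN.map (T.φh N) hstep
        rw [Matrix.fromBlocks_map, Matrix.fromBlocks_map, map_one_matrix] at h3
        have h4 : (F.map T.φ).map (T.φh N) = F.map (T.φh (N + 1)) := by
          ext i j
          simp [T.φh_succ]
        rw [h4] at h3
        have z1 : ((0 : Matrix ι ι R).map (T.φh N)) = 0 := by simp
        rw [z1] at h3
        refine MvN.trans ?_ ?_ h3 ih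
        · simp [Matrix.fromBlocks_multiply, ← Matrix.map_mul, hFF]
        · simp [Matrix.fromBlocks_multiply, hFF]
    obtain ⟨b'', a', ha'⟩ := HK ι F hFF hall
    have hcu : cm u ∈ T.W := by
      refine T.cm_u_mem hEE hFF r1 r2 r3 ?_ r5 r6 ha' ?_ uu
      · rw [r4]; rfl
      · rw [hu]; rfl
    rw [hsol]
    refine T.W.add_mem (T.W.add_mem hcu ?_) ?_
    · rw [hν]
      exact HN ι ν (hν ▸ hna)
    · rw [hν']
      exact HN' ι ν' (hν' ▸ hnb)
  obtain ⟨n, A, rfl⟩ := K1.exists_gen x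
  rw [← cl_gen, ← cm_val]
  obtain ⟨q, hq, hqA⟩ := (T.mat (Fin n)).exists_ge A.val
  set P := A.val * (((T.mat (Fin n)).t ^ (-q) : (Matrix (Fin n) (Fin n) S)ˣ)).val with hP
  have hP0 : (T.mat (Fin n)).Ge 0 P := by
    have := hqA.mul ((T.mat (Fin n)).ge_zpow (-q))
    rw [add_neg_cancel] at this
    exact this
  have hPu : IsUnit P := by
    rw [hP, ← Units.val_mul]
    exact Units.isUnit _
  obtain ⟨d, hd, hdP⟩ := (T.mat (Fin n)).exists_le P
  obtain ⟨d', rfl⟩ : ∃ d' : ℕ, d = d' := ⟨d.toNat, by omega⟩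
  obtain ⟨κ, i1, i2, B, hBu, hB0, hB1, hPB⟩ := T.linearise d' (Fin n) P hPu hP0
    (hdP.mono (by push_cast; omega))
  have h5 : cm P = cm A.val + cm (((T.mat (Fin n)).t ^ (-q) : (Matrix (Fin n) (Fin n) S)ˣ)).val :=
    cm_mul (Units.isUnit _) (Units.isUnit _)
  have h6 : cm A.val = cm B - cm (((T.mat (Fin n)).t ^ (-q) :
      (Matrix (Fin n) (Fin n) S)ˣ)).val := by
    rw [← hPB, h5]; abel
  rw [h6]
  exact T.W.sub_mem (key κ B hBu hB0 hB1) (T.cm_zpow_t_mem _ _)

end Tw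

end Pool.Agent.Lib.MP_16fe43_al
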