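import Pool.Agent.Lib.MP_16fe43_al.Surj

/-!
# The kernel of `K₁(k[⊕_ℤ H]) → K₁(k[H ≀ ℤ])` (part 1: the almost representations)
-/

set_option autoImplicit false

universe u v w

namespace Pool.Agent.Lib.MP_16fe43_al

open MonoidAlgebra Filter
open Matrix (fromBlocks)

section general

variable {R : Type u} [Ring R]

/-- homomorphisms out of `K₁` -/
def K1.liftc {M : Type*} [AddCommGroup M] (c : ∀ n, (Matrix (Fin n) (Fin n) R)ˣ → M)
    (hmul : ∀ n A B, c n (A * B) = c n A + c n B)
    (hst : ∀ n m A, c (n + m) (rix finSumFinEquiv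
      (dsum A (1 : (Matrix (Fin m) (Fin m) R)ˣ))) = c n A) : K1 R →+ M :=
  QuotientAddGroup.lift _ (FreeAbelianGroup.lift (fun x : Gen R => c x.1 x.2))
    (by
      rw [AddSubgroup.closure_le]
      rintro x (⟨n, A, B, rfl⟩ | ⟨n, m, A, rfl⟩)
      · simp [hmul]
      · simp [hst])

theorem K1.liftc_gen {M : Type*} [AddCommGroup M] (c : ∀ n, (Matrix (Fin n) (Fin n) R)ˣ → M)
    (hmul : ∀ n A B, c n (A * B) = c n A + c n B)
    (hst : ∀ n m A, c (n + m) (rix finSumFinEquiv
      (dsum A (1 : (Matrix (Fin m) (Fin m) R)ˣ))) = c n A) {n : ℕ}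
    (A : (Matrix (Fin n) (Fin n) R)ˣ) : K1.liftc c hmul hst (K1.gen A) = c n A := by
  show (FreeAbelianGroup.lift (fun x : Gen R => c x.1 x.2)) (FreeAbelianGroup.of ⟨n, A⟩) = _
  simp

theorem K1.map_comp {S : Type v} {T : Type w} [Ring S] [Ring T] (f : R →+* S) (g : S →+* T)
    (x : K1 R) : K1.map (g.comp f) x = K1.map g (K1.map f x) := by
  have : K1.map (g.comp f) = (K1.map g).comp (K1.map f) := by
    apply K1.ext_hom
    intro n A
    rw [AddMonoidHom.comp_apply, K1.map_gen, K1.map_gen, K1.map_gen]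
    rfl
  rw [this]; rfl

theorem K1.map_id (x : K1 R) : K1.map (RingHom.id R) x = x := by
  have : K1.map (RingHom.id R) = AddMonoidHom.id _ := by
    apply K1.ext_hom
    intro n A
    rw [K1.map_gen]
    rfl
  rw [this]; rfl

end general

variable {H : Type u} [Group H]

theorem shift_zpow_apply (n : ℤ) (f : FS H) (i : ℤ) : (((shift H) ^ n) f).1 i = f.1 (i - n) := by
  have h1 : ∀ (n : ℕ) (f : FS H) (i : ℤ), (((shift H) ^ n) f).1 i = f.1 (i - n) := by
    intro n
    induction n with
    | zero => intro f i; simp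
    | succ n ih =>
      intro f i
      rw [pow_succ, MulAut.mul_apply, ih]
      exact congrArg f.1 (by push_cast; ring)
  cases n with
  | ofNat n =>
    have := h1 n f i
    simpa using this
  | negSucc n =>
    obtain ⟨g, rfl⟩ : ∃ g, f = ((shift H) ^ (n + 1)) g :=
      ⟨((shift H) ^ (n + 1))⁻¹ f, by rw [MulAut.apply_inv_self]⟩
    rw [zpow_negSucc, MulAut.inv_apply_self, h1]
    exact congrArg g.1 (by rw [Int.negSucc_eq]; push_cast; ring)

/-- `tr_s ∘ σ^{-c}` -/
noncomputable def fhat (s : Set ℤ) (c : ℤ) : FS H →* FS H :=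
  (tr s).comp (((shift H) ^ (-c) : MulAut (FS H)) : FS H ≃* FS H).toMonoidHom

theorem fhat_mem {s : Set ℤ} (c : ℤ) (f : FS H) {i : ℤ} (hi : i ∈ s) :
    (fhat s c f).1 i = f.1 (i + c) := by
  show (tr s (((shift H) ^ (-c)) f)).1 i = _
  rw [tr_mem hi, shift_zpow_apply, sub_neg_eq_add]

theorem fhat_not_mem {s : Set ℤ} (c : ℤ) (f : FS H) {i : ℤ} (hi : i ∉ s) :
    (fhat s c f).1 i = 1 := by
  show (tr s (((shift H) ^ (-c)) f)).1 i = _
  rw [tr_not_mem hi]

theorem fhat_congr {s : Set ℤ} {c d : ℤ} {f g : FS H} (h : ∀ i ∈ s, f.1 (i + c) = g.1 (i + d)) :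
    fhat s c f = fhat s d g := by
  apply Subtype.ext
  funext i
  by_cases hi : i ∈ s
  · rw [fhat_mem _ _ hi, fhat_mem _ _ hi, h i hi]
  · rw [fhat_not_mem _ _ hi, fhat_not_mem _ _ hi]

variable (k : Type v) [Ring k]

/-- the integer part of an element of `H ≀ ℤ` -/
def deg (g : Wr H) : ℤ := Multiplicative.toAdd g.right

theorem deg_mul (g g' : Wr H) : deg (g * g') = deg g + deg g' := rfl

/-- the monomial matrices -/
noncomputable def psig (s : Set ℤ) (N : ℕ) (g : Wr H) :
    Matrix (ZMod (N + 1)) (ZMod (N + 1)) (MonoidAlgebra k (FS H)) :=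
  fun p q => if p = q + ((deg g : ℤ) : ZMod (N + 1)) then
    MonoidAlgebra.single (fhat s p.valMinAbs g.left) 1 else 0

theorem psig_one (s : Set ℤ) (N : ℕ) : psig k s N (1 : Wr H) = 1 := by
  ext1 p q
  unfold psig
  have h1 : ((deg (1 : Wr H) : ℤ) : ZMod (N + 1)) = 0 := by
    show (((0 : ℤ)) : ZMod (N + 1)) = 0
    simp
  rw [h1, add_zero, Matrix.one_apply]
  split_ifs with h
  · have : (1 : Wr H).left = 1 := rfl
    rw [this, map_one]
    rfl
  · rfl

theorem valMinAbs_sub (N : ℕ) (p : ZMod (N + 1)) (m : ℤ) :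
    (p - (m : ZMod (N + 1))).valMinAbs = p.valMinAbs - m ∨
      ((N : ℤ) + 1 ≤ 2 * |p.valMinAbs - m| + 2 * |m| ∧
        (N : ℤ) + 1 ≤ 2 * |(p - (m : ZMod (N + 1))).valMinAbs| + 2 * |m|) := by
  set c := p.valMinAbs - m with hc
  set d := (p - (m : ZMod (N + 1))).valMinAbs with hd
  by_cases hcd : d = c
  · exact Or.inl hcd
  right
  have h1 : ((d : ℤ) : ZMod (N + 1)) = ((c : ℤ) : ZMod (N + 1)) := by
    rw [hd, hc]
    push_cast
    rfl
  have h2 := (ZMod.intCast_eq_intCast_iff_dvd_sub _ _ _).1 h1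
  obtain ⟨e, he⟩ := h2
  have he0 : e ≠ 0 := by
    rintro rfl
    apply hcd
    rw [mul_zero] at he
    omega
  have h3 : ((N : ℤ) + 1) ≤ |c - d| := by
    rw [he]
    rw [abs_mul]
    have : 1 ≤ |e| := Int.one_le_abs he0
    have h4 : |((N + 1 : ℕ) : ℤ)| = (N : ℤ) + 1 := by
      rw [abs_of_nonneg (by positivity)]
      push_cast
      ring
    rw [h4]
    nlinarith
  have h5 := ZMod.valMinAbs_mem_Ioc p
  have h6 := ZMod.valMinAbs_mem_Ioc (p - (m : ZMod (N + 1)))
  rw [Set.mem_Ioc] at h5 h6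
  push_cast at h5 h6
  rw [← hd] at h6
  have h7 : |p.valMinAbs| * 2 ≤ N + 1 := by
    rcases abs_cases p.valMinAbs with h | h <;> omega
  have h8 : |d| * 2 ≤ N + 1 := by
    rcases abs_cases d with h | h <;> omega
  have h9 : |c| ≤ |p.valMinAbs| + |m| := by
    rw [hc]
    exact abs_sub _ _
  have h10 : |c - d| ≤ |c| + |d| := abs_sub _ _
  constructor <;> omega

theorem eventually_psig_mul {a : ℕ} {s : Set ℤ} (hs : s ⊆ Set.Icc (-(a : ℤ)) a) (g g' : Wr H) :
    ∀ᶠ N in atTop, psig k s N (g * g') = psig k s N g * psig k s N g' := by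
  obtain ⟨W, hW⟩ := exists_window g'.left
  rw [eventually_atTop]
  refine ⟨2 * (a + W) + 4 * (deg g).natAbs + 2, fun N hN => ?_⟩
  ext1 p r
  rw [Matrix.mul_apply]
  set m := deg g with hm
  rw [Finset.sum_eq_single (p - (m : ZMod (N + 1)))]
  · unfold psig
    rw [if_pos (show p = p - (m : ZMod (N + 1)) + ((deg g : ℤ) : ZMod (N + 1)) by
      rw [sub_add_cancel]), deg_mul]
    have h1 : (p = r + ((deg g + deg g' : ℤ) : ZMod (N + 1))) ↔
        (p - (m : ZMod (N + 1)) = r + ((deg g' : ℤ) : ZMod (N + 1))) := by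
      rw [sub_eq_iff_eq_add]
      push_cast
      rw [← hm]
      constructor <;> intro h <;> rw [h] <;> ring
    by_cases h2 : p = r + ((deg g + deg g' : ℤ) : ZMod (N + 1))
    · rw [if_pos h2, if_pos (h1.1 h2), single_mul_single, mul_one]
      congr 1
      have h3 : (g * g').left = g.left * ((shift H) ^ m) g'.left := rfl
      rw [h3, map_mul]
      congr 1
      refine fhat_congr fun i hi => ?_
      rw [shift_zpow_apply]
      have hi2 := hs hi
      rw [Set.mem_Icc] at hi2
      rcases valMinAbs_sub N p m with h4 | ⟨h4, h5⟩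
      · rw [h4]
        exact congrArg g'.left.1 (by ring)
      · have h6 : g'.left.1 (i + p.valMinAbs - m) = 1 := by
          refine hW _ fun h7 => ?_
          rw [Set.mem_Icc] at h7
          rcases abs_cases (p.valMinAbs - m) with h | h <;> rcases abs_cases m with h' | h' <;>
            omega
        have h7 : g'.left.1 (i + (p - (m : ZMod (N + 1))).valMinAbs) = 1 := by
          refine hW _ fun h7 => ?_
          rw [Set.mem_Icc] at h7
          rcases abs_cases (p - (m : ZMod (N + 1))).valMinAbs with h | h <;>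
            rcases abs_cases m with h' | h' <;> omega
        rw [h6, h7]
    · rw [if_neg h2, if_neg (fun h => h2 (h1.2 h)), mul_zero]
  · intro q _ hq
    unfold psig
    rw [if_neg, zero_mul]
    intro h
    apply hq
    rw [h, add_sub_cancel_right]
  · intro h
    exact absurd (Finset.mem_univ _) h

/-- the almost representations -/
noncomputable def psi (s : Set ℤ) (N : ℕ) : MonoidAlgebra k (Wr H) →+
    Matrix (ZMod (N + 1)) (ZMod (N + 1)) (MonoidAlgebra k (FS H)) :=
  MonoidAlgebra.liftNC (((Matrix.scalar (ZMod (N + 1))).comp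
    (MonoidAlgebra.singleOneRingHom (R := k) (M := FS H)) : k →+* Matrix (ZMod (N + 1))
      (ZMod (N + 1)) (MonoidAlgebra k (FS H))) : k →+ Matrix (ZMod (N + 1))
      (ZMod (N + 1)) (MonoidAlgebra k (FS H))) (psig k s N)

theorem psi_single (s : Set ℤ) (N : ℕ) (g : Wr H) (c : k) (p q : ZMod (N + 1)) :
    psi k s N (single g c) p q = if p = q + ((deg g : ℤ) : ZMod (N + 1)) then
    MonoidAlgebra.single (fhat s p.valMinAbs g.left) c else 0 := by
  unfold psi
  rw [liftNC_single]
  show (Matrix.diagonal (fun _ => (single 1 c : MonoidAlgebra k (FS H))) * psig k s N g :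
    Matrix (ZMod (N + 1)) (ZMod (N + 1)) (MonoidAlgebra k (FS H))) p q = _
  rw [Matrix.diagonal_mul]
  unfold psig
  split_ifs
  · rw [single_mul_single, one_mul, mul_one]
  · rw [mul_zero]

theorem psi_one (s : Set ℤ) (N : ℕ) : psi k s N (1 : MonoidAlgebra k (Wr H)) = 1 := by
  have h1 : (1 : MonoidAlgebra k (Wr H)) = single 1 1 := rfl
  rw [h1]
  ext1 p q
  rw [psi_single, ← psig_one (H := H) k s N]
  rfl

theorem eventually_psi_mul {a : ℕ} {s : Set ℤ} (hs : s ⊆ Set.Icc (-(a : ℤ)) a)
    (x y : MonoidAlgebra k (Wr H)) :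
    ∀ᶠ N in atTop, psi k s N (x * y) = psi k s N x * psi k s N y := by
  induction x using MonoidAlgebra.induction_linear with
  | zero => simp
  | add x x' hx hx' =>
    filter_upwards [hx, hx'] with N h h'
    rw [add_mul, map_add, map_add, add_mul, h, h']
  | single g c =>
    induction y using MonoidAlgebra.induction_linear with
    | zero => simp
    | add y y' hy hy' =>
      filter_upwards [hy, hy'] with N h h'
      rw [mul_add, map_add, map_add, mul_add, h, h']
    | single g' c' =>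
      filter_upwards [eventually_psig_mul k hs g g'] with N h
      rw [single_mul_single]
      ext1 p r
      have h2 := congrFun (congrFun h p) r
      rw [Matrix.mul_apply] at h2
      rw [Matrix.mul_apply, psi_single]
      have h3 : ∀ q, psi k s N (single g c) p q * psi k s N (single g' c') q r =
          single 1 (c * c') * (psig k s N g p q * psig k s N g' q r) := by
        intro q
        rw [psi_single, psi_single]
        unfold psig
        split_ifs
        · rw [single_mul_single, single_mul_single, single_mul_single, one_mul, mul_one, mul_one]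
        all_goals simp
      rw [Finset.sum_congr rfl fun q _ => h3 q, ← Finset.mul_sum, ← h2]
      unfold psig
      split_ifs
      · rw [single_mul_single, one_mul, mul_one]
      · rw [mul_zero]

/-- the matrix version -/
noncomputable def Psi (s : Set ℤ) (N : ℕ) {ι : Type*} (A : Matrix ι ι (MonoidAlgebra k (Wr H))) :
    Matrix (ι × ZMod (N + 1)) (ι × ZMod (N + 1)) (MonoidAlgebra k (FS H)) :=
  fun x y => psi k s N (A x.1 y.1) x.2 y.2

theorem Psi_one (s : Set ℤ) (N : ℕ) {ι : Type*} [DecidableEq ι] :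
    Psi k s N (1 : Matrix ι ι (MonoidAlgebra k (Wr H))) = 1 := by
  ext1 x y
  unfold Psi
  rw [Matrix.one_apply, Matrix.one_apply]
  by_cases h : x.1 = y.1
  · rw [if_pos h, psi_one, Matrix.one_apply]
    by_cases h2 : x.2 = y.2
    · rw [if_pos h2, if_pos (Prod.ext h h2)]
    · rw [if_neg h2, if_neg (fun h3 => h2 (congrArg Prod.snd h3))]
  · rw [if_neg h, if_neg (fun h3 => h (congrArg Prod.fst h3)), map_zero]
    rfl

theorem eventually_Psi_mul {a : ℕ} {s : Set ℤ} (hs : s ⊆ Set.Icc (-(a : ℤ)) a) {ι : Type*}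
    [Fintype ι] (A B : Matrix ι ι (MonoidAlgebra k (Wr H))) :
    ∀ᶠ N in atTop, Psi k s N (A * B) = Psi k s N A * Psi k s N B := by
  have h1 : ∀ i j l, ∀ᶠ N in atTop, psi k s N (A i j * B j l) =
      psi k s N (A i j) * psi k s N (B j l) := fun i j l => eventually_psi_mul k hs _ _
  have h2 : ∀ᶠ N in atTop, ∀ i j l, psi k s N (A i j * B j l) =
      psi k s N (A i j) * psi k s N (B j l) := by
    simp only [eventually_all]
    exact h1
  filter_upwards [h2] with N h
  ext1 x y
  rw [Matrix.mul_apply, Fintype.sum_prod_type]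
  unfold Psi
  rw [Matrix.mul_apply, map_sum, Matrix.sum_apply]
  refine Finset.sum_congr rfl fun j _ => ?_
  rw [h, Matrix.mul_apply]

theorem eventually_isUnit_Psi {a : ℕ} {s : Set ℤ} (hs : s ⊆ Set.Icc (-(a : ℤ)) a) {ι : Type*}
    [Fintype ι] [DecidableEq ι] {A : Matrix ι ι (MonoidAlgebra k (Wr H))} (hA : IsUnit A) :
    ∀ᶠ N in atTop, IsUnit (Psi k s N A) := by
  obtain ⟨A, rfl⟩ := hA
  filter_upwards [eventually_Psi_mul k hs A.val A.inv, eventually_Psi_mul k hs A.inv A.val]
    with N h h'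
  rw [A.val_inv, Psi_one] at h
  rw [A.inv_val, Psi_one] at h'
  exact ⟨⟨_, _, h.symm, h'.symm⟩, rfl⟩

end Pool.Agent.Lib.MP_16fe43_al
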