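import Pool.Agent.Lib.MP_16fe43_al.Inj

/-!
# The kernel of `K₁(k[⊕_ℤ H]) → K₁(k[H ≀ ℤ])` (part 2)
-/

set_option autoImplicit false

universe u v w

namespace Pool.Agent.Lib.MP_16fe43_al

open MonoidAlgebra Filter
open Matrix (fromBlocks)

section general

variable {R : Type u} [Ring R]

theorem cm_blockDiagonal_single {ι o : Type v} [Fintype ι] [DecidableEq ι] [Fintype o]
    [DecidableEq o] (a : o) (X : Matrix ι ι R) :
    cm (Matrix.blockDiagonal (Function.update (fun _ : o => (1 : Matrix ι ι R)) a X)) =
      cm X := by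
  let P : Matrix (ι × o) ι R := fun x i => if x = (i, a) then 1 else 0
  let Q : Matrix ι (ι × o) R := fun i x => if x = (i, a) then 1 else 0
  have hQP : Q * P = 1 := by
    ext1 i j
    rw [Matrix.mul_apply, Finset.sum_eq_single (i, a)]
    · show (if (i, a) = (i, a) then (1 : R) else 0) * (if (i, a) = (j, a) then 1 else 0) = _
      rw [if_pos rfl, one_mul, Matrix.one_apply]
      by_cases h : i = j
      · subst h; simp
      · rw [if_neg h, if_neg (fun h2 => h (congrArg Prod.fst h2))]
    · intro x _ hx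
      show (if x = (i, a) then (1 : R) else 0) * _ = 0
      rw [if_neg hx, zero_mul]
    · intro h
      exact absurd (Finset.mem_univ _) h
  have h1 := cm_one_sub_mul_comm (P * (1 - X)) Q
  have h2 : 1 - Q * (P * (1 - X)) = X := by
    rw [← Matrix.mul_assoc, hQP, Matrix.one_mul, sub_sub_cancel]
  rw [h2] at h1
  rw [← h1]
  congr 1
  have h3 : ∀ (x : ι) (p : o) (i : ι), (P * (1 - X) : Matrix (ι × o) ι R) (x, p) i =
      if p = a then (1 - X : Matrix ι ι R) x i else 0 := by
    intro x p i
    rw [Matrix.mul_apply]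
    split_ifs with h
    · subst h
      rw [Finset.sum_eq_single x]
      · show (if (x, p) = (x, p) then (1 : R) else 0) * _ = _
        rw [if_pos rfl, one_mul]
      · intro b _ hb
        show (if (x, p) = (b, p) then (1 : R) else 0) * _ = _
        rw [if_neg (fun h2 => hb (congrArg Prod.fst h2).symm), zero_mul]
      · intro h
        exact absurd (Finset.mem_univ _) h
    · refine Finset.sum_eq_zero fun b _ => ?_
      show (if (x, p) = (b, a) then (1 : R) else 0) * _ = _
      rw [if_neg (fun h2 => h (congrArg Prod.snd h2)), zero_mul]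
  have h4 : ∀ (x : ι) (p : o) (y : ι) (q : o),
      (P * (1 - X) * Q : Matrix (ι × o) (ι × o) R) (x, p) (y, q) =
      if p = a ∧ q = a then (1 - X : Matrix ι ι R) x y else 0 := by
    intro x p y q
    rw [Matrix.mul_apply]
    by_cases hy : q = a
    · subst hy
      rw [Finset.sum_eq_single y]
      · show (P * (1 - X) : Matrix (ι × o) ι R) (x, p) y *
          (if (y, q) = (y, q) then (1 : R) else 0) = _
        rw [if_pos rfl, mul_one, h3]
        by_cases hx : p = q
        · rw [if_pos hx, if_pos ⟨hx, rfl⟩]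
        · rw [if_neg hx, if_neg (fun h => hx h.1)]
      · intro b _ hb
        show _ * (if (y, q) = (b, q) then (1 : R) else 0) = _
        rw [if_neg (fun h2 => hb (congrArg Prod.fst h2).symm), mul_zero]
      · intro h
        exact absurd (Finset.mem_univ _) h
    · rw [if_neg (fun h => hy h.2)]
      refine Finset.sum_eq_zero fun b _ => ?_
      show _ * (if (y, q) = (b, a) then (1 : R) else 0) = _
      rw [if_neg (fun h2 => hy (congrArg Prod.snd h2)), mul_zero]
  ext1 ⟨x, p⟩ ⟨y, q⟩
  rw [Matrix.sub_apply, h4, Matrix.blockDiagonal_apply, Matrix.one_apply]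
  show (if p = q then (Function.update (fun _ : o => (1 : Matrix ι ι R)) a X) p x y else 0) = _
  by_cases hpq : p = q
  · subst hpq
    rw [if_pos rfl]
    by_cases hx : p = a
    · subst hx
      rw [Function.update_self]
      by_cases h : x = y <;> simp [h, Matrix.one_apply]
    · rw [Function.update_of_ne hx]
      by_cases h : x = y <;> simp [h, hx, Matrix.one_apply]
  · have h5 : ¬ (p = a ∧ q = a) := fun h => hpq (h.1.trans h.2.symm)
    simp [hpq, h5]

theorem isUnit_blockDiagonal {ι o : Type v} [Fintype ι] [DecidableEq ι] [Fintype o]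
    [DecidableEq o] {M : o → Matrix ι ι R} (h : ∀ p, IsUnit (M p)) :
    IsUnit (Matrix.blockDiagonal M) := by
  choose u hu using h
  refine ⟨⟨Matrix.blockDiagonal M, Matrix.blockDiagonal fun p => (u p).inv, ?_, ?_⟩, rfl⟩
  · rw [← Matrix.blockDiagonal_mul]
    have : (fun p => M p * (u p).inv) = fun _ => 1 := by
      funext p; rw [← hu p]; exact (u p).val_inv
    rw [this]
    exact Matrix.blockDiagonal_one
  · rw [← Matrix.blockDiagonal_mul]
    have : (fun p => (u p).inv * M p) = fun _ => 1 := by
      funext p; rw [← hu p]; exact (u p).inv_val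
    rw [this]
    exact Matrix.blockDiagonal_one

theorem cm_blockDiagonal {ι o : Type v} [Fintype ι] [DecidableEq ι] [Fintype o]
    [DecidableEq o] {M : o → Matrix ι ι R} (h : ∀ p, IsUnit (M p)) :
    cm (Matrix.blockDiagonal M) = ∑ p, cm (M p) := by
  classical
  have key : ∀ s : Finset o, cm (Matrix.blockDiagonal (fun p => if p ∈ s then M p else 1)) =
      ∑ p ∈ s, cm (M p) := by
    intro s
    induction s using Finset.induction_on with
    | empty =>
      have : (fun p : o => if p ∈ (∅ : Finset o) then M p else 1) = 1 := by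
        funext p; simp
      rw [this, Matrix.blockDiagonal_one, cm_one, Finset.sum_empty]
    | insert a s ha ih =>
      have h1 : (fun p : o => if p ∈ insert a s then M p else 1) =
          fun p => (Function.update (fun _ : o => (1 : Matrix ι ι R)) a (M a)) p *
            (if p ∈ s then M p else 1) := by
        funext p
        by_cases hp : p = a
        · subst hp
          rw [if_pos (Finset.mem_insert_self _ _), Function.update_self, if_neg ha, mul_one]
        · rw [Function.update_of_ne hp, one_mul]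
          by_cases hps : p ∈ s
          · rw [if_pos hps, if_pos (Finset.mem_insert_of_mem hps)]
          · rw [if_neg hps, if_neg]
            intro h2
            rcases Finset.mem_insert.1 h2 with h3 | h3
            · exact hp h3
            · exact hps h3
      rw [h1, Matrix.blockDiagonal_mul, cm_mul, cm_blockDiagonal_single, ih,
        Finset.sum_insert ha]
      · refine isUnit_blockDiagonal fun p => ?_
        by_cases hp : p = a
        · subst hp
          rw [Function.update_self]
          exact h _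
        · rw [Function.update_of_ne hp]
          exact isUnit_one
      · refine isUnit_blockDiagonal fun p => ?_
        split_ifs
        · exact h p
        · exact isUnit_one
  have := key Finset.univ
  simpa using this

end general

variable {H : Type u} [Group H] (k : Type v) [Ring k]

theorem Psi_reindex (s : Set ℤ) (N : ℕ) {ι κ : Type*} (e : ι ≃ κ)
    (A : Matrix ι ι (MonoidAlgebra k (Wr H))) :
    Psi k s N (Matrix.reindex e e A) = Matrix.reindex (e.prodCongr (Equiv.refl _))
      (e.prodCongr (Equiv.refl _)) (Psi k s N A) := rfl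

theorem Psi_blocks (s : Set ℤ) (N : ℕ) {ι κ : Type*} [DecidableEq κ]
    (A : Matrix ι ι (MonoidAlgebra k (Wr H))) :
    Psi k s N (fromBlocks A 0 0 (1 : Matrix κ κ (MonoidAlgebra k (Wr H)))) =
      Matrix.reindex (Equiv.sumProdDistrib _ _ _).symm (Equiv.sumProdDistrib _ _ _).symm
        (fromBlocks (Psi k s N A) 0 0 1) := by
  rw [← Psi_one (ι := κ) k s N]
  ext1 x y
  rcases x with ⟨x | x, p⟩ <;> rcases y with ⟨y | y, q⟩
  · rfl
  · show psi k s N (0 : MonoidAlgebra k (Wr H)) p q = 0
    rw [map_zero]; rfl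
  · show psi k s N (0 : MonoidAlgebra k (Wr H)) p q = 0
    rw [map_zero]; rfl
  · rfl

/-- the homomorphism `D_s` -/
noncomputable def DD {a : ℕ} {s : Set ℤ} (hs : s ⊆ Set.Icc (-(a : ℤ)) a) :
    K1 (MonoidAlgebra k (Wr H)) →+ Germ (atTop : Filter ℕ) (K1 (MonoidAlgebra k (FS H))) :=
  K1.liftc (fun n A => ((fun N => cm (Psi k s N A.val) : ℕ → K1 (MonoidAlgebra k (FS H))) :
      Germ (atTop : Filter ℕ) (K1 (MonoidAlgebra k (FS H)))))
    (by
      intro n A B
      rw [← Germ.coe_add]
      refine Germ.coe_eq.2 ?_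
      filter_upwards [eventually_Psi_mul k hs A.val B.val, eventually_isUnit_Psi k hs A.isUnit,
        eventually_isUnit_Psi k hs B.isUnit] with N h1 h2 h3
      rw [Units.val_mul, h1, cm_mul h2 h3]
      rfl)
    (by
      intro n m A
      refine Germ.coe_eq.2 ?_
      filter_upwards [eventually_isUnit_Psi k hs A.isUnit] with N h2
      have h3 : (rix finSumFinEquiv (dsum A (1 : (Matrix (Fin m) (Fin m)
          (MonoidAlgebra k (Wr H)))ˣ))).val =
          Matrix.reindex finSumFinEquiv finSumFinEquiv (fromBlocks A.val 0 0 1) := rfl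
      rw [h3, Psi_reindex, Psi_blocks, cm_reindex, cm_reindex, cm_fromBlocks_diag h2 isUnit_one,
        cm_one, add_zero]
      · exact isUnit_fromBlocks_upper _ h2 isUnit_one
      · exact isUnit_reindex _ (isUnit_fromBlocks_upper _ h2 isUnit_one))

theorem DD_cm {a : ℕ} {s : Set ℤ} (hs : s ⊆ Set.Icc (-(a : ℤ)) a) {n : ℕ}
    {A : Matrix (Fin n) (Fin n) (MonoidAlgebra k (Wr H))} (hA : IsUnit A) :
    DD k hs (cm A) = ((fun N => cm (Psi k s N A) : ℕ → K1 (MonoidAlgebra k (FS H))) :
      Germ (atTop : Filter ℕ) (K1 (MonoidAlgebra k (FS H)))) := by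
  obtain ⟨A, rfl⟩ := hA
  rw [cm_val, cl_gen]
  exact K1.liftc_gen _ _ _ A

theorem psi_j (s : Set ℤ) (N : ℕ) (r : MonoidAlgebra k (FS H)) (p q : ZMod (N + 1)) :
    psi k s N ((TW k H).j r) p q =
      if p = q then mapDomainRingHom k (fhat s p.valMinAbs) r else 0 := by
  show psi k s N (jS k (FS H) (shift H) r) p q = _
  induction r using MonoidAlgebra.induction_linear with
  | zero => simp
  | add x y hx hy =>
    rw [map_add, map_add, Matrix.add_apply, hx, hy, map_add]
    split_ifs
    · rfl
    · rw [add_zero]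
  | single l c =>
    rw [jS_single, psi_single]
    have h1 : ((deg (SemidirectProduct.inl l : Wr H) : ℤ) : ZMod (N + 1)) = 0 := by
      show (((0 : ℤ)) : ZMod (N + 1)) = 0
      simp
    rw [h1, add_zero]
    split_ifs
    · simp
    · rfl

theorem Psi_j (s : Set ℤ) (N : ℕ) {ι : Type*} (A : Matrix ι ι (MonoidAlgebra k (FS H))) :
    Psi k s N (A.map (TW k H).j) = Matrix.blockDiagonal (fun p : ZMod (N + 1) =>
      A.map (mapDomainRingHom k (fhat s p.valMinAbs))) := by
  ext1 x y
  show psi k s N ((TW k H).j (A x.1 y.1)) x.2 y.2 = _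
  rw [psi_j, Matrix.blockDiagonal_apply]
  rfl

theorem DD_j {a : ℕ} {s : Set ℤ} (hs : s ⊆ Set.Icc (-(a : ℤ)) a)
    (x : K1 (MonoidAlgebra k (FS H))) :
    DD k hs (K1.map (TW k H).j x) = ((fun N => ∑ p : ZMod (N + 1),
      K1.map (mapDomainRingHom k (fhat s p.valMinAbs)) x : ℕ → K1 (MonoidAlgebra k (FS H))) :
      Germ (atTop : Filter ℕ) (K1 (MonoidAlgebra k (FS H)))) := by
  obtain ⟨n, A, rfl⟩ := K1.exists_gen x
  rw [← cl_gen, ← cm_val, K1.map_cm _ A.isUnit, DD_cm k hs (isUnit_map _ A.isUnit)]
  congr 1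
  funext N
  rw [Psi_j, cm_blockDiagonal fun p => isUnit_map _ A.isUnit]
  refine Finset.sum_congr rfl fun p _ => ?_
  rw [K1.map_cm _ A.isUnit]

theorem psi_t (s : Set ℤ) (N : ℕ) (p q : ZMod (N + 1)) :
    psi k s N ((TW k H).t : MonoidAlgebra k (Wr H)) p q = if p = q + 1 then 1 else 0 := by
  show psi k s N (single (SemidirectProduct.inr (Multiplicative.ofAdd 1)) 1) p q = _
  rw [psi_single]
  have h1 : ((deg (SemidirectProduct.inr (Multiplicative.ofAdd 1) : Wr H) : ℤ) :
      ZMod (N + 1)) = 1 := by
    show (((1 : ℤ)) : ZMod (N + 1)) = 1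
    simp
  rw [h1]
  split_ifs
  · have : (SemidirectProduct.inr (Multiplicative.ofAdd 1) : Wr H).left = 1 := rfl
    rw [this, map_one]
    rfl
  · rfl

theorem DD_t {a : ℕ} {s s' : Set ℤ} (hs : s ⊆ Set.Icc (-(a : ℤ)) a)
    (hs' : s' ⊆ Set.Icc (-(a : ℤ)) a) :
    DD k hs ((TW k H).tcl) = DD k hs' ((TW k H).tcl) := by
  unfold Tw.tcl
  rw [DD_cm k hs (Units.isUnit _), DD_cm k hs' (Units.isUnit _)]
  congr 1
  funext N
  congr 1
  rw [Tw.mat_t_val]
  ext1 x y
  unfold Psi
  rw [Matrix.diagonal_apply]
  split_ifs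
  · rw [psi_t, psi_t]
  · rw [map_zero, map_zero]

end Pool.Agent.Lib.MP_16fe43_al
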