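import Pool.Agent.Lib.MP_16fe43_al.Inj2

/-!
# The kernel of `K₁(k[⊕_ℤ H]) → K₁(k[H ≀ ℤ])` (part 3)
-/

set_option autoImplicit false

universe u v w

namespace Pool.Agent.Lib.MP_16fe43_al

open MonoidAlgebra Filter
open Matrix (fromBlocks)

theorem map_congr_of_sup {k : Type u} [Ring k] {L : Type v} [Group L] {L' : Type w} [Group L']
    {K : Subgroup L} (g g' : L →* L') (hg : ∀ l ∈ K, g l = g' l) {r : MonoidAlgebra k L}
    (hr : Sup K r) : mapDomainRingHom k g r = mapDomainRingHom k g' r := by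
  classical
  have h1 : r = ∑ f ∈ r.coeff.support, MonoidAlgebra.single f (r.coeff f) := by
    conv_lhs => rw [← sum_coeff_single r]
    rfl
  rw [h1, map_sum, map_sum]
  refine Finset.sum_congr rfl fun f hf => ?_
  have h2 : ∀ h : L →* L', mapDomainRingHom k h (MonoidAlgebra.single f (r.coeff f)) =
      MonoidAlgebra.single (h f) (r.coeff f) := by intro h; simp
  rw [h2, h2, hg f (hr f (Finsupp.mem_support_iff.1 hf))]

theorem sum_zmod {M : Type*} [AddCommGroup M] (w N : ℕ) (hN : 2 * w + 1 ≤ N) (g : ℤ → M)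
    (hg : ∀ c : ℤ, (w : ℤ) < |c| → g c = 0) :
    ∑ p : ZMod (N + 1), g p.valMinAbs = ∑ i ∈ Finset.range (2 * w + 1), g ((i : ℤ) - w) := by
  classical
  have hval : ∀ i ∈ Finset.range (2 * w + 1),
      ((((i : ℤ) - w : ℤ)) : ZMod (N + 1)).valMinAbs = (i : ℤ) - w := by
    intro i hi
    rw [Finset.mem_range] at hi
    rw [ZMod.valMinAbs_spec]
    refine ⟨rfl, ?_⟩
    rw [Set.mem_Ioc]
    push_cast
    constructor <;> omega
  have h1 : ∑ p ∈ (Finset.range (2 * w + 1)).image
      (fun i : ℕ => ((((i : ℤ) - w : ℤ)) : ZMod (N + 1))), g p.valMinAbs =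
      ∑ i ∈ Finset.range (2 * w + 1), g ((i : ℤ) - w) := by
    rw [Finset.sum_image]
    · refine Finset.sum_congr rfl fun i hi => ?_
      rw [hval i hi]
    · intro i hi j hj hij
      have h2 := hval i hi
      have h3 := hval j hj
      have h4 : ((((i : ℤ) - w : ℤ)) : ZMod (N + 1)) = ((((j : ℤ) - w : ℤ)) : ZMod (N + 1)) := hij
      rw [h4, h3] at h2
      omega
  rw [← h1]
  symm
  refine Finset.sum_subset (Finset.subset_univ _) ?_
  intro p _ hp
  apply hg
  by_contra hle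
  apply hp
  rw [Finset.mem_image]
  push Not at hle
  rw [abs_le] at hle
  refine ⟨(p.valMinAbs + w).toNat, ?_, ?_⟩
  · rw [Finset.mem_range]
    omega
  · have : (((p.valMinAbs + w).toNat : ℤ)) = p.valMinAbs + w := Int.toNat_of_nonneg (by omega)
    rw [this, add_sub_cancel_right, ZMod.coe_valMinAbs]

variable (k : Type v) [Ring k] (H : Type u) [Group H]

/-- the ring automorphism of `k[⊕_ℤ H]` induced by the shift -/
noncomputable def shR : MonoidAlgebra k (FS H) →+* MonoidAlgebra k (FS H) :=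
  mapDomainRingHom k (((shift H : MulAut (FS H)) : FS H ≃* FS H) : FS H →* FS H)

/-- the subgroup `(σ - 1) K₁` -/
noncomputable def Rg : AddSubgroup (K1 (MonoidAlgebra k (FS H))) :=
  (K1.map (shR k H) - AddMonoidHom.id _).range

variable {k H}

theorem shR_mem (y : K1 (MonoidAlgebra k (FS H))) : K1.map (shR k H) y - y ∈ Rg k H := ⟨y, rfl⟩

/-- the ring automorphism induced by a power of the shift -/
noncomputable def shP (k : Type v) [Ring k] (H : Type u) [Group H] (c : ℤ) :
    MonoidAlgebra k (FS H) →+* MonoidAlgebra k (FS H) :=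
  mapDomainRingHom k ((((shift H) ^ c : MulAut (FS H)) : FS H ≃* FS H) : FS H →* FS H)

theorem shP_zero : shP k H 0 = RingHom.id _ := by
  unfold shP
  rw [zpow_zero]
  exact mapDomainRingHom_id

theorem shP_add_one (c : ℤ) : shP k H (c + 1) = (shR k H).comp (shP k H c) := by
  unfold shP shR
  rw [← mapDomainRingHom_comp]
  congr 1
  rw [zpow_add_one, (Commute.zpow_left (Commute.refl (shift H)) c).eq]
  rfl

theorem shP_mem (c : ℤ) (y : K1 (MonoidAlgebra k (FS H))) :
    K1.map (shP k H c) y - y ∈ Rg k H := by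
  induction c using Int.induction_on with
  | zero =>
    rw [shP_zero, K1.map_id, sub_self]
    exact (Rg k H).zero_mem
  | succ c ih =>
    rw [shP_add_one, K1.map_comp]
    have := (Rg k H).add_mem (shR_mem (K1.map (shP k H c) y)) ih
    rwa [sub_add_sub_cancel] at this
  | pred c ih =>
    have h1 := shP_add_one (k := k) (H := H) (-c - 1)
    rw [sub_add_cancel] at h1
    rw [h1, K1.map_comp] at ih
    have := (Rg k H).sub_mem ih (shR_mem (K1.map (shP k H (-c - 1)) y))
    rwa [sub_sub_sub_cancel_left] at this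

theorem fhat_eq {w : ℕ} {c e : ℤ} (hc : -(w : ℤ) ≤ c) (he : 0 ≤ e) {f : FS H}
    (hf : f ∈ KS H (Set.Icc (-(w : ℤ)) w)) :
    fhat (Set.Icc e (2 * w)) c f = ((shift H) ^ (-c)) (tr (Set.Ici (c + e)) f) := by
  apply Subtype.ext
  funext i
  rw [shift_zpow_apply, sub_neg_eq_add]
  by_cases hi : i ∈ Set.Icc e (2 * (w : ℤ))
  · rw [fhat_mem _ _ hi, tr_mem]
    rw [Set.mem_Icc] at hi
    rw [Set.mem_Ici]
    omega
  · rw [fhat_not_mem _ _ hi]
    by_cases h2 : i + c ∈ Set.Ici (c + e)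
    · rw [tr_mem h2]
      symm
      apply hf
      rw [Set.mem_Icc] at hi ⊢
      rw [Set.mem_Ici] at h2
      omega
    · rw [tr_not_mem h2]

theorem fhat_eq' {w : ℕ} {c : ℤ} (hc : (w : ℤ) < |c|) {f : FS H}
    (hf : f ∈ KS H (Set.Icc (-(w : ℤ)) w)) :
    fhat (Set.Icc 0 (2 * w)) c f = fhat (Set.Icc 1 (2 * w)) c f := by
  apply Subtype.ext
  funext i
  by_cases hi : i ∈ Set.Icc (1 : ℤ) (2 * (w : ℤ))
  · have hi' : i ∈ Set.Icc (0 : ℤ) (2 * (w : ℤ)) := by
      rw [Set.mem_Icc] at hi ⊢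
      omega
    rw [fhat_mem _ _ hi, fhat_mem _ _ hi']
  · rw [fhat_not_mem _ _ hi]
    by_cases h2 : i ∈ Set.Icc (0 : ℤ) (2 * (w : ℤ))
    · rw [fhat_mem _ _ h2]
      apply hf
      rw [Set.mem_Icc] at hi h2 ⊢
      rcases abs_cases c with h | h <;> omega
    · rw [fhat_not_mem _ _ h2]

/-- `x` comes from the window `[-w, w]` -/
def Win (w : ℕ) (x : K1 (MonoidAlgebra k (FS H))) : Prop :=
  K1.map (mapDomainRingHom k (tr (Set.Icc (-(w : ℤ)) w))) x = x

theorem Win.congr {w : ℕ} {x : K1 (MonoidAlgebra k (FS H))} (hx : Win w x) {L : Type w}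
    [Group L] (ρ ρ' : FS H →* L) (hρ : ∀ f ∈ KS H (Set.Icc (-(w : ℤ)) w), ρ f = ρ' f) :
    K1.map (mapDomainRingHom k ρ) x = K1.map (mapDomainRingHom k ρ') x := by
  unfold Win at hx
  rw [← hx, ← K1.map_comp, ← K1.map_comp, ← mapDomainRingHom_comp, ← mapDomainRingHom_comp]
  have : ρ.comp (tr (Set.Icc (-(w : ℤ)) w)) = ρ'.comp (tr (Set.Icc (-(w : ℤ)) w)) := by
    ext1 f
    exact hρ _ (tr_mem_KS _ _)
  rw [this]

theorem Win.mono {w w' : ℕ} (h : w ≤ w') {x : K1 (MonoidAlgebra k (FS H))} (hx : Win w x) :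
    Win w' x := by
  unfold Win
  rw [hx.congr _ (MonoidHom.id _), mapDomainRingHom_id, K1.map_id]
  intro f hf
  refine tr_of_mem (KS_mono ?_ hf)
  intro i hi
  rw [Set.mem_Icc] at hi ⊢
  omega

theorem Win.sub {w : ℕ} {x y : K1 (MonoidAlgebra k (FS H))} (hx : Win w x) (hy : Win w y) :
    Win w (x - y) := by
  unfold Win at *
  rw [map_sub, hx, hy]

theorem exists_win (x : K1 (MonoidAlgebra k (FS H))) : ∃ w : ℕ, Win w x := by
  obtain ⟨n, A, rfl⟩ := K1.exists_gen x
  obtain ⟨w, hw⟩ := exists_windowM A.val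
  refine ⟨w, ?_⟩
  unfold Win
  rw [← cl_gen, ← cm_val, K1.map_cm _ A.isUnit]
  congr 1
  ext1 i j
  exact map_eq_of_sup _ (fun l hl => tr_of_mem hl) (hw i j)

/-- the part of `x` on the half line `[c, ∞)` -/
noncomputable def half (c : ℤ) (x : K1 (MonoidAlgebra k (FS H))) : K1 (MonoidAlgebra k (FS H)) :=
  K1.map (mapDomainRingHom k (tr (Set.Ici c))) x

theorem theta_zero {w : ℕ} {x : K1 (MonoidAlgebra k (FS H))} (hx : Win w x)
    (h : ∀ (a : ℕ) (s s' : Set ℤ) (hs : s ⊆ Set.Icc (-(a : ℤ)) a)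
      (hs' : s' ⊆ Set.Icc (-(a : ℤ)) a), DD k hs (K1.map (TW k H).j x) =
        DD k hs' (K1.map (TW k H).j x)) :
    ∑ i ∈ Finset.range (2 * w + 1), (K1.map (shP k H (-((i : ℤ) - w))) (half ((i : ℤ) - w) x) -
      K1.map (shP k H (-((i : ℤ) - w))) (half ((i : ℤ) - w + 1) x)) = 0 := by
  have hs1 : Set.Icc (0 : ℤ) (2 * w) ⊆ Set.Icc (-((2 * w : ℕ) : ℤ)) ((2 * w : ℕ) : ℤ) := by
    intro i hi
    rw [Set.mem_Icc] at hi ⊢
    push_cast
    omega
  have hs2 : Set.Icc (1 : ℤ) (2 * w) ⊆ Set.Icc (-((2 * w : ℕ) : ℤ)) ((2 * w : ℕ) : ℤ) := by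
    intro i hi
    rw [Set.mem_Icc] at hi ⊢
    push_cast
    omega
  have h1 := h (2 * w) _ _ hs1 hs2
  rw [DD_j, DD_j] at h1
  have h2 := Germ.coe_eq.1 h1
  rw [Filter.EventuallyEq, eventually_atTop] at h2
  obtain ⟨N0, hN0⟩ := h2
  have h3 := hN0 (max N0 (2 * w + 1)) (le_max_left _ _)
  rw [← sub_eq_zero, ← Finset.sum_sub_distrib] at h3
  rw [sum_zmod w (max N0 (2 * w + 1)) (le_max_right _ _) (fun c =>
    K1.map (mapDomainRingHom k (fhat (Set.Icc (0 : ℤ) (2 * w)) c)) x -
    K1.map (mapDomainRingHom k (fhat (Set.Icc (1 : ℤ) (2 * w)) c)) x)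
    (fun c hc => by rw [hx.congr _ _ fun f hf => fhat_eq' hc hf, sub_self])] at h3
  rw [← h3]
  refine Finset.sum_congr rfl fun i _ => ?_
  have key : ∀ e : ℤ, 0 ≤ e → K1.map (shP k H (-((i : ℤ) - w))) (half ((i : ℤ) - w + e) x) =
      K1.map (mapDomainRingHom k (fhat (Set.Icc e (2 * w)) ((i : ℤ) - w))) x := by
    intro e he
    unfold half shP
    rw [← K1.map_comp, ← mapDomainRingHom_comp]
    refine hx.congr _ _ fun f hf => ?_
    rw [fhat_eq (by omega) he hf]
    rfl
  rw [key 1 zero_le_one, ← key 0 le_rfl, add_zero]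

theorem half_low {w : ℕ} {x : K1 (MonoidAlgebra k (FS H))} (hx : Win w x) :
    half (((0 : ℕ) : ℤ) - w) x = x := by
  unfold half
  rw [hx.congr _ (MonoidHom.id _) fun f hf => ?_, mapDomainRingHom_id, K1.map_id]
  refine tr_of_mem (KS_mono ?_ hf)
  intro i hi
  rw [Set.mem_Icc] at hi
  rw [Set.mem_Ici]
  push_cast
  omega

/-- the constant part -/
noncomputable def cst (x : K1 (MonoidAlgebra k (FS H))) : K1 (MonoidAlgebra k (FS H)) :=
  K1.map (mapDomainRingHom k (1 : FS H →* FS H)) x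

theorem half_high {w : ℕ} {x : K1 (MonoidAlgebra k (FS H))} (hx : Win w x) :
    half (((2 * w + 1 : ℕ) : ℤ) - w) x = cst x := by
  unfold half cst
  refine hx.congr _ _ fun f hf => ?_
  rw [tr_of_disjoint ?_ hf]
  · rfl
  · intro i hi hi2
    rw [Set.mem_Ici] at hi
    rw [Set.mem_Icc] at hi2
    push_cast at hi
    omega

theorem ker_main (x : K1 (MonoidAlgebra k (FS H)))
    (h : ∀ (a : ℕ) (s s' : Set ℤ) (hs : s ⊆ Set.Icc (-(a : ℤ)) a)
      (hs' : s' ⊆ Set.Icc (-(a : ℤ)) a), DD k hs (K1.map (TW k H).j x) =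
        DD k hs' (K1.map (TW k H).j x)) :
    x - cst x ∈ Rg k H := by
  obtain ⟨w, hx⟩ := exists_win x
  have h3 := theta_zero hx h
  set y : ℕ → K1 (MonoidAlgebra k (FS H)) := fun i => half ((i : ℤ) - w) x with hy
  have hy1 : ∀ i : ℕ, half ((i : ℤ) - w + 1) x = y (i + 1) := by
    intro i
    have : (i : ℤ) - w + 1 = ((i + 1 : ℕ) : ℤ) - w := by push_cast; ring
    rw [this]
  have h5 : ∑ i ∈ Finset.range (2 * w + 1), (y i - y (i + 1)) ∈ Rg k H := by
    have h6 : ∑ i ∈ Finset.range (2 * w + 1), (y i - y (i + 1)) =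
        ∑ i ∈ Finset.range (2 * w + 1), ((K1.map (shP k H (-((i : ℤ) - w))) (y (i + 1)) -
          y (i + 1)) - (K1.map (shP k H (-((i : ℤ) - w))) (y i) - y i)) := by
      rw [← add_zero (∑ i ∈ Finset.range (2 * w + 1), ((K1.map (shP k H (-((i : ℤ) - w)))
        (y (i + 1)) - y (i + 1)) - (K1.map (shP k H (-((i : ℤ) - w))) (y i) - y i))), ← h3,
        ← Finset.sum_add_distrib]
      refine Finset.sum_congr rfl fun i _ => ?_
      rw [hy1]
      abel
    rw [h6]
    exact (Rg k H).sum_mem fun i _ => (Rg k H).sub_mem (shP_mem _ _) (shP_mem _ _)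
  rw [Finset.sum_range_sub'] at h5
  have h7 : y 0 = x := half_low hx
  have h8 : y (2 * w + 1) = cst x := half_high hx
  rwa [h7, h8] at h5

/-- If the images of all `x ∈ P` satisfy the equality of the `DD`s modulo a subgroup `T` stable
under the group endomorphisms... -/
theorem half_mem (T : AddSubgroup (K1 (MonoidAlgebra k (FS H))))
    (hT : ∀ (ρ : FS H →* FS H), ∀ x ∈ T, K1.map (mapDomainRingHom k ρ) x ∈ T)
    (hall : ∀ x : K1 (MonoidAlgebra k (FS H)), ∃ z ∈ T, ∀ (a : ℕ) (s s' : Set ℤ)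
      (hs : s ⊆ Set.Icc (-(a : ℤ)) a) (hs' : s' ⊆ Set.Icc (-(a : ℤ)) a),
        DD k hs (K1.map (TW k H).j (x - z)) = DD k hs' (K1.map (TW k H).j (x - z)))
    (x : K1 (MonoidAlgebra k (FS H))) : half 0 x - half 1 x ∈ T := by
  have hhh : ∀ (c d : ℤ) (x : K1 (MonoidAlgebra k (FS H))), half c (half d x) =
      half (max c d) x := by
    intro c d x
    unfold half
    rw [← K1.map_comp, ← mapDomainRingHom_comp]
    have : (tr (H := H) (Set.Ici c)).comp (tr (Set.Ici d)) = tr (Set.Ici (max c d)) := by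
      ext1 f
      apply Subtype.ext
      funext i
      show (tr (Set.Ici c) (tr (Set.Ici d) f)).1 i = (tr (Set.Ici (max c d)) f).1 i
      by_cases h1 : i ∈ Set.Ici c
      · rw [tr_mem h1]
        by_cases h2 : i ∈ Set.Ici d
        · rw [tr_mem h2, tr_mem]
          rw [Set.mem_Ici] at *
          exact max_le h1 h2
        · rw [tr_not_mem h2, tr_not_mem]
          rw [Set.mem_Ici] at *
          omega
      · rw [tr_not_mem h1, tr_not_mem]
        rw [Set.mem_Ici] at *
        omega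
    rw [this]
  set x0 := half 0 x - half 1 x with hx0
  obtain ⟨z, hz, hDD⟩ := hall x0
  obtain ⟨w1, hw1⟩ := exists_win x0
  obtain ⟨w2, hw2⟩ := exists_win z
  set w := max w1 w2 with hw
  have hwx : Win w x0 := hw1.mono (le_max_left _ _)
  have hwz : Win w z := hw2.mono (le_max_right _ _)
  have h3 := theta_zero (hwx.sub hwz) hDD
  have hsub : ∀ c, half c (x0 - z) = half c x0 - half c z := fun c => map_sub _ _ _
  have h4 : ∑ i ∈ Finset.range (2 * w + 1),
      (K1.map (shP k H (-((i : ℤ) - w))) (half ((i : ℤ) - w) x0) -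
      K1.map (shP k H (-((i : ℤ) - w))) (half ((i : ℤ) - w + 1) x0)) =
      ∑ i ∈ Finset.range (2 * w + 1),
      (K1.map (shP k H (-((i : ℤ) - w))) (half ((i : ℤ) - w) z) -
      K1.map (shP k H (-((i : ℤ) - w))) (half ((i : ℤ) - w + 1) z)) := by
    rw [← sub_eq_zero, ← Finset.sum_sub_distrib, ← h3]
    refine Finset.sum_congr rfl fun i _ => ?_
    rw [hsub, hsub, map_sub, map_sub]
    abel
  have h5 : ∑ i ∈ Finset.range (2 * w + 1),
      (K1.map (shP k H (-((i : ℤ) - w))) (half ((i : ℤ) - w) z) -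
      K1.map (shP k H (-((i : ℤ) - w))) (half ((i : ℤ) - w + 1) z)) ∈ T :=
    T.sum_mem fun i _ => T.sub_mem (hT _ _ (hT _ _ hz)) (hT _ _ (hT _ _ hz))
  rw [← h4] at h5
  rw [Finset.sum_eq_single w] at h5
  · have e1 : (w : ℤ) - w = 0 := sub_self _
    rw [e1, neg_zero, shP_zero, K1.map_id, K1.map_id] at h5
    have e2 : half 0 x0 = x0 := by
      rw [hx0]
      have : half 0 (half 0 x - half 1 x) = half 0 (half 0 x) - half 0 (half 1 x) :=
        map_sub _ _ _
      rw [this, hhh, hhh]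
      rfl
    have e3 : half (0 + 1) x0 = 0 := by
      rw [hx0]
      have : half (0 + 1) (half 0 x - half 1 x) = half (0 + 1) (half 0 x) -
        half (0 + 1) (half 1 x) := map_sub _ _ _
      rw [this, hhh, hhh]
      exact sub_self _
    rw [e2, e3, sub_zero] at h5
    exact h5
  · intro i _ hi
    have : half ((i : ℤ) - w) x0 = half ((i : ℤ) - w + 1) x0 := by
      rw [hx0]
      have h6 : ∀ c, half c (half 0 x - half 1 x) = half c (half 0 x) -
        half c (half 1 x) := fun c => map_sub _ _ _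
      rw [h6, h6, hhh, hhh, hhh, hhh]
      rcases lt_or_gt_of_ne hi with h7 | h7
      · rw [max_eq_right (by omega), max_eq_right (by omega), max_eq_right (by omega),
          max_eq_right (by omega)]
      · rw [max_eq_left (by omega), max_eq_left (by omega), max_eq_left (by omega),
          max_eq_left (by omega), sub_self, sub_self]
    rw [this, sub_self]
  · intro h
    exact absurd (Finset.mem_range.2 (by omega)) h

/-- consequence: every class is congruent to its constant part modulo `T` -/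
theorem sub_cst_mem (T : AddSubgroup (K1 (MonoidAlgebra k (FS H))))
    (hT : ∀ (ρ : FS H →* FS H), ∀ x ∈ T, K1.map (mapDomainRingHom k ρ) x ∈ T)
    (hall : ∀ x : K1 (MonoidAlgebra k (FS H)), ∃ z ∈ T, ∀ (a : ℕ) (s s' : Set ℤ)
      (hs : s ⊆ Set.Icc (-(a : ℤ)) a) (hs' : s' ⊆ Set.Icc (-(a : ℤ)) a),
        DD k hs (K1.map (TW k H).j (x - z)) = DD k hs' (K1.map (TW k H).j (x - z)))
    (x : K1 (MonoidAlgebra k (FS H))) : x - cst x ∈ T := by
  obtain ⟨w, hx⟩ := exists_win x
  have h1 : ∀ c : ℤ, half c x - half (c + 1) x ∈ T := by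
    intro c
    have h2 := half_mem T hT hall (K1.map (shP k H (-c)) x)
    have h3 : ∀ e : ℤ, K1.map (shP k H c) (half e (K1.map (shP k H (-c)) x)) =
        half (c + e) x := by
      intro e
      unfold half shP
      rw [← K1.map_comp, ← K1.map_comp, ← mapDomainRingHom_comp, ← mapDomainRingHom_comp]
      have : ((((shift H) ^ c : MulAut (FS H)) : FS H ≃* FS H) : FS H →* FS H).comp
          ((tr (Set.Ici e)).comp ((((shift H) ^ (-c) : MulAut (FS H)) : FS H ≃* FS H) :
            FS H →* FS H)) = tr (Set.Ici (c + e)) := by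
        ext1 f
        apply Subtype.ext
        funext i
        show (((shift H) ^ c) (tr (Set.Ici e) (((shift H) ^ (-c)) f))).1 i =
          (tr (Set.Ici (c + e)) f).1 i
        rw [shift_zpow_apply]
        by_cases h4 : i ∈ Set.Ici (c + e)
        · rw [tr_mem h4, tr_mem, shift_zpow_apply]
          · exact congrArg f.1 (by ring)
          · rw [Set.mem_Ici] at *
            omega
        · rw [tr_not_mem h4, tr_not_mem]
          rw [Set.mem_Ici] at *
          omega
      rw [MonoidHom.comp_assoc, this]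
    have h4 := hT (((((shift H) ^ c : MulAut (FS H)) : FS H ≃* FS H) : FS H →* FS H)) _ h2
    have h5 : K1.map (shP k H c) (half 0 (K1.map (shP k H (-c)) x) -
        half 1 (K1.map (shP k H (-c)) x)) ∈ T := h4
    rw [map_sub, h3, h3, add_zero] at h5
    exact h5
  have h2 : ∑ i ∈ Finset.range (2 * w + 1), (half ((i : ℤ) - w) x -
      half (((i + 1 : ℕ) : ℤ) - w) x) ∈ T := by
    refine T.sum_mem fun i _ => ?_
    have : ((i + 1 : ℕ) : ℤ) - w = (i : ℤ) - w + 1 := by push_cast; ring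
    rw [this]
    exact h1 _
  rw [Finset.sum_range_sub' (fun i : ℕ => half ((i : ℤ) - w) x)] at h2
  have h7 := half_low hx
  have h8 := half_high hx
  rwa [h7, h8] at h2

end Pool.Agent.Lib.MP_16fe43_al
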