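import Mathlib

/-!
# The group `K₁(R)`

`K₁(R)` is the abelian group with generators `[A]`, `A` an invertible matrix over `R` of any size,
and relations `[AB] = [A] + [B]` (same size), `[A ⊕ 1] = [A]`.  (This is the abelianisation of
`GL(R) = ⋃ GL_n(R)`.)
-/

set_option autoImplicit false

universe u v w

open Matrix

namespace Pool.Agent.Lib.MP_16fe43_al

/-- block diagonal sum of two invertible matrices -/
def dsum {R : Type u} [Ring R] {ι : Type v} {κ : Type w} [Fintype ι] [Fintype κ] [DecidableEq ι]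
    [DecidableEq κ] (A : (Matrix ι ι R)ˣ) (B : (Matrix κ κ R)ˣ) :
    (Matrix (ι ⊕ κ) (ι ⊕ κ) R)ˣ where
  val := fromBlocks A.val 0 0 B.val
  inv := fromBlocks A.inv 0 0 B.inv
  val_inv := by simp [fromBlocks_multiply]
  inv_val := by simp [fromBlocks_multiply]

/-- reindexing of invertible matrices -/
def rix {R : Type u} [Ring R] {ι : Type v} {κ : Type w} [Fintype ι] [Fintype κ] [DecidableEq ι]
    [DecidableEq κ] (e : ι ≃ κ) : (Matrix ι ι R)ˣ ≃* (Matrix κ κ R)ˣ :=
  Units.mapEquiv (Matrix.reindexAlgEquiv ℤ R e).toMulEquiv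

/-- generators: invertible matrices of all sizes -/
abbrev Gen (R : Type u) [Ring R] : Type u := Σ n : ℕ, (Matrix (Fin n) (Fin n) R)ˣ

/-- the relations `[AB] = [A] + [B]` and `[A ⊕ 1] = [A]` -/
def K1rel (R : Type u) [Ring R] : Set (FreeAbelianGroup (Gen R)) :=
  {x | ∃ (n : ℕ) (A B : (Matrix (Fin n) (Fin n) R)ˣ),
      x = FreeAbelianGroup.of ⟨n, A * B⟩ - (FreeAbelianGroup.of ⟨n, A⟩ +
        FreeAbelianGroup.of ⟨n, B⟩)} ∪
  {x | ∃ (n m : ℕ) (A : (Matrix (Fin n) (Fin n) R)ˣ),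
      x = FreeAbelianGroup.of ⟨n + m, rix finSumFinEquiv (dsum A (1 : (Matrix (Fin m) (Fin m) R)ˣ))⟩
        - FreeAbelianGroup.of ⟨n, A⟩}

/-- `K₁(R)` -/
def K1 (R : Type u) [Ring R] : Type u :=
  FreeAbelianGroup (Gen R) ⧸ AddSubgroup.closure (K1rel R)

instance (R : Type u) [Ring R] : AddCommGroup (K1 R) :=
  inferInstanceAs (AddCommGroup (FreeAbelianGroup (Gen R) ⧸ AddSubgroup.closure (K1rel R)))

namespace K1

variable {R : Type u} [Ring R]

/-- the class of an invertible matrix -/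
def gen {n : ℕ} (A : (Matrix (Fin n) (Fin n) R)ˣ) : K1 R :=
  QuotientAddGroup.mk (FreeAbelianGroup.of (⟨n, A⟩ : Gen R))

theorem gen_mul {n : ℕ} (A B : (Matrix (Fin n) (Fin n) R)ˣ) : gen (A * B) = gen A + gen B := by
  have : (QuotientAddGroup.mk (FreeAbelianGroup.of (⟨n, A * B⟩ : Gen R)) : K1 R) =
      QuotientAddGroup.mk (FreeAbelianGroup.of (⟨n, A⟩ : Gen R) +
        FreeAbelianGroup.of (⟨n, B⟩ : Gen R)) := by
    refine QuotientAddGroup.eq.2 ?_
    have h : FreeAbelianGroup.of (⟨n, A * B⟩ : Gen R) - (FreeAbelianGroup.of (⟨n, A⟩ : Gen R) +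
        FreeAbelianGroup.of (⟨n, B⟩ : Gen R)) ∈ AddSubgroup.closure (K1rel R) :=
      AddSubgroup.subset_closure (Or.inl ⟨n, A, B, rfl⟩)
    have h2 := AddSubgroup.neg_mem _ h
    rw [neg_sub] at h2
    rw [neg_add_eq_sub]
    exact h2
  exact this

/-- the class as a homomorphism -/
def genHom (n : ℕ) : (Matrix (Fin n) (Fin n) R)ˣ →* Multiplicative (K1 R) where
  toFun A := Multiplicative.ofAdd (gen A)
  map_one' := by
    have h := gen_mul (1 : (Matrix (Fin n) (Fin n) R)ˣ) 1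
    rw [mul_one] at h
    have : gen (1 : (Matrix (Fin n) (Fin n) R)ˣ) = 0 := by
      simpa using h
    rw [this]; rfl
  map_mul' A B := by rw [gen_mul]; rfl

theorem gen_one (n : ℕ) : gen (1 : (Matrix (Fin n) (Fin n) R)ˣ) = 0 :=
  (genHom n).map_one

theorem gen_inv {n : ℕ} (A : (Matrix (Fin n) (Fin n) R)ˣ) : gen A⁻¹ = - gen A :=
  (genHom n).map_inv A

theorem gen_stab {n : ℕ} (m : ℕ) (A : (Matrix (Fin n) (Fin n) R)ˣ) :
    gen (rix finSumFinEquiv (dsum A (1 : (Matrix (Fin m) (Fin m) R)ˣ))) = gen A := by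
  unfold gen
  refine Eq.symm ?_
  refine QuotientAddGroup.eq.2 ?_
  rw [neg_add_eq_sub]
  exact AddSubgroup.subset_closure (Or.inr ⟨n, m, A, rfl⟩)

/-- the permutation matrix -/
def permU {n : ℕ} (e : Equiv.Perm (Fin n)) : (Matrix (Fin n) (Fin n) R)ˣ where
  val := (1 : Matrix (Fin n) (Fin n) R).submatrix e id
  inv := (1 : Matrix (Fin n) (Fin n) R).submatrix id e
  val_inv := (Matrix.submatrix_mul_equiv (1 : Matrix (Fin n) (Fin n) R) 1 e (Equiv.refl _) e).trans
    (by simp)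
  inv_val := (Matrix.submatrix_mul_equiv (1 : Matrix (Fin n) (Fin n) R) 1 id e id).trans
    (by simp)

theorem gen_rix_perm {n : ℕ} (e : Equiv.Perm (Fin n)) (A : (Matrix (Fin n) (Fin n) R)ˣ) :
    gen (rix e A) = gen A := by
  have : rix e A = permU e.symm * A * (permU e.symm)⁻¹ := by
    apply Units.ext
    show (Matrix.reindex e e) A.val = (1 : Matrix (Fin n) (Fin n) R).submatrix e.symm id * A.val *
      (1 : Matrix (Fin n) (Fin n) R).submatrix id e.symm
    ext i j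
    simp [Matrix.mul_apply, Matrix.one_apply]
  rw [this, gen_mul, gen_mul, gen_inv]
  abel

theorem gen_rix {n m : ℕ} (e : Fin n ≃ Fin m) (A : (Matrix (Fin n) (Fin n) R)ˣ) :
    gen (rix e A) = gen A := by
  have h : n = m := by simpa using Fintype.card_congr e
  subst h
  exact gen_rix_perm e A

end K1

section

variable {R : Type u} [Ring R]

theorem rix_trans {ι : Type*} {κ : Type*} {τ : Type*} [Fintype ι] [Fintype κ] [Fintype τ]
    [DecidableEq ι] [DecidableEq κ] [DecidableEq τ] (e : ι ≃ κ) (f : κ ≃ τ)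
    (A : (Matrix ι ι R)ˣ) : rix (e.trans f) A = rix f (rix e A) := by
  apply Units.ext
  ext i j
  rfl

/-- the class of an invertible matrix with arbitrary finite index type -/
noncomputable def cl {ι : Type v} [Fintype ι] [DecidableEq ι] (A : (Matrix ι ι R)ˣ) : K1 R :=
  K1.gen (rix (Fintype.equivFin ι) A)

theorem cl_eq {ι : Type v} [Fintype ι] [DecidableEq ι] {n : ℕ} (e : ι ≃ Fin n)
    (A : (Matrix ι ι R)ˣ) : cl A = K1.gen (rix e A) := by
  have : e = (Fintype.equivFin ι).trans ((Fintype.equivFin ι).symm.trans e) := by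
    ext x; simp
  rw [this, rix_trans, K1.gen_rix]
  rfl

theorem cl_gen {n : ℕ} (A : (Matrix (Fin n) (Fin n) R)ˣ) : cl A = K1.gen A := by
  rw [cl_eq (Equiv.refl (Fin n))]
  congr 1

theorem cl_rix {ι : Type v} {κ : Type w} [Fintype ι] [Fintype κ] [DecidableEq ι]
    [DecidableEq κ] (e : ι ≃ κ) (A : (Matrix ι ι R)ˣ) : cl (rix e A) = cl A := by
  rw [cl_eq (Fintype.equivFin κ), ← rix_trans, ← cl_eq]

theorem cl_mul {ι : Type v} [Fintype ι] [DecidableEq ι] (A B : (Matrix ι ι R)ˣ) :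
    cl (A * B) = cl A + cl B := by
  unfold cl
  rw [map_mul, K1.gen_mul]

@[simp] theorem cl_one {ι : Type v} [Fintype ι] [DecidableEq ι] :
    cl (1 : (Matrix ι ι R)ˣ) = 0 := by
  unfold cl
  rw [map_one, K1.gen_one]

theorem cl_inv {ι : Type v} [Fintype ι] [DecidableEq ι] (A : (Matrix ι ι R)ˣ) :
    cl A⁻¹ = - cl A := by
  unfold cl
  rw [map_inv, K1.gen_inv]

theorem cl_dsum_one {ι : Type v} {κ : Type w} [Fintype ι] [Fintype κ] [DecidableEq ι]
    [DecidableEq κ] (A : (Matrix ι ι R)ˣ) : cl (dsum A (1 : (Matrix κ κ R)ˣ)) = cl A := by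
  have e1 := Fintype.equivFin ι
  have e2 := Fintype.equivFin κ
  rw [cl_eq ((e1.sumCongr e2).trans finSumFinEquiv), rix_trans]
  have : rix (e1.sumCongr e2) (dsum A (1 : (Matrix κ κ R)ˣ)) = dsum (rix e1 A) 1 := by
    apply Units.ext
    ext i j
    rcases i with i | i <;> rcases j with j | j <;>
    simp [rix, dsum, Matrix.one_apply]
  rw [this, K1.gen_stab, ← cl_eq]

theorem cl_one_dsum {ι : Type v} {κ : Type w} [Fintype ι] [Fintype κ] [DecidableEq ι]
    [DecidableEq κ] (A : (Matrix ι ι R)ˣ) : cl (dsum (1 : (Matrix κ κ R)ˣ) A) = cl A := by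
  rw [← cl_dsum_one (κ := κ) A, ← cl_rix (Equiv.sumComm ι κ)]
  congr 1
  apply Units.ext
  ext i j
  rcases i with i | i <;> rcases j with j | j <;> simp [rix, dsum]

theorem cl_dsum {ι : Type v} {κ : Type w} [Fintype ι] [Fintype κ] [DecidableEq ι]
    [DecidableEq κ] (A : (Matrix ι ι R)ˣ) (B : (Matrix κ κ R)ˣ) :
    cl (dsum A B) = cl A + cl B := by
  have : dsum A B = dsum A 1 * dsum 1 B := by
    apply Units.ext
    simp [dsum, fromBlocks_multiply]
  rw [this, cl_mul, cl_dsum_one, cl_one_dsum]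

/-- unipotent block matrices -/
def upU {ι : Type v} {κ : Type w} [Fintype ι] [Fintype κ] [DecidableEq ι]
    [DecidableEq κ] (X : Matrix ι κ R) : (Matrix (ι ⊕ κ) (ι ⊕ κ) R)ˣ where
  val := fromBlocks 1 X 0 1
  inv := fromBlocks 1 (-X) 0 1
  val_inv := by simp [fromBlocks_multiply]
  inv_val := by simp [fromBlocks_multiply]

/-- unipotent block matrices -/
def loU {ι : Type v} {κ : Type w} [Fintype ι] [Fintype κ] [DecidableEq ι]
    [DecidableEq κ] (Y : Matrix κ ι R) : (Matrix (ι ⊕ κ) (ι ⊕ κ) R)ˣ where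
  val := fromBlocks 1 0 Y 1
  inv := fromBlocks 1 0 (-Y) 1
  val_inv := by simp [fromBlocks_multiply]
  inv_val := by simp [fromBlocks_multiply]

theorem cl_upU {ι : Type v} {κ : Type w} [Fintype ι] [Fintype κ] [DecidableEq ι]
    [DecidableEq κ] (X : Matrix ι κ R) : cl (upU X) = 0 := by
  set a : (Matrix (ι ⊕ (κ ⊕ κ)) (ι ⊕ (κ ⊕ κ)) R)ˣ := upU (fromCols 0 X) with ha
  set b : (Matrix (ι ⊕ (κ ⊕ κ)) (ι ⊕ (κ ⊕ κ)) R)ˣ := dsum 1 (loU (1 : Matrix κ κ R)) with hb
  have h1 : cl (a * b * a⁻¹ * b⁻¹) = 0 := by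
    rw [cl_mul, cl_mul, cl_mul, cl_inv, cl_inv]; abel
  have h2 : a * b * a⁻¹ * b⁻¹ = rix (Equiv.sumAssoc ι κ κ) (dsum (upU X) 1) := by
    apply Units.ext
    show fromBlocks 1 (fromCols 0 X) 0 1 * fromBlocks 1 0 0 (fromBlocks 1 0 1 1) *
      fromBlocks 1 (-fromCols 0 X) 0 1 * fromBlocks 1 0 0 (fromBlocks 1 0 (-1) 1) =
      Matrix.reindex (Equiv.sumAssoc ι κ κ) (Equiv.sumAssoc ι κ κ)
        (fromBlocks (fromBlocks 1 X 0 1) 0 0 1)
    have e1 : Matrix.reindex (Equiv.sumAssoc ι κ κ) (Equiv.sumAssoc ι κ κ)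
        (fromBlocks (fromBlocks 1 X 0 1) 0 0 1) =
        (fromBlocks 1 (fromCols X 0) 0 1 : Matrix (ι ⊕ (κ ⊕ κ)) (ι ⊕ (κ ⊕ κ)) R) := by
      ext i j
      rcases i with i | i | i <;> rcases j with j | j | j <;> simp [Matrix.one_apply]
    rw [e1]
    simp only [fromBlocks_multiply, Matrix.one_mul, Matrix.mul_one, Matrix.zero_mul,
      Matrix.mul_zero, add_zero, zero_add, fromCols_mul_fromBlocks]
    congr 1
    · ext i j
      rcases j with j | j <;> simp [Matrix.mul_apply, Matrix.one_apply]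
    · ext i j
      rcases i with i | i <;> rcases j with j | j <;> simp [Matrix.one_apply]
  rw [h2, cl_rix, cl_dsum_one] at h1
  exact h1

theorem cl_loU {ι : Type v} {κ : Type w} [Fintype ι] [Fintype κ] [DecidableEq ι]
    [DecidableEq κ] (Y : Matrix κ ι R) : cl (loU Y) = 0 := by
  rw [← cl_rix (Equiv.sumComm ι κ)]
  have : rix (Equiv.sumComm ι κ) (loU Y) = upU Y := by
    apply Units.ext
    ext i j
    rcases i with i | i <;> rcases j with j | j <;> simp [rix, loU, upU, Matrix.one_apply]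
  rw [this, cl_upU]

theorem cl_conj {ι : Type v} [Fintype ι] [DecidableEq ι] (P A : (Matrix ι ι R)ˣ) :
    cl (P * A * P⁻¹) = cl A := by
  rw [cl_mul, cl_mul, cl_inv]; abel

theorem cl_one_sub_mul_comm {ι : Type v} {κ : Type w} [Fintype ι] [Fintype κ] [DecidableEq ι]
    [DecidableEq κ] (X : Matrix ι κ R) (Y : Matrix κ ι R) (u : (Matrix ι ι R)ˣ)
    (v : (Matrix κ κ R)ˣ) (hu : u.val = 1 - X * Y) (hv : v.val = 1 - Y * X) : cl u = cl v := by
  have h : loU Y * dsum 1 v * upU X = upU X * dsum u 1 * loU Y := by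
    apply Units.ext
    simp only [Units.val_mul]
    show fromBlocks 1 0 Y 1 * fromBlocks 1 0 0 v.val * fromBlocks 1 X 0 1 =
      fromBlocks 1 X 0 1 * fromBlocks u.val 0 0 1 * fromBlocks 1 0 Y 1
    rw [hu, hv]
    simp [fromBlocks_multiply]
  have h2 := congrArg cl h
  rw [cl_mul, cl_mul, cl_mul, cl_mul, cl_loU, cl_upU, cl_dsum, cl_dsum, cl_one, cl_one] at h2
  simpa using h2.symm

theorem isUnit_one_sub_mul_comm {ι : Type v} {κ : Type w} [Fintype ι] [Fintype κ]
    [DecidableEq ι] [DecidableEq κ] (X : Matrix ι κ R) (Y : Matrix κ ι R)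
    (h : IsUnit (1 - X * Y)) : IsUnit (1 - Y * X) := by
  obtain ⟨u, hu⟩ := h
  have h1 : (1 - X * Y) * u.inv = 1 := by rw [← hu]; exact u.val_inv
  have h2 : u.inv * (1 - X * Y) = 1 := by rw [← hu]; exact u.inv_val
  refine ⟨⟨1 - Y * X, 1 + Y * u.inv * X, ?_, ?_⟩, rfl⟩
  · have : (1 - Y * X) * (1 + Y * u.inv * X) = 1 - Y * X + Y * ((1 - X * Y) * u.inv) * X := by
      simp only [Matrix.sub_mul, Matrix.mul_sub, Matrix.mul_add, Matrix.mul_assoc,
        Matrix.one_mul, Matrix.mul_one]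
    rw [this, h1]
    simp
  · have : (1 + Y * u.inv * X) * (1 - Y * X) = 1 - Y * X + Y * (u.inv * (1 - X * Y)) * X := by
      simp only [Matrix.sub_mul, Matrix.mul_sub, Matrix.add_mul, Matrix.mul_assoc,
        Matrix.one_mul, Matrix.mul_one]
      abel
    rw [this, h2]
    simp

open Classical in
/-- the class of a square matrix (`0` if it is not invertible) -/
noncomputable def cm {ι : Type v} [Fintype ι] [DecidableEq ι] (A : Matrix ι ι R) : K1 R :=
  if h : IsUnit A then cl h.unit else 0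

theorem cm_val {ι : Type v} [Fintype ι] [DecidableEq ι] (A : (Matrix ι ι R)ˣ) :
    cm A.val = cl A := by
  unfold cm
  rw [dif_pos A.isUnit]
  congr 1
  exact Units.ext rfl

theorem cm_mul {ι : Type v} [Fintype ι] [DecidableEq ι] {A B : Matrix ι ι R} (hA : IsUnit A)
    (hB : IsUnit B) : cm (A * B) = cm A + cm B := by
  obtain ⟨a, rfl⟩ := hA
  obtain ⟨b, rfl⟩ := hB
  rw [← Units.val_mul, cm_val, cm_val, cm_val, cl_mul]

@[simp] theorem cm_one {ι : Type v} [Fintype ι] [DecidableEq ι] :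
    cm (1 : Matrix ι ι R) = 0 := by
  rw [← Units.val_one, cm_val, cl_one]

theorem cm_one_sub_mul_comm {ι : Type v} {κ : Type w} [Fintype ι] [Fintype κ] [DecidableEq ι]
    [DecidableEq κ] (X : Matrix ι κ R) (Y : Matrix κ ι R) : cm (1 - X * Y) = cm (1 - Y * X) := by
  by_cases h : IsUnit (1 - X * Y)
  · have h' := isUnit_one_sub_mul_comm X Y h
    obtain ⟨u, hu⟩ := h
    obtain ⟨v, hv⟩ := h'
    rw [← hu, ← hv, cm_val, cm_val]
    exact cl_one_sub_mul_comm X Y u v hu hv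
  · have h' : ¬ IsUnit (1 - Y * X) := fun h2 => h (isUnit_one_sub_mul_comm Y X h2)
    unfold cm
    rw [dif_neg h, dif_neg h']

theorem isUnit_fromBlocks_upper {ι : Type v} {κ : Type w} [Fintype ι] [Fintype κ] [DecidableEq ι]
    [DecidableEq κ] {A : Matrix ι ι R} {B : Matrix κ κ R} (X : Matrix ι κ R) (hA : IsUnit A)
    (hB : IsUnit B) : IsUnit (fromBlocks A X 0 B) := by
  obtain ⟨a, rfl⟩ := hA
  obtain ⟨b, rfl⟩ := hB
  have : fromBlocks a.val X 0 b.val = (dsum a b * upU (a.inv * X)).val := by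
    show _ = fromBlocks a.val 0 0 b.val * fromBlocks 1 (a.inv * X) 0 1
    rw [fromBlocks_multiply]
    simp [← Matrix.mul_assoc]
  rw [this]
  exact Units.isUnit _

theorem cm_fromBlocks_upper {ι : Type v} {κ : Type w} [Fintype ι] [Fintype κ] [DecidableEq ι]
    [DecidableEq κ] {A : Matrix ι ι R} {B : Matrix κ κ R} (X : Matrix ι κ R) (hA : IsUnit A)
    (hB : IsUnit B) : cm (fromBlocks A X 0 B) = cm A + cm B := by
  obtain ⟨a, rfl⟩ := hA
  obtain ⟨b, rfl⟩ := hB
  have : fromBlocks a.val X 0 b.val = (dsum a b * upU (a.inv * X)).val := by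
    show _ = fromBlocks a.val 0 0 b.val * fromBlocks 1 (a.inv * X) 0 1
    rw [fromBlocks_multiply]
    simp [← Matrix.mul_assoc]
  rw [this, cm_val, cm_val, cm_val, cl_mul, cl_upU, cl_dsum, add_zero]

theorem cm_fromBlocks_diag {ι : Type v} {κ : Type w} [Fintype ι] [Fintype κ] [DecidableEq ι]
    [DecidableEq κ] {A : Matrix ι ι R} {B : Matrix κ κ R} (hA : IsUnit A)
    (hB : IsUnit B) : cm (fromBlocks A 0 0 B) = cm A + cm B :=
  cm_fromBlocks_upper 0 hA hB

theorem isUnit_fromBlocks_lower {ι : Type v} {κ : Type w} [Fintype ι] [Fintype κ] [DecidableEq ι]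
    [DecidableEq κ] {A : Matrix ι ι R} {B : Matrix κ κ R} (Y : Matrix κ ι R) (hA : IsUnit A)
    (hB : IsUnit B) : IsUnit (fromBlocks A 0 Y B) := by
  obtain ⟨a, rfl⟩ := hA
  obtain ⟨b, rfl⟩ := hB
  have : fromBlocks a.val 0 Y b.val = (dsum a b * loU (b.inv * Y)).val := by
    show _ = fromBlocks a.val 0 0 b.val * fromBlocks 1 0 (b.inv * Y) 1
    rw [fromBlocks_multiply]
    simp [← Matrix.mul_assoc]
  rw [this]
  exact Units.isUnit _

theorem cm_fromBlocks_lower {ι : Type v} {κ : Type w} [Fintype ι] [Fintype κ] [DecidableEq ι]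
    [DecidableEq κ] {A : Matrix ι ι R} {B : Matrix κ κ R} (Y : Matrix κ ι R) (hA : IsUnit A)
    (hB : IsUnit B) : cm (fromBlocks A 0 Y B) = cm A + cm B := by
  obtain ⟨a, rfl⟩ := hA
  obtain ⟨b, rfl⟩ := hB
  have : fromBlocks a.val 0 Y b.val = (dsum a b * loU (b.inv * Y)).val := by
    show _ = fromBlocks a.val 0 0 b.val * fromBlocks 1 0 (b.inv * Y) 1
    rw [fromBlocks_multiply]
    simp [← Matrix.mul_assoc]
  rw [this, cm_val, cm_val, cm_val, cl_mul, cl_loU, cl_dsum, add_zero]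

theorem isUnit_reindex {ι : Type v} {κ : Type w} [Fintype ι] [Fintype κ] [DecidableEq ι]
    [DecidableEq κ] (e : ι ≃ κ) {A : Matrix ι ι R} (hA : IsUnit A) :
    IsUnit (Matrix.reindex e e A) := by
  obtain ⟨a, rfl⟩ := hA
  exact ⟨rix e a, rfl⟩

theorem cm_reindex {ι : Type v} {κ : Type w} [Fintype ι] [Fintype κ] [DecidableEq ι]
    [DecidableEq κ] (e : ι ≃ κ) {A : Matrix ι ι R} (hA : IsUnit A) :
    cm (Matrix.reindex e e A) = cm A := by
  obtain ⟨a, rfl⟩ := hA
  rw [cm_val, ← cl_rix e a, ← cm_val]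
  rfl

theorem cm_conj {ι : Type v} [Fintype ι] [DecidableEq ι] {P Q A : Matrix ι ι R}
    (hPQ : P * Q = 1) (hQP : Q * P = 1) (hA : IsUnit A) : cm (P * A * Q) = cm A := by
  obtain ⟨a, rfl⟩ := hA
  have : P * a.val * Q = ((⟨P, Q, hPQ, hQP⟩ : (Matrix ι ι R)ˣ) * a *
    (⟨P, Q, hPQ, hQP⟩ : (Matrix ι ι R)ˣ)⁻¹).val := rfl
  rw [this, cm_val, cm_val, cl_conj]

end

/-! ### Functoriality -/

section

variable {R : Type u} {S : Type v} [Ring R] [Ring S]

/-- the map on invertible matrices induced by a ring homomorphism -/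
def mapU (f : R →+* S) {ι : Type w} [Fintype ι] [DecidableEq ι] :
    (Matrix ι ι R)ˣ →* (Matrix ι ι S)ˣ :=
  Units.map (RingHom.mapMatrix f).toMonoidHom

/-- the induced map on `K₁` -/
def K1.map (f : R →+* S) : K1 R →+ K1 S :=
  QuotientAddGroup.lift _ (FreeAbelianGroup.lift (fun x : Gen R => K1.gen (mapU f x.2)))
    (by
      rw [AddSubgroup.closure_le]
      rintro x (⟨n, A, B, rfl⟩ | ⟨n, m, A, rfl⟩)
      · simp [K1.gen_mul]
      · have h : mapU f (rix finSumFinEquiv (dsum A (1 : (Matrix (Fin m) (Fin m) R)ˣ))) =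
            rix finSumFinEquiv (dsum (mapU f A) 1) := by
          apply Units.ext
          show (Matrix.reindex finSumFinEquiv finSumFinEquiv (fromBlocks A.val 0 0 1)).map f =
            Matrix.reindex finSumFinEquiv finSumFinEquiv (fromBlocks (A.val.map f) 0 0 1)
          have : (fromBlocks A.val 0 0 (1 : Matrix (Fin m) (Fin m) R)).map f =
              fromBlocks (A.val.map f) 0 0 1 := by
            rw [fromBlocks_map]
            simp
          rw [← this]
          rfl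
        simp [h, K1.gen_stab])

theorem K1.map_gen (f : R →+* S) {n : ℕ} (A : (Matrix (Fin n) (Fin n) R)ˣ) :
    K1.map f (K1.gen A) = K1.gen (mapU f A) := by
  show (FreeAbelianGroup.lift (fun x : Gen R => K1.gen (mapU f x.2)))
    (FreeAbelianGroup.of ⟨n, A⟩) = _
  simp

theorem K1.map_cl (f : R →+* S) {ι : Type w} [Fintype ι] [DecidableEq ι]
    (A : (Matrix ι ι R)ˣ) : K1.map f (cl A) = cl (mapU f A) := by
  unfold cl
  rw [K1.map_gen]
  rfl

theorem isUnit_map (f : R →+* S) {ι : Type w} [Fintype ι] [DecidableEq ι] {A : Matrix ι ι R}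
    (hA : IsUnit A) : IsUnit (A.map f) := by
  obtain ⟨a, rfl⟩ := hA
  exact ⟨mapU f a, rfl⟩

theorem K1.map_cm (f : R →+* S) {ι : Type w} [Fintype ι] [DecidableEq ι] {A : Matrix ι ι R}
    (hA : IsUnit A) : K1.map f (cm A) = cm (A.map f) := by
  obtain ⟨a, rfl⟩ := hA
  rw [cm_val, K1.map_cl, ← cm_val]
  rfl

end

theorem K1.ext_hom {R : Type u} [Ring R] {M : Type*} [AddCommGroup M] (f g : K1 R →+ M)
    (h : ∀ (n : ℕ) (A : (Matrix (Fin n) (Fin n) R)ˣ), f (K1.gen A) = g (K1.gen A)) : f = g := by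
  have key : f.comp (QuotientAddGroup.mk' (AddSubgroup.closure (K1rel R))) =
      g.comp (QuotientAddGroup.mk' (AddSubgroup.closure (K1rel R))) := by
    apply FreeAbelianGroup.lift_ext
    rintro ⟨n, A⟩
    exact h n A
  ext x
  obtain ⟨y, rfl⟩ := QuotientAddGroup.mk'_surjective (AddSubgroup.closure (K1rel R)) x
  exact DFunLike.congr_fun key y

/-- every element of `K₁(R)` is the class of a matrix -/
theorem K1.exists_gen {R : Type u} [Ring R] (x : K1 R) :
    ∃ (n : ℕ) (A : (Matrix (Fin n) (Fin n) R)ˣ), x = K1.gen A := by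
  induction x using QuotientAddGroup.induction_on with
  | H z =>
    induction z using FreeAbelianGroup.induction_on with
    | zero => exact ⟨0, 1, (K1.gen_one 0).symm⟩
    | of x => exact ⟨x.1, x.2, rfl⟩
    | neg x _ =>
      refine ⟨x.1, x.2⁻¹, ?_⟩
      rw [K1.gen_inv]
      rfl
    | add x y hx hy =>
      obtain ⟨n, A, hA⟩ := hx
      obtain ⟨m, B, hB⟩ := hy
      refine ⟨n + m, rix finSumFinEquiv (dsum A B), ?_⟩
      rw [← cl_gen, cl_rix, cl_dsum, cl_gen, cl_gen, ← hA, ← hB]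
      rfl

end Pool.Agent.Lib.MP_16fe43_al
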