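import Pool.Agent.Lib.MP_16fe43_al.K1Exact

set_option autoImplicit false

/-!
# `K₁` of matrix rings, block diagonal matrices
-/

universe u v w

open Matrix

namespace Pool.Agent.Lib.CutK1

open Pool.Agent.Lib.MP_16fe43_al

noncomputable section

/-- invertible matrices over a ring -/
abbrev GM (ι : Type v) [Fintype ι] [DecidableEq ι] (S : Type w) [Ring S] := (Matrix ι ι S)ˣ

variable {R : Type u} [Ring R]

theorem cl_congr_equiv {ι : Type v} {κ : Type w} [Fintype ι] [Fintype κ] [DecidableEq ι]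
    [DecidableEq κ] (e : ι ≃ κ) (A : (Matrix ι ι R)ˣ) (B : (Matrix κ κ R)ˣ)
    (h : ∀ i j, A.val i j = B.val (e i) (e j)) : cl A = cl B := by
  rw [← cl_rix e A]
  congr 1
  apply Units.ext
  ext i j
  obtain ⟨i, rfl⟩ := e.surjective i
  obtain ⟨j, rfl⟩ := e.surjective j
  rw [← h]
  show (Matrix.reindex e e A.val) _ _ = _
  simp

theorem rix_val {ι : Type v} {κ : Type w} [Fintype ι] [Fintype κ] [DecidableEq ι]
    [DecidableEq κ] (e : ι ≃ κ) (A : (Matrix ι ι R)ˣ) (i j : ι) :
    (rix e A).val (e i) (e j) = A.val i j := by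
  have : (rix e A).val = Matrix.reindex e e A.val := rfl
  rw [this, Matrix.reindex_apply, Matrix.submatrix_apply, Equiv.symm_apply_apply,
    Equiv.symm_apply_apply]

/-- flattening of matrices of matrices -/
def flatU {ι : Type v} {D : Type w} [Fintype ι] [Fintype D] [DecidableEq ι] [DecidableEq D] :
    GM ι (Matrix D D R) →* GM (ι × D) R :=
  Units.map (Matrix.compRingEquiv ι D R).toRingHom.toMonoidHom

theorem flatU_apply {ι : Type v} {D : Type w} [Fintype ι] [Fintype D] [DecidableEq ι]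
    [DecidableEq D] (A : GM ι (Matrix D D R)) (x y : ι × D) :
    (flatU A).val x y = A.val x.1 y.1 x.2 y.2 := rfl

theorem cl_flatU_rix {ι : Type v} {κ : Type v} {D : Type w} [Fintype ι] [Fintype κ] [Fintype D]
    [DecidableEq ι] [DecidableEq κ] [DecidableEq D] (e : ι ≃ κ)
    (A : GM ι (Matrix D D R)) : cl (flatU (rix e A)) = cl (flatU A) := by
  symm
  apply cl_congr_equiv (e.prodCongr (Equiv.refl D))
  rintro ⟨i, a⟩ ⟨j, b⟩
  have h := congrFun (congrFun (rix_val e A i j) a) b
  rw [flatU_apply]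
  exact h.symm

theorem dsum_val {ι : Type v} {κ : Type w} [Fintype ι] [Fintype κ] [DecidableEq ι]
    [DecidableEq κ] (A : (Matrix ι ι R)ˣ) (B : (Matrix κ κ R)ˣ) :
    (dsum A B).val = fromBlocks A.val 0 0 B.val := rfl

theorem cl_flatU_dsum_one {ι : Type v} {κ : Type v} {D : Type w} [Fintype ι] [Fintype κ]
    [Fintype D] [DecidableEq ι] [DecidableEq κ] [DecidableEq D]
    (A : GM ι (Matrix D D R)) :
    cl (flatU (dsum A (1 : GM κ (Matrix D D R)))) = cl (flatU A) := by
  rw [← cl_dsum_one (κ := κ × D) (flatU A)]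
  apply cl_congr_equiv (Equiv.sumProdDistrib ι κ D)
  rintro ⟨i | i, a⟩ ⟨j | j, b⟩
  · rw [flatU_apply, dsum_val, dsum_val]
    rfl
  · rw [flatU_apply, dsum_val, dsum_val]
    rfl
  · rw [flatU_apply, dsum_val, dsum_val]
    rfl
  · rw [flatU_apply, dsum_val, dsum_val]
    show (1 : Matrix κ κ (Matrix D D R)) i j a b = (1 : Matrix (κ × D) (κ × D) R) (i, a) (j, b)
    by_cases h : i = j
    · subst h
      rw [Matrix.one_apply_eq]
      by_cases h' : a = b
      · subst h'; simp
      · rw [Matrix.one_apply_ne h', Matrix.one_apply_ne]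
        simpa using h'
    · rw [Matrix.one_apply_ne h, Matrix.one_apply_ne]
      · rfl
      · simp [h]

/-- the Morita map `K₁(M_D(R)) → K₁(R)` -/
def mor (D : Type w) [Fintype D] [DecidableEq D] : K1 (Matrix D D R) →+ K1 R :=
  QuotientAddGroup.lift _ (FreeAbelianGroup.lift
    (fun x : Gen (Matrix D D R) => cl (flatU x.2)))
    (by
      rw [AddSubgroup.closure_le]
      rintro x (⟨n, A, B, rfl⟩ | ⟨n, m, A, rfl⟩)
      · simp only [SetLike.mem_coe, AddMonoidHom.mem_ker, map_sub, map_add,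
          FreeAbelianGroup.lift_apply_of, map_mul, cl_mul, sub_self]
      · simp only [SetLike.mem_coe, AddMonoidHom.mem_ker, map_sub,
          FreeAbelianGroup.lift_apply_of]
        rw [cl_flatU_rix, cl_flatU_dsum_one, sub_self])

theorem mor_gen (D : Type w) [Fintype D] [DecidableEq D] {n : ℕ}
    (A : GM (Fin n) (Matrix D D R)) : mor D (K1.gen A) = cl (flatU A) := by
  show (FreeAbelianGroup.lift _) (FreeAbelianGroup.of _) = _
  simp

theorem mor_cl (D : Type w) [Fintype D] [DecidableEq D] {ι : Type} [Fintype ι] [DecidableEq ι]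
    (A : GM ι (Matrix D D R)) : mor D (cl A) = cl (flatU A) := by
  unfold cl
  rw [mor_gen]
  show cl (flatU (rix _ A)) = cl (flatU A)
  rw [cl_flatU_rix]

/-- block diagonal matrices -/
def bdU {ι : Type v} {D : Type w} [Fintype ι] [Fintype D] [DecidableEq ι] [DecidableEq D] :
    (D → (Matrix ι ι R)ˣ) →* (Matrix (ι × D) (ι × D) R)ˣ where
  toFun M := ⟨blockDiagonal fun d => (M d).val, blockDiagonal fun d => (M d).inv,
    by rw [← blockDiagonal_mul]; simp [← Pi.one_def],
    by rw [← blockDiagonal_mul]; simp [← Pi.one_def]⟩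
  map_one' := by
    apply Units.ext
    show (blockDiagonal fun _ => 1) = 1
    rw [← Pi.one_def, blockDiagonal_one]
  map_mul' M N := by
    apply Units.ext
    show (blockDiagonal fun d => (M d).val * (N d).val) = _
    rw [blockDiagonal_mul]
    rfl

theorem bdU_apply {ι : Type v} {D : Type w} [Fintype ι] [Fintype D] [DecidableEq ι]
    [DecidableEq D] (M : D → (Matrix ι ι R)ˣ) (x y : ι × D) :
    (bdU M).val x y = if x.2 = y.2 then (M x.2).val x.1 y.1 else 0 := rfl

theorem cl_bdU_single {ι : Type v} {D : Type w} [Fintype ι] [Fintype D] [DecidableEq ι]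
    [DecidableEq D] (d : D) (A : (Matrix ι ι R)ˣ) :
    cl (bdU (Pi.mulSingle d A)) = cl A := by
  classical
  rw [← cl_dsum_one (κ := ι × {d' : D // d' ≠ d}) A]
  symm
  let g : ι ⊕ (ι × {d' : D // d' ≠ d}) → ι × D :=
    Sum.elim (fun i => (i, d)) (fun x => (x.1, x.2.1))
  have hg : Function.Bijective g := by
    constructor
    · rintro (i | ⟨i, a⟩) (j | ⟨j, b⟩) h
      · simp only [g, Sum.elim_inl, Prod.mk.injEq] at h
        rw [h.1]
      · simp only [g, Sum.elim_inl, Sum.elim_inr, Prod.mk.injEq] at h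
        exact absurd h.2.symm b.2
      · simp only [g, Sum.elim_inl, Sum.elim_inr, Prod.mk.injEq] at h
        exact absurd h.2 a.2
      · simp only [g, Sum.elim_inr, Prod.mk.injEq] at h
        rw [h.1, Subtype.ext h.2]
    · rintro ⟨i, a⟩
      by_cases h : a = d
      · exact ⟨Sum.inl i, by simp [g, h]⟩
      · exact ⟨Sum.inr (i, ⟨a, h⟩), by simp [g]⟩
  apply cl_congr_equiv (Equiv.ofBijective g hg)
  rintro (i | ⟨i, a, ha⟩) (j | ⟨j, b, hb⟩)
  · rw [bdU_apply]
    simp [g, dsum]
  · rw [bdU_apply]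
    simp only [Equiv.ofBijective_apply, g, Sum.elim_inl, Sum.elim_inr]
    rw [if_neg (Ne.symm hb)]
    rfl
  · rw [bdU_apply]
    simp only [Equiv.ofBijective_apply, g, Sum.elim_inl, Sum.elim_inr]
    rw [if_neg ha]
    rfl
  · rw [bdU_apply]
    simp only [Equiv.ofBijective_apply, g, Sum.elim_inr]
    rw [Pi.mulSingle_eq_of_ne ha]
    show (1 : Matrix (ι × {d' : D // d' ≠ d}) (ι × {d' : D // d' ≠ d}) R)
      (i, ⟨a, ha⟩) (j, ⟨b, hb⟩) = if a = b then (1 : Matrix ι ι R) i j else 0
    simp only [Matrix.one_apply, Prod.mk.injEq, Subtype.mk.injEq]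
    by_cases h1 : i = j <;> by_cases h2 : a = b <;> simp [h1, h2]

/-- the class as a homomorphism -/
def clHom (ι : Type v) [Fintype ι] [DecidableEq ι] :
    (Matrix ι ι R)ˣ →* Multiplicative (K1 R) where
  toFun A := Multiplicative.ofAdd (cl A)
  map_one' := by rw [cl_one]; rfl
  map_mul' A B := by rw [cl_mul]; rfl

theorem cl_bdU {ι : Type v} {D : Type w} [Fintype ι] [Fintype D] [DecidableEq ι]
    [DecidableEq D] (M : D → (Matrix ι ι R)ˣ) : cl (bdU M) = ∑ d, cl (M d) := by
  have h : (clHom (R := R) (ι × D)).comp bdU =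
      ∏ d, (clHom (R := R) ι).comp (Pi.evalMonoidHom (fun _ : D => (Matrix ι ι R)ˣ) d) := by
    apply MonoidHom.pi_ext
    intro d A
    rw [MonoidHom.finsetProd_apply]
    rw [Finset.prod_eq_single d]
    · show Multiplicative.ofAdd (cl (bdU (Pi.mulSingle d A))) =
        Multiplicative.ofAdd (cl ((Pi.mulSingle d A : D → (Matrix ι ι R)ˣ) d))
      rw [cl_bdU_single, Pi.mulSingle_eq_same]
    · intro b _ hb
      show Multiplicative.ofAdd (cl ((Pi.mulSingle d A : D → (Matrix ι ι R)ˣ) b)) = 1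
      rw [Pi.mulSingle_eq_of_ne hb, cl_one]
      rfl
    · intro h
      exact absurd (Finset.mem_univ d) h
  have h2 := DFunLike.congr_fun h M
  rw [MonoidHom.finsetProd_apply] at h2
  have h3 : Multiplicative.toAdd (∏ d, Multiplicative.ofAdd (cl (M d))) = ∑ d, cl (M d) := by
    rw [toAdd_prod]
    rfl
  rw [← h3]
  exact congrArg Multiplicative.toAdd h2

/-- the diagonal ring homomorphism -/
def diagHom {Q : Type v} [Ring Q] {D : Type w} [Fintype D] [DecidableEq D] (ψ : D → (Q →+* R)) :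
    Q →+* Matrix D D R :=
  (Matrix.diagonalRingHom D R).comp (RingHom.pi ψ)

theorem diagHom_apply {Q : Type v} [Ring Q] {D : Type w} [Fintype D] [DecidableEq D]
    (ψ : D → (Q →+* R)) (a : Q) (x y : D) :
    diagHom ψ a x y = if x = y then ψ x a else 0 := by
  show (Matrix.diagonal fun d => ψ d a) x y = _
  rw [Matrix.diagonal_apply]

theorem mor_diagHom {Q : Type v} [Ring Q] {D : Type w} [Fintype D] [DecidableEq D]
    (ψ : D → (Q →+* R)) (x : K1 Q) :
    mor D (K1.map (diagHom ψ) x) = ∑ d, K1.map (ψ d) x := by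
  obtain ⟨n, A, rfl⟩ := K1.exists_gen x
  rw [K1.map_gen, mor_gen]
  have : flatU (mapU (diagHom ψ) A) = bdU (fun d => mapU (ψ d) A) := by
    apply Units.ext
    ext ⟨i, a⟩ ⟨j, b⟩
    rw [flatU_apply, bdU_apply]
    show diagHom ψ (A.val i j) a b = if a = b then ψ a (A.val i j) else 0
    rw [diagHom_apply]
  rw [this, cl_bdU]
  apply Finset.sum_congr rfl
  intro d _
  rw [K1.map_gen, cl_gen]

/-- matrices with entries in the image of an injective ring homomorphism lift -/
theorem exists_mapU_of_range {P : Type v} [Ring P] (f : P →+* R) (hf : Function.Injective f)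
    {ι : Type w} [Fintype ι] [DecidableEq ι] (A : (Matrix ι ι R)ˣ)
    (h : ∀ i j, A.val i j ∈ f.range) (h' : ∀ i j, A.inv i j ∈ f.range) :
    ∃ B : (Matrix ι ι P)ˣ, mapU f B = A := by
  choose b hb using h
  choose c hc using h'
  have inj : Function.Injective (fun M : Matrix ι ι P => M.map f) :=
    Matrix.map_injective hf
  have e1 : (Matrix.of b).map f = A.val := by ext i j; exact hb i j
  have e2 : (Matrix.of c).map f = A.inv := by ext i j; exact hc i j
  refine ⟨⟨Matrix.of b, Matrix.of c, ?_, ?_⟩, ?_⟩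
  · apply inj
    show (Matrix.of b * Matrix.of c).map f = (1 : Matrix ι ι P).map f
    rw [Matrix.map_mul, e1, e2, A.val_inv]
    simp
  · apply inj
    show (Matrix.of c * Matrix.of b).map f = (1 : Matrix ι ι P).map f
    rw [Matrix.map_mul, e1, e2, A.inv_val]
    simp
  · apply Units.ext
    exact e1

end

end Pool.Agent.Lib.CutK1
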