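import Pool.Agent.Lib.MP_16fe43_al.CutGroup

set_option autoImplicit false
set_option linter.unusedSectionVars false

/-!
# Monomial actions and the truncation lemma for Whitehead groups
-/

universe u v w

open Matrix

namespace Pool.Agent.Lib.BHS16

open Pool.Agent.Lib.CutK1

noncomputable section

section ops

variable {R : Type u} [Ring R]

/-- diagonal operators -/
def diagOp (f : ℤ → R) : Op R := Op.of
  { toFun := fun v => Finsupp.onFinset v.support (fun i => f i * v i) (by
      intro i hi
      rw [Finsupp.mem_support_iff]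
      intro h
      apply hi
      rw [h, mul_zero])
    map_add' := fun v w => by ext a; simp [mul_add]
    map_smul' := fun s v => by
      ext a
      simp [MulOpposite.smul_eq_mul_unop, mul_assoc] }

theorem ent_diagOp (f : ℤ → R) (a b : ℤ) : ent (diagOp f) a b = if a = b then f b else 0 := by
  change f a * (Finsupp.single b (1 : R)) a = _
  rw [Finsupp.single_apply]
  by_cases h : a = b
  · subst h; simp
  · rw [if_neg (fun hh => h hh.symm), if_neg h, mul_zero]

/-- monomial operators -/
def monF (f : ℤ → R) (k : ℤ) : Op R := shiftOp R k * diagOp f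

theorem ent_mul_diagOp (x : Op R) (f : ℤ → R) (a b : ℤ) :
    ent (x * diagOp f) a b = ent x a b * f b := by
  rw [ent_mul_of_subset _ _ _ _ {b} (by
    intro c hc
    rw [ent_diagOp] at hc
    by_contra h
    rw [Finset.mem_singleton] at h
    exact hc (if_neg h)), Finset.sum_singleton, ent_diagOp, if_pos rfl]

theorem ent_monF (f : ℤ → R) (k a b : ℤ) : ent (monF f k) a b = if a = b + k then f b else 0 := by
  unfold monF
  rw [ent_mul_diagOp, ent_shiftOp]
  split_ifs <;> simp

theorem ent_mul_monF (x : Op R) (f : ℤ → R) (k a b : ℤ) :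
    ent (x * monF f k) a b = ent x a (b + k) * f b := by
  unfold monF
  rw [← mul_assoc, ent_mul_diagOp, ent_mul_shiftOp]

theorem monF_mul (f g : ℤ → R) (k l : ℤ) :
    monF f k * monF g l = monF (fun x => f (x + l) * g x) (k + l) := by
  apply op_ext; intro a b
  rw [ent_mul_monF, ent_monF, ent_monF]
  by_cases h : a = b + l + k
  · rw [if_pos h, if_pos (by omega)]
  · rw [if_neg h, if_neg (by omega), zero_mul]

theorem monF_one : monF (fun _ => (1 : R)) 0 = 1 := by
  apply op_ext; intro a b
  rw [ent_monF, ent_one, add_zero]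

end ops

/-- a monomial action of the group `C` on `(ℤK)^(ℤ)`: the element `g` maps `e_x` to
`e_{x + sh g} · co g x` -/
structure MonRep (C : Type u) (K : Type v) [Group C] [Group K] where
  /-- the shift -/
  sh : C →* Multiplicative ℤ
  /-- the coefficients -/
  co : C → ℤ → K
  /-- the cocycle identity -/
  co_mul : ∀ g h x, co (g * h) x = co g (x + Multiplicative.toAdd (sh h)) * co h x

namespace MonRep

variable {C : Type u} {K : Type v} [Group C] [Group K] (M : MonRep C K)

theorem co_one (x : ℤ) : M.co 1 x = 1 := by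
  have h := M.co_mul 1 1 x
  rw [map_one, toAdd_one, add_zero, mul_one] at h
  simpa using h

/-- the action on operators -/
def act : C →* Op (IntGroupRing K) where
  toFun g := monF (fun x => MonoidAlgebra.single (M.co g x) 1) (Multiplicative.toAdd (M.sh g))
  map_one' := by
    rw [map_one, toAdd_one]
    have : (fun x => (MonoidAlgebra.single (M.co 1 x) 1 : IntGroupRing K)) = fun _ => 1 := by
      funext x
      rw [M.co_one, MonoidAlgebra.one_def]
    rw [this, monF_one]
  map_mul' g h := by
    rw [monF_mul, map_mul, toAdd_mul]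
    congr 1
    funext x
    rw [MonoidAlgebra.single_mul_single, mul_one, M.co_mul]

/-- the action of the group ring -/
def rho : IntGroupRing C →+* Op (IntGroupRing K) :=
  (MonoidAlgebra.lift ℤ (Op (IntGroupRing K)) C M.act :
    IntGroupRing C →ₐ[ℤ] Op (IntGroupRing K)).toRingHom

theorem ent_rho_single (g : C) (n : ℤ) (y x : ℤ) :
    ent (M.rho (MonoidAlgebra.single g n)) y x =
      if y = x + Multiplicative.toAdd (M.sh g) then MonoidAlgebra.single (M.co g x) n else 0 := by
  have h0 : M.rho (MonoidAlgebra.single g n) = n • M.act g := by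
    show MonoidAlgebra.lift ℤ (Op (IntGroupRing K)) C M.act (MonoidAlgebra.single g n) = _
    rw [MonoidAlgebra.lift_single]
  have h1 : ∀ (z : Op (IntGroupRing K)), ent (n • z) y x = n • ent z y x := fun z =>
    map_zsmul (AddMonoidHom.mk' (fun z : Op (IntGroupRing K) => ent z y x)
      (fun a b => ent_add a b y x)) n z
  rw [h0, h1]
  show n • ent (monF _ _) y x = _
  rw [ent_monF]
  split_ifs
  · rw [MonoidAlgebra.smul_single, smul_eq_mul, mul_one]
  · rw [smul_zero]

theorem banded : BandedRep M.rho := by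
  intro s
  induction s using MonoidAlgebra.induction_linear with
  | zero => exact ⟨0, fun a b h => by rw [map_zero, ent_zero] at h; exact absurd rfl h⟩
  | add x y hx hy =>
    obtain ⟨D, hD⟩ := hx
    obtain ⟨E, hE⟩ := hy
    refine ⟨D + E, fun a b h => ?_⟩
    rw [map_add, ent_add] at h
    by_cases h1 : ent (M.rho x) a b = 0
    · rw [h1, zero_add] at h
      have := hE a b h
      push_cast; omega
    · have := hD a b h1
      push_cast; omega
  | single g n =>
    refine ⟨(Multiplicative.toAdd (M.sh g)).natAbs, fun a b h => ?_⟩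
    rw [ent_rho_single] at h
    have : a = b + Multiplicative.toAdd (M.sh g) := by
      by_contra hh; exact h (if_neg hh)
    omega

/-- entries in the group ring of a subgroup -/
theorem tail (Z : Subgroup K) (D : ℕ → Finset ℤ)
    (hz : ∀ (g : C) (k : ℕ), ∀ᶠ n in Filter.atTop, ∀ x ∈ D n, nearB (D n) k x → M.co g x ∈ Z)
    (s : IntGroupRing C) (k : ℕ) : ∀ᶠ n in Filter.atTop, ∀ x ∈ D n, nearB (D n) k x →
    ∀ y, ent (M.rho s) y x ∈ (grMap Z.subtype).range := by
  induction s using MonoidAlgebra.induction_linear with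
  | zero =>
    refine Filter.Eventually.of_forall fun n x _ _ y => ?_
    rw [map_zero, ent_zero]
    exact Subring.zero_mem _
  | add a b ha hb =>
    filter_upwards [ha, hb] with n h1 h2 x hx hx' y
    rw [map_add, ent_add]
    exact Subring.add_mem _ (h1 x hx hx' y) (h2 x hx hx' y)
  | single g m =>
    filter_upwards [hz g k] with n h1 x hx hx' y
    rw [ent_rho_single]
    split_ifs
    · exact ⟨MonoidAlgebra.single ⟨M.co g x, h1 x hx hx'⟩ m, MonoidAlgebra.mapDomain_single⟩
    · exact Subring.zero_mem _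

/-- the cut data -/
def cutData (Z : Subgroup K) (D : ℕ → Finset ℤ)
    (hz : ∀ (g : C) (k : ℕ), ∀ᶠ n in Filter.atTop, ∀ x ∈ D n, nearB (D n) k x → M.co g x ∈ Z) :
    CutData (IntGroupRing C) (IntGroupRing K) where
  ρ := M.rho
  band := M.banded
  D := D
  R0 := (grMap Z.subtype).range
  tail := M.tail Z D hz

/-- the subgroup that acts diagonally -/
abbrev C0 : Subgroup C := M.sh.ker

/-- the coefficient at `x` on the diagonal subgroup -/
def coHom (x : ℤ) : M.C0 →* K where
  toFun g := M.co g x
  map_one' := M.co_one x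
  map_mul' g h := by
    rw [Subgroup.coe_mul, M.co_mul]
    have : M.sh h = 1 := h.2
    rw [this, toAdd_one, add_zero]

/-- the diagonal subgroup gives diagonal data -/
def diag (Z : Subgroup K) (D : ℕ → Finset ℤ)
    (hz : ∀ (g : C) (k : ℕ), ∀ᶠ n in Filter.atTop, ∀ x ∈ D n, nearB (D n) k x → M.co g x ∈ Z) :
    (M.cutData Z D hz).Diag (IntGroupRing M.C0) where
  ι := grMap M.C0.subtype
  ψ x := grMap (M.coHom x)
  comp := by
    intro q y x
    show ent (M.rho _) y x = _
    induction q using MonoidAlgebra.induction_linear with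
    | zero => rw [map_zero, map_zero, ent_zero, map_zero, ite_self]
    | add a b ha hb =>
      rw [map_add, map_add, ent_add, ha, hb, map_add]
      split_ifs <;> simp
    | single g m =>
      have h1 : grMap M.C0.subtype (MonoidAlgebra.single g m) =
        MonoidAlgebra.single (g : C) m := MonoidAlgebra.mapDomain_single
      have h2 : grMap (M.coHom x) (MonoidAlgebra.single g m) =
        MonoidAlgebra.single (M.co g x) m := MonoidAlgebra.mapDomain_single
      rw [h1, h2, ent_rho_single]
      have : M.sh g = 1 := g.2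
      rw [this, toAdd_one, add_zero]

/-- the truncation lemma for groups -/
theorem cut (Z : Subgroup K) (D : ℕ → Finset ℤ)
    (hz : ∀ (g : C) (k : ℕ), ∀ᶠ n in Filter.atTop, ∀ x ∈ D n, nearB (D n) k x → M.co g x ∈ Z)
    (z : K1 (IntGroupRing M.C0)) (h : K1.map (grMap M.C0.subtype) z = 0) :
    ∀ᶠ n in Filter.atTop, ∑ x : D n, K1.map (grMap (M.coHom x)) z ∈
      (K1.map (grMap Z.subtype)).range := by
  have h1 : MP_16fe43_al.K1.map (M.diag Z D hz).ι (toHT z) = 0 := by
    rw [← toHT_map]
    show toHT (K1.map (grMap M.C0.subtype) z) = 0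
    rw [h, map_zero]
  filter_upwards [(M.diag Z D hz).main (toHT z) h1] with n hn
  obtain ⟨w, hw⟩ := hn
  change MP_16fe43_al.K1 (grMap Z.subtype).range at w
  -- the group ring of `Z` is the subring
  have hinj : Function.Injective (grMap Z.subtype) :=
    MonoidAlgebra.mapDomain_injective Subtype.coe_injective
  let e : IntGroupRing Z ≃+* (grMap Z.subtype).range :=
    RingEquiv.ofBijective (grMap Z.subtype).rangeRestrict
      ⟨fun a b hab => hinj (congrArg Subtype.val hab), RingHom.rangeRestrict_surjective _⟩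
  refine ⟨K1.map (e.symm : (grMap Z.subtype).range →+* IntGroupRing Z) (ofHT w), ?_⟩
  rw [← K1.map_comp]
  have he2 : (grMap Z.subtype).comp (e.symm : (grMap Z.subtype).range →+* IntGroupRing Z) =
      (grMap Z.subtype).range.subtype := by
    apply RingHom.ext
    intro x
    show ((e (e.symm x) : (grMap Z.subtype).range) : IntGroupRing K) = x
    rw [RingEquiv.apply_symm_apply]
  rw [he2, ← ofHT_toHT (K1.map _ _), toHT_map, toHT_ofHT]
  have hw' : MP_16fe43_al.K1.map (grMap Z.subtype).range.subtype w =
      ∑ x : D n, MP_16fe43_al.K1.map (grMap (M.coHom x)) (toHT z) := hw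
  rw [hw']
  rw [map_sum]
  apply Finset.sum_congr rfl
  intro x _
  rw [← toHT_map, ofHT_toHT]

/-- the truncation lemma for Whitehead groups -/
theorem cutWh {K₀ : Type w} [Group K₀] (Z : Subgroup K) (hZ : Subsingleton (Wh Z))
    (D : ℕ → Finset ℤ) (h0 : ∀ᶠ n in Filter.atTop, (0 : ℤ) ∈ D n)
    (hz : ∀ (g : C) (k : ℕ), ∀ᶠ n in Filter.atTop, ∀ x ∈ D n, nearB (D n) k x → M.co g x ∈ Z)
    (ι : K₀ →* C) (j : K₀ →* K) (hsh : ∀ g, M.sh (ι g) = 1) (hco0 : ∀ g, M.co (ι g) 0 = j g)
    (hco : ∀ g x, x ≠ 0 → M.co (ι g) x = 1) (x : K1 (IntGroupRing K₀))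
    (hx : K1.map (grMap ι) x ∈ trivialUnits C) : K1.map (grMap j) x ∈ trivialUnits K := by
  obtain ⟨g, ε, hg⟩ := mem_trivialUnits hx
  have hg1 : M.sh g = 1 := eq_one_of_det ι M.sh (by ext a; exact congrArg _ (hsh a)) x g ε hg
  let ι0 : K₀ →* M.C0 := ι.codRestrict M.C0 hsh
  let g0 : M.C0 := ⟨g, hg1⟩
  have h1 : K1.map (grMap M.C0.subtype) (K1.map (grMap ι0) x - K1.mk (tu g0 ε)) = 0 := by
    rw [map_sub, K1.map_grMap_comp, K1.map_mk, map_tu, sub_eq_zero]
    exact hg
  obtain ⟨n, hn, hn0⟩ := ((M.cut Z D hz _ h1).and h0).exists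
  simp only [map_sub] at hn
  rw [Finset.sum_sub_distrib] at hn
  obtain ⟨w, hw⟩ := hn
  have hw1 : K1.map (grMap Z.subtype) w ∈ trivialUnits K :=
    trivialUnits_map _ ((wh_subsingleton_iff Z).1 hZ w)
  have h2 : ∑ y : D n, K1.map (grMap (M.coHom y)) (K1.mk (tu g0 ε)) ∈ trivialUnits K := by
    apply AddSubgroup.sum_mem
    intro y _
    exact trivialUnits_map _ (tu_mem g0 ε)
  have h3 : ∑ y : D n, K1.map (grMap (M.coHom y)) (K1.map (grMap ι0) x) ∈ trivialUnits K := by
    have := AddSubgroup.add_mem _ hw1 h2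
    rwa [hw, sub_add_cancel] at this
  rw [← Finset.add_sum_erase Finset.univ _ (Finset.mem_univ (⟨0, hn0⟩ : D n))] at h3
  have h4 : ∑ y ∈ Finset.univ.erase (⟨0, hn0⟩ : D n),
      K1.map (grMap (M.coHom y)) (K1.map (grMap ι0) x) ∈ trivialUnits K := by
    apply AddSubgroup.sum_mem
    intro y hy
    have hy0 : (y : ℤ) ≠ 0 := by
      intro h
      exact (Finset.mem_erase.1 hy).1 (Subtype.ext h)
    rw [K1.map_grMap_comp]
    have : (M.coHom y).comp ι0 = Z.subtype.comp (1 : K₀ →* Z) := by
      ext a
      exact hco a y hy0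
    rw [this, ← K1.map_grMap_comp]
    exact trivialUnits_map _ ((wh_subsingleton_iff Z).1 hZ _)
  have h5 := AddSubgroup.sub_mem _ h3 h4
  rw [add_sub_cancel_right, K1.map_grMap_comp] at h5
  have : (M.coHom (((⟨0, hn0⟩ : D n) : ℤ))).comp ι0 = j := by
    ext a
    exact hco0 a
  rwa [this] at h5

end MonRep

end

end Pool.Agent.Lib.BHS16
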