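import Pool.Agent.Lib.MP_16fe43_al.Wreath

/-!
# Vanishing of the shift Nil groups
-/

set_option autoImplicit false

universe u v w

namespace Pool.Agent.Lib.MP_16fe43_al

open MonoidAlgebra
open Matrix (fromBlocks fromRows fromCols)

section general

variable {R : Type u} {S : Type v} [Ring R] [Ring S] (T : Tw R S)

/-- the element `ν t` -/
noncomputable def Tw.nt {ι : Type w} [Fintype ι] [DecidableEq ι] (ν : Matrix ι ι R) :
    Matrix ι ι S :=
  ν.map T.j * (((T.mat ι).t : (Matrix ι ι S)ˣ) : Matrix ι ι S)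

theorem nilpotent_swap {ι κ : Type*} [Fintype ι] [DecidableEq ι] [Fintype κ]
    [DecidableEq κ] (X : Matrix ι κ S) (Y : Matrix κ ι S) (h : IsNilpotent (X * Y)) :
    IsNilpotent (Y * X) := by
  obtain ⟨n, hn⟩ := h
  refine ⟨n + 1, ?_⟩
  have h1 : ∀ n : ℕ, (Y * X) ^ (n + 1) = Y * (X * Y) ^ n * X := by
    intro n
    induction n with
    | zero => simp
    | succ n ih =>
      rw [pow_succ, ih, pow_succ]
      simp only [Matrix.mul_assoc]
  rw [h1, hn, Matrix.mul_zero, Matrix.zero_mul]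

theorem Tw.cm_swap {ι κ : Type w} [Fintype ι] [DecidableEq ι] [Fintype κ]
    [DecidableEq κ] (X : Matrix ι κ R) (Y : Matrix κ ι R) :
    cm (1 + T.nt (X * Y)) = cm (1 + T.nt (Y * X.map T.φ)) ∧
    (IsNilpotent (T.nt (X * Y)) → IsNilpotent (T.nt (Y * X.map T.φ))) := by
  have h1 : T.nt (X * Y) = X.map T.j * (Y.map T.j *
      (((T.mat ι).t : (Matrix ι ι S)ˣ) : Matrix ι ι S)) := by
    unfold Tw.nt
    rw [Matrix.map_mul, Matrix.mul_assoc]
  have h2 : T.nt (Y * X.map T.φ) = (Y.map T.j *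
      (((T.mat ι).t : (Matrix ι ι S)ˣ) : Matrix ι ι S)) * X.map T.j := by
    unfold Tw.nt
    rw [Matrix.map_mul, Matrix.mul_assoc, Matrix.mul_assoc, T.t_mul_map]
  refine ⟨?_, ?_⟩
  · rw [h1, h2]
    have := cm_one_sub_mul_comm (-(X.map T.j)) (Y.map T.j *
      (((T.mat ι).t : (Matrix ι ι S)ˣ) : Matrix ι ι S))
    rw [Matrix.neg_mul, Matrix.mul_neg, sub_neg_eq_add, sub_neg_eq_add] at this
    exact this
  · intro h
    rw [h1] at h
    rw [h2]
    exact nilpotent_swap _ _ h

end general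

section

variable (k : Type v) [Ring k] (H : Type u) [Group H]

/-- the twisted Laurent structure on `k[H ≀ ℤ]` -/
noncomputable abbrev TW : Tw (MonoidAlgebra k (FS H)) (MonoidAlgebra k (Wr H)) :=
  twS k (FS H) (shift H)

variable {k H}

/-- supports of matrices -/
def SupM {ι κ : Type*} (K : Subgroup (FS H)) (ν : Matrix ι κ (MonoidAlgebra k (FS H))) : Prop :=
  ∀ i j, Sup K (ν i j)

theorem SupM.mul {ι κ τ : Type*} [Fintype κ] {K : Subgroup (FS H)}
    {A : Matrix ι κ (MonoidAlgebra k (FS H))} {B : Matrix κ τ (MonoidAlgebra k (FS H))}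
    (hA : SupM K A) (hB : SupM K B) : SupM K (A * B) := by
  intro i j
  rw [Matrix.mul_apply]
  exact Sup.sum _ _ fun l _ => (hA i l).mul (hB l j)

theorem SupM.mono {ι κ : Type*} {K K' : Subgroup (FS H)} (h : K ≤ K')
    {A : Matrix ι κ (MonoidAlgebra k (FS H))} (hA : SupM K A) : SupM K' A :=
  fun i j => (hA i j).mono h

/-- scalar matrices -/
noncomputable def intM {ι κ : Type*} (A : Matrix ι κ k) : Matrix ι κ (MonoidAlgebra k (FS H)) :=
  A.map (MonoidAlgebra.singleOneRingHom (R := k) (M := FS H))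

theorem supM_intM {ι κ : Type*} (K : Subgroup (FS H)) (A : Matrix ι κ k) :
    SupM K (intM (H := H) A) := fun _ _ => Sup.single K.one_mem _

theorem φ_eq (r : MonoidAlgebra k (FS H)) :
    (TW k H).φ r = mapDomainRingHom k ((shift H : FS H ≃* FS H) : FS H →* FS H) r := rfl

theorem sup_φ {s s' : Set ℤ} (hs : ∀ i, i ∉ s' → i - 1 ∉ s) {r : MonoidAlgebra k (FS H)}
    (hr : Sup (KS H s) r) : Sup (KS H s') ((TW k H).φ r) := by
  rw [φ_eq]
  refine Sup.map _ ?_ hr
  intro l hl i hi
  exact hl (i - 1) (hs i hi)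

theorem supM_φ {ι κ : Type*} {s s' : Set ℤ} (hs : ∀ i, i ∉ s' → i - 1 ∉ s)
    {A : Matrix ι κ (MonoidAlgebra k (FS H))} (hA : SupM (KS H s) A) :
    SupM (KS H s') (A.map (TW k H).φ) := fun i j => sup_φ hs (hA i j)

theorem exists_windowM {ι κ : Type*} [Finite ι] [Finite κ]
    (A : Matrix ι κ (MonoidAlgebra k (FS H))) :
    ∃ w : ℕ, SupM (KS H (Set.Icc (-(w : ℤ)) w)) A := by
  classical
  have := Fintype.ofFinite ι
  have := Fintype.ofFinite κ
  choose W hW using fun f : FS H => exists_window f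
  refine ⟨∑ i, ∑ j, ∑ f ∈ (A i j).coeff.support, W f, fun i j f hf => ?_⟩
  refine KS_mono ?_ (hW f)
  have h1 : W f ≤ ∑ f ∈ (A i j).coeff.support, W f :=
    Finset.single_le_sum (f := W) (fun _ _ => Nat.zero_le _) (Finsupp.mem_support_iff.2 hf)
  have h2 : ∑ f ∈ (A i j).coeff.support, W f ≤ ∑ j, ∑ f ∈ (A i j).coeff.support, W f :=
    Finset.single_le_sum (f := fun j => ∑ f ∈ (A i j).coeff.support, W f)
      (fun _ _ => Nat.zero_le _) (Finset.mem_univ j)
  have h3 : ∑ j, ∑ f ∈ (A i j).coeff.support, W f ≤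
      ∑ i, ∑ j, ∑ f ∈ (A i j).coeff.support, W f :=
    Finset.single_le_sum (f := fun i => ∑ j, ∑ f ∈ (A i j).coeff.support, W f)
      (fun _ _ => Nat.zero_le _) (Finset.mem_univ i)
  have h4 : W f ≤ ∑ i, ∑ j, ∑ f ∈ (A i j).coeff.support, W f := h1.trans (h2.trans h3)
  refine Set.Icc_subset_Icc ?_ ?_
  · have : (W f : ℤ) ≤ (∑ i, ∑ j, ∑ f ∈ (A i j).coeff.support, W f : ℕ) := by exact_mod_cast h4
    omega
  · exact_mod_cast h4

/-- the recoding step -/
theorem width_step {ι : Type} [Fintype ι] [DecidableEq ι] {a b : ℤ} (hab : a ≤ b)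
    (ν : Matrix ι ι (MonoidAlgebra k (FS H))) (hν : SupM (KS H (Set.Icc a (b + 1))) ν) :
    ∃ (κ : Type) (_ : Fintype κ) (_ : DecidableEq κ) (ν' : Matrix κ κ (MonoidAlgebra k (FS H))),
      SupM (KS H (Set.Icc (a + 1) (b + 1))) ν' ∧
      cm (1 + (TW k H).nt ν) = cm (1 + (TW k H).nt ν') ∧
      (IsNilpotent ((TW k H).nt ν) → IsNilpotent ((TW k H).nt ν')) := by
  classical
  let Fs : Finset (FS H) := Finset.univ.biUnion fun i => Finset.univ.biUnion fun j =>
    (ν i j).coeff.support
  let e : Fs ≃ Fin Fs.card := Fs.equivFin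
  let X : Matrix ι (ι × Fin Fs.card) (MonoidAlgebra k (FS H)) := fun i p =>
    MonoidAlgebra.single (tr (Set.Icc a b) (e.symm p.2).1) ((ν i p.1).coeff (e.symm p.2).1)
  let Y : Matrix (ι × Fin Fs.card) ι (MonoidAlgebra k (FS H)) := fun p j =>
    if p.1 = j then MonoidAlgebra.single (tr {b + 1} (e.symm p.2).1) 1 else 0
  have hXY : ν = X * Y := by
    ext1 i j
    rw [Matrix.mul_apply, Fintype.sum_prod_type]
    have h1 : ∀ x : ι, ∑ y : Fin Fs.card, X i (x, y) * Y (x, y) j =
        if x = j then ∑ y : Fin Fs.card, X i (x, y) *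
          MonoidAlgebra.single (tr {b + 1} (e.symm y).1) 1 else 0 := by
      intro x
      by_cases hx : x = j
      · rw [if_pos hx]
        refine Finset.sum_congr rfl fun y _ => ?_
        show X i (x, y) * (if x = j then _ else 0) = _
        rw [if_pos hx]
      · rw [if_neg hx]
        refine Finset.sum_eq_zero fun y _ => ?_
        show X i (x, y) * (if x = j then _ else 0) = _
        rw [if_neg hx, mul_zero]
    rw [Finset.sum_congr rfl fun x _ => h1 x, Finset.sum_ite_eq' Finset.univ j,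
      if_pos (Finset.mem_univ j)]
    have h2 : ∑ y : Fin Fs.card, X i (j, y) * MonoidAlgebra.single (tr {b + 1} (e.symm y).1) 1 =
        ∑ f : Fs, MonoidAlgebra.single (tr (Set.Icc a b) f.1 * tr {b + 1} f.1)
          ((ν i j).coeff f.1) := by
      rw [← Equiv.sum_comp e.symm]
      refine Finset.sum_congr rfl fun y _ => ?_
      show MonoidAlgebra.single _ _ * MonoidAlgebra.single _ _ = _
      rw [single_mul_single, mul_one]
    rw [h2, Finset.sum_coe_sort Fs (fun f : FS H => (MonoidAlgebra.single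
      (tr (Set.Icc a b) f * tr {b + 1} f) ((ν i j).coeff f) : MonoidAlgebra k (FS H)))]
    have h3 : ν i j = ∑ f ∈ (ν i j).coeff.support, MonoidAlgebra.single f ((ν i j).coeff f) := by
      conv_lhs => rw [← sum_coeff_single (ν i j)]
      rfl
    have h4 : ∑ f ∈ (ν i j).coeff.support, MonoidAlgebra.single f ((ν i j).coeff f) =
        ∑ f ∈ (ν i j).coeff.support, MonoidAlgebra.single
      (tr (Set.Icc a b) f * tr {b + 1} f) ((ν i j).coeff f) := by
      refine Finset.sum_congr rfl fun f hf => ?_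
      congr 1
      have hf' := hν i j f (Finsupp.mem_support_iff.1 hf)
      apply Subtype.ext
      funext x
      show f.1 x = (tr (Set.Icc a b) f).1 x * (tr {b + 1} f).1 x
      by_cases hx1 : x ∈ Set.Icc a b
      · have hx2 : x ∉ ({b + 1} : Set ℤ) := by
          intro h
          rw [Set.mem_singleton_iff] at h
          rw [Set.mem_Icc] at hx1
          omega
        rw [tr_mem hx1, tr_not_mem hx2, mul_one]
      · by_cases hx2 : x ∈ ({b + 1} : Set ℤ)
        · rw [tr_not_mem hx1, tr_mem hx2, one_mul]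
        · rw [tr_not_mem hx1, tr_not_mem hx2, mul_one]
          refine hf' x ?_
          intro hx3
          rw [Set.mem_Icc] at hx1 hx3
          rw [Set.mem_singleton_iff] at hx2
          omega
    refine (h3.trans h4).trans (Finset.sum_subset ?_ ?_)
    · intro f hf
      simp only [Fs, Finset.mem_biUnion, Finset.mem_univ, true_and]
      exact ⟨i, j, hf⟩
    · intro f _ hf
      rw [Finsupp.notMem_support_iff.1 hf, single_zero]
  have hswap := (TW k H).cm_swap X Y
  rw [← hXY] at hswap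
  refine ⟨ι × Fin Fs.card, inferInstance, inferInstance, Y * X.map (TW k H).φ, ?_, hswap.1, hswap.2⟩
  refine SupM.mul ?_ (supM_φ (s := Set.Icc a b) ?_ ?_)
  · intro p j
    show Sup _ (if p.1 = j then _ else 0)
    split_ifs
    · refine Sup.single (KS_mono ?_ (tr_mem_KS _ _)) _
      intro x hx
      rw [Set.mem_singleton_iff] at hx
      rw [Set.mem_Icc]
      omega
    · exact Sup.zero
  · intro i hi h
    apply hi
    rw [Set.mem_Icc] at h ⊢
    omega
  · intro i p
    exact Sup.single (tr_mem_KS _ _) _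

end

end Pool.Agent.Lib.MP_16fe43_al
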