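import Pool.Agent.Lib.MP_16fe43_al.Nil

/-!
# Vanishing of the shift Nil groups (width zero and main theorem)
-/

set_option autoImplicit false

universe u v w

namespace Pool.Agent.Lib.MP_16fe43_al

open MonoidAlgebra
open Matrix (fromBlocks fromRows fromCols)

variable {k : Type v} [Ring k] {H : Type u} [Group H]

theorem coeff_mul_sep {a : ℤ} {r s : MonoidAlgebra k (FS H)} (hr : Sup (KS H {a}) r)
    (hs : Sup (KS H (Set.Ici (a + 1))) s) {f g : FS H} (hf : f ∈ KS H {a})
    (hg : g ∈ KS H (Set.Ici (a + 1))) : (r * s).coeff (f * g) = r.coeff f * s.coeff g := by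
  classical
  have hdis : ∀ i ∈ ({a} : Set ℤ), i ∉ Set.Ici (a + 1) := by
    intro i hi h
    rw [Set.mem_singleton_iff] at hi
    rw [Set.mem_Ici] at h
    omega
  rw [coeff_mul, Finsupp.sum_eq_single f]
  · rw [Finsupp.sum_eq_single g]
    · rw [if_pos rfl]
    · intro g' _ hg'
      rw [if_neg]
      intro h
      exact hg' (mul_left_cancel h)
    · intro h
      simp
  · intro f' hf' hne
    refine Finset.sum_eq_zero fun g' hg' => ?_
    refine if_neg ?_
    intro h
    apply hne
    have h2 := congrArg (tr ({a} : Set ℤ)) h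
    rw [map_mul, map_mul, tr_of_mem (hr f' hf'), tr_of_mem hf,
      tr_of_disjoint hdis (hs g' (Finsupp.mem_support_iff.1 hg')), tr_of_disjoint hdis hg,
      mul_one, mul_one] at h2
    exact h2
  · intro h
    refine Finset.sum_eq_zero fun g' _ => ?_
    simp

theorem intM_mul_coeff {ι κ τ : Type*} [Fintype κ] (ν : Matrix ι κ (MonoidAlgebra k (FS H)))
    (A : Matrix κ τ k) (i : ι) (j : τ) (f : FS H) :
    ((ν * intM (H := H) A : Matrix ι τ (MonoidAlgebra k (FS H))) i j).coeff f =
      ∑ l, (ν i l).coeff f * A l j := by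
  rw [Matrix.mul_apply, coeff_sum, Finsupp.finsetSum_apply]
  refine Finset.sum_congr rfl fun l _ => ?_
  exact coeff_mul_single_one _ _ _

theorem intM_mul {ι κ τ : Type*} [Fintype κ] (A : Matrix ι κ k) (B : Matrix κ τ k) :
    (intM (H := H) A * intM (H := H) B : Matrix ι τ (MonoidAlgebra k (FS H))) =
      intM (H := H) (A * B) :=
  (Matrix.map_mul (f := (MonoidAlgebra.singleOneRingHom (R := k) (M := FS H)))).symm

theorem width_zero (n : ℕ) : ∀ (a : ℤ) (ν : Matrix (Fin n) (Fin n) (MonoidAlgebra ℤ (FS H))),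
    SupM (KS H {a}) ν → IsNilpotent ((TW ℤ H).nt ν) → cm (1 + (TW ℤ H).nt ν) = 0 := by
  induction n using Nat.strong_induction_on with
  | _ n ih =>
  intro a ν hν hnil
  rcases Nat.eq_zero_or_pos n with hn | hn
  · subst hn
    have : 1 + (TW ℤ H).nt ν = 1 := Subsingleton.elim _ _
    rw [this, cm_one]
  · have : Nonempty (Fin n) := ⟨⟨0, hn⟩⟩
    set T := (TW ℤ H).mat (Fin n) with hT
    set Z := (TW ℤ H).nt ν with hZ
    have hZ' : Z = T.j ν * (T.t : Matrix (Fin n) (Fin n) (MonoidAlgebra ℤ (Wr H))) := rfl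
    -- the last nonzero power
    classical
    have hex : ∃ q, Z ^ q = 0 := hnil
    set q := Nat.find hex with hq
    have hqs : Z ^ q = 0 := Nat.find_spec hex
    have hq0 : q ≠ 0 := by
      intro h
      rw [h, pow_zero] at hqs
      exact one_ne_zero hqs
    obtain ⟨p, hp⟩ : ∃ p, q = p + 1 := ⟨q - 1, by omega⟩
    have hM0 : Z ^ p ≠ 0 := Nat.find_min hex (by omega)
    have hZM : Z * Z ^ p = 0 := by rw [← pow_succ', ← hp, hqs]
    -- supports of the powers
    have hsup : ∀ (m : ℕ) (i : ℤ), SupM (KS H (Set.Ici a)) (T.co i (Z ^ m)) := by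
      intro m
      induction m with
      | zero =>
        intro i
        rw [pow_zero, T.co_one]
        split_ifs
        · intro x y
          rw [Matrix.one_apply]
          split_ifs
          · exact Sup.single (Subgroup.one_mem _) 1
          · exact Sup.zero
        · intro x y
          exact Sup.zero
      | succ m ihm =>
        intro i
        rw [pow_succ', hZ', mul_assoc, T.co_j_mul]
        have h1 : T.co i ((T.t : Matrix (Fin n) (Fin n) (MonoidAlgebra ℤ (Wr H))) *
            (T.j ν * (T.t : Matrix (Fin n) (Fin n) (MonoidAlgebra ℤ (Wr H)))) ^ m) =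
            (T.co (i - 1) (Z ^ m)).map (TW ℤ H).φ := by
          have := T.co_zpow_mul i 1 (Z ^ m)
          simp only [zpow_one] at this
          exact this
        rw [h1]
        refine SupM.mul (hν.mono (KS_mono ?_)) (supM_φ (s := Set.Ici a) ?_ (ihm (i - 1)))
        · intro x hx
          rw [Set.mem_singleton_iff] at hx
          rw [hx]
          exact Set.mem_Ici.2 le_rfl
        · intro x hx hx2
          apply hx
          rw [Set.mem_Ici] at hx2 ⊢
          omega
    obtain ⟨m, hm⟩ : ∃ m, T.co m (Z ^ p) ≠ 0 := by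
      by_contra h
      push Not at h
      apply hM0
      refine T.ext_co fun i => ?_
      rw [h i, map_zero]
    set C := T.co m (Z ^ p) with hC
    set D : Matrix (Fin n) (Fin n) (MonoidAlgebra ℤ (FS H)) := C.map (TW ℤ H).φ with hD
    have hνD : ν * D = 0 := by
      have h1 := congrArg (T.co (m + 1)) hZM
      rw [map_zero, hZ', mul_assoc, T.co_j_mul] at h1
      have h2 : T.co (m + 1) ((T.t : Matrix (Fin n) (Fin n) (MonoidAlgebra ℤ (Wr H))) *
            (T.j ν * (T.t : Matrix (Fin n) (Fin n) (MonoidAlgebra ℤ (Wr H)))) ^ p) = D := by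
        have := T.co_zpow_mul (m + 1) 1 (Z ^ p)
        simp only [zpow_one, add_sub_cancel_right] at this
        exact this
      rwa [h2] at h1
    have hDs : SupM (KS H (Set.Ici (a + 1))) D := by
      refine supM_φ (s := Set.Ici a) ?_ (hsup p m)
      intro x hx hx2
      apply hx
      rw [Set.mem_Ici] at hx2 ⊢
      omega
    obtain ⟨i0, l0, hD0⟩ : ∃ i0 l0, D i0 l0 ≠ 0 := by
      by_contra h
      push Not at h
      apply hm
      ext1 x y
      have := h x y
      rw [hD, Matrix.map_apply] at this
      exact (map_eq_zero_iff _ (TW ℤ H).φ.injective).1 this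
    obtain ⟨g, hg⟩ : ∃ g, (D i0 l0).coeff g ≠ 0 := by
      by_contra h
      push Not at h
      apply hD0
      ext g
      exact h g
    have hgK : g ∈ KS H (Set.Ici (a + 1)) := hDs i0 l0 g hg
    -- the linear map
    let Φ : (Fin n → ℤ) →ₗ[ℤ] (FS H → Fin n → ℤ) := LinearMap.pi fun f =>
      Matrix.toLin' (Matrix.of fun i j => (ν i j).coeff f)
    have hΦ : ∀ x f i, Φ x f i = ∑ j, (ν i j).coeff f * x j := by
      intro x f i
      show (Matrix.toLin' (Matrix.of fun i j => (ν i j).coeff f)) x i = _
      rw [Matrix.toLin'_apply]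
      rfl
    let v0 : Fin n → ℤ := fun j => (D j l0).coeff g
    have hv0 : v0 ≠ 0 := fun h => hg (congrFun h i0)
    have hv0k : v0 ∈ LinearMap.ker Φ := by
      rw [LinearMap.mem_ker]
      funext f i
      rw [hΦ]
      show ∑ j, (ν i j).coeff f * (D j l0).coeff g = 0
      by_cases hf : f ∈ KS H {a}
      · have h1 := congrFun (congrFun hνD i) l0
        rw [Matrix.mul_apply] at h1
        have h2 : (∑ j, ν i j * D j l0).coeff (f * g) = 0 := by rw [h1]; rfl
        rw [coeff_sum, Finsupp.finsetSum_apply] at h2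
        rw [← h2]
        refine Finset.sum_congr rfl fun j _ => ?_
        rw [coeff_mul_sep (hν i j) (hDs j l0) hf hgK]
      · refine Finset.sum_eq_zero fun j _ => ?_
        have : (ν i j).coeff f = 0 := by
          by_contra h
          exact hf (hν i j f h)
        rw [this, zero_mul]
    -- the image is free of smaller rank
    let b := Module.finBasis ℤ (LinearMap.range Φ)
    have hrank : Module.finrank ℤ (LinearMap.range Φ) < n := by
      have h0 := Submodule.finrank_quotient_add_finrank (LinearMap.ker Φ)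
      have h1 := Φ.quotKerEquivRange.finrank_eq
      have h2 : 0 < Module.finrank ℤ (LinearMap.ker Φ) := by
        rw [Module.finrank_pos_iff_exists_ne_zero]
        exact ⟨⟨v0, hv0k⟩, fun h => hv0 (congrArg Subtype.val h)⟩
      rw [Module.finrank_fin_fun] at h0
      omega
    obtain ⟨σ, hσ⟩ := Module.projective_lifting_property Φ.rangeRestrict
      (LinearMap.id : LinearMap.range Φ →ₗ[ℤ] LinearMap.range Φ) Φ.surjective_rangeRestrict
    set Pm : Matrix (Fin (Module.finrank ℤ (LinearMap.range Φ))) (Fin n) ℤ :=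
      LinearMap.toMatrix (Pi.basisFun ℤ (Fin n)) b Φ.rangeRestrict with hPm
    set Sm : Matrix (Fin n) (Fin (Module.finrank ℤ (LinearMap.range Φ))) ℤ :=
      LinearMap.toMatrix b (Pi.basisFun ℤ (Fin n)) σ with hSm
    have hSP : Sm * Pm = LinearMap.toMatrix' (σ ∘ₗ Φ.rangeRestrict) := by
      rw [hSm, hPm, ← LinearMap.toMatrix_comp, LinearMap.toMatrix_eq_toMatrix']
    have hfac : ν = ((ν * intM (H := H) Sm : Matrix (Fin n) (Fin (Module.finrank ℤ
        (LinearMap.range Φ))) (MonoidAlgebra ℤ (FS H))) *
        intM (H := H) Pm : Matrix (Fin n) (Fin n) (MonoidAlgebra ℤ (FS H))) := by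
      rw [Matrix.mul_assoc, intM_mul]
      ext i j f
      rw [intM_mul_coeff, hSP]
      have h2 : ∀ x, Φ (σ (Φ.rangeRestrict x)) = Φ x := by
        intro x
        have h3 : Φ.rangeRestrict (σ (Φ.rangeRestrict x)) = Φ.rangeRestrict x :=
          DFunLike.congr_fun hσ (Φ.rangeRestrict x)
        exact congrArg Subtype.val h3
      have h4 := congrFun (congrFun (h2 (Pi.single j 1)) f) i
      rw [hΦ, hΦ] at h4
      have h5 : ∑ j', (ν i j').coeff f * (Pi.single j (1 : ℤ) : Fin n → ℤ) j' =
          (ν i j).coeff f := by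
        rw [Finset.sum_eq_single j]
        · simp
        · intro b _ hb
          simp [hb]
        · intro h
          exact absurd (Finset.mem_univ j) h
      rw [h5] at h4
      rw [← h4]
      refine Finset.sum_congr rfl fun l _ => ?_
      rw [LinearMap.toMatrix'_apply]
      rfl
    have hswap := (TW ℤ H).cm_swap (ν * intM (H := H) Sm) (intM (H := H) Pm)
    rw [← hfac] at hswap
    refine hswap.1.trans (ih _ hrank (a + 1) _ ?_ (hswap.2 hnil))
    refine SupM.mul (supM_intM _ _) (supM_φ (s := ({a} : Set ℤ)) ?_ (SupM.mul hν (supM_intM _ _)))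
    intro x hx hx2
    apply hx
    rw [Set.mem_singleton_iff] at hx2 ⊢
    omega

end Pool.Agent.Lib.MP_16fe43_al
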