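import Pool.Agent.Lib.MP_16fe43_al.NilFree

/-!
# Unipotent classes that are trivial units vanish
-/

set_option autoImplicit false

universe u v w

namespace Pool.Agent.Lib.MP_16fe43_al

open MonoidAlgebra
open Matrix (fromBlocks)

section det

variable {R : Type u} [CommRing R]

/-- the determinant on `K₁` -/
noncomputable def K1.det : K1 R →+ Additive Rˣ :=
  K1.liftc (fun _ A => Additive.ofMul (Units.map Matrix.detMonoidHom A))
    (fun _ A B => by rw [map_mul]; rfl)
    (fun n m A => by
      congr 1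
      apply Units.ext
      show Matrix.det (Matrix.reindex finSumFinEquiv finSumFinEquiv
        (fromBlocks A.val 0 0 (1 : Matrix (Fin m) (Fin m) R))) = Matrix.det A.val
      rw [Matrix.det_reindex_self, Matrix.det_fromBlocks_zero₁₂, Matrix.det_one, mul_one])

/-- the determinant as an element of `R` -/
noncomputable def K1.dt (x : K1 R) : R := ((Additive.toMul (K1.det x) : Rˣ) : R)

theorem K1.dt_gen {n : ℕ} (A : (Matrix (Fin n) (Fin n) R)ˣ) :
    K1.dt (K1.gen A) = Matrix.det A.val := by
  unfold K1.dt K1.det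
  rw [K1.liftc_gen]
  rfl

theorem det_one_add_nilpotent {n : ℕ} {N : Matrix (Fin n) (Fin n) R} (hN : IsNilpotent N) :
    IsNilpotent (Matrix.det (1 + N) - 1) := by
  have h1 := Matrix.isNilpotent_charpoly_sub_pow_of_isNilpotent hN.neg
  have h2 := h1.map (Polynomial.evalRingHom (1 : R))
  have h3 : Polynomial.evalRingHom (1 : R) ((-N).charpoly - Polynomial.X ^ Fintype.card (Fin n)) =
      Matrix.det (1 + N) - 1 := by
    rw [map_sub, map_pow]
    simp only [Polynomial.coe_evalRingHom, Polynomial.eval_X, one_pow]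
    rw [Matrix.eval_charpoly]
    congr 2
    rw [sub_neg_eq_add]
    simp
  rwa [h3] at h2

end det

section unip

theorem pow_prime_eq_one {A : Type u} [CommGroup A] {g : A} {p : ℕ} [hp : Fact p.Prime]
    (h : IsNilpotent ((single g 1 : MonoidAlgebra ℤ A) - 1)) : ∃ r : ℕ, g ^ p ^ r = 1 := by
  obtain ⟨M, hM⟩ := h
  let f : MonoidAlgebra ℤ A →+* MonoidAlgebra (ZMod p) A :=
    MonoidAlgebra.mapRingHom A (Int.castRingHom (ZMod p))
  have h1 : ((single g 1 : MonoidAlgebra (ZMod p) A) - 1) ^ M = 0 := by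
    have h2 := congrArg f hM
    rw [map_zero, map_pow, map_sub, map_one] at h2
    have h3 : f (single g 1) = single g 1 := by simp [f]
    rwa [h3] at h2
  have hchar : CharP (MonoidAlgebra (ZMod p) A) p :=
    charP_of_injective_algebraMap (algebraMap (ZMod p) (MonoidAlgebra (ZMod p) A)).injective p
  have h2 : ((single g 1 : MonoidAlgebra (ZMod p) A) - 1) ^ p ^ M = 0 := by
    have hle : M ≤ p ^ M := (Nat.lt_pow_self hp.out.one_lt).le
    obtain ⟨c, hc⟩ := Nat.exists_eq_add_of_le hle
    rw [hc, pow_add, h1, zero_mul]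
  rw [sub_pow_char_pow, one_pow, sub_eq_zero, single_pow, one_pow] at h2
  refine ⟨M, ?_⟩
  have h3 : (single (g ^ p ^ M) 1 : MonoidAlgebra (ZMod p) A) = single 1 1 := h2
  have h4 := congrArg (fun z : MonoidAlgebra (ZMod p) A => z.coeff (g ^ p ^ M)) h3
  simp only [coeff_single, Finsupp.single_eq_same] at h4
  classical
  rw [Finsupp.single_apply] at h4
  by_contra h5
  rw [if_neg (fun h6 => h5 h6.symm)] at h4
  exact one_ne_zero h4

theorem trivial_of_nilpotent {A : Type u} [CommGroup A] {g : A} {ε : ℤˣ}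
    (h : IsNilpotent ((single g (ε : ℤ) : MonoidAlgebra ℤ A) - 1)) : g = 1 ∧ ε = 1 := by
  have hε : ε = 1 := by
    have h1 := h.map (aug ℤ A)
    rw [map_sub, aug_single, map_one] at h1
    have h2 : ((ε : ℤ) - 1) = 0 := h1.eq_zero
    apply Units.ext
    rw [sub_eq_zero] at h2
    exact h2
  subst hε
  have h' : IsNilpotent ((single g 1 : MonoidAlgebra ℤ A) - 1) := by
    simpa using h
  refine ⟨?_, rfl⟩
  obtain ⟨r, hr⟩ := pow_prime_eq_one (p := 2) h'
  obtain ⟨s, hs⟩ := pow_prime_eq_one (p := 3) h'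
  have h1 : orderOf g ∣ 2 ^ r := orderOf_dvd_of_pow_eq_one hr
  have h2 : orderOf g ∣ 3 ^ s := orderOf_dvd_of_pow_eq_one hs
  have h3 : Nat.Coprime (2 ^ r) (3 ^ s) := Nat.Coprime.pow r s (by norm_num)
  have h4 : orderOf g = 1 := Nat.eq_one_of_dvd_coprimes h3 h1 h2
  exact orderOf_eq_one_iff.1 h4

/-- the class homomorphism of group elements -/
noncomputable def trHom (G : Type u) [Group G] : G →* Multiplicative (K1 (MonoidAlgebra ℤ G)) where
  toFun g := Multiplicative.ofAdd (trC g 1)
  map_one' := by rw [trC_one]; rfl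
  map_mul' g g' := by
    have := trC_mul g g' 1 1
    rw [mul_one] at this
    rw [this]
    rfl

theorem trC_of_ab {G : Type u} [Group G] {g : G} (h : Abelianization.of g = 1) :
    trC g 1 = 0 := by
  have h1 := Abelianization.lift_apply_of (trHom G) g
  rw [h, map_one] at h1
  exact (congrArg Multiplicative.toAdd h1).symm

theorem unip_of_wh {G : Type u} [Group G] {n : ℕ} {N : Matrix (Fin n) (Fin n) (MonoidAlgebra ℤ G)}
    (hN : IsNilpotent N) (h : cm (1 + N) ∈ TU G) : cm (1 + N) = 0 := by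
  obtain ⟨g, ε, hg⟩ := mem_TU.1 h
  let α : MonoidAlgebra ℤ G →+* MonoidAlgebra ℤ (Abelianization G) :=
    mapDomainRingHom ℤ (Abelianization.of : G →* Abelianization G)
  have hU : IsUnit (1 + N) := hN.isUnit_one_add
  have h1 := congrArg (K1.map α) hg
  rw [K1.map_cm α hU, trC_map] at h1
  have hNα : IsNilpotent (N.map α) := hN.map α.mapMatrix
  have h2 : (1 + N).map α = 1 + N.map α := by
    rw [Matrix.map_add α (fun a b => map_add α a b), Tw.map_one_matrix]
  rw [h2] at h1
  have hUα : IsUnit (1 + N.map α) := hNα.isUnit_one_add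
  obtain ⟨V, hV⟩ := hUα
  rw [← hV, cm_val, cl_gen] at h1
  have h3 := congrArg K1.dt h1
  rw [K1.dt_gen, hV] at h3
  unfold trC at h3
  rw [K1.dt_gen, scU_val, Matrix.det_diagonal] at h3
  have h4 : (∏ _i : Fin 1, ((trU (Abelianization.of g) ε : (MonoidAlgebra ℤ
    (Abelianization G))ˣ) : MonoidAlgebra ℤ (Abelianization G))) =
      single (Abelianization.of g) (ε : ℤ) := by
    rw [Finset.prod_const]
    simp
    rfl
  rw [h4] at h3
  have h5 := det_one_add_nilpotent hNα
  rw [h3] at h5
  obtain ⟨h6, h7⟩ := trivial_of_nilpotent h5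
  rw [hg, h7]
  exact trC_of_ab h6

end unip

end Pool.Agent.Lib.MP_16fe43_al
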