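import Pool.Agent.Lib.MP_16fe43_al.StFree

/-!
# Width-zero Nil classes come from the group ring of a free group
-/

set_option autoImplicit false

universe u v w

namespace Pool.Agent.Lib.MP_16fe43_al

open MonoidAlgebra
open Matrix (fromBlocks)

section words

variable {k : Type v} [Ring k] {H : Type u} [Group H]

theorem sup_pow {n : ℕ} {a : ℤ} {ν : Matrix (Fin n) (Fin n) (MonoidAlgebra k (FS H))}
    (hν : SupM (KS H {a}) ν) (m : ℕ) : ∀ i : ℤ,
    SupM (KS H (Set.Ici a)) (((TW k H).mat (Fin n)).co i (((TW k H).nt ν) ^ m)) := by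
  set T := (TW k H).mat (Fin n) with hT
  have hZ' : (TW k H).nt ν = T.j ν * (T.t : Matrix (Fin n) (Fin n) (MonoidAlgebra k (Wr H))) := rfl
  induction m with
  | zero =>
    intro i
    rw [pow_zero, T.co_one]
    split_ifs
    · intro x y
      rw [Matrix.one_apply]
      split_ifs
      · exact Sup.single (Subgroup.one_mem _) 1
      · exact Sup.zero
    · intro x y
      exact Sup.zero
  | succ m ihm =>
    intro i
    rw [pow_succ', hZ', mul_assoc, T.co_j_mul]
    have h1 : T.co i ((T.t : Matrix (Fin n) (Fin n) (MonoidAlgebra k (Wr H))) *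
        (T.j ν * (T.t : Matrix (Fin n) (Fin n) (MonoidAlgebra k (Wr H)))) ^ m) =
        (T.co (i - 1) (((TW k H).nt ν) ^ m)).map (TW k H).φ := by
      have := T.co_zpow_mul i 1 (((TW k H).nt ν) ^ m)
      simp only [zpow_one] at this
      exact this
    rw [h1]
    refine SupM.mul (hν.mono (KS_mono ?_)) (supM_φ (s := Set.Ici a) ?_ (ihm (i - 1)))
    · intro x hx
      rw [Set.mem_singleton_iff] at hx
      rw [hx]
      exact Set.mem_Ici.2 le_rfl
    · intro x hx hx2
      apply hx
      rw [Set.mem_Ici] at hx2 ⊢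
      omega

theorem co_pow_succ {n : ℕ} (ν : Matrix (Fin n) (Fin n) (MonoidAlgebra k (FS H))) (m : ℕ) :
    ((TW k H).mat (Fin n)).co ((m + 1 : ℕ) : ℤ) (((TW k H).nt ν) ^ (m + 1)) =
      ν * (((TW k H).mat (Fin n)).co (m : ℤ) (((TW k H).nt ν) ^ m)).map (TW k H).φ := by
  set T := (TW k H).mat (Fin n) with hT
  have hZ' : (TW k H).nt ν = T.j ν * (T.t : Matrix (Fin n) (Fin n) (MonoidAlgebra k (Wr H))) := rfl
  rw [pow_succ', hZ', mul_assoc, T.co_j_mul]
  congr 1
  have := T.co_zpow_mul ((m + 1 : ℕ) : ℤ) 1 (((TW k H).nt ν) ^ m)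
  simp only [zpow_one] at this
  have h2 : ((m + 1 : ℕ) : ℤ) - 1 = m := by push_cast; ring
  rw [h2] at this
  exact this

theorem φ_coeff_shift (r : MonoidAlgebra k (FS H)) (g : FS H) :
    ((TW k H).φ r).coeff (shift H g) = r.coeff g := by
  induction r using MonoidAlgebra.induction_linear with
  | zero => simp
  | add x y hx hy => rw [map_add, coeff_add, coeff_add, Finsupp.add_apply, Finsupp.add_apply,
      hx, hy]
  | single l c =>
    classical
    have h1 : (TW k H).φ (single l c) = single (shift H l) c := by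
      rw [φ_eq]
      simp
    rw [h1, coeff_single, coeff_single, Finsupp.single_apply, Finsupp.single_apply]
    by_cases h : l = g
    · subst h; simp
    · rw [if_neg h, if_neg (fun h2 => h ((shift H).injective h2))]

variable {m : ℕ}

/-- the group element of a word -/
def wordEl (x : Fin m → FS H) : List (Fin m) → FS H
  | [] => 1
  | i :: l => x i * shift H (wordEl x l)

/-- the coefficient matrix -/
def cmat {n : ℕ} (ν : Matrix (Fin n) (Fin n) (MonoidAlgebra k (FS H))) (f : FS H) :
    Matrix (Fin n) (Fin n) k := fun p q => (ν p q).coeff f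

/-- the matrix of a word -/
def wordMat {n : ℕ} (ν : Matrix (Fin n) (Fin n) (MonoidAlgebra k (FS H))) (x : Fin m → FS H) :
    List (Fin m) → Matrix (Fin n) (Fin n) k
  | [] => 1
  | i :: l => cmat ν (x i) * wordMat ν x l

theorem wordMat_append {n : ℕ} (ν : Matrix (Fin n) (Fin n) (MonoidAlgebra k (FS H)))
    (x : Fin m → FS H) (l : List (Fin m)) (i : Fin m) :
    wordMat ν x (l ++ [i]) = wordMat ν x l * cmat ν (x i) := by
  induction l with
  | nil => simp [wordMat]
  | cons j l ih =>
    show cmat ν (x j) * wordMat ν x (l ++ [i]) = cmat ν (x j) * wordMat ν x l * cmat ν (x i)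
    rw [ih, Matrix.mul_assoc]

theorem wordEl_mem {a : ℤ} {x : Fin m → FS H} (hx : ∀ i, x i ∈ KS H {a}) (l : List (Fin m)) :
    wordEl x l ∈ KS H (Set.Ici a) := by
  induction l with
  | nil => exact Subgroup.one_mem _
  | cons i l ih =>
    refine Subgroup.mul_mem _ (KS_mono ?_ (hx i)) ?_
    · intro j hj
      rw [Set.mem_singleton_iff] at hj
      rw [hj]
      exact Set.mem_Ici.2 le_rfl
    · intro j hj
      show (wordEl x l).1 (j - 1) = 1
      apply ih
      rw [Set.mem_Ici] at hj ⊢
      omega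

theorem coeff_word {n : ℕ} {a : ℤ} {ν : Matrix (Fin n) (Fin n) (MonoidAlgebra k (FS H))}
    (hν : SupM (KS H {a}) ν) {x : Fin m → FS H} (hx : ∀ i, x i ∈ KS H {a}) (l : List (Fin m)) :
    ∀ p q, ((((TW k H).mat (Fin n)).co (l.length : ℤ) (((TW k H).nt ν) ^ l.length)) p q).coeff
      (wordEl x l) = wordMat ν x l p q := by
  induction l with
  | nil =>
    intro p q
    show ((((TW k H).mat (Fin n)).co (0 : ℤ) (((TW k H).nt ν) ^ 0)) p q).coeff
      (1 : FS H) = (1 : Matrix (Fin n) (Fin n) k) p q
    rw [pow_zero, Tw.co_one, if_pos rfl, Matrix.one_apply, Matrix.one_apply]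
    split_ifs
    · simp [MonoidAlgebra.one_def]
    · rfl
  | cons i l ih =>
    intro p q
    have h0 : (i :: l).length = l.length + 1 := rfl
    rw [h0, co_pow_succ, Matrix.mul_apply, coeff_sum, Finsupp.finsetSum_apply]
    show _ = (cmat ν (x i) * wordMat ν x l) p q
    rw [Matrix.mul_apply]
    refine Finset.sum_congr rfl fun r _ => ?_
    have hg : shift H (wordEl x l) ∈ KS H (Set.Ici (a + 1)) := by
      intro j hj
      show (wordEl x l).1 (j - 1) = 1
      apply wordEl_mem hx l
      rw [Set.mem_Ici] at hj ⊢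
      omega
    have hs : Sup (KS H (Set.Ici (a + 1)))
        (((((TW k H).mat (Fin n)).co (l.length : ℤ) (((TW k H).nt ν) ^ l.length)).map
          (TW k H).φ) r q) := by
      refine supM_φ (s := Set.Ici a) ?_ (sup_pow hν l.length (l.length : ℤ)) r q
      intro j hj hj2
      apply hj
      rw [Set.mem_Ici] at hj2 ⊢
      omega
    have h1 := coeff_mul_sep (hν p r) hs (hx i) hg
    show ((ν p r) * _).coeff (x i * shift H (wordEl x l)) = _
    rw [h1, Matrix.map_apply, φ_coeff_shift, ih r q]
    rfl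

/-- the lift of a width-zero matrix to the free group -/
noncomputable def frN {n : ℕ} (ν : Matrix (Fin n) (Fin n) (MonoidAlgebra k (FS H)))
    (x : Fin m → FS H) : Matrix (Fin n) (Fin n) (MonoidAlgebra k (FreeGroup (Fin m))) :=
  fun p q => ∑ i, single (FreeGroup.of i) ((ν p q).coeff (x i))

/-- constant matrices -/
noncomputable def cst1 {n : ℕ} (A : Matrix (Fin n) (Fin n) k) :
    Matrix (Fin n) (Fin n) (MonoidAlgebra k (FreeGroup (Fin m))) :=
  A.map (MonoidAlgebra.singleOneRingHom (R := k) (M := FreeGroup (Fin m)))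

theorem cst1_mul_frN {n : ℕ} (ν : Matrix (Fin n) (Fin n) (MonoidAlgebra k (FS H)))
    (x : Fin m → FS H) (A : Matrix (Fin n) (Fin n) k) :
    cst1 A * frN ν x = ∑ i, Matrix.diagonal (fun _ => (single (FreeGroup.of i) 1 :
      MonoidAlgebra k (FreeGroup (Fin m)))) * cst1 (A * cmat ν (x i)) := by
  ext1 p q
  rw [Matrix.mul_apply, Matrix.sum_apply]
  have h1 : ∀ i : Fin m, (Matrix.diagonal (fun _ => (single (FreeGroup.of i) 1 :
      MonoidAlgebra k (FreeGroup (Fin m)))) * cst1 (A * cmat ν (x i)) :
      Matrix (Fin n) (Fin n) (MonoidAlgebra k (FreeGroup (Fin m)))) p q =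
      ∑ r, single (FreeGroup.of i) (A p r * (ν r q).coeff (x i)) := by
    intro i
    rw [Matrix.diagonal_mul]
    show single (FreeGroup.of i) 1 * single 1 ((A * cmat ν (x i)) p q) = _
    rw [single_mul_single, one_mul, mul_one, Matrix.mul_apply]
    exact map_sum (singleAddHom (R := k) (FreeGroup.of i)) _ _
  rw [Finset.sum_congr rfl fun i _ => h1 i, Finset.sum_comm]
  refine Finset.sum_congr rfl fun r _ => ?_
  show single 1 (A p r) * ∑ i, single (FreeGroup.of i) ((ν r q).coeff (x i)) = _
  rw [Finset.mul_sum]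
  refine Finset.sum_congr rfl fun i _ => ?_
  rw [single_mul_single, one_mul]

theorem frN_nilpotent {n : ℕ} {a : ℤ} {ν : Matrix (Fin n) (Fin n) (MonoidAlgebra k (FS H))}
    (hν : SupM (KS H {a}) ν) {x : Fin m → FS H} (hx : ∀ i, x i ∈ KS H {a})
    (hnil : IsNilpotent ((TW k H).nt ν)) : IsNilpotent (frN ν x) := by
  obtain ⟨Q, hQ⟩ := hnil
  refine ⟨Q, ?_⟩
  have key : ∀ (q : ℕ) (l : List (Fin m)), l.length + q = Q →
      cst1 (wordMat ν x l) * (frN ν x) ^ q = 0 := by
    intro q
    induction q with
    | zero =>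
      intro l hl
      have h1 : wordMat ν x l = 0 := by
        ext1 p q
        rw [← coeff_word hν hx l p q]
        have : l.length = Q := by omega
        rw [this, hQ, map_zero]
        rfl
      rw [h1, pow_zero, mul_one]
      unfold cst1
      simp
    | succ q ih =>
      intro l hl
      rw [pow_succ', ← mul_assoc, cst1_mul_frN, Finset.sum_mul]
      refine Finset.sum_eq_zero fun i _ => ?_
      rw [← wordMat_append, mul_assoc, ih (l ++ [i]) (by rw [List.length_append]; simp; omega),
        mul_zero]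
  have h1 := key Q [] (by simp)
  have h2 : cst1 (m := m) (wordMat ν x []) = 1 := by
    show cst1 (1 : Matrix (Fin n) (Fin n) k) = 1
    exact Tw.map_one_matrix _
  rwa [h2, one_mul] at h1

/-- the homomorphism from the free group -/
noncomputable def frHom (x : Fin m → FS H) : FreeGroup (Fin m) →* Wr H :=
  FreeGroup.lift fun i => SemidirectProduct.inl (x i) * tG (FS H) (shift H)

theorem frN_map {n : ℕ} {ν : Matrix (Fin n) (Fin n) (MonoidAlgebra k (FS H))}
    {x : Fin m → FS H} (hxi : Function.Injective x)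
    (hxs : ∀ p q f, (ν p q).coeff f ≠ 0 → ∃ i, x i = f) :
    (frN ν x).map (mapDomainRingHom k (frHom x)) = (TW k H).nt ν := by
  classical
  unfold Tw.nt
  rw [Tw.mat_t_val]
  ext1 p q
  rw [Matrix.mul_diagonal, Matrix.map_apply, Matrix.map_apply]
  have h1 : ν p q = ∑ f ∈ (ν p q).coeff.support, MonoidAlgebra.single f ((ν p q).coeff f) := by
    conv_lhs => rw [← sum_coeff_single (ν p q)]
    rfl
  have h2 : ∀ f : FS H, ∀ c : k, (TW k H).j (single f c) * ((TW k H).t : MonoidAlgebra k (Wr H)) =
      single (SemidirectProduct.inl f * tG (FS H) (shift H)) c := by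
    intro f c
    show jS k (FS H) (shift H) (single f c) * single (tG (FS H) (shift H)) 1 = _
    rw [jS_single, single_mul_single, mul_one]
  have h3 : (TW k H).j (ν p q) * ((TW k H).t : MonoidAlgebra k (Wr H)) =
      ∑ f ∈ (ν p q).coeff.support, single (SemidirectProduct.inl f * tG (FS H) (shift H))
        ((ν p q).coeff f) := by
    conv_lhs => rw [h1]
    rw [map_sum, Finset.sum_mul]
    exact Finset.sum_congr rfl fun f _ => h2 f _
  rw [h3]
  unfold frN
  rw [map_sum]
  have h4 : ∀ i : Fin m, mapDomainRingHom k (frHom x) (single (FreeGroup.of i)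
      ((ν p q).coeff (x i))) = single (SemidirectProduct.inl (x i) * tG (FS H) (shift H))
        ((ν p q).coeff (x i)) := by
    intro i
    have : frHom x (FreeGroup.of i) = SemidirectProduct.inl (x i) * tG (FS H) (shift H) := by
      unfold frHom
      rw [FreeGroup.lift_apply_of]
    rw [← this]
    simp
  rw [Finset.sum_congr rfl fun i _ => h4 i]
  rw [← Finset.sum_image (f := fun f : FS H =>
    (single (SemidirectProduct.inl f * tG (FS H) (shift H)) ((ν p q).coeff f) :
      MonoidAlgebra k (Wr H))) (g := x) (s := Finset.univ) (fun i _ j _ h => hxi h)]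
  symm
  refine Finset.sum_subset ?_ ?_
  · intro f hf
    obtain ⟨i, rfl⟩ := hxs p q f (Finsupp.mem_support_iff.1 hf)
    exact Finset.mem_image_of_mem x (Finset.mem_univ i)
  · intro f _ hf
    rw [Finsupp.notMem_support_iff.1 hf, single_zero]

/-- the width-zero Nil classes vanish if the unipotent classes of free group rings do -/
theorem nilZero_of_free (h : ∀ (m n : ℕ) (N : Matrix (Fin n) (Fin n)
    (MonoidAlgebra k (FreeGroup (Fin m)))), IsNilpotent N → cm (1 + N) = 0) : NilZero k H := by
  classical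
  intro n a ν hν hnil
  let Fs : Finset (FS H) := Finset.univ.biUnion fun i => Finset.univ.biUnion fun j =>
    (ν i j).coeff.support
  let e : Fs ≃ Fin Fs.card := Fs.equivFin
  let x : Fin Fs.card → FS H := fun i => (e.symm i).1
  have hxi : Function.Injective x := fun i j hij => e.symm.injective (Subtype.ext hij)
  have hmem : ∀ p q f, (ν p q).coeff f ≠ 0 → f ∈ Fs := by
    intro p q f hf
    simp only [Fs, Finset.mem_biUnion, Finset.mem_univ, true_and]
    exact ⟨p, q, Finsupp.mem_support_iff.2 hf⟩
  have hxs : ∀ p q f, (ν p q).coeff f ≠ 0 → ∃ i, x i = f := by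
    intro p q f hf
    refine ⟨e ⟨f, hmem p q f hf⟩, ?_⟩
    show (e.symm (e ⟨f, hmem p q f hf⟩)).1 = f
    rw [Equiv.symm_apply_apply]
  have hx : ∀ i, x i ∈ KS H {a} := by
    intro i
    have h1 := (e.symm i).2
    simp only [Fs, Finset.mem_biUnion, Finset.mem_univ, true_and] at h1
    obtain ⟨p, q, h2⟩ := h1
    exact hν p q _ (Finsupp.mem_support_iff.1 h2)
  have h1 := frN_nilpotent hν hx hnil
  have h2 := h _ n (frN ν x) h1
  have h3 : (1 : Matrix (Fin n) (Fin n) (MonoidAlgebra k (Wr H))) + (TW k H).nt ν =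
      (1 + frN ν x).map (mapDomainRingHom k (frHom x)) := by
    rw [Matrix.map_add _ (fun a b => map_add _ a b), frN_map hxi hxs, Tw.map_one_matrix]
  rw [h3, ← K1.map_cm _ h1.isUnit_one_add, h2, map_zero]

end words

end Pool.Agent.Lib.MP_16fe43_al
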