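import Pool.Agent.Lib.MP_16fe43_al.K0Class

set_option autoImplicit false
set_option linter.unusedSectionVars false

/-!
# Right linear operators on `R^(ℤ)` and classes of finite idempotent operators
-/

namespace Pool.Agent.Lib.BHS16

universe u

noncomputable section

variable {R : Type u} [Ring R]

/-- Right `R`-linear endomorphisms of `R^(ℤ)`. -/
def Op (R : Type u) [Ring R] : Type u := Module.End Rᵐᵒᵖ (ℤ →₀ R)

instance (R : Type u) [Ring R] : Ring (Op R) :=
  inferInstanceAs (Ring (Module.End Rᵐᵒᵖ (ℤ →₀ R)))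

instance (R : Type u) [Ring R] : FunLike (Op R) (ℤ →₀ R) (ℤ →₀ R) :=
  inferInstanceAs (FunLike (Module.End Rᵐᵒᵖ (ℤ →₀ R)) (ℤ →₀ R) (ℤ →₀ R))

instance (R : Type u) [Ring R] : LinearMapClass (Op R) Rᵐᵒᵖ (ℤ →₀ R) (ℤ →₀ R) :=
  inferInstanceAs (LinearMapClass (Module.End Rᵐᵒᵖ (ℤ →₀ R)) Rᵐᵒᵖ (ℤ →₀ R) (ℤ →₀ R))

/-- Constructor of operators. -/
def Op.of (f : (ℤ →₀ R) →ₗ[Rᵐᵒᵖ] (ℤ →₀ R)) : Op R := f

/-- The matrix entries of an operator. -/
def ent (x : Op R) (a b : ℤ) : R := x (Finsupp.single b 1) a

theorem op_single (b : ℤ) (r : R) :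
    (Finsupp.single b r : ℤ →₀ R) = MulOpposite.op r • Finsupp.single b 1 := by
  rw [Finsupp.smul_single, MulOpposite.smul_eq_mul_unop, MulOpposite.unop_op, one_mul]

theorem op_apply_single (x : Op R) (a b : ℤ) (r : R) :
    x (Finsupp.single b r) a = ent x a b * r := by
  rw [op_single, map_smul, Finsupp.smul_apply, MulOpposite.smul_eq_mul_unop,
    MulOpposite.unop_op]
  rfl

theorem op_apply (x : Op R) (v : ℤ →₀ R) (a : ℤ) :
    x v a = v.sum fun c r => ent x a c * r := by
  conv_lhs => rw [← Finsupp.sum_single v]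
  rw [Finsupp.sum, map_sum, Finsupp.finsetSum_apply]
  exact Finset.sum_congr rfl fun c _ => op_apply_single x a c (v c)

theorem op_ext {x y : Op R} (h : ∀ a b, ent x a b = ent y a b) : x = y := by
  apply DFunLike.ext
  intro v
  ext a
  rw [op_apply, op_apply]
  simp only [h]

theorem ent_mul (x y : Op R) (a b : ℤ) :
    ent (x * y) a b = (y (Finsupp.single b 1)).sum fun c r => ent x a c * r := by
  rw [← op_apply]; rfl

theorem ent_mul_of_subset (x y : Op R) (a b : ℤ) (t : Finset ℤ)
    (h : ∀ c, ent y c b ≠ 0 → c ∈ t) :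
    ent (x * y) a b = ∑ c ∈ t, ent x a c * ent y c b := by
  rw [ent_mul, Finsupp.sum]
  apply Finset.sum_subset
  · intro c hc
    exact h c (Finsupp.mem_support_iff.mp hc)
  · intro c _ hc
    rw [Finsupp.notMem_support_iff.mp hc, mul_zero]

@[simp] theorem ent_zero (a b : ℤ) : ent (0 : Op R) a b = 0 := rfl

@[simp] theorem ent_add (x y : Op R) (a b : ℤ) : ent (x + y) a b = ent x a b + ent y a b := rfl

@[simp] theorem ent_neg (x : Op R) (a b : ℤ) : ent (-x) a b = -ent x a b := rfl

@[simp] theorem ent_sub (x y : Op R) (a b : ℤ) : ent (x - y) a b = ent x a b - ent y a b := by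
  have h := ent_add (x - y) y a b
  have h2 : x - y + y = x := sub_add_cancel x y
  rw [h2] at h
  exact eq_sub_of_add_eq h.symm

theorem ent_one (a b : ℤ) : ent (1 : Op R) a b = if a = b then 1 else 0 := by
  change (Finsupp.single b (1 : R)) a = _
  rw [Finsupp.single_apply]
  simp only [eq_comm]

theorem ent_sum {ι : Type*} (s : Finset ι) (x : ι → Op R) (a b : ℤ) :
    ent (∑ i ∈ s, x i) a b = ∑ i ∈ s, ent (x i) a b := by
  classical
  induction s using Finset.induction_on with
  | empty => simp
  | insert i s hi ih => rw [Finset.sum_insert hi, Finset.sum_insert hi, ent_add, ih]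

/-- The projection of `R^(ℤ)` onto the coordinates satisfying `p`. -/
def proj (R : Type u) [Ring R] (p : ℤ → Prop) [DecidablePred p] : Op R := Op.of
  { toFun := fun v => v.filter p
    map_add' := fun _ _ => Finsupp.filter_add
    map_smul' := fun _ _ => Finsupp.filter_smul }

theorem ent_proj (p : ℤ → Prop) [DecidablePred p] (a b : ℤ) :
    ent (proj R p) a b = if a = b ∧ p b then 1 else 0 := by
  change (Finsupp.filter p (Finsupp.single b (1 : R))) a = _
  rw [Finsupp.filter_apply, Finsupp.single_apply]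
  by_cases hab : a = b
  · subst hab; simp
  · have : ¬ b = a := fun h => hab h.symm
    simp [this, hab]

theorem proj_mul_apply (p : ℤ → Prop) [DecidablePred p] (x : Op R) (a b : ℤ) :
    ent (proj R p * x) a b = if p a then ent x a b else 0 := by
  change (Finsupp.filter p (x (Finsupp.single b (1 : R)))) a = _
  rw [Finsupp.filter_apply]
  rfl

theorem mul_proj_apply (p : ℤ → Prop) [DecidablePred p] (x : Op R) (a b : ℤ) :
    ent (x * proj R p) a b = if p b then ent x a b else 0 := by
  change x (Finsupp.filter p (Finsupp.single b (1 : R))) a = _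
  by_cases hb : p b
  · rw [Finsupp.filter_single_of_pos p hb, if_pos hb]; rfl
  · rw [Finsupp.filter_single_of_neg p hb, if_neg hb, map_zero]; rfl

/-! ### Flattening matrices of operators -/

variable {ι κ μ : Type*}

/-- The rectangular block of a matrix of operators with coordinates in `s`, `t`. -/
def flat (s t : Finset ℤ) (X : Matrix ι κ (Op R)) : Matrix (ι × s) (κ × t) R :=
  fun p q => ent (X p.1 q.1) p.2 q.2

theorem flat_mul [Fintype κ] (s t w : Finset ℤ) (X : Matrix ι κ (Op R)) (Y : Matrix κ μ (Op R))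
    (h : ∀ k j a b, b ∈ w → ent (Y k j) a b ≠ 0 → a ∈ t) :
    flat s w (X * Y) = flat s t X * flat t w Y := by
  ext p q
  simp only [flat, Matrix.mul_apply]
  rw [ent_sum, Fintype.sum_prod_type]
  apply Finset.sum_congr rfl
  intro k _
  rw [ent_mul_of_subset _ _ _ _ t (fun c hc => h k q.1 c q.2 q.2.2 hc),
    ← Finset.sum_coe_sort]

/-- The window `[-D, D)`. -/
def win (D : ℕ) : Finset ℤ := Finset.Ico (-(D : ℤ)) D

theorem mem_win {D : ℕ} {a : ℤ} : a ∈ win D ↔ -(D : ℤ) ≤ a ∧ a < D := by
  simp [win]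

theorem win_mono {D E : ℕ} (h : D ≤ E) {a : ℤ} (ha : a ∈ win D) : a ∈ win E := by
  rw [mem_win] at ha ⊢; omega

/-- A matrix of operators is supported in the window `[-D, D)`. -/
def FinW (D : ℕ) (X : Matrix ι κ (Op R)) : Prop :=
  ∀ i j a b, ent (X i j) a b ≠ 0 → a ∈ win D ∧ b ∈ win D

theorem FinW.mono {D E : ℕ} (h : D ≤ E) {X : Matrix ι κ (Op R)} (hX : FinW D X) : FinW E X :=
  fun i j a b hab => ⟨win_mono h (hX i j a b hab).1, win_mono h (hX i j a b hab).2⟩

/-- A matrix of operators has band width at most `D`. -/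
def Band (D : ℕ) (X : Matrix ι κ (Op R)) : Prop :=
  ∀ i j a b, ent (X i j) a b ≠ 0 → a - b ≤ D ∧ b - a ≤ D

theorem Band.mono {D E : ℕ} (h : D ≤ E) {X : Matrix ι κ (Op R)} (hX : Band D X) : Band E X := by
  intro i j a b hab
  have := hX i j a b hab
  omega

theorem FinW.band {D : ℕ} {X : Matrix ι κ (Op R)} (hX : FinW D X) : Band (2 * D) X := by
  intro i j a b hab
  have := hX i j a b hab
  rw [mem_win, mem_win] at this
  push_cast
  omega

theorem exists_ne_of_ent_mul [Fintype κ] {X : Matrix ι κ (Op R)} {Y : Matrix κ μ (Op R)}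
    {i : ι} {j : μ} {a b : ℤ} (h : ent ((X * Y) i j) a b ≠ 0) :
    ∃ k c, ent (X i k) a c ≠ 0 ∧ ent (Y k j) c b ≠ 0 := by
  rw [Matrix.mul_apply, ent_sum] at h
  obtain ⟨k, _, hk⟩ := Finset.exists_ne_zero_of_sum_ne_zero h
  rw [ent_mul, Finsupp.sum] at hk
  obtain ⟨c, hc, hkc⟩ := Finset.exists_ne_zero_of_sum_ne_zero hk
  exact ⟨k, c, left_ne_zero_of_mul hkc, right_ne_zero_of_mul hkc⟩

theorem Band.mul [Fintype κ] {D E : ℕ} {X : Matrix ι κ (Op R)} {Y : Matrix κ μ (Op R)}
    (hX : Band D X) (hY : Band E Y) : Band (D + E) (X * Y) := by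
  intro i j a b hab
  obtain ⟨k, c, h1, h2⟩ := exists_ne_of_ent_mul hab
  have := hX i k a c h1
  have := hY k j c b h2
  push_cast
  omega

theorem FinW.mul_band [Fintype κ] {D E : ℕ} {X : Matrix ι κ (Op R)} {Y : Matrix κ μ (Op R)}
    (hX : FinW D X) (hY : Band E Y) : FinW (D + E) (X * Y) := by
  intro i j a b hab
  obtain ⟨k, c, h1, h2⟩ := exists_ne_of_ent_mul hab
  have h3 := hX i k a c h1
  have h4 := hY k j c b h2
  rw [mem_win, mem_win] at h3
  rw [mem_win, mem_win]
  push_cast
  omega

theorem Band.mul_finW [Fintype κ] {D E : ℕ} {X : Matrix ι κ (Op R)} {Y : Matrix κ μ (Op R)}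
    (hX : Band D X) (hY : FinW E Y) : FinW (D + E) (X * Y) := by
  intro i j a b hab
  obtain ⟨k, c, h1, h2⟩ := exists_ne_of_ent_mul hab
  have h3 := hX i k a c h1
  have h4 := hY k j c b h2
  rw [mem_win, mem_win] at h4
  rw [mem_win, mem_win]
  push_cast
  omega

theorem FinW.add {D : ℕ} {X Y : Matrix ι κ (Op R)} (hX : FinW D X) (hY : FinW D Y) :
    FinW D (X + Y) := by
  intro i j a b hab
  by_cases h : ent (X i j) a b = 0
  · apply hY i j a b
    intro h'
    apply hab
    rw [Matrix.add_apply, ent_add, h, h', add_zero]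
  · exact hX i j a b h

theorem FinW.sub {D : ℕ} {X Y : Matrix ι κ (Op R)} (hX : FinW D X) (hY : FinW D Y) :
    FinW D (X - Y) := by
  intro i j a b hab
  by_cases h : ent (X i j) a b = 0
  · apply hY i j a b
    intro h'
    apply hab
    rw [Matrix.sub_apply, ent_sub, h, h', sub_zero]
  · exact hX i j a b h

theorem Band.add {D : ℕ} {X Y : Matrix ι κ (Op R)} (hX : Band D X) (hY : Band D Y) :
    Band D (X + Y) := by
  intro i j a b hab
  by_cases h : ent (X i j) a b = 0
  · apply hY i j a b
    intro h'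
    apply hab
    rw [Matrix.add_apply, ent_add, h, h', add_zero]
  · exact hX i j a b h

theorem Band.sub {D : ℕ} {X Y : Matrix ι κ (Op R)} (hX : Band D X) (hY : Band D Y) :
    Band D (X - Y) := by
  intro i j a b hab
  by_cases h : ent (X i j) a b = 0
  · apply hY i j a b
    intro h'
    apply hab
    rw [Matrix.sub_apply, ent_sub, h, h', sub_zero]
  · exact hX i j a b h

/-! ### The class of a finite idempotent -/

section kappa

variable [Fintype ι] [DecidableEq ι] [Fintype κ] [DecidableEq κ]

theorem flat_idem {D : ℕ} {e : Matrix ι ι (Op R)} (he : e * e = e) (hf : FinW D e) :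
    flat (win D) (win D) e * flat (win D) (win D) e = flat (win D) (win D) e := by
  rw [← flat_mul, he]
  intro k j a b _ h
  exact (hf k j a b h).1

/-- The class in `K₀(R)` of an idempotent operator with support in the window `[-D, D)`. -/
def kap (D : ℕ) (e : Matrix ι ι (Op R)) (he : e * e = e) (hf : FinW D e) : K0 R :=
  K0.cls (flat (win D) (win D) e) (flat_idem he hf)

theorem kap_congr {D : ℕ} {e f : Matrix ι ι (Op R)} (h : e = f) (he : e * e = e)
    (hf : FinW D e) (he' : f * f = f) (hf' : FinW D f) :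
    kap D e he hf = kap D f he' hf' := by
  subst h; rfl

/-- Equivalent finite idempotents have the same class. -/
theorem kap_iso {D E : ℕ} (e : Matrix ι ι (Op R)) (he : e * e = e) (hfe : FinW D e)
    (f : Matrix κ κ (Op R)) (hf : f * f = f) (hff : FinW E f)
    (x : Matrix ι κ (Op R)) (y : Matrix κ ι (Op R)) (hxy : x * y = e) (hyx : y * x = f) :
    kap D e he hfe = kap E f hf hff := by
  have h1 : (e * x * f) * (f * y * e) = e := by
    calc (e * x * f) * (f * y * e) = e * x * (f * f) * y * e := by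
          simp only [Matrix.mul_assoc]
      _ = e * x * (y * x) * y * e := by rw [hf, hyx]
      _ = e * (x * y) * (x * y) * e := by simp only [Matrix.mul_assoc]
      _ = e := by rw [hxy, he, he, he]
  have h2 : (f * y * e) * (e * x * f) = f := by
    calc (f * y * e) * (e * x * f) = f * y * (e * e) * x * f := by
          simp only [Matrix.mul_assoc]
      _ = f * y * (x * y) * x * f := by rw [he, hxy]
      _ = f * (y * x) * (y * x) * f := by simp only [Matrix.mul_assoc]
      _ = f := by rw [hyx, hf, hf, hf]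
  apply K0.cls_congr_iso _ _ _ _ (flat (win D) (win E) (e * x * f))
    (flat (win E) (win D) (f * y * e))
  · rw [← flat_mul, h1]
    intro k j a b _ h
    rw [Matrix.mul_assoc] at h
    obtain ⟨k', c, h3, _⟩ := exists_ne_of_ent_mul h
    exact (hff k k' a c h3).1
  · rw [← flat_mul, h2]
    intro k j a b _ h
    rw [Matrix.mul_assoc] at h
    obtain ⟨k', c, h3, _⟩ := exists_ne_of_ent_mul h
    exact (hfe k k' a c h3).1

theorem kap_window {D E : ℕ} (e : Matrix ι ι (Op R)) (he : e * e = e) (hfe : FinW D e)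
    (hfe' : FinW E e) : kap D e he hfe = kap E e he hfe' :=
  kap_iso e he hfe e he hfe' e e he he

theorem flat_add (s t : Finset ℤ) (X Y : Matrix ι κ (Op R)) :
    flat s t (X + Y) = flat s t X + flat s t Y := by
  ext p q; simp [flat]

theorem kap_add {D : ℕ} (e f : Matrix ι ι (Op R)) (he : e * e = e) (hf : f * f = f)
    (hef : e * f = 0) (hfe : f * e = 0) (hD : FinW D e) (hD' : FinW D f)
    (h : (e + f) * (e + f) = e + f) (hD'' : FinW D (e + f)) :
    kap D (e + f) h hD'' = kap D e he hD + kap D f hf hD' := by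
  unfold kap
  have h0 : flat (win D) (win D) (e + f) = flat (win D) (win D) e + flat (win D) (win D) f :=
    flat_add _ _ _ _
  have h1 : (flat (win D) (win D) e + flat (win D) (win D) f) *
      (flat (win D) (win D) e + flat (win D) (win D) f) =
      flat (win D) (win D) e + flat (win D) (win D) f := by
    rw [← h0]; exact flat_idem h hD''
  rw [K0.cls_congr h0 _ h1]
  apply K0.cls_add
  · rw [← flat_mul, hef]
    · ext p q; simp [flat]
    · intro k j a b _ hh; exact (hD' k j a b hh).1
  · rw [← flat_mul, hfe]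
    · ext p q; simp [flat]
    · intro k j a b _ hh; exact (hD k j a b hh).1

end kappa

end

end Pool.Agent.Lib.BHS16
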