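import Pool.Agent.Lib.MP_16fe43_al.TestGroups

set_option autoImplicit false
set_option linter.unusedSectionVars false

/-!
# Restricted products
-/

namespace Pool.Agent.Lib.BHS16

universe u v w

noncomputable section

variable {ι : Type u} [DecidableEq ι] (H : ι → Type v) [∀ i, Group (H i)]

/-- The restricted direct product of a family of groups, as a subgroup of the direct product. -/
def RProd : Subgroup (∀ i, H i) :=
  Subgroup.closure (Set.range fun p : (Σ i, H i) => Pi.mulSingle p.1 p.2)

/-- The inclusion of a factor. -/
def RProd.incl (i : ι) : H i →* RProd H :=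
  (MonoidHom.mulSingle H i).codRestrict (RProd H)
    (fun x => Subgroup.subset_closure ⟨⟨i, x⟩, rfl⟩)

/-- The projection to a factor. -/
def RProd.proj (i : ι) : RProd H →* H i := (Pi.evalMonoidHom H i).comp (RProd H).subtype

theorem RProd.proj_incl (i : ι) : (RProd.proj H i).comp (RProd.incl H i) = MonoidHom.id (H i) := by
  ext x
  change Pi.mulSingle i x i = x
  exact Pi.mulSingle_eq_same i x

theorem RProd.torsionFree (h : ∀ i, TorsionFree (H i)) : TorsionFree (RProd H) :=
  (TorsionFree.pi h).of_injective (RProd H).subtype Subtype.coe_injective

instance {α : Type w} [Countable α] : Countable (FreeGroup α) :=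
  inferInstanceAs (Countable (Quot _))

theorem RProd.countable [Countable ι] [∀ i, Countable (H i)] : Countable (RProd H) := by
  have h : RProd H = (FreeGroup.lift fun p : (Σ i, H i) => (Pi.mulSingle p.1 p.2 : ∀ i, H i)).range :=
    FreeGroup.range_lift_eq_closure.symm
  rw [h]
  exact (MonoidHom.rangeRestrict_surjective _).countable

end

end Pool.Agent.Lib.BHS16
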