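import Pool.Agent.Lib.MP_16fe43_al.Gen3

/-!
# The group ring of `L ⋊ ℤ` is a twisted Laurent ring
-/

set_option autoImplicit false

universe u v w

namespace Pool.Agent.Lib.MP_16fe43_al

open MonoidAlgebra

/-- the semidirect product `L ⋊_σ ℤ` -/
abbrev SemiZ (L : Type v) [Group L] (σ : MulAut L) : Type v :=
  L ⋊[zpowersHom (MulAut L) σ] (Multiplicative ℤ)

section

variable (k : Type u) [Ring k] (L : Type v) [Group L] (σ : MulAut L)

/-- the stable letter -/
def tG : SemiZ L σ := SemidirectProduct.inr (Multiplicative.ofAdd 1)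

theorem tG_zpow (n : ℤ) : (tG L σ) ^ n = SemidirectProduct.inr (Multiplicative.ofAdd n) := by
  unfold tG
  rw [← map_zpow, ← ofAdd_zsmul]
  simp

/-- the coefficient maps -/
noncomputable def coS (i : ℤ) : MonoidAlgebra k (SemiZ L σ) →+ MonoidAlgebra k L :=
  (coeffAddEquiv (R := k) (M := L)).symm.toAddMonoidHom.comp
    ((Finsupp.comapDomain.addMonoidHom (M := k)
      (f := fun l : L => (⟨l, Multiplicative.ofAdd i⟩ : SemiZ L σ)) (by
        intro a b h
        exact congrArg SemidirectProduct.left h)).comp
      (coeffAddEquiv (R := k) (M := SemiZ L σ)).toAddMonoidHom)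

theorem coS_coeff (i : ℤ) (s : MonoidAlgebra k (SemiZ L σ)) (l : L) :
    (coS k L σ i s).coeff l = s.coeff ⟨l, Multiplicative.ofAdd i⟩ := rfl

/-- the inclusion -/
noncomputable def jS : MonoidAlgebra k L →+* MonoidAlgebra k (SemiZ L σ) :=
  mapDomainRingHom k SemidirectProduct.inl

theorem jS_single (l : L) (c : k) : jS k L σ (single l c) =
    single (SemidirectProduct.inl l) c := by
  simp [jS]

/-- the unit `t` -/
noncomputable def tS : (MonoidAlgebra k (SemiZ L σ))ˣ :=
  Units.map (MonoidAlgebra.of k (SemiZ L σ)) (toUnits (tG L σ))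

theorem tS_zpow (n : ℤ) : (((tS k L σ) ^ n : (MonoidAlgebra k (SemiZ L σ))ˣ) :
    MonoidAlgebra k (SemiZ L σ)) = single (SemidirectProduct.inr (Multiplicative.ofAdd n)) 1 := by
  unfold tS
  rw [← map_zpow, ← map_zpow, tG_zpow]
  rfl

theorem tS_val : ((tS k L σ : (MonoidAlgebra k (SemiZ L σ))ˣ) :
    MonoidAlgebra k (SemiZ L σ)) = single (SemidirectProduct.inr (Multiplicative.ofAdd 1)) 1 := rfl

theorem jS_mul_tS_coeff (r : MonoidAlgebra k L) (n : ℤ) (g : SemiZ L σ) :
    (jS k L σ r * (((tS k L σ) ^ n : (MonoidAlgebra k (SemiZ L σ))ˣ) :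
    MonoidAlgebra k (SemiZ L σ))).coeff g =
      if Multiplicative.toAdd g.right = n then r.coeff g.left else 0 := by
  classical
  rw [tS_zpow]
  induction r using MonoidAlgebra.induction_linear with
  | zero => simp
  | add x y hx hy =>
    rw [map_add, add_mul, coeff_add, Finsupp.add_apply, hx, hy, coeff_add]
    split_ifs <;> simp
  | single l c =>
    rw [jS_single, single_mul_single, mul_one, coeff_single, coeff_single, Finsupp.single_apply,
      Finsupp.single_apply]
    have h1 : (SemidirectProduct.inl l * SemidirectProduct.inr (Multiplicative.ofAdd n) :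
        SemiZ L σ) = ⟨l, Multiplicative.ofAdd n⟩ :=
      (SemidirectProduct.mk_eq_inl_mul_inr _ _).symm
    rw [h1]
    by_cases h2 : Multiplicative.toAdd g.right = n
    · rw [if_pos h2]
      by_cases h3 : l = g.left
      · rw [if_pos h3, if_pos]
        subst h2 h3
        rfl
      · rw [if_neg h3, if_neg]
        intro h4
        exact h3 (congrArg SemidirectProduct.left h4)
    · rw [if_neg h2, if_neg]
      intro h4
      apply h2
      rw [← h4]
      rfl

/-- The group ring of `L ⋊ ℤ` as a twisted Laurent ring. -/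
noncomputable def twS : Tw (MonoidAlgebra k L) (MonoidAlgebra k (SemiZ L σ)) where
  j := jS k L σ
  t := tS k L σ
  φ := mapDomainRingEquiv k σ
  comm r := by
    induction r using MonoidAlgebra.induction_linear with
    | zero => simp
    | add x y hx hy => rw [map_add, map_add, map_add, mul_add, add_mul, hx, hy]
    | single l c =>
      rw [jS_single, mapDomainRingEquiv_single, jS_single, tS_val, single_mul_single,
        single_mul_single, one_mul, mul_one]
      congr 1
      have := SemidirectProduct.inl_aut (φ := zpowersHom (MulAut L) σ) (Multiplicative.ofAdd 1) l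
      have h2 : (zpowersHom (MulAut L) σ) (Multiplicative.ofAdd 1) l = σ l := by
        rw [zpowersHom_apply]
        simp
      rw [h2] at this
      rw [this]
      simp
  co i := coS k L σ i
  co_mono r n i := by
    ext l
    rw [coS_coeff, jS_mul_tS_coeff]
    simp only [toAdd_ofAdd]
    split_ifs <;> rfl
  span s := by
    classical
    refine ⟨s.coeff.support.image (fun g => Multiplicative.toAdd g.right), ?_⟩
    ext g
    rw [coeff_sum, Finsupp.finsetSum_apply]
    simp only [jS_mul_tS_coeff, coS_coeff]
    rw [Finset.sum_ite_eq]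
    split_ifs with h
    · rfl
    · by_contra h2
      apply h
      rw [Finset.mem_image]
      exact ⟨g, Finsupp.mem_support_iff.2 h2, rfl⟩

end

end Pool.Agent.Lib.MP_16fe43_al
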