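import Pool.Agent.Lib.MP_16fe43_al.Nil2

/-!
# `K₁` of the group ring of `H ≀ ℤ` is generated by `K₁` of the base and the stable letter
-/

set_option autoImplicit false

universe u v w

namespace Pool.Agent.Lib.MP_16fe43_al

open MonoidAlgebra
open Matrix (fromBlocks fromRows fromCols)

variable {k : Type v} [Ring k] {H : Type u} [Group H]

/-- vanishing of the `Nil`-classes of width zero -/
def NilZero (k : Type v) [Ring k] (H : Type u) [Group H] : Prop :=
  ∀ (n : ℕ) (a : ℤ) (ν : Matrix (Fin n) (Fin n) (MonoidAlgebra k (FS H))),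
    SupM (KS H {a}) ν → IsNilpotent ((TW k H).nt ν) → cm (1 + (TW k H).nt ν) = 0

theorem nilZero_int : NilZero ℤ H := fun n => width_zero n

theorem Tw.nt_reindex {R : Type u} {S : Type v} [Ring R] [Ring S] (T : Tw R S) {ι κ : Type w}
    [Fintype ι] [DecidableEq ι] [Fintype κ] [DecidableEq κ] (e : ι ≃ κ) (ν : Matrix ι ι R) :
    T.nt (Matrix.reindex e e ν) = Matrix.reindex e e (T.nt ν) := by
  unfold Tw.nt
  rw [Tw.mat_t_val, Tw.mat_t_val]
  ext1 i j
  rw [Matrix.mul_diagonal]
  show _ = (ν.map T.j * Matrix.diagonal (fun _ => (T.t : S)) : Matrix ι ι S) (e.symm i) (e.symm j)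
  rw [Matrix.mul_diagonal]
  rfl

theorem nilpotent_reindex {S : Type v} [Ring S] {ι κ : Type*}
    [Fintype ι] [DecidableEq ι] [Fintype κ] [DecidableEq κ] (e : ι ≃ κ) {A : Matrix ι ι S}
    (h : IsNilpotent A) : IsNilpotent (Matrix.reindex e e A) := by
  have := h.map (Matrix.reindexRingEquiv S e)
  exact this

theorem nil_cm (h0 : NilZero k H) (w : ℕ) : ∀ (a : ℤ) (ι : Type) [Fintype ι] [DecidableEq ι]
    (ν : Matrix ι ι (MonoidAlgebra k (FS H))), SupM (KS H (Set.Icc a (a + w))) ν →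
    IsNilpotent ((TW k H).nt ν) → cm (1 + (TW k H).nt ν) = 0 := by
  induction w with
  | zero =>
    intro a ι _ _ ν hν hnil
    have h1 : Set.Icc a (a + ((0 : ℕ) : ℤ)) = {a} := by simp
    rw [h1] at hν
    let e := Fintype.equivFin ι
    have h2 := h0 (Fintype.card ι) a (Matrix.reindex e e ν) (fun i j => hν _ _) (by
      rw [Tw.nt_reindex]
      exact nilpotent_reindex e hnil)
    rw [Tw.nt_reindex] at h2
    have h3 : (1 : Matrix (Fin (Fintype.card ι)) (Fin (Fintype.card ι)) (MonoidAlgebra k (Wr H))) +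
        Matrix.reindex e e ((TW k H).nt ν) = Matrix.reindex e e (1 + (TW k H).nt ν) := by
      ext i j
      simp [Matrix.one_apply]
    rw [h3, cm_reindex e hnil.isUnit_one_add] at h2
    exact h2
  | succ w ih =>
    intro a ι _ _ ν hν hnil
    have h1 : a + ((w + 1 : ℕ) : ℤ) = (a + w) + 1 := by push_cast; ring
    rw [h1] at hν
    obtain ⟨κ, i1, i2, ν', s1, s2, s3⟩ := width_step (by omega) ν hν
    rw [s2]
    refine ih (a + 1) κ ν' ?_ (s3 hnil)
    have h2 : a + 1 + (w : ℤ) = a + w + 1 := by ring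
    rwa [h2]

theorem nil_vanish (h0 : NilZero k H) {ι : Type} [Fintype ι] [DecidableEq ι]
    (ν : Matrix ι ι (MonoidAlgebra k (FS H))) (hnil : IsNilpotent ((TW k H).nt ν)) :
    cm (1 + (TW k H).nt ν) = 0 := by
  obtain ⟨w, hw⟩ := exists_windowM ν
  refine nil_cm h0 (2 * w) (-(w : ℤ)) ι ν ?_ hnil
  have : -(w : ℤ) + ((2 * w : ℕ) : ℤ) = w := by push_cast; ring
  rwa [this]

/-! ### Reflection -/

/-- the reflection of `⊕_ℤ H` -/
def revS (H : Type u) [Group H] : FS H →* FS H where
  toFun f := ⟨fun i => f.1 (-i), by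
    have : {i | f.1 (-i) ≠ 1} = (fun i => -i) '' {i | f.1 i ≠ 1} := by
      ext i
      constructor
      · intro h
        exact ⟨-i, h, by ring⟩
      · rintro ⟨j, hj, rfl⟩
        simpa using hj
    show {i | f.1 (-i) ≠ 1}.Finite
    rw [this]
    exact f.2.image _⟩
  map_one' := rfl
  map_mul' _ _ := rfl

theorem revS_shift (f : FS H) : revS H (shift H f) = (shift H)⁻¹ (revS H f) := by
  apply Subtype.ext
  funext i
  show f.1 (-i - 1) = f.1 (-(i + 1))
  rw [neg_add']

theorem revS_shift_zpow (n : ℤ) (f : FS H) :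
    revS H (((shift H) ^ n) f) = ((shift H) ^ (-n)) (revS H f) := by
  have h1 : ∀ (n : ℕ) (f : FS H), revS H (((shift H) ^ n) f) =
      (((shift H)⁻¹) ^ n) (revS H f) := by
    intro n
    induction n with
    | zero => intro f; rfl
    | succ n ih =>
      intro f
      rw [pow_succ', pow_succ', MulAut.mul_apply, MulAut.mul_apply, ← ih, revS_shift]
  have h2 : ∀ f : FS H, revS H ((shift H)⁻¹ f) = (shift H) (revS H f) := by
    intro f
    have := revS_shift ((shift H)⁻¹ f)
    rw [MulAut.apply_inv_self] at this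
    rw [this, MulAut.apply_inv_self]
  have h3 : ∀ (n : ℕ) (f : FS H), revS H ((((shift H)⁻¹) ^ n) f) =
      ((shift H) ^ n) (revS H f) := by
    intro n
    induction n with
    | zero => intro f; rfl
    | succ n ih =>
      intro f
      rw [pow_succ', pow_succ', MulAut.mul_apply, MulAut.mul_apply, ← ih, h2]
  cases n with
  | ofNat n =>
    have := h1 n f
    simpa using this
  | negSucc n =>
    have := h3 (n + 1) f
    rw [zpow_negSucc, ← inv_pow, this]
    rfl

/-- the automorphism of `H ≀ ℤ` that inverts the stable letter -/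
def revW (H : Type u) [Group H] : Wr H →* Wr H :=
  SemidirectProduct.map (revS H) (invMonoidHom : Multiplicative ℤ →* Multiplicative ℤ) (by
    intro g
    ext1 f
    show revS H ((zpowersHom (MulAut (FS H)) (shift H)) g f) =
      (zpowersHom (MulAut (FS H)) (shift H)) g⁻¹ (revS H f)
    rw [zpowersHom_apply, zpowersHom_apply, revS_shift_zpow]
    rfl)

theorem revW_inl (f : FS H) : revW H (SemidirectProduct.inl f) =
    SemidirectProduct.inl (revS H f) := by
  simp [revW]

/-- the induced ring homomorphism -/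
noncomputable def revR (k : Type v) [Ring k] (H : Type u) [Group H] :
    MonoidAlgebra k (Wr H) →+* MonoidAlgebra k (Wr H) := mapDomainRingHom k (revW H)

/-- the induced ring homomorphism -/
noncomputable def revR0 (k : Type v) [Ring k] (H : Type u) [Group H] :
    MonoidAlgebra k (FS H) →+* MonoidAlgebra k (FS H) := mapDomainRingHom k (revS H)

theorem revR_j (r : MonoidAlgebra k (FS H)) : revR k H ((TW k H).j r) =
    (TW k H).j (revR0 k H r) := by
  show revR k H (jS k (FS H) (shift H) r) = jS k (FS H) (shift H) (revR0 k H r)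
  induction r using MonoidAlgebra.induction_linear with
  | zero => simp
  | add x y hx hy => rw [map_add, map_add, map_add, map_add, hx, hy]
  | single l c =>
    have h1 : revR0 k H (single l c) = single (revS H l) c := by simp [revR0]
    rw [jS_single, h1, jS_single]
    have h2 : revR k H (single (SemidirectProduct.inl l) c) =
      single (revW H (SemidirectProduct.inl l)) c := by simp [revR]
    rw [h2, revW_inl]

theorem revR_t : revR k H ((TW k H).t : MonoidAlgebra k (Wr H)) =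
    (((TW k H).t⁻¹ : (MonoidAlgebra k (Wr H))ˣ) : MonoidAlgebra k (Wr H)) := by
  have h1 : (((TW k H).t⁻¹ : (MonoidAlgebra k (Wr H))ˣ) : MonoidAlgebra k (Wr H)) =
      single (SemidirectProduct.inr (Multiplicative.ofAdd (-1))) 1 := by
    have := tS_zpow k (FS H) (shift H) (-1)
    rw [zpow_neg_one] at this
    exact this
  rw [h1]
  show revR k H (single (SemidirectProduct.inr (Multiplicative.ofAdd 1)) 1) = _
  have h2 : ∀ g : Wr H, revR k H (single g 1) = single (revW H g) 1 := by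
    intro g; simp [revR]
  rw [h2]
  congr 1

theorem revR_t_inv : revR k H (((TW k H).t⁻¹ : (MonoidAlgebra k (Wr H))ˣ) :
      MonoidAlgebra k (Wr H)) = ((TW k H).t : MonoidAlgebra k (Wr H)) := by
  have h1 : (((TW k H).t⁻¹ : (MonoidAlgebra k (Wr H))ˣ) : MonoidAlgebra k (Wr H)) =
      single (SemidirectProduct.inr (Multiplicative.ofAdd (-1))) 1 := by
    have := tS_zpow k (FS H) (shift H) (-1)
    rw [zpow_neg_one] at this
    exact this
  rw [h1]
  have h2 : ∀ g : Wr H, revR k H (single g 1) = single (revW H g) 1 := by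
    intro g; simp [revR]
  rw [h2]
  show _ = single (SemidirectProduct.inr (Multiplicative.ofAdd 1)) 1
  congr 1

theorem nil_vanish' (h0 : NilZero k H) {ι : Type} [Fintype ι] [DecidableEq ι]
    (ν : Matrix ι ι (MonoidAlgebra k (FS H)))
    (hnil : IsNilpotent (ν.map (TW k H).j * (((((TW k H).mat ι).t⁻¹ :
      (Matrix ι ι (MonoidAlgebra k (Wr H)))ˣ)) : Matrix ι ι (MonoidAlgebra k (Wr H))))) :
    cm (1 + ν.map (TW k H).j * (((((TW k H).mat ι).t⁻¹ :
      (Matrix ι ι (MonoidAlgebra k (Wr H)))ˣ)) : Matrix ι ι (MonoidAlgebra k (Wr H)))) = 0 := by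
  have ht : (((((TW k H).mat ι).t⁻¹ : (Matrix ι ι (MonoidAlgebra k (Wr H)))ˣ)) :
      Matrix ι ι (MonoidAlgebra k (Wr H))) = Matrix.diagonal fun _ =>
      (((TW k H).t⁻¹ : (MonoidAlgebra k (Wr H))ˣ) : MonoidAlgebra k (Wr H)) := by
    apply Units.inv_eq_of_mul_eq_one_right
    rw [Tw.mat_t_val, Matrix.diagonal_mul_diagonal]
    simp
  set Y := ν.map (TW k H).j * (((((TW k H).mat ι).t⁻¹ :
      (Matrix ι ι (MonoidAlgebra k (Wr H)))ˣ)) : Matrix ι ι (MonoidAlgebra k (Wr H))) with hY
  have h1 : (TW k H).nt (ν.map (revR0 k H)) = Y.map (revR k H) := by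
    rw [hY, ht]
    unfold Tw.nt
    rw [Tw.mat_t_val]
    ext1 i j
    rw [Matrix.mul_diagonal, Matrix.map_apply, Matrix.map_apply, Matrix.map_apply,
      Matrix.mul_diagonal, Matrix.map_apply, map_mul, revR_t_inv, revR_j]
  have h2 : Y = ((TW k H).nt (ν.map (revR0 k H))).map (revR k H) := by
    rw [h1]
    rw [hY, ht]
    ext1 i j
    rw [Matrix.map_apply, Matrix.map_apply, Matrix.mul_diagonal, Matrix.map_apply, map_mul,
      map_mul, revR_t_inv, revR_t, revR_j, revR_j]
    congr 2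
    have : (revR0 k H).comp (revR0 k H) = RingHom.id _ := by
      unfold revR0
      rw [← mapDomainRingHom_comp]
      have h5 : (revS H).comp (revS H) = MonoidHom.id _ := by
        ext1 f
        apply Subtype.ext
        funext i
        show f.1 (- -i) = f.1 i
        rw [neg_neg]
      rw [h5]
      exact mapDomainRingHom_id
    exact (DFunLike.congr_fun this (ν i j)).symm
  have h3 : IsNilpotent ((TW k H).nt (ν.map (revR0 k H))) := by
    rw [h1]
    exact hnil.map (revR k H).mapMatrix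
  have h4 := nil_vanish h0 (ν.map (revR0 k H)) h3
  have h5 : (1 : Matrix ι ι (MonoidAlgebra k (Wr H))) + Y =
      (1 + (TW k H).nt (ν.map (revR0 k H))).map (revR k H) := by
    rw [Matrix.map_add (revR k H) (fun a b => map_add (revR k H) a b), ← h2,
      Tw.map_one_matrix]
  rw [h5, ← K1.map_cm (revR k H) h3.isUnit_one_add, h4, map_zero]

/-! ### The idempotents -/

/-- every idempotent matrix over `k` is stably free -/
def StFree (k : Type v) [Ring k] : Prop :=
  ∀ (ι : Type) [Fintype ι] [DecidableEq ι] (e : Matrix ι ι k), e * e = e →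
    ∃ b a : ℕ, MvN (fromBlocks e 0 0 (1 : Matrix (Fin b) (Fin b) k)) (1 : Matrix (Fin a) (Fin a) k)

theorem stFree_int : StFree ℤ := by
  intro ι _ _ e he
  obtain ⟨a, ha⟩ := MvN.int he
  refine ⟨0, a, ?_⟩
  have h1 : (1 : Matrix (Fin 0) (Fin 0) ℤ) = 0 := Subsingleton.elim _ _
  rw [h1]
  exact MvN.trans (by simp [Matrix.fromBlocks_multiply, he]) (Matrix.one_mul _)
    (MvN.zero_right he) ha

theorem φh_support {s : Set ℤ} (N : ℕ) {ι : Type*}
    {F : Matrix ι ι (MonoidAlgebra k (FS H))} (hF : SupM (KS H s) F) :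
    SupM (KS H {i | i - N ∈ s}) (F.map ((TW k H).φh N)) := by
  induction N with
  | zero =>
    have h1 : F.map ((TW k H).φh 0) = F := by ext i j; simp [Tw.φh_zero]
    rw [h1]
    simpa using hF
  | succ N ih =>
    have h1 : F.map ((TW k H).φh (N + 1)) = (F.map ((TW k H).φh N)).map (TW k H).φ := by
      ext1 i j
      show ((TW k H).φ ^ (N + 1)) (F i j) = (TW k H).φ (((TW k H).φ ^ N) (F i j))
      rw [pow_succ']
      rfl
    rw [h1]
    refine supM_φ ?_ ih
    intro i hi hi2
    apply hi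
    show i - ((N + 1 : ℕ) : ℤ) ∈ s
    have : i - ((N + 1 : ℕ) : ℤ) = i - 1 - N := by push_cast; ring
    rw [this]
    exact hi2

theorem MvN.one_equiv {R : Type u} [Ring R] {ι : Type v} {κ : Type w} [Fintype ι] [Fintype κ]
    [DecidableEq ι] [DecidableEq κ] (e : ι ≃ κ) :
    MvN (1 : Matrix ι ι R) (1 : Matrix κ κ R) := by
  have h1 := MvN.reindex (R := R) e (e := 1) (Matrix.one_mul _)
  have h2 : Matrix.reindex e e (1 : Matrix ι ι R) = 1 := by
    ext i j
    simp [Matrix.one_apply]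
  rwa [h2] at h1

theorem HK_wr (hk : StFree k) (ι : Type) [Fintype ι] [DecidableEq ι]
    (F : Matrix ι ι (MonoidAlgebra k (FS H))) (hF : F * F = F)
    (hall : ∀ N : ℕ, MvN (fromBlocks (F.map ((TW k H).φh N)) 0 0
      (1 : Matrix ι ι (MonoidAlgebra k (FS H))))
      (fromBlocks F 0 0 (1 : Matrix ι ι (MonoidAlgebra k (FS H))))) :
    ∃ b a : ℕ, MvN (fromBlocks F 0 0 (1 : Matrix (Fin b) (Fin b) (MonoidAlgebra k (FS H))))
      (1 : Matrix (Fin a) (Fin a) (MonoidAlgebra k (FS H))) := by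
  obtain ⟨w, hw⟩ := exists_windowM F
  let ρ : MonoidAlgebra k (FS H) →+* MonoidAlgebra k (FS H) :=
    mapDomainRingHom k (tr (Set.Icc (-(w : ℤ)) w))
  let ι1 : k →+* MonoidAlgebra k (FS H) := MonoidAlgebra.singleOneRingHom
  have hρF : F.map ρ = F := by
    ext1 i j
    exact map_eq_of_sup _ (fun l hl => tr_of_mem hl) (hw i j)
  set A : Matrix ι ι k := (F.map ((TW k H).φh (2 * w + 1))).map (aug k (FS H)) with hA
  have hAA : A * A = A := by
    rw [hA, ← Matrix.map_mul, ← Matrix.map_mul, hF]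
  have hρN : (F.map ((TW k H).φh (2 * w + 1))).map ρ = A.map ι1 := by
    ext1 i j
    refine map_eq_aug (K := KS H {i | i - ((2 * w + 1 : ℕ) : ℤ) ∈ Set.Icc (-(w : ℤ)) w}) _
      (fun l hl => tr_of_disjoint ?_ hl) (φh_support (2 * w + 1) hw i j)
    intro i hi hi2
    rw [Set.mem_Icc] at hi
    have hi3 : i - ((2 * w + 1 : ℕ) : ℤ) ∈ Set.Icc (-(w : ℤ)) w := hi2
    rw [Set.mem_Icc] at hi3
    push_cast at hi3
    omega
  have h1 := MvN.map ρ (hall (2 * w + 1))
  rw [Matrix.fromBlocks_map, Matrix.fromBlocks_map, Tw.map_one_matrix, hρF, hρN] at h1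
  have z1 : ((0 : Matrix ι ι (MonoidAlgebra k (FS H))).map ρ) = 0 := by simp
  rw [z1] at h1
  -- `A` is stably free
  obtain ⟨b, a, hab⟩ := hk ι A hAA
  have h2 := MvN.map ι1 hab
  rw [Matrix.fromBlocks_map, Tw.map_one_matrix, Tw.map_one_matrix] at h2
  have z2 : ((0 : Matrix ι (Fin b) k).map ι1) = 0 := by simp
  have z3 : ((0 : Matrix (Fin b) ι k).map ι1) = 0 := by simp
  rw [z2, z3] at h2
  have hAi : A.map ι1 * A.map ι1 = A.map ι1 := by rw [← Matrix.map_mul, hAA]
  have one1 : ∀ (α : Type) [Fintype α] [DecidableEq α],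
      (1 : Matrix α α (MonoidAlgebra k (FS H))) * 1 = 1 := fun α _ _ => Matrix.one_mul _
  refine ⟨Fintype.card (ι ⊕ Fin b), Fintype.card (Fin a ⊕ ι), ?_⟩
  have c1 : MvN (fromBlocks F 0 0 (1 : Matrix (Fin (Fintype.card (ι ⊕ Fin b))) _
      (MonoidAlgebra k (FS H)))) (fromBlocks F 0 0 (1 : Matrix (ι ⊕ Fin b) (ι ⊕ Fin b)
      (MonoidAlgebra k (FS H)))) :=
    MvN.dsum (MvN.refl hF) (MvN.one_equiv (Fintype.equivFin (ι ⊕ Fin b)).symm)
  rw [← Matrix.fromBlocks_one] at c1
  have iF : ∀ (α β : Type) [Fintype α] [DecidableEq α] [Fintype β] [DecidableEq β],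
      fromBlocks F 0 0 (fromBlocks (1 : Matrix α α (MonoidAlgebra k (FS H))) 0 0
      (1 : Matrix β β (MonoidAlgebra k (FS H)))) * fromBlocks F 0 0 (fromBlocks
      (1 : Matrix α α (MonoidAlgebra k (FS H))) 0 0
      (1 : Matrix β β (MonoidAlgebra k (FS H)))) = fromBlocks F 0 0 (fromBlocks
      (1 : Matrix α α (MonoidAlgebra k (FS H))) 0 0
      (1 : Matrix β β (MonoidAlgebra k (FS H)))) := by
    intro α β _ _ _ _
    simp [Matrix.fromBlocks_multiply, hF]
  refine MvN.trans (by simp [Matrix.fromBlocks_multiply, hF]) (one1 _) c1 ?_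
  refine MvN.trans (iF _ _) (one1 _) (MvN.assoc hF (one1 _) (one1 _)).symm ?_
  refine MvN.trans (by simp [Matrix.fromBlocks_multiply, hF]) (one1 _)
    (MvN.dsum h1.symm (MvN.refl (one1 _))) ?_
  refine MvN.trans (by simp [Matrix.fromBlocks_multiply, hAi]) (one1 _)
    (MvN.assoc hAi (one1 _) (one1 _)) ?_
  refine MvN.trans (by simp [Matrix.fromBlocks_multiply, hAi]) (one1 _)
    (MvN.dsum (MvN.refl hAi) (MvN.swap (one1 _) (one1 _))) ?_
  refine MvN.trans (by simp [Matrix.fromBlocks_multiply, hAi]) (one1 _)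
    (MvN.assoc hAi (one1 _) (one1 _)).symm ?_
  refine MvN.trans (by simp [Matrix.fromBlocks_multiply, hAi]) (one1 _)
    (MvN.dsum h2 (MvN.refl (one1 _))) ?_
  rw [Matrix.fromBlocks_one]
  exact MvN.one_equiv (Fintype.equivFin _)

/-- **Generation**: `K₁(k[H ≀ ℤ])` is generated by the image of `K₁(k[⊕_ℤ H])` and `[t]`. -/
theorem gen_wr (hk : StFree k) (h0 : NilZero k H) (x : K1 (MonoidAlgebra k (Wr H))) :
    x ∈ (TW k H).W := by
  refine (TW k H).gen_main (fun ι _ _ F hF hall => HK_wr hk ι F hF hall) ?_ ?_ x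
  · intro ι _ _ ν hν
    have : cm (1 + (TW k H).nt ν) = 0 := nil_vanish h0 ν hν
    unfold Tw.nt at this
    rw [this]
    exact (TW k H).W.zero_mem
  · intro ι _ _ ν hν
    rw [nil_vanish' h0 ν hν]
    exact (TW k H).W.zero_mem

end Pool.Agent.Lib.MP_16fe43_al
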