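import Pool.Agent.Lib.MP_16fe43_al.TrOps

/-!
# The transfer homomorphism of a pair of representations that differ by a finitary part
-/

set_option autoImplicit false
set_option linter.unusedSectionVars false

universe u v w x

open Matrix

namespace Pool.Agent.Lib.MP_16fe43_al.Tr

open Pool.Agent.Lib.MP_16fe43_al
open Pool.Agent.Lib.CutK1 (bdU bdU_apply cl_bdU)

noncomputable section

section units

variable {I : Type v} {R : Type u} [Ring R] [DecidableEq I]
variable {ι : Type*} [Fintype ι] [DecidableEq ι]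

/-- finitary invertible matrices -/
def FinU (u : (Matrix ι ι (Opr I R))ˣ) : Prop := ∃ F, InF F (u.val - 1)

theorem kapU_mul {u v : (Matrix ι ι (Opr I R))ˣ} (hu : FinU u) (hv : FinU v) :
    FinU (u * v) ∧ kap (u * v).val = kap u.val + kap v.val := by
  obtain ⟨F, hF⟩ := hu
  obtain ⟨F', hF'⟩ := hv
  have h1 := kap_mul (F := F ∪ F') u.mul_inv u.inv_mul v.mul_inv v.inv_mul
    (hF.mono Finset.subset_union_left) (hF'.mono Finset.subset_union_right)
  exact ⟨⟨_, h1.1⟩, h1.2⟩

theorem kapU_conj {u g : (Matrix ι ι (Opr I R))ˣ} (hu : FinU u) :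
    FinU (g * u * g⁻¹) ∧ kap (g * u * g⁻¹).val = kap u.val := by
  obtain ⟨F, hF⟩ := hu
  obtain ⟨F', h1, h2⟩ := kap_conj g.mul_inv g.inv_mul hF
  exact ⟨⟨F', h1⟩, h2⟩

theorem isUnit_flatU {u : (Matrix ι ι (Opr I R))ˣ} {F : Finset I} (hF : InF F (u.val - 1)) :
    IsUnit (flat F F u.val) := (isUnit_flat u.mul_inv u.inv_mul hF).1

theorem kap_rix {κ : Type*} [Fintype κ] [DecidableEq κ] (e : ι ≃ κ)
    {u : (Matrix ι ι (Opr I R))ˣ} (hu : FinU u) : kap (rix e u).val = kap u.val := by
  obtain ⟨F, hF⟩ := hu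
  have h1 : InF F ((rix e u).val - 1) := by
    intro i j a b hab
    have e1 : ((rix e u).val - 1) i j = (u.val - 1) (e.symm i) (e.symm j) := by
      rw [Matrix.sub_apply, Matrix.sub_apply]
      show u.val (e.symm i) (e.symm j) - _ = _
      congr 1
      simp [Matrix.one_apply]
    rw [e1] at hab
    exact hF _ _ a b hab
  rw [kap_eq h1, kap_eq hF]
  rw [← cm_reindex (e.prodCongr (Equiv.refl F)) (isUnit_flatU hF)]
  rfl

theorem kap_dsum_one {κ : Type*} [Fintype κ] [DecidableEq κ]
    {u : (Matrix ι ι (Opr I R))ˣ} (hu : FinU u) :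
    kap (dsum u (1 : (Matrix κ κ (Opr I R))ˣ)).val = kap u.val := by
  obtain ⟨F, hF⟩ := hu
  have h1 : InF F ((dsum u (1 : (Matrix κ κ (Opr I R))ˣ)).val - 1) := by
    rintro (i | i) (j | j) a b hab
    · apply hF i j a b
      have e1 : ((dsum u (1 : (Matrix κ κ (Opr I R))ˣ)).val - 1) (Sum.inl i) (Sum.inl j) =
          (u.val - 1) i j := by
        rw [Matrix.sub_apply, Matrix.sub_apply]
        show u.val i j - _ = _
        congr 1
        simp [Matrix.one_apply]
      rwa [e1] at hab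
    · exfalso
      apply hab
      rw [Matrix.sub_apply, Matrix.one_apply_ne Sum.inl_ne_inr, sub_zero]
      rfl
    · exfalso
      apply hab
      rw [Matrix.sub_apply, Matrix.one_apply_ne Sum.inr_ne_inl, sub_zero]
      rfl
    · exfalso
      apply hab
      have e1 : ((dsum u (1 : (Matrix κ κ (Opr I R))ˣ)).val - 1) (Sum.inr i) (Sum.inr j) = 0 := by
        rw [Matrix.sub_apply]
        show (1 : Matrix κ κ (Opr I R)) i j - _ = _
        simp [Matrix.one_apply]
      rw [e1]
      rfl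
  rw [kap_eq h1, kap_eq hF]
  have h2 : flat F F (dsum u (1 : (Matrix κ κ (Opr I R))ˣ)).val =
      Matrix.reindex (Equiv.sumProdDistrib ι κ F).symm (Equiv.sumProdDistrib ι κ F).symm
        (fromBlocks (flat F F u.val) 0 0 (flat F F (1 : Matrix κ κ (Opr I R)))) := by
    ext ⟨i | i, a⟩ ⟨j | j, b⟩ <;> rfl
  rw [h2, cm_reindex _ (isUnit_fromBlocks_upper 0 (isUnit_flatU hF) (by
    rw [flat_one]; exact isUnit_one)), cm_fromBlocks_diag (isUnit_flatU hF) (by
    rw [flat_one]; exact isUnit_one), flat_one, cm_one, add_zero]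

end units

/-- A pair of actions of `S` on `R^(I)` that differ by a finitary part. -/
structure Pair (S : Type u) (I : Type v) (R : Type w) [Ring S] [Ring R] where
  /-- the first action -/
  th : S →+* Opr I R
  /-- the second action -/
  th' : S →+* Opr I R
  /-- the difference is finitary -/
  fin : ∀ s, ∃ F : Finset I, ∀ a b, ent (th s) a b ≠ ent (th' s) a b → a ∈ F

namespace Pair

variable {S : Type u} {I : Type v} {R : Type w} [Ring S] [Ring R] [DecidableEq I]
variable (P : Pair S I R)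

section

variable {ι : Type*} [Fintype ι] [DecidableEq ι]

/-- the quotient of the two actions -/
def U (A : (Matrix ι ι S)ˣ) : (Matrix ι ι (Opr I R))ˣ := mapU P.th A * (mapU P.th' A)⁻¹

theorem finU (A : (Matrix ι ι S)ˣ) : FinU (P.U A) := by
  choose F hF using P.fin
  refine ⟨Finset.univ.biUnion fun i => Finset.univ.biUnion fun j => F (A.val i j), ?_⟩
  have e : (P.U A).val - 1 = (A.val.map P.th - A.val.map P.th') * ((mapU P.th' A)⁻¹).val := by
    have h1 : A.val.map P.th' * ((mapU P.th' A)⁻¹).val = 1 := (mapU P.th' A).mul_inv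
    rw [sub_mul, h1]
    rfl
  rw [e]
  apply InF.mul_right
  intro i j a b hab
  rw [Matrix.sub_apply, ent_sub, sub_ne_zero] at hab
  simp only [Finset.mem_biUnion, Finset.mem_univ, true_and]
  exact ⟨i, j, hF _ a b hab⟩

/-- the class -/
def ta (A : (Matrix ι ι S)ˣ) : K1 R := kap (P.U A).val

theorem ta_mul (A B : (Matrix ι ι S)ˣ) : P.ta (A * B) = P.ta A + P.ta B := by
  have e : P.U (A * B) = (mapU P.th A * P.U B * (mapU P.th A)⁻¹) * P.U A := by
    unfold U
    rw [map_mul, map_mul]
    group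
  have h1 := kapU_conj (g := mapU P.th A) (P.finU B)
  unfold ta
  rw [e, (kapU_mul h1.1 (P.finU A)).2, h1.2, add_comm]

theorem U_rix {κ : Type*} [Fintype κ] [DecidableEq κ] (e : ι ≃ κ) (A : (Matrix ι ι S)ˣ) :
    P.U (rix e A) = rix e (P.U A) := by
  unfold U
  rw [map_mul, map_inv]
  rfl

theorem U_dsum_one {κ : Type*} [Fintype κ] [DecidableEq κ] (A : (Matrix ι ι S)ˣ) :
    P.U (dsum A (1 : (Matrix κ κ S)ˣ)) = dsum (P.U A) (1 : (Matrix κ κ (Opr I R))ˣ) := by
  have h : ∀ f : S →+* Opr I R, mapU f (dsum A (1 : (Matrix κ κ S)ˣ)) =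
      dsum (mapU f A) (1 : (Matrix κ κ (Opr I R))ˣ) := by
    intro f
    apply Units.ext
    show (fromBlocks A.val 0 0 (1 : Matrix κ κ S)).map f = fromBlocks (A.val.map f) 0 0 1
    rw [fromBlocks_map]
    simp
  have h2 : ∀ a b : (Matrix ι ι (Opr I R))ˣ, dsum (a * b⁻¹) (1 : (Matrix κ κ (Opr I R))ˣ) =
      dsum a 1 * (dsum b 1)⁻¹ := by
    intro a b
    apply Units.ext
    show fromBlocks (a.val * b.inv) 0 0 1 = fromBlocks a.val 0 0 1 * fromBlocks b.inv 0 0 1
    rw [fromBlocks_multiply]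
    simp
  unfold U
  rw [h, h, h2]

end

/-- The transfer homomorphism. -/
def tau : K1 S →+ K1 R :=
  K1.liftc (fun _ A => P.ta A) (fun _ A B => P.ta_mul A B)
    (fun n m A => by
      unfold ta
      rw [U_rix, U_dsum_one, kap_rix, kap_dsum_one (P.finU A)]
      rw [← U_dsum_one]
      exact P.finU _)

theorem tau_gen {n : ℕ} (A : (Matrix (Fin n) (Fin n) S)ˣ) : P.tau (K1.gen A) = P.ta A :=
  K1.liftc_gen _ _ _ A

/-- A subring that acts diagonally in both actions. -/
structure Diag (N : Type x) [Ring N] where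
  /-- the inclusion -/
  j : N →+* S
  /-- the diagonal entries of the first action -/
  ps : I → (N →+* R)
  /-- the diagonal entries of the second action -/
  ps' : I → (N →+* R)
  /-- compatibility -/
  comp : ∀ n a b, ent (P.th (j n)) a b = if a = b then ps b n else 0
  /-- compatibility -/
  comp' : ∀ n a b, ent (P.th' (j n)) a b = if a = b then ps' b n else 0

variable {P} {N : Type x} [Ring N]

theorem Diag.tau_map (d : P.Diag N) (z : K1 N) :
    ∃ F₀ : Finset I, ∀ F, F₀ ⊆ F → P.tau (K1.map d.j z) =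
      ∑ a ∈ F, (K1.map (d.ps a) z - K1.map (d.ps' a) z) := by
  obtain ⟨n, A, rfl⟩ := K1.exists_gen z
  obtain ⟨F₀, hF₀⟩ := P.finU (mapU d.j A)
  refine ⟨F₀, fun F hF => ?_⟩
  have hF' := hF₀.mono hF
  rw [K1.map_gen, P.tau_gen]
  unfold ta
  rw [kap_eq hF']
  have e : flat F F (P.U (mapU d.j A)).val =
      (bdU (fun a : F => mapU (d.ps a) A * (mapU (d.ps' a) A)⁻¹)).val := by
    have h0 : (P.U (mapU d.j A)).val = (mapU P.th (mapU d.j A)).val *
        (mapU P.th' (mapU d.j A⁻¹)).val := by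
      unfold U
      rw [map_inv, map_inv]
      rfl
    have h1 : ColF F F (mapU P.th' (mapU d.j A⁻¹)).val := by
      intro i j a b hb hab
      have h3 : (mapU P.th' (mapU d.j A⁻¹)).val i j = P.th' (d.j ((A⁻¹).val i j)) := rfl
      rw [h3, d.comp'] at hab
      by_contra ha
      have : a ≠ b := by rintro rfl; exact ha hb
      rw [if_neg this] at hab
      exact hab rfl
    rw [h0, flat_mul F F F _ _ h1]
    have h2 : flat F F (mapU P.th (mapU d.j A)).val =
        (bdU (fun a : F => mapU (d.ps a) A)).val := by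
      ext ⟨i, a⟩ ⟨j, b⟩
      rw [bdU_apply]
      have h3 : flat F F (mapU P.th (mapU d.j A)).val (i, a) (j, b) =
        ent (P.th (d.j (A.val i j))) a b := rfl
      rw [h3, d.comp]
      by_cases hab : a = b
      · subst hab
        rw [if_pos rfl, if_pos rfl]
        rfl
      · rw [if_neg (fun h => hab (Subtype.ext h)), if_neg hab]
    have h4 : flat F F (mapU P.th' (mapU d.j A⁻¹)).val =
        (bdU (fun a : F => (mapU (d.ps' a) A)⁻¹)).val := by
      ext ⟨i, a⟩ ⟨j, b⟩
      rw [bdU_apply]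
      have h3 : flat F F (mapU P.th' (mapU d.j A⁻¹)).val (i, a) (j, b) =
        ent (P.th' (d.j ((A⁻¹).val i j))) a b := rfl
      rw [h3, d.comp']
      by_cases hab : a = b
      · subst hab
        rw [if_pos rfl, if_pos rfl]
        rfl
      · rw [if_neg (fun h => hab (Subtype.ext h)), if_neg hab]
    rw [h2, h4, ← Units.val_mul, ← map_mul]
    rfl
  rw [e, cm_val, cl_bdU, ← Finset.sum_coe_sort F
    (fun a => K1.map (d.ps a) (K1.gen A) - K1.map (d.ps' a) (K1.gen A))]
  apply Finset.sum_congr rfl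
  intro a _
  rw [cl_mul, cl_inv, cl_gen, cl_gen, K1.map_gen, K1.map_gen, sub_eq_add_neg]

end Pair

end

end Pool.Agent.Lib.MP_16fe43_al.Tr
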