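import Mathlib

/-!
# Moebius inversion on finite subsets and vanishing in coinvariants
-/

set_option autoImplicit false
set_option linter.unusedSectionVars false

universe u v w

namespace Pool.Agent.Lib.MP_16fe43_al.Tr

noncomputable section

section mob

variable {Q : Type u} [DecidableEq Q] {M : Type v} [AddCommGroup M]

/-- alternating sum over the subsets -/
def mob (p : Finset Q → M) (s : Finset Q) : M :=
  ∑ v ∈ s.powerset, ((-1 : ℤ) ^ (s.card + v.card)) • p v

theorem mob_empty (p : Finset Q → M) : mob p ∅ = p ∅ := by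
  unfold mob
  simp

theorem mob_insert (p : Finset Q → M) {s : Finset Q} {x : Q} (hx : x ∉ s) :
    mob p (insert x s) = mob (fun v => p (insert x v)) s - mob p s := by
  unfold mob
  rw [Finset.sum_powerset_insert hx, ← Finset.sum_sub_distrib, ← Finset.sum_add_distrib]
  refine Finset.sum_congr rfl fun v hv => ?_
  have hxv : x ∉ v := fun h => hx (Finset.mem_powerset.1 hv h)
  rw [Finset.card_insert_of_notMem hx, Finset.card_insert_of_notMem hxv]
  have e1 : (-1 : ℤ) ^ (s.card + 1 + v.card) = -(-1) ^ (s.card + v.card) := by ring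
  have e2 : (-1 : ℤ) ^ (s.card + 1 + (v.card + 1)) = (-1) ^ (s.card + v.card) := by ring
  rw [e1, e2, neg_smul]
  abel

theorem sum_mob (t : Finset Q) : ∀ p : Finset Q → M, ∑ u ∈ t.powerset, mob p u = p t := by
  induction t using Finset.induction_on with
  | empty =>
    intro p
    rw [Finset.powerset_empty, Finset.sum_singleton, mob_empty]
  | insert x t hx ih =>
    intro p
    rw [Finset.sum_powerset_insert hx]
    have h : ∑ u ∈ t.powerset, mob p (insert x u) =
        ∑ u ∈ t.powerset, (mob (fun v => p (insert x v)) u - mob p u) := by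
      refine Finset.sum_congr rfl fun u hu => ?_
      exact mob_insert p (fun h => hx (Finset.mem_powerset.1 hu h))
    rw [h, Finset.sum_sub_distrib, ih, ih]
    abel

theorem mob_congr {p p' : Finset Q → M} {s : Finset Q} (h : ∀ v ⊆ s, p v = p' v) :
    mob p s = mob p' s := by
  unfold mob
  refine Finset.sum_congr rfl fun v hv => ?_
  rw [h v (Finset.mem_powerset.1 hv)]

theorem mob_eq_zero {p : Finset Q → M} {s : Finset Q} {x : Q} (hx : x ∈ s)
    (h : ∀ v ⊆ s.erase x, p (insert x v) = p v) : mob p s = 0 := by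
  rw [← Finset.insert_erase hx, mob_insert p (Finset.notMem_erase x s)]
  rw [mob_congr h, sub_self]

theorem mob_map {M' : Type w} [AddCommGroup M'] (f : M →+ M') (p : Finset Q → M) (s : Finset Q) :
    mob (fun v => f (p v)) s = f (mob p s) := by
  unfold mob
  rw [map_sum]
  refine Finset.sum_congr rfl fun v _ => ?_
  rw [map_zsmul]

theorem mob_image {g : Q → Q} (hg : Function.Injective g) (s : Finset Q) :
    ∀ p : Finset Q → M, mob (fun v => p (v.image g)) s = mob p (s.image g) := by
  induction s using Finset.induction_on with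
  | empty =>
    intro p
    rw [mob_empty, Finset.image_empty, mob_empty]
  | insert x s hx ih =>
    intro p
    rw [mob_insert _ hx, Finset.image_insert, mob_insert p (by
      rw [Finset.mem_image]
      rintro ⟨y, hy, hxy⟩
      rw [hg hxy] at hy
      exact hx hy), ih]
    have : (fun v : Finset Q => p ((insert x v).image g)) =
        fun v => (fun w => p (insert (g x) w)) (v.image g) := by
      funext v
      rw [Finset.image_insert]
    rw [this]
    congr 1
    exact ih (fun w => p (insert (g x) w))

theorem mob_sum {ι : Type*} (F : Finset ι) (p : ι → Finset Q → M) (s : Finset Q) :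
    ∑ a ∈ F, mob (p a) s = mob (fun v => ∑ a ∈ F, p a v) s := by
  unfold mob
  rw [Finset.sum_comm]
  refine Finset.sum_congr rfl fun v _ => ?_
  rw [Finset.smul_sum]

theorem mob_zero (s : Finset Q) : mob (fun _ => (0 : M)) s = 0 := by
  unfold mob
  simp

end mob

/-! ### Translates of finite subsets -/

section trans

variable {Q : Type u} [Group Q] [DecidableEq Q]

/-- the translate `q s` -/
def tr (q : Q) (s : Finset Q) : Finset Q := s.image fun x => q * x

theorem tr_one (s : Finset Q) : tr 1 s = s := by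
  unfold tr
  simp

theorem tr_tr (p q : Q) (s : Finset Q) : tr p (tr q s) = tr (p * q) s := by
  unfold tr
  rw [Finset.image_image]
  congr 1
  funext x
  exact (mul_assoc p q x).symm

theorem tr_empty (q : Q) : tr q ∅ = ∅ := rfl

theorem tr_inv_tr (q : Q) (s : Finset Q) : tr q⁻¹ (tr q s) = s := by
  rw [tr_tr, inv_mul_cancel, tr_one]

theorem tr_inter (q : Q) (s t : Finset Q) : tr q (s ∩ t) = tr q s ∩ tr q t :=
  Finset.image_inter s t (mul_right_injective q)

theorem tr_subset (q : Q) {s t : Finset Q} (h : s ⊆ t) : tr q s ⊆ tr q t :=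
  Finset.image_subset_image h

/-- `Q` is torsion-free -/
def TorFree (Q : Type u) [Group Q] : Prop := ∀ (q : Q) (n : ℕ), 0 < n → q ^ n = 1 → q = 1

theorem eq_one_of_tr (hQ : TorFree Q) {q : Q} {s : Finset Q} (hs : s.Nonempty)
    (h : tr q s = s) : q = 1 := by
  obtain ⟨x, hx⟩ := hs
  have h1 : ∀ n : ℕ, q ^ n * x ∈ s := by
    intro n
    induction n with
    | zero => rwa [pow_zero, one_mul]
    | succ n ih =>
      rw [pow_succ', mul_assoc, ← h]
      exact Finset.mem_image_of_mem _ ih
  have h2 : ¬ Function.Injective fun n : ℕ => (⟨q ^ n * x, h1 n⟩ : s) :=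
    not_injective_infinite_finite _
  rw [Function.Injective] at h2
  push Not at h2
  obtain ⟨m, n, hmn, hne⟩ := h2
  have h3 : q ^ m = q ^ n := mul_right_cancel (congrArg Subtype.val hmn)
  rcases lt_or_gt_of_ne hne with h4 | h4
  · refine hQ q (n - m) (by omega) ?_
    have : q ^ n = q ^ m * q ^ (n - m) := by rw [← pow_add]; congr 1; omega
    rw [this] at h3
    exact (mul_eq_left.1 h3.symm)
  · refine hQ q (m - n) (by omega) ?_
    have : q ^ m = q ^ n * q ^ (m - n) := by rw [← pow_add]; congr 1; omega
    rw [this] at h3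
    exact (mul_eq_left.1 h3)

/-- the orbit relation -/
def orb (Q : Type u) [Group Q] [DecidableEq Q] : Setoid (Finset Q) where
  r u v := ∃ a, u = tr a v
  iseqv :=
    { refl := fun u => ⟨1, (tr_one u).symm⟩
      symm := by
        rintro u v ⟨a, rfl⟩
        exact ⟨a⁻¹, (tr_inv_tr a v).symm⟩
      trans := by
        rintro u v w ⟨a, rfl⟩ ⟨b, rfl⟩
        exact ⟨a * b, tr_tr a b w⟩ }

/-- The vanishing of a sum over subsets from the vanishing of the sums over orbits. -/
theorem sum_eq_zero_of_orbits (hQ : TorFree Q) {C : Type v} [AddCommGroup C]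
    (f : Finset Q → C) (t : Finset Q) (h0 : f ∅ = 0) (ht : ∀ u, ¬ u ⊆ t → f u = 0)
    (h : ∀ s : Finset Q, ∃ F₀ : Finset Q, ∀ F, F₀ ⊆ F → ∑ a ∈ F, f (tr a s) = 0) :
    ∑ u ∈ t.powerset, f u = 0 := by
  classical
  refine Finset.sum_cancels_of_partition_cancels (orb Q) fun s hs => ?_
  rcases s.eq_empty_or_nonempty with rfl | hne
  · refine Finset.sum_eq_zero fun u hu => ?_
    obtain ⟨a, ha⟩ := (Finset.mem_filter.1 hu).2
    rw [ha, tr_empty, h0]
  · obtain ⟨F₀, hF₀⟩ := h s
    obtain ⟨x, hx⟩ := hne
    set F := F₀ ∪ t.image fun y => y * x⁻¹ with hF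
    have h1 := hF₀ F Finset.subset_union_left
    rw [← h1]
    symm
    refine Finset.sum_bij_ne_zero (fun a _ _ => tr a s) ?_ ?_ ?_ ?_
    · intro a _ ha
      rw [Finset.mem_filter, Finset.mem_powerset]
      refine ⟨?_, ⟨a, rfl⟩⟩
      by_contra hh
      exact ha (ht _ hh)
    · intro a _ _ b _ _ hab
      have h2 : tr (b⁻¹ * a) s = s := by
        rw [← tr_tr, hab, tr_inv_tr]
      have h3 := eq_one_of_tr hQ ⟨x, hx⟩ h2
      rw [inv_mul_eq_one] at h3
      exact h3.symm
    · intro u hu hfu
      rw [Finset.mem_filter, Finset.mem_powerset] at hu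
      obtain ⟨hut, a, rfl⟩ := hu
      refine ⟨a, ?_, hfu, rfl⟩
      rw [hF, Finset.mem_union]
      right
      rw [Finset.mem_image]
      exact ⟨a * x, hut (Finset.mem_image_of_mem _ hx), by rw [mul_assoc, mul_inv_cancel, mul_one]⟩
    · intro a _ _
      rfl

end trans

end

end Pool.Agent.Lib.MP_16fe43_al.Tr
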