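import Pool.Agent.Lib.MP_16fe43_al.TrHom

/-!
# Transfer homomorphisms of pairs of monomial representations
-/

set_option autoImplicit false
set_option linter.unusedSectionVars false

universe u v w x

namespace Pool.Agent.Lib.MP_16fe43_al.Tr

open Pool.Agent.Lib.MP_16fe43_al
open MonoidAlgebra (mapDomainRingHom)

noncomputable section

/-- a cocycle -/
def IsCo {G : Type u} {Q : Type v} {L : Type w} [Group G] [Group Q] [Group L] (sh : G →* Q)
    (co : G → Q → L) : Prop := ∀ g h x, co (g * h) x = co g (sh h * x) * co h x

/-- Two cocycles on a group `G` acting by translations on a group `Q` through a homomorphism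
`G → Q`, with values in a group `L`, such that for each `g` they differ at finitely many places
only. -/
structure MPair (G : Type u) (Q : Type v) (L : Type w) [Group G] [Group Q] [Group L] where
  /-- the translation part -/
  sh : G →* Q
  /-- the first cocycle -/
  co : G → Q → L
  /-- the second cocycle -/
  co' : G → Q → L
  co_mul : IsCo sh co
  co'_mul : IsCo sh co'
  fin : ∀ g, ∃ F : Finset Q, ∀ x, co g x ≠ co' g x → sh g * x ∈ F

section act

variable {G : Type u} {Q : Type v} {L : Type w} [Group G] [Group Q] [Group L]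

theorem IsCo.one {sh : G →* Q} {co : G → Q → L} (h : IsCo sh co) (x : Q) : co 1 x = 1 := by
  have h1 := h 1 1 x
  rw [map_one, one_mul, one_mul] at h1
  exact (mul_eq_left.1 h1.symm)

/-- the operator of a group element -/
def actOp (sh : G →* Q) (co : G → Q → L) (g : G) : Opr Q (MonoidAlgebra ℤ L) :=
  colOp fun x => Finsupp.single (sh g * x) (MonoidAlgebra.single (co g x) 1)

theorem ent_actOp [DecidableEq Q] (sh : G →* Q) (co : G → Q → L) (g : G) (a b : Q) :
    ent (actOp sh co g) a b =
      if a = sh g * b then MonoidAlgebra.single (co g b) 1 else 0 := by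
  unfold actOp
  rw [ent_colOp, Finsupp.single_apply]
  simp only [eq_comm]

/-- the action of the group -/
def actHom (sh : G →* Q) (co : G → Q → L) (h : IsCo sh co) : G →* Opr Q (MonoidAlgebra ℤ L) where
  toFun g := actOp sh co g
  map_one' := by
    classical
    apply op_ext
    intro a b
    rw [ent_actOp, ent_one, map_one, one_mul, h.one]
    rfl
  map_mul' g g' := by
    classical
    apply op_ext
    intro a b
    rw [ent_mul_of_subset _ _ _ _ {sh g' * b} (by
      intro c hc
      rw [ent_actOp] at hc
      rw [Finset.mem_singleton]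
      by_contra h'
      exact hc (if_neg h')), Finset.sum_singleton, ent_actOp, ent_actOp, ent_actOp, if_pos rfl,
      map_mul, h g g' b, mul_assoc]
    split_ifs
    · rw [MonoidAlgebra.single_mul_single, mul_one]
    · rw [zero_mul]

/-- the action of the group ring -/
def rho (sh : G →* Q) (co : G → Q → L) (h : IsCo sh co) :
    MonoidAlgebra ℤ G →+* Opr Q (MonoidAlgebra ℤ L) :=
  (MonoidAlgebra.lift ℤ (Opr Q (MonoidAlgebra ℤ L)) G (actHom sh co h) :
    MonoidAlgebra ℤ G →ₐ[ℤ] Opr Q (MonoidAlgebra ℤ L)).toRingHom

theorem ent_rho_single [DecidableEq Q] (sh : G →* Q) (co : G → Q → L) (h : IsCo sh co) (g : G)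
    (n : ℤ) (a b : Q) :
    ent (rho sh co h (MonoidAlgebra.single g n)) a b =
      if a = sh g * b then MonoidAlgebra.single (co g b) n else 0 := by
  have h0 : rho sh co h (MonoidAlgebra.single g n) = n • actOp sh co g := by
    show MonoidAlgebra.lift ℤ (Opr Q (MonoidAlgebra ℤ L)) G (actHom sh co h)
      (MonoidAlgebra.single g n) = _
    rw [MonoidAlgebra.lift_single]
    rfl
  have h1 : ∀ (z : Opr Q (MonoidAlgebra ℤ L)), ent (n • z) a b = n • ent z a b := fun z =>
    map_zsmul (AddMonoidHom.mk' (fun z : Opr Q (MonoidAlgebra ℤ L) => ent z a b)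
      (fun x y => ent_add x y a b)) n z
  rw [h0, h1, ent_actOp]
  split_ifs
  · rw [MonoidAlgebra.smul_single, smul_eq_mul, mul_one]
  · rw [smul_zero]

/-- the subgroup acting diagonally -/
theorem ent_rho_diag [DecidableEq Q] (sh : G →* Q) (co : G → Q → L) (h : IsCo sh co)
    {N : Type x} [Group N] (j : N →* G) (hj : ∀ n, sh (j n) = 1) (ψ : Q → (N →* L))
    (hψ : ∀ x n, ψ x n = co (j n) x) (n : MonoidAlgebra ℤ N) (a b : Q) :
    ent (rho sh co h (mapDomainRingHom ℤ j n)) a b =
      if a = b then mapDomainRingHom ℤ (ψ b) n else 0 := by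
  induction n using MonoidAlgebra.induction_linear with
  | zero => rw [map_zero, map_zero, ent_zero, map_zero, ite_self]
  | add x y hx hy =>
    rw [map_add, map_add, ent_add, hx, hy, map_add]
    split_ifs <;> simp
  | single g m =>
    have h1 : mapDomainRingHom ℤ j (MonoidAlgebra.single g m) =
      MonoidAlgebra.single (j g) m := MonoidAlgebra.mapDomain_single
    have h2 : mapDomainRingHom ℤ (ψ b) (MonoidAlgebra.single g m) =
      MonoidAlgebra.single (co (j g) b) m := by
      rw [← hψ]
      exact MonoidAlgebra.mapDomain_single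
    rw [h1, h2, ent_rho_single, hj, one_mul]

end act

namespace MPair

variable {G : Type u} {Q : Type v} {L : Type w} [Group G] [Group Q] [Group L]
variable (M : MPair G Q L)

/-- the pair of representations -/
def pair : Pair (MonoidAlgebra ℤ G) Q (MonoidAlgebra ℤ L) where
  th := rho M.sh M.co M.co_mul
  th' := rho M.sh M.co' M.co'_mul
  fin s := by
    classical
    induction s using MonoidAlgebra.induction_linear with
    | zero =>
      refine ⟨∅, fun a b h => ?_⟩
      rw [map_zero, map_zero] at h
      exact absurd rfl h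
    | add x y hx hy =>
      obtain ⟨F, hF⟩ := hx
      obtain ⟨F', hF'⟩ := hy
      refine ⟨F ∪ F', fun a b h => ?_⟩
      rw [map_add, map_add, ent_add, ent_add] at h
      rw [Finset.mem_union]
      by_contra hh
      rw [not_or] at hh
      have h1 := not_imp_not.2 (hF a b) hh.1
      have h2 := not_imp_not.2 (hF' a b) hh.2
      rw [not_not] at h1 h2
      rw [h1, h2] at h
      exact h rfl
    | single g n =>
      obtain ⟨F, hF⟩ := M.fin g
      refine ⟨F, fun a b h => ?_⟩
      rw [ent_rho_single, ent_rho_single] at h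
      by_cases hab : a = M.sh g * b
      · rw [if_pos hab, if_pos hab] at h
        rw [hab]
        apply hF b
        intro h2
        exact h (by rw [h2])
      · rw [if_neg hab, if_neg hab] at h
        exact absurd rfl h

/-- The transfer homomorphism. -/
def tr [DecidableEq Q] : K1 (MonoidAlgebra ℤ G) →+ K1 (MonoidAlgebra ℤ L) := M.pair.tau

variable {N : Type x} [Group N]

/-- the values of a cocycle on a group acting without translation -/
def coHom {sh : G →* Q} {co : G → Q → L} (h : IsCo sh co) (j : N →* G)
    (hj : ∀ n, sh (j n) = 1) (x : Q) : N →* L where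
  toFun n := co (j n) x
  map_one' := by rw [map_one, h.one]
  map_mul' n m := by rw [map_mul, h, hj, one_mul]

/-- the values of the transfer homomorphism on a normal subgroup -/
theorem tr_map [DecidableEq Q] (j : N →* G) (hj : ∀ n, M.sh (j n) = 1) (z : K1 (MonoidAlgebra ℤ N)) :
    ∃ F₀ : Finset Q, ∀ F, F₀ ⊆ F → M.tr (K1.map (mapDomainRingHom ℤ j) z) =
      ∑ a ∈ F, (K1.map (mapDomainRingHom ℤ (coHom M.co_mul j hj a)) z -
        K1.map (mapDomainRingHom ℤ (coHom M.co'_mul j hj a)) z) := by
  let d : M.pair.Diag (MonoidAlgebra ℤ N) :=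
    { j := mapDomainRingHom ℤ j
      ps := fun a => mapDomainRingHom ℤ (coHom M.co_mul j hj a)
      ps' := fun a => mapDomainRingHom ℤ (coHom M.co'_mul j hj a)
      comp := fun n a b => ent_rho_diag M.sh M.co M.co_mul j hj _ (fun _ _ => rfl) n a b
      comp' := fun n a b => ent_rho_diag M.sh M.co' M.co'_mul j hj _ (fun _ _ => rfl) n a b }
  exact d.tau_map z

end MPair

end

end Pool.Agent.Lib.MP_16fe43_al.Tr
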