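import Pool.Agent.Lib.MP_16fe43_al.K1Block
import Pool.Agent.Lib.MP_16fe43_al.Inj

/-!
# Column-finite matrices over an arbitrary index set, and the classes of finitary matrices
-/

set_option autoImplicit false
set_option linter.unusedSectionVars false

universe u v w

open Matrix

namespace Pool.Agent.Lib.MP_16fe43_al.Tr

open Pool.Agent.Lib.MP_16fe43_al

noncomputable section

/-- Right `R`-linear endomorphisms of `R^(I)`. -/
def Opr (I : Type v) (R : Type u) [Ring R] : Type (max u v) := Module.End Rᵐᵒᵖ (I →₀ R)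

instance (I : Type v) (R : Type u) [Ring R] : Ring (Opr I R) :=
  inferInstanceAs (Ring (Module.End Rᵐᵒᵖ (I →₀ R)))

instance (I : Type v) (R : Type u) [Ring R] : FunLike (Opr I R) (I →₀ R) (I →₀ R) :=
  inferInstanceAs (FunLike (Module.End Rᵐᵒᵖ (I →₀ R)) (I →₀ R) (I →₀ R))

instance (I : Type v) (R : Type u) [Ring R] : LinearMapClass (Opr I R) Rᵐᵒᵖ (I →₀ R) (I →₀ R) :=
  inferInstanceAs (LinearMapClass (Module.End Rᵐᵒᵖ (I →₀ R)) Rᵐᵒᵖ (I →₀ R) (I →₀ R))

variable {I : Type v} {R : Type u} [Ring R]

/-- The matrix entries of an operator. -/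
def ent (x : Opr I R) (a b : I) : R := x (Finsupp.single b 1) a

theorem op_single (b : I) (r : R) :
    (Finsupp.single b r : I →₀ R) = MulOpposite.op r • Finsupp.single b 1 := by
  rw [Finsupp.smul_single, MulOpposite.smul_eq_mul_unop, MulOpposite.unop_op, one_mul]

theorem op_apply_single (x : Opr I R) (a b : I) (r : R) :
    x (Finsupp.single b r) a = ent x a b * r := by
  rw [op_single, map_smul, Finsupp.smul_apply, MulOpposite.smul_eq_mul_unop,
    MulOpposite.unop_op]
  rfl

theorem op_apply (x : Opr I R) (v : I →₀ R) (a : I) :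
    x v a = v.sum fun c r => ent x a c * r := by
  conv_lhs => rw [← Finsupp.sum_single v]
  rw [Finsupp.sum, map_sum, Finsupp.finsetSum_apply]
  exact Finset.sum_congr rfl fun c _ => op_apply_single x a c (v c)

theorem op_ext {x y : Opr I R} (h : ∀ a b, ent x a b = ent y a b) : x = y := by
  apply DFunLike.ext
  intro v
  ext a
  rw [op_apply, op_apply]
  simp only [h]

theorem ent_mul (x y : Opr I R) (a b : I) :
    ent (x * y) a b = (y (Finsupp.single b 1)).sum fun c r => ent x a c * r := by
  rw [← op_apply]; rfl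

theorem ent_mul_of_subset (x y : Opr I R) (a b : I) (t : Finset I)
    (h : ∀ c, ent y c b ≠ 0 → c ∈ t) :
    ent (x * y) a b = ∑ c ∈ t, ent x a c * ent y c b := by
  rw [ent_mul, Finsupp.sum]
  apply Finset.sum_subset
  · intro c hc
    exact h c (Finsupp.mem_support_iff.mp hc)
  · intro c _ hc
    rw [Finsupp.notMem_support_iff.mp hc, mul_zero]

@[simp] theorem ent_zero (a b : I) : ent (0 : Opr I R) a b = 0 := rfl

@[simp] theorem ent_add (x y : Opr I R) (a b : I) : ent (x + y) a b = ent x a b + ent y a b := rfl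

@[simp] theorem ent_neg (x : Opr I R) (a b : I) : ent (-x) a b = -ent x a b := rfl

@[simp] theorem ent_sub (x y : Opr I R) (a b : I) : ent (x - y) a b = ent x a b - ent y a b := by
  have h := ent_add (x - y) y a b
  have h2 : x - y + y = x := sub_add_cancel x y
  rw [h2] at h
  exact eq_sub_of_add_eq h.symm

theorem ent_one [DecidableEq I] (a b : I) : ent (1 : Opr I R) a b = if a = b then 1 else 0 := by
  change (Finsupp.single b (1 : R)) a = _
  rw [Finsupp.single_apply]
  simp only [eq_comm]

theorem ent_sum {ι : Type*} (s : Finset ι) (x : ι → Opr I R) (a b : I) :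
    ent (∑ i ∈ s, x i) a b = ∑ i ∈ s, ent (x i) a b := by
  classical
  induction s using Finset.induction_on with
  | empty => simp
  | insert i s hi ih => rw [Finset.sum_insert hi, Finset.sum_insert hi, ent_add, ih]

/-- the support of a column is finite -/
theorem exists_col (x : Opr I R) (b : I) : ∃ F : Finset I, ∀ a, ent x a b ≠ 0 → a ∈ F :=
  ⟨(x (Finsupp.single b 1)).support, fun _ ha => Finsupp.mem_support_iff.2 ha⟩

/-- The operator with given columns. -/
def colOp (m : I → (I →₀ R)) : Opr I R :=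
  ({ toFun := fun v => v.sum fun x r => MulOpposite.op r • m x
     map_add' := fun v w => by
      classical
      rw [Finsupp.sum_add_index']
      · intro a; rw [MulOpposite.op_zero, zero_smul]
      · intro a b c; rw [MulOpposite.op_add, add_smul]
     map_smul' := fun s v => by
      rw [Finsupp.sum_smul_index', Finsupp.smul_sum]
      · simp only [RingHom.id_apply]
        refine Finsupp.sum_congr fun x _ => ?_
        rw [MulOpposite.smul_eq_mul_unop, MulOpposite.op_mul, MulOpposite.op_unop, mul_smul]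
      · intro a; rw [MulOpposite.op_zero, zero_smul] } : (I →₀ R) →ₗ[Rᵐᵒᵖ] (I →₀ R))

theorem ent_colOp (m : I → (I →₀ R)) (a b : I) : ent (colOp m) a b = m b a := by
  change ((Finsupp.single b (1 : R)).sum fun x r => MulOpposite.op r • m x) a = _
  rw [Finsupp.sum_single_index, MulOpposite.op_one, one_smul]
  rw [MulOpposite.op_zero, zero_smul]

/-! ### Flattening matrices of operators -/

section flat

variable {ι : Type*} {κ : Type*} {μ : Type*}

/-- The rectangular block of a matrix of operators with coordinates in `s`, `t`. -/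
def flat (s t : Finset I) (X : Matrix ι κ (Opr I R)) : Matrix (ι × s) (κ × t) R :=
  fun p q => ent (X p.1 q.1) p.2 q.2

theorem flat_mul [Fintype κ] (s t w : Finset I) (X : Matrix ι κ (Opr I R))
    (Y : Matrix κ μ (Opr I R))
    (h : ∀ k j a b, b ∈ w → ent (Y k j) a b ≠ 0 → a ∈ t) :
    flat s w (X * Y) = (flat s t X * flat t w Y : Matrix (ι × s) (μ × w) R) := by
  ext p q
  simp only [flat, Matrix.mul_apply]
  rw [ent_sum, Fintype.sum_prod_type]
  apply Finset.sum_congr rfl
  intro k _
  rw [ent_mul_of_subset _ _ _ _ t (fun c hc => h k q.1 c q.2 q.2.2 hc),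
    ← Finset.sum_coe_sort]

theorem flat_add (s t : Finset I) (X Y : Matrix ι κ (Opr I R)) :
    flat s t (X + Y) = flat s t X + flat s t Y := by
  ext p q
  rfl

theorem flat_neg (s t : Finset I) (X : Matrix ι κ (Opr I R)) :
    flat s t (-X) = -flat s t X := by
  ext p q
  rfl

theorem flat_one [DecidableEq ι] [DecidableEq I] (s : Finset I) :
    flat s s (1 : Matrix ι ι (Opr I R)) = 1 := by
  ext ⟨i, a⟩ ⟨j, b⟩
  show ent ((1 : Matrix ι ι (Opr I R)) i j) a b = (1 : Matrix (ι × s) (ι × s) R) (i, a) (j, b)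
  by_cases h : i = j
  · subst h
    rw [Matrix.one_apply_eq, ent_one]
    by_cases h' : a = b
    · subst h'; simp
    · rw [if_neg (fun h => h' (Subtype.ext h)), Matrix.one_apply_ne]
      simpa using h'
  · rw [Matrix.one_apply_ne h, Matrix.one_apply_ne]
    · rfl
    · simp [h]

/-- the image is contained in the span of the coordinates in `F` -/
def InF (F : Finset I) (X : Matrix ι κ (Opr I R)) : Prop :=
  ∀ i j a b, ent (X i j) a b ≠ 0 → a ∈ F

theorem InF.mono {F F' : Finset I} (h : F ⊆ F') {X : Matrix ι κ (Opr I R)} (hX : InF F X) :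
    InF F' X := fun i j a b hab => h (hX i j a b hab)

theorem InF.neg {F : Finset I} {X : Matrix ι κ (Opr I R)} (hX : InF F X) : InF F (-X) := by
  intro i j a b hab
  apply hX i j a b
  intro h
  apply hab
  rw [Matrix.neg_apply, ent_neg, h, neg_zero]

theorem InF.add {F : Finset I} {X Y : Matrix ι κ (Opr I R)} (hX : InF F X) (hY : InF F Y) :
    InF F (X + Y) := by
  intro i j a b hab
  by_cases h : ent (X i j) a b = 0
  · apply hY i j a b
    intro h'
    apply hab
    rw [Matrix.add_apply, ent_add, h, h', add_zero]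
  · exact hX i j a b h

theorem exists_ne_of_ent_mul [Fintype κ] {X : Matrix ι κ (Opr I R)} {Y : Matrix κ μ (Opr I R)}
    {i : ι} {j : μ} {a b : I} (h : ent ((X * Y) i j) a b ≠ 0) :
    ∃ k c, ent (X i k) a c ≠ 0 ∧ ent (Y k j) c b ≠ 0 := by
  rw [Matrix.mul_apply, ent_sum] at h
  obtain ⟨k, _, hk⟩ := Finset.exists_ne_zero_of_sum_ne_zero h
  rw [ent_mul, Finsupp.sum] at hk
  obtain ⟨c, hc, hkc⟩ := Finset.exists_ne_zero_of_sum_ne_zero hk
  exact ⟨k, c, left_ne_zero_of_mul hkc, right_ne_zero_of_mul hkc⟩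

theorem InF.mul_right [Fintype κ] {F : Finset I} {X : Matrix ι κ (Opr I R)} (hX : InF F X)
    (Y : Matrix κ μ (Opr I R)) : InF F (X * Y) := by
  intro i j a b hab
  obtain ⟨k, c, h1, _⟩ := exists_ne_of_ent_mul hab
  exact hX i k a c h1

/-- columns in `F` have their entries in rows in `F'` -/
def ColF (F F' : Finset I) (X : Matrix ι κ (Opr I R)) : Prop :=
  ∀ i j a b, b ∈ F → ent (X i j) a b ≠ 0 → a ∈ F'

theorem exists_colF [Fintype ι] [Fintype κ] (F : Finset I) (X : Matrix ι κ (Opr I R)) :
    ∃ F', ColF F F' X := by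
  classical
  choose G hG using fun (i : ι) (j : κ) (b : I) => exists_col (X i j) b
  refine ⟨Finset.univ.biUnion fun i => Finset.univ.biUnion fun j => F.biUnion fun b => G i j b,
    fun i j a b hb hab => ?_⟩
  simp only [Finset.mem_biUnion, Finset.mem_univ, true_and]
  exact ⟨i, j, b, hb, hG i j b a hab⟩

theorem ColF.mono {F F' F'' : Finset I} (h : F' ⊆ F'') {X : Matrix ι κ (Opr I R)}
    (hX : ColF F F' X) : ColF F F'' X := fun i j a b hb hab => h (hX i j a b hb hab)

theorem InF.left_mul [Fintype κ] {F F' : Finset I} {X : Matrix ι κ (Opr I R)}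
    {Y : Matrix κ μ (Opr I R)} (hX : ColF F F' X) (hY : InF F Y) : InF F' (X * Y) := by
  intro i j a b hab
  obtain ⟨k, c, h1, h2⟩ := exists_ne_of_ent_mul hab
  exact hX i k a c (hY k j c b h2) h1

end flat

/-! ### Classes of finitary matrices -/

section kappa

variable {ι : Type*} [Fintype ι] [DecidableEq ι] [DecidableEq I]

theorem colF_of_inF {F : Finset I} {u : Matrix ι ι (Opr I R)} (hu : InF F (u - 1)) :
    ColF F F u := by
  intro i j a b hb hab
  by_contra ha
  have h1 : ent ((u - 1) i j) a b = 0 := by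
    by_contra h
    exact ha (hu i j a b h)
  rw [Matrix.sub_apply, ent_sub, sub_eq_zero] at h1
  rw [h1] at hab
  by_cases hij : i = j
  · subst hij
    rw [Matrix.one_apply_eq, ent_one] at hab
    by_cases h : a = b
    · rw [h] at ha; exact ha hb
    · rw [if_neg h] at hab; exact hab rfl
  · rw [Matrix.one_apply_ne hij] at hab
    exact hab rfl

theorem flat_mul_fin {F : Finset I} (u v : Matrix ι ι (Opr I R)) (hv : InF F (v - 1)) :
    flat F F (u * v) = (flat F F u * flat F F v : Matrix (ι × F) (ι × F) R) :=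
  flat_mul F F F u v fun k j a b hb hab => colF_of_inF hv k j a b hb hab

theorem isUnit_flat {F : Finset I} {u u' : Matrix ι ι (Opr I R)} (h : u * u' = 1)
    (h' : u' * u = 1) (hu : InF F (u - 1)) : IsUnit (flat F F u) ∧ InF F (u' - 1) := by
  have hu' : InF F (u' - 1) := by
    have : u' - 1 = -((u - 1) * u') := by rw [sub_mul, h, one_mul, neg_sub]
    rw [this]
    exact (hu.mul_right u').neg
  refine ⟨⟨⟨flat F F u, flat F F u', ?_, ?_⟩, rfl⟩, hu'⟩
  · rw [← flat_mul_fin u u' hu', h, flat_one]
  · rw [← flat_mul_fin u' u hu, h', flat_one]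

theorem cm_flat_mono {F F' : Finset I} (h : F ⊆ F') {u : Matrix ι ι (Opr I R)}
    (hu : InF F (u - 1)) : cm (flat F' F' u) = cm (flat F F u) := by
  have e1 : u = 1 + (u - 1) := by abel
  have e2 : flat F' F' u = 1 - (flat F' F (1 : Matrix ι ι (Opr I R)) * flat F F' (-(u - 1)) :
      Matrix (ι × F') (ι × F') R) := by
    conv_lhs => rw [e1, flat_add, flat_one]
    have : flat F' F' (u - 1) = flat F' F' (1 * (u - 1)) := by rw [one_mul]
    rw [this, flat_mul F' F F' 1 (u - 1) (fun k j a b _ hab => hu k j a b hab), flat_neg,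
      Matrix.mul_neg, sub_neg_eq_add]
  have e3 : flat F F u = 1 - (flat F F' (-(u - 1)) * flat F' F (1 : Matrix ι ι (Opr I R)) :
      Matrix (ι × F) (ι × F) R) := by
    conv_lhs => rw [e1, flat_add, flat_one]
    have : flat F F (u - 1) = flat F F ((u - 1) * 1) := by rw [mul_one]
    rw [this, flat_mul F F' F (u - 1) 1 ?_, flat_neg, Matrix.neg_mul, sub_neg_eq_add]
    intro k j a b hb hab
    by_cases hkj : k = j
    · subst hkj
      rw [Matrix.one_apply_eq, ent_one] at hab
      by_cases hh : a = b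
      · rw [hh]; exact h hb
      · rw [if_neg hh] at hab; exact absurd rfl hab
    · rw [Matrix.one_apply_ne hkj] at hab
      exact absurd rfl hab
  rw [e2, e3, cm_one_sub_mul_comm]

theorem cm_flat_eq {F F' : Finset I} {u : Matrix ι ι (Opr I R)}
    (hu : InF F (u - 1)) (hu' : InF F' (u - 1)) : cm (flat F' F' u) = cm (flat F F u) := by
  rw [← cm_flat_mono (Finset.subset_union_left (s₁ := F) (s₂ := F')) hu,
    ← cm_flat_mono (Finset.subset_union_right (s₁ := F) (s₂ := F')) hu']

open Classical in
/-- The class of a finitary matrix. -/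
def kap (u : Matrix ι ι (Opr I R)) : K1 R :=
  if h : ∃ F : Finset I, InF F (u - 1) then cm (flat h.choose h.choose u) else 0

theorem kap_eq {F : Finset I} {u : Matrix ι ι (Opr I R)} (hu : InF F (u - 1)) :
    kap u = cm (flat F F u) := by
  have h : ∃ F : Finset I, InF F (u - 1) := ⟨F, hu⟩
  unfold kap
  rw [dif_pos h]
  exact cm_flat_eq hu h.choose_spec

theorem kap_mul {F : Finset I} {u u' v v' : Matrix ι ι (Opr I R)} (h1 : u * u' = 1)
    (h2 : u' * u = 1) (h3 : v * v' = 1) (h4 : v' * v = 1)
    (hu : InF F (u - 1)) (hv : InF F (v - 1)) :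
    InF F (u * v - 1) ∧ kap (u * v) = kap u + kap v := by
  have huv : InF F (u * v - 1) := by
    have : u * v - 1 = (u - 1) * v + (v - 1) := by rw [sub_mul, one_mul]; abel
    rw [this]
    exact (hu.mul_right v).add hv
  refine ⟨huv, ?_⟩
  rw [kap_eq huv, kap_eq hu, kap_eq hv, flat_mul_fin u v hv,
    cm_mul (isUnit_flat h1 h2 hu).1 (isUnit_flat h3 h4 hv).1]

theorem kap_conj {F : Finset I} {g g' u : Matrix ι ι (Opr I R)} (h1 : g * g' = 1)
    (h2 : g' * g = 1) (hu : InF F (u - 1)) :
    ∃ F', InF F' (g * u * g' - 1) ∧ kap (g * u * g') = kap u := by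
  obtain ⟨F', hF'⟩ := exists_colF F g
  have e0 : g * u * g' - 1 = g * ((u - 1) * g') := by
    rw [sub_mul, one_mul, mul_sub, ← mul_assoc, h1]
  have h3 : InF F ((u - 1) * g') := hu.mul_right g'
  have h4 : InF F' (g * u * g' - 1) := by
    rw [e0]
    exact InF.left_mul hF' h3
  refine ⟨F', h4, ?_⟩
  rw [kap_eq h4, kap_eq hu]
  have e1 : g * u * g' = 1 + g * ((u - 1) * g') := by rw [← e0]; abel
  have e2 : flat F' F' (g * u * g') = 1 - (flat F' F g * flat F F' (-((u - 1) * g')) :
      Matrix (ι × F') (ι × F') R) := by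
    rw [e1, flat_add, flat_one, flat_mul F' F F' g _ (fun k j a b _ hab => h3 k j a b hab),
      flat_neg, Matrix.mul_neg, sub_neg_eq_add]
  have e3 : flat F F u = 1 - (flat F F' (-((u - 1) * g')) * flat F' F g :
      Matrix (ι × F) (ι × F) R) := by
    have : u = 1 + ((u - 1) * g') * g := by
      rw [mul_assoc, h2, mul_one]; abel
    conv_lhs => rw [this, flat_add, flat_one]
    rw [flat_mul F F' F _ g hF', flat_neg, Matrix.neg_mul, sub_neg_eq_add]
  rw [e2, e3, cm_one_sub_mul_comm]

end kappa

end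

end Pool.Agent.Lib.MP_16fe43_al.Tr
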