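import Pool.Agent.Lib.MP_16fe43_al.WhWreath

/-!
# The Whitehead group of `H ≀ ℤ` (statement layer)
-/

set_option autoImplicit false

universe u v w

namespace Pool.Agent.Lib.MP_16fe43_al

open MonoidAlgebra

/-- The group `⊕_ℤ H` of the functions `ℤ → H` that are `1` outside a finite set. -/
def DirSum (H : Type u) [Group H] : Type u := FS H

instance instGroupDirSum (H : Type u) [Group H] : Group (DirSum H) := (FS H).toGroup

/-- The translation of `⊕_ℤ H` by `n`: `(shiftBy n f) i = f (i - n)`. -/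
def shiftBy {H : Type u} [Group H] (n : ℤ) : DirSum H →* DirSum H where
  toFun f := transl n f
  map_one' := rfl
  map_mul' _ _ := rfl

theorem shiftBy_add {H : Type u} [Group H] (m n : ℤ) (f : DirSum H) :
    shiftBy m (shiftBy n f) = shiftBy (m + n) f := transl_transl m n f

theorem shiftBy_zero {H : Type u} [Group H] (f : DirSum H) : shiftBy 0 f = f := transl_zero f

/-- The restricted wreath product `H ≀ ℤ`: pairs `(f, n)`, `f ∈ ⊕_ℤ H`, `n ∈ ℤ`, with
`(f, m) (g, n) = (f · σᵐ(g), m + n)`, where `(σᵐ(g)) i = g (i - m)`. -/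
@[ext] structure WrP (H : Type u) [Group H] : Type u where
  /-- the component in the base group -/
  base : DirSum H
  /-- the component in `ℤ` -/
  pow : ℤ

section

variable {H : Type u} [Group H]

instance instMulWrP : Mul (WrP H) := ⟨fun a b => ⟨a.base * shiftBy a.pow b.base, a.pow + b.pow⟩⟩

instance instOneWrP : One (WrP H) := ⟨⟨1, 0⟩⟩

instance instInvWrP : Inv (WrP H) := ⟨fun a => ⟨shiftBy (-a.pow) a.base⁻¹, -a.pow⟩⟩

theorem WrP.mul_def (a b : WrP H) : a * b = ⟨a.base * shiftBy a.pow b.base, a.pow + b.pow⟩ := rfl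

theorem WrP.one_def : (1 : WrP H) = ⟨1, 0⟩ := rfl

theorem WrP.inv_def (a : WrP H) : a⁻¹ = ⟨shiftBy (-a.pow) a.base⁻¹, -a.pow⟩ := rfl

theorem WrP.mul_assoc' (a b c : WrP H) : a * b * c = a * (b * c) := by
  rw [WrP.mul_def, WrP.mul_def, WrP.mul_def, WrP.mul_def]
  refine WrP.ext ?_ (add_assoc _ _ _)
  show a.base * shiftBy a.pow b.base * shiftBy (a.pow + b.pow) c.base =
    a.base * shiftBy a.pow (b.base * shiftBy b.pow c.base)
  rw [map_mul, shiftBy_add, mul_assoc]

theorem WrP.one_mul' (a : WrP H) : 1 * a = a := by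
  rw [WrP.mul_def, WrP.one_def]
  refine WrP.ext ?_ (zero_add _)
  show 1 * shiftBy 0 a.base = a.base
  rw [shiftBy_zero, one_mul]

theorem WrP.inv_mul' (a : WrP H) : a⁻¹ * a = 1 := by
  rw [WrP.mul_def, WrP.inv_def, WrP.one_def]
  refine WrP.ext ?_ (neg_add_cancel _)
  show shiftBy (-a.pow) a.base⁻¹ * shiftBy (-a.pow) a.base = 1
  rw [← map_mul, inv_mul_cancel, map_one]

instance instGroupWrP : Group (WrP H) :=
  Group.ofLeftAxioms WrP.mul_assoc' WrP.one_mul' WrP.inv_mul'

theorem baseHom_mul (f g : DirSum H) : (⟨f * g, 0⟩ : WrP H) = ⟨f, 0⟩ * ⟨g, 0⟩ := by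
  rw [WrP.mul_def]
  refine WrP.ext ?_ (add_zero _).symm
  show f * g = f * shiftBy 0 g
  rw [shiftBy_zero]

end

/-- The inclusion of the base group `⊕_ℤ H` into `H ≀ ℤ`. -/
def baseHom (H : Type u) [Group H] : DirSum H →* WrP H where
  toFun f := ⟨f, 0⟩
  map_one' := rfl
  map_mul' := baseHom_mul

/-- comparison with the semidirect product -/
def wrEquiv (H : Type u) [Group H] : WrP H ≃* Wr H where
  toFun a := ⟨a.base, Multiplicative.ofAdd a.pow⟩
  invFun b := ⟨b.left, Multiplicative.toAdd b.right⟩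
  left_inv _ := rfl
  right_inv _ := rfl
  map_mul' a b := by
    rw [WrP.mul_def]
    have h1 : ∀ b : FS H, transl a.pow b = ((shift H) ^ a.pow) b := by
      intro b
      apply Subtype.ext
      funext i
      rw [shift_zpow_apply]
      rfl
    refine SemidirectProduct.ext ?_ rfl
    exact congrArg (fun z : FS H => (show FS H from a.base) * z) (h1 b.base)

/-- The subgroup of `Wh(⊕_ℤ H)` generated by the elements `σ(x) - x`, where `σ` is induced by the
shift `f ↦ (i ↦ f (i - 1))`. -/
noncomputable def shiftDiff (H : Type u) [Group H] : AddSubgroup (BHS16.Wh (DirSum H)) :=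
  AddSubgroup.closure (Set.range fun x => whMap (shiftBy 1) x - x)

theorem shiftDiff_eq (H : Type u) [Group H] : shiftDiff H = coinv H := by
  apply le_antisymm
  · unfold shiftDiff
    rw [AddSubgroup.closure_le]
    rintro _ ⟨x, rfl⟩
    exact ⟨x, rfl⟩
  · rintro _ ⟨x, rfl⟩
    exact AddSubgroup.subset_closure ⟨x, rfl⟩

theorem whMap_comp {G : Type u} {G' : Type v} {G'' : Type w} [Group G] [Group G'] [Group G'']
    (f : G →* G') (g : G' →* G'') (x : BHS16.Wh G) : whMap (g.comp f) x = whMap g (whMap f x) := by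
  obtain ⟨y, rfl⟩ := whC_surjective x
  rw [whMap_whC, whMap_whC, whMap_whC, mapDomainRingHom_comp, K1.map_comp]

theorem whMap_id {G : Type u} [Group G] (x : BHS16.Wh G) : whMap (MonoidHom.id G) x = x := by
  obtain ⟨y, rfl⟩ := whC_surjective x
  rw [whMap_whC, mapDomainRingHom_id, K1.map_id]

theorem whMap_base (H : Type u) [Group H] (x : BHS16.Wh (DirSum H)) :
    whMap ((wrEquiv H : WrP H ≃* Wr H) : WrP H →* Wr H) (whMap (baseHom H) x) =
      whMap (SemidirectProduct.inl : FS H →* Wr H) x := by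
  rw [← whMap_comp]
  rfl

theorem whMap_base' (H : Type u) [Group H] (x : BHS16.Wh (DirSum H)) :
    whMap (((wrEquiv H).symm : Wr H ≃* WrP H) : Wr H →* WrP H)
      (whMap (SemidirectProduct.inl : FS H →* Wr H) x) = whMap (baseHom H) x := by
  rw [← whMap_comp]
  rfl

theorem whP_surj (H : Type u) [Group H] : Function.Surjective (whMap (baseHom H)) := by
  intro y
  obtain ⟨x, hx⟩ := wh_surj (H := H) (whMap ((wrEquiv H : WrP H ≃* Wr H) : WrP H →* Wr H) y)
  refine ⟨x, ?_⟩
  rw [← whMap_base', hx, ← whMap_comp]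
  exact whMap_id y

theorem whP_ker (H : Type u) [Group H] : (whMap (baseHom H)).ker = shiftDiff H := by
  rw [shiftDiff_eq]
  have h0 := wh_ker (H := H)
  ext x
  constructor
  · intro h
    rw [AddMonoidHom.mem_ker] at h
    rw [← h0]
    show whMap (SemidirectProduct.inl : FS H →* Wr H) x = 0
    rw [← whMap_base, h, map_zero]
  · intro h
    rw [← h0] at h
    have h' : whMap (SemidirectProduct.inl : FS H →* Wr H) x = 0 := h
    rw [AddMonoidHom.mem_ker, ← whMap_base', h', map_zero]

end Pool.Agent.Lib.MP_16fe43_al
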