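import Pool.Agent.Lib.MP_16fe43_al.TrMono
import Pool.Agent.Lib.MP_16fe43_al.TrMob
import Pool.Agent.Lib.MP_16fe43_al.WhWreath2

/-!
# Groups with a system of retractions
-/

set_option autoImplicit false
set_option linter.unusedSectionVars false

universe u v w x

namespace Pool.Agent.Lib.MP_16fe43_al.Tr

open Pool.Agent.Lib.MP_16fe43_al
open MonoidAlgebra (mapDomainRingHom)

noncomputable section

/-- A commuting system of retractions of a group `B` indexed by the finite subsets of a group `Q`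
that acts on `B`. -/
structure RSys (B : Type u) (Q : Type v) [Group B] [Group Q] [DecidableEq Q]
    (φ : Q →* MulAut B) where
  /-- the retraction of index `s` -/
  ret : Finset Q → (B →* B)
  inter : ∀ s t b, ret s (ret t b) = ret (s ∩ t) b
  cover : ∀ b, ∃ s, ret s b = b
  equi : ∀ q s b, φ q (ret s b) = ret (tr q s) (φ q b)
  const : ∀ q b, φ q (ret ∅ b) = ret ∅ b

/-- conjugate homomorphisms induce the same map on `K₁` -/
theorem K1.map_of_conj {R : Type u} {S : Type v} [Ring R] [Ring S] (f g : R →+* S) (c : Sˣ)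
    (h : ∀ r, g r * c.val = c.val * f r) (z : K1 R) : K1.map g z = K1.map f z := by
  obtain ⟨n, A, rfl⟩ := K1.exists_gen z
  rw [K1.map_gen, K1.map_gen, ← cl_gen, ← cl_gen]
  have : mapU g A = scU (Fin n) c * mapU f A * (scU (Fin n) c)⁻¹ := by
    rw [eq_mul_inv_iff_mul_eq]
    apply Units.ext
    rw [Units.val_mul, Units.val_mul, scU_val]
    show A.val.map g * Matrix.diagonal (fun _ => c.val) =
      Matrix.diagonal (fun _ => c.val) * A.val.map f
    ext i j
    rw [Matrix.mul_diagonal, Matrix.diagonal_mul, Matrix.map_apply, Matrix.map_apply, h]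
  rw [this, cl_conj]

namespace RSys

variable {B : Type u} {Q : Type v} [Group B] [Group Q] [DecidableEq Q] {φ : Q →* MulAut B}
variable (𝓡 : RSys B Q φ)

/-- the cocycle of index `s` -/
def co (s : Finset Q) (g : B ⋊[φ] Q) (x : Q) : B := 𝓡.ret s (φ (g.right * x)⁻¹ g.left)

theorem isCo (s : Finset Q) : IsCo (SemidirectProduct.rightHom : B ⋊[φ] Q →* Q) (𝓡.co s) := by
  intro g h x
  show 𝓡.ret s (φ ((g * h).right * x)⁻¹ (g * h).left) =
    𝓡.ret s (φ (g.right * (h.right * x))⁻¹ g.left) * 𝓡.ret s (φ (h.right * x)⁻¹ h.left)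
  rw [SemidirectProduct.mul_left, SemidirectProduct.mul_right, map_mul, map_mul, mul_assoc]
  congr 2
  rw [← MulAut.mul_apply, ← map_mul]
  congr 2
  group

theorem ret_eq_of {s t : Finset Q} {b : B} (hb : 𝓡.ret t b = b) (h : s ∩ t = ∅) :
    𝓡.ret s b = 𝓡.ret ∅ b := by
  conv_lhs => rw [← hb]
  conv_rhs => rw [← hb]
  rw [𝓡.inter, 𝓡.inter, h, Finset.empty_inter]

/-- the pair of cocycles of index `s` and `∅` -/
def mpair (s : Finset Q) : MPair (B ⋊[φ] Q) Q B where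
  sh := SemidirectProduct.rightHom
  co := 𝓡.co s
  co' := 𝓡.co ∅
  co_mul := 𝓡.isCo s
  co'_mul := 𝓡.isCo ∅
  fin g := by
    obtain ⟨t, ht⟩ := 𝓡.cover g.left
    refine ⟨Finset.image₂ (fun c a => c * a⁻¹) t s, fun x hx => ?_⟩
    by_contra hh
    apply hx
    set y := g.right * x with hy
    have h1 : 𝓡.ret (tr y⁻¹ t) (φ y⁻¹ g.left) = φ y⁻¹ g.left := by
      rw [← 𝓡.equi, ht]
    refine 𝓡.ret_eq_of h1 ?_
    rw [Finset.eq_empty_iff_forall_notMem]
    intro a ha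
    rw [Finset.mem_inter] at ha
    obtain ⟨ha1, ha2⟩ := ha
    unfold tr at ha2
    rw [Finset.mem_image] at ha2
    obtain ⟨c, hc, rfl⟩ := ha2
    apply hh
    rw [Finset.mem_image₂]
    refine ⟨c, hc, _, ha1, ?_⟩
    show c * (y⁻¹ * c)⁻¹ = g.right * x
    rw [mul_inv_rev, inv_inv, mul_inv_cancel_left]

/-- the transfer of index `s` -/
def trs (s : Finset Q) : K1 (MonoidAlgebra ℤ (B ⋊[φ] Q)) →+ K1 (MonoidAlgebra ℤ B) :=
  (𝓡.mpair s).tr

/-- the map induced by a retraction -/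
def Pr (s : Finset Q) : K1 (MonoidAlgebra ℤ B) →+ K1 (MonoidAlgebra ℤ B) :=
  K1.map (mapDomainRingHom ℤ (𝓡.ret s))

variable (φ) in
/-- the action on `K₁` -/
def Ac (q : Q) : K1 (MonoidAlgebra ℤ B) →+ K1 (MonoidAlgebra ℤ B) :=
  K1.map (mapDomainRingHom ℤ ((φ q : MulAut B) : B →* B))

variable (φ) in
/-- the map induced by the inclusion -/
def jn : K1 (MonoidAlgebra ℤ B) →+ K1 (MonoidAlgebra ℤ (B ⋊[φ] Q)) :=
  K1.map (mapDomainRingHom ℤ (SemidirectProduct.inl : B →* B ⋊[φ] Q))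

theorem map_comp' {L : Type*} {L' : Type*} {L'' : Type*} [Group L] [Group L'] [Group L'']
    (f : L →* L') (g : L' →* L'') (z : K1 (MonoidAlgebra ℤ L)) :
    K1.map (mapDomainRingHom ℤ g) (K1.map (mapDomainRingHom ℤ f) z) =
      K1.map (mapDomainRingHom ℤ (g.comp f)) z := by
  rw [MonoidAlgebra.mapDomainRingHom_comp, K1.map_comp]

theorem Pr_Pr (s t : Finset Q) (z : K1 (MonoidAlgebra ℤ B)) :
    𝓡.Pr s (𝓡.Pr t z) = 𝓡.Pr (s ∩ t) z := by
  unfold Pr
  rw [map_comp']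
  congr 3
  ext1 b
  exact 𝓡.inter s t b

theorem Ac_Pr (q : Q) (s : Finset Q) (z : K1 (MonoidAlgebra ℤ B)) :
    Ac φ q (𝓡.Pr s z) = 𝓡.Pr (tr q s) (Ac φ q z) := by
  unfold Pr Ac
  rw [map_comp', map_comp']
  congr 3
  ext1 b
  exact 𝓡.equi q s b

theorem Ac_Pr_empty (q : Q) (z : K1 (MonoidAlgebra ℤ B)) :
    Ac φ q (𝓡.Pr ∅ z) = 𝓡.Pr ∅ z := by
  unfold Pr Ac
  rw [map_comp']
  congr 3
  ext1 b
  exact 𝓡.const q b

theorem jn_Ac (q : Q) (z : K1 (MonoidAlgebra ℤ B)) : jn φ (Ac φ q z) = jn φ z := by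
  unfold jn Ac
  rw [map_comp']
  refine K1.map_of_conj _ _ (trU (SemidirectProduct.inr q : B ⋊[φ] Q) 1) (fun r => ?_) z
  induction r using MonoidAlgebra.induction_linear with
  | zero => rw [map_zero, map_zero, zero_mul, mul_zero]
  | add a b ha hb => rw [map_add, map_add, add_mul, mul_add, ha, hb]
  | single b n =>
    have h1 : mapDomainRingHom ℤ ((SemidirectProduct.inl : B →* B ⋊[φ] Q).comp
        ((φ q : MulAut B) : B →* B)) (MonoidAlgebra.single b n) =
        MonoidAlgebra.single (SemidirectProduct.inl (φ q b) : B ⋊[φ] Q) n :=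
      MonoidAlgebra.mapDomain_single
    have h2 : mapDomainRingHom ℤ (SemidirectProduct.inl : B →* B ⋊[φ] Q)
        (MonoidAlgebra.single b n) = MonoidAlgebra.single (SemidirectProduct.inl b) n :=
      MonoidAlgebra.mapDomain_single
    rw [h1, h2]
    show MonoidAlgebra.single _ n * MonoidAlgebra.single _ ((1 : ℤˣ) : ℤ) =
      MonoidAlgebra.single _ ((1 : ℤˣ) : ℤ) * MonoidAlgebra.single _ n
    rw [MonoidAlgebra.single_mul_single, MonoidAlgebra.single_mul_single, Units.val_one, mul_one,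
      one_mul, SemidirectProduct.inl_aut, map_inv, inv_mul_cancel_right]

theorem exists_Pr (z : K1 (MonoidAlgebra ℤ B)) : ∃ t, 𝓡.Pr t z = z := by
  obtain ⟨n, A, rfl⟩ := K1.exists_gen z
  have hmono : ∀ {s t : Finset Q} {b : B}, s ⊆ t → 𝓡.ret s b = b → 𝓡.ret t b = b := by
    intro s t b hst hb
    conv_lhs => rw [← hb]
    rw [𝓡.inter, Finset.inter_eq_right.2 hst, hb]
  have key : ∀ r : MonoidAlgebra ℤ B, ∃ s, ∀ t, s ⊆ t → mapDomainRingHom ℤ (𝓡.ret t) r = r := by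
    intro r
    induction r using MonoidAlgebra.induction_linear with
    | zero => exact ⟨∅, fun t _ => map_zero _⟩
    | add a b ha hb =>
      obtain ⟨s, hs⟩ := ha
      obtain ⟨s', hs'⟩ := hb
      refine ⟨s ∪ s', fun t ht => ?_⟩
      rw [map_add, hs t (Finset.union_subset_left ht), hs' t (Finset.union_subset_right ht)]
    | single b n =>
      obtain ⟨s, hs⟩ := 𝓡.cover b
      refine ⟨s, fun t ht => ?_⟩
      have h2 : mapDomainRingHom ℤ (𝓡.ret t) (MonoidAlgebra.single b n) =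
        MonoidAlgebra.single (𝓡.ret t b) n := MonoidAlgebra.mapDomain_single
      rw [h2, hmono ht hs]
  choose S hS using key
  refine ⟨Finset.univ.biUnion fun i => Finset.univ.biUnion fun j => S (A.val i j), ?_⟩
  unfold Pr
  rw [K1.map_gen]
  congr 1
  apply Units.ext
  ext1 i j
  show mapDomainRingHom ℤ _ (A.val i j) = A.val i j
  apply hS
  intro x hx
  simp only [Finset.mem_biUnion, Finset.mem_univ, true_and]
  exact ⟨i, j, hx⟩

/-- the transfer on the image of `K₁(ℤB)` -/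
theorem trs_jn (s : Finset Q) (z : K1 (MonoidAlgebra ℤ B)) :
    ∃ F₀ : Finset Q, ∀ F, F₀ ⊆ F → 𝓡.trs s (jn φ z) =
      ∑ a ∈ F, (𝓡.Pr s (Ac φ a⁻¹ z) - 𝓡.Pr ∅ (Ac φ a⁻¹ z)) := by
  obtain ⟨F₀, hF₀⟩ := (𝓡.mpair s).tr_map (SemidirectProduct.inl : B →* B ⋊[φ] Q)
    (fun _ => rfl) z
  refine ⟨F₀, fun F hF => ?_⟩
  show (𝓡.mpair s).tr _ = _
  unfold jn
  rw [hF₀ F hF]
  refine Finset.sum_congr rfl fun a _ => ?_
  unfold Pr Ac
  rw [map_comp', map_comp']
  congr 4
  · ext1 b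
    show 𝓡.ret s (φ (1 * a)⁻¹ b) = _
    rw [one_mul]
    rfl
  · ext1 b
    show 𝓡.ret ∅ (φ (1 * a)⁻¹ b) = _
    rw [one_mul]
    rfl

variable (φ) in
/-- the subgroup generated by the elements `q y - y` -/
def II : AddSubgroup (K1 (MonoidAlgebra ℤ B)) :=
  AddSubgroup.closure {w | ∃ q y, w = Ac φ q y - y}

/-- MAIN LEMMA -/
theorem mem_II (hQ : TorFree Q) (z : K1 (MonoidAlgebra ℤ B)) (h0 : 𝓡.Pr ∅ z = 0)
    (hz : ∀ s, 𝓡.trs s (jn φ z) = 0) : z ∈ II φ := by
  classical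
  let c : K1 (MonoidAlgebra ℤ B) →+ (K1 (MonoidAlgebra ℤ B) ⧸ II φ) :=
    QuotientAddGroup.mk' (II φ)
  have hc : ∀ q y, c (Ac φ q y) = c y := by
    intro q y
    rw [← sub_eq_zero, ← map_sub]
    exact (QuotientAddGroup.eq_zero_iff _).2 (AddSubgroup.subset_closure ⟨q, y, rfl⟩)
  obtain ⟨t, ht⟩ := 𝓡.exists_Pr z
  have key : ∑ u ∈ t.powerset, c (mob (fun v => 𝓡.Pr v z) u) = 0 := by
    refine sum_eq_zero_of_orbits hQ (fun u => c (mob (fun v => 𝓡.Pr v z) u)) t ?_ ?_ ?_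
    · show c (mob (fun v => 𝓡.Pr v z) ∅) = 0
      rw [mob_empty, h0, map_zero]
    · intro u hu
      rw [Finset.not_subset] at hu
      obtain ⟨x, hx, hxt⟩ := hu
      have : mob (fun v => 𝓡.Pr v z) u = 0 := by
        refine mob_eq_zero hx fun v _ => ?_
        rw [← ht, 𝓡.Pr_Pr, 𝓡.Pr_Pr]
        congr 1
        rw [Finset.insert_inter_of_notMem hxt]
      show c _ = 0
      rw [this, map_zero]
    · intro s
      choose G hG using fun v => 𝓡.trs_jn v z
      refine ⟨s.powerset.biUnion G, fun F hF => ?_⟩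
      have h1 : ∀ v ⊆ s, ∑ a ∈ F, 𝓡.Pr v (Ac φ a⁻¹ z) = 0 := by
        intro v hv
        have h2 := hG v F ((Finset.subset_biUnion_of_mem G (Finset.mem_powerset.2 hv)).trans hF)
        rw [hz v] at h2
        rw [h2]
        refine Finset.sum_congr rfl fun a _ => ?_
        have h3 : 𝓡.Pr ∅ (Ac φ a⁻¹ z) = 0 := by
          have h4 := 𝓡.Ac_Pr a⁻¹ ∅ z
          rw [h0, map_zero, tr_empty] at h4
          exact h4.symm
        rw [h3, sub_zero]
      have h2 : ∀ a : Q, c (mob (fun v => 𝓡.Pr v z) (tr a s)) =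
          c (mob (fun v => 𝓡.Pr v (Ac φ a⁻¹ z)) s) := by
        intro a
        rw [← hc a⁻¹, ← mob_map (Ac φ a⁻¹)]
        have h3 : (fun v => Ac φ a⁻¹ (𝓡.Pr v z)) =
            fun v => (fun w => 𝓡.Pr w (Ac φ a⁻¹ z)) (v.image fun x => a⁻¹ * x) := by
          funext v
          exact 𝓡.Ac_Pr a⁻¹ v z
        rw [h3, mob_image (mul_right_injective a⁻¹) (tr a s) (fun w => 𝓡.Pr w (Ac φ a⁻¹ z))]
        congr 2
        exact tr_inv_tr a s
      show ∑ a ∈ F, c (mob (fun v => 𝓡.Pr v z) (tr a s)) = 0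
      rw [Finset.sum_congr rfl fun a _ => h2 a, ← map_sum,
        mob_sum F (fun a v => 𝓡.Pr v (Ac φ a⁻¹ z)) s, mob_congr h1, mob_zero, map_zero]
  rw [← map_sum, sum_mob, ht] at key
  exact (QuotientAddGroup.eq_zero_iff _).1 key

end RSys

end

end Pool.Agent.Lib.MP_16fe43_al.Tr
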