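import Pool.Agent.Lib.MP_16fe43_al.TrWh
import Pool.Agent.Lib.MP_16fe43_al.Closure

/-!
# Semidirect products `B ⋊ Q`, `Q` torsion-free, `B` with a system of retractions
-/

set_option autoImplicit false
set_option linter.unusedSectionVars false

universe u v w

namespace Pool.Agent.Lib.MP_16fe43_al

open MonoidAlgebra (mapDomainRingHom)
open Pool.Agent.Lib.BHS16 (TorsionFree Wh)

/-- The translate `q s` of a finite subset `s` of a group. -/
def translate {Q : Type v} [Group Q] [DecidableEq Q] (q : Q) (s : Finset Q) : Finset Q :=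
  s.image fun x => q * x

/-- Let `Q` be a group acting on a group `B`. A retraction system on `B` consists of
endomorphisms `ret s` of `B`, `s` running through the finite subsets of `Q`, such that
`ret s ∘ ret t = ret (s ∩ t)`, every element of `B` is fixed by some `ret s`, an element `q` of
`Q` carries `ret s` into `ret (q s)`, and `Q` acts trivially on the image of `ret ∅`. -/
structure RetractionSystem (B : Type u) (Q : Type v) [Group B] [Group Q] [DecidableEq Q]
    (φ : Q →* MulAut B) where
  /-- the endomorphism of index `s` -/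
  ret : Finset Q → (B →* B)
  inter : ∀ s t b, ret s (ret t b) = ret (s ∩ t) b
  cover : ∀ b, ∃ s, ret s b = b
  equivariant : ∀ q s b, φ q (ret s b) = ret (translate q s) (φ q b)
  const : ∀ q b, φ q (ret ∅ b) = ret ∅ b

/-- The subgroup of `Wh(B)` generated by the elements `q x - x`, `q ∈ Q`, `x ∈ Wh(B)`. -/
noncomputable def actionDiff {B : Type u} {Q : Type v} [Group B] [Group Q]
    (φ : Q →* MulAut B) : AddSubgroup (Wh B) :=
  AddSubgroup.closure {w | ∃ (q : Q) (x : Wh B), w = whMap (φ q).toMonoidHom x - x}

section

variable {B : Type u} {Q : Type v} [Group B] [Group Q] [DecidableEq Q] {φ : Q →* MulAut B}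

/-- comparison -/
def RetractionSystem.toRSys (𝓡 : RetractionSystem B Q φ) : Tr.RSys B Q φ where
  ret := 𝓡.ret
  inter := 𝓡.inter
  cover := 𝓡.cover
  equi := 𝓡.equivariant
  const := 𝓡.const

theorem torFree_of (hQ : TorsionFree Q) : Tr.TorFree Q := fun q n hn hq =>
  hQ q (isOfFinOrder_iff_pow_eq_one.2 ⟨n, hn, hq⟩)

/-- The kernel of `Wh(B) → Wh(B ⋊ Q)` is generated by the elements `q x - x`. -/
theorem ker_retractionSystem (hQ : TorsionFree Q) (𝓡 : RetractionSystem B Q φ) :
    (whMap (SemidirectProduct.inl : B →* B ⋊[φ] Q)).ker = actionDiff φ := by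
  apply le_antisymm
  · intro z hz
    obtain ⟨x, rfl⟩ := whC_surjective z
    rw [AddMonoidHom.mem_ker, whMap_whC, whC_eq_zero] at hz
    have h1 := 𝓡.toRSys.ker_TU (torFree_of hQ) hz
    rw [AddSubgroup.mem_sup] at h1
    obtain ⟨y, hy, t, ht, rfl⟩ := h1
    clear hz
    rw [map_add, whC_eq_zero.2 ht, add_zero]
    unfold Tr.RSys.II at hy
    induction hy using AddSubgroup.closure_induction with
    | mem y hy =>
      obtain ⟨q, w, rfl⟩ := hy
      rw [map_sub]
      apply AddSubgroup.subset_closure
      exact ⟨q, whC w, by rw [whMap_whC]; rfl⟩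
    | zero => rw [map_zero]; exact AddSubgroup.zero_mem _
    | add a b _ _ ha hb => rw [map_add]; exact AddSubgroup.add_mem _ ha hb
    | neg a _ ha => rw [map_neg]; exact AddSubgroup.neg_mem _ ha
  · unfold actionDiff
    rw [AddSubgroup.closure_le]
    rintro _ ⟨q, z, rfl⟩
    obtain ⟨x, rfl⟩ := whC_surjective z
    show whMap _ (whMap _ (whC x) - whC x) = 0
    rw [whMap_whC, map_sub, whMap_whC, whMap_whC, sub_eq_zero]
    congr 1
    exact Tr.RSys.jn_Ac q x

/-- If `Wh(B ⋊ Q) = 0` then `Wh(B) = 0`. -/
theorem wh_of_retractionSystem (hQ : TorsionFree Q) (𝓡 : RetractionSystem B Q φ)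
    (h : Subsingleton (Wh (B ⋊[φ] Q))) : Subsingleton (Wh B) := by
  rw [wh_subsingleton] at h ⊢
  exact 𝓡.toRSys.base_of (torFree_of hQ) h

end

/-! ### The example of direct sums -/

section example_

variable (H : Type u) (Q : Type v) [Group H] [Group Q]

/-- the group of the functions `Q → H` that are `1` outside a finite set -/
def FinFun : Subgroup (Q → H) where
  carrier := {f | {x | f x ≠ 1}.Finite}
  one_mem' := by simp
  mul_mem' := by
    intro f g hf hg
    refine (hf.union hg).subset fun x hx => ?_
    by_contra h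
    rw [Set.mem_union, not_or] at h
    have h1 : f x = 1 := by_contra h.1
    have h2 : g x = 1 := by_contra h.2
    apply hx
    show f x * g x = 1
    rw [h1, h2, one_mul]
  inv_mem' := by
    intro f hf
    refine hf.subset fun x hx h => hx ?_
    show (f x)⁻¹ = 1
    rw [h, inv_one]

variable {H Q}

/-- translation -/
def trF (q : Q) (f : FinFun H Q) : FinFun H Q :=
  ⟨fun x => f.1 (q⁻¹ * x), by
    have : {x | f.1 (q⁻¹ * x) ≠ 1} = (fun x => q⁻¹ * x) ⁻¹' {x | f.1 x ≠ 1} := rfl
    show {x | f.1 (q⁻¹ * x) ≠ 1}.Finite
    rw [this]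
    exact f.2.preimage (mul_right_injective q⁻¹).injOn⟩

variable (H Q) in
/-- the action by translations -/
def transAct : Q →* MulAut (FinFun H Q) where
  toFun q :=
    { toFun := trF q
      invFun := trF q⁻¹
      left_inv := fun f => by
        apply Subtype.ext
        funext x
        show f.1 (q⁻¹ * (q⁻¹⁻¹ * x)) = f.1 x
        rw [inv_inv, inv_mul_cancel_left]
      right_inv := fun f => by
        apply Subtype.ext
        funext x
        show f.1 (q⁻¹⁻¹ * (q⁻¹ * x)) = f.1 x
        rw [inv_inv, mul_inv_cancel_left]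
      map_mul' := fun f g => rfl }
  map_one' := by
    apply MulEquiv.ext
    intro f
    apply Subtype.ext
    funext x
    show f.1 (1⁻¹ * x) = f.1 x
    rw [inv_one, one_mul]
  map_mul' p q := by
    apply MulEquiv.ext
    intro f
    apply Subtype.ext
    funext x
    show f.1 ((p * q)⁻¹ * x) = f.1 (q⁻¹ * (p⁻¹ * x))
    rw [mul_inv_rev, mul_assoc]

variable (H Q) in
/-- The retraction system of a direct sum. -/
def dirSumSystem [DecidableEq Q] : RetractionSystem (FinFun H Q) Q (transAct H Q) where
  ret s :=
    { toFun := fun f => ⟨fun x => if x ∈ s then f.1 x else 1, by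
        refine s.finite_toSet.subset fun x hx => ?_
        by_contra h
        exact hx (if_neg h)⟩
      map_one' := by
        apply Subtype.ext
        funext x
        show (if x ∈ s then (1 : H) else 1) = 1
        rw [ite_self]
      map_mul' := fun f g => by
        apply Subtype.ext
        funext x
        show (if x ∈ s then f.1 x * g.1 x else 1) =
          (if x ∈ s then f.1 x else 1) * (if x ∈ s then g.1 x else 1)
        split_ifs <;> simp }
  inter s t f := by
    apply Subtype.ext
    funext x
    show (if x ∈ s then (if x ∈ t then f.1 x else 1) else 1) = if x ∈ s ∩ t then f.1 x else 1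
    by_cases h1 : x ∈ s <;> by_cases h2 : x ∈ t <;> simp [h1, h2]
  cover f := by
    have hf : {x | f.1 x ≠ 1}.Finite := f.2
    refine ⟨hf.toFinset, ?_⟩
    apply Subtype.ext
    funext x
    show (if x ∈ hf.toFinset then f.1 x else 1) = f.1 x
    split_ifs with h
    · rfl
    · rw [Set.Finite.mem_toFinset] at h
      exact (by_contra h : f.1 x = 1).symm
  equivariant q s f := by
    apply Subtype.ext
    funext x
    show (if q⁻¹ * x ∈ s then f.1 (q⁻¹ * x) else 1) =
      if x ∈ translate q s then f.1 (q⁻¹ * x) else 1
    have : q⁻¹ * x ∈ s ↔ x ∈ translate q s := by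
      unfold translate
      rw [Finset.mem_image]
      constructor
      · intro h
        exact ⟨_, h, by rw [mul_inv_cancel_left]⟩
      · rintro ⟨y, hy, rfl⟩
        rwa [inv_mul_cancel_left]
    simp only [this]
  const q f := by
    apply Subtype.ext
    funext x
    show (if q⁻¹ * x ∈ (∅ : Finset Q) then f.1 (q⁻¹ * x) else (1 : H)) =
      if x ∈ (∅ : Finset Q) then f.1 x else 1
    rw [if_neg (Finset.notMem_empty _), if_neg (Finset.notMem_empty _)]

end example_

end Pool.Agent.Lib.MP_16fe43_al
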