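import Pool.Agent.Lib.MP_16fe43_al.TrRetr

/-!
# Whitehead groups of semidirect products with a system of retractions
-/

set_option autoImplicit false
set_option linter.unusedSectionVars false

universe u v w x

namespace Pool.Agent.Lib.MP_16fe43_al.Tr

open Pool.Agent.Lib.MP_16fe43_al
open MonoidAlgebra (mapDomainRingHom)

noncomputable section

namespace RSys

variable {B : Type u} {Q : Type v} [Group B] [Group Q] [DecidableEq Q] {φ : Q →* MulAut B}
variable (𝓡 : RSys B Q φ)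

theorem trs_inr (s : Finset Q) (q : Q) :
    𝓡.trs s (trC (SemidirectProduct.inr q : B ⋊[φ] Q) 1) = 0 := by
  have h1 : ∀ s : Finset Q, ∀ x, 𝓡.co s (SemidirectProduct.inr q : B ⋊[φ] Q) x = 1 := by
    intro s x
    show 𝓡.ret s (φ _ (1 : B)) = 1
    rw [map_one, map_one]
  have h2 : (𝓡.mpair s).pair.th (MonoidAlgebra.single (SemidirectProduct.inr q : B ⋊[φ] Q) 1) =
      (𝓡.mpair s).pair.th' (MonoidAlgebra.single (SemidirectProduct.inr q : B ⋊[φ] Q) 1) := by
    apply op_ext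
    intro a b
    show ent (rho _ (𝓡.co s) (𝓡.isCo s) _) a b = ent (rho _ (𝓡.co ∅) (𝓡.isCo ∅) _) a b
    rw [ent_rho_single, ent_rho_single, h1, h1]
  show Pair.tau _ (K1.gen _) = 0
  rw [Pair.tau_gen]
  have h3 : mapU (𝓡.mpair s).pair.th (scU (Fin 1) (trU (SemidirectProduct.inr q : B ⋊[φ] Q) 1)) =
      mapU (𝓡.mpair s).pair.th'
        (scU (Fin 1) (trU (SemidirectProduct.inr q : B ⋊[φ] Q) 1)) := by
    apply Units.ext
    show (scU (Fin 1) (trU (SemidirectProduct.inr q : B ⋊[φ] Q) 1)).val.map _ =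
      (scU (Fin 1) (trU (SemidirectProduct.inr q : B ⋊[φ] Q) 1)).val.map _
    rw [scU_val, Matrix.diagonal_map (map_zero _), Matrix.diagonal_map (map_zero _)]
    congr 1
    funext i
    exact h2
  unfold Pair.ta Pair.U
  rw [h3, mul_inv_cancel]
  have h4 : InF ∅ ((1 : (Matrix (Fin 1) (Fin 1) (Opr Q (MonoidAlgebra ℤ B)))ˣ).val - 1) := by
    intro i j a b hab
    rw [Units.val_one, sub_self] at hab
    exact absurd rfl hab
  rw [kap_eq h4, Units.val_one, flat_one, cm_one]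

theorem trC_split (g : B ⋊[φ] Q) (ε : ℤˣ) :
    trC g ε = jn φ (trC g.left ε) + trC (SemidirectProduct.inr g.right) 1 := by
  unfold jn
  rw [trC_map, ← trC_mul, mul_one, SemidirectProduct.inl_left_mul_inr_right]

/-- the retraction onto the constant part -/
def rr : B ⋊[φ] Q →* B where
  toFun g := 𝓡.ret ∅ g.left
  map_one' := map_one _
  map_mul' g h := by
    rw [SemidirectProduct.mul_left, map_mul]
    congr 1
    have h1 := 𝓡.equi g.right ∅ h.left
    rw [tr_empty] at h1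
    rw [← h1, 𝓡.const]

theorem map_rr_jn (z : K1 (MonoidAlgebra ℤ B)) :
    K1.map (mapDomainRingHom ℤ 𝓡.rr) (jn φ z) = 𝓡.Pr ∅ z := by
  unfold jn Pr
  rw [map_comp']
  congr 1

include 𝓡 in
/-- The kernel of `Wh(B) → Wh(B ⋊ Q)`. -/
theorem ker_TU (hQ : TorFree Q) {z : K1 (MonoidAlgebra ℤ B)} (hz : jn φ z ∈ TU (B ⋊[φ] Q)) :
    z ∈ II φ ⊔ TU B := by
  obtain ⟨g, ε, hg⟩ := mem_TU.1 hz
  have h1 : jn φ (z - trC g.left ε) = trC (SemidirectProduct.inr g.right) 1 := by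
    rw [map_sub, hg, trC_split, add_sub_cancel_left]
  have h2 : z - trC g.left ε ∈ II φ := by
    refine 𝓡.mem_II hQ _ ?_ fun s => ?_
    · rw [← 𝓡.map_rr_jn, h1, trC_map]
      have : 𝓡.rr (SemidirectProduct.inr g.right) = 1 := by
        show 𝓡.ret ∅ (1 : B) = 1
        rw [map_one]
      rw [this, trC_one]
    · rw [h1, 𝓡.trs_inr]
  have h3 : z = (z - trC g.left ε) + trC g.left ε := by abel
  rw [h3]
  exact AddSubgroup.add_mem_sup h2 (trC_mem _ _)

theorem trs_TU (s : Finset Q) {z : K1 (MonoidAlgebra ℤ (B ⋊[φ] Q))} (hz : z ∈ TU (B ⋊[φ] Q)) :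
    𝓡.trs s z ∈ TU B := by
  obtain ⟨g, ε, rfl⟩ := mem_TU.1 hz
  rw [trC_split, map_add, 𝓡.trs_inr, add_zero]
  obtain ⟨F, hF⟩ := 𝓡.trs_jn s (trC g.left ε)
  rw [hF F Finset.Subset.rfl]
  refine (TU B).sum_mem fun a _ => (TU B).sub_mem ?_ ?_
  · exact TU_map _ (TU_map _ (trC_mem _ _))
  · exact TU_map _ (TU_map _ (trC_mem _ _))

include 𝓡 in
/-- If `Wh(B ⋊ Q) = 0` then `Wh(B) = 0`. -/
theorem base_of (hQ : TorFree Q) (h : ∀ x : K1 (MonoidAlgebra ℤ (B ⋊[φ] Q)), x ∈ TU (B ⋊[φ] Q))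
    (y : K1 (MonoidAlgebra ℤ B)) : y ∈ TU B := by
  have h0 : 𝓡.Pr ∅ y ∈ TU B := by
    rw [← 𝓡.map_rr_jn]
    exact TU_map _ (h _)
  have key : ∀ s : Finset Q, mob (fun v => 𝓡.Pr v y) s ∈ TU B := by
    intro s
    rcases s.eq_empty_or_nonempty with rfl | hs
    · rwa [mob_empty]
    set w := mob (fun v => 𝓡.Pr v y) s with hw
    have hPr : ∀ v : Finset Q, 𝓡.Pr v w = if s ⊆ v then w else 0 := by
      intro v
      rw [hw, ← mob_map]
      split_ifs with hsv
      · refine mob_congr fun u hu => ?_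
        rw [𝓡.Pr_Pr, Finset.inter_eq_right.2 (hu.trans hsv)]
      · rw [Finset.not_subset] at hsv
        obtain ⟨x, hx, hxv⟩ := hsv
        refine mob_eq_zero hx fun u _ => ?_
        rw [𝓡.Pr_Pr, 𝓡.Pr_Pr, Finset.inter_insert_of_notMem hxv]
    obtain ⟨F₀, hF₀⟩ := 𝓡.trs_jn s w
    have h1 := hF₀ (F₀ ∪ {1}) Finset.subset_union_left
    have h2 : ∀ a : Q, 𝓡.Pr s (Ac φ a⁻¹ w) - 𝓡.Pr ∅ (Ac φ a⁻¹ w) = if a = 1 then w else 0 := by
      intro a
      have h3 : 𝓡.Pr ∅ (Ac φ a⁻¹ w) = 0 := by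
        have h4 := 𝓡.Ac_Pr a⁻¹ ∅ w
        rw [hPr, if_neg (by rw [Finset.subset_empty]; exact hs.ne_empty), map_zero,
          tr_empty] at h4
        exact h4.symm
      have h5 : 𝓡.Pr s (Ac φ a⁻¹ w) = Ac φ a⁻¹ (𝓡.Pr (tr a s) w) := by
        rw [𝓡.Ac_Pr, tr_inv_tr]
      rw [h3, sub_zero, h5, hPr]
      by_cases ha : a = 1
      · rw [if_pos ha, ha, tr_one, if_pos Finset.Subset.rfl]
        unfold Ac
        rw [inv_one, map_one]
        have : ((1 : MulAut B) : B →* B) = MonoidHom.id B := rfl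
        rw [this, MonoidAlgebra.mapDomainRingHom_id, K1.map_id]
      · rw [if_neg ha, if_neg, map_zero]
        intro hsub
        have hcard : (tr a s).card = s.card := Finset.card_image_of_injective _
          (mul_right_injective a)
        have heq : s = tr a s := Finset.eq_of_subset_of_card_le hsub hcard.le
        exact ha (eq_one_of_tr hQ hs heq.symm)
    rw [Finset.sum_congr rfl fun a _ => h2 a, Finset.sum_ite_eq', if_pos (by simp)] at h1
    rw [← h1]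
    exact 𝓡.trs_TU s (h _)
  obtain ⟨t, ht⟩ := 𝓡.exists_Pr y
  rw [← ht, ← sum_mob t fun v => 𝓡.Pr v y]
  exact (TU B).sum_mem fun s _ => key s

end RSys

end

end Pool.Agent.Lib.MP_16fe43_al.Tr
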