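import Pool.Agent.Lib.MP_16fe43_al.K1

/-!
# Matrices over a group ring with locations in `G`-sets

Row vectors: the row basis element `i` sits at `x i ∈ X`, the column basis element `j` at
`y j ∈ Y`, and the group element `h` in the entry `(i, j)` is a move from `x i` to `h • y j`.
-/

set_option autoImplicit false

universe u v w

namespace Pool.Agent.Lib.MP_16fe43_al

open Matrix (fromBlocks)

section calculus

variable {G : Type u} [Group G]

/-- a relation between `G`-sets which is invariant -/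
def RInv (G : Type u) [Group G] {X Y : Type*} [MulAction G X] [MulAction G Y]
    (c : X → Y → Prop) : Prop :=
  ∀ (g : G) (x : X) (y : Y), c x y → c (g • x) (g • y)

theorem RInv.iff {X Y : Type*} [MulAction G X] [MulAction G Y] {c : X → Y → Prop}
    (hc : RInv G c) (g : G) (x : X) (y : Y) : c (g • x) (g • y) ↔ c x y := by
  refine ⟨fun h => ?_, hc g x y⟩
  have := hc g⁻¹ _ _ h
  rwa [inv_smul_smul, inv_smul_smul] at this

/-- `M` moves along the relation `r` -/
def Moves {X Y I J : Type*} [MulAction G X] [MulAction G Y] (r : X → Y → Prop) (x : I → X)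
    (y : J → Y) (M : Matrix I J (MonoidAlgebra ℤ G)) : Prop :=
  ∀ (i : I) (j : J) (h : G), (M i j).coeff h ≠ 0 → r (x i) (h • y j)

open Classical in
/-- the part of `M` with moves in the relation `c` -/
noncomputable def res {X Y I J : Type*} [MulAction G X] [MulAction G Y] (c : X → Y → Prop)
    (x : I → X) (y : J → Y) (M : Matrix I J (MonoidAlgebra ℤ G)) :
    Matrix I J (MonoidAlgebra ℤ G) :=
  fun i j => MonoidAlgebra.ofCoeff ((M i j).coeff.filter (fun h => c (x i) (h • y j)))

variable {X Y Z : Type*} [MulAction G X] [MulAction G Y] [MulAction G Z]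
  {I J K : Type*}

open Classical in
theorem res_coeff (c : X → Y → Prop) (x : I → X) (y : J → Y)
    (M : Matrix I J (MonoidAlgebra ℤ G)) (i : I) (j : J) (h : G) :
    (res c x y M i j).coeff h = if c (x i) (h • y j) then (M i j).coeff h else 0 := by
  show ((M i j).coeff.filter (fun h => c (x i) (h • y j))) h = _
  rw [Finsupp.filter_apply]

theorem res_coeff_pos {c : X → Y → Prop} {x : I → X} {y : J → Y}
    (M : Matrix I J (MonoidAlgebra ℤ G)) {i : I} {j : J} {h : G} (hc : c (x i) (h • y j)) :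
    (res c x y M i j).coeff h = (M i j).coeff h := by
  classical
  rw [res_coeff, if_pos hc]

theorem res_coeff_neg {c : X → Y → Prop} {x : I → X} {y : J → Y}
    (M : Matrix I J (MonoidAlgebra ℤ G)) {i : I} {j : J} {h : G} (hc : ¬ c (x i) (h • y j)) :
    (res c x y M i j).coeff h = 0 := by
  classical
  rw [res_coeff, if_neg hc]

omit [Group G] in
/-- two matrices over the group ring with the same coefficients are equal -/
theorem matrix_ext {M N : Matrix I J (MonoidAlgebra ℤ G)}
    (h : ∀ i j g, (M i j).coeff g = (N i j).coeff g) : M = N := by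
  ext i j g
  exact h i j g

theorem res_add (c : X → Y → Prop) (x : I → X) (y : J → Y)
    (M N : Matrix I J (MonoidAlgebra ℤ G)) : res c x y (M + N) = res c x y M + res c x y N := by
  classical
  refine matrix_ext fun i j h => ?_
  rw [res_coeff, Matrix.add_apply, Matrix.add_apply, MonoidAlgebra.coeff_add,
    MonoidAlgebra.coeff_add, Finsupp.add_apply, Finsupp.add_apply, res_coeff, res_coeff]
  split_ifs <;> simp

theorem res_neg (c : X → Y → Prop) (x : I → X) (y : J → Y)
    (M : Matrix I J (MonoidAlgebra ℤ G)) : res c x y (-M) = - res c x y M := by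
  classical
  refine matrix_ext fun i j h => ?_
  rw [res_coeff, Matrix.neg_apply, Matrix.neg_apply, MonoidAlgebra.coeff_neg,
    MonoidAlgebra.coeff_neg, Finsupp.neg_apply, Finsupp.neg_apply, res_coeff]
  split_ifs <;> simp

theorem res_sub (c : X → Y → Prop) (x : I → X) (y : J → Y)
    (M N : Matrix I J (MonoidAlgebra ℤ G)) : res c x y (M - N) = res c x y M - res c x y N := by
  rw [sub_eq_add_neg, res_add, res_neg, ← sub_eq_add_neg]

@[simp] theorem res_zero (c : X → Y → Prop) (x : I → X) (y : J → Y) :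
    res c x y (0 : Matrix I J (MonoidAlgebra ℤ G)) = 0 := by
  classical
  refine matrix_ext fun i j h => ?_
  rw [res_coeff]
  split_ifs <;> simp

theorem res_sum {T : Type*} (s : Finset T) (c : X → Y → Prop) (x : I → X) (y : J → Y)
    (M : T → Matrix I J (MonoidAlgebra ℤ G)) :
    res c x y (∑ t ∈ s, M t) = ∑ t ∈ s, res c x y (M t) := by
  classical
  induction s using Finset.induction_on with
  | empty => simp
  | insert a s ha ih => rw [Finset.sum_insert ha, Finset.sum_insert ha, res_add, ih]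

theorem Moves.res_eq_self {c : X → Y → Prop} {x : I → X} {y : J → Y}
    {M : Matrix I J (MonoidAlgebra ℤ G)} (hM : Moves c x y M) : res c x y M = M := by
  classical
  refine matrix_ext fun i j h => ?_
  rw [res_coeff]
  split_ifs with hc
  · rfl
  · by_contra h2
    exact hc (hM i j h (fun h3 => h2 h3.symm))

theorem Moves.res_eq_self' {c d : X → Y → Prop} {x : I → X} {y : J → Y}
    {M : Matrix I J (MonoidAlgebra ℤ G)} (hM : Moves c x y M) (hcd : ∀ a b, c a b → d a b) :
    res d x y M = M :=
  Moves.res_eq_self (fun i j h hh => hcd _ _ (hM i j h hh))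

theorem Moves.res_eq_zero {c d : X → Y → Prop} {x : I → X} {y : J → Y}
    {M : Matrix I J (MonoidAlgebra ℤ G)} (hM : Moves c x y M) (hcd : ∀ a b, c a b → ¬ d a b) :
    res d x y M = 0 := by
  classical
  refine matrix_ext fun i j h => ?_
  rw [res_coeff]
  split_ifs with hc
  · by_contra h2
    exact hcd _ _ (hM i j h h2) hc
  · rfl

theorem Moves.mono {c d : X → Y → Prop} {x : I → X} {y : J → Y}
    {M : Matrix I J (MonoidAlgebra ℤ G)} (hM : Moves c x y M) (hcd : ∀ a b, c a b → d a b) :
    Moves d x y M := fun i j h hh => hcd _ _ (hM i j h hh)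

theorem moves_res (c : X → Y → Prop) (x : I → X) (y : J → Y)
    (M : Matrix I J (MonoidAlgebra ℤ G)) : Moves c x y (res c x y M) := by
  intro i j h hh
  by_contra hc
  exact hh (res_coeff_neg M hc)

theorem Moves.restr {c d : X → Y → Prop} {x : I → X} {y : J → Y}
    {M : Matrix I J (MonoidAlgebra ℤ G)} (hM : Moves c x y M) : Moves c x y (res d x y M) := by
  intro i j h hh
  by_cases hc : d (x i) (h • y j)
  · rw [res_coeff_pos M hc] at hh
    exact hM i j h hh
  · exact absurd (res_coeff_neg M hc) hh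

theorem res_add_res_not (c : X → Y → Prop) (x : I → X) (y : J → Y)
    (M : Matrix I J (MonoidAlgebra ℤ G)) :
    res c x y M + res (fun a b => ¬ c a b) x y M = M := by
  classical
  refine matrix_ext fun i j h => ?_
  rw [Matrix.add_apply, MonoidAlgebra.coeff_add, Finsupp.add_apply, res_coeff, res_coeff]
  by_cases hc : c (x i) (h • y j)
  · rw [if_pos hc, if_neg (not_not_intro hc), add_zero]
  · rw [if_neg hc, if_pos hc, zero_add]

theorem moves_zero (c : X → Y → Prop) (x : I → X) (y : J → Y) :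
    Moves c x y (0 : Matrix I J (MonoidAlgebra ℤ G)) := by
  intro i j h hh
  simp at hh

theorem Moves.add {c : X → Y → Prop} {x : I → X} {y : J → Y}
    {M N : Matrix I J (MonoidAlgebra ℤ G)} (hM : Moves c x y M) (hN : Moves c x y N) :
    Moves c x y (M + N) := by
  intro i j h hh
  rw [Matrix.add_apply, MonoidAlgebra.coeff_add, Finsupp.add_apply] at hh
  by_cases h1 : (M i j).coeff h = 0
  · rw [h1, zero_add] at hh
    exact hN i j h hh
  · exact hM i j h h1

theorem Moves.neg {c : X → Y → Prop} {x : I → X} {y : J → Y}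
    {M : Matrix I J (MonoidAlgebra ℤ G)} (hM : Moves c x y M) : Moves c x y (-M) := by
  intro i j h hh
  rw [Matrix.neg_apply, MonoidAlgebra.coeff_neg, Finsupp.neg_apply] at hh
  exact hM i j h (fun h2 => hh (by rw [h2, neg_zero]))

theorem Moves.sub {c : X → Y → Prop} {x : I → X} {y : J → Y}
    {M N : Matrix I J (MonoidAlgebra ℤ G)} (hM : Moves c x y M) (hN : Moves c x y N) :
    Moves c x y (M - N) := by
  rw [sub_eq_add_neg]
  exact hM.add hN.neg

theorem Moves.sum {T : Type*} {s : Finset T} {c : X → Y → Prop} {x : I → X} {y : J → Y}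
    {M : T → Matrix I J (MonoidAlgebra ℤ G)} (hM : ∀ t ∈ s, Moves c x y (M t)) :
    Moves c x y (∑ t ∈ s, M t) := by
  classical
  induction s using Finset.induction_on with
  | empty => simpa using moves_zero c x y
  | insert a s ha ih =>
    rw [Finset.sum_insert ha]
    exact (hM a (Finset.mem_insert_self a s)).add
      (ih fun t ht => hM t (Finset.mem_insert_of_mem ht))

/-- the coefficients of a product -/
theorem mul_coeff [Fintype J] (M : Matrix I J (MonoidAlgebra ℤ G))
    (N : Matrix J K (MonoidAlgebra ℤ G)) (i : I) (k : K) (h : G) :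
    ((M * N) i k).coeff h =
      ∑ j, ∑ a ∈ (M i j).coeff.support, (M i j).coeff a * (N j k).coeff (a⁻¹ * h) := by
  rw [Matrix.mul_apply, MonoidAlgebra.coeff_sum, Finsupp.finsetSum_apply]
  refine Finset.sum_congr rfl fun j _ => ?_
  rw [MonoidAlgebra.coeff_mul_apply_left]
  rfl

theorem exists_of_mul_coeff_ne [Fintype J] {M : Matrix I J (MonoidAlgebra ℤ G)}
    {N : Matrix J K (MonoidAlgebra ℤ G)} {i : I} {k : K} {h : G}
    (hh : ((M * N) i k).coeff h ≠ 0) :
    ∃ (j : J) (a b : G), a * b = h ∧ (M i j).coeff a ≠ 0 ∧ (N j k).coeff b ≠ 0 := by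
  rw [mul_coeff] at hh
  obtain ⟨j, _, hj⟩ := Finset.exists_ne_zero_of_sum_ne_zero hh
  obtain ⟨a, _, ha⟩ := Finset.exists_ne_zero_of_sum_ne_zero hj
  exact ⟨j, a, a⁻¹ * h, by group, left_ne_zero_of_mul ha, right_ne_zero_of_mul ha⟩

theorem Moves.mul [Fintype J] {c : X → Y → Prop} {d : Y → Z → Prop} {e : X → Z → Prop}
    {x : I → X} {y : J → Y} {z : K → Z} {M : Matrix I J (MonoidAlgebra ℤ G)}
    {N : Matrix J K (MonoidAlgebra ℤ G)} (hM : Moves c x y M) (hd : RInv G d)
    (hN : Moves d y z N) (he : ∀ a b t, c a b → d b t → e a t) : Moves e x z (M * N) := by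
  intro i k h hh
  obtain ⟨j, a, b, rfl, ha, hb⟩ := exists_of_mul_coeff_ne hh
  have h1 := hM i j a ha
  have h2 := hd a _ _ (hN j k b hb)
  rw [← mul_smul] at h2
  exact he _ _ _ h1 h2

/-- the product of restrictions is the restriction of the product -/
theorem res_mul_res [Fintype J] {c c1 : X → Y → Prop} {d d1 : Y → Z → Prop} {e : X → Z → Prop}
    {x : I → X} {y : J → Y} {z : K → Z} {M : Matrix I J (MonoidAlgebra ℤ G)}
    {N : Matrix J K (MonoidAlgebra ℤ G)} (hM : Moves c x y M) (hd : RInv G d) (hd1 : RInv G d1)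
    (hN : Moves d y z N) (he : ∀ a b t, c a b → d b t → ((c1 a b ∧ d1 b t) ↔ e a t)) :
    res c1 x y M * res d1 y z N = res e x z (M * N) := by
  classical
  refine matrix_ext fun i k h => ?_
  have key : ∀ j a, (M i j).coeff a ≠ 0 → (N j k).coeff (a⁻¹ * h) ≠ 0 →
      ((c1 (x i) (a • y j) ∧ d1 (y j) ((a⁻¹ * h) • z k)) ↔ e (x i) (h • z k)) := by
    intro j a ha hb
    have h1 := hM i j a ha
    have h2 := hd a _ _ (hN j k _ hb)
    have h3 : a • (a⁻¹ * h) • z k = h • z k := by rw [← mul_smul]; congr 1; group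
    rw [h3] at h2
    rw [← he _ _ _ h1 h2, ← hd1.iff a (y j), h3]
  rw [mul_coeff, res_coeff, mul_coeff]
  have h0 : ∀ j, ∑ a ∈ (res c1 x y M i j).coeff.support,
      (res c1 x y M i j).coeff a * (res d1 y z N j k).coeff (a⁻¹ * h) =
      ∑ a ∈ (M i j).coeff.support,
      (res c1 x y M i j).coeff a * (res d1 y z N j k).coeff (a⁻¹ * h) := by
    intro j
    refine Finset.sum_subset ?_ ?_
    · intro a ha
      rw [Finsupp.mem_support_iff] at ha ⊢
      intro h2
      apply ha
      rw [res_coeff, h2, ite_self]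
    · intro a _ ha
      rw [Finsupp.notMem_support_iff] at ha
      rw [ha, zero_mul]
  simp only [h0]
  split_ifs with hc
  · refine Finset.sum_congr rfl fun j _ => Finset.sum_congr rfl fun a _ => ?_
    by_cases h1 : (M i j).coeff a = 0
    · rw [res_coeff, h1, ite_self, zero_mul, zero_mul]
    by_cases h2 : (N j k).coeff (a⁻¹ * h) = 0
    · rw [res_coeff d1, h2, ite_self, mul_zero, mul_zero]
    obtain ⟨h3, h4⟩ := (key j a h1 h2).2 hc
    rw [res_coeff_pos M h3, res_coeff_pos N h4]
  · refine Finset.sum_eq_zero fun j _ => Finset.sum_eq_zero fun a _ => ?_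
    by_cases h1 : (M i j).coeff a = 0
    · rw [res_coeff, h1, ite_self, zero_mul]
    by_cases h2 : (N j k).coeff (a⁻¹ * h) = 0
    · rw [res_coeff d1, h2, ite_self, mul_zero]
    by_cases h3 : c1 (x i) (a • y j)
    · have h4 : ¬ d1 (y j) ((a⁻¹ * h) • z k) := fun h4 => hc ((key j a h1 h2).1 ⟨h3, h4⟩)
      rw [res_coeff_neg N h4, mul_zero]
    · rw [res_coeff_neg M h3, zero_mul]

/-- `M * res N = res (M * N)` -/
theorem mul_res_of [Fintype J] {c : X → Y → Prop} {d d1 : Y → Z → Prop} {e : X → Z → Prop}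
    {x : I → X} {y : J → Y} {z : K → Z} {M : Matrix I J (MonoidAlgebra ℤ G)}
    {N : Matrix J K (MonoidAlgebra ℤ G)} (hM : Moves c x y M) (hd : RInv G d) (hd1 : RInv G d1)
    (hN : Moves d y z N) (he : ∀ a b t, c a b → d b t → (d1 b t ↔ e a t)) :
    M * res d1 y z N = res e x z (M * N) := by
  have h1 := res_mul_res (c1 := fun _ _ => True) (e := e) hM hd hd1 hN
    (fun a b t h1 h2 => by rw [true_and]; exact he a b t h1 h2)
  rw [← h1]
  congr 1
  exact (Moves.res_eq_self' hM (fun _ _ _ => trivial)).symm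

/-- `res M * N = res (M * N)` -/
theorem res_mul_of [Fintype J] {c c1 : X → Y → Prop} {d : Y → Z → Prop} {e : X → Z → Prop}
    {x : I → X} {y : J → Y} {z : K → Z} {M : Matrix I J (MonoidAlgebra ℤ G)}
    {N : Matrix J K (MonoidAlgebra ℤ G)} (hM : Moves c x y M) (hd : RInv G d)
    (hN : Moves d y z N) (he : ∀ a b t, c a b → d b t → (c1 a b ↔ e a t)) :
    res c1 x y M * N = res e x z (M * N) := by
  have h1 := res_mul_res (d1 := fun _ _ => True) (e := e) hM hd (fun _ _ _ _ => trivial) hN
    (fun a b t h1 h2 => by rw [and_true]; exact he a b t h1 h2)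
  rw [← h1]
  congr 1
  exact (Moves.res_eq_self' hN (fun _ _ _ => trivial)).symm

theorem one_coeff [DecidableEq I] (i j : I) (h : G)
    (hh : ((1 : Matrix I I (MonoidAlgebra ℤ G)) i j).coeff h ≠ 0) : i = j ∧ h = 1 := by
  by_cases hij : i = j
  · subst hij
    refine ⟨rfl, ?_⟩
    rw [Matrix.one_apply_eq, MonoidAlgebra.one_def, MonoidAlgebra.coeff_single] at hh
    by_contra h2
    exact hh (Finsupp.single_eq_of_ne h2)
  · rw [Matrix.one_apply_ne hij] at hh
    simp at hh

theorem moves_one [DecidableEq I] {c : X → X → Prop} (x : I → X) (hc : ∀ a, c a a) :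
    Moves c x x (1 : Matrix I I (MonoidAlgebra ℤ G)) := by
  intro i j h hh
  obtain ⟨rfl, rfl⟩ := one_coeff i j h hh
  rw [one_smul]
  exact hc _

end calculus

/-! ### Diagonal matrices of group elements -/

section dg

variable {G : Type u} [Group G] {I J : Type*}

/-- the diagonal matrix with the group elements `g i` -/
noncomputable def dg [DecidableEq I] (g : I → G) : Matrix I I (MonoidAlgebra ℤ G) :=
  Matrix.diagonal fun i => MonoidAlgebra.single (g i) 1

theorem dg_mul_dg [Fintype I] [DecidableEq I] (g g' : I → G) :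
    dg g * dg g' = dg (fun i => g i * g' i) := by
  unfold dg
  rw [Matrix.diagonal_mul_diagonal]
  congr 1
  funext i
  rw [MonoidAlgebra.single_mul_single, one_mul]

theorem dg_one [Fintype I] [DecidableEq I] : dg (fun _ : I => (1 : G)) = 1 := by
  show Matrix.diagonal (fun _ : I => MonoidAlgebra.single (1 : G) (1 : ℤ)) = 1
  rw [← MonoidAlgebra.one_def, Matrix.diagonal_one]

theorem dg_inv_mul [Fintype I] [DecidableEq I] (g : I → G) : dg (fun i => (g i)⁻¹) * dg g = 1 := by
  rw [dg_mul_dg, ← dg_one]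
  congr 1
  funext i
  exact inv_mul_cancel _

theorem dg_mul_inv [Fintype I] [DecidableEq I] (g : I → G) : dg g * dg (fun i => (g i)⁻¹) = 1 := by
  rw [dg_mul_dg, ← dg_one]
  congr 1
  funext i
  exact mul_inv_cancel _

theorem isUnit_dg [Fintype I] [DecidableEq I] (g : I → G) : IsUnit (dg g) :=
  ⟨⟨dg g, dg (fun i => (g i)⁻¹), dg_mul_inv g, dg_inv_mul g⟩, rfl⟩

theorem dg_mul_coeff [Fintype I] [DecidableEq I] (g : I → G)
    (M : Matrix I J (MonoidAlgebra ℤ G)) (i : I) (j : J) (h : G) :
    ((dg g * M) i j).coeff h = (M i j).coeff ((g i)⁻¹ * h) := by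
  unfold dg
  rw [Matrix.diagonal_mul, MonoidAlgebra.coeff_single_mul_apply, one_mul]

theorem mul_dg_coeff [Fintype J] [DecidableEq J] (g : J → G)
    (M : Matrix I J (MonoidAlgebra ℤ G)) (i : I) (j : J) (h : G) :
    ((M * dg g) i j).coeff h = (M i j).coeff (h * (g j)⁻¹) := by
  unfold dg
  rw [Matrix.mul_diagonal, MonoidAlgebra.coeff_mul_single_apply, mul_one]

end dg

/-! ### Walks -/

section walks

/-- walks of length `n` along the relation `r` -/
def Wk {X : Type*} (r : X → X → Prop) : ℕ → X → X → Prop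
  | 0, x, y => x = y
  | n + 1, x, y => ∃ z, r x z ∧ Wk r n z y

variable {X : Type*} {r : X → X → Prop}

theorem Wk.trans {m n : ℕ} {x y z : X} (h : Wk r m x y) (h' : Wk r n y z) :
    Wk r (m + n) x z := by
  induction m generalizing x with
  | zero =>
    have : x = y := h
    subst this
    rwa [Nat.zero_add]
  | succ m ih =>
    obtain ⟨t, h1, h2⟩ := h
    rw [Nat.succ_add]
    exact ⟨t, h1, ih h2⟩

theorem Wk.one_iff {x y : X} : Wk r 1 x y ↔ r x y := by
  constructor
  · rintro ⟨z, h1, h2⟩
    have : z = y := h2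
    rwa [← this]
  · intro h
    exact ⟨y, h, rfl⟩

theorem Wk.mono {r' : X → X → Prop} (hr : ∀ x y, r x y → r' x y) {m : ℕ} {x y : X}
    (h : Wk r m x y) : Wk r' m x y := by
  induction m generalizing x with
  | zero => exact h
  | succ m ih =>
    obtain ⟨t, h1, h2⟩ := h
    exact ⟨t, hr _ _ h1, ih h2⟩

theorem Wk.snoc {m : ℕ} {x y z : X} (h : Wk r m x y) (h' : r y z) : Wk r (m + 1) x z :=
  h.trans (Wk.one_iff.2 h')

theorem Wk.exists_snoc {m : ℕ} {x z : X} (h : Wk r (m + 1) x z) :
    ∃ y, Wk r m x y ∧ r y z := by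
  induction m generalizing x with
  | zero => exact ⟨x, rfl, Wk.one_iff.1 h⟩
  | succ m ih =>
    obtain ⟨t, h1, h2⟩ := h
    obtain ⟨y, h3, h4⟩ := ih h2
    exact ⟨y, ⟨t, h1, h3⟩, h4⟩

theorem Wk.smul {G : Type u} [Group G] [MulAction G X] (hr : RInv G r) (g : G) {m : ℕ} {x y : X}
    (h : Wk r m x y) : Wk r m (g • x) (g • y) := by
  induction m generalizing x with
  | zero =>
    have : x = y := h
    rw [this]
    rfl
  | succ m ih =>
    obtain ⟨t, h1, h2⟩ := h
    exact ⟨g • t, hr _ _ _ h1, ih h2⟩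

theorem rInv_wk {G : Type u} [Group G] [MulAction G X] (hr : RInv G r) (m : ℕ) :
    RInv G (Wk r m) := fun g _ _ h => Wk.smul hr g h

/-- the unique walk property -/
structure UWP {X : Type*} (r : X → X → Prop) : Prop where
  len : ∀ m m' x y, Wk r m x y → Wk r m' x y → m = m'
  step : ∀ m m' x z z' y, r x z → r x z' → Wk r m z y → Wk r m' z' y → z = z'

theorem UWP.mono {r' : X → X → Prop} (h : UWP r) (hr : ∀ x y, r' x y → r x y) : UWP r' where
  len m m' x y h1 h2 := h.len m m' x y (h1.mono hr) (h2.mono hr)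
  step m m' x z z' y h1 h2 h3 h4 := h.step m m' x z z' y (hr _ _ h1) (hr _ _ h2) (h3.mono hr)
    (h4.mono hr)

theorem Moves.pow {G : Type u} [Group G] [MulAction G X] {I : Type*} [Fintype I] [DecidableEq I]
    (hr : RInv G r) {x : I → X} {N : Matrix I I (MonoidAlgebra ℤ G)} (hN : Moves r x x N)
    (m : ℕ) : Moves (Wk r m) x x (N ^ m) := by
  induction m with
  | zero =>
    rw [pow_zero]
    exact moves_one x fun a => rfl
  | succ m ih =>
    rw [pow_succ']
    exact hN.mul (rInv_wk hr m) ih (fun a b t h1 h2 => ⟨b, h1, h2⟩)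

end walks

/-! ### The standing hypotheses of the nilpotent part -/

section nil

open MulAction (stabilizer)

variable {G : Type u} [Group G] {X : Type*} [MulAction G X]

/-- pure arrows: both ends have the same stabilizer, not in the family `Rg` -/
def Pu (Rg : Subgroup G → Prop) (r : X → X → Prop) (x y : X) : Prop :=
  r x y ∧ stabilizer G x = stabilizer G y ∧ ¬ Rg (stabilizer G x)

/-- the other arrows -/
def Np (Rg : Subgroup G → Prop) (r : X → X → Prop) (x y : X) : Prop :=
  r x y ∧ ¬ (stabilizer G x = stabilizer G y ∧ ¬ Rg (stabilizer G x))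

/-- the relation between the arrows which are not pure: a pure walk from the end of the first to
the start of the second -/
def nextR (Rg : Subgroup G → Prop) (r : X → X → Prop) (α β : X × X) : Prop :=
  Np Rg r α.1 α.2 ∧ Np Rg r β.1 β.2 ∧ ∃ m, Wk (Pu Rg r) m α.2 β.1

/-- there is a chain of `n` drops of the stabilizers starting from the pair `(x, y)` and ending
outside of the family `Rg` -/
def Deep (Rg : Subgroup G → Prop) (r : X → X → Prop) : ℕ → X → X → Prop
  | 0, x, y => ¬ Rg (stabilizer G x ⊓ stabilizer G y)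
  | n + 1, x, y => ∃ x' y', (∃ m, Wk r m x' x) ∧ (∃ m, Wk r m y y') ∧
      stabilizer G x' ⊓ stabilizer G y' ≠ stabilizer G x ⊓ stabilizer G y ∧
      Deep Rg r n x' y'

/-- the image of `K₁(ℤL)`, `L` a subgroup of `G`, lies in `W` -/
def ImOK (W : AddSubgroup (K1 (MonoidAlgebra ℤ G))) (L : Subgroup G) : Prop :=
  ∀ z : K1 (MonoidAlgebra ℤ L), K1.map (MonoidAlgebra.mapDomainRingHom ℤ L.subtype) z ∈ W

/-- `g` normalizes `D` -/
def Nrm (g : G) (D : Subgroup G) : Prop := ∀ a : G, a ∈ D ↔ g * a * g⁻¹ ∈ D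

/-- the condition on the groups `D⟨g⟩` -/
def LinkOK (Rg : Subgroup G → Prop) (r : X → X → Prop)
    (W : AddSubgroup (K1 (MonoidAlgebra ℤ G))) : Prop :=
  ∀ (x y : X) (g : G), (∃ m, Wk r m x y) → (∃ m, 0 < m ∧ Wk r m x (g • x)) →
    (∃ m, 0 < m ∧ Wk r m y (g • y)) → Nrm g (stabilizer G x ⊓ stabilizer G y) →
    ¬ Rg (stabilizer G x ⊓ stabilizer G y) →
    ImOK W (Subgroup.closure (((stabilizer G x ⊓ stabilizer G y : Subgroup G) : Set G) ∪ {g}))

end nil

end Pool.Agent.Lib.MP_16fe43_al
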