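import Pool.Agent.Lib.MP_16fe43_al.TreeG1

/-!
# Geometry of trees, part 2: walks of darts, segments
-/

set_option autoImplicit false

universe u v w

namespace Pool.Agent.Lib.MP_16fe43_al

open MulAction (stabilizer)

variable {V : Type v} {T : SimpleGraph V}

/-- the side beyond the end of a walk -/
theorem wk_bk_sd (hT : T.IsTree) {m : ℕ} {d d' : V × V} (h : Wk (Bk T) m d d') {u : V}
    (hu : Sd T d' u) (hd : T.Adj d.1 d.2) :
    Sd T d u ∧ T.dist d.1 u = T.dist d'.1 u + m := by
  induction m generalizing d with
  | zero =>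
    have h0 : d = d' := h
    subst h0
    exact ⟨hu, rfl⟩
  | succ m ih =>
    obtain ⟨z, h1, h2⟩ := h
    obtain ⟨h3, h4⟩ := ih h2 h1.2.1
    obtain ⟨h5, -, h7⟩ := bk_sd hT h1 h3
    refine ⟨h5, ?_⟩
    rw [h7, h4, Nat.add_assoc]

/-- a walk of darts is geodesic -/
theorem wk_bk_dist (hT : T.IsTree) {m : ℕ} {d d' : V × V} (hd : T.Adj d.1 d.2)
    (h : Wk (Bk T) m d d') : T.Adj d'.1 d'.2 ∧ T.dist d.1 d'.1 = m ∧ T.dist d.2 d'.1 = m + 1 ∧
      T.dist d.2 d'.2 = m ∧ (0 < m → T.dist d.1 d'.2 = m - 1) := by
  induction m generalizing d with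
  | zero =>
    have h0 : d = d' := h
    subst h0
    refine ⟨hd, SimpleGraph.dist_self, ?_, SimpleGraph.dist_self, fun h1 => absurd h1 (lt_irrefl 0)⟩
    exact SimpleGraph.dist_eq_one_iff_adj.2 hd.symm
  | succ m ih =>
    obtain ⟨z, h1, h2⟩ := h
    obtain ⟨h3, h4, h5, h6, h7⟩ := ih h1.2.1 h2
    have hz : z.2 = d.1 := h1.2.2.1
    rw [hz] at h5 h6
    have hs1 : Sd T z d'.1 := by
      show T.dist d'.1 z.1 < T.dist d'.1 z.2
      rw [hz, SimpleGraph.dist_comm, h4, SimpleGraph.dist_comm, h5]
      exact Nat.lt_succ_self m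
    have hs2 : T.dist d.2 d'.1 = m + 1 + 1 := by
      have h8 := (sd_iff hT hd d'.1).1 (bk_sd hT h1 hs1).1
      rw [SimpleGraph.dist_comm, h8, SimpleGraph.dist_comm, h5]
    have hs3 : T.dist d.2 d'.2 = m + 1 := by
      by_cases hm : m = 0
      · subst hm
        have h0 : z = d' := h2
        subst h0
        rw [hz]
        exact SimpleGraph.dist_eq_one_iff_adj.2 hd.symm
      · have hm' : 0 < m := Nat.pos_of_ne_zero hm
        have h8 := h7 hm'
        have hs4 : Sd T z d'.2 := by
          show T.dist d'.2 z.1 < T.dist d'.2 z.2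
          rw [hz, SimpleGraph.dist_comm, h8, SimpleGraph.dist_comm, h6]
          exact Nat.sub_lt hm' Nat.one_pos
        have h9 := (sd_iff hT hd d'.2).1 (bk_sd hT h1 hs4).1
        rw [SimpleGraph.dist_comm, h9, SimpleGraph.dist_comm, h6]
    exact ⟨h3, h5, hs2, hs3, fun _ => h6⟩

theorem sd_self {d : V × V} (hd : T.Adj d.1 d.2) : Sd T d d.1 := by
  show T.dist d.1 d.1 < T.dist d.1 d.2
  rw [SimpleGraph.dist_self, SimpleGraph.dist_eq_one_iff_adj.2 hd]
  exact Nat.one_pos

theorem uwp_bk (hT : T.IsTree) : UWP (Bk T) where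
  len m m' x y h h' := by
    have key : ∀ {n n' : ℕ}, Wk (Bk T) (n + 1) x y → Wk (Bk T) n' x y → n + 1 = n' := by
      intro n n' h1 h2
      have hx : T.Adj x.1 x.2 := by
        obtain ⟨z, h3, -⟩ := h1
        exact h3.1
      rw [← (wk_bk_dist hT hx h1).2.1, ← (wk_bk_dist hT hx h2).2.1]
    cases m with
    | zero =>
      cases m' with
      | zero => rfl
      | succ n => exact (key h' h).symm
    | succ n => exact key h h'
  step m m' x z z' y h1 h2 h3 h4 := by
    have hy : T.Adj y.1 y.2 := (wk_bk_dist hT h1.2.1 h3).1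
    exact bk_unique hT h1 h2 (wk_bk_sd hT h3 (sd_self hy) h1.2.1).1
      (wk_bk_sd hT h4 (sd_self hy) h2.2.1).1

/-- betweenness is transitive: if `x, y` are in this order on `[a, b]` and `z` is between `x` and
`y`, then `z` is between `a` and `b` -/
theorem between_trans (hT : T.IsTree) {a b x y z : V}
    (h : T.dist a b = T.dist a x + T.dist x y + T.dist y b)
    (hz : T.dist x y = T.dist x z + T.dist z y) :
    T.dist a b = T.dist a z + T.dist z b := by
  have h1 := hT.connected.dist_triangle (u := a) (v := x) (w := z)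
  have h2 := hT.connected.dist_triangle (u := z) (v := y) (w := b)
  have h3 := hT.connected.dist_triangle (u := a) (v := z) (w := b)
  omega

/-- the point of a segment at a given distance is unique -/
theorem between_unique (hT : T.IsTree) {a b z z' : V} (h : T.dist a b = T.dist a z + T.dist z b)
    (h' : T.dist a b = T.dist a z' + T.dist z' b) (hzz : T.dist a z = T.dist a z') : z = z' := by
  obtain ⟨n, hn⟩ : ∃ n, T.dist a z = n := ⟨_, rfl⟩
  induction n generalizing a with
  | zero =>
    have h1 : a = z := hT.connected.dist_eq_zero_iff.1 hn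
    have h2 : a = z' := hT.connected.dist_eq_zero_iff.1 (hzz.symm.trans hn)
    rw [← h1, ← h2]
  | succ n ih =>
    have hab : b ≠ a := by
      intro h1
      subst h1
      rw [SimpleGraph.dist_self] at h
      omega
    obtain ⟨a1, ha1, hd1⟩ := descent_exists hT hab
    -- the neighbour is also on the way to `z`, `z'`
    have key : ∀ y : V, T.dist a b = T.dist a y + T.dist y b → 0 < T.dist a y →
        T.dist a y = T.dist a1 y + 1 := by
      intro y hy hpos
      have hya : y ≠ a := by
        intro h1
        subst h1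
        rw [SimpleGraph.dist_self] at hpos
        exact lt_irrefl 0 hpos
      obtain ⟨a2, ha2, hd2⟩ := descent_exists hT hya
      have h3 := hT.connected.dist_triangle (u := b) (v := y) (w := a2)
      have h4 : T.dist b a = T.dist a b := SimpleGraph.dist_comm
      have h5 : T.dist y a = T.dist a y := SimpleGraph.dist_comm
      have h6 : T.dist b y = T.dist y b := SimpleGraph.dist_comm
      have h7 := dist_adj hT b ha2
      have h8 : T.dist b a = T.dist b a2 + 1 := by
        rcases h7 with h7 | h7
        · exact h7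
        · omega
      have h9 : a1 = a2 := descent_unique hT ha1 ha2 hd1 h8
      subst h9
      have h10 : T.dist y a1 = T.dist a1 y := SimpleGraph.dist_comm
      omega
    have h1 := key z h (by omega)
    have h2 := key z' h' (by omega)
    have h3 : T.dist b a = T.dist a b := SimpleGraph.dist_comm
    have h4 : T.dist b a1 = T.dist a1 b := SimpleGraph.dist_comm
    exact ih (a := a1) (by omega) (by omega) (by omega) (by omega)

/-- the distance of two points on different sides of an edge -/
theorem dist_cross (hT : T.IsTree) {d : V × V} (hd : T.Adj d.1 d.2) {a b : V} (ha : Sd T d a)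
    (hb : ¬ Sd T d b) : T.dist a b = T.dist a d.1 + 1 + T.dist d.2 b := by
  obtain ⟨n, hn⟩ : ∃ n, T.dist a b = n := ⟨_, rfl⟩
  induction n generalizing a with
  | zero =>
    have h1 : a = b := hT.connected.dist_eq_zero_iff.1 hn
    subst h1
    exact absurd ha hb
  | succ n ih =>
    have hba : b ≠ a := by
      intro h1
      subst h1
      exact hb ha
    obtain ⟨a', ha', hd'⟩ := descent_exists hT hba
    have h1 : T.dist b a = T.dist a b := SimpleGraph.dist_comm
    have h2 : T.dist b a' = T.dist a' b := SimpleGraph.dist_comm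
    by_cases hs : Sd T d a'
    · have h3 := ih hs (by omega)
      have h4 := dist_adj hT d.1 ha'
      have h5 : T.dist d.1 a = T.dist a d.1 := SimpleGraph.dist_comm
      have h6 : T.dist d.1 a' = T.dist a' d.1 := SimpleGraph.dist_comm
      have h7 := hT.connected.dist_triangle (u := a) (v := d.1) (w := b)
      have h8 := hT.connected.dist_triangle (u := d.1) (v := d.2) (w := b)
      have h9 : T.dist d.1 d.2 = 1 := SimpleGraph.dist_eq_one_iff_adj.2 hd
      rcases h4 with h4 | h4 <;> omega
    · obtain ⟨h3, h4⟩ := eq_of_sd_not_sd hT hd ha' ha hs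
      subst h3 h4
      rw [SimpleGraph.dist_self]
      omega

/-- a point of `[p, q]` is in `[p, p']` or in `[p', q]` -/
theorem between_or (hT : T.IsTree) {p q z : V} (h : T.dist p q = T.dist p z + T.dist z q)
    (p' : V) : T.dist p p' = T.dist p z + T.dist z p' ∨ T.dist p' q = T.dist p' z + T.dist z q := by
  by_cases hz : p' = z
  · subst hz
    left
    rw [SimpleGraph.dist_self, Nat.add_zero]
  · obtain ⟨z1, hz1, hd1⟩ := descent_exists hT hz
    have hd : T.Adj (z1, z).1 (z1, z).2 := hz1.symm
    have hp' : Sd T (z1, z) p' := by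
      show T.dist p' z1 < T.dist p' z
      omega
    by_cases h1 : Sd T (z1, z) p
    · by_cases h2 : Sd T (z1, z) q
      · exfalso
        have h1' : T.dist p z1 < T.dist p z := h1
        have h2' : T.dist q z1 < T.dist q z := h2
        have h3 := hT.connected.dist_triangle (u := p) (v := z1) (w := q)
        have h4 : T.dist q z1 = T.dist z1 q := SimpleGraph.dist_comm
        have h5 : T.dist q z = T.dist z q := SimpleGraph.dist_comm
        omega
      · right
        have h3 : T.dist p' q = T.dist p' z1 + 1 + T.dist z q := dist_cross hT hd hp' h2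
        omega
    · left
      have h3 : T.dist p' p = T.dist p' z1 + 1 + T.dist z p := dist_cross hT hd hp' h1
      have h4 : T.dist p' p = T.dist p p' := SimpleGraph.dist_comm
      have h5 : T.dist z p = T.dist p z := SimpleGraph.dist_comm
      have h6 : T.dist p' z = T.dist z p' := SimpleGraph.dist_comm
      omega

/-- two segments which overlap in a nondegenerate segment are in line -/
theorem between_glue (hT : T.IsTree) {a b c e : V} (hbc : b ≠ c)
    (h1 : T.dist a c = T.dist a b + T.dist b c) (h2 : T.dist b e = T.dist b c + T.dist c e) :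
    T.dist a e = T.dist a b + T.dist b c + T.dist c e := by
  obtain ⟨c1, hc1, hd1⟩ := descent_exists hT hbc.symm
  have hd : T.Adj (b, c1).1 (b, c1).2 := hc1
  have e1 : T.dist c b = T.dist b c := SimpleGraph.dist_comm
  have e2 : T.dist c c1 = T.dist c1 c := SimpleGraph.dist_comm
  have ha : Sd T (b, c1) a := by
    by_contra h
    have h3 : T.dist a b = T.dist a c1 + 1 := (not_sd_iff hT hd a).1 h
    have h4 := hT.connected.dist_triangle (u := a) (v := c1) (w := c)
    omega
  have h3 := hT.connected.dist_triangle (u := c1) (v := c) (w := e)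
  have e3 : T.dist e b = T.dist b e := SimpleGraph.dist_comm
  have e4 : T.dist e c1 = T.dist c1 e := SimpleGraph.dist_comm
  have he : ¬ Sd T (b, c1) e := by
    intro h
    have h4 : T.dist e b < T.dist e c1 := h
    omega
  have h4 : T.dist a e = T.dist a b + 1 + T.dist c1 e := dist_cross hT hd ha he
  have h5 := hT.connected.dist_triangle (u := b) (v := c1) (w := e)
  have h6 : T.dist b c1 = 1 := SimpleGraph.dist_eq_one_iff_adj.2 hc1
  omega

section act

variable {G : Type u} [Group G] [MulAction G V]

/-- an element fixing the ends fixes the points between -/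
theorem fix_between (hT : TAct G T) {g : G} {a b z : V} (ha : g • a = a) (hb : g • b = b)
    (h : T.dist a b = T.dist a z + T.dist z b) : g • z = z := by
  have h1 : T.dist a (g • z) = T.dist a z := by
    have h2 := dist_smul hT g a z
    rwa [ha] at h2
  have h2 : T.dist (g • z) b = T.dist z b := by
    have h3 := dist_smul hT g z b
    rwa [hb] at h3
  exact between_unique hT.tree (by rw [h1, h2]; exact h) h h1

theorem stab_between (hT : TAct G T) {a b z : V} (h : T.dist a b = T.dist a z + T.dist z b) :
    stabilizer G a ⊓ stabilizer G b ≤ stabilizer G z := by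
  intro g hg
  obtain ⟨h1, h2⟩ := Subgroup.mem_inf.1 hg
  exact MulAction.mem_stabilizer_iff.2 (fix_between hT (MulAction.mem_stabilizer_iff.1 h1)
    (MulAction.mem_stabilizer_iff.1 h2) h)

/-- the stabilizer of the ends of a walk of darts is the stabilizer of the segment -/
theorem stab_wk (hT : TAct G T) {m : ℕ} {d d' : V × V} (hd : T.Adj d.1 d.2)
    (h : Wk (Bk T) m d d') :
    stabilizer G d ⊓ stabilizer G d' = stabilizer G d.2 ⊓ stabilizer G d'.1 := by
  obtain ⟨h1, h2, h3, h4, -⟩ := wk_bk_dist hT.tree hd h
  have e1 : T.dist d.2 d.1 = 1 := SimpleGraph.dist_eq_one_iff_adj.2 hd.symm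
  have e2 : T.dist d'.2 d'.1 = 1 := SimpleGraph.dist_eq_one_iff_adj.2 h1.symm
  ext g
  rw [Subgroup.mem_inf, Subgroup.mem_inf, MulAction.mem_stabilizer_iff,
    MulAction.mem_stabilizer_iff, MulAction.mem_stabilizer_iff, MulAction.mem_stabilizer_iff]
  constructor
  · rintro ⟨h5, h6⟩
    exact ⟨congrArg Prod.snd h5, congrArg Prod.fst h6⟩
  · rintro ⟨h5, h6⟩
    have h7 : g • d.1 = d.1 := fix_between hT h5 h6 (by omega)
    have h8 : g • d'.2 = d'.2 := fix_between hT h5 h6 (by omega)
    exact ⟨Prod.ext h7 h5, Prod.ext h6 h8⟩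

end act

end Pool.Agent.Lib.MP_16fe43_al
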