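import Pool.Agent.Lib.MP_16fe43_al.TreeG2

/-!
# Bounded drops
-/

set_option autoImplicit false

universe u v w

namespace Pool.Agent.Lib.MP_16fe43_al

open MulAction (stabilizer)

variable {V : Type v} {T : SimpleGraph V} {G : Type u} [Group G] [MulAction G V]

/-- unfolding a chain of drops -/
private theorem deep_seq {X : Type*} [MulAction G X] {Rg : Subgroup G → Prop}
    {r : X → X → Prop} (n : ℕ) (x₀ y₀ : X) (h : Deep Rg r n x₀ y₀) :
    ∃ x y : ℕ → X, x 0 = x₀ ∧ y 0 = y₀ ∧
      (∀ k, (∃ m, Wk r m (x (k + 1)) (x k)) ∧ (∃ m, Wk r m (y k) (y (k + 1)))) ∧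
      (∀ k < n, stabilizer G (x (k + 1)) ⊓ stabilizer G (y (k + 1)) ≠
        stabilizer G (x k) ⊓ stabilizer G (y k)) ∧
      ¬ Rg (stabilizer G (x n) ⊓ stabilizer G (y n)) := by
  induction n generalizing x₀ y₀ with
  | zero =>
    refine ⟨fun _ => x₀, fun _ => y₀, rfl, rfl, fun k => ⟨⟨0, rfl⟩, ⟨0, rfl⟩⟩, ?_, h⟩
    intro k hk
    omega
  | succ n ih =>
    obtain ⟨x', y', hx, hy, hne, hd⟩ := h
    obtain ⟨x, y, h0, h0', h1, h2, h3⟩ := ih x' y' hd
    refine ⟨fun k => Nat.casesOn k x₀ x, fun k => Nat.casesOn k y₀ y, rfl, rfl, ?_, ?_, h3⟩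
    · intro k
      cases k with
      | zero =>
        refine ⟨?_, ?_⟩
        · change ∃ m, Wk r m (x 0) x₀
          rw [h0]
          exact hx
        · change ∃ m, Wk r m y₀ (y 0)
          rw [h0']
          exact hy
      | succ k => exact h1 k
    · intro k hk
      cases k with
      | zero =>
        change stabilizer G (x 0) ⊓ stabilizer G (y 0) ≠ stabilizer G x₀ ⊓ stabilizer G y₀
        rw [h0, h0']
        exact hne
      | succ k => exact h2 k (by omega)

/-- the condition on segments gives the condition on darts -/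
theorem deep_of_bdd (hT : TAct G T) {Rg : Subgroup G → Prop} (hRg : RgOK Rg)
    (h : BddDrops G T Rg) (d : V × V) (hd : T.Adj d.1 d.2) :
    ∃ n : ℕ, ¬ Deep Rg (Bk T) n d d := by
  obtain ⟨n, hn⟩ := h d.2 d.1 hd.symm
  refine ⟨n, fun hdeep => ?_⟩
  obtain ⟨x, y, hx0, hy0, hw, hne, hRgn⟩ := deep_seq n d d hdeep
  -- adjacency of the darts `x k`
  have hadj : ∀ k, T.Adj (x k).1 (x k).2 := by
    intro k
    induction k with
    | zero => rw [hx0]; exact hd
    | succ k ih =>
      obtain ⟨m, hm⟩ := (hw k).1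
      cases m with
      | zero =>
        have : x (k + 1) = x k := hm
        rw [this]
        exact ih
      | succ m =>
        obtain ⟨z, hz, _⟩ := hm
        exact hz.1
  -- the walks from `x k` to `y k`
  have hxy : ∀ k, ∃ m, Wk (Bk T) m (x k) (y k) := by
    intro k
    induction k with
    | zero => exact ⟨0, by rw [hx0, hy0]; rfl⟩
    | succ k ih =>
      obtain ⟨m, hm⟩ := ih
      obtain ⟨⟨m₁, hm₁⟩, ⟨m₂, hm₂⟩⟩ := hw k
      exact ⟨_, (hm₁.trans hm).trans hm₂⟩
  have hinc : IncSeg T (fun k => (x k).2) (fun k => (y k).1) := by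
    intro k
    obtain ⟨m, hm⟩ := hxy k
    obtain ⟨⟨m₁, hm₁⟩, ⟨m₂, hm₂⟩⟩ := hw k
    have e1 := wk_bk_dist hT.tree (hadj k) hm
    have e2 := wk_bk_dist hT.tree (hadj (k + 1)) hm₁
    have e3 := wk_bk_dist hT.tree e1.1 hm₂
    have e4 := wk_bk_dist hT.tree (hadj (k + 1)) ((hm₁.trans hm).trans hm₂)
    change T.dist (x (k + 1)).2 (y (k + 1)).1 = T.dist (x (k + 1)).2 (x k).2 +
      T.dist (x k).2 (y k).1 + T.dist (y k).1 (y (k + 1)).1
    rw [e4.2.2.1, e2.2.2.2.1, e1.2.2.1, e3.2.1]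
    ring
  -- the stabilizers
  have hst : ∀ k, stabilizer G (x k).2 ⊓ stabilizer G (y k).1 =
      stabilizer G (x k) ⊓ stabilizer G (y k) := by
    intro k
    obtain ⟨m, hm⟩ := hxy k
    exact (stab_wk hT (hadj k) hm).symm
  have hle : ∀ k, stabilizer G (x (k + 1)) ⊓ stabilizer G (y (k + 1)) ≤
      stabilizer G (x k) ⊓ stabilizer G (y k) := by
    intro k
    rw [← hst, ← hst]
    have h1 : T.dist (x (k + 1)).2 (y (k + 1)).1 = T.dist (x (k + 1)).2 (x k).2 +
      T.dist (x k).2 (y k).1 + T.dist (y k).1 (y (k + 1)).1 := hinc k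
    have t1 : T.dist (x k).2 (y (k + 1)).1 ≤ T.dist (x k).2 (y k).1 +
        T.dist (y k).1 (y (k + 1)).1 := hT.tree.connected.dist_triangle
    have t2 : T.dist (x (k + 1)).2 (y (k + 1)).1 ≤ T.dist (x (k + 1)).2 (x k).2 +
        T.dist (x k).2 (y (k + 1)).1 := hT.tree.connected.dist_triangle
    have t3 : T.dist (x (k + 1)).2 (y k).1 ≤ T.dist (x (k + 1)).2 (x k).2 +
        T.dist (x k).2 (y k).1 := hT.tree.connected.dist_triangle
    have t4 : T.dist (x (k + 1)).2 (y (k + 1)).1 ≤ T.dist (x (k + 1)).2 (y k).1 +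
        T.dist (y k).1 (y (k + 1)).1 := hT.tree.connected.dist_triangle
    refine le_inf ?_ ?_
    · exact stab_between hT (by omega)
    · exact stab_between hT (by omega)
  have hle' : ∀ k j, stabilizer G (x (k + j)) ⊓ stabilizer G (y (k + j)) ≤
      stabilizer G (x k) ⊓ stabilizer G (y k) := by
    intro k j
    induction j with
    | zero => exact le_refl _
    | succ j ih => exact (hle (k + j)).trans ih
  obtain ⟨k, hk, hk2⟩ := hn (fun k => (x k).2) (fun k => (y k).1) hinc (by simp only [hx0])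
    (by simp only [hy0]) (fun k hk => by
      rw [hst]
      intro hR
      apply hRgn
      obtain ⟨j, rfl⟩ := Nat.exists_eq_add_of_le hk
      exact hRg.mono _ _ (hle' k j) hR)
  apply hne k hk
  rw [hst, hst] at hk2
  exact hk2.symm

end Pool.Agent.Lib.MP_16fe43_al
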