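import Pool.Agent.Lib.MP_16fe43_al.TreeK1
import Pool.Agent.Lib.MP_16fe43_al.StFree

/-!
# Idempotents which are block diagonal over group rings of subgroups
-/

set_option autoImplicit false

universe u v w

namespace Pool.Agent.Lib.MP_16fe43_al

open MulAction (stabilizer)
open Matrix (fromBlocks)

variable {G : Type u} [Group G]

theorem reindex_mul' {R : Type*} [Ring R] {I J : Type*} [Fintype I] [Fintype J] (q : I ≃ J)
    (A B : Matrix I I R) :
    Matrix.reindex q q A * Matrix.reindex q q B = Matrix.reindex q q (A * B) := by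
  rw [Matrix.reindex_apply, Matrix.reindex_apply, Matrix.reindex_apply]
  exact Matrix.submatrix_mul_equiv A B q.symm q.symm q.symm

theorem reindex_one' {R : Type*} [Ring R] {I J : Type*} [DecidableEq I] [DecidableEq J]
    (q : I ≃ J) : Matrix.reindex q q (1 : Matrix I I R) = 1 := by
  rw [Matrix.reindex_apply]
  exact Matrix.submatrix_one_equiv q.symm

/-- one block: over a ring with stably free projectives -/
theorem diag_idem_one {R : Type u} [Ring R] (hR : StFree R) {I : Type v} [Fintype I]
    [DecidableEq I] (π : Matrix I I R) (hπ : π * π = π) :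
    ∃ (S : Type) (_ : Fintype S) (_ : DecidableEq S) (ε : S → Bool) (D : I ⊕ S → Bool)
      (B C : Matrix (I ⊕ S) (I ⊕ S) R), B * C = 1 ∧ C * B = 1 ∧
      B * fromBlocks π 0 0 (Matrix.diagonal fun s => if ε s then 1 else 0) * C =
        Matrix.diagonal fun k => if D k then 1 else 0 := by
  obtain ⟨b, a, h1⟩ := hR (Fin (Fintype.card I))
    (Matrix.reindex (Fintype.equivFin I) (Fintype.equivFin I) π)
    (by rw [reindex_mul', hπ])
  have h2 : MvN (fromBlocks π 0 0 (1 : Matrix (Fin b) (Fin b) R)) (1 : Matrix (Fin a) (Fin a) R) :=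
    MvN.trans (by simp [Matrix.fromBlocks_multiply, hπ]) (one_mul _)
      (MvN.dsum (MvN.reindex (Fintype.equivFin I) hπ) (MvN.refl (one_mul _))) h1
  obtain ⟨x, y, hxy, hyx⟩ := h2
  have he : (x * y) * (x * y) = x * y := by
    rw [hxy]; simp [Matrix.fromBlocks_multiply, hπ]
  have hex : (x * y) * x = x := by rw [Matrix.mul_assoc, hyx, Matrix.mul_one]
  have hye : y * (x * y) = y := by rw [← Matrix.mul_assoc, hyx, Matrix.one_mul]
  set U : Matrix ((I ⊕ Fin b) ⊕ Fin a) ((I ⊕ Fin b) ⊕ Fin a) R :=
    fromBlocks (1 - x * y) x y 0 with hU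
  have hUU : U * U = 1 := by
    rw [hU, Matrix.fromBlocks_multiply]
    have e1 : (1 - x * y) * (1 - x * y) + x * y = 1 := by
      rw [mul_sub, mul_one, sub_mul, one_mul, he]; abel
    have e2 : (1 - x * y) * x + x * (0 : Matrix (Fin a) (Fin a) R) = 0 := by
      rw [Matrix.sub_mul, Matrix.one_mul, hex, Matrix.mul_zero]; abel
    have e3 : y * (1 - x * y) + (0 : Matrix (Fin a) (Fin a) R) * y = 0 := by
      rw [Matrix.mul_sub, Matrix.mul_one, hye, Matrix.zero_mul]; abel
    rw [e1, e2, e3, hyx, Matrix.mul_zero, add_zero, Matrix.fromBlocks_one]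
  have hUeU : U * fromBlocks (x * y) 0 0 0 * U = fromBlocks 0 0 0 1 := by
    rw [hU, Matrix.fromBlocks_multiply, Matrix.fromBlocks_multiply]
    have e1 : (1 - x * y) * (x * y) = 0 := by rw [sub_mul, one_mul, he, sub_self]
    have e3 : y * (1 - x * y) = 0 := by rw [Matrix.mul_sub, Matrix.mul_one, hye, sub_self]
    simp only [e1, hye, e3, hyx, Matrix.mul_zero, Matrix.zero_mul, add_zero]
  refine ⟨Fin b ⊕ Fin a, inferInstance, inferInstance, Sum.elim (fun _ => true) (fun _ => false),
    Sum.elim (fun _ => false) (Sum.elim (fun _ => false) (fun _ => true)),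
    Matrix.reindex (Equiv.sumAssoc I (Fin b) (Fin a)) (Equiv.sumAssoc I (Fin b) (Fin a)) U,
    Matrix.reindex (Equiv.sumAssoc I (Fin b) (Fin a)) (Equiv.sumAssoc I (Fin b) (Fin a)) U,
    ?_, ?_, ?_⟩
  · rw [reindex_mul', hUU, reindex_one']
  · rw [reindex_mul', hUU, reindex_one']
  · have e1 : (fromBlocks π 0 0 (Matrix.diagonal fun s : Fin b ⊕ Fin a =>
        if Sum.elim (fun _ => true) (fun _ => false) s = true then 1 else 0) :
        Matrix (I ⊕ (Fin b ⊕ Fin a)) (I ⊕ (Fin b ⊕ Fin a)) R) =
        Matrix.reindex (Equiv.sumAssoc I (Fin b) (Fin a)) (Equiv.sumAssoc I (Fin b) (Fin a))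
          (fromBlocks (x * y) 0 0 0) := by
      rw [hxy]
      ext i j
      rcases i with i | i | i <;> rcases j with j | j | j <;>
        simp [Matrix.diagonal_apply, Matrix.one_apply]
    rw [e1, reindex_mul', reindex_mul', hUeU]
    ext i j
    rcases i with i | i | i <;> rcases j with j | j | j <;>
      simp [Matrix.diagonal_apply, Matrix.one_apply]

theorem Blk.reindex {I J A : Type*} (e : I ≃ J) {f : I → A} {L : A → Subgroup G}
    {B : Matrix I I (MonoidAlgebra ℤ G)} (hB : Blk f L B) :
    Blk (f ∘ e.symm) L (Matrix.reindex e e B) := by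
  intro i j h hh
  exact hB (e.symm i) (e.symm j) h hh

theorem Blk.dsum {I J A : Type*} {f : I → A} {f' : J → A} {L : A → Subgroup G}
    {B : Matrix I I (MonoidAlgebra ℤ G)} {B' : Matrix J J (MonoidAlgebra ℤ G)}
    (hB : Blk f L B) (hB' : Blk f' L B') : Blk (Sum.elim f f') L (fromBlocks B 0 0 B') := by
  rintro (i | i) (j | j) h hh
  · exact hB i j h hh
  · exact absurd rfl hh
  · exact absurd rfl hh
  · exact hB' i j h hh

theorem mem_of_map_coeff {I J : Type*} (L : Subgroup G) (B : Matrix I J (MonoidAlgebra ℤ L))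
    (i : I) (j : J) (h : G)
    (hh : ((B.map (MonoidAlgebra.mapDomainRingHom ℤ L.subtype)) i j).coeff h ≠ 0) : h ∈ L := by
  classical
  have h1 : (B.map (MonoidAlgebra.mapDomainRingHom ℤ L.subtype)) i j =
      MonoidAlgebra.ofCoeff (Finsupp.mapDomain L.subtype (B i j).coeff) := rfl
  rw [h1] at hh
  have h2 : h ∈ (Finsupp.mapDomain L.subtype (B i j).coeff).support :=
    Finsupp.mem_support_iff.2 hh
  obtain ⟨x, _, rfl⟩ := Finset.mem_image.1 (Finsupp.mapDomain_support h2)
  exact x.2

/-- the conclusion of the theorem -/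
def DiagGood {I : Type u} {A : Type w} [Fintype I] [DecidableEq I] (f : I → A)
    (L : A → Subgroup G) (π : Matrix I I (MonoidAlgebra ℤ G)) : Prop :=
  ∃ (S : Type) (_ : Fintype S) (_ : DecidableEq S) (φ : S → I) (ε : S → Bool)
      (D : I ⊕ S → Bool) (B C : Matrix (I ⊕ S) (I ⊕ S) (MonoidAlgebra ℤ G)),
      B * C = 1 ∧ C * B = 1 ∧ Blk (Sum.elim f (f ∘ φ)) L B ∧ Blk (Sum.elim f (f ∘ φ)) L C ∧
      B * fromBlocks π 0 0 (Matrix.diagonal fun s => if ε s then 1 else 0) * C =
        Matrix.diagonal fun k => if D k then 1 else 0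

theorem diagGood_const {I : Type u} {A : Type w} [Fintype I] [DecidableEq I] (f : I → A)
    (L : A → Subgroup G) (i0 : I) (hf : ∀ i, f i = f i0)
    (hL : Subsingleton (BHS16.K0Red (L (f i0))))
    (π : Matrix I I (MonoidAlgebra ℤ G)) (hπ : π * π = π) (hloc : Blk f L π) :
    DiagGood f L π := by
  obtain ⟨π0, rfl⟩ := exists_lift (L (f i0)) π (fun i j h hh => by
    have h1 := (hloc i j h hh).2
    rwa [hf i] at h1)
  have hinj := map_sub_injective (L (f i0))
  have hπ0 : π0 * π0 = π0 := by
    have h1 : (π0 * π0).map (MonoidAlgebra.mapDomainRingHom ℤ (L (f i0)).subtype) =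
        π0.map (MonoidAlgebra.mapDomainRingHom ℤ (L (f i0)).subtype) := by
      rw [Matrix.map_mul, hπ]
    exact Matrix.map_injective hinj h1
  obtain ⟨S, _, _, ε, D, B, C, hBC, hCB, hD⟩ := diag_idem_one (stFree_of_K0Red hL) π0 hπ0
  refine ⟨S, inferInstance, inferInstance, fun _ => i0, ε, D,
    B.map (MonoidAlgebra.mapDomainRingHom ℤ (L (f i0)).subtype),
    C.map (MonoidAlgebra.mapDomainRingHom ℤ (L (f i0)).subtype), ?_, ?_, ?_, ?_, ?_⟩
  · rw [← Matrix.map_mul, hBC, Tw.map_one_matrix]
  · rw [← Matrix.map_mul, hCB, Tw.map_one_matrix]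
  · intro i j h hh
    have h0 : ∀ k : I ⊕ S, Sum.elim f (f ∘ fun _ => i0) k = f i0 := by
      rintro (k | k)
      · exact hf k
      · rfl
    rw [h0 i, h0 j]
    exact ⟨rfl, mem_of_map_coeff _ B i j h hh⟩
  · intro i j h hh
    have h0 : ∀ k : I ⊕ S, Sum.elim f (f ∘ fun _ => i0) k = f i0 := by
      rintro (k | k)
      · exact hf k
      · rfl
    rw [h0 i, h0 j]
    exact ⟨rfl, mem_of_map_coeff _ C i j h hh⟩
  · have h1 := congrArg (fun M => M.map (MonoidAlgebra.mapDomainRingHom ℤ (L (f i0)).subtype)) hD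
    simp only [Matrix.map_mul] at h1
    have h2 : ∀ {K : Type u} [DecidableEq K] (d : K → Bool),
        (Matrix.diagonal fun k => if d k then (1 : MonoidAlgebra ℤ (L (f i0))) else 0).map
          (MonoidAlgebra.mapDomainRingHom ℤ (L (f i0)).subtype) =
        Matrix.diagonal fun k => if d k then (1 : MonoidAlgebra ℤ G) else 0 := by
      intro K _ d
      rw [Matrix.diagonal_map (map_zero _)]
      congr 1
      funext k
      show MonoidAlgebra.mapDomainRingHom ℤ (L (f i0)).subtype (if d k then 1 else 0) = _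
      split_ifs
      · exact map_one _
      · exact map_zero _
    have h3 : (fromBlocks π0 0 0 (Matrix.diagonal fun s => if ε s then 1 else 0)).map
          (MonoidAlgebra.mapDomainRingHom ℤ (L (f i0)).subtype) =
        fromBlocks (π0.map (MonoidAlgebra.mapDomainRingHom ℤ (L (f i0)).subtype)) 0 0
          (Matrix.diagonal fun s => if ε s then 1 else 0) := by
      ext1 i j
      rcases i with i | i <;> rcases j with j | j
      · rfl
      · exact map_zero (MonoidAlgebra.mapDomainRingHom ℤ (L (f i0)).subtype)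
      · exact map_zero (MonoidAlgebra.mapDomainRingHom ℤ (L (f i0)).subtype)
      · show MonoidAlgebra.mapDomainRingHom ℤ (L (f i0)).subtype
          ((Matrix.diagonal fun s => if ε s then 1 else 0) i j) =
          (Matrix.diagonal fun s => if ε s then 1 else 0) i j
        rw [Matrix.diagonal_apply, Matrix.diagonal_apply]
        split_ifs
        · exact map_one _
        · exact map_zero _
        · exact map_zero _
    rw [h2, h3] at h1
    exact h1

theorem diagGood_empty {I : Type u} {A : Type w} [Fintype I] [DecidableEq I] [IsEmpty I]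
    (f : I → A) (L : A → Subgroup G) (π : Matrix I I (MonoidAlgebra ℤ G)) :
    DiagGood f L π :=
  ⟨Fin 0, inferInstance, inferInstance, fun s => s.elim0, fun _ => false, fun _ => false, 1, 1,
    one_mul _, one_mul _, fun i => by rcases i with i | i <;> exact isEmptyElim i,
    fun i => by rcases i with i | i <;> exact isEmptyElim i, Subsingleton.elim _ _⟩

theorem diagGood_dsum {I J : Type u} {A : Type w} [Fintype I] [DecidableEq I] [Fintype J]
    [DecidableEq J] {f : I → A} {f' : J → A}
    {L : A → Subgroup G} {π : Matrix I I (MonoidAlgebra ℤ G)}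
    {π' : Matrix J J (MonoidAlgebra ℤ G)} (h : DiagGood f L π) (h' : DiagGood f' L π') :
    DiagGood (Sum.elim f f') L (fromBlocks π 0 0 π') := by
  obtain ⟨S, _, _, φ, ε, D, B, C, hBC, hCB, hB, hC, hD⟩ := h
  obtain ⟨S', _, _, φ', ε', D', B', C', hBC', hCB', hB', hC', hD'⟩ := h'
  let q : (I ⊕ S) ⊕ (J ⊕ S') ≃ (I ⊕ J) ⊕ (S ⊕ S') := Equiv.sumSumSumComm I S J S'
  have hf : Sum.elim (Sum.elim f (f ∘ φ)) (Sum.elim f' (f' ∘ φ')) ∘ q.symm =
      Sum.elim (Sum.elim f f') (Sum.elim f f' ∘ Sum.elim (Sum.inl ∘ φ) (Sum.inr ∘ φ')) := by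
    funext k
    rcases k with (k | k) | (k | k) <;> rfl
  refine ⟨S ⊕ S', inferInstance, inferInstance, Sum.elim (Sum.inl ∘ φ) (Sum.inr ∘ φ'),
    Sum.elim ε ε', Sum.elim D D' ∘ q.symm, Matrix.reindex q q (fromBlocks B 0 0 B'),
    Matrix.reindex q q (fromBlocks C 0 0 C'), ?_, ?_, ?_, ?_, ?_⟩
  · rw [reindex_mul', Matrix.fromBlocks_multiply]
    simp only [Matrix.mul_zero, Matrix.zero_mul, add_zero, zero_add, hBC, hBC',
      Matrix.fromBlocks_one, reindex_one']
  · rw [reindex_mul', Matrix.fromBlocks_multiply]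
    simp only [Matrix.mul_zero, Matrix.zero_mul, add_zero, zero_add, hCB, hCB',
      Matrix.fromBlocks_one, reindex_one']
  · rw [← hf]
    exact (hB.dsum hB').reindex q
  · rw [← hf]
    exact (hC.dsum hC').reindex q
  · have e1 : (fromBlocks (fromBlocks π 0 0 π') 0 0 (Matrix.diagonal fun s : S ⊕ S' =>
        if Sum.elim ε ε' s = true then 1 else 0) :
        Matrix ((I ⊕ J) ⊕ (S ⊕ S')) ((I ⊕ J) ⊕ (S ⊕ S')) (MonoidAlgebra ℤ G)) =
        Matrix.reindex q q (fromBlocks
          (fromBlocks π 0 0 (Matrix.diagonal fun s => if ε s then 1 else 0)) 0 0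
          (fromBlocks π' 0 0 (Matrix.diagonal fun s => if ε' s then 1 else 0))) := by
      have e0 : (Matrix.diagonal fun s : S ⊕ S' => if Sum.elim ε ε' s = true then
          (1 : MonoidAlgebra ℤ G) else 0) = fromBlocks
          (Matrix.diagonal fun s => if ε s then 1 else 0) 0 0
          (Matrix.diagonal fun s => if ε' s then 1 else 0) := by
        rw [Matrix.fromBlocks_diagonal]
        congr 1
        funext s
        rcases s with s | s <;> rfl
      rw [e0]
      ext1 i j
      rcases i with (i | i) | (i | i) <;> rcases j with (j | j) | (j | j) <;> rfl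
    have e2 : (Matrix.diagonal fun k => if (Sum.elim D D' ∘ q.symm) k = true then
        (1 : MonoidAlgebra ℤ G) else 0) = Matrix.reindex q q (fromBlocks
          (Matrix.diagonal fun k => if D k then 1 else 0) 0 0
          (Matrix.diagonal fun k => if D' k then 1 else 0)) := by
      ext1 i j
      show _ = fromBlocks (Matrix.diagonal fun k => if D k = true then (1 : MonoidAlgebra ℤ G)
        else 0) 0 0 (Matrix.diagonal fun k => if D' k = true then 1 else 0) (q.symm i) (q.symm j)
      rw [Matrix.fromBlocks_diagonal, Matrix.diagonal_apply, Matrix.diagonal_apply]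
      by_cases hij : i = j
      · subst hij
        rw [if_pos rfl, if_pos rfl]
        show (if Sum.elim D D' (q.symm i) = true then (1 : MonoidAlgebra ℤ G) else 0) = _
        rcases q.symm i with k | k <;> rfl
      · rw [if_neg hij, if_neg (fun h => hij (q.symm.injective h))]
    rw [e1, e2, reindex_mul', reindex_mul', Matrix.fromBlocks_multiply,
      Matrix.fromBlocks_multiply]
    simp only [Matrix.mul_zero, Matrix.zero_mul, add_zero, zero_add, hD, hD']

theorem diagGood_reindex {I J : Type u} {A : Type w} [Fintype I] [DecidableEq I] [Fintype J]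
    [DecidableEq J] (q : I ≃ J) {f : J → A} {L : A → Subgroup G}
    {π : Matrix J J (MonoidAlgebra ℤ G)}
    (h : DiagGood (f ∘ q) L (Matrix.reindex q.symm q.symm π)) : DiagGood f L π := by
  obtain ⟨S, _, _, φ, ε, D, B, C, hBC, hCB, hB, hC, hD⟩ := h
  let p : I ⊕ S ≃ J ⊕ S := Equiv.sumCongr q (Equiv.refl S)
  have hf : Sum.elim (f ∘ q) ((f ∘ q) ∘ φ) ∘ p.symm = Sum.elim f (f ∘ (q ∘ φ)) := by
    funext k
    rcases k with k | k
    · show f (q (q.symm k)) = f k
      rw [Equiv.apply_symm_apply]
    · rfl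
  refine ⟨S, inferInstance, inferInstance, q ∘ φ, ε, D ∘ p.symm, Matrix.reindex p p B,
    Matrix.reindex p p C, ?_, ?_, ?_, ?_, ?_⟩
  · rw [reindex_mul', hBC, reindex_one']
  · rw [reindex_mul', hCB, reindex_one']
  · rw [← hf]
    exact hB.reindex p
  · rw [← hf]
    exact hC.reindex p
  · have e1 : fromBlocks π 0 0 (Matrix.diagonal fun s => if ε s then 1 else 0) =
        Matrix.reindex p p (fromBlocks (Matrix.reindex q.symm q.symm π) 0 0
          (Matrix.diagonal fun s => if ε s then 1 else 0)) := by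
      ext1 i j
      rcases i with i | i <;> rcases j with j | j
      · show π i j = π (q.symm.symm (q.symm i)) (q.symm.symm (q.symm j))
        rw [Equiv.symm_symm, Equiv.apply_symm_apply, Equiv.apply_symm_apply]
      · rfl
      · rfl
      · rfl
    have e2 : (Matrix.diagonal fun k => if (D ∘ p.symm) k = true then
        (1 : MonoidAlgebra ℤ G) else 0) = Matrix.reindex p p
          (Matrix.diagonal fun k => if D k then 1 else 0) := by
      ext1 i j
      show _ = (Matrix.diagonal fun k => if D k = true then (1 : MonoidAlgebra ℤ G)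
        else 0) (p.symm i) (p.symm j)
      rw [Matrix.diagonal_apply, Matrix.diagonal_apply]
      by_cases hij : i = j
      · subst hij
        rw [if_pos rfl, if_pos rfl]
        rfl
      · rw [if_neg hij, if_neg (fun h => hij (p.symm.injective h))]
    rw [e1, e2, reindex_mul', reindex_mul', hD]

theorem diag_idem {I : Type u} {A : Type w} [Fintype I] [DecidableEq I] (f : I → A)
    (L : A → Subgroup G) (hL : ∀ i, Subsingleton (BHS16.K0Red (L (f i))))
    (π : Matrix I I (MonoidAlgebra ℤ G)) (hπ : π * π = π) (hloc : Blk f L π) :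
    ∃ (S : Type) (_ : Fintype S) (_ : DecidableEq S) (φ : S → I) (ε : S → Bool)
      (D : I ⊕ S → Bool) (B C : Matrix (I ⊕ S) (I ⊕ S) (MonoidAlgebra ℤ G)),
      B * C = 1 ∧ C * B = 1 ∧ Blk (Sum.elim f (f ∘ φ)) L B ∧ Blk (Sum.elim f (f ∘ φ)) L C ∧
      B * fromBlocks π 0 0 (Matrix.diagonal fun s => if ε s then 1 else 0) * C =
        Matrix.diagonal fun k => if D k then 1 else 0 := by
  show DiagGood f L π
  obtain ⟨n, hn⟩ : ∃ n, Fintype.card I = n := ⟨_, rfl⟩
  induction n using Nat.strong_induction_on generalizing I with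
  | _ n ih =>
    rcases isEmpty_or_nonempty I with hI | ⟨⟨i0⟩⟩
    · exact diagGood_empty f L π
    · classical
      let P : I → Prop := fun i => f i = f i0
      let q : {i // P i} ⊕ {i // ¬ P i} ≃ I := Equiv.sumCompl P
      refine diagGood_reindex q ?_
      have hq1 : ∀ i : {i // P i}, q (Sum.inl i) = i.1 := fun i => rfl
      have hq2 : ∀ i : {i // ¬ P i}, q (Sum.inr i) = i.1 := fun i => rfl
      have hblk : Matrix.reindex q.symm q.symm π =
          fromBlocks (π.submatrix Subtype.val Subtype.val) 0 0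
            (π.submatrix Subtype.val Subtype.val) := by
        refine matrix_ext fun i j h => ?_
        rcases i with i | i <;> rcases j with j | j
        · rfl
        · show (π i.1 j.1).coeff h = 0
          by_contra hh
          exact j.2 ((hloc _ _ _ hh).1.symm.trans i.2)
        · show (π i.1 j.1).coeff h = 0
          by_contra hh
          exact i.2 ((hloc _ _ _ hh).1.trans j.2)
        · rfl
      have hidem : Matrix.reindex q.symm q.symm π * Matrix.reindex q.symm q.symm π =
          Matrix.reindex q.symm q.symm π := by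
        rw [reindex_mul', hπ]
      rw [hblk, Matrix.fromBlocks_multiply] at hidem
      simp only [Matrix.mul_zero, Matrix.zero_mul, add_zero, zero_add] at hidem
      obtain ⟨h1, -, -, h2⟩ := Matrix.fromBlocks_inj.1 hidem
      have hfq : f ∘ q = Sum.elim (f ∘ Subtype.val) (f ∘ Subtype.val) := by
        funext k
        rcases k with k | k <;> rfl
      rw [hblk, hfq]
      refine diagGood_dsum ?_ ?_
      · exact diagGood_const (I := {i // P i}) (f ∘ Subtype.val) L ⟨i0, rfl⟩ (fun i => i.2)
          (hL i0) _ h1 (fun i j h hh => hloc i.1 j.1 h hh)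
      · refine ih (Fintype.card {i // ¬ P i}) ?_ (I := {i // ¬ P i}) (f ∘ Subtype.val)
          (fun i => hL i.1) _ h2 (fun i j h hh => hloc i.1 j.1 h hh) rfl
        rw [← hn]
        exact Fintype.card_subtype_lt (x := i0) (fun h => h rfl)

end Pool.Agent.Lib.MP_16fe43_al
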