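import Pool.Agent.Lib.MP_16fe43_al.TreeG1

/-!
# The first step of the tail vectors
-/

set_option autoImplicit false

universe u v w

namespace Pool.Agent.Lib.MP_16fe43_al

open MulAction (stabilizer)

variable {V : Type w} {T : SimpleGraph V} {G : Type u} [Group G] [MulAction G V]
  {I : Type u} [Fintype I] [DecidableEq I]

/-- the tail vectors -/
noncomputable def Kt (F H : Matrix I I (MonoidAlgebra ℤ G)) (d : I → V × V) (v : I → V) :
    Matrix I I (MonoidAlgebra ℤ G) := res (fun d u => u = d.1) d v F * H

/-- their part on the edges at the tail -/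
noncomputable def Ta (F H : Matrix I I (MonoidAlgebra ℤ G)) (d : I → V × V) (v : I → V) :
    Matrix I I (MonoidAlgebra ℤ G) :=
  res (fun d d' => d'.1 = d.1 ∨ d'.2 = d.1) d d (Kt F H d v)

variable {F H : Matrix I I (MonoidAlgebra ℤ G)} {d : I → V × V} {v : I → V}

/-- the row `i` of a matrix, as a matrix -/
def rowM {J : Type*} {K : Type*} {R : Type*} (M : Matrix J K R) (i : J) : Matrix Unit K R :=
  fun _ k => M i k

theorem rowM_mul {J K L : Type*} [Fintype K] (M : Matrix J K (MonoidAlgebra ℤ G))
    (N : Matrix K L (MonoidAlgebra ℤ G)) (i : J) : rowM (M * N) i = rowM M i * N := rfl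

theorem rowM_res {X Y J K : Type*} [MulAction G X] [MulAction G Y] (c : X → Y → Prop)
    (x : J → X) (y : K → Y) (M : Matrix J K (MonoidAlgebra ℤ G)) (i : J) :
    rowM (res c x y M) i = res c (fun _ => x i) y (rowM M i) := rfl

theorem Moves.rowM {X Y J K : Type*} [MulAction G X] [MulAction G Y] {c : X → Y → Prop}
    {x : J → X} {y : K → Y} {M : Matrix J K (MonoidAlgebra ℤ G)} (h : Moves c x y M) (i : J) :
    Moves (fun _ t => c (x i) t) (fun _ : Unit => x i) y (rowM M i) :=
  fun _ j g hg => h i j g hg

/-- the row `i` of the tail vectors, beyond one neighbour `w` of the tail: no dart leaves the tail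
towards `w`, and the far part is minus the near part times the tail vectors -/
theorem tail_row (hT : TAct G T) (h : SplitForm T F H d v) (i : I) (b : V × V)
    (hb : Bk T (d i) b) :
    (∀ (j : I) (g : G), g • d j = b.swap → (Kt F H d v i j).coeff g = 0) ∧
    ∀ (j : I) (g : G), TS T b (g • d j) → (Kt F H d v i j).coeff g =
      - ((res (fun _ d' => d' = b) d d (Kt F H d v) * Kt F H d v) i j).coeff g := by
  have hT1 := hT.tree
  obtain ⟨hadj, hbadj, hb2, hb1⟩ := hb
  set k : Matrix Unit I (MonoidAlgebra ℤ G) := rowM (Kt F H d v) i with hk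
  -- the four parts
  set x : Matrix Unit I (MonoidAlgebra ℤ G) := res (fun _ z => TS T b z) (fun _ => d i) d k with hx
  set y : Matrix Unit I (MonoidAlgebra ℤ G) := res (fun _ z => HS T b z) (fun _ => d i) d k with hy
  set ei : Matrix Unit I (MonoidAlgebra ℤ G) := res (fun _ z => z = b) (fun _ => d i) d k with hei
  set eo : Matrix Unit I (MonoidAlgebra ℤ G) := res (fun _ z => z = b.swap) (fun _ => d i) d k
    with heo
  have hkm : Moves (fun _ z => TS T (d i) z) (fun _ : Unit => d i) d k := h.tail.rowM i
  have hsd1 : Sd T b b.1 := by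
    show T.dist b.1 b.1 < T.dist b.1 b.2
    rw [SimpleGraph.dist_self, SimpleGraph.dist_eq_one_iff_adj.2 hbadj]
    exact Nat.one_pos
  have hsd2 : ¬ Sd T b b.2 := by
    show ¬ T.dist b.2 b.1 < T.dist b.2 b.2
    rw [SimpleGraph.dist_self]
    exact Nat.not_lt_zero _
  have hbne : b ≠ b.swap := by
    intro h1
    have h2 : b.1 = b.2 := congrArg Prod.fst h1
    exact hsd2 (h2 ▸ hsd1)
  have hdec : k = x + y + ei + eo := by
    refine matrix_ext fun i' j g => ?_
    rw [Matrix.add_apply, Matrix.add_apply, Matrix.add_apply, MonoidAlgebra.coeff_add,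
      MonoidAlgebra.coeff_add, MonoidAlgebra.coeff_add, Finsupp.add_apply, Finsupp.add_apply,
      Finsupp.add_apply]
    by_cases h0 : (k i' j).coeff g = 0
    · rw [hx, hy, hei, heo, res_coeff, res_coeff, res_coeff, res_coeff, h0]
      simp
    have h1 : TS T (d i) (g • d j) := hkm i' j g h0
    have h2 := ts_or hT1 hbadj h1.2.1
    by_cases hA : TS T b (g • d j)
    · have hB : ¬ HS T b (g • d j) := fun hB => hB.2.2.1 hA.2.2.1
      have hC : ¬ g • d j = b := fun hC => ts_self b (hC ▸ hA)
      have hD : ¬ g • d j = b.swap := fun hD => ts_self_swap b (hD ▸ hA)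
      rw [hx, hy, hei, heo, res_coeff_pos k hA, res_coeff_neg k hB, res_coeff_neg k hC,
        res_coeff_neg k hD, add_zero, add_zero, add_zero]
    by_cases hB : HS T b (g • d j)
    · have hC : ¬ g • d j = b := fun hC => hB.2.2.1 (by rw [hC]; exact hsd1)
      have hD : ¬ g • d j = b.swap := fun hD => hB.2.2.2 (by rw [hD]; exact hsd1)
      rw [hx, hy, hei, heo, res_coeff_neg k hA, res_coeff_pos k hB, res_coeff_neg k hC,
        res_coeff_neg k hD, add_zero, add_zero, zero_add]
    by_cases hC : g • d j = b
    · have hD : ¬ g • d j = b.swap := fun hD => hbne (hC ▸ hD)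
      rw [hx, hy, hei, heo, res_coeff_neg k hA, res_coeff_neg k hB, res_coeff_pos k hC,
        res_coeff_neg k hD, add_zero, add_zero, zero_add]
    · have hD : g • d j = b.swap := by
        rcases h2 with h2 | h2 | h2 | h2
        · exact absurd h2 hA
        · exact absurd h2 hB
        · exact absurd h2 hC
        · exact h2
      rw [hx, hy, hei, heo, res_coeff_neg k hA, res_coeff_neg k hB, res_coeff_neg k hC,
        res_coeff_pos k hD, add_zero, add_zero, zero_add]
  -- `k F` is located at the tail
  set Ft : Matrix I I (MonoidAlgebra ℤ G) := res (fun d u => u = d.1) d v F with hFt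
  have hkF : k * F = rowM Ft i := by
    rw [hk, ← rowM_mul]
    congr 1
    show Ft * H * F = Ft
    rw [Matrix.mul_assoc, h.HF, Matrix.mul_one]
  have hinc := rInv_inc (G := G) hT
  have hfst : RInv G (fun (d : V × V) (u : V) => u = d.1) := by
    rintro g z u hu
    show g • u = (g • z).1
    rw [hu]
    rfl
  have hFH : F * H = 1 := h.FH
  have hFtH : Ft * H = Kt F H d v := rfl
  -- the part of `k F` at the vertices beyond `b`
  have e0 : res (fun _ u => Sd T b u) (fun _ => d i) v (k * F) = 0 := by
    rw [hkF]
    refine Moves.res_eq_zero (c := fun _ u => u = (d i).1) ?_ ?_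
    · exact (moves_res (fun d u => u = d.1) d v F).rowM i
    · intro _ u hu hu'
      rw [hu, ← hb2] at hu'
      exact hsd2 hu'
  have mx : Moves (fun _ z => TS T b z) (fun _ : Unit => d i) d x := moves_res _ _ _ _
  have my : Moves (fun _ z => HS T b z) (fun _ : Unit => d i) d y := moves_res _ _ _ _
  have mi : Moves (fun _ z => z = b) (fun _ : Unit => d i) d ei := moves_res _ _ _ _
  have mo : Moves (fun _ z => z = b.swap) (fun _ : Unit => d i) d eo := moves_res _ _ _ _
  have e1 : res (fun _ u => Sd T b u) (fun _ => d i) v (x * F) = x * F := by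
    refine Moves.res_eq_self ?_
    refine mx.mul hinc h.inc ?_
    rintro _ z u hz ⟨_, hu | hu⟩
    · rw [hu]; exact hz.2.2.1
    · rw [hu]; exact hz.2.2.2
  have e2 : res (fun _ u => Sd T b u) (fun _ => d i) v (y * F) = 0 := by
    refine Moves.res_eq_zero (c := fun _ u => ¬ Sd T b u) ?_ (fun _ _ h1 => h1)
    refine my.mul hinc h.inc ?_
    rintro _ z u hz ⟨_, hu | hu⟩
    · rw [hu]; exact hz.2.2.1
    · rw [hu]; exact hz.2.2.2
  have e3 : res (fun _ u => Sd T b u) (fun _ => d i) v (ei * F) = ei * Ft := by
    symm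
    refine mul_res_of mi hinc hfst h.inc ?_
    rintro _ z u hz ⟨_, hu⟩
    have hz' : z = b := hz
    subst hz'
    constructor
    · intro h1
      have h1' : u = z.1 := h1
      rw [h1']; exact hsd1
    · intro h1
      rcases hu with h2 | h2
      · exact h2
      · rw [h2] at h1
        exact absurd h1 hsd2
  have e4 : res (fun _ u => Sd T b u) (fun _ => d i) v (eo * F) = eo * F - eo * Ft := by
    have h3 : eo * Ft = res (fun _ u => ¬ Sd T b u) (fun _ => d i) v (eo * F) := by
      refine mul_res_of mo hinc hfst h.inc ?_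
      rintro _ z u hz ⟨_, hu⟩
      have hz' : z = b.swap := hz
      subst hz'
      constructor
      · intro h1
        have h1' : u = b.2 := h1
        rw [h1']; exact hsd2
      · intro h1
        rcases hu with h2 | h2
        · exact h2
        · have h2' : u = b.1 := h2
          rw [h2'] at h1
          exact absurd hsd1 h1
    rw [h3, eq_sub_iff_add_eq]
    exact res_add_res_not _ _ _ _
  have e5 : x * F + ei * Ft + (eo * F - eo * Ft) = 0 := by
    rw [← e0, hdec, Matrix.add_mul, Matrix.add_mul, Matrix.add_mul, res_add, res_add, res_add, e1,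
      e2, e3, e4, add_zero]
  have e6 : x = - (ei * Kt F H d v) - eo + eo * Kt F H d v := by
    have h1 : (x * F + ei * Ft + (eo * F - eo * Ft)) * H = 0 := by rw [e5, Matrix.zero_mul]
    rw [Matrix.add_mul, Matrix.add_mul, Matrix.sub_mul, Matrix.mul_assoc x, Matrix.mul_assoc ei,
      Matrix.mul_assoc eo, Matrix.mul_assoc eo, hFH, hFtH, Matrix.mul_one, Matrix.mul_one] at h1
    have h2 : x = (x + ei * Kt F H d v + (eo - eo * Kt F H d v)) - ei * Kt F H d v - eo
      + eo * Kt F H d v := by abel
    rw [h1] at h2
    rw [h2]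
    abel
  have hts := rInv_ts (G := G) hT
  have m1 : Moves (fun _ z => TS T b z) (fun _ : Unit => d i) d (ei * Kt F H d v) := by
    refine mi.mul hts h.tail ?_
    rintro _ z t hz ht
    have hz' : z = b := hz
    rwa [hz'] at ht
  have m2 : Moves (fun _ z => TS T b.swap z) (fun _ : Unit => d i) d (eo * Kt F H d v) := by
    refine mo.mul hts h.tail ?_
    rintro _ z t hz ht
    have hz' : z = b.swap := hz
    rwa [hz'] at ht
  have e7 : eo = 0 := by
    have h1 : res (fun _ z => z = b.swap) (fun _ : Unit => d i) d x = 0 := by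
      refine Moves.res_eq_zero mx ?_
      intro _ z hz hz'
      have hz2 : z = b.swap := hz'
      rw [hz2] at hz
      exact ts_self_swap b hz
    have h2 : res (fun _ z => z = b.swap) (fun _ : Unit => d i) d (ei * Kt F H d v) = 0 := by
      refine Moves.res_eq_zero m1 ?_
      intro _ z hz hz'
      have hz2 : z = b.swap := hz'
      rw [hz2] at hz
      exact ts_self_swap b hz
    have h3 : res (fun _ z => z = b.swap) (fun _ : Unit => d i) d (eo * Kt F H d v) = 0 := by
      refine Moves.res_eq_zero m2 ?_
      intro _ z hz hz'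
      have hz2 : z = b.swap := hz'
      rw [hz2] at hz
      exact ts_self b.swap hz
    have h4 : res (fun _ z => z = b.swap) (fun _ : Unit => d i) d eo = eo := by
      exact Moves.res_eq_self mo
    have h5 := congrArg (res (fun _ z => z = b.swap) (fun _ : Unit => d i) d) e6
    rw [res_add, res_sub, res_neg, h1, h2, h3, h4, neg_zero, zero_sub, add_zero] at h5
    rw [← neg_eq_zero, ← h5]
  constructor
  · intro j g hg
    have h1 : (eo () j).coeff g = (k () j).coeff g :=
      res_coeff_pos (c := fun _ z => z = b.swap) (x := fun _ : Unit => d i) (y := d) k hg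
    have h2 : (k () j).coeff g = (Kt F H d v i j).coeff g := rfl
    rw [← h2, ← h1, e7]
    rfl
  · intro j g hg
    have h1 : (x () j).coeff g = (k () j).coeff g :=
      res_coeff_pos (c := fun _ z => TS T b z) (x := fun _ : Unit => d i) (y := d) k hg
    have h2 : (k () j).coeff g = (Kt F H d v i j).coeff g := rfl
    rw [e7, sub_zero, Matrix.zero_mul, add_zero] at e6
    rw [← h2, ← h1, e6]
    rfl

theorem ta_moves (hT : TAct G T) (h : SplitForm T F H d v) :
    Moves (Bk T) d d (Ta F H d v) := by
  intro i j g hg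
  have h1 : TS T (d i) (g • d j) := (Moves.restr h.tail) i j g hg
  have h2 : (g • d j).1 = (d i).1 ∨ (g • d j).2 = (d i).1 :=
    moves_res (fun d d' : V × V => d'.1 = d.1 ∨ d'.2 = d.1) d d (Kt F H d v) i j g hg
  have h3 : (Ta F H d v i j).coeff g = (Kt F H d v i j).coeff g :=
    res_coeff_pos (c := fun d d' : V × V => d'.1 = d.1 ∨ d'.2 = d.1) (Kt F H d v) h2
  rcases ts_adj hT.tree h1 h2 with ⟨w, _, h4⟩ | ⟨w, h5, h4⟩
  · exact h4
  · rw [h3] at hg
    exact absurd ((tail_row hT h i (w, (d i).1) h4).1 j g h5) hg

theorem kt_eq (hT : TAct G T) (h : SplitForm T F H d v) :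
    Kt F H d v = Ta F H d v - Ta F H d v * Kt F H d v := by
  have hts := rInv_ts (G := G) hT
  have hta := ta_moves hT h
  have hm : Moves (fun a t => ∃ z, Bk T a z ∧ TS T z t) d d (Ta F H d v * Kt F H d v) :=
    hta.mul hts h.tail fun a z t h1 h2 => ⟨z, h1, h2⟩
  refine matrix_ext fun i j g => ?_
  rw [Matrix.sub_apply, MonoidAlgebra.coeff_sub, Finsupp.sub_apply]
  by_cases hA : (g • d j).1 = (d i).1 ∨ (g • d j).2 = (d i).1
  · have h1 : (Ta F H d v i j).coeff g = (Kt F H d v i j).coeff g :=
      res_coeff_pos (c := fun d d' : V × V => d'.1 = d.1 ∨ d'.2 = d.1) (Kt F H d v) hA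
    have h2 : ((Ta F H d v * Kt F H d v) i j).coeff g = 0 := by
      by_contra h3
      obtain ⟨z, hz1, hz2⟩ := hm i j g h3
      obtain ⟨_, h4, h5, _⟩ := bk_ts hT.tree hz1 hz2
      exact hA.elim h4 h5
    rw [h1, h2, sub_zero]
  · have h1 : (Ta F H d v i j).coeff g = 0 :=
      res_coeff_neg (c := fun d d' : V × V => d'.1 = d.1 ∨ d'.2 = d.1) (Kt F H d v) hA
    rw [h1, zero_sub]
    by_cases hB : ∃ z, Bk T (d i) z ∧ TS T z (g • d j)
    · obtain ⟨b, hb1, hb2⟩ := hB
      rw [(tail_row hT h i b hb1).2 j g hb2]
      congr 1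
      -- compare the rows
      have h2 : res (fun _ z => z = b) (fun _ : Unit => d i) d (rowM (Ta F H d v) i) * Kt F H d v =
          res (fun _ z => TS T b z) (fun _ : Unit => d i) d (rowM (Ta F H d v) i * Kt F H d v) := by
        refine res_mul_of (hta.rowM i) hts h.tail ?_
        intro a z t h3 h4
        constructor
        · intro h5
          have h5' : z = b := h5
          rwa [h5'] at h4
        · intro h5
          exact bk_unique hT.tree h3 hb1 h4.2.2.1 h5.2.2.1
      have h3 : res (fun _ z => z = b) (fun _ : Unit => d i) d (rowM (Ta F H d v) i) =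
          rowM (res (fun _ d' => d' = b) d d (Kt F H d v)) i := by
        refine matrix_ext fun i' j' g' => ?_
        show (res (fun _ z => z = b) (fun _ : Unit => d i) d (rowM (Ta F H d v) i) i' j').coeff g'
          = (res (fun _ d' => d' = b) d d (Kt F H d v) i j').coeff g'
        by_cases h4 : g' • d j' = b
        · have h5 : (g' • d j').1 = (d i).1 ∨ (g' • d j').2 = (d i).1 :=
            Or.inr (by rw [h4]; exact hb1.2.2.1)
          have h6 : (Ta F H d v i j').coeff g' = (Kt F H d v i j').coeff g' :=
            res_coeff_pos (c := fun d d' : V × V => d'.1 = d.1 ∨ d'.2 = d.1) (Kt F H d v) h5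
          rw [res_coeff_pos (c := fun _ z => z = b) (rowM (Ta F H d v) i) h4,
            res_coeff_pos (c := fun _ d' => d' = b) (Kt F H d v) h4]
          exact h6
        · rw [res_coeff_neg (c := fun _ z => z = b) (rowM (Ta F H d v) i) h4,
            res_coeff_neg (c := fun _ d' => d' = b) (Kt F H d v) h4]
      have h4 : (res (fun _ d' => d' = b) d d (Kt F H d v) * Kt F H d v) i j =
          (res (fun _ z => TS T b z) (fun _ : Unit => d i) d
            (rowM (Ta F H d v) i * Kt F H d v)) () j := by
        rw [← h2, h3]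
        rfl
      rw [h4, res_coeff_pos (c := fun _ z => TS T b z) (rowM (Ta F H d v) i * Kt F H d v) hb2]
      rfl
    · have h2 : ((Ta F H d v * Kt F H d v) i j).coeff g = 0 := by
        by_contra h3
        exact hB (hm i j g h3)
      rw [h2, neg_zero]
      by_contra h3
      have h4 : TS T (d i) (g • d j) := h.tail i j g h3
      push Not at hA
      exact hB (ts_far hT.tree h4 hA.1 hA.2)

end Pool.Agent.Lib.MP_16fe43_al
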