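import Pool.Agent.Lib.MP_16fe43_al.TreeDefs

/-!
# The relation between the arrows which are not pure
-/

set_option autoImplicit false

universe u v w

namespace Pool.Agent.Lib.MP_16fe43_al

open MulAction (stabilizer)

variable {G : Type u} [Group G] {X : Type w} [MulAction G X] {Rg : Subgroup G → Prop}
  {r : X → X → Prop}

/-- the stabilizers of two points contain the stabilizers of the points between -/
theorem UWP.fix (hU : UWP r) (hr : RInv G r) {m m' : ℕ} {x z y : X} (h : Wk r m x z)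
    (h' : Wk r m' z y) {g : G} (hx : g • x = x) (hy : g • y = y) : g • z = z := by
  induction m generalizing x with
  | zero =>
    have h1 : x = z := h
    rw [← h1]
    exact hx
  | succ m ih =>
    obtain ⟨t, h1, h2⟩ := h
    have h3 : Wk r (m + m') t y := h2.trans h'
    have h4 : Wk r (m + m') (g • t) y := by
      have := h3.smul hr g
      rwa [hy] at this
    have h5 : r x (g • t) := by
      have := hr g _ _ h1
      rwa [hx] at this
    exact ih h2 (hU.step _ _ _ _ _ _ h5 h1 h4 h3)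

theorem stab_prod (α : X × X) : stabilizer G α = stabilizer G α.1 ⊓ stabilizer G α.2 := by
  ext g
  rw [Subgroup.mem_inf, MulAction.mem_stabilizer_iff, MulAction.mem_stabilizer_iff,
    MulAction.mem_stabilizer_iff, Prod.ext_iff]
  rfl

theorem stab_smul (g : G) (x : X) :
    stabilizer G (g • x) = (stabilizer G x).map (MulAut.conj g).toMonoidHom :=
  MulAction.stabilizer_smul_eq_stabilizer_map_conj g x

private theorem rg_conj_iff (hRg : RgOK Rg) (g : G) (H : Subgroup G) :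
    Rg (H.map (MulAut.conj g).toMonoidHom) ↔ Rg H := by
  refine ⟨fun h => ?_, hRg.conj g H⟩
  have h1 := hRg.conj g⁻¹ _ h
  have h2 : (H.map (MulAut.conj g).toMonoidHom).map (MulAut.conj g⁻¹).toMonoidHom = H := by
    ext a
    simp only [Subgroup.mem_map]
    constructor
    · rintro ⟨b, ⟨c, hc, rfl⟩, rfl⟩
      have h3 : (MulAut.conj g⁻¹).toMonoidHom ((MulAut.conj g).toMonoidHom c) = c := by
        simp [MulAut.conj_apply, mul_assoc]
      rwa [h3]
    · intro ha
      refine ⟨_, ⟨a, ha, rfl⟩, ?_⟩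
      simp [MulAut.conj_apply, mul_assoc]
  rwa [h2] at h1

private theorem map_conj_injective (g : G) :
    Function.Injective (Subgroup.map (MulAut.conj g).toMonoidHom : Subgroup G → Subgroup G) :=
  Subgroup.map_injective (MulAut.conj g).injective

private theorem stab_inf_smul (g : G) (x y : X) :
    stabilizer G (g • x) ⊓ stabilizer G (g • y) =
      (stabilizer G x ⊓ stabilizer G y).map (MulAut.conj g).toMonoidHom := by
  rw [stab_smul, stab_smul, Subgroup.map_inf _ _ _ (MulAut.conj g).injective]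

/-- stabilizers are constant along pure walks -/
theorem stab_wk_pu {m : ℕ} {x y : X} (h : Wk (Pu Rg r) m x y) :
    stabilizer G x = stabilizer G y := by
  induction m generalizing x with
  | zero =>
    have h1 : x = y := h
    rw [h1]
  | succ m ih =>
    obtain ⟨t, h1, h2⟩ := h
    exact h1.2.1.trans (ih h2)

theorem rInv_pu (hRg : RgOK Rg) (hr : RInv G r) : RInv G (Pu Rg r) := by
  rintro g x y ⟨h1, h2, h3⟩
  refine ⟨hr g x y h1, ?_, ?_⟩
  · rw [stab_smul, stab_smul, h2]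
  · rw [stab_smul, rg_conj_iff hRg]
    exact h3

theorem rInv_np (hRg : RgOK Rg) (hr : RInv G r) : RInv G (Np Rg r) := by
  rintro g x y ⟨h1, h2⟩
  refine ⟨hr g x y h1, ?_⟩
  rintro ⟨h3, h4⟩
  rw [stab_smul, stab_smul] at h3
  rw [stab_smul, rg_conj_iff hRg] at h4
  exact h2 ⟨map_conj_injective g h3, h4⟩

theorem rInv_nextR (hRg : RgOK Rg) (hr : RInv G r) : RInv G (nextR Rg r) := by
  rintro g α β ⟨h1, h2, m, h3⟩
  exact ⟨rInv_np hRg hr g _ _ h1, rInv_np hRg hr g _ _ h2, m, h3.smul (rInv_pu hRg hr) g⟩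

private theorem Wk.of_pu {m : ℕ} {x y : X} (h : Wk (Pu Rg r) m x y) : Wk r m x y :=
  h.mono fun _ _ h1 => h1.1

/-- a walk of arrows is a walk from the end of the first to the end of the last -/
theorem wk_of_wk_next {m : ℕ} {α β : X × X} (h : Wk (nextR Rg r) m α β) :
    ∃ m', m ≤ m' ∧ Wk r m' α.2 β.2 := by
  induction m generalizing α with
  | zero =>
    have h1 : α = β := h
    rw [h1]
    exact ⟨0, le_rfl, rfl⟩
  | succ m ih =>
    obtain ⟨γ, ⟨_, h2, k, h3⟩, h4⟩ := h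
    obtain ⟨m', h5, h6⟩ := ih h4
    refine ⟨k + 1 + m', by omega, ?_⟩
    exact (Wk.snoc (Wk.of_pu h3) h2.1).trans h6

/-- a walk of arrows is a walk from the start of the first to the end of the last -/
theorem wk_of_wk_next' {m : ℕ} {α β : X × X} (hα : Np Rg r α.1 α.2)
    (h : Wk (nextR Rg r) m α β) : ∃ m', m < m' ∧ Wk r m' α.1 β.2 := by
  obtain ⟨m', h1, h2⟩ := wk_of_wk_next h
  exact ⟨m' + 1, by omega, α.2, hα.1, h2⟩

/-- a walk of arrows is a walk from the start of the first to the start of the last -/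
private theorem wk_of_wk_next'' {m : ℕ} {α β : X × X} (h : Wk (nextR Rg r) m α β) :
    ∃ m', m ≤ m' ∧ Wk r m' α.1 β.1 := by
  cases m with
  | zero =>
    have h1 : α = β := h
    rw [h1]
    exact ⟨0, le_rfl, rfl⟩
  | succ m =>
    have hα : Np Rg r α.1 α.2 := by
      obtain ⟨_, h1, _⟩ := h
      exact h1.1
    obtain ⟨γ, h1, _, _, k, h2⟩ := Wk.exists_snoc h
    obtain ⟨m', h3, h4⟩ := wk_of_wk_next' hα h1
    exact ⟨m' + k, by omega, h4.trans (Wk.of_pu h2)⟩

private theorem next_aux (hU : UWP r) {k k' n n' : ℕ} {z a a' b b' y : X}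
    (h1 : Wk (Pu Rg r) k z a) (h2 : Np Rg r a b) (h3 : Wk r n b y)
    (h1' : Wk (Pu Rg r) k' z a') (h2' : Np Rg r a' b') (h3' : Wk r n' b' y) :
    a = a' ∧ b = b' := by
  induction k generalizing z k' with
  | zero =>
    have h4 : z = a := h1
    subst h4
    cases k' with
    | zero =>
      have h5 : z = a' := h1'
      subst h5
      exact ⟨rfl, hU.step _ _ _ _ _ _ h2.1 h2'.1 h3 h3'⟩
    | succ k' =>
      exfalso
      obtain ⟨t, h5, h6⟩ := h1'
      have h7 : Wk r (k' + 1 + n') t y := (Wk.snoc (Wk.of_pu h6) h2'.1).trans h3'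
      have h8 : t = b := hU.step _ _ _ _ _ _ h5.1 h2.1 h7 h3
      rw [← h8] at h2
      exact h2.2 h5.2
  | succ k ih =>
    obtain ⟨t, h5, h6⟩ := h1
    have h7 : Wk r (k + 1 + n) t y := (Wk.snoc (Wk.of_pu h6) h2.1).trans h3
    cases k' with
    | zero =>
      exfalso
      have h4 : z = a' := h1'
      subst h4
      have h8 : t = b' := hU.step _ _ _ _ _ _ h5.1 h2'.1 h7 h3'
      rw [← h8] at h2'
      exact h2'.2 h5.2
    | succ k' =>
      obtain ⟨t', h5', h6'⟩ := h1'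
      have h7' : Wk r (k' + 1 + n') t' y := (Wk.snoc (Wk.of_pu h6') h2'.1).trans h3'
      have h8 : t = t' := hU.step _ _ _ _ _ _ h5.1 h5'.1 h7 h7'
      subst h8
      exact ih h6 h6'

private theorem next_step (hU : UWP r) (m m' : ℕ) (α γ γ' β : X × X) (h : nextR Rg r α γ)
    (h' : nextR Rg r α γ') (h1 : Wk (nextR Rg r) m γ β) (h1' : Wk (nextR Rg r) m' γ' β) :
    γ = γ' := by
  obtain ⟨_, h2, k, h3⟩ := h
  obtain ⟨_, h2', k', h3'⟩ := h'
  obtain ⟨n, _, h4⟩ := wk_of_wk_next h1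
  obtain ⟨n', _, h4'⟩ := wk_of_wk_next h1'
  obtain ⟨h5, h6⟩ := next_aux hU h3 h2 h4 h3' h2' h4'
  exact Prod.ext h5 h6

theorem uwp_next (hU : UWP r) : UWP (nextR Rg r) := by
  refine ⟨?_, next_step hU⟩
  have h0 : ∀ m (α : X × X), Wk (nextR Rg r) m α α → m = 0 := by
    intro m α h
    obtain ⟨m', h1, h2⟩ := wk_of_wk_next h
    have h3 := hU.len m' 0 _ _ h2 rfl
    omega
  intro m
  induction m with
  | zero =>
    intro m' α β h h'
    have h1 : α = β := h
    subst h1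
    exact (h0 m' α h').symm
  | succ m ih =>
    intro m' α β h h'
    cases m' with
    | zero =>
      have h1 : α = β := h'
      subst h1
      exact h0 (m + 1) α h
    | succ m' =>
      obtain ⟨γ, h1, h2⟩ := h
      obtain ⟨γ', h1', h2'⟩ := h'
      have h3 := next_step hU m m' α γ γ' β h1 h1' h2 h2'
      subst h3
      rw [ih m' γ β h2 h2']

theorem stab_next (hU : UWP r) (hr : RInv G r) {m : ℕ} {α β : X × X} (hα : Np Rg r α.1 α.2)
    (h : Wk (nextR Rg r) m α β) :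
    stabilizer G α ⊓ stabilizer G β = stabilizer G α.1 ⊓ stabilizer G β.2 := by
  refine le_antisymm ?_ ?_
  · rw [stab_prod, stab_prod]
    exact inf_le_inf inf_le_left inf_le_right
  · intro g hg
    rw [Subgroup.mem_inf, MulAction.mem_stabilizer_iff, MulAction.mem_stabilizer_iff] at hg
    obtain ⟨m', _, h1⟩ := wk_of_wk_next h
    have h2 : g • α.2 = α.2 := hU.fix hr (Wk.one_iff.2 hα.1) h1 hg.1 hg.2
    have hβ : Np Rg r β.1 β.2 := by
      cases m with
      | zero =>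
        have h3 : α = β := h
        rwa [← h3]
      | succ m =>
        obtain ⟨γ, _, h4⟩ := Wk.exists_snoc h
        exact h4.2.1
    obtain ⟨m'', _, h3⟩ := wk_of_wk_next'' h
    have h4 : g • β.1 = β.1 := hU.fix hr h3 (Wk.one_iff.2 hβ.1) hg.1 hg.2
    rw [stab_prod α, stab_prod β, Subgroup.mem_inf, Subgroup.mem_inf, Subgroup.mem_inf]
    exact ⟨⟨hg.1, h2⟩, h4, hg.2⟩

theorem linkOK_next (hU : UWP r) (hr : RInv G r) {W : AddSubgroup (K1 (MonoidAlgebra ℤ G))}
    (hL : LinkOK Rg r W) : LinkOK Rg (nextR Rg r) W := by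
  rintro α β g ⟨m, h1⟩ ⟨m1, hm1, h2⟩ ⟨m2, hm2, h3⟩ h4 h5
  have hα : Np Rg r α.1 α.2 := by
    obtain ⟨m1, rfl⟩ := Nat.exists_eq_add_of_lt hm1
    rw [Nat.zero_add] at h2
    obtain ⟨_, h6, _⟩ := h2
    exact h6.1
  have h6 := stab_next hU hr hα h1
  rw [h6] at h4 h5 ⊢
  refine hL α.1 β.2 g ?_ ?_ ?_ h4 h5
  · obtain ⟨k, _, h7⟩ := wk_of_wk_next' hα h1
    exact ⟨k, h7⟩
  · obtain ⟨k, hk, h7⟩ := wk_of_wk_next'' h2
    exact ⟨k, by omega, h7⟩
  · obtain ⟨k, hk, h7⟩ := wk_of_wk_next h3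
    exact ⟨k, by omega, h7⟩

private theorem deep_not_rg (hRg : RgOK Rg) (hU : UWP r) (hr : RInv G r) {n : ℕ} {x y : X}
    (hxy : ∃ m, Wk r m x y) (h : Deep Rg r n x y) : ¬ Rg (stabilizer G x ⊓ stabilizer G y) := by
  induction n generalizing x y with
  | zero => exact h
  | succ n ih =>
    obtain ⟨x', y', ⟨a, h1⟩, ⟨b, h2⟩, _, h3⟩ := h
    obtain ⟨m, hm⟩ := hxy
    have h4 := ih ⟨_, (h1.trans hm).trans h2⟩ h3
    refine fun h5 => h4 (hRg.mono _ _ ?_ h5)
    intro g hg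
    rw [Subgroup.mem_inf, MulAction.mem_stabilizer_iff, MulAction.mem_stabilizer_iff] at hg
    rw [Subgroup.mem_inf, MulAction.mem_stabilizer_iff, MulAction.mem_stabilizer_iff]
    exact ⟨hU.fix hr h1 (hm.trans h2) hg.1 hg.2, hU.fix hr (h1.trans hm) h2 hg.1 hg.2⟩

private theorem deep_of_next (hU : UWP r) (hr : RInv G r) {n : ℕ} {α β : X × X}
    (hα : Np Rg r α.1 α.2) (hαβ : ∃ m, Wk (nextR Rg r) m α β)
    (h : Deep Rg (nextR Rg r) n α β) : Deep Rg r n α.1 β.2 := by
  induction n generalizing α β with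
  | zero =>
    obtain ⟨m, hm⟩ := hαβ
    have h1 := stab_next hU hr hα hm
    have h2 : ¬ Rg (stabilizer G α ⊓ stabilizer G β) := h
    rw [h1] at h2
    exact h2
  | succ n ih =>
    obtain ⟨α', β', ⟨a, h1⟩, ⟨b, h2⟩, h3, h4⟩ := h
    obtain ⟨m, hm⟩ := hαβ
    have hα' : Np Rg r α'.1 α'.2 := by
      cases a with
      | zero =>
        have h5 : α' = α := h1
        rw [h5]
        exact hα
      | succ a =>
        obtain ⟨_, h5, _⟩ := h1
        exact h5.1
    have hw := (h1.trans hm).trans h2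
    have h5 := ih hα' ⟨_, hw⟩ h4
    rw [stab_next hU hr hα' hw, stab_next hU hr hα hm] at h3
    obtain ⟨a', _, h6⟩ := wk_of_wk_next'' h1
    obtain ⟨b', _, h7⟩ := wk_of_wk_next h2
    exact ⟨α'.1, β'.2, ⟨a', h6⟩, ⟨b', h7⟩, h3, h5⟩

/-- the chains of drops get shorter -/
theorem deep_next (hRg : RgOK Rg) (hU : UWP r) (hr : RInv G r) {n : ℕ} {α : X × X}
    (hα : Np Rg r α.1 α.2) (h : Deep Rg (nextR Rg r) n α α) :
    Deep Rg r (n + 1) α.1 α.1 ∨ Deep Rg r (n + 1) α.2 α.2 := by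
  have h1 := deep_of_next hU hr hα ⟨0, rfl⟩ h
  have h2 := deep_not_rg hRg hU hr ⟨1, Wk.one_iff.2 hα.1⟩ h1
  by_cases h3 : stabilizer G α.1 ⊓ stabilizer G α.2 = stabilizer G α.1
  · right
    refine ⟨α.1, α.2, ⟨1, Wk.one_iff.2 hα.1⟩, ⟨0, rfl⟩, ?_, h1⟩
    rw [inf_idem]
    intro h4
    refine hα.2 ⟨h3.symm.trans h4, ?_⟩
    rwa [h3] at h2
  · left
    refine ⟨α.1, α.2, ⟨0, rfl⟩, ⟨1, Wk.one_iff.2 hα.1⟩, ?_, h1⟩
    rw [inf_idem]
    exact h3

theorem deep_smul (hRg : RgOK Rg) (hr : RInv G r) {n : ℕ} {x y : X} (g : G)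
    (h : Deep Rg r n x y) : Deep Rg r n (g • x) (g • y) := by
  induction n generalizing x y with
  | zero =>
    show ¬ Rg _
    rw [stab_inf_smul, rg_conj_iff hRg]
    exact h
  | succ n ih =>
    obtain ⟨x', y', ⟨a, h1⟩, ⟨b, h2⟩, h3, h4⟩ := h
    refine ⟨g • x', g • y', ⟨a, h1.smul hr g⟩, ⟨b, h2.smul hr g⟩, ?_, ih h4⟩
    rw [stab_inf_smul, stab_inf_smul]
    exact fun h5 => h3 (map_conj_injective g h5)

private theorem deep_succ (hRg : RgOK Rg) (hU : UWP r) (hr : RInv G r) {n : ℕ} {x y : X}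
    (hxy : ∃ m, Wk r m x y) (h : Deep Rg r (n + 1) x y) : Deep Rg r n x y := by
  induction n generalizing x y with
  | zero => exact deep_not_rg hRg hU hr hxy h
  | succ n ih =>
    obtain ⟨x', y', ⟨a, h1⟩, ⟨b, h2⟩, h3, h4⟩ := h
    obtain ⟨m, hm⟩ := hxy
    exact ⟨x', y', ⟨a, h1⟩, ⟨b, h2⟩, h3, ih ⟨_, (h1.trans hm).trans h2⟩ h4⟩

theorem deep_mono (hRg : RgOK Rg) (hU : UWP r) (hr : RInv G r) {n m : ℕ} (hnm : n ≤ m) {x : X}
    (h : Deep Rg r m x x) : Deep Rg r n x x := by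
  induction m, hnm using Nat.le_induction with
  | base => exact h
  | succ m _ ih => exact ih (deep_succ hRg hU hr ⟨0, rfl⟩ h)

end Pool.Agent.Lib.MP_16fe43_al
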