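import Pool.Agent.Lib.MP_16fe43_al.TreeBase

/-!
# Words in the restrictions of a nilpotent matrix
-/

set_option autoImplicit false

universe u v w

namespace Pool.Agent.Lib.MP_16fe43_al

variable {G : Type u} [Group G] {X : Type w} [MulAction G X] {r : X → X → Prop}

/-- walks with arrows in the given classes -/
def CWk (r : X → X → Prop) : List (X → X → Prop) → X → X → Prop
  | [], x, y => x = y
  | c :: cs, x, y => ∃ z, r x z ∧ c x z ∧ CWk r cs z y

theorem CWk.wk {cs : List (X → X → Prop)} {x y : X} (h : CWk r cs x y) : Wk r cs.length x y := by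
  induction cs generalizing x with
  | nil => exact h
  | cons c cs ih =>
    obtain ⟨z, h1, _, h3⟩ := h
    exact ⟨z, h1, ih h3⟩

theorem rInv_cwk (hr : RInv G r) {cs : List (X → X → Prop)} (hcs : ∀ c ∈ cs, RInv G c) :
    RInv G (CWk r cs) := by
  induction cs with
  | nil =>
    intro g x y h
    have : x = y := h
    rw [this]
    rfl
  | cons c cs ih =>
    rintro g x y ⟨z, h1, h2, h3⟩
    exact ⟨g • z, hr g _ _ h1, hcs c (by simp) g _ _ h2,
      ih (fun c' hc' => hcs c' (by simp [hc'])) g _ _ h3⟩

/-- a word in the restrictions is a restriction of the power -/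
theorem prod_res_eq (hr : RInv G r) (hU : UWP r) {I : Type*} [Fintype I] [DecidableEq I]
    (x : I → X) (N : Matrix I I (MonoidAlgebra ℤ G)) (hN : Moves r x x N)
    (cs : List (X → X → Prop)) (hcs : ∀ c ∈ cs, RInv G c) :
    (cs.map (fun c => res c x x N)).prod = res (CWk r cs) x x (N ^ cs.length) := by
  induction cs with
  | nil =>
    rw [List.map_nil, List.prod_nil, List.length_nil, pow_zero]
    exact (Moves.res_eq_self (moves_one x fun a => rfl)).symm
  | cons c cs ih =>
    have hcs' : ∀ c' ∈ cs, RInv G c' := fun c' hc' => hcs c' (by simp [hc'])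
    rw [List.map_cons, List.prod_cons, ih hcs', List.length_cons, pow_succ']
    refine res_mul_res hN (rInv_wk hr cs.length) (rInv_cwk hr hcs') (hN.pow hr cs.length) ?_
    intro a b t h1 h2
    constructor
    · rintro ⟨h3, h4⟩
      exact ⟨b, h1, h3, h4⟩
    · rintro ⟨z, h3, h4, h5⟩
      have : z = b := hU.step _ _ _ _ _ _ h3 h1 h5.wk h2
      subst this
      exact ⟨h4, h5⟩

/-- all long words in the restrictions of a nilpotent matrix vanish -/
theorem prod_res_eq_zero (hr : RInv G r) (hU : UWP r) {I : Type*} [Fintype I] [DecidableEq I]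
    (x : I → X) (N : Matrix I I (MonoidAlgebra ℤ G)) (hN : Moves r x x N) {M : ℕ}
    (hM : N ^ M = 0) (cs : List (X → X → Prop)) (hcs : ∀ c ∈ cs, RInv G c)
    (hlen : M ≤ cs.length) : (cs.map (fun c => res c x x N)).prod = 0 := by
  rw [prod_res_eq hr hU x N hN cs hcs, pow_eq_zero_of_le hlen hM, res_zero]

end Pool.Agent.Lib.MP_16fe43_al
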