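import Pool.Agent.Lib.MP_16fe43_al.TreeN1
import Pool.Agent.Lib.MP_16fe43_al.TreeN2

/-!
# Splitting off the pure arrows
-/

set_option autoImplicit false

universe u v w

namespace Pool.Agent.Lib.MP_16fe43_al

open MulAction (stabilizer)

variable {G : Type u} [Group G] {X : Type w} [MulAction G X] {Rg : Subgroup G → Prop}
  {r : X → X → Prop}

/-- purely algebraic: `1 - (N₀ + A B)` with all long words in `N₀`, `A B` vanishing -/
theorem cm_split {R : Type u} [Ring R] {I K : Type*} [Fintype I] [DecidableEq I] [Fintype K]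
    [DecidableEq K] (N0 : Matrix I I R) (A : Matrix I K R) (B : Matrix K I R) (M : ℕ)
    (hw : ∀ l : List (Matrix I I R), (∀ C ∈ l, C = N0 ∨ C = A * B) → M ≤ l.length → l.prod = 0) :
    (∃ M', (B * (∑ t ∈ Finset.range M, N0 ^ t) * A) ^ M' = 0) ∧
    cm (1 - (N0 + A * B)) = cm (1 - N0) + cm (1 - B * (∑ t ∈ Finset.range M, N0 ^ t) * A) := by
  set S : Matrix I I R := ∑ t ∈ Finset.range M, N0 ^ t with hS
  have key : ∀ (k : ℕ) (l : List (Matrix I I R)), (∀ C ∈ l, C = N0 ∨ C = A * B) →
      M ≤ l.length + k → l.prod * (S * (A * B)) ^ k = 0 := by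
    intro k
    induction k with
    | zero =>
      intro l hl hM
      rw [hw l hl (by simpa using hM), zero_mul]
    | succ k ih =>
      intro l hl hM
      have hS1 : l.prod * (S * (A * B)) = ∑ t ∈ Finset.range M, l.prod * (N0 ^ t * (A * B)) := by
        rw [hS, Finset.sum_mul, Finset.mul_sum]
      rw [pow_succ', ← mul_assoc, hS1, Finset.sum_mul]
      refine Finset.sum_eq_zero fun t _ => ?_
      have h1 := ih (l ++ (List.replicate t N0 ++ [A * B])) (by
        intro C hC
        rw [List.mem_append, List.mem_append] at hC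
        rcases hC with h | h | h
        · exact hl C h
        · exact Or.inl (List.eq_of_mem_replicate h)
        · exact Or.inr (List.mem_singleton.1 h)) (by
        rw [List.length_append, List.length_append, List.length_replicate, List.length_singleton]
        omega)
      rw [List.prod_append, List.prod_append, List.prod_replicate, List.prod_singleton] at h1
      exact h1
  have hn : (S * (A * B)) ^ M = 0 := by
    have := key M [] (by simp) (by simp)
    rwa [List.prod_nil, one_mul] at this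
  have hN0 : N0 ^ M = 0 := by
    have := hw (List.replicate M N0) (fun C hC => Or.inl (List.eq_of_mem_replicate hC))
      (by rw [List.length_replicate])
    rwa [List.prod_replicate] at this
  have hinv : (1 - N0) * S = 1 := by
    rw [hS, mul_neg_geom_sum, hN0, sub_zero]
  have hpow : ∀ k : ℕ, (B * S * A) ^ (k + 1) = B * (S * (A * B)) ^ k * (S * A) := by
    intro k
    induction k with
    | zero => rw [zero_add, pow_one, pow_zero, Matrix.mul_one, Matrix.mul_assoc]
    | succ k ih =>
      rw [pow_succ, ih, pow_succ]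
      simp only [Matrix.mul_assoc]
  refine ⟨⟨M + 1, ?_⟩, ?_⟩
  · rw [hpow, hn, Matrix.mul_zero, Matrix.zero_mul]
  have h1 : 1 - (N0 + A * B) = (1 - N0) * (1 - (S * A) * B) := by
    rw [mul_sub, mul_one, Matrix.mul_assoc S A B, ← mul_assoc, hinv, one_mul]
    abel
  have hu1 : IsUnit (1 - N0) := IsNilpotent.isUnit_one_sub ⟨M, hN0⟩
  have hu2 : IsUnit (1 - (S * A) * B) :=
    IsNilpotent.isUnit_one_sub ⟨M, by rw [Matrix.mul_assoc S A B]; exact hn⟩
  rw [h1, cm_mul hu1 hu2, cm_one_sub_mul_comm (S * A) B, ← Matrix.mul_assoc]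

theorem split_nil (hRg : RgOK Rg) (hr : RInv G r) (hU : UWP r) {I : Type u} [Fintype I]
    [DecidableEq I] (x : I → X) (N : Matrix I I (MonoidAlgebra ℤ G)) (hN : Moves r x x N)
    (hnil : ∃ M, N ^ M = 0) :
    (∃ M, (res (Pu Rg r) x x N) ^ M = 0) ∧
    ∃ (K : Type u) (_ : Fintype K) (_ : DecidableEq K) (y : K → X × X)
      (N' : Matrix K K (MonoidAlgebra ℤ G)),
      (∀ k, Np Rg r (y k).1 (y k).2 ∧ (∃ i, (y k).1 = x i) ∧ ∃ (j : I) (g : G), (y k).2 = g • x j) ∧
      Moves (nextR Rg r) y y N' ∧ (∃ M, N' ^ M = 0) ∧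
      cm (1 - N) = cm (1 - res (Pu Rg r) x x N) + cm (1 - N') := by
  classical
  obtain ⟨M, hM⟩ := hnil
  have hP := rInv_pu hRg hr
  have hQ := rInv_np hRg hr
  have hword : ∀ l : List (Matrix I I (MonoidAlgebra ℤ G)),
      (∀ C ∈ l, C = res (Pu Rg r) x x N ∨ C = res (Np Rg r) x x N) → M ≤ l.length →
      l.prod = 0 := by
    intro l hl hlen
    obtain ⟨cs, hcs, hcl⟩ : ∃ cs : List (X → X → Prop), (∀ c ∈ cs, RInv G c) ∧
        cs.map (fun c => res c x x N) = l := by
      clear hlen
      induction l with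
      | nil => exact ⟨[], by simp, rfl⟩
      | cons C l ih =>
        obtain ⟨cs, h1, h2⟩ := ih fun C' hC' => hl C' (List.mem_cons_of_mem _ hC')
        rcases hl C List.mem_cons_self with h | h
        · refine ⟨Pu Rg r :: cs, ?_, ?_⟩
          · intro c hc
            rcases List.mem_cons.1 hc with h3 | h3
            · rw [h3]; exact hP
            · exact h1 c h3
          · rw [List.map_cons, h2, h]
        · refine ⟨Np Rg r :: cs, ?_, ?_⟩
          · intro c hc
            rcases List.mem_cons.1 hc with h3 | h3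
            · rw [h3]; exact hQ
            · exact h1 c h3
          · rw [List.map_cons, h2, h]
    rw [← hcl]
    refine prod_res_eq_zero hr hU x N hN hM cs hcs ?_
    rw [← hcl, List.length_map] at hlen
    exact hlen
  have hPn : (res (Pu Rg r) x x N) ^ M = 0 := by
    have := hword (List.replicate M (res (Pu Rg r) x x N))
      (fun C hC => Or.inl (List.eq_of_mem_replicate hC)) (by rw [List.length_replicate])
    rwa [List.prod_replicate] at this
  refine ⟨⟨M, hPn⟩, ?_⟩
  -- the arrows
  set Q : Matrix I I (MonoidAlgebra ℤ G) := res (Np Rg r) x x N with hQdef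
  let K : Type u := {p : I × I × G // (Q p.1 p.2.1).coeff p.2.2 ≠ 0}
  have hKfin : Finite K := by
    have h1 : Set.Finite {p : I × I × G | (Q p.1 p.2.1).coeff p.2.2 ≠ 0} := by
      have h2 : {p : I × I × G | (Q p.1 p.2.1).coeff p.2.2 ≠ 0} ⊆
          ⋃ q : I × I, (fun g : G => (q.1, q.2, g)) '' (Q q.1 q.2).coeff.support := by
        rintro ⟨i, j, g⟩ hg
        refine Set.mem_iUnion.2 ⟨(i, j), g, ?_, rfl⟩
        exact Finsupp.mem_support_iff.2 hg
      exact Set.Finite.subset (Set.finite_iUnion fun q => Set.Finite.image _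
        (Finset.finite_toSet _)) h2
    exact h1.to_subtype
  let _ : Fintype K := Fintype.ofFinite K
  let A : Matrix I K (MonoidAlgebra ℤ G) := fun i k =>
    if i = k.1.1 then MonoidAlgebra.single 1 ((Q k.1.1 k.1.2.1).coeff k.1.2.2) else 0
  let B : Matrix K I (MonoidAlgebra ℤ G) := fun k j =>
    if j = k.1.2.1 then MonoidAlgebra.single k.1.2.2 1 else 0
  let y : K → X × X := fun k => (x k.1.1, k.1.2.2 • x k.1.2.1)
  have hyN : ∀ k, Np Rg r (y k).1 (y k).2 := by
    intro k
    exact moves_res (Np Rg r) x x N _ _ _ k.2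
  have hAB : A * B = Q := by
    refine matrix_ext fun i j h => ?_
    rw [Matrix.mul_apply, MonoidAlgebra.coeff_sum, Finsupp.finsetSum_apply]
    have h1 : ∀ k : K, ((A i k * B k j).coeff h : ℤ) =
        if i = k.1.1 ∧ j = k.1.2.1 ∧ h = k.1.2.2 then (Q i j).coeff h else 0 := by
      intro k
      show (((if i = k.1.1 then MonoidAlgebra.single 1 ((Q k.1.1 k.1.2.1).coeff k.1.2.2) else 0) *
        (if j = k.1.2.1 then MonoidAlgebra.single k.1.2.2 1 else 0) :
          MonoidAlgebra ℤ G).coeff h : ℤ) = _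
      by_cases hi : i = k.1.1
      · by_cases hj : j = k.1.2.1
        · rw [if_pos hi, if_pos hj, MonoidAlgebra.single_mul_single, one_mul, mul_one,
            MonoidAlgebra.coeff_single]
          by_cases hh : h = k.1.2.2
          · rw [if_pos ⟨hi, hj, hh⟩, hh, Finsupp.single_eq_same, hi, hj]
          · rw [if_neg (fun h3 => hh h3.2.2), Finsupp.single_eq_of_ne hh]
        · rw [if_neg hj, mul_zero, if_neg (fun h3 => hj h3.2.1)]
          rfl
      · rw [if_neg hi, zero_mul, if_neg (fun h3 => hi h3.1)]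
        rfl
    simp only [h1]
    by_cases hq : (Q i j).coeff h = 0
    · rw [hq]
      exact Finset.sum_eq_zero fun k _ => by split_ifs <;> rfl
    · rw [Finset.sum_eq_single (⟨(i, j, h), hq⟩ : K)]
      · exact if_pos ⟨rfl, rfl, rfl⟩
      · intro k _ hk
        refine if_neg fun h3 => hk ?_
        refine Subtype.ext ?_
        exact Prod.ext h3.1.symm (Prod.ext h3.2.1.symm h3.2.2.symm)
      · intro h3
        exact absurd (Finset.mem_univ _) h3
  obtain ⟨⟨M', hM'⟩, hcm⟩ := cm_split (res (Pu Rg r) x x N) A B M (by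
    intro l hl hlen
    refine hword l (fun C hC => ?_) hlen
    rw [← hAB]
    exact hl C hC)
  have hNsum : res (Pu Rg r) x x N + A * B = N := by
    rw [hAB, hQdef]
    have h1 : res (Np Rg r) x x N = res (fun a b => ¬ Pu Rg r a b) x x N := by
      refine matrix_ext fun i j h => ?_
      rw [res_coeff, res_coeff]
      by_cases h0 : (N i j).coeff h = 0
      · rw [h0, ite_self, ite_self]
      have h2 := hN i j h h0
      by_cases h3 : Pu Rg r (x i) (h • x j)
      · rw [if_neg (fun h4 => h4.2 h3.2), if_neg (fun h4 => h4 h3)]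
      · rw [if_pos ⟨h2, fun h4 => h3 ⟨h2, h4⟩⟩, if_pos h3]
    rw [h1]
    exact res_add_res_not _ _ _ _
  refine ⟨K, inferInstance, inferInstance, y,
    B * (∑ t ∈ Finset.range M, (res (Pu Rg r) x x N) ^ t) * A, ?_, ?_, ⟨M', hM'⟩, ?_⟩
  · intro k
    exact ⟨hyN k, ⟨_, rfl⟩, _, _, rfl⟩
  · -- the moves
    have hBm : Moves (fun (α : X × X) (z : X) => z = α.2 ∧ Np Rg r α.1 α.2) y x B := by
      intro k j g hg
      have hg' : ((if j = k.1.2.1 then MonoidAlgebra.single k.1.2.2 1 else 0 :
        MonoidAlgebra ℤ G).coeff g : ℤ) ≠ 0 := hg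
      by_cases hj : j = k.1.2.1
      · rw [if_pos hj, MonoidAlgebra.coeff_single] at hg'
        have hgk : g = k.1.2.2 := by
          by_contra h3
          exact hg' (Finsupp.single_eq_of_ne h3)
        refine ⟨?_, hyN k⟩
        rw [hgk, hj]
      · rw [if_neg hj] at hg'
        exact absurd rfl hg'
    have hAm : Moves (fun (z : X) (α : X × X) => z = α.1 ∧ Np Rg r α.1 α.2) x y A := by
      intro i k g hg
      have hg' : ((if i = k.1.1 then MonoidAlgebra.single 1 ((Q k.1.1 k.1.2.1).coeff k.1.2.2)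
        else 0 : MonoidAlgebra ℤ G).coeff g : ℤ) ≠ 0 := hg
      by_cases hi : i = k.1.1
      · rw [if_pos hi, MonoidAlgebra.coeff_single] at hg'
        have hgk : g = 1 := by
          by_contra h3
          exact hg' (Finsupp.single_eq_of_ne h3)
        rw [hgk, one_smul]
        refine ⟨?_, hyN k⟩
        rw [hi]
      · rw [if_neg hi] at hg'
        exact absurd rfl hg'
    have hSm : Moves (fun a b => ∃ m, Wk (Pu Rg r) m a b) x x
        (∑ t ∈ Finset.range M, (res (Pu Rg r) x x N) ^ t) := by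
      refine Moves.sum fun t _ => ?_
      exact (Moves.pow hP (moves_res (Pu Rg r) x x N) t).mono fun a b h => ⟨t, h⟩
    have hSinv : RInv G (fun a b : X => ∃ m, Wk (Pu Rg r) m a b) := by
      rintro g a b ⟨m, h⟩
      exact ⟨m, h.smul hP g⟩
    have hAinv : RInv G (fun (z : X) (α : X × X) => z = α.1 ∧ Np Rg r α.1 α.2) := by
      rintro g z α ⟨h1, h2⟩
      refine ⟨?_, hQ g _ _ h2⟩
      rw [h1]
      rfl
    have h1 : Moves (fun (α : X × X) (z : X) => Np Rg r α.1 α.2 ∧ ∃ m, Wk (Pu Rg r) m α.2 z) y x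
        (B * (∑ t ∈ Finset.range M, (res (Pu Rg r) x x N) ^ t)) := by
      refine hBm.mul hSinv hSm ?_
      rintro α b t ⟨h2, h3⟩ h4
      rw [h2] at h4
      exact ⟨h3, h4⟩
    refine h1.mul hAinv hAm ?_
    rintro α b β ⟨h2, h3⟩ ⟨h4, h5⟩
    rw [h4] at h3
    exact ⟨h2, h5, h3⟩
  · rw [← hcm, hNsum]

end Pool.Agent.Lib.MP_16fe43_al
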