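import Pool.Agent.Lib.MP_16fe43_al.TreeDefs

/-!
# Resolutions by free modules with nilpotent endomorphisms
-/

set_option autoImplicit false

universe u v w

namespace Pool.Agent.Lib.MP_16fe43_al

open MulAction (stabilizer)
open Matrix (fromBlocks fromRows fromCols vecMul)

section plain

variable {R : Type u} [Ring R]

/-- the row vectors killed by `A` are the combinations of the rows of `B` -/
def RowExact {I J K : Type*} [Fintype I] [Fintype K] (B : Matrix K I R) (A : Matrix I J R) :
    Prop :=
  ∀ v : I → R, vecMul v A = 0 ↔ ∃ t : K → R, v = vecMul t B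

/-- `A` has a free resolution of length at most `k`, starting with the given free module -/
def HasRes (R : Type u) [Ring R] : ℕ → (m n : ℕ) → Matrix (Fin m) (Fin n) R → Prop
  | 0, m, _, A => ∀ v : Fin m → R, vecMul v A = 0 → v = 0
  | k + 1, m, _, A => ∃ (a : ℕ) (B : Matrix (Fin a) (Fin m) R), RowExact B A ∧ HasRes R k a m B

/-- Every finitely presented (left) module has a finite resolution by finitely generated free
modules: for every matrix `A` over `R`, acting on row vectors, the kernel of `A` is the image of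
some matrix, the kernel of which is the image of some matrix, and so on, until the kernel is `0`. -/
def FFR (R : Type u) [Ring R] : Prop :=
  ∀ (m n : ℕ) (A : Matrix (Fin m) (Fin n) R), ∃ k, HasRes R k m n A

/-- a resolution with endomorphisms `ν`, with the alternating sum `s` of the classes of `1 - ν` -/
def PRes (R : Type u) [Ring R] : ℕ → (I J : Type v) → [Fintype I] → [DecidableEq I] →
    [Fintype J] → Matrix I I R → Matrix I J R → K1 R → Prop
  | 0, I, _, _, _, _, ν, ε, s => IsUnit (1 - ν) ∧ (∀ v : I → R, vecMul v ε = 0 → v = 0) ∧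
      s = cm (1 - ν)
  | k + 1, I, _, _, _, _, ν, ε, s => IsUnit (1 - ν) ∧
      ∃ (K : Type v) (_ : Fintype K) (_ : DecidableEq K) (d : Matrix K I R) (μ : Matrix K K R)
        (s' : K1 R), μ * d = d * ν ∧ RowExact d ε ∧ PRes R k K I μ d s' ∧
          s = cm (1 - ν) - s'

theorem rowExact_congr {I J J' K : Type*} [Fintype I] [Fintype K] {B : Matrix K I R}
    {A : Matrix I J R} {A' : Matrix I J' R}
    (h : ∀ v : I → R, vecMul v A = 0 ↔ vecMul v A' = 0) (hB : RowExact B A) : RowExact B A' :=
  fun v => (h v).symm.trans (hB v)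

/-- `PRes` only depends on the kernel -/
theorem pres_congr {k : ℕ} {I J J' : Type v} [Fintype I] [DecidableEq I] [Fintype J]
    [Fintype J'] {ν : Matrix I I R} {ε : Matrix I J R} {ε' : Matrix I J' R} {s : K1 R}
    (h : ∀ v : I → R, vecMul v ε = 0 ↔ vecMul v ε' = 0) (h' : PRes R k I J ν ε s) :
    PRes R k I J' ν ε' s := by
  cases k with
  | zero =>
    obtain ⟨h1, h2, h3⟩ := h'
    exact ⟨h1, fun v hv => h2 v ((h v).2 hv), h3⟩
  | succ k =>
    obtain ⟨h1, K, i1, i2, d, μ, s', h3, h4, h5, h6⟩ := h'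
    exact ⟨h1, K, i1, i2, d, μ, s', h3, rowExact_congr h h4, h5, h6⟩

/-- a matrix, the rows of which are killed by `A`, is a combination of the rows of `B` -/
theorem RowExact.lift {I J K L : Type*} [Fintype I] [Fintype K] {B : Matrix K I R}
    {A : Matrix I J R} (h : RowExact B A) {M : Matrix L I R} (hM : M * A = 0) :
    ∃ T : Matrix L K R, M = T * B := by
  have h1 : ∀ l : L, ∃ t : K → R, M l = vecMul t B := fun l => by
    refine (h (M l)).1 ?_
    have := congrFun hM l
    rwa [Matrix.mul_apply_eq_vecMul] at this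
  choose t ht using h1
  refine ⟨Matrix.of t, ?_⟩
  funext l
  rw [Matrix.mul_apply_eq_vecMul]
  exact ht l

theorem RowExact.mul_eq_zero {I J K : Type*} [Fintype I] [Fintype K] [DecidableEq K]
    {B : Matrix K I R} {A : Matrix I J R} (h : RowExact B A) : B * A = 0 := by
  funext k
  rw [Matrix.mul_apply_eq_vecMul]
  refine (h (B k)).2 ⟨Pi.single k 1, ?_⟩
  rw [Matrix.single_one_vecMul]
  rfl

theorem isUnit_one_sub_fromBlocks {K J : Type v} [Fintype K] [DecidableEq K] [Fintype J]
    [DecidableEq J] {μ : Matrix K K R} {φ : Matrix J J R} (θ : Matrix J K R)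
    (hμ : IsUnit (1 - μ)) (hφ : IsUnit (1 - φ)) :
    IsUnit (1 - fromBlocks μ 0 θ φ) ∧
      cm (1 - fromBlocks μ 0 θ φ) = cm (1 - μ) + cm (1 - φ) := by
  have h : (1 : Matrix (K ⊕ J) (K ⊕ J) R) - fromBlocks μ 0 θ φ =
      fromBlocks (1 - μ) 0 (-θ) (1 - φ) := by
    rw [← Matrix.fromBlocks_one, sub_eq_add_neg, Matrix.fromBlocks_neg, Matrix.fromBlocks_add]
    simp only [neg_zero, add_zero, ← sub_eq_add_neg, zero_sub]
  rw [h]
  exact ⟨isUnit_fromBlocks_lower _ hμ hφ, cm_fromBlocks_lower _ hμ hφ⟩

/-- the class of an endomorphism is the alternating sum of the classes for a resolution -/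
theorem pres_sum (k : ℕ) : ∀ (I J : Type v) [Fintype I] [DecidableEq I] [Fintype J]
    [DecidableEq J] (ν : Matrix I I R) (ε : Matrix I J R) (s : K1 R) (φ : Matrix J J R)
    (ρ : Matrix J I R), PRes R k I J ν ε s → ρ * ε = 1 → ν * ε = ε * φ → IsUnit (1 - φ) →
      cm (1 - φ) = s := by
  induction k with
  | zero =>
    intro I J _ _ _ _ ν ε s φ ρ h hρ hν hφ
    obtain ⟨_, h2, h3⟩ := h
    have h4 : ε * ρ = 1 := by
      have h5 : (ε * ρ - 1) * ε = 0 := by
        rw [Matrix.sub_mul, Matrix.mul_assoc, hρ, Matrix.mul_one, Matrix.one_mul, sub_self]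
      have h6 : ε * ρ - 1 = 0 := by
        funext i
        refine h2 _ ?_
        have := congrFun h5 i
        rwa [Matrix.mul_apply_eq_vecMul] at this
      exact sub_eq_zero.1 h6
    have h5 : ν = ε * (φ * ρ) := by
      rw [← Matrix.mul_assoc, ← hν, Matrix.mul_assoc, h4, Matrix.mul_one]
    rw [h3, h5, cm_one_sub_mul_comm, Matrix.mul_assoc, hρ, Matrix.mul_one]
  | succ k ih =>
    intro I J _ _ _ _ ν ε s φ ρ h hρ hν hφ
    obtain ⟨h1, K, _, _, d, μ, s', hμ, hd, hP, hs⟩ := h
    have hdε : d * ε = 0 := hd.mul_eq_zero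
    obtain ⟨σ, hσ⟩ : ∃ σ : Matrix I K R, 1 - ε * ρ = σ * d := by
      apply hd.lift
      rw [Matrix.sub_mul, Matrix.mul_assoc, hρ, Matrix.mul_one, Matrix.one_mul, sub_self]
    obtain ⟨θ, hθ⟩ : ∃ θ : Matrix J K R, ρ * ν - φ * ρ = θ * d := by
      apply hd.lift
      rw [Matrix.sub_mul, Matrix.mul_assoc, hν, ← Matrix.mul_assoc, hρ, Matrix.one_mul,
        Matrix.mul_assoc, hρ, Matrix.mul_one, sub_self]
    have hker : ∀ v : K ⊕ J → R, vecMul v (fromRows d ρ) = 0 ↔
        vecMul (v ∘ Sum.inl) d = 0 ∧ v ∘ Sum.inr = 0 := by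
      intro v
      rw [Matrix.vecMul_fromRows]
      constructor
      · intro hv
        have h5 : vecMul (vecMul (v ∘ Sum.inl) d + vecMul (v ∘ Sum.inr) ρ) ε = 0 := by
          rw [hv, Matrix.zero_vecMul]
        rw [Matrix.add_vecMul, Matrix.vecMul_vecMul, Matrix.vecMul_vecMul, hdε, hρ,
          Matrix.vecMul_zero, zero_add, Matrix.vecMul_one] at h5
        rw [h5, Matrix.zero_vecMul, add_zero] at hv
        exact ⟨hv, h5⟩
      · rintro ⟨h5, h6⟩
        rw [h5, h6, Matrix.zero_vecMul, add_zero]
    have hμu : IsUnit (1 - μ) := by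
      cases k with
      | zero => exact hP.1
      | succ k => exact hP.1
    obtain ⟨hu, hc⟩ := isUnit_one_sub_fromBlocks θ hμu hφ
    have key : PRes R k (K ⊕ J) I (fromBlocks μ 0 θ φ) (fromRows d ρ) (s' + cm (1 - φ)) := by
      cases k with
      | zero =>
        obtain ⟨_, h5, h6⟩ := hP
        refine ⟨hu, fun v hv => ?_, ?_⟩
        · obtain ⟨h7, h8⟩ := (hker v).1 hv
          have h9 := h5 _ h7
          funext i
          rcases i with i | i
          · exact congrFun h9 i
          · exact congrFun h8 i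
        · rw [hc, h6]
      | succ k =>
        obtain ⟨_, K2, _, _, d2, μ2, s2, h5, h6, h7, h8⟩ := hP
        have hk2 : ∀ t : K2 → R, vecMul t (fromCols d2 (0 : Matrix K2 J R)) =
            Sum.elim (vecMul t d2) 0 := by
          intro t
          rw [Matrix.vecMul_fromCols, Matrix.vecMul_zero]
        refine ⟨hu, K2, inferInstance, inferInstance, fromCols d2 0, μ2, s2, ?_, ?_, ?_, ?_⟩
        · rw [Matrix.mul_fromCols, Matrix.fromCols_mul_fromBlocks]
          simp [h5]
        · intro v
          rw [hker, h6]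
          constructor
          · rintro ⟨⟨t, ht⟩, h9⟩
            refine ⟨t, ?_⟩
            rw [hk2]
            funext i
            rcases i with i | i
            · exact congrFun ht i
            · exact congrFun h9 i
          · rintro ⟨t, ht⟩
            rw [hk2] at ht
            subst ht
            exact ⟨⟨t, by funext i; rfl⟩, by funext i; rfl⟩
        · refine pres_congr (fun t => ?_) h7
          rw [hk2]
          constructor
          · intro h9
            rw [h9]
            funext i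
            rcases i with i | i <;> rfl
          · intro h9
            funext i
            exact congrFun h9 (Sum.inl i)
        · rw [hc, h8]
          abel
    have h10 := ih (K ⊕ J) I (fromBlocks μ 0 θ φ) (fromRows d ρ) (s' + cm (1 - φ)) ν
      (fromCols σ ε) key ?_ ?_ h1
    · rw [hs, h10]
      abel
    · rw [Matrix.fromCols_mul_fromRows, ← hσ]
      abel
    · rw [Matrix.fromBlocks_mul_fromRows, Matrix.fromRows_mul, hμ, Matrix.zero_mul, add_zero,
        ← hθ]
      congr 1
      abel

end plain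

section located

variable {G : Type u} [Group G] {X : Type w} [MulAction G X]

/-- the coefficient rings of the stabilizer of `z` has finite free resolutions -/
def QX (G : Type u) [Group G] {X : Type w} [MulAction G X] (z : X) : Prop :=
  FFR (MonoidAlgebra ℤ (stabilizer G z))

/-- located resolution of a located matrix -/
def LRes (G : Type u) [Group G] {X : Type w} [MulAction G X] : ℕ → (I J : Type u) →
    [Fintype I] → [DecidableEq I] → (I → X) → Matrix I J (MonoidAlgebra ℤ G) → Prop
  | 0, I, _, _, _, _, A => ∀ v : I → MonoidAlgebra ℤ G, vecMul v A = 0 → v = 0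
  | k + 1, I, _, _, _, x, A =>
      ∃ (K : Type u) (_ : Fintype K) (_ : DecidableEq K) (z : K → X)
        (B : Matrix K I (MonoidAlgebra ℤ G)), (∀ k, QX G (z k)) ∧
        Moves (fun a b => b = a) z x B ∧ RowExact B A ∧ LRes G k K I z B

/-- resolution with located endomorphisms of class zero -/
def NRes (G : Type u) [Group G] {X : Type w} [MulAction G X] (r : X → X → Prop) : ℕ →
    (I J : Type u) → [Fintype I] → [DecidableEq I] → (I → X) →
    Matrix I I (MonoidAlgebra ℤ G) → Matrix I J (MonoidAlgebra ℤ G) → Prop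
  | 0, I, _, _, _, _, ν, ε => (IsUnit (1 - ν) ∧ cm (1 - ν) = 0) ∧
      ∀ v : I → MonoidAlgebra ℤ G, vecMul v ε = 0 → v = 0
  | k + 1, I, _, _, _, x, ν, ε => (IsUnit (1 - ν) ∧ cm (1 - ν) = 0) ∧
      ∃ (K : Type u) (_ : Fintype K) (_ : DecidableEq K) (z : K → X)
        (d : Matrix K I (MonoidAlgebra ℤ G)) (μ : Matrix K K (MonoidAlgebra ℤ G)),
        (∀ k, QX G (z k)) ∧ Moves (fun a b => b = a) z x d ∧ Moves r z z μ ∧ μ * d = d * ν ∧
        RowExact d ε ∧ NRes G r k K I z μ d

/-- `NRes` gives `PRes` with the sum `0` -/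
theorem pres_of_nres {r : X → X → Prop} (k : ℕ) : ∀ (I J : Type u) [Fintype I] [DecidableEq I]
    [Fintype J] (x : I → X) (ν : Matrix I I (MonoidAlgebra ℤ G))
    (ε : Matrix I J (MonoidAlgebra ℤ G)), NRes G r k I J x ν ε →
      PRes (MonoidAlgebra ℤ G) k I J ν ε 0 := by
  induction k with
  | zero =>
    intro I J _ _ _ x ν ε h
    obtain ⟨⟨h1, h2⟩, h3⟩ := h
    exact ⟨h1, h3, h2.symm⟩
  | succ k ih =>
    intro I J _ _ _ x ν ε h
    obtain ⟨⟨h1, h2⟩, K, i1, i2, z, d, μ, _, _, _, h6, h7, h8⟩ := h
    exact ⟨h1, K, i1, i2, d, μ, 0, h6, h7, ih K I z μ d h8, by rw [h2, sub_zero]⟩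

/-- `NRes` only depends on the kernel -/
theorem nres_congr {r : X → X → Prop} {k : ℕ} {I J J' : Type u} [Fintype I] [DecidableEq I]
    {x : I → X} {ν : Matrix I I (MonoidAlgebra ℤ G)} {ε : Matrix I J (MonoidAlgebra ℤ G)}
    {ε' : Matrix I J' (MonoidAlgebra ℤ G)}
    (h : ∀ v : I → MonoidAlgebra ℤ G, vecMul v ε = 0 ↔ vecMul v ε' = 0)
    (h' : NRes G r k I J x ν ε) : NRes G r k I J' x ν ε' := by
  cases k with
  | zero =>
    obtain ⟨h1, h2⟩ := h'
    exact ⟨h1, fun v hv => h2 v ((h v).2 hv)⟩
  | succ k =>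
    obtain ⟨h1, K, i1, i2, z, d, μ, h3, h4, h5, h6, h7, h8⟩ := h'
    exact ⟨h1, K, i1, i2, z, d, μ, h3, h4, h5, h6, rowExact_congr h h7, h8⟩

theorem nres_succ {r : X → X → Prop} {k : ℕ} {I J : Type u} [Fintype I] [DecidableEq I]
    {x : I → X} {ν : Matrix I I (MonoidAlgebra ℤ G)} {ε : Matrix I J (MonoidAlgebra ℤ G)}
    (h' : NRes G r k I J x ν ε) : NRes G r (k + 1) I J x ν ε := by
  induction k generalizing I J with
  | zero =>
    obtain ⟨h1, h2⟩ := h'
    refine ⟨h1, PEmpty, inferInstance, inferInstance, fun k => k.elim, fun k => k.elim, 0,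
      fun k => k.elim, fun k => k.elim, fun k => k.elim, ?_, ?_, ⟨?_, ?_⟩⟩
    · funext k
      exact k.elim
    · intro v
      constructor
      · intro hv
        refine ⟨fun k => k.elim, ?_⟩
        rw [h2 v hv]
        funext i
        simp [vecMul, dotProduct]
      · rintro ⟨t, rfl⟩
        have : vecMul t (fun k : PEmpty => (k.elim : I → MonoidAlgebra ℤ G)) = 0 := by
          funext i
          simp [vecMul, dotProduct]
        rw [this, Matrix.zero_vecMul]
    · rw [sub_zero]
      exact ⟨isUnit_one, cm_one⟩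
    · intro v _
      funext k
      exact k.elim
  | succ k ih =>
    obtain ⟨h1, K, i1, i2, z, d, μ, h3, h4, h5, h6, h7, h8⟩ := h'
    exact ⟨h1, K, i1, i2, z, d, μ, h3, h4, h5, h6, h7, ih h8⟩

/-- located lifting: a located matrix, the rows of which are combinations of the rows of a located
matrix, is a located combination -/
theorem exists_located_lift {Y : Type*} [MulAction G Y] {r : Y → X → Prop} (hr : RInv G r)
    {L I J : Type*} [Fintype L] [Fintype I] [Fintype J] {l : L → Y} {x : I → X} {y : J → X}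
    {A : Matrix L J (MonoidAlgebra ℤ G)} (hA : Moves r l y A)
    {E : Matrix I J (MonoidAlgebra ℤ G)} (hE : Moves (fun a b => b = a) x y E)
    (h : ∀ i : L, ∃ t : I → MonoidAlgebra ℤ G, A i = vecMul t E) :
    ∃ θ : Matrix L I (MonoidAlgebra ℤ G), Moves r l x θ ∧ A = θ * E := by
  choose t ht using h
  have h1 : A = Matrix.of t * E := by
    funext i
    rw [Matrix.mul_apply_eq_vecMul]
    exact ht i
  refine ⟨res r l x (Matrix.of t), moves_res r l x _, ?_⟩
  have h2 := res_mul_of (c := fun _ _ => True) (c1 := r) (d := fun a b => b = a) (e := r)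
    (x := l) (y := x) (z := y) (M := Matrix.of t) (N := E) (fun _ _ _ _ => trivial)
    (fun g a b hab => by rw [hab]) hE (fun a b t _ hbt => by rw [hbt])
  rw [h2, ← h1]
  exact (Moves.res_eq_self hA).symm

end located

end Pool.Agent.Lib.MP_16fe43_al
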