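import Pool.Agent.Lib.MP_16fe43_al.TreeR1

/-!
# The horseshoe lemma with nilpotent endomorphisms
-/

set_option autoImplicit false

universe u v w

namespace Pool.Agent.Lib.MP_16fe43_al

open MulAction (stabilizer)
open Matrix (fromBlocks fromRows fromCols vecMul)

variable {G : Type u} [Group G] {X : Type w} [MulAction G X]

theorem moves_fromRows {Y : Type*} [MulAction G Y] {c : X → Y → Prop} {I L J : Type*}
    {x : I → X} {l : L → X} {y : J → Y} {A : Matrix I J (MonoidAlgebra ℤ G)}
    {B : Matrix L J (MonoidAlgebra ℤ G)} (hA : Moves c x y A) (hB : Moves c l y B) :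
    Moves c (Sum.elim x l) y (fromRows A B) := by
  rintro (i | i) j h hh
  · exact hA i j h hh
  · exact hB i j h hh

theorem moves_fromCols {Y : Type*} [MulAction G Y] {c : X → Y → Prop} {I L J : Type*}
    {x : I → X} {y : J → Y} {z : L → Y} {A : Matrix I J (MonoidAlgebra ℤ G)}
    {B : Matrix I L (MonoidAlgebra ℤ G)} (hA : Moves c x y A) (hB : Moves c x z B) :
    Moves c x (Sum.elim y z) (fromCols A B) := by
  rintro i (j | j) h hh
  · exact hA i j h hh
  · exact hB i j h hh

theorem moves_fromBlocks_zero {r : X → X → Prop} {I L : Type*} {x : I → X} {l : L → X}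
    {ν : Matrix I I (MonoidAlgebra ℤ G)} {θ : Matrix L I (MonoidAlgebra ℤ G)}
    (hν : Moves r x x ν) (hθ : Moves r l x θ) :
    Moves r (Sum.elim x l) (Sum.elim x l)
      (fromBlocks ν (0 : Matrix I L (MonoidAlgebra ℤ G)) θ
        (0 : Matrix L L (MonoidAlgebra ℤ G))) := by
  rintro (i | i) (j | j) h hh
  · exact hν i j h hh
  · exact moves_zero r x l i j h hh
  · exact hθ i j h hh
  · exact moves_zero r l l i j h hh

theorem rInv_eq : RInv G (fun a b : X => b = a) := fun g a b hab => by rw [hab]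

/-- the basic step: resolution of the extended module from the resolution of its kernel -/
theorem nres_build {r : X → X → Prop} {I L J K : Type u} [Fintype I] [DecidableEq I] [Fintype L]
    [DecidableEq L] [Fintype K] [DecidableEq K] {x : I → X} {l : L → X} {z : K → X} {k : ℕ}
    {ν : Matrix I I (MonoidAlgebra ℤ G)} {θ : Matrix L I (MonoidAlgebra ℤ G)}
    {epsh : Matrix (I ⊕ L) J (MonoidAlgebra ℤ G)} (hu : IsUnit (1 - ν)) (hc : cm (1 - ν) = 0)
    {d : Matrix K (I ⊕ L) (MonoidAlgebra ℤ G)} {μ : Matrix K K (MonoidAlgebra ℤ G)}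
    (hz : ∀ k, QX G (z k)) (hd : Moves (fun a b => b = a) z (Sum.elim x l) d)
    (hμ : Moves r z z μ) (hc' : μ * d = d * fromBlocks ν 0 θ 0) (he : RowExact d epsh)
    (hN : NRes G r k K (I ⊕ L) z μ d) :
    NRes G r (k + 1) (I ⊕ L) J (Sum.elim x l) (fromBlocks ν 0 θ 0) epsh := by
  have h0 : IsUnit (1 - (0 : Matrix L L (MonoidAlgebra ℤ G))) := by
    rw [sub_zero]
    exact isUnit_one
  obtain ⟨h1, h2⟩ := isUnit_one_sub_fromBlocks θ hu h0
  refine ⟨⟨h1, ?_⟩, K, inferInstance, inferInstance, z, d, μ, hz, hd, hμ, hc', he, hN⟩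
  rw [h2, hc, sub_zero, cm_one, add_zero]

/-- the relative kernel of `lam` modulo the rows of `ε` has a located resolution of length `m` -/
def RelRes (G : Type u) [Group G] {X : Type w} [MulAction G X] (m : ℕ) {I L J : Type u}
    [Fintype I] [Fintype L] [DecidableEq L] (l : L → X) (ε : Matrix I J (MonoidAlgebra ℤ G))
    (lam : Matrix L J (MonoidAlgebra ℤ G)) : Prop :=
  match m with
  | 0 => ∀ w : L → MonoidAlgebra ℤ G, (∃ t : I → MonoidAlgebra ℤ G, vecMul w lam = vecMul t ε) →
      w = 0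
  | m + 1 => ∃ (K : Type u) (_ : Fintype K) (_ : DecidableEq K) (z : K → X)
      (B : Matrix K L (MonoidAlgebra ℤ G)), (∀ k, QX G (z k)) ∧
      Moves (fun a b => b = a) z l B ∧
      (∀ w : L → MonoidAlgebra ℤ G, (∃ t : I → MonoidAlgebra ℤ G, vecMul w lam = vecMul t ε) ↔
        ∃ s : K → MonoidAlgebra ℤ G, w = vecMul s B) ∧ LRes G m K L z B

theorem horseshoe {r : X → X → Prop} (hr : RInv G r) (m : ℕ) :
    ∀ (I L J : Type u) [Fintype I] [DecidableEq I] [Fintype L] [DecidableEq L] [Fintype J]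
      [DecidableEq J] (x : I → X) (l : L → X) (y : J → X) (k : ℕ)
      (ν : Matrix I I (MonoidAlgebra ℤ G)) (ε : Matrix I J (MonoidAlgebra ℤ G))
      (φ : Matrix J J (MonoidAlgebra ℤ G)) (lam : Matrix L J (MonoidAlgebra ℤ G))
      (θ : Matrix L I (MonoidAlgebra ℤ G)),
      (∀ i, QX G (x i)) → (∀ i, QX G (l i)) →
      Moves (fun a b => b = a) x y ε → Moves (fun a b => b = a) l y lam → Moves r x x ν →
      Moves r y y φ → Moves r l x θ → ν * ε = ε * φ → lam * φ = θ * ε →
      NRes G r k I J x ν ε → RelRes G m l ε lam →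
      ∃ k', NRes G r k' (I ⊕ L) J (Sum.elim x l) (fromBlocks ν 0 θ 0) (fromRows ε lam) := by
  induction m with
  | zero =>
    intro I L J _ _ _ _ _ _ x l y k ν ε φ lam θ hx hl hε hlam hν hφ hθ hνε hlφ hN hR
    obtain ⟨⟨hu, hc⟩, K, _, _, z, d, μ, hz, hd, hμ, hμd, hdε, hK⟩ := nres_succ hN
    have hv : ∀ v : K → MonoidAlgebra ℤ G, vecMul v d = 0 ↔
        vecMul v (fromCols d (0 : Matrix K L (MonoidAlgebra ℤ G))) = 0 := by
      intro v
      rw [Matrix.vecMul_fromCols, Matrix.vecMul_zero]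
      constructor
      · intro h
        rw [h]
        funext i
        rcases i with i | i <;> rfl
      · intro h
        funext i
        exact congrFun h (Sum.inl i)
    refine ⟨k + 1, nres_build hu hc hz (moves_fromCols hd (moves_zero _ z l)) hμ ?_ ?_
      (nres_congr hv hK)⟩
    · rw [Matrix.mul_fromCols, Matrix.fromCols_mul_fromBlocks, hμd, Matrix.mul_zero,
        Matrix.zero_mul, Matrix.mul_zero, Matrix.mul_zero, add_zero, add_zero]
    · intro v
      rw [Matrix.vecMul_fromRows]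
      constructor
      · intro h
        have h1 : v ∘ Sum.inr = 0 := by
          refine hR _ ⟨-(v ∘ Sum.inl), ?_⟩
          rw [Matrix.neg_vecMul]
          exact eq_neg_of_add_eq_zero_right h
        rw [h1, Matrix.zero_vecMul, add_zero] at h
        obtain ⟨t, ht⟩ := (hdε _).1 h
        refine ⟨t, ?_⟩
        rw [Matrix.vecMul_fromCols, Matrix.vecMul_zero, ← ht, ← h1]
        funext i
        rcases i with i | i <;> rfl
      · rintro ⟨t, ht⟩
        rw [Matrix.vecMul_fromCols, Matrix.vecMul_zero] at ht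
        have h1 : v ∘ Sum.inl = vecMul t d := by rw [ht]; rfl
        have h2 : v ∘ Sum.inr = 0 := by rw [ht]; rfl
        rw [h2, Matrix.zero_vecMul, add_zero]
        exact (hdε _).2 ⟨t, h1⟩
  | succ m ih =>
    intro I L J _ _ _ _ _ _ x l y k ν ε φ lam θ hx hl hε hlam hν hφ hθ hνε hlφ hN hR
    obtain ⟨⟨hu, hc⟩, K, _, _, z, d, μ, hz, hd, hμ, hμd, hdε, hK⟩ := nres_succ hN
    obtain ⟨K1, _, _, z1, B, hz1, hB, hBk, hLB⟩ := hR
    have hdε0 : d * ε = 0 := hdε.mul_eq_zero
    have hv : ∀ v : K → MonoidAlgebra ℤ G, vecMul v d = 0 ↔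
        vecMul v (fromCols d (0 : Matrix K L (MonoidAlgebra ℤ G))) = 0 := by
      intro v
      rw [Matrix.vecMul_fromCols, Matrix.vecMul_zero]
      constructor
      · intro h
        rw [h]
        funext i
        rcases i with i | i <;> rfl
      · intro h
        funext i
        exact congrFun h (Sum.inl i)
    -- the rows of `B * lam` are combinations of the rows of `ε`
    obtain ⟨σ, hσ, hσe⟩ : ∃ σ : Matrix K1 I (MonoidAlgebra ℤ G),
        Moves (fun a b => b = a) z1 x σ ∧ B * lam = σ * ε := by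
      refine exists_located_lift rInv_eq (hB.mul rInv_eq hlam (fun a b t h1 h2 => h2.trans h1))
        hε ?_
      intro i
      obtain ⟨t, ht⟩ := (hBk (B i)).2 ⟨Pi.single i 1, by rw [Matrix.single_one_vecMul]; rfl⟩
      exact ⟨t, by rw [Matrix.mul_apply_eq_vecMul]; exact ht⟩
    have hkey : (-σ * ν + B * θ) * ε = 0 := by
      rw [Matrix.add_mul, Matrix.neg_mul, Matrix.neg_mul, Matrix.mul_assoc, Matrix.mul_assoc, hνε,
        ← hlφ, ← Matrix.mul_assoc, ← Matrix.mul_assoc, hσe, neg_add_cancel]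
    obtain ⟨θ1, hθ1, hθ1e⟩ : ∃ θ1 : Matrix K1 K (MonoidAlgebra ℤ G),
        Moves r z1 z θ1 ∧ -σ * ν + B * θ = θ1 * d := by
      refine exists_located_lift hr ?_ hd ?_
      · refine Moves.add ?_ ?_
        · exact hσ.neg.mul hr hν (fun a b t h1 h2 => by rw [← h1]; exact h2)
        · exact hB.mul hr hθ (fun a b t h1 h2 => by rw [← h1]; exact h2)
      · intro i
        refine (hdε _).1 ?_
        have := congrFun hkey i
        rwa [Matrix.mul_apply_eq_vecMul] at this
    -- the new data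
    have hd' : Moves (fun a b => b = a) z (Sum.elim x l)
        (fromCols d (0 : Matrix K L (MonoidAlgebra ℤ G))) := moves_fromCols hd (moves_zero _ z l)
    have hlam1 : Moves (fun a b => b = a) z1 (Sum.elim x l) (fromCols (-σ) B) :=
      moves_fromCols hσ.neg hB
    have hμd' : μ * fromCols d (0 : Matrix K L (MonoidAlgebra ℤ G)) =
        fromCols d (0 : Matrix K L (MonoidAlgebra ℤ G)) *
          fromBlocks ν (0 : Matrix I L (MonoidAlgebra ℤ G)) θ
            (0 : Matrix L L (MonoidAlgebra ℤ G)) := by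
      rw [Matrix.mul_fromCols, Matrix.fromCols_mul_fromBlocks, hμd, Matrix.mul_zero,
        Matrix.zero_mul, Matrix.mul_zero, Matrix.mul_zero, add_zero, add_zero]
    have hlam1θ : fromCols (-σ) B * fromBlocks ν (0 : Matrix I L (MonoidAlgebra ℤ G)) θ
            (0 : Matrix L L (MonoidAlgebra ℤ G)) =
        θ1 * fromCols d (0 : Matrix K L (MonoidAlgebra ℤ G)) := by
      rw [Matrix.mul_fromCols, Matrix.fromCols_mul_fromBlocks, hθ1e, Matrix.mul_zero,
        Matrix.mul_zero, Matrix.mul_zero, add_zero]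
    have hrel : ∀ w : K1 → MonoidAlgebra ℤ G, (∃ t : K → MonoidAlgebra ℤ G,
        vecMul w (fromCols (-σ) B) =
          vecMul t (fromCols d (0 : Matrix K L (MonoidAlgebra ℤ G)))) ↔ vecMul w B = 0 := by
      intro w
      constructor
      · rintro ⟨t, ht⟩
        rw [Matrix.vecMul_fromCols, Matrix.vecMul_fromCols, Matrix.vecMul_zero] at ht
        funext i
        exact congrFun ht (Sum.inr i)
      · intro h
        have h1 : vecMul (vecMul w (-σ)) ε = 0 := by
          rw [Matrix.vecMul_vecMul, Matrix.neg_mul, ← hσe, ← Matrix.mul_neg, ← Matrix.vecMul_vecMul,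
            h, Matrix.zero_vecMul]
        obtain ⟨t, ht⟩ := (hdε _).1 h1
        refine ⟨t, ?_⟩
        rw [Matrix.vecMul_fromCols, Matrix.vecMul_fromCols, Matrix.vecMul_zero, h, ht]
    have hrr : RelRes G m z1 (fromCols d (0 : Matrix K L (MonoidAlgebra ℤ G)))
        (fromCols (-σ) B) := by
      cases m with
      | zero => exact fun w hw => hLB w ((hrel w).1 hw)
      | succ m =>
        obtain ⟨K2, i1, i2, z2, B2, hz2, hB2, hB2e, hL2⟩ := hLB
        exact ⟨K2, i1, i2, z2, B2, hz2, hB2, fun w => (hrel w).trans (hB2e w), hL2⟩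
    obtain ⟨k2, hk2⟩ := ih K K1 (I ⊕ L) z z1 (Sum.elim x l) k μ (fromCols d 0)
      (fromBlocks ν 0 θ 0) (fromCols (-σ) B) θ1 hz hz1 hd' hlam1 hμ (moves_fromBlocks_zero hν hθ)
      hθ1 hμd' hlam1θ (nres_congr hv hK) hrr
    refine ⟨k2 + 1, nres_build hu hc ?_ (moves_fromRows hd' hlam1) (moves_fromBlocks_zero hμ hθ1)
      ?_ ?_ hk2⟩
    · rintro (i | i)
      · exact hz i
      · exact hz1 i
    · rw [Matrix.fromBlocks_mul_fromRows, Matrix.fromRows_mul, ← hμd', hlam1θ, Matrix.zero_mul,
        Matrix.zero_mul, add_zero, add_zero]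
    · intro v
      rw [Matrix.vecMul_fromRows]
      constructor
      · intro h
        obtain ⟨s, hs⟩ := (hBk (v ∘ Sum.inr)).1 ⟨-(v ∘ Sum.inl), by
          rw [Matrix.neg_vecMul]
          exact eq_neg_of_add_eq_zero_right h⟩
        have h1 : vecMul (v ∘ Sum.inl + vecMul s σ) ε = 0 := by
          rw [Matrix.add_vecMul, Matrix.vecMul_vecMul, ← hσe, ← Matrix.vecMul_vecMul, ← hs]
          exact h
        obtain ⟨t, ht⟩ := (hdε _).1 h1
        refine ⟨Sum.elim t s, ?_⟩
        rw [Matrix.sumElim_vecMul_fromRows, Matrix.vecMul_fromCols, Matrix.vecMul_fromCols,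
          Matrix.vecMul_zero, ← ht, ← hs, Matrix.vecMul_neg]
        funext i
        rcases i with i | i
        · show v (Sum.inl i) = (v (Sum.inl i) + vecMul s σ i) + -vecMul s σ i
          abel
        · show v (Sum.inr i) = 0 + v (Sum.inr i)
          rw [zero_add]
      · rintro ⟨t, ht⟩
        rw [Matrix.vecMul_fromRows, Matrix.vecMul_fromCols, Matrix.vecMul_fromCols,
          Matrix.vecMul_zero] at ht
        have h1 : v ∘ Sum.inl = vecMul (t ∘ Sum.inl) d + vecMul (t ∘ Sum.inr) (-σ) := by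
          rw [ht]; rfl
        have h2 : v ∘ Sum.inr = vecMul (t ∘ Sum.inr) B := by
          rw [ht]
          funext i
          show 0 + vecMul (t ∘ Sum.inr) B i = _
          rw [zero_add]
        rw [h1, h2, Matrix.add_vecMul, Matrix.vecMul_vecMul, Matrix.vecMul_vecMul,
          Matrix.vecMul_vecMul, hdε0, hσe, Matrix.neg_mul, Matrix.vecMul_zero, Matrix.vecMul_neg,
          zero_add, neg_add_cancel]

end Pool.Agent.Lib.MP_16fe43_al
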