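import Pool.Agent.Lib.MP_16fe43_al.TreeR2
import Pool.Agent.Lib.MP_16fe43_al.TreeR3

/-!
# The base case: all stabilizers have finite free resolutions
-/

set_option autoImplicit false

universe u v w

namespace Pool.Agent.Lib.MP_16fe43_al

open MulAction (stabilizer)
open Matrix (fromBlocks fromRows fromCols vecMul)

variable {G : Type u} [Group G] {X : Type w} [MulAction G X]

/-- the components of the rows of `lam * N` -/
theorem exists_plus {r : X → X → Prop} (hr : RInv G r) (hU : UWP r) {I : Type u} [Fintype I]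
    [DecidableEq I] (x : I → X) (N : Matrix I I (MonoidAlgebra ℤ G)) (hN : Moves r x x N)
    {L : Type u} [Fintype L] [DecidableEq L] (l : L → X) (lam : Matrix L I (MonoidAlgebra ℤ G))
    (hlam : Moves (fun a b => b = a) l x lam) (n : ℕ) (h : lam * N ^ (n + 1) = 0) :
    ∃ (L' : Type u) (_ : Fintype L') (_ : DecidableEq L') (l' : L' → X)
      (lam' : Matrix L' I (MonoidAlgebra ℤ G)) (θ : Matrix L L' (MonoidAlgebra ℤ G)),
      (∀ i, ∃ (g : G) (j : I), l' i = g • x j) ∧ Moves (fun a b => b = a) l' x lam' ∧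
      Moves r l l' θ ∧ lam * N = θ * lam' ∧ lam' * N ^ n = 0 := by
  classical
  have hmov : Moves r l x (lam * N) := hlam.mul hr hN (fun a b t h1 h2 => by
    have h1' : b = a := h1
    rwa [← h1'])
  let L' : Type u := (i : L) × (j : I) × ((lam * N) i j).coeff.support
  let l' : L' → X := fun p => (p.2.2 : G) • x p.2.1
  let M : Matrix L' I (MonoidAlgebra ℤ G) := fun p j => (lam * N) p.1 j
  let lam' : Matrix L' I (MonoidAlgebra ℤ G) := res (fun a b => b = a) l' x M
  have hl'r : ∀ p : L', r (l p.1) (l' p) := by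
    intro p
    exact hmov p.1 p.2.1 p.2.2 (Finsupp.mem_support_iff.1 p.2.2.2)
  have hlocated : Moves (fun a b => b = a) l' x lam' := moves_res _ _ _ _
  obtain ⟨θ, hθ, hθ'⟩ := exists_located_lift (I := L') hr hmov hlocated (by
    intro i
    let Z : Finset X := (Finset.univ.filter (fun p : L' => p.1 = i)).image l'
    have hsec : ∀ z : X, ∃ p : Option L', (z ∈ Z → ∃ q, p = some q ∧ q.1 = i ∧ l' q = z) := by
      intro z
      by_cases hz : z ∈ Z
      · obtain ⟨q, hq, hq'⟩ := Finset.mem_image.1 hz
        exact ⟨some q, fun _ => ⟨q, rfl, (Finset.mem_filter.1 hq).2, hq'⟩⟩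
      · exact ⟨none, fun h => absurd h hz⟩
    choose sec hsec using hsec
    let T : Finset L' := Finset.univ.filter (fun p : L' => p.1 = i ∧ sec (l' p) = some p)
    refine ⟨fun p => if p ∈ T then 1 else 0, ?_⟩
    funext j
    apply MonoidAlgebra.coeff_injective
    ext g
    have h1 : vecMul (fun p => if p ∈ T then (1 : MonoidAlgebra ℤ G) else 0) lam' j =
        ∑ p ∈ T, lam' p j := by
      show ∑ p, (if p ∈ T then (1 : MonoidAlgebra ℤ G) else 0) * lam' p j = _
      simp only [ite_mul, one_mul, zero_mul, Finset.sum_ite_mem, Finset.univ_inter]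
    rw [h1, MonoidAlgebra.coeff_sum, Finsupp.finsetSum_apply]
    by_cases hc : ((lam * N) i j).coeff g = 0
    · rw [hc]
      symm
      refine Finset.sum_eq_zero fun p hp => ?_
      have hp1 : p.1 = i := (Finset.mem_filter.1 hp).2.1
      show (res (fun a b => b = a) l' x M p j).coeff g = 0
      rw [res_coeff]
      have : (M p j).coeff g = 0 := by
        show ((lam * N) p.1 j).coeff g = 0
        rw [hp1]
        exact hc
      rw [this, ite_self]
    · let p0 : L' := ⟨i, j, ⟨g, Finsupp.mem_support_iff.2 hc⟩⟩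
      have hz : l' p0 ∈ Z := Finset.mem_image.2 ⟨p0, by simp [p0], rfl⟩
      obtain ⟨q, hq, hq1, hq2⟩ := hsec (l' p0) hz
      have hqT : q ∈ T := by
        refine Finset.mem_filter.2 ⟨Finset.mem_univ _, hq1, ?_⟩
        rw [hq2]
        exact hq
      rw [Finset.sum_eq_single_of_mem q hqT]
      · show _ = (res (fun a b => b = a) l' x M q j).coeff g
        rw [res_coeff_pos M (c := fun a b => b = a) (by exact hq2.symm)]
        show _ = ((lam * N) q.1 j).coeff g
        rw [hq1]
      · intro p hp hpq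
        have hp1 := (Finset.mem_filter.1 hp).2
        show (res (fun a b => b = a) l' x M p j).coeff g = 0
        refine res_coeff_neg M (c := fun a b => b = a) ?_
        intro h2
        have h2' : l' p0 = l' p := h2
        apply hpq
        have h3 := hp1.2
        rw [← h2', hq] at h3
        exact (Option.some.inj h3).symm)
  refine ⟨L', inferInstance, inferInstance, l', lam', θ, fun p => ⟨p.2.2, p.2.1, rfl⟩, hlocated,
    hθ, hθ', ?_⟩
  -- the components are killed by `N ^ n`
  have hMN : M * N ^ n = 0 := by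
    refine Matrix.ext fun p k => ?_
    have h1 : (M * N ^ n) p k = ((lam * N) * N ^ n) p.1 k := rfl
    rw [h1, Matrix.mul_assoc, ← pow_succ', h]
    rfl
  let y : L' → X × X := fun p => (l p.1, l' p)
  have hMmov : Moves (fun (a : X × X) b => r a.1 b ∧ r a.1 a.2) y x M := by
    intro p j g hg
    exact ⟨hmov p.1 j g hg, hl'r p⟩
  have key := res_mul_of (c1 := fun (a : X × X) b => b = a.2)
    (e := fun (a : X × X) t => Wk r n a.2 t) hMmov (rInv_wk hr n) (hN.pow hr n)
    (fun a b t h1 h2 => by
      constructor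
      · intro h3
        rw [← h3]
        exact h2
      · intro h3
        exact hU.step n n a.1 b a.2 t h1.1 h1.2 h2 h3)
  rw [hMN, res_zero] at key
  exact key

theorem tower {r : X → X → Prop} (hr : RInv G r) (hU : UWP r) {I : Type u} [Fintype I]
    [DecidableEq I] (x : I → X) (hx : ∀ i, QX G (x i)) (N : Matrix I I (MonoidAlgebra ℤ G))
    (hN : Moves r x x N) (n : ℕ) :
    ∀ (L : Type u) [Fintype L] [DecidableEq L] (l : L → X),
      (∀ i, QX G (l i)) → ∀ lam : Matrix L I (MonoidAlgebra ℤ G),
      Moves (fun a b => b = a) l x lam → lam * N ^ n = 0 →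
      ∃ (K : Type u) (_ : Fintype K) (_ : DecidableEq K) (z : K → X) (k : ℕ)
        (ν : Matrix K K (MonoidAlgebra ℤ G)) (ε : Matrix K I (MonoidAlgebra ℤ G))
        (ρ : Matrix L K (MonoidAlgebra ℤ G)), (∀ i, QX G (z i)) ∧
        Moves (fun a b => b = a) z x ε ∧ Moves r z z ν ∧ ν * ε = ε * N ∧
        NRes G r k K I z ν ε ∧ lam = ρ * ε := by
  induction n with
  | zero =>
    intro L _ _ l hl lam hlam h
    rw [pow_zero, Matrix.mul_one] at h
    refine ⟨PEmpty, inferInstance, inferInstance, PEmpty.elim, 0, 0, 0, 0, fun i => i.elim,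
      fun i => i.elim, fun i => i.elim, Matrix.ext fun i => i.elim, ⟨?_, ?_⟩, ?_⟩
    · have h1 : (1 : Matrix PEmpty PEmpty (MonoidAlgebra ℤ G)) - 0 = 1 := sub_zero 1
      rw [h1]
      exact ⟨isUnit_one, cm_one⟩
    · intro v _
      funext i
      exact i.elim
    · rw [h, Matrix.zero_mul]
  | succ n ih =>
    intro L _ _ l hl lam hlam h
    obtain ⟨L', _, _, l', lam', θ, hl', hmov', hθ, hlamN, h0⟩ :=
      exists_plus hr hU x N hN l lam hlam n h
    obtain ⟨K1, _, _, z1, k1, ν1, ε1, ρ1, hz1, hε1, hν1, hνε, hres, hρ⟩ := ih L' l' (by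
      intro i
      obtain ⟨g, j, hj⟩ := hl' i
      rw [hj]
      exact qx_smul (hx j)) lam' hmov' h0
    have hmovN : Moves r l x (lam * N) := hlam.mul hr hN (fun a b t h1 h2 => by
      have h1' : b = a := h1
      rwa [← h1'])
    obtain ⟨θ', hθ', hθN⟩ := exists_located_lift hr hmovN hε1 (by
      intro i
      refine ⟨(θ * ρ1) i, ?_⟩
      rw [hlamN, hρ, ← Matrix.mul_assoc]
      rfl)
    -- the relative kernel
    have hz1l : ∀ i : L ⊕ K1, QX G (Sum.elim l z1 i) := by
      rintro (i | i)
      · exact hl i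
      · exact hz1 i
    have hrows : Moves (fun a b => b = a) (Sum.elim l z1) x (fromRows lam ε1) := by
      rintro (i | i) j g hg
      · exact hlam i j g hg
      · exact hε1 i j g hg
    obtain ⟨k2, hk2⟩ := exists_lres (Sum.elim l z1) hz1l x (fromRows lam ε1) hrows
    have hker : ∀ (w : L → MonoidAlgebra ℤ G) (t : K1 → MonoidAlgebra ℤ G),
        vecMul w lam = vecMul t ε1 ↔ vecMul (Sum.elim w (-t)) (fromRows lam ε1) = 0 := by
      intro w t
      rw [Matrix.sumElim_vecMul_fromRows, Matrix.neg_vecMul, ← sub_eq_add_neg, sub_eq_zero]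
    have hrel : ∃ m, RelRes G m l ε1 lam := by
      cases k2 with
      | zero =>
        refine ⟨0, ?_⟩
        rintro w ⟨t, ht⟩
        have h1 := hk2 _ ((hker w t).1 ht)
        funext i
        exact congrFun h1 (Sum.inl i)
      | succ k2 =>
        obtain ⟨K, _, _, z, B, hzQ, hB, hBex, hBres⟩ := hk2
        have hB1 : Moves (fun a b => b = a) z l (B.toCols₁) := by
          intro i j g hg
          exact hB i (Sum.inl j) g hg
        obtain ⟨m, hm⟩ := exists_lres z hzQ l B.toCols₁ hB1
        refine ⟨m + 1, K, inferInstance, inferInstance, z, B.toCols₁, hzQ, hB1, ?_, hm⟩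
        intro w
        constructor
        · rintro ⟨t, ht⟩
          obtain ⟨s, hs⟩ := (hBex _).1 ((hker w t).1 ht)
          refine ⟨s, ?_⟩
          funext i
          exact congrFun hs (Sum.inl i)
        · rintro ⟨s, hs⟩
          refine ⟨-(fun i => vecMul s B (Sum.inr i)), ?_⟩
          rw [hker, neg_neg]
          have h1 : Sum.elim w (fun i => vecMul s B (Sum.inr i)) = vecMul s B := by
            funext i
            rcases i with i | i
            · rw [hs]
              rfl
            · rfl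
          rw [h1]
          exact (hBex _).2 ⟨s, rfl⟩
    obtain ⟨m, hm⟩ := hrel
    obtain ⟨k', hk'⟩ := horseshoe hr m K1 L I z1 l x k1 ν1 ε1 N lam θ' hz1 hl hε1 hlam hν1 hN hθ'
      hνε hθN hres hm
    refine ⟨K1 ⊕ L, inferInstance, inferInstance, Sum.elim z1 l, k', fromBlocks ν1 0 θ' 0,
      fromRows ε1 lam, fromCols 0 1, ?_, ?_, ?_, ?_, hk', ?_⟩
    · rintro (i | i)
      · exact hz1 i
      · exact hl i
    · rintro (i | i) j g hg
      · exact hε1 i j g hg
      · exact hlam i j g hg
    · rintro (i | i) (j | j) g hg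
      · exact hν1 i j g hg
      · exact absurd rfl hg
      · exact hθ' i j g hg
      · exact absurd rfl hg
    · rw [Matrix.fromBlocks_mul_fromRows, Matrix.fromRows_mul, hνε, hθN]
      simp only [Matrix.zero_mul, add_zero]
    · rw [Matrix.fromCols_mul_fromRows, Matrix.zero_mul, Matrix.one_mul, zero_add]

theorem base_zero {r : X → X → Prop} (hr : RInv G r) (hU : UWP r) {I : Type u} [Fintype I]
    [DecidableEq I] (x : I → X) (hx : ∀ i, QX G (x i)) (N : Matrix I I (MonoidAlgebra ℤ G))
    (hN : Moves r x x N) (hnil : ∃ M, N ^ M = 0) : cm (1 - N) = 0 := by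
  obtain ⟨M, hM⟩ := hnil
  obtain ⟨K, _, _, z, k, ν, ε, ρ, hz, hε, hν, hνε, hres, hρ⟩ := tower hr hU x hx N hN M I x hx 1
    (moves_one x fun a => rfl) (by rw [hM, Matrix.mul_zero])
  refine pres_sum k K I ν ε 0 N ρ (pres_of_nres k K I z ν ε hres) hρ.symm hνε ?_
  exact IsNilpotent.isUnit_one_sub ⟨M, hM⟩

end Pool.Agent.Lib.MP_16fe43_al
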