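import Pool.Agent.Lib.MP_16fe43_al.Factor

/-!
# Matrices over twisted Laurent rings, linearisation
-/

set_option autoImplicit false

universe u v w

namespace Pool.Agent.Lib.MP_16fe43_al

open Matrix (fromBlocks fromRows fromCols)

/-- the scalar matrix as a unit -/
def scU {S : Type v} [Ring S] (ι : Type w) [Fintype ι] [DecidableEq ι] :
    Sˣ →* (Matrix ι ι S)ˣ :=
  Units.map (Matrix.scalar ι : S →+* Matrix ι ι S).toMonoidHom

theorem scU_val {S : Type v} [Ring S] (ι : Type w) [Fintype ι] [DecidableEq ι] (s : Sˣ) :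
    (scU ι s).val = Matrix.diagonal (fun _ => (s : S)) := rfl

theorem mul_scU {S : Type v} [Ring S] {ι : Type w} [Fintype ι] [DecidableEq ι] (s : Sˣ)
    (M : Matrix ι ι S) (a b : ι) : (M * (scU ι s).val) a b = M a b * s := by
  rw [scU_val, Matrix.mul_diagonal]

theorem scU_mul {S : Type v} [Ring S] {ι : Type w} [Fintype ι] [DecidableEq ι] (s : Sˣ)
    (M : Matrix ι ι S) (a b : ι) : ((scU ι s).val * M) a b = s * M a b := by
  rw [scU_val, Matrix.diagonal_mul]

namespace Tw

variable {R : Type u} {S : Type v} [Ring R] [Ring S] (T : Tw R S)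

/-- matrices over a twisted Laurent ring -/
def mat (ι : Type w) [Fintype ι] [DecidableEq ι] : Tw (Matrix ι ι R) (Matrix ι ι S) where
  j := T.j.mapMatrix
  t := scU ι T.t
  φ := T.φ.mapMatrix
  comm r := by
    ext a b
    rw [mul_scU, scU_mul]
    exact T.comm _
  co i := (T.co i).mapMatrix
  co_mono r k i := by
    ext a b
    rw [← map_zpow]
    show T.co i ((r.map T.j * (scU ι (T.t ^ k)).val) a b) = _
    rw [mul_scU, Matrix.map_apply, T.co_mono]
    split_ifs <;> rfl
  span s := by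
    choose F hF using fun (a b : ι) => T.span' (s a b)
    refine ⟨Finset.univ.biUnion fun a => Finset.univ.biUnion fun b => F a b, ?_⟩
    ext a b
    have h := hF a b (Finset.univ.biUnion fun a => Finset.univ.biUnion fun b => F a b) (by
      intro x hx
      simp only [Finset.mem_biUnion, Finset.mem_univ, true_and]
      exact ⟨a, b, hx⟩)
    rw [Matrix.sum_apply]
    conv_lhs => rw [h]
    refine Finset.sum_congr rfl ?_
    intro i _
    rw [← map_zpow, mul_scU]
    rfl

theorem mat_t_val (ι : Type w) [Fintype ι] [DecidableEq ι] :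
    (((T.mat ι).t : (Matrix ι ι S)ˣ) : Matrix ι ι S) = Matrix.diagonal (fun _ => (T.t : S)) := rfl

theorem mat_j (ι : Type w) [Fintype ι] [DecidableEq ι] (A : Matrix ι ι R) :
    (T.mat ι).j A = A.map T.j := rfl

theorem mat_φ (ι : Type w) [Fintype ι] [DecidableEq ι] (A : Matrix ι ι R) :
    (T.mat ι).φ A = A.map T.φ := rfl

theorem mat_ge {ι : Type w} [Fintype ι] [DecidableEq ι] {a : ℤ} {M : Matrix ι ι S} :
    (T.mat ι).Ge a M ↔ ∀ x y, T.Ge a (M x y) := by
  constructor
  · intro h x y i hi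
    exact congrFun (congrFun (h i hi) x) y
  · intro h i hi
    ext x y
    exact h x y i hi

theorem mat_le {ι : Type w} [Fintype ι] [DecidableEq ι] {a : ℤ} {M : Matrix ι ι S} :
    (T.mat ι).Le a M ↔ ∀ x y, T.Le a (M x y) := by
  constructor
  · intro h x y i hi
    exact congrFun (congrFun (h i hi) x) y
  · intro h i hi
    ext x y
    exact h x y i hi

/-- the powers of `t` as matrices -/
theorem isUnit_tz (ι : Type w) [Fintype ι] [DecidableEq ι] (k : ℤ) :
    IsUnit ((((T.mat ι).t ^ k : (Matrix ι ι S)ˣ)) : Matrix ι ι S) := Units.isUnit _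

/-- Higman linearisation -/
theorem linearise (d : ℕ) : ∀ (ι : Type) [Fintype ι] [DecidableEq ι] (P : Matrix ι ι S),
    IsUnit P → (T.mat ι).Ge 0 P → (T.mat ι).Le (d + 1 : ℕ) P →
    ∃ (κ : Type) (_ : Fintype κ) (_ : DecidableEq κ) (B : Matrix κ κ S),
      IsUnit B ∧ (T.mat κ).Ge 0 B ∧ (T.mat κ).Le 1 B ∧ cm P = cm B := by
  induction d with
  | zero =>
    intro ι _ _ P hP h0 h1
    exact ⟨ι, inferInstance, inferInstance, P, hP, h0, by simpa using h1, rfl⟩
  | succ d ih =>
    intro ι _ _ P hP h0 h1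
    set Q := (T.mat ι).j ((T.mat ι).co (d + 1 + 1 : ℕ) P) *
      (((T.mat ι).t ^ ((d + 1 : ℕ) : ℤ) : (Matrix ι ι S)ˣ) : Matrix ι ι S) with hQ
    set t := (((T.mat ι).t : (Matrix ι ι S)ˣ) : Matrix ι ι S) with ht
    have hQt : Q * t = (T.mat ι).j ((T.mat ι).co (d + 1 + 1 : ℕ) P) *
      (((T.mat ι).t ^ ((d + 1 + 1 : ℕ) : ℤ) : (Matrix ι ι S)ˣ) : Matrix ι ι S) := by
      rw [hQ, ht, mul_assoc, ← Units.val_mul, ← zpow_add_one]
      push_cast
      rfl
    set P0 := P - Q * t with hP0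
    set M : Matrix (ι ⊕ ι) (ι ⊕ ι) S := fromBlocks P0 Q (-t) 1 with hM
    have hmul : fromBlocks 1 (-Q) 0 1 * M = fromBlocks P 0 (-t) 1 := by
      rw [hM, Matrix.fromBlocks_multiply]
      congr 1
      · rw [hP0]; simp
      · simp
      · simp
      · simp
    have hU : IsUnit (fromBlocks 1 (-Q) 0 1 : Matrix (ι ⊕ ι) (ι ⊕ ι) S) :=
      isUnit_fromBlocks_upper _ isUnit_one isUnit_one
    have hL : IsUnit (fromBlocks P 0 (-t) 1 : Matrix (ι ⊕ ι) (ι ⊕ ι) S) :=
      isUnit_fromBlocks_lower _ hP isUnit_one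
    have hMu : IsUnit M := by
      obtain ⟨u, hu⟩ := hU
      have : M = u.inv * fromBlocks P 0 (-t) 1 := by
        rw [← hmul, ← hu, ← mul_assoc]
        simp
      rw [this]
      exact (Units.isUnit u⁻¹).mul hL
    have hcm : cm P = cm M := by
      have h3 := congrArg cm hmul
      rw [cm_mul hU hMu, cm_fromBlocks_upper _ isUnit_one isUnit_one,
        cm_fromBlocks_lower _ hP isUnit_one] at h3
      simpa using h3.symm
    have hM0 : (T.mat (ι ⊕ ι)).Ge 0 M := by
      have hQ0 : (T.mat ι).Ge 0 Q := by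
        have h5 := ((T.mat ι).ge_j ((T.mat ι).co (d + 1 + 1 : ℕ) P)).mul
          ((T.mat ι).ge_zpow ((d + 1 : ℕ) : ℤ))
        exact h5.mono (by push_cast; omega)
      have ht0 : (T.mat ι).Ge 0 t := (T.mat ι).ge_t.mono (by norm_num)
      have hP00 : (T.mat ι).Ge 0 P0 := by
        refine h0.sub ?_
        simpa using hQ0.mul ht0
      have h10 : (T.mat ι).Ge 0 1 := by simpa using (T.mat ι).ge_j 1
      rw [T.mat_ge] at *
      rintro (x | x) (y | y)
      · exact hP00 x y
      · exact hQ0 x y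
      · exact (T.mat_ge.1 ((T.mat ι).ge_t.mono (by norm_num) : (T.mat ι).Ge 0 t) x y).neg
      · exact h10 x y
    have hM1 : (T.mat (ι ⊕ ι)).Le (d + 1 : ℕ) M := by
      have hQ0 : (T.mat ι).Le (d + 1 : ℕ) Q := by
        have h5 := ((T.mat ι).le_j ((T.mat ι).co (d + 1 + 1 : ℕ) P)).mul
          ((T.mat ι).le_zpow ((d + 1 : ℕ) : ℤ))
        rw [zero_add] at h5
        exact h5
      have ht0 : (T.mat ι).Le (d + 1 : ℕ) t := (T.mat ι).le_t.mono (by push_cast; omega)
      have h10 : (T.mat ι).Le (d + 1 : ℕ) 1 := by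
        have := (T.mat ι).le_j 1
        rw [map_one] at this
        exact this.mono (by push_cast; omega)
      have hP00 : (T.mat ι).Le (d + 1 : ℕ) P0 := by
        intro i hi
        by_cases h6 : i = (d + 1 + 1 : ℕ)
        · rw [hP0, map_sub, hQt, (T.mat ι).co_mono, if_pos h6, h6, sub_self]
        · rw [hP0, map_sub, hQt, (T.mat ι).co_mono, if_neg h6, sub_zero]
          refine h1 i ?_
          push_cast at hi h6 ⊢
          omega
      rw [T.mat_le] at *
      rintro (x | x) (y | y)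
      · exact hP00 x y
      · exact hQ0 x y
      · exact (ht0 x y).neg
      · exact h10 x y
    obtain ⟨κ, i1, i2, B, hB, hB0, hB1, hB2⟩ := ih (ι ⊕ ι) M hMu hM0 hM1
    exact ⟨κ, i1, i2, B, hB, hB0, hB1, hcm.trans hB2⟩

end Tw

end Pool.Agent.Lib.MP_16fe43_al
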