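import Pool.Agent.Lib.MP_16fe43_al.K1

/-!
# Abstract twisted Laurent polynomial rings
-/

set_option autoImplicit false

universe u v w



namespace Pool.Agent.Lib.MP_16fe43_al

/-- `S` is the twisted Laurent ring `R_φ[t, t⁻¹]`, with `t r = φ(r) t`. -/
structure Tw (R : Type u) (S : Type v) [Ring R] [Ring S] where
  /-- the inclusion -/
  j : R →+* S
  /-- the variable -/
  t : Sˣ
  /-- the automorphism -/
  φ : RingAut R
  comm : ∀ r : R, (t : S) * j r = j (φ r) * (t : S)
  /-- the coefficients -/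
  co : ℤ → S →+ R
  co_mono : ∀ (r : R) (k i : ℤ), co i (j r * ((t ^ k : Sˣ) : S)) = if i = k then r else 0
  span : ∀ s : S, ∃ F : Finset ℤ, s = ∑ i ∈ F, j (co i s) * ((t ^ i : Sˣ) : S)

namespace Tw

variable {R : Type u} {S : Type v} [Ring R] [Ring S] (T : Tw R S)

theorem co_eq_zero {s : S} {F : Finset ℤ} (h : s = ∑ i ∈ F, T.j (T.co i s) * ((T.t ^ i : Sˣ) : S))
    {i : ℤ} (hi : i ∉ F) : T.co i s = 0 := by
  have h1 := congrArg (T.co i) h
  rw [map_sum] at h1
  rw [h1]
  refine Finset.sum_eq_zero ?_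
  intro k hk
  rw [T.co_mono, if_neg]
  rintro rfl
  exact hi hk

theorem span' (s : S) : ∃ F : Finset ℤ, ∀ F' : Finset ℤ, F ⊆ F' →
    s = ∑ i ∈ F', T.j (T.co i s) * ((T.t ^ i : Sˣ) : S) := by
  obtain ⟨F, hF⟩ := T.span s
  refine ⟨F, fun F' h => ?_⟩
  conv_lhs => rw [hF]
  refine Finset.sum_subset h ?_
  intro i _ hi
  rw [T.co_eq_zero hF hi, map_zero, zero_mul]

theorem ext_co {s s' : S} (h : ∀ i, T.co i s = T.co i s') : s = s' := by
  obtain ⟨F, hF⟩ := T.span' s
  obtain ⟨F', hF'⟩ := T.span' s'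
  rw [hF (F ∪ F') Finset.subset_union_left, hF' (F ∪ F') Finset.subset_union_right]
  refine Finset.sum_congr rfl ?_
  intro i _
  rw [h i]

theorem zpow_comm (k : ℤ) (r : R) :
    ((T.t ^ k : Sˣ) : S) * T.j r = T.j ((T.φ ^ k) r) * ((T.t ^ k : Sˣ) : S) := by
  induction k using Int.induction_on generalizing r with
  | zero => simp
  | succ n ih =>
    rw [zpow_add_one, Units.val_mul, mul_assoc, T.comm, ← mul_assoc, ih, zpow_add_one, mul_assoc]
    rfl
  | pred n ih =>
    have h1 : ((T.t⁻¹ : Sˣ) : S) * T.j r = T.j (T.φ⁻¹ r) * ((T.t⁻¹ : Sˣ) : S) := by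
      have h2 := T.comm (T.φ⁻¹ r)
      have h3 : T.φ (T.φ⁻¹ r) = r := T.φ.apply_symm_apply r
      rw [h3] at h2
      calc ((T.t⁻¹ : Sˣ) : S) * T.j r
          = ((T.t⁻¹ : Sˣ) : S) * (T.j r * T.t) * ((T.t⁻¹ : Sˣ) : S) := by
            rw [mul_assoc, mul_assoc, Units.mul_inv, mul_one]
        _ = _ := by rw [← h2, ← mul_assoc, Units.inv_mul, one_mul]
    rw [zpow_sub_one, Units.val_mul, mul_assoc, h1, ← mul_assoc, ih, zpow_sub_one, mul_assoc]
    rfl

theorem co_j_mul (i : ℤ) (r : R) (s : S) : T.co i (T.j r * s) = r * T.co i s := by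
  obtain ⟨F, hF⟩ := T.span' s
  have h := hF F (le_refl _)
  have h1 : T.j r * s = ∑ k ∈ F, T.j (r * T.co k s) * ((T.t ^ k : Sˣ) : S) := by
    conv_lhs => rw [h]
    rw [Finset.mul_sum]
    refine Finset.sum_congr rfl ?_
    intro k _
    rw [map_mul, mul_assoc]
  rw [h1, map_sum]
  by_cases hi : i ∈ F
  · rw [Finset.sum_eq_single i]
    · rw [T.co_mono, if_pos rfl]
    · intro k _ hk
      rw [T.co_mono, if_neg (Ne.symm hk)]
    · intro h2; exact absurd hi h2
  · rw [T.co_eq_zero h hi, mul_zero]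
    refine Finset.sum_eq_zero ?_
    intro k hk
    rw [T.co_mono, if_neg]
    rintro rfl
    exact hi hk

theorem co_mul_zpow (i k : ℤ) (s : S) : T.co i (s * ((T.t ^ k : Sˣ) : S)) = T.co (i - k) s := by
  obtain ⟨F, hF⟩ := T.span' s
  have h := hF F (le_refl _)
  have h1 : s * ((T.t ^ k : Sˣ) : S) = ∑ l ∈ F, T.j (T.co l s) * ((T.t ^ (l + k) : Sˣ) : S) := by
    conv_lhs => rw [h]
    rw [Finset.sum_mul]
    refine Finset.sum_congr rfl ?_
    intro l _
    rw [mul_assoc, ← Units.val_mul, ← zpow_add]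
  rw [h1, map_sum]
  by_cases hi : i - k ∈ F
  · rw [Finset.sum_eq_single (i - k)]
    · rw [T.co_mono, if_pos (by ring)]
    · intro l _ hl
      rw [T.co_mono, if_neg]
      intro h2; apply hl; rw [h2]; ring
    · intro h2; exact absurd hi h2
  · rw [T.co_eq_zero h hi]
    refine Finset.sum_eq_zero ?_
    intro l hl
    rw [T.co_mono, if_neg]
    rintro rfl
    apply hi
    simpa using hl

theorem co_zpow_mul (i k : ℤ) (s : S) :
    T.co i (((T.t ^ k : Sˣ) : S) * s) = (T.φ ^ k) (T.co (i - k) s) := by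
  obtain ⟨F, hF⟩ := T.span' s
  have h := hF F (le_refl _)
  have h1 : ((T.t ^ k : Sˣ) : S) * s =
      ∑ l ∈ F, T.j ((T.φ ^ k) (T.co l s)) * ((T.t ^ (l + k) : Sˣ) : S) := by
    conv_lhs => rw [h]
    rw [Finset.mul_sum]
    refine Finset.sum_congr rfl ?_
    intro l _
    rw [← mul_assoc, T.zpow_comm, mul_assoc, ← Units.val_mul, ← zpow_add, add_comm]
  rw [h1, map_sum]
  by_cases hi : i - k ∈ F
  · rw [Finset.sum_eq_single (i - k)]
    · rw [T.co_mono, if_pos (by ring)]
    · intro l _ hl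
      rw [T.co_mono, if_neg]
      intro h2; apply hl; rw [h2]; ring
    · intro h2; exact absurd hi h2
  · rw [T.co_eq_zero h hi, map_zero]
    refine Finset.sum_eq_zero ?_
    intro l hl
    rw [T.co_mono, if_neg]
    rintro rfl
    apply hi
    simpa using hl

theorem co_mul_j (i : ℤ) (s : S) (r : R) : T.co i (s * T.j r) = T.co i s * (T.φ ^ i) r := by
  obtain ⟨F, hF⟩ := T.span' s
  have h := hF F (le_refl _)
  have h1 : s * T.j r = ∑ l ∈ F, T.j (T.co l s * (T.φ ^ l) r) * ((T.t ^ l : Sˣ) : S) := by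
    conv_lhs => rw [h]
    rw [Finset.sum_mul]
    refine Finset.sum_congr rfl ?_
    intro l _
    rw [mul_assoc, T.zpow_comm, ← mul_assoc, ← map_mul]
  rw [h1, map_sum]
  by_cases hi : i ∈ F
  · rw [Finset.sum_eq_single i]
    · rw [T.co_mono, if_pos rfl]
    · intro k _ hk
      rw [T.co_mono, if_neg (Ne.symm hk)]
    · intro h2; exact absurd hi h2
  · rw [T.co_eq_zero h hi, zero_mul]
    refine Finset.sum_eq_zero ?_
    intro k hk
    rw [T.co_mono, if_neg]
    rintro rfl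
    exact hi hk

theorem co_j (i : ℤ) (r : R) : T.co i (T.j r) = if i = 0 then r else 0 := by
  have := T.co_mono r 0 i
  simpa using this

theorem co_one (i : ℤ) : T.co i 1 = if i = 0 then 1 else 0 := by
  have := T.co_j i 1
  simpa using this

/-- degree `≥ a` -/
def Ge (a : ℤ) (s : S) : Prop := ∀ i < a, T.co i s = 0

/-- degree `≤ b` -/
def Le (b : ℤ) (s : S) : Prop := ∀ i, b < i → T.co i s = 0

theorem co_mul (n : ℤ) (s s' : S) : ∃ F : Finset ℤ,
    T.co n (s * s') = ∑ k ∈ F, T.co k s * (T.φ ^ k) (T.co (n - k) s') := by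
  obtain ⟨F, hF⟩ := T.span s
  refine ⟨F, ?_⟩
  have : s * s' = ∑ k ∈ F, T.j (T.co k s) * (((T.t ^ k : Sˣ) : S) * s') := by
    conv_lhs => rw [hF]
    rw [Finset.sum_mul]
    refine Finset.sum_congr rfl ?_
    intro k _
    rw [mul_assoc]
  rw [this, map_sum]
  refine Finset.sum_congr rfl ?_
  intro k _
  rw [T.co_j_mul, T.co_zpow_mul]

variable {T}

theorem Ge.mul {a b : ℤ} {s s' : S} (h : T.Ge a s) (h' : T.Ge b s') : T.Ge (a + b) (s * s') := by
  intro i hi
  obtain ⟨F, hF⟩ := T.co_mul i s s'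
  rw [hF]
  refine Finset.sum_eq_zero ?_
  intro k _
  by_cases hk : k < a
  · rw [h k hk, zero_mul]
  · rw [h' (i - k) (by omega), map_zero, mul_zero]

theorem Le.mul {a b : ℤ} {s s' : S} (h : T.Le a s) (h' : T.Le b s') : T.Le (a + b) (s * s') := by
  intro i hi
  obtain ⟨F, hF⟩ := T.co_mul i s s'
  rw [hF]
  refine Finset.sum_eq_zero ?_
  intro k _
  by_cases hk : a < k
  · rw [h k hk, zero_mul]
  · rw [h' (i - k) (by omega), map_zero, mul_zero]

theorem Ge.add {a : ℤ} {s s' : S} (h : T.Ge a s) (h' : T.Ge a s') : T.Ge a (s + s') := by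
  intro i hi
  rw [map_add, h i hi, h' i hi, add_zero]

theorem Le.add {a : ℤ} {s s' : S} (h : T.Le a s) (h' : T.Le a s') : T.Le a (s + s') := by
  intro i hi
  rw [map_add, h i hi, h' i hi, add_zero]

theorem Ge.sub {a : ℤ} {s s' : S} (h : T.Ge a s) (h' : T.Ge a s') : T.Ge a (s - s') := by
  intro i hi
  rw [map_sub, h i hi, h' i hi, sub_zero]

theorem Le.sub {a : ℤ} {s s' : S} (h : T.Le a s) (h' : T.Le a s') : T.Le a (s - s') := by
  intro i hi
  rw [map_sub, h i hi, h' i hi, sub_zero]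

theorem Ge.neg {a : ℤ} {s : S} (h : T.Ge a s) : T.Ge a (-s) := by
  intro i hi
  rw [map_neg, h i hi, neg_zero]

theorem Le.neg {a : ℤ} {s : S} (h : T.Le a s) : T.Le a (-s) := by
  intro i hi
  rw [map_neg, h i hi, neg_zero]

theorem Ge.mono {a b : ℤ} (hab : b ≤ a) {s : S} (h : T.Ge a s) : T.Ge b s :=
  fun i hi => h i (by omega)

theorem Le.mono {a b : ℤ} (hab : a ≤ b) {s : S} (h : T.Le a s) : T.Le b s :=
  fun i hi => h i (by omega)

theorem eq_zero_of {a b : ℤ} (hab : b < a) {s : S} (h : T.Ge a s) (h' : T.Le b s) : s = 0 := by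
  refine T.ext_co fun i => ?_
  rw [map_zero]
  by_cases hi : i < a
  · exact h i hi
  · exact h' i (by omega)

variable (T)

theorem ge_j (r : R) : T.Ge 0 (T.j r) := fun i hi => by rw [T.co_j, if_neg (by omega)]

theorem le_j (r : R) : T.Le 0 (T.j r) := fun i hi => by rw [T.co_j, if_neg (by omega)]

theorem ge_zpow (k : ℤ) : T.Ge k ((T.t ^ k : Sˣ) : S) := fun i hi => by
  have := T.co_mul_zpow i k 1
  rw [one_mul] at this
  rw [this, T.co_one, if_neg (by omega)]

theorem le_zpow (k : ℤ) : T.Le k ((T.t ^ k : Sˣ) : S) := fun i hi => by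
  have := T.co_mul_zpow i k 1
  rw [one_mul] at this
  rw [this, T.co_one, if_neg (by omega)]

theorem ge_t : T.Ge 1 (T.t : S) := by simpa using T.ge_zpow 1

theorem le_t : T.Le 1 (T.t : S) := by simpa using T.le_zpow 1

theorem exists_le (s : S) : ∃ q : ℤ, 0 ≤ q ∧ T.Le q s := by
  obtain ⟨F, hF⟩ := T.span s
  refine ⟨∑ i ∈ F, |i|, Finset.sum_nonneg fun i _ => abs_nonneg i, fun i hi => ?_⟩
  refine T.co_eq_zero hF ?_
  intro h
  have h1 : |i| ≤ ∑ i ∈ F, |i| := Finset.single_le_sum (fun i _ => abs_nonneg i) h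
  have := le_abs_self i
  omega

theorem exists_ge (s : S) : ∃ q : ℤ, q ≤ 0 ∧ T.Ge q s := by
  obtain ⟨F, hF⟩ := T.span s
  refine ⟨-∑ i ∈ F, |i|, by
    have := Finset.sum_nonneg (s := F) (f := fun i : ℤ => |i|) fun i _ => abs_nonneg i
    omega, fun i hi => ?_⟩
  refine T.co_eq_zero hF ?_
  intro h
  have h1 : |i| ≤ ∑ i ∈ F, |i| := Finset.single_le_sum (fun i _ => abs_nonneg i) h
  have := neg_abs_le i
  omega

theorem eq_j {s : S} (h : T.Ge 0 s) (h' : T.Le 0 s) : s = T.j (T.co 0 s) := by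
  refine T.ext_co fun i => ?_
  rw [T.co_j]
  split_ifs with hi
  · rw [hi]
  · rcases lt_or_gt_of_ne hi with h1 | h1
    · exact h i h1
    · exact h' i h1

theorem exists_pos (s : S) : ∃ p : S, T.Ge 0 p ∧ T.Le (-1) (s - p) := by
  obtain ⟨F, hF⟩ := T.span s
  refine ⟨∑ i ∈ F.filter (fun i => 0 ≤ i), T.j (T.co i s) * ((T.t ^ i : Sˣ) : S), ?_, ?_⟩
  · intro i hi
    rw [map_sum]
    refine Finset.sum_eq_zero ?_
    intro k hk
    rw [T.co_mono, if_neg]
    have := (Finset.mem_filter.1 hk).2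
    omega
  · intro i hi
    have h1 : s - ∑ i ∈ F.filter (fun i => 0 ≤ i), T.j (T.co i s) * ((T.t ^ i : Sˣ) : S) =
        ∑ i ∈ F.filter (fun i => ¬ 0 ≤ i), T.j (T.co i s) * ((T.t ^ i : Sˣ) : S) := by
      conv_lhs => rw [hF]
      have h2 := Finset.sum_filter_add_sum_filter_not F (fun i : ℤ => 0 ≤ i)
        (fun i => T.j (T.co i s) * ((T.t ^ i : Sˣ) : S))
      conv_lhs =>
        arg 1
        rw [← h2]
      have h3 : ∑ i ∈ F.filter (fun i => 0 ≤ i), T.j (T.co i (∑ i ∈ F, T.j (T.co i s) *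
          ((T.t ^ i : Sˣ) : S))) * ((T.t ^ i : Sˣ) : S) =
          ∑ i ∈ F.filter (fun i => 0 ≤ i), T.j (T.co i s) * ((T.t ^ i : Sˣ) : S) := by
        rw [← hF]
      rw [h3]
      abel
    rw [h1, map_sum]
    refine Finset.sum_eq_zero ?_
    intro k hk
    rw [T.co_mono, if_neg]
    have := (Finset.mem_filter.1 hk).2
    omega

/-- the opposite orientation -/
def symm : Tw R S where
  j := T.j
  t := T.t⁻¹
  φ := T.φ⁻¹
  comm r := by
    have := T.zpow_comm (-1) r
    simpa using this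
  co i := T.co (-i)
  co_mono r k i := by
    rw [inv_zpow', T.co_mono]
    simp only [neg_inj]
  span s := by
    obtain ⟨F, hF⟩ := T.span s
    refine ⟨F.image (fun i => -i), ?_⟩
    rw [Finset.sum_image (by intro a _ b _ h; simpa using h)]
    simpa using hF

theorem symm_ge {a : ℤ} {s : S} : T.symm.Ge a s ↔ T.Le (-a) s := by
  constructor
  · intro h i hi
    have := h (-i) (by omega)
    simpa [symm] using this
  · intro h i hi
    exact h (-i) (by omega)

theorem symm_le {a : ℤ} {s : S} : T.symm.Le a s ↔ T.Ge (-a) s := by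
  constructor
  · intro h i hi
    have := h (-i) (by omega)
    simpa [symm] using this
  · intro h i hi
    exact h (-i) (by omega)

/-- a unit `1 + a` with `a` homogeneous of degree one and inverse of degree `≥ 0` has `a`
nilpotent. -/
theorem nilpotent_of {a d : S} (ha : T.Ge 1 a) (ha' : T.Le 1 a) (h1 : (1 + a) * d = 1)
    (h2 : d * (1 + a) = 1) (hd : T.Ge 0 d) : IsNilpotent a := by
  obtain ⟨q, hq0, hq⟩ := T.exists_le d
  obtain ⟨m, rfl⟩ : ∃ m : ℕ, q = m := ⟨q.toNat, by omega⟩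
  have hpow_ge : ∀ n : ℕ, T.Ge n ((-a) ^ n) := by
    intro n
    induction n with
    | zero => simpa using T.ge_j 1
    | succ n ih =>
      rw [pow_succ]
      have := ih.mul ha.neg
      push_cast
      exact this
  have hpow_le : ∀ n : ℕ, T.Le n ((-a) ^ n) := by
    intro n
    induction n with
    | zero => simpa using T.le_j 1
    | succ n ih =>
      rw [pow_succ]
      have := ih.mul ha'.neg
      push_cast
      exact this
  have hgeom : d * (-a) ^ (m + 1) = d - ∑ i ∈ Finset.range (m + 1), (-a) ^ i := by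
    have h3 : (1 + a) * ∑ i ∈ Finset.range (m + 1), (-a) ^ i = 1 - (-a) ^ (m + 1) := by
      have := mul_neg_geom_sum (-a) (m + 1)
      rw [sub_neg_eq_add] at this
      exact this
    have h4 : d * ((1 + a) * ∑ i ∈ Finset.range (m + 1), (-a) ^ i) =
        ∑ i ∈ Finset.range (m + 1), (-a) ^ i := by
      rw [← mul_assoc, h2, one_mul]
    rw [h3, mul_sub, mul_one] at h4
    rw [← h4]; abel
  have hz : d * (-a) ^ (m + 1) = 0 := by
    refine eq_zero_of (T := T) (a := (m : ℤ) + 1) (b := m) (by omega) ?_ ?_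
    · have := hd.mul (hpow_ge (m + 1))
      push_cast at this
      simpa using this
    · rw [hgeom]
      refine hq.sub ?_
      intro i hi
      rw [map_sum]
      refine Finset.sum_eq_zero ?_
      intro k hk
      have hk' := Finset.mem_range.1 hk
      exact hpow_le k i (by omega)
  have hz2 : (-a) ^ (m + 1) = 0 := by
    calc (-a) ^ (m + 1) = ((1 + a) * d) * (-a) ^ (m + 1) := by rw [h1, one_mul]
      _ = 0 := by rw [mul_assoc, hz, mul_zero]
  refine ⟨m + 1, ?_⟩
  rw [neg_pow] at hz2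
  rcases Nat.even_or_odd (m + 1) with h | h
  · simpa [h.neg_one_pow] using hz2
  · simpa [h.neg_one_pow] using hz2

end Tw

end Pool.Agent.Lib.MP_16fe43_al
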