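import Pool.Agent.Lib.MP_16fe43_al.NilDet
import Pool.Agent.Lib.MP_16fe43_al.WhWreath2

/-!
# The Whitehead group of `(H ≀ ℤ) × K`
-/

set_option autoImplicit false

universe u v w

namespace Pool.Agent.Lib.MP_16fe43_al

open MonoidAlgebra Filter
open Matrix (fromBlocks)

section curry

variable (K : Type v) [Group K] (L : Type u) [Group L]

/-- `(ℤK)L → ℤ(L × K)` -/
noncomputable def thR : MonoidAlgebra (MonoidAlgebra ℤ K) L →+* MonoidAlgebra ℤ (L × K) :=
  ((curryRingEquiv (R := ℤ) (M := L) (N := K)).symm : MonoidAlgebra (MonoidAlgebra ℤ K) L →+*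
    MonoidAlgebra ℤ (L × K))

/-- `ℤ(L × K) → (ℤK)L` -/
noncomputable def thI : MonoidAlgebra ℤ (L × K) →+* MonoidAlgebra (MonoidAlgebra ℤ K) L :=
  ((curryRingEquiv (R := ℤ) (M := L) (N := K)) : MonoidAlgebra ℤ (L × K) →+*
    MonoidAlgebra (MonoidAlgebra ℤ K) L)

variable {K L}

theorem thR_thI (x : MonoidAlgebra ℤ (L × K)) : thR K L (thI K L x) = x :=
  (curryRingEquiv (R := ℤ) (M := L) (N := K)).symm_apply_apply x

theorem thI_thR (x : MonoidAlgebra (MonoidAlgebra ℤ K) L) : thI K L (thR K L x) = x :=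
  (curryRingEquiv (R := ℤ) (M := L) (N := K)).apply_symm_apply x

theorem thI_single (l : L) (κ : K) (c : ℤ) : thI K L (single (l, κ) c) =
    single l (single κ c) := curryRingEquiv_single l κ c

theorem thI_nat {L' : Type w} [Group L'] (f : L →* L') (x : MonoidAlgebra ℤ (L × K)) :
    mapDomainRingHom (MonoidAlgebra ℤ K) f (thI K L x) =
      thI K L' (mapDomainRingHom ℤ (f.prodMap (MonoidHom.id K)) x) := by
  induction x using MonoidAlgebra.induction_linear with
  | zero => simp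
  | add x y hx hy => rw [map_add, map_add, hx, hy, map_add, map_add]
  | single g c =>
    obtain ⟨l, κ⟩ := g
    rw [thI_single]
    have h1 : mapDomainRingHom ℤ (f.prodMap (MonoidHom.id K)) (single (l, κ) c) =
      single (f l, κ) c := by simp
    rw [h1, thI_single]
    simp

theorem thR_nat {L' : Type w} [Group L'] (f : L →* L')
    (x : MonoidAlgebra (MonoidAlgebra ℤ K) L) :
    thR K L' (mapDomainRingHom (MonoidAlgebra ℤ K) f x) =
      mapDomainRingHom ℤ (f.prodMap (MonoidHom.id K)) (thR K L x) := by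
  have h := thI_nat (K := K) f (thR K L x)
  rw [thI_thR] at h
  rw [h, thR_thI]

theorem K1_thI_thR (x : K1 (MonoidAlgebra (MonoidAlgebra ℤ K) L)) :
    K1.map (thI K L) (K1.map (thR K L) x) = x := by
  rw [← K1.map_comp]
  have : (thI K L).comp (thR K L) = RingHom.id _ := RingHom.ext fun x => thI_thR x
  rw [this, K1.map_id]

theorem K1_thR_thI (x : K1 (MonoidAlgebra ℤ (L × K))) :
    K1.map (thR K L) (K1.map (thI K L) x) = x := by
  rw [← K1.map_comp]
  have : (thR K L).comp (thI K L) = RingHom.id _ := RingHom.ext fun x => thR_thI x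
  rw [this, K1.map_id]

theorem K1_thI_nat {L' : Type w} [Group L'] (f : L →* L') (x : K1 (MonoidAlgebra ℤ (L × K))) :
    K1.map (mapDomainRingHom (MonoidAlgebra ℤ K) f) (K1.map (thI K L) x) =
      K1.map (thI K L') (K1.map (mapDomainRingHom ℤ (f.prodMap (MonoidHom.id K))) x) := by
  rw [← K1.map_comp, ← K1.map_comp]
  congr 2
  exact RingHom.ext fun x => thI_nat f x

theorem K1_thR_nat {L' : Type w} [Group L'] (f : L →* L')
    (x : K1 (MonoidAlgebra (MonoidAlgebra ℤ K) L)) :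
    K1.map (thR K L') (K1.map (mapDomainRingHom (MonoidAlgebra ℤ K) f) x) =
      K1.map (mapDomainRingHom ℤ (f.prodMap (MonoidHom.id K))) (K1.map (thR K L) x) := by
  rw [← K1.map_comp, ← K1.map_comp]
  congr 2
  exact RingHom.ext fun x => thR_nat f x

variable (K) in
/-- the class of `± (l, κ)` -/
noncomputable def trK (l : L) (κ : K) (ε : ℤˣ) : K1 (MonoidAlgebra (MonoidAlgebra ℤ K) L) :=
  K1.map (thI K L) (trC (l, κ) ε)

variable (K L) in
/-- the subgroup of trivial classes -/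
noncomputable def TUk : AddSubgroup (K1 (MonoidAlgebra (MonoidAlgebra ℤ K) L)) :=
  (TU (L × K)).comap (K1.map (thR K L))

theorem mem_TUk {x : K1 (MonoidAlgebra (MonoidAlgebra ℤ K) L)} :
    x ∈ TUk K L ↔ ∃ l κ ε, x = trK K l κ ε := by
  constructor
  · intro hx
    obtain ⟨⟨l, κ⟩, ε, h⟩ := mem_TU.1 (show K1.map (thR K L) x ∈ TU (L × K) from hx)
    refine ⟨l, κ, ε, ?_⟩
    unfold trK
    rw [← h, K1_thI_thR]
  · rintro ⟨l, κ, ε, rfl⟩
    show K1.map (thR K L) (trK K l κ ε) ∈ TU (L × K)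
    unfold trK
    rw [K1_thR_thI]
    exact trC_mem _ _

theorem trK_mem (l : L) (κ : K) (ε : ℤˣ) : trK K l κ ε ∈ TUk K L := mem_TUk.2 ⟨l, κ, ε, rfl⟩

theorem trK_mul (l l' : L) (κ κ' : K) (ε ε' : ℤˣ) :
    trK K (l * l') (κ * κ') (ε * ε') = trK K l κ ε + trK K l' κ' ε' := by
  unfold trK
  rw [← map_add, ← trC_mul]
  rfl

theorem trK_map {L' : Type w} [Group L'] (f : L →* L') (l : L) (κ : K) (ε : ℤˣ) :
    K1.map (mapDomainRingHom (MonoidAlgebra ℤ K) f) (trK K l κ ε) = trK K (f l) κ ε := by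
  unfold trK
  rw [K1_thI_nat, trC_map]
  rfl

theorem TUk_map {L' : Type w} [Group L'] (f : L →* L')
    {x : K1 (MonoidAlgebra (MonoidAlgebra ℤ K) L)} (hx : x ∈ TUk K L) :
    K1.map (mapDomainRingHom (MonoidAlgebra ℤ K) f) x ∈ TUk K L' := by
  obtain ⟨l, κ, ε, rfl⟩ := mem_TUk.1 hx
  rw [trK_map]
  exact trK_mem _ _ _

end curry

section rel

variable {K : Type v} [Group K] {H : Type u} [Group H]

theorem tclk_eq : (TW (MonoidAlgebra ℤ K) H).tcl =
    trK K (SemidirectProduct.inr (Multiplicative.ofAdd 1) : Wr H) 1 1 := by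
  unfold Tw.tcl trK trC
  rw [cm_val, cl_gen, K1.map_gen]
  congr 1
  apply Units.ext
  show (scU (Fin 1) (TW (MonoidAlgebra ℤ K) H).t).val =
    (scU (Fin 1) (trU ((SemidirectProduct.inr (Multiplicative.ofAdd 1) : Wr H), (1 : K))
      1)).val.map (thI K (Wr H))
  rw [scU_val, scU_val, Matrix.diagonal_map (map_zero _)]
  congr 1
  funext i
  show single (SemidirectProduct.inr (Multiplicative.ofAdd 1) : Wr H) 1 =
    thI K (Wr H) (single ((SemidirectProduct.inr (Multiplicative.ofAdd 1) : Wr H), (1 : K))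
      ((1 : ℤˣ) : ℤ))
  rw [thI_single]
  rfl

theorem trK_left (f : FS H) (κ : K) (ε : ℤˣ) :
    K1.map (TW (MonoidAlgebra ℤ K) H).j (trK K f κ ε) =
      trK K (SemidirectProduct.inl f : Wr H) κ ε :=
  trK_map (SemidirectProduct.inl : FS H →* Wr H) f κ ε

theorem trK_inr (m : ℤ) : trK K (SemidirectProduct.inr (Multiplicative.ofAdd m) : Wr H) 1 1 =
    m • (TW (MonoidAlgebra ℤ K) H).tcl := by
  have h1 : ∀ m n : ℤ, trK K (SemidirectProduct.inr (Multiplicative.ofAdd (m + n)) : Wr H) 1 1 =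
      trK K (SemidirectProduct.inr (Multiplicative.ofAdd m) : Wr H) 1 1 +
      trK K (SemidirectProduct.inr (Multiplicative.ofAdd n) : Wr H) 1 1 := by
    intro m n
    rw [← trK_mul, mul_one, mul_one, ← map_mul]
    rfl
  let F : ℤ →+ K1 (MonoidAlgebra (MonoidAlgebra ℤ K) (Wr H)) :=
    { toFun := fun m => trK K (SemidirectProduct.inr (Multiplicative.ofAdd m) : Wr H) 1 1
      map_zero' := by
        have := h1 0 0
        rw [add_zero] at this
        exact add_eq_left.1 this.symm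
      map_add' := h1 }
  have h2 : F m = m • F 1 := by
    rw [← map_zsmul]
    congr 1
    simp
  rw [tclk_eq]
  exact h2

theorem trK_eq (g : Wr H) (κ : K) (ε : ℤˣ) : trK K g κ ε =
    K1.map (TW (MonoidAlgebra ℤ K) H).j (trK K g.left κ ε) +
    (Multiplicative.toAdd g.right) • (TW (MonoidAlgebra ℤ K) H).tcl := by
  rw [trK_left, ← trK_inr, ← trK_mul, mul_one, mul_one]
  congr 1
  exact (SemidirectProduct.inl_left_mul_inr_right g).symm

/-- Nil vanishing for `k = ℤK` -/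
theorem nilZero_of_wh (h : ∀ m : ℕ, Subsingleton (BHS16.Wh (FreeGroup (Fin m) × K))) :
    NilZero (MonoidAlgebra ℤ K) H := by
  refine nilZero_of_free fun m n N hN => ?_
  have h1 : IsNilpotent (N.map (thR K (FreeGroup (Fin m)))) :=
    hN.map (thR K (FreeGroup (Fin m))).mapMatrix
  have h2 := unip_of_wh h1 (wh_subsingleton.1 (h m) _)
  have h3 : K1.map (thR K (FreeGroup (Fin m))) (cm (1 + N)) = 0 := by
    rw [K1.map_cm _ hN.isUnit_one_add, Matrix.map_add _ (fun a b => map_add _ a b),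
      Tw.map_one_matrix, h2]
  have h4 := K1_thI_thR (K := K) (L := FreeGroup (Fin m)) (cm (1 + N))
  rw [h3, map_zero] at h4
  exact h4.symm

theorem surj_TUk (hZ : Subsingleton (BHS16.Wh (K × Multiplicative ℤ)))
    (h : ∀ m : ℕ, Subsingleton (BHS16.Wh (FreeGroup (Fin m) × K)))
    (x : K1 (MonoidAlgebra (MonoidAlgebra ℤ K) (Wr H))) :
    ∃ y : K1 (MonoidAlgebra (MonoidAlgebra ℤ K) (FS H)),
      x - K1.map (TW (MonoidAlgebra ℤ K) H).j y ∈ TUk K (Wr H) := by
  have hx := gen_wr (stFree_of_K0Red (BHS16.subsingleton_K0Red K hZ)) (nilZero_of_wh h) x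
  unfold Tw.W at hx
  rw [AddSubgroup.mem_sup] at hx
  obtain ⟨_, ⟨y, rfl⟩, z, hz, rfl⟩ := hx
  refine ⟨y, ?_⟩
  rw [add_sub_cancel_left]
  obtain ⟨m, rfl⟩ := AddSubgroup.mem_zmultiples_iff.1 hz
  rw [← trK_inr]
  exact trK_mem _ _ _

theorem DD_of_TUk {x : K1 (MonoidAlgebra (MonoidAlgebra ℤ K) (FS H))}
    (hx : K1.map (TW (MonoidAlgebra ℤ K) H).j x ∈ TUk K (Wr H)) :
    ∃ z ∈ TUk K (FS H), ∀ (a : ℕ) (s s' : Set ℤ)
      (hs : s ⊆ Set.Icc (-(a : ℤ)) a) (hs' : s' ⊆ Set.Icc (-(a : ℤ)) a),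
        DD (MonoidAlgebra ℤ K) hs (K1.map (TW (MonoidAlgebra ℤ K) H).j (x - z)) =
        DD (MonoidAlgebra ℤ K) hs' (K1.map (TW (MonoidAlgebra ℤ K) H).j (x - z)) := by
  obtain ⟨g, κ, ε, hg⟩ := mem_TUk.1 hx
  refine ⟨trK K g.left κ ε, trK_mem _ _ _, fun a s s' hs hs' => ?_⟩
  rw [map_sub, hg, trK_eq, add_sub_cancel_left, map_zsmul, map_zsmul,
    DD_t (MonoidAlgebra ℤ K) hs hs']

theorem cst_memk {x : K1 (MonoidAlgebra (MonoidAlgebra ℤ K) (FS H))}
    (hx : K1.map (TW (MonoidAlgebra ℤ K) H).j x ∈ TUk K (Wr H)) :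
    cst x ∈ TUk K (FS H) := by
  have h1 := TUk_map (1 : Wr H →* FS H) hx
  have h2 : K1.map (mapDomainRingHom (MonoidAlgebra ℤ K) (1 : Wr H →* FS H))
      (K1.map (TW (MonoidAlgebra ℤ K) H).j x) = cst x := by
    show K1.map (mapDomainRingHom (MonoidAlgebra ℤ K) (1 : Wr H →* FS H))
      (K1.map (mapDomainRingHom (MonoidAlgebra ℤ K)
      (SemidirectProduct.inl : FS H →* Wr H)) x) = _
    rw [← K1.map_comp, ← mapDomainRingHom_comp]
    rfl
  rwa [h2] at h1

/-- If all classes over `(H ≀ ℤ) × K` are trivial, then so are those over `(⊕ H) × K`. -/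
theorem base_of_wrk (h : ∀ x : K1 (MonoidAlgebra (MonoidAlgebra ℤ K) (Wr H)), x ∈ TUk K (Wr H))
    (x : K1 (MonoidAlgebra (MonoidAlgebra ℤ K) (FS H))) : x ∈ TUk K (FS H) := by
  have h1 := sub_cst_mem (TUk K (FS H)) (fun ρ y hy => TUk_map ρ hy)
    (fun y => DD_of_TUk (h _)) x
  have h2 := (TUk K (FS H)).add_mem h1 (cst_memk (h (K1.map (TW (MonoidAlgebra ℤ K) H).j x)))
  rwa [sub_add_cancel] at h2

theorem wh_subsingletonk {L : Type u} [Group L] :
    Subsingleton (BHS16.Wh (L × K)) ↔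
      ∀ x : K1 (MonoidAlgebra (MonoidAlgebra ℤ K) L), x ∈ TUk K L := by
  rw [wh_subsingleton]
  constructor
  · intro h x
    exact h _
  · intro h x
    have h1 : K1.map (thR K L) (K1.map (thI K L) x) ∈ TU (L × K) := h (K1.map (thI K L) x)
    rwa [K1_thR_thI] at h1

/-- Main relative theorem, first half. -/
theorem whk_of_base (hZ : Subsingleton (BHS16.Wh (K × Multiplicative ℤ)))
    (h : ∀ m : ℕ, Subsingleton (BHS16.Wh (FreeGroup (Fin m) × K)))
    (hH : ∀ m : ℕ, Subsingleton (BHS16.Wh ((Fin m → H) × K))) :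
    Subsingleton (BHS16.Wh (Wr H × K)) := by
  rw [wh_subsingletonk]
  intro x
  obtain ⟨y, hy⟩ := surj_TUk hZ h x
  have h1 : y ∈ TUk K (FS H) := by
    obtain ⟨w, hw⟩ := exists_win y
    have h2 := wh_subsingletonk.1 (hH (2 * w + 1))
      (K1.map (mapDomainRingHom (MonoidAlgebra ℤ K) (resW H w)) y)
    have h3 := TUk_map (embW H w) h2
    rw [← K1.map_comp, ← mapDomainRingHom_comp, embW_resW] at h3
    unfold Win at hw
    rwa [hw] at h3
  have h2 : K1.map (TW (MonoidAlgebra ℤ K) H).j y ∈ TUk K (Wr H) :=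
    TUk_map (SemidirectProduct.inl : FS H →* Wr H) h1
  have h3 := (TUk K (Wr H)).add_mem hy h2
  rwa [sub_add_cancel] at h3

/-- Main relative theorem, second half. -/
theorem base_of_whk (h : Subsingleton (BHS16.Wh (Wr H × K))) (m : ℕ) :
    Subsingleton (BHS16.Wh ((Fin (2 * m + 1) → H) × K)) := by
  rw [wh_subsingletonk] at h ⊢
  intro x
  have h1 := base_of_wrk h (K1.map (mapDomainRingHom (MonoidAlgebra ℤ K) (embW H m)) x)
  have h2 := TUk_map (resW H m) h1
  rwa [← K1.map_comp, ← mapDomainRingHom_comp, resW_embW, mapDomainRingHom_id, K1.map_id] at h2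

end rel

end Pool.Agent.Lib.MP_16fe43_al
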