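import Pool.Agent.Lib.MP_16fe43_al.Semi

/-!
# Restricted powers and supports
-/

set_option autoImplicit false

universe u v w

namespace Pool.Agent.Lib.MP_16fe43_al

open MonoidAlgebra

theorem fs_mul {H : Type v} [Group H] {a b : ℤ → H} (ha : {i | a i ≠ 1}.Finite)
    (hb : {i | b i ≠ 1}.Finite) : {i | (a * b) i ≠ 1}.Finite := by
  refine (ha.union hb).subset ?_
  intro i hi
  by_contra h
  rw [Set.mem_union, not_or] at h
  simp only [Set.mem_ofPred_eq, not_not] at h
  apply hi
  rw [Pi.mul_apply, h.1, h.2, mul_one]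

theorem fs_one {H : Type v} [Group H] : {i | (1 : ℤ → H) i ≠ 1}.Finite := by simp

theorem fs_inv {H : Type v} [Group H] {a : ℤ → H} (ha : {i | a i ≠ 1}.Finite) :
    {i | a⁻¹ i ≠ 1}.Finite := by simpa using ha

theorem fs_sub {H : Type v} [Group H] {a : ℤ → H} (ha : {i | a i ≠ 1}.Finite) (c : ℤ) :
    {i | a (i - c) ≠ 1}.Finite := by
  have : {i | a (i - c) ≠ 1} = (fun i => i + c) '' {i | a i ≠ 1} := by
    ext i
    constructor
    · intro h
      exact ⟨i - c, h, by ring⟩
    · rintro ⟨j, hj, rfl⟩
      simpa using hj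
  rw [this]
  exact ha.image _

/-- the restricted direct power `⊕_ℤ H`: functions `ℤ → H` that are `1` outside a finite set -/
def FS (H : Type v) [Group H] : Subgroup (ℤ → H) where
  carrier := {f | {i | f i ≠ 1}.Finite}
  mul_mem' := fs_mul
  one_mem' := fs_one
  inv_mem' := fs_inv

/-- translation of functions: `(transl c f) i = f (i - c)` -/
def transl {H : Type v} [Group H] (c : ℤ) (f : FS H) : FS H := ⟨fun i => f.1 (i - c), fs_sub f.2 c⟩

theorem transl_transl {H : Type v} [Group H] (c d : ℤ) (f : FS H) :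
    transl c (transl d f) = transl (c + d) f := by
  apply Subtype.ext
  funext i
  show f.1 (i - c - d) = f.1 (i - (c + d))
  rw [sub_sub]

theorem transl_zero {H : Type v} [Group H] (f : FS H) : transl 0 f = f := by
  apply Subtype.ext
  funext i
  show f.1 (i - 0) = f.1 i
  rw [sub_zero]

theorem transl_left {H : Type v} [Group H] (f : FS H) : transl (-1) (transl 1 f) = f := by
  rw [transl_transl, neg_add_cancel, transl_zero]

theorem transl_right {H : Type v} [Group H] (f : FS H) : transl 1 (transl (-1) f) = f := by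
  rw [transl_transl, add_neg_cancel, transl_zero]

theorem transl_mul {H : Type v} [Group H] (c : ℤ) (f g : FS H) :
    transl c (f * g) = transl c f * transl c g := rfl

/-- the shift of `⊕_ℤ H`: `(shift f) i = f (i - 1)` -/
def shift (H : Type v) [Group H] : MulAut (FS H) where
  toFun := transl 1
  invFun := transl (-1)
  left_inv := transl_left
  right_inv := transl_right
  map_mul' := transl_mul 1

/-- the restricted wreath product `H ≀ ℤ` -/
abbrev Wr (H : Type v) [Group H] : Type v := SemiZ (FS H) (shift H)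

section

variable {H : Type v} [Group H]

theorem shift_apply (f : FS H) (i : ℤ) : (shift H f).1 i = f.1 (i - 1) := rfl

/-- restriction of a function to a set -/
noncomputable def tr (s : Set ℤ) : FS H →* FS H := by
  classical
  exact
  { toFun := fun f => ⟨fun i => if i ∈ s then f.1 i else 1, by
      refine f.2.subset ?_
      intro i hi
      by_contra h
      simp only [Set.mem_ofPred_eq, not_not] at h
      apply hi
      show (if i ∈ s then f.1 i else 1) = 1
      rw [h]; simp⟩
    map_one' := by
      apply Subtype.ext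
      funext i
      show (if i ∈ s then (1 : FS H).1 i else 1) = 1
      split_ifs <;> rfl
    map_mul' := fun f g => by
      apply Subtype.ext
      funext i
      show (if i ∈ s then (f * g).1 i else 1) = (if i ∈ s then f.1 i else 1) *
        (if i ∈ s then g.1 i else 1)
      split_ifs <;> simp }

theorem tr_mem {s : Set ℤ} {i : ℤ} (h : i ∈ s) (f : FS H) : (tr s f).1 i = f.1 i := by
  classical
  show (if i ∈ s then f.1 i else 1) = f.1 i
  rw [if_pos h]

theorem tr_not_mem {s : Set ℤ} {i : ℤ} (h : i ∉ s) (f : FS H) : (tr s f).1 i = 1 := by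
  classical
  show (if i ∈ s then f.1 i else 1) = 1
  rw [if_neg h]

/-- functions supported on `s` -/
def KS (H : Type v) [Group H] (s : Set ℤ) : Subgroup (FS H) where
  carrier := {f | ∀ i, i ∉ s → f.1 i = 1}
  mul_mem' := by
    intro a b ha hb i hi
    show a.1 i * b.1 i = 1
    rw [ha i hi, hb i hi, mul_one]
  one_mem' := by intro i _; rfl
  inv_mem' := by
    intro a ha i hi
    show (a.1 i)⁻¹ = 1
    rw [ha i hi, inv_one]

theorem mem_KS {s : Set ℤ} {f : FS H} : f ∈ KS H s ↔ ∀ i, i ∉ s → f.1 i = 1 := Iff.rfl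

theorem KS_mono {s t : Set ℤ} (h : s ⊆ t) : KS H s ≤ KS H t :=
  fun _ hf i hi => hf i (fun h2 => hi (h h2))

theorem tr_of_mem {s : Set ℤ} {f : FS H} (hf : f ∈ KS H s) : tr s f = f := by
  apply Subtype.ext
  funext i
  by_cases hi : i ∈ s
  · exact tr_mem hi f
  · rw [tr_not_mem hi, hf i hi]

theorem tr_mem_KS (s : Set ℤ) (f : FS H) : tr s f ∈ KS H s := fun _ hi => tr_not_mem hi f

theorem tr_of_disjoint {s t : Set ℤ} (hst : ∀ i ∈ s, i ∉ t) {f : FS H} (hf : f ∈ KS H t) :
    tr s f = 1 := by
  apply Subtype.ext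
  funext i
  by_cases hi : i ∈ s
  · rw [tr_mem hi, hf i (hst i hi)]; rfl
  · rw [tr_not_mem hi]; rfl

theorem exists_window (f : FS H) : ∃ w : ℕ, f ∈ KS H (Set.Icc (-(w : ℤ)) w) := by
  obtain ⟨b, hb⟩ := f.2.bddAbove
  obtain ⟨a, ha⟩ := f.2.bddBelow
  refine ⟨a.natAbs + b.natAbs, fun i hi => ?_⟩
  by_contra h
  apply hi
  have h1 := hb h
  have h2 := ha h
  rw [Set.mem_Icc]
  constructor <;> omega

end

/-- support of an element of the group ring contained in a subgroup -/
def Sup {k : Type u} [Ring k] {L : Type v} [Group L] (K : Subgroup L) (r : MonoidAlgebra k L) :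
    Prop := ∀ f, r.coeff f ≠ 0 → f ∈ K

section

variable {k : Type u} [Ring k] {L : Type v} [Group L] {K : Subgroup L}

theorem Sup.zero : Sup K (0 : MonoidAlgebra k L) := fun f hf => absurd rfl hf

theorem Sup.single {l : L} (hl : l ∈ K) (c : k) : Sup K (MonoidAlgebra.single l c) := by
  classical
  intro f hf
  rw [coeff_single, Finsupp.single_apply] at hf
  split_ifs at hf with h
  · rwa [← h]
  · exact absurd rfl hf

theorem Sup.add {r s : MonoidAlgebra k L} (hr : Sup K r) (hs : Sup K s) : Sup K (r + s) := by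
  intro f hf
  by_contra h
  apply hf
  have h1 : r.coeff f = 0 := by by_contra h2; exact h (hr f h2)
  have h3 : s.coeff f = 0 := by by_contra h2; exact h (hs f h2)
  rw [coeff_add, Finsupp.add_apply, h1, h3, add_zero]

theorem Sup.neg {r : MonoidAlgebra k L} (hr : Sup K r) : Sup K (-r) := by
  intro f hf
  refine hr f ?_
  intro h
  apply hf
  simp [h]

theorem Sup.sum {ι : Type*} (s : Finset ι) (r : ι → MonoidAlgebra k L)
    (h : ∀ i ∈ s, Sup K (r i)) : Sup K (∑ i ∈ s, r i) := by
  classical
  induction s using Finset.induction_on with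
  | empty => simpa using Sup.zero
  | insert a s ha ih =>
    rw [Finset.sum_insert ha]
    exact (h a (Finset.mem_insert_self a s)).add
      (ih fun i hi => h i (Finset.mem_insert_of_mem hi))

theorem Sup.mul {r s : MonoidAlgebra k L} (hr : Sup K r) (hs : Sup K s) : Sup K (r * s) := by
  classical
  have h1 : r * s = ∑ f ∈ r.coeff.support, ∑ g ∈ s.coeff.support,
      MonoidAlgebra.single (f * g) (r.coeff f * s.coeff g) := by
    rw [mul_def]
    rfl
  rw [h1]
  refine Sup.sum _ _ fun f hf => Sup.sum _ _ fun g hg => Sup.single ?_ _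
  exact K.mul_mem (hr f (Finsupp.mem_support_iff.1 hf)) (hs g (Finsupp.mem_support_iff.1 hg))

theorem Sup.mono {K' : Subgroup L} (h : K ≤ K') {r : MonoidAlgebra k L} (hr : Sup K r) :
    Sup K' r := fun f hf => h (hr f hf)

theorem Sup.map {L' : Type w} [Group L'] {K' : Subgroup L'} (g : L →* L')
    (hg : ∀ l ∈ K, g l ∈ K') {r : MonoidAlgebra k L} (hr : Sup K r) :
    Sup K' (mapDomainRingHom k g r) := by
  classical
  have h1 : r = ∑ f ∈ r.coeff.support, MonoidAlgebra.single f (r.coeff f) := by
    conv_lhs => rw [← sum_coeff_single r]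
    rfl
  rw [h1, map_sum]
  refine Sup.sum _ _ fun f hf => ?_
  have : mapDomainRingHom k g (MonoidAlgebra.single f (r.coeff f)) =
      MonoidAlgebra.single (g f) (r.coeff f) := by simp
  rw [this]
  exact Sup.single (hg f (hr f (Finsupp.mem_support_iff.1 hf))) _

theorem map_eq_of_sup (g : L →* L) (hg : ∀ l ∈ K, g l = l) {r : MonoidAlgebra k L}
    (hr : Sup K r) : mapDomainRingHom k g r = r := by
  classical
  have h1 : r = ∑ f ∈ r.coeff.support, MonoidAlgebra.single f (r.coeff f) := by
    conv_lhs => rw [← sum_coeff_single r]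
    rfl
  conv_lhs => rw [h1]
  conv_rhs => rw [h1]
  rw [map_sum]
  refine Finset.sum_congr rfl fun f hf => ?_
  have : mapDomainRingHom k g (MonoidAlgebra.single f (r.coeff f)) =
      MonoidAlgebra.single (g f) (r.coeff f) := by simp
  rw [this, hg f (hr f (Finsupp.mem_support_iff.1 hf))]

/-- the augmentation -/
noncomputable def aug (k : Type u) [Ring k] (L : Type v) [Group L] : MonoidAlgebra k L →+* k :=
  (MonoidAlgebra.uniqueRingEquiv (R := k) (M := PUnit.{1}) : MonoidAlgebra k PUnit.{1} ≃+*
    k).toRingHom.comp (mapDomainRingHom k (1 : L →* PUnit.{1}))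

theorem aug_single (l : L) (c : k) : aug k L (MonoidAlgebra.single l c) = c := by
  simp [aug]

theorem map_eq_aug (g : L →* L) (hg : ∀ l ∈ K, g l = 1) {r : MonoidAlgebra k L}
    (hr : Sup K r) : mapDomainRingHom k g r = MonoidAlgebra.single 1 (aug k L r) := by
  classical
  have h1 : r = ∑ f ∈ r.coeff.support, MonoidAlgebra.single f (r.coeff f) := by
    conv_lhs => rw [← sum_coeff_single r]
    rfl
  have h2 : ∀ s : Finset L, (∀ f ∈ s, f ∈ K) → ∀ c : L → k,
      mapDomainRingHom k g (∑ f ∈ s, MonoidAlgebra.single f (c f)) =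
      MonoidAlgebra.single 1 (aug k L (∑ f ∈ s, MonoidAlgebra.single f (c f))) := by
    intro s hs c
    rw [map_sum, map_sum]
    have h3 : ∀ f ∈ s, mapDomainRingHom k g (MonoidAlgebra.single f (c f)) =
        MonoidAlgebra.single 1 (c f) := by
      intro f hf
      have : mapDomainRingHom k g (MonoidAlgebra.single f (c f)) =
        MonoidAlgebra.single (g f) (c f) := by simp
      rw [this, hg f (hs f hf)]
    rw [Finset.sum_congr rfl h3]
    simp only [aug_single]
    exact (map_sum (singleAddHom (R := k) (1 : L)) c s).symm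
  have h4 := h2 r.coeff.support (fun f hf => hr f (Finsupp.mem_support_iff.1 hf)) r.coeff
  rw [← h1] at h4
  exact h4

end

end Pool.Agent.Lib.MP_16fe43_al
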