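import Pool.Agent.Lib.MP_16fe43_al.MonRep
import Pool.Agent.Lib.MP_16fe43_al.RestrictedProduct

set_option autoImplicit false
set_option linter.unusedSectionVars false

/-!
# Unrestricted wreath products with `ℤ` and two embeddings
-/

universe u v w

namespace Pool.Agent.Lib.BHS16

open Pool.Agent.Lib.CutK1

noncomputable section

/-- a homomorphism `G → H` which is injective on Whitehead groups -/
def WhInj {G : Type u} {H : Type v} [Group G] [Group H] (f : G →* H) : Prop :=
  ∀ x : K1 (IntGroupRing G), K1.map (grMap f) x ∈ trivialUnits H → x ∈ trivialUnits G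

theorem WhInj.id (G : Type u) [Group G] : WhInj (MonoidHom.id G) := by
  intro x hx
  have h2 : grMap (MonoidHom.id G) = RingHom.id (IntGroupRing G) :=
    MonoidAlgebra.mapDomainRingHom_id
  rwa [h2, K1.map_id] at hx

theorem WhInj.comp {G : Type u} {H : Type v} {K : Type w} [Group G] [Group H] [Group K]
    {g : H →* K} {f : G →* H} (hg : WhInj g) (hf : WhInj f) : WhInj (g.comp f) := by
  intro x hx
  rw [← K1.map_grMap_comp] at hx
  exact hf x (hg _ hx)

/-- translation of functions -/
def shiftAut (K : Type u) [Group K] : Multiplicative ℤ →* MulAut (ℤ → K) where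
  toFun m :=
    { toFun := fun f x => f (x - Multiplicative.toAdd m)
      invFun := fun f x => f (x + Multiplicative.toAdd m)
      left_inv := fun f => by funext x; simp
      right_inv := fun f => by funext x; simp
      map_mul' := fun f g => rfl }
  map_one' := by
    ext f x
    simp
  map_mul' m n := by
    ext f x
    simp only [MulAut.mul_apply, MulEquiv.coe_mk, Equiv.coe_fn_mk, toAdd_mul]
    congr 1
    ring

/-- the unrestricted wreath product of `K` and `ℤ` -/
abbrev Wr (K : Type u) [Group K] : Type u := (ℤ → K) ⋊[shiftAut K] Multiplicative ℤ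

section Wr

variable {K : Type u} [Group K]

theorem Wr.mul_left_apply (a b : Wr K) (x : ℤ) :
    (a * b).left x = a.left x * b.left (x - Multiplicative.toAdd a.right) := rfl

theorem Wr.inv_left_apply (a : Wr K) (x : ℤ) :
    (a⁻¹).left x = (a.left (x + Multiplicative.toAdd a.right))⁻¹ := by
  have h : (a⁻¹).left x = (a.left)⁻¹ (x - Multiplicative.toAdd a.right⁻¹) := rfl
  rw [h, toAdd_inv, sub_neg_eq_add]
  rfl

theorem Wr.torsionFree (hK : TorsionFree K) : TorsionFree (Wr K) := by
  intro a ha
  have h1 : a.right = 1 := by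
    have h2 : IsOfFinOrder (SemidirectProduct.rightHom a) :=
      MonoidHom.isOfFinOrder (SemidirectProduct.rightHom) ha
    rw [isOfFinOrder_iff_pow_eq_one] at h2
    obtain ⟨n, hn, h3⟩ := h2
    have h4 : n • Multiplicative.toAdd a.right = 0 := by
      have := congrArg Multiplicative.toAdd h3
      rwa [toAdd_pow, toAdd_one] at this
    rw [nsmul_eq_mul, mul_eq_zero] at h4
    rcases h4 with h4 | h4
    · exfalso
      have : n = 0 := by exact_mod_cast h4
      omega
    · exact toAdd_eq_zero.1 h4
  have h5 : a = SemidirectProduct.inl a.left := by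
    ext x
    · rfl
    · rw [h1]; rfl
  rw [h5] at ha ⊢
  have h6 : IsOfFinOrder a.left := by
    rw [isOfFinOrder_iff_pow_eq_one] at ha ⊢
    obtain ⟨n, hn, h7⟩ := ha
    refine ⟨n, hn, ?_⟩
    rw [← map_pow] at h7
    exact SemidirectProduct.inl_injective (h7.trans (map_one _).symm)
  have h8 : a.left = 1 := TorsionFree.pi (fun _ => hK) a.left h6
  rw [h8, map_one]

/-- the monomial action of a subgroup of the wreath product -/
def Wr.monRep (C : Subgroup (Wr K)) : MonRep C K where
  sh := SemidirectProduct.rightHom.comp C.subtype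
  co g x := (g : Wr K).left (x + Multiplicative.toAdd (g : Wr K).right)
  co_mul := by
    intro g h x
    show ((g : Wr K) * h).left (x + Multiplicative.toAdd ((g : Wr K) * h).right) =
      (g : Wr K).left (x + Multiplicative.toAdd (h : Wr K).right +
        Multiplicative.toAdd (g : Wr K).right) *
      (h : Wr K).left (x + Multiplicative.toAdd (h : Wr K).right)
    rw [Wr.mul_left_apply, SemidirectProduct.mul_right, toAdd_mul]
    have e1 : x + (Multiplicative.toAdd (g : Wr K).right + Multiplicative.toAdd (h : Wr K).right) =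
      x + Multiplicative.toAdd (h : Wr K).right + Multiplicative.toAdd (g : Wr K).right := by ring
    have e2 : x + Multiplicative.toAdd (h : Wr K).right + Multiplicative.toAdd (g : Wr K).right -
      Multiplicative.toAdd (g : Wr K).right = x + Multiplicative.toAdd (h : Wr K).right := by ring
    rw [e1, e2]

/-- the embedding at the coordinate `0` -/
def Wr.at0 (K : Type u) [Group K] : K →* Wr K :=
  SemidirectProduct.inl.comp (MonoidHom.mulSingle (fun _ : ℤ => K) 0)

theorem Wr.at0_left (k : K) (x : ℤ) : (Wr.at0 K k).left x = if x = 0 then k else 1 := by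
  show (Pi.mulSingle 0 k : ℤ → K) x = _
  by_cases h : x = 0
  · subst h; simp
  · rw [Pi.mulSingle_eq_of_ne h, if_neg h]

theorem Wr.at0_right (k : K) : (Wr.at0 K k).right = 1 := rfl

/-- the truncation lemma for subgroups of wreath products -/
theorem Wr.cutWh {K₀ : Type w} [Group K₀] (C : Subgroup (Wr K)) (Z : Subgroup K)
    (hZ : Subsingleton (Wh Z)) (D : ℕ → Finset ℤ) (h0 : ∀ᶠ n in Filter.atTop, (0 : ℤ) ∈ D n)
    (hz : ∀ g ∈ C, ∀ (k : ℕ), ∀ᶠ n in Filter.atTop, ∀ x ∈ D n, nearB (D n) k x →
      g.left (x + Multiplicative.toAdd g.right) ∈ Z)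
    (j : K₀ →* K) (hj : ∀ g, Wr.at0 K (j g) ∈ C) (x : K1 (IntGroupRing K₀))
    (hx : K1.map (grMap (((Wr.at0 K).comp j).codRestrict C hj)) x ∈ trivialUnits C) :
    K1.map (grMap j) x ∈ trivialUnits K := by
  refine (Wr.monRep C).cutWh Z hZ D h0 (fun g k => hz g g.2 k) _ j ?_ ?_ ?_ x hx
  · intro g
    rfl
  · intro g
    show (Wr.at0 K (j g)).left (0 + 0) = j g
    rw [Wr.at0_left, add_zero, if_pos rfl]
  · intro g y hy
    show (Wr.at0 K (j g)).left (y + 0) = 1
    rw [Wr.at0_left, add_zero, if_neg hy]

theorem countable_closure {G : Type u} [Group G] {α : Type v} [Countable α] (s : α → G) :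
    Countable (Subgroup.closure (Set.range s)) := by
  have h : Subgroup.closure (Set.range s) = (FreeGroup.lift s).range :=
    FreeGroup.range_lift_eq_closure.symm
  rw [h]
  exact (MonoidHom.rangeRestrict_surjective _).countable

end Wr

/-! ### Making one element a commutator -/

section Step1

variable {H : Type u} [Group H]

/-- the function with value `h` at the negative integers -/
def stepF (h : H) : ℤ → H := fun x => if x < 0 then h else 1

/-- generators -/
def gen1 (h : H) : H ⊕ Bool → Wr H
  | Sum.inl k => Wr.at0 H k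
  | Sum.inr true => SemidirectProduct.inl (stepF h)
  | Sum.inr false => SemidirectProduct.inr (Multiplicative.ofAdd 1)

/-- the group -/
def C1 (h : H) : Subgroup (Wr H) := Subgroup.closure (Set.range (gen1 h))

theorem C1.at0_mem (h : H) (k : H) : Wr.at0 H k ∈ C1 h :=
  Subgroup.subset_closure ⟨Sum.inl k, rfl⟩

/-- the inclusion -/
def C1.incl (h : H) : H →* C1 h := (Wr.at0 H).codRestrict (C1 h) (C1.at0_mem h)

instance (h : H) [Countable H] : Countable (C1 h) := countable_closure (gen1 h)

theorem C1.torsionFree (h : H) (hH : TorsionFree H) : TorsionFree (C1 h) :=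
  (Wr.torsionFree hH).of_injective (C1 h).subtype Subtype.coe_injective

theorem C1.mem_commutator (h : H) : C1.incl h h ∈ commutator (C1 h) := by
  let t : C1 h := ⟨SemidirectProduct.inr (Multiplicative.ofAdd 1),
    Subgroup.subset_closure ⟨Sum.inr false, rfl⟩⟩
  let F : C1 h := ⟨SemidirectProduct.inl (stepF h), Subgroup.subset_closure ⟨Sum.inr true, rfl⟩⟩
  have h1 : C1.incl h h = t * F * t⁻¹ * F⁻¹ := by
    apply Subtype.ext
    show Wr.at0 H h = (t : Wr H) * F * (t : Wr H)⁻¹ * (F : Wr H)⁻¹
    apply SemidirectProduct.ext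
    · funext x
      rw [Wr.at0_left, Wr.mul_left_apply, Wr.mul_left_apply, Wr.mul_left_apply,
        Wr.inv_left_apply, Wr.inv_left_apply]
      show _ = 1 * stepF h (x - 1) * (1)⁻¹ * (stepF h (x - (1 + 0 + -1) + 0))⁻¹
      unfold stepF
      by_cases h2 : x = 0
      · subst h2; simp
      · rw [if_neg h2]
        by_cases h3 : x < 0
        · rw [if_pos (by omega), if_pos (by omega)]; simp
        · rw [if_neg (by omega), if_neg (by omega)]; simp
    · show (1 : Multiplicative ℤ) = Multiplicative.ofAdd 1 * 1 * (Multiplicative.ofAdd 1)⁻¹ * 1⁻¹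
      simp
  rw [h1, ← commutatorElement_def]
  exact Subgroup.commutator_mem_commutator (Subgroup.mem_top _) (Subgroup.mem_top _)

/-- elements which are eventually constant -/
theorem C1.tail (h : H) (g : Wr H) (hg : g ∈ C1 h) :
    ∃ (N : ℕ) (e : ℤ), ∀ x : ℤ, (N ≤ x → g.left x = 1) ∧ (x ≤ -N → g.left x = h ^ e) := by
  unfold C1 at hg
  induction hg using Subgroup.closure_induction with
  | mem g hg =>
    obtain ⟨y, rfl⟩ := hg
    rcases y with k | (_ | _)
    · refine ⟨1, 0, fun x => ⟨fun hx => ?_, fun hx => ?_⟩⟩
      · show (Wr.at0 H k).left x = 1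
        rw [Wr.at0_left, if_neg (by omega)]
      · show (Wr.at0 H k).left x = _
        rw [Wr.at0_left, if_neg (by omega), zpow_zero]
    · exact ⟨0, 0, fun x => ⟨fun _ => rfl, fun _ => by rw [zpow_zero]; rfl⟩⟩
    · refine ⟨1, 1, fun x => ⟨fun hx => ?_, fun hx => ?_⟩⟩
      · show stepF h x = 1
        unfold stepF
        rw [if_neg (by omega)]
      · show stepF h x = _
        unfold stepF
        rw [if_pos (by omega), zpow_one]
  | one => exact ⟨0, 0, fun x => ⟨fun _ => rfl, fun _ => by rw [zpow_zero]; rfl⟩⟩
  | mul a b _ _ ha hb =>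
    obtain ⟨N, e, hN⟩ := ha
    obtain ⟨N', e', hN'⟩ := hb
    refine ⟨N + N' + (Multiplicative.toAdd a.right).natAbs, e + e',
      fun x => ⟨fun hx => ?_, fun hx => ?_⟩⟩
    · rw [Wr.mul_left_apply, (hN x).1 (by omega),
        (hN' _).1 (by omega), one_mul]
    · rw [Wr.mul_left_apply, (hN x).2 (by omega),
        (hN' _).2 (by omega), zpow_add]
  | inv a _ ha =>
    obtain ⟨N, e, hN⟩ := ha
    refine ⟨N + (Multiplicative.toAdd a.right).natAbs, -e,
      fun x => ⟨fun hx => ?_, fun hx => ?_⟩⟩
    · rw [Wr.inv_left_apply, (hN _).1 (by omega), inv_one]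
    · rw [Wr.inv_left_apply, (hN _).2 (by omega), zpow_neg]

theorem C1.whInj (h : H) (hZ : Subsingleton (Wh (Subgroup.zpowers h))) :
    WhInj (C1.incl h) := by
  intro x hx
  have h1 := Wr.cutWh (C1 h) (Subgroup.zpowers h) hZ (fun n => Finset.Ico (-(n : ℤ)) n) ?_ ?_
    (MonoidHom.id H) (C1.at0_mem h) x hx
  · exact WhInj.id H x h1
  · filter_upwards [Filter.eventually_ge_atTop 1] with n hn
    rw [Finset.mem_Ico]
    omega
  · intro g hg k
    obtain ⟨N, e, hN⟩ := C1.tail h g hg
    filter_upwards [Filter.eventually_ge_atTop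
      (N + k + (Multiplicative.toAdd g.right).natAbs + 1)] with n hn x hx hx'
    obtain ⟨j, hj, hj'⟩ := hx'
    rw [abs_le] at hj
    rw [Finset.mem_Ico] at hx hj'
    by_cases hp : 0 ≤ x
    · rw [(hN _).1 (by omega)]
      exact Subgroup.one_mem _
    · rw [(hN _).2 (by omega)]
      exact Subgroup.zpow_mem_zpowers h e

/-- embedding which makes finitely many elements products of commutators -/
theorem exists_perfecting (n : ℕ) : ∀ (H : Type) [Group H] [Countable H], TorsionFree H →
    ∀ s : Fin n → H, ∃ (K : Type) (_ : Group K) (i : H →* K), Countable K ∧ TorsionFree K ∧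
      (Subsingleton (Wh (Multiplicative ℤ)) → WhInj i) ∧ ∀ a, i (s a) ∈ commutator K := by
  induction n with
  | zero =>
    intro H _ _ hH s
    exact ⟨H, inferInstance, MonoidHom.id H, inferInstance, hH, fun _ => WhInj.id H,
      fun a => Fin.elim0 a⟩
  | succ n ih =>
    intro H _ _ hH s
    obtain ⟨K, gK, i, cK, tK, wK, iK⟩ := ih (C1 (s 0)) (C1.torsionFree _ hH)
      (fun a => C1.incl (s 0) (s a.succ))
    refine ⟨K, gK, i.comp (C1.incl (s 0)), cK, tK, fun hW => ?_, fun a => ?_⟩
    · refine (wK hW).comp (C1.whInj (s 0) ?_)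
      by_cases h1 : s 0 = 1
      · refine wh_retract (1 : Subgroup.zpowers (s 0) →* Multiplicative ℤ) 1 ?_ hW
        ext y
        obtain ⟨k, hk⟩ := Subgroup.mem_zpowers_iff.1 y.2
        have h2 : s 0 ^ k = 1 := by rw [h1, one_zpow]
        show (1 : H) = y
        rw [← hk, h2]
      · let q : Multiplicative ℤ →* Subgroup.zpowers (s 0) :=
          zpowersHom _ ⟨s 0, Subgroup.mem_zpowers (s 0)⟩
        have hq : Function.Bijective q := by
          constructor
          · rw [injective_iff_map_eq_one]
            intro m hm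
            have h2 : (s 0) ^ (Multiplicative.toAdd m) = 1 := by
              have := congrArg Subtype.val hm
              simpa [q] using this
            by_contra h3
            have h4 : Multiplicative.toAdd m ≠ 0 := fun h => h3 (toAdd_eq_zero.1 h)
            have h5 : IsOfFinOrder (s 0) := by
              rw [isOfFinOrder_iff_zpow_eq_one]
              exact ⟨_, h4, h2⟩
            exact h1 (hH _ h5)
          · rintro ⟨y, hy⟩
            obtain ⟨k, hk⟩ := Subgroup.mem_zpowers_iff.1 hy
            refine ⟨Multiplicative.ofAdd k, ?_⟩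
            apply Subtype.ext
            simpa [q] using hk
        let e := MulEquiv.ofBijective q hq
        exact wh_retract e.symm.toMonoidHom e.toMonoidHom (by ext y; simp) hW
    · refine Fin.cases ?_ ?_ a
      · have h1 := C1.mem_commutator (s 0)
        have h2 : commutator (C1 (s 0)) ≤ (commutator K).comap i := by
          rw [← Subgroup.map_le_iff_le_comap, commutator_def, Subgroup.map_commutator,
            commutator_def]
          exact Subgroup.commutator_mono le_top le_top
        exact h2 h1
      · intro b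
        exact iK b

end Step1

end

end Pool.Agent.Lib.BHS16
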